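import Pool.Agent.Lib.Pf720mp.Defs

/-!
# Polynomial families of commuting maps

`P i = ∑_s coeff s (P i) X^s`. Let `D` bound all the exponents `s l` of monomials of the
`P i`; then `eval m (P i) = ∑_{γ : Ex κ D} a_i(γ) * mon m γ` with `a_i(γ) = coeff (γ as finsupp) (P i)`,
so `act (eval m P) = R (mon m)` for `R v = act (fun i => ∑_γ a_i(γ) * v γ)`, which is additive and
measure preserving.
-/

set_option autoImplicit false
set_option linter.unusedSectionVars false

open Finset MeasureTheory Filter Topology
open scoped ENNReal NNReal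

namespace Pool.Agent.Lib.Pf720mp

variable {κ : Type} [Fintype κ] [DecidableEq κ] {X : Type} [MeasurableSpace X] {μ : Measure X}

/-- the exponent as a finitely supported function -/
noncomputable def exs {D : ℕ} (γ : Ex κ D) : κ →₀ ℕ :=
  Finsupp.equivFunOnFinite.symm fun l => (γ l : ℕ)

lemma exs_apply {D : ℕ} (γ : Ex κ D) (l : κ) : exs γ l = (γ l : ℕ) := rfl

lemma exs_injective {D : ℕ} : Function.Injective (exs : Ex κ D → κ →₀ ℕ) := by
  intro γ δ h
  funext l
  have := DFunLike.congr_fun h l
  rw [exs_apply, exs_apply] at this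
  exact Fin.ext this

lemma eval_eq_sum_ex {D : ℕ} (p : MvPolynomial κ ℤ) (hD : p.totalDegree ≤ D) (m : κ → ℕ) :
    MvPolynomial.eval (fun l => (m l : ℤ)) p =
      ∑ γ : Ex κ D, p.coeff (exs γ) * (mon m γ : ℤ) := by
  rw [MvPolynomial.eval_eq']
  have h1 : ∑ γ : Ex κ D, p.coeff (exs γ) * (mon m γ : ℤ) =
      ∑ d ∈ (univ : Finset (Ex κ D)).map ⟨exs, exs_injective⟩,
        p.coeff d * ∏ i, (m i : ℤ) ^ d i := by
    rw [Finset.sum_map]
    refine Finset.sum_congr rfl fun γ _ => ?_
    simp [mon, exs_apply]
  rw [h1]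
  refine Finset.sum_subset ?_ ?_
  · intro d hd
    rw [Finset.mem_map]
    have hle : ∀ l, d l < D + 1 := by
      intro l
      have h2 : d l ≤ d.sum fun _ e => e := by
        by_cases hl : d l = 0
        · rw [hl]
          exact Nat.zero_le _
        · exact Finset.single_le_sum (f := fun l => d l) (fun _ _ => Nat.zero_le _)
            (Finsupp.mem_support_iff.2 hl)
      have h3 := MvPolynomial.le_totalDegree hd
      omega
    refine ⟨fun l => ⟨d l, hle l⟩, Finset.mem_univ _, ?_⟩
    ext l
    rfl
  · intro d _ hd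
    rw [MvPolynomial.notMem_support_iff.1 hd, zero_mul]

/-- polynomial families as restrictions of additive families to the polynomial embedding -/
theorem exists_embedding {d : ℕ} {act : (Fin d → ℤ) → X → X}
    (hadd : ∀ p q x, act (p + q) x = act p (act q x)) (hmp : ∀ p, MeasurePreserving (act p) μ μ)
    (P : Fin d → MvPolynomial κ ℤ) : ∃ (D : ℕ) (R : (Ex κ D → ℕ) → X → X),
      (∀ m n x, R (m + n) x = R m (R n x)) ∧ (∀ m, MeasurePreserving (R m) μ μ) ∧
      ∀ (m : κ → ℕ) x,
        act (fun i => MvPolynomial.eval (fun l => (m l : ℤ)) (P i)) x = R (mon m) x := by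
  refine ⟨∑ i, (P i).totalDegree,
    fun v => act fun i => ∑ γ, (P i).coeff (exs γ) * (v γ : ℤ), ?_, fun m => hmp _, ?_⟩
  · intro m n x
    show act _ x = act _ (act _ x)
    rw [← hadd]
    congr 1
    funext i
    simp only [Pi.add_apply]
    rw [← Finset.sum_add_distrib]
    refine Finset.sum_congr rfl fun γ _ => ?_
    push_cast
    ring
  · intro m x
    show act _ x = act _ x
    congr 1
    funext i
    exact eval_eq_sum_ex (P i) (Finset.single_le_sum (f := fun i => (P i).totalDegree)
      (fun _ _ => Nat.zero_le _) (Finset.mem_univ i)) m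

end Pool.Agent.Lib.Pf720mp
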