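import Pool.Agent.Lib.Pf720mp.Trf
import Pool.Agent.Lib.Pf720mp.Emb
import Pool.Agent.Lib.Pf720ae.Poly.MaxBd

/-!
# Strong maximal inequality for arbitrary polynomial families of commuting maps

`act_max`: by monotone convergence it suffices to bound the supremum over the finitely many `M` with
`M l + 1 ≤ 2 ^ J` (`NS` is a supremum over `M` of averages over `boxs univ (M + 1) = bx (M + 1)`), for
`g` with finite values: if `∫ g² = ∞` nothing to prove, otherwise replace `g` by `min g k`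
(monotone convergence) or note that `g < ∞` a.e. Apply `transfer_mp` to
`G a = sup_{M : 1 ≤ M l ≤ 2 ^ J} ‖a M‖₊ ^ 2` and `f = (g.toReal : ℂ)`; `hfin` is `maxfin_mp` with a
maximising choice of `M x` (`Finset.exists_mem_eq_sup`).

`maxBd_mp`: `exists_embedding` and `act_max`.
-/

set_option autoImplicit false
set_option linter.unusedSectionVars false

open Finset MeasureTheory Filter Topology
open scoped ENNReal NNReal
open Pool.Agent.Lib.Pf720ae (NS MaxBd)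

namespace Pool.Agent.Lib.Pf720mp

section aux

variable {ι : Type} [Fintype ι] [DecidableEq ι] {D : ℕ} {X : Type} [MeasurableSpace X]
  {μ : Measure X}

lemma boxs_univ_eq (M : ι → ℕ) : Pool.Agent.Lib.Pf720ae.boxs Finset.univ M = bx M := by
  ext m
  rw [Pool.Agent.Lib.Pf720ae.mem_boxs, mem_bx]
  simp

/-- one average -/
noncomputable def tm (R : (Ex ι D → ℕ) → X → X) (g : X → ℝ≥0∞) (M : ι → ℕ) (x : X) : ℝ≥0∞ :=
  (∏ l, ((M l : ℝ≥0∞) + 1))⁻¹ * ∑ m ∈ bx (fun l => M l + 1), g (R (mon m) x)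

lemma NS_eq_tm (R : (Ex ι D → ℕ) → X → X) (g : X → ℝ≥0∞) (x : X) :
    NS (fun (m : ι → ℕ) x => R (mon m) x) g x = ⨆ M, tm R g M x := by
  unfold Pool.Agent.Lib.Pf720ae.NS Pool.Agent.Lib.Pf720ae.PN tm
  simp only [boxs_univ_eq]

lemma measurable_tm {R : (Ex ι D → ℕ) → X → X} (hR : ∀ m, Measurable (R m)) {g : X → ℝ≥0∞}
    (hg : Measurable g) (M : ι → ℕ) : Measurable (tm R g M) :=
  (Finset.measurable_fun_sum _ fun _ _ => hg.comp (hR _)).const_mul _

lemma measurable_gsup {Y I : Type*} [MeasurableSpace Y] (s : Finset I) {f : I → Y → ℝ≥0}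
    (hf : ∀ j, Measurable (f j)) : Measurable fun x => s.sup fun j => f j x := by
  classical
  induction s using Finset.induction_on with
  | empty =>
    simp only [Finset.sup_empty]
    exact measurable_const
  | insert a s ha ih =>
    simp only [Finset.sup_insert]
    exact (hf a).sup ih

lemma measurable_esup {Y I : Type*} [MeasurableSpace Y] (s : Finset I) {f : I → Y → ℝ≥0∞}
    (hf : ∀ j, Measurable (f j)) : Measurable fun x => s.sup fun j => f j x := by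
  classical
  induction s using Finset.induction_on with
  | empty =>
    simp only [Finset.sup_empty]
    exact measurable_const
  | insert a s ha ih =>
    simp only [Finset.sup_insert]
    exact (hf a).sup ih

/-- the indices of the boxes of sides at most `2 ^ J` -/
def IJ (ι : Type) [Fintype ι] [DecidableEq ι] (J : ℕ) : Finset (ι → ℕ) :=
  Fintype.piFinset fun _ => range (2 ^ J)

lemma mem_IJ {J : ℕ} {M : ι → ℕ} : M ∈ IJ ι J ↔ ∀ l, M l < 2 ^ J := by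
  simp [IJ]

lemma enorm_Av (R : (Ex ι D → ℕ) → X → X) (g : X → ℝ≥0) (x : X) (M : ι → ℕ) :
    ‖Av R (fun x => ((g x : ℝ) : ℂ)) x (fun l => M l + 1)‖ₑ =
      tm R (fun x => (g x : ℝ≥0∞)) M x := by
  have h1 : Av R (fun x => ((g x : ℝ) : ℂ)) x (fun l => M l + 1) =
      ((((∏ l, ((M l : ℝ≥0) + 1))⁻¹ * ∑ m ∈ bx (fun l => M l + 1), g (R (mon m) x) : ℝ≥0) : ℝ) :
        ℂ) := by
    unfold Av
    push_cast
    rfl
  have h2 : (∏ l, ((M l : ℝ≥0) + 1)) ≠ 0 := Finset.prod_ne_zero_iff.2 fun l _ => by positivity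
  have h3 : tm R (fun x => (g x : ℝ≥0∞)) M x =
      (((∏ l, ((M l : ℝ≥0) + 1))⁻¹ * ∑ m ∈ bx (fun l => M l + 1), g (R (mon m) x) : ℝ≥0) :
        ℝ≥0∞) := by
    unfold tm
    rw [ENNReal.coe_mul, ENNReal.coe_inv h2]
    push_cast
    rfl
  rw [h1, h3, enorm_eq_nnnorm, Complex.nnnorm_real, NNReal.nnnorm_eq]

lemma level_bound {A : ℝ} (hA : 0 ≤ A)
    (hmax : ∀ (L : ℕ) [NeZero L] (F : (Ex ι D → ZMod L) → ℂ) (M : (Ex ι D → ZMod L) → ι → ℕ),
      (∀ x l, 0 < M x l) → ∑ x, ‖TA F x (M x)‖ ^ 2 ≤ A * ∑ x, ‖F x‖ ^ 2)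
    {R : (Ex ι D → ℕ) → X → X} (hRadd : ∀ m n x, R (m + n) x = R m (R n x))
    (hR : ∀ m, MeasurePreserving (R m) μ μ) {g : X → ℝ≥0} (hg : Measurable g) (J : ℕ) :
    ∫⁻ x, ((IJ ι J).sup fun M => (tm R (fun x => (g x : ℝ≥0∞)) M x) ^ 2) ∂μ ≤
      (2 ^ Fintype.card (Ex ι D) * A.toNNReal : ℝ≥0) * ∫⁻ x, (g x : ℝ≥0∞) ^ 2 ∂μ := by
  set G : ((ι → ℕ) → ℂ) → ℝ≥0 := fun a => (IJ ι J).sup fun M => ‖a (fun l => M l + 1)‖₊ ^ 2 with hG
  have hGm : Measurable G := measurable_gsup _ fun M =>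
    (measurable_pi_apply (fun l => M l + 1)).nnnorm.pow_const 2
  have hGloc : ∀ a b : (ι → ℕ) → ℂ, (∀ M : ι → ℕ, (∀ l, M l ≤ 2 ^ J) → a M = b M) →
      G a = G b := by
    intro a b hab
    simp only [hG]
    refine Finset.sup_congr rfl fun M hM => ?_
    rw [hab _ fun l => mem_IJ.1 hM l]
  have hfin : ∀ (L : ℕ) [NeZero L] (F : (Ex ι D → ZMod L) → ℂ),
      ∑ x, G (TA F x) ≤ A.toNNReal * ∑ x, ‖F x‖₊ ^ 2 := by
    intro L _ F
    have hsel : ∀ x : Ex ι D → ZMod L, ∃ M, M ∈ IJ ι J ∧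
        ((IJ ι J).sup fun M => ‖TA F x (fun l => M l + 1)‖₊ ^ 2) =
          ‖TA F x (fun l => M l + 1)‖₊ ^ 2 := by
      intro x
      refine Finset.exists_mem_eq_sup _ ⟨fun _ => 0, mem_IJ.2 fun _ => ?_⟩ _
      positivity
    choose M hM1 hM2 using hsel
    have h1 := hmax L F (fun x l => M x l + 1) (fun x l => Nat.succ_pos _)
    have h2 : ((∑ x, G (TA F x) : ℝ≥0) : ℝ) = ∑ x, ‖TA F x (fun l => M x l + 1)‖ ^ 2 := by
      simp only [hG, hM2]
      push_cast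
      rfl
    rw [← NNReal.coe_le_coe, h2]
    refine h1.trans (le_of_eq ?_)
    push_cast
    rw [Real.coe_toNNReal A hA]
  have hf : Measurable fun x => ((g x : ℝ) : ℂ) :=
    Complex.measurable_ofReal.comp (measurable_coe_nnreal_real.comp hg)
  have h1 := transfer_mp (B := A.toNNReal) (G := G) (J := J) hGloc hGm hfin hRadd hR hf
  have h2 : ∀ x, (G (Av R (fun x => ((g x : ℝ) : ℂ)) x) : ℝ≥0∞) =
      (IJ ι J).sup fun M => (tm R (fun x => (g x : ℝ≥0∞)) M x) ^ 2 := by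
    intro x
    simp only [hG]
    rw [ENNReal.coe_finset_sup]
    refine Finset.sup_congr rfl fun M _ => ?_
    rw [← enorm_Av, enorm_eq_nnnorm]
    push_cast
    rfl
  have h3 : ∀ x, ‖((g x : ℝ) : ℂ)‖ₑ = (g x : ℝ≥0∞) := by
    intro x
    rw [enorm_eq_nnnorm, Complex.nnnorm_real, NNReal.nnnorm_eq]
  simp only [h2, h3] at h1
  exact h1

lemma iSup_tm_sq (R : (Ex ι D → ℕ) → X → X) (g : X → ℝ≥0∞) (x : X) :
    (⨆ M, tm R g M x) ^ 2 = ⨆ J : ℕ, (IJ ι J).sup fun M => (tm R g M x) ^ 2 := by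
  rw [ENNReal.iSup_pow]
  refine le_antisymm (iSup_le fun M => ?_) (iSup_le fun J => Finset.sup_le fun M _ => ?_)
  · refine le_trans ?_ (le_iSup _ (∑ l, M l))
    refine Finset.le_sup (f := fun M => (tm R g M x) ^ 2) (mem_IJ.2 fun l => ?_)
    exact (Nat.lt_two_pow_self).trans_le
      (Nat.pow_le_pow_right two_pos (Finset.single_le_sum (fun _ _ => Nat.zero_le _)
        (Finset.mem_univ l)))
  · exact le_iSup (fun M => (tm R g M x) ^ 2) M

lemma nn_bound {A : ℝ} (hA : 0 ≤ A)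
    (hmax : ∀ (L : ℕ) [NeZero L] (F : (Ex ι D → ZMod L) → ℂ) (M : (Ex ι D → ZMod L) → ι → ℕ),
      (∀ x l, 0 < M x l) → ∑ x, ‖TA F x (M x)‖ ^ 2 ≤ A * ∑ x, ‖F x‖ ^ 2)
    {R : (Ex ι D → ℕ) → X → X} (hRadd : ∀ m n x, R (m + n) x = R m (R n x))
    (hR : ∀ m, MeasurePreserving (R m) μ μ) {g : X → ℝ≥0} (hg : Measurable g) :
    ∫⁻ x, (⨆ M, tm R (fun x => (g x : ℝ≥0∞)) M x) ^ 2 ∂μ ≤
      (2 ^ Fintype.card (Ex ι D) * A.toNNReal : ℝ≥0) * ∫⁻ x, (g x : ℝ≥0∞) ^ 2 ∂μ := by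
  simp only [iSup_tm_sq]
  rw [lintegral_iSup]
  · exact iSup_le fun J => level_bound hA hmax hRadd hR hg J
  · intro J
    exact measurable_esup _ fun M =>
      (measurable_tm (fun m => (hR m).measurable) hg.coe_nnreal_ennreal M).pow_const 2
  · intro a b hab x
    refine Finset.sup_mono fun M hM => ?_
    rw [mem_IJ] at hM ⊢
    exact fun l => (hM l).trans_le (Nat.pow_le_pow_right two_pos hab)

lemma tm_trunc (R : (Ex ι D → ℕ) → X → X) (g : X → ℝ≥0∞) (M : ι → ℕ) (x : X) :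
    tm R g M x = ⨆ K : ℕ, tm R (fun x => (Pool.Agent.Lib.Pf720ae.trunc g K x : ℝ≥0∞)) M x := by
  unfold tm
  rw [← ENNReal.mul_iSup]
  congr 1
  rw [← ENNReal.finsetSum_iSup_of_monotone fun i =>
    Pool.Agent.Lib.Pf720ae.trunc_mono g (R (mon i) x)]
  exact Finset.sum_congr rfl fun i _ => (Pool.Agent.Lib.Pf720ae.iSup_trunc g _).symm

lemma tm_mono (R : (Ex ι D → ℕ) → X → X) {g g' : X → ℝ≥0∞} (h : ∀ x, g x ≤ g' x) (M : ι → ℕ)
    (x : X) : tm R g M x ≤ tm R g' M x := by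
  unfold tm
  gcongr
  exact h _

end aux

theorem act_max (ι : Type) [Fintype ι] [DecidableEq ι] (D : ℕ) : ∃ A : ℝ≥0∞, A ≠ ⊤ ∧
    ∀ (X : Type) [MeasurableSpace X] (μ : Measure X) (R : (Ex ι D → ℕ) → X → X),
    (∀ m n x, R (m + n) x = R m (R n x)) → (∀ m, MeasurePreserving (R m) μ μ) →
    ∀ g : X → ℝ≥0∞, Measurable g →
      ∫⁻ x, (NS (fun (m : ι → ℕ) x => R (mon m) x) g x) ^ 2 ∂μ ≤ A * ∫⁻ x, (g x) ^ 2 ∂μ := by
  obtain ⟨A, hA, hmax⟩ := maxfin_mp ι D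
  refine ⟨((2 ^ Fintype.card (Ex ι D) * A.toNNReal : ℝ≥0) : ℝ≥0∞), ENNReal.coe_ne_top, ?_⟩
  intro X _ μ R hRadd hR g hg
  have h1 : ∀ x, (NS (fun (m : ι → ℕ) x => R (mon m) x) g x) ^ 2 = ⨆ K : ℕ,
      (⨆ M, tm R (fun x => (Pool.Agent.Lib.Pf720ae.trunc g K x : ℝ≥0∞)) M x) ^ 2 := by
    intro x
    rw [NS_eq_tm, ← ENNReal.iSup_pow, iSup_comm]
    congr 1
    exact iSup_congr fun M => tm_trunc R g M x
  simp only [h1]
  rw [lintegral_iSup]
  · refine iSup_le fun K => ?_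
    refine (nn_bound hA hmax hRadd hR (Pool.Agent.Lib.Pf720ae.measurable_trunc hg K)).trans ?_
    gcongr with x
    rw [Pool.Agent.Lib.Pf720ae.coe_trunc]
    exact min_le_left _ _
  · intro K
    exact (Measurable.iSup fun M => measurable_tm (fun m => (hR m).measurable)
      (Pool.Agent.Lib.Pf720ae.measurable_trunc hg K).coe_nnreal_ennreal M).pow_const 2
  · intro a b hab x
    simp only
    gcongr with M
    exact tm_mono R (fun x => Pool.Agent.Lib.Pf720ae.trunc_mono g x hab) M x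

variable {κ : Type} [Fintype κ] [DecidableEq κ] {X : Type} [MeasurableSpace X] {μ : Measure X}

theorem maxBd_mp {d : ℕ} {act : (Fin d → ℤ) → X → X}
    (hadd : ∀ p q x, act (p + q) x = act p (act q x)) (hmp : ∀ p, MeasurePreserving (act p) μ μ)
    (P : Fin d → MvPolynomial κ ℤ) :
    MaxBd μ (fun (m : κ → ℕ) x =>
      act (fun i => MvPolynomial.eval (fun l => (m l : ℤ)) (P i)) x) := by
  obtain ⟨D, R, hRadd, hR, hact⟩ := exists_embedding hadd hmp P
  obtain ⟨A, hA, hmax⟩ := act_max κ D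
  refine ⟨A, hA, fun g hg => ?_⟩
  have h1 : (fun (m : κ → ℕ) x => act (fun i => MvPolynomial.eval (fun l => (m l : ℤ)) (P i)) x) =
      fun (m : κ → ℕ) x => R (mon m) x := funext fun m => funext fun x => hact m x
  rw [h1]
  exact hmax X μ R hRadd hR g hg

end Pool.Agent.Lib.Pf720mp
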