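import Pool.Agent.Lib.Pf720mp.Conv
import Pool.Agent.Lib.Pf720mp.ActMax
import Pool.Agent.Lib.Pf720ae.Osc.PolyConv

/-!
# The multi-parameter polynomial ergodic theorem

As `Pool.Agent.Lib.Pf720ae.poly_L2` (file Osc/PolyConv.lean): bounded functions by
`exists_embedding` and `ae_tendsto_bdd_mp` (real part), square integrable ones with `maxBd_mp` and
`principle_max`.
-/

set_option autoImplicit false
set_option linter.unusedSectionVars false

open Finset MeasureTheory Filter Topology
open scoped ENNReal NNReal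
open Pool.Agent.Lib.Pf720ae (Cvg)

namespace Pool.Agent.Lib.Pf720mp

variable {κ : Type} [Fintype κ] [DecidableEq κ] {X : Type} [MeasurableSpace X] {μ : Measure X}

theorem poly_bdd_mp [IsFiniteMeasure μ] {d : ℕ} {act : (Fin d → ℤ) → X → X}
    (hadd : ∀ p q x, act (p + q) x = act p (act q x)) (hmp : ∀ p, MeasurePreserving (act p) μ μ)
    (P : Fin d → MvPolynomial κ ℤ) {f : X → ℝ} (hf : Measurable f) (hf1 : ∀ x, |f x| ≤ 1) :
    ∀ᵐ x ∂μ, Cvg fun m : κ → ℕ =>
      f (act (fun i => MvPolynomial.eval (fun l => (m l : ℤ)) (P i)) x) := by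
  obtain ⟨D, R, hRadd, hRmp, hR⟩ := exists_embedding hadd hmp P
  have hfc : Measurable fun x => (f x : ℂ) := Complex.measurable_ofReal.comp hf
  have hB : ∀ x, ‖(f x : ℂ)‖ ≤ 1 := fun x => by
    rw [Complex.norm_real]; exact hf1 x
  have hfin : ∫⁻ x, ‖(f x : ℂ)‖ₑ ^ 2 ∂μ ≠ ⊤ := by
    have h3 : ∫⁻ x, ‖(f x : ℂ)‖ₑ ^ 2 ∂μ ≤ ∫⁻ _, 1 ∂μ := by
      refine lintegral_mono fun x => ?_
      have h4 : ‖(f x : ℂ)‖ₑ ≤ 1 := by
        rw [← ofReal_norm]
        exact ENNReal.ofReal_le_one.2 (hB x)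
      exact pow_le_one₀ zero_le h4
    refine ne_top_of_le_ne_top ?_ h3
    rw [lintegral_one]
    exact measure_ne_top _ _
  filter_upwards [ae_tendsto_bdd_mp hRadd hRmp hfc hB hfin] with x hx
  obtain ⟨ℓ, hℓ⟩ := hx
  refine ⟨ℓ.re, ?_⟩
  have h3 := (Complex.continuous_re.tendsto ℓ).comp hℓ
  refine h3.congr fun M => ?_
  simp only [Function.comp_apply, Av]
  have h4 : (∏ l, (M l : ℂ))⁻¹ * ∑ m ∈ bx M, (f (R (mon m) x) : ℂ) =
      (((∏ l, (M l : ℝ))⁻¹ * ∑ m ∈ bx M, f (R (mon m) x) : ℝ) : ℂ) := by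
    push_cast; rfl
  rw [h4, Complex.ofReal_re]
  simp only [hR]
  rfl

theorem poly_L2_mp [IsFiniteMeasure μ] {d : ℕ} {act : (Fin d → ℤ) → X → X}
    (hadd : ∀ p q x, act (p + q) x = act p (act q x)) (hmp : ∀ p, MeasurePreserving (act p) μ μ)
    (P : Fin d → MvPolynomial κ ℤ) {φ : X → ℝ} (hφ : MemLp φ 2 μ) :
    ∀ᵐ x ∂μ, Cvg fun m : κ → ℕ =>
      φ (act (fun i => MvPolynomial.eval (fun l => (m l : ℤ)) (P i)) x) := by
  set S : (κ → ℕ) → X → X := fun m x =>
    act (fun i => MvPolynomial.eval (fun l => (m l : ℤ)) (P i)) x with hS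
  have hSmp : ∀ m, MeasurePreserving (S m) μ μ := fun m => hmp _
  have hMax : Pool.Agent.Lib.Pf720ae.MaxBd μ S := maxBd_mp hadd hmp P
  set W : X → Set ((κ → ℕ) → ℝ) := fun _ => {fun _ => 1} with hW
  have hW1 : ∀ x, ∀ w ∈ W x, ∀ m, |w m| ≤ 1 := by
    rintro x w rfl m
    simp
  have hC : Pool.Agent.Lib.Pf720ae.Cv μ S W φ := by
    refine Pool.Agent.Lib.Pf720ae.principle_max hMax hSmp hW1 (fun ψ hψm hψ hψo => ?_) φ hφ
    -- the sign of the function is good, hence the function vanishes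
    have hsm : Measurable fun y : ℝ => ((SignType.sign y : SignType) : ℝ) := by
      have h3 : (fun y : ℝ => ((SignType.sign y : SignType) : ℝ)) =
          fun y => if 0 < y then 1 else if y < 0 then -1 else 0 := by
        funext y
        rcases lt_trichotomy y 0 with h | h | h
        · simp [h, h.not_gt]
        · simp [h]
        · simp [h]
      rw [h3]
      exact Measurable.ite measurableSet_Ioi measurable_const
        (Measurable.ite measurableSet_Iio measurable_const measurable_const)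
    have hm : Measurable fun x => ((SignType.sign (ψ x) : SignType) : ℝ) := hsm.comp hψm
    have hb : ∀ x, |((SignType.sign (ψ x) : SignType) : ℝ)| ≤ 1 := by
      intro x
      rcases lt_trichotomy (ψ x) 0 with h | h | h
      · simp [h]
      · simp [h]
      · simp [h]
    have h1 : ∫ x, ψ x * SignType.sign (ψ x) ∂μ = 0 := by
      refine hψo (fun x => ((SignType.sign (ψ x) : SignType) : ℝ)) hm hb ?_
      filter_upwards [poly_bdd_mp hadd hmp P hm hb] with x hx w hw
      rw [hw]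
      exact hx.congr fun m => by rw [mul_one]
    have h2 : ∀ x, ψ x * SignType.sign (ψ x) = |ψ x| := by
      intro x
      rw [mul_comm]
      exact sign_mul_self (ψ x)
    simp only [h2] at h1
    have h3 : ψ =ᵐ[μ] 0 := by
      have h4 := (integral_eq_zero_iff_of_nonneg (fun x => abs_nonneg (ψ x))
        (hψ.integrable one_le_two).abs).1 h1
      filter_upwards [h4] with x hx
      simpa using hx
    exact Pool.Agent.Lib.Pf720ae.Cv.congr hSmp h3.symm Pool.Agent.Lib.Pf720ae.Cv.zero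
  filter_upwards [hC] with x hx
  exact (hx _ rfl).congr fun m => mul_one _

end Pool.Agent.Lib.Pf720mp
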