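import Pool.Agent.Lib.Pf720mp.AffMax
import Pool.Agent.Lib.Pf720ae.Poly.Clos
import Pool.Agent.Lib.Pf720qp.Factor

/-!
# Extensions of affine actions whose zero entropy sets lie in the affine factor: arbitrary
polynomials
-/

set_option autoImplicit false

set_option linter.unusedSectionVars false

open Finset MeasureTheory Filter Topology

namespace Pool.Agent.Lib.Pf720ae.Aff

section main

variable {Y : Type} [CommGroup Y] [TopologicalSpace Y] [IsTopologicalGroup Y] [CompactSpace Y]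
  [T2Space Y] [MeasurableSpace Y] [BorelSpace Y] {ν : Measure Y} [IsProbabilityMeasure ν]

/-- Affine factors. -/
theorem thmAffClosM (d k n : ℕ) [ν.IsHaarMeasure] [ν.Regular]
    (hsep : ∀ x : Y, x ≠ 1 → ∃ χ : Y →ₜ* Circle, χ x ≠ 1)
    (S : Fin d → Equiv.Perm Y) (hSc : ∀ i, Continuous (S i)) (a : Fin d → Y) (α : Fin d → Y →* Y)
    (hSα : ∀ i x, S i x = a i * α i x) (hα : ∀ i i' x, α i (α i' x) = α i' (α i x))
    (hnil : Group.IsNilpotent (Subgroup.closure (Set.range S)))
    {X : Type} [mX : MeasurableSpace X] {μ : Measure X} [IsProbabilityMeasure μ]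
    (T : Fin d → Equiv.Perm X)
    (hT : ∀ i, Measurable (T i) ∧ Measurable (T i).symm ∧ MeasurePreserving (T i) μ μ)
    (π : X → Y) (hπ : MeasurePreserving π μ ν) (hπT : ∀ i, ∀ᵐ x ∂μ, π (T i x) = S i (π x))
    (P : Fin d → Fin n → MvPolynomial (Fin k) ℤ) (f : Fin n → X → ℂ)
    (hf : (∀ j, ∃ g : Y → ℂ, f j =ᵐ[μ] g ∘ π ∧ (RI ν g ∨ (MemLp g ⊤ ν ∧
        ∀ i i', P i j ≠ 0 → P i' j ≠ 0 → S i * S i' = S i' * S i))) ∨
      ((∀ i i', T i * T i' = T i' * T i) ∧ (∀ j, MemLp (f j) ⊤ μ) ∧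
        ∀ A : Set X, MeasurableSet A →
          Tendsto (fun N : ℕ => (∑ ω : Finset (Fin d → Fin N), Real.negMulLog
            (μ.real {x | ∀ u : Fin d → Fin N, pw T (fun i => ((u i : ℕ) : ℤ)) x ∈ A ↔ u ∈ ω})) /
              (N : ℝ) ^ d) atTop (𝓝 0) →
          ∃ B, MeasurableSet B ∧ A =ᵐ[μ] π ⁻¹' B)) :
    ∀ᵐ x ∂μ, ∃ L : ℂ, Tendsto (fun M : Fin k → ℕ => (∏ l, (M l : ℂ))⁻¹ *
      ∑ m ∈ Fintype.piFinset (fun l => Finset.Icc 1 (M l)), ∏ j, f j
        ((List.ofFn fun i => T i ^ (MvPolynomial.eval (fun l => (m l : ℤ)) (P i j))).prod x))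
      atTop (𝓝 L) := by
  classical
  rcases hf with hf | ⟨hcomm, hfb, hpin⟩
  · choose g hfg hg using hf
    exact conv_of_factor hπ T S hT hπT
      (fun j m i => MvPolynomial.eval (fun l => (m l : ℤ)) (P i j)) f g hfg
      (thmAffMaxM d k n hsep S hSc a α hSα hα hnil P g hg)
  · -- the maps `S i` commute
    have hScomm : ∀ i i', S i * S i' = S i' * S i := by
      intro i i'
      have h1 : ∀ᵐ x ∂μ, (S i * S i') (π x) = (S i' * S i) (π x) := by
        filter_upwards [fac_mul (g := T i) (g' := S i) (hT i').2.2 (hπT i) (hπT i'),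
          fac_mul (g := T i') (g' := S i') (hT i).2.2 (hπT i') (hπT i)] with x e1 e2
        rw [← e1, ← e2, hcomm]
      have hcl : IsClosed {y : Y | (S i * S i') y = (S i' * S i) y} :=
        isClosed_eq ((hSc i).comp (hSc i')) ((hSc i').comp (hSc i))
      have h2 : ∀ᵐ y ∂ν, (S i * S i') y = (S i' * S i) y := by
        rw [← hπ.map_eq]
        exact (ae_map_iff hπ.measurable.aemeasurable hcl.measurableSet).2 h1
      have h3 : {y : Y | (S i * S i') y = (S i' * S i) y}ᶜ = ∅ := by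
        refine (hcl.isOpen_compl.measure_eq_zero_iff ν).1 ?_
        exact h2
      ext1 y
      by_contra hcon
      have h4 : y ∈ {y : Y | (S i * S i') y = (S i' * S i) y}ᶜ := hcon
      rw [h3] at h4
      exact h4
    -- convergence for the functions on the factor
    have hN : Pf720qp.PolC μ T Set.univ (fun _ => Set.univ)
        (MeasurableSpace.comap π (inferInstance : MeasurableSpace Y)) := by
      intro k' _ n' P' f' _ hf'
      have h1 : ∀ j, ∃ g : Y → ℂ, f' j =ᵐ[μ] g ∘ π ∧ MemLp g ⊤ ν := by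
        intro j
        obtain ⟨G, hG, hfG⟩ := (hf' j).2
        obtain ⟨h, hh, hhe⟩ := StronglyMeasurable.exists_eq_measurable_comp (f := π) hG
        have h2 : f' j =ᵐ[μ] h ∘ π := by
          rw [← hhe]
          exact hfG
        refine ⟨h, h2, ?_⟩
        rw [← hπ.map_eq]
        rw [memLp_map_measure_iff hh.aestronglyMeasurable hπ.measurable.aemeasurable]
        exact (hf' j).1.ae_eq h2
      choose g hfg hg using h1
      have h2 := thmAffMaxM (μ := ν) d k' n' hsep S hSc a α hSα hα hnil (fun i j => P' j i) g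
        (fun j => Or.inr ⟨hg j, fun i i' _ _ => hScomm i i'⟩)
      exact conv_of_factor hπ T S hT hπT
        (fun j m i => MvPolynomial.eval (fun l => (m l : ℤ)) (P' j i)) f' g hfg h2
    have hall : Pf720qp.PolC μ T Set.univ (fun _ => Set.univ) mX :=
      (Pf720qp.factor_reduction (MeasurableSpace.comap π (inferInstance : MeasurableSpace Y)) T hT
        hcomm Set.univ (Or.inr rfl) (fun _ => Set.univ)
        (fun _ _ _ _ _ _ _ _ => Set.mem_univ _) _ rfl
        (fun A hA => by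
          obtain ⟨B, hB, hAB⟩ := hpin A hA.1 hA.2
          exact ⟨π ⁻¹' B, ⟨B, hB, rfl⟩, hAB⟩)).2 hN
    exact hall k (Set.mem_univ k) n (fun j i => P i j) f (fun _ => Set.mem_univ _)
      (fun j => ⟨hfb j, (hfb j).1⟩)

end main

end Pool.Agent.Lib.Pf720ae.Aff
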