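import Mathlib

/-!
# Polynomial factors are absorbed by geometric decay
-/

set_option autoImplicit false

open Filter Topology

namespace Pool.Agent.Lib.Pf720mp

/-- polynomial factors are absorbed by the geometric decay -/
theorem absorb (n : ℕ) {C ρ c : ℝ} (hC : 0 ≤ C) (hρ : 0 < ρ) (hρ1 : ρ < 1) (hc : 0 ≤ c) :
    ∃ C' ρ' : ℝ, 0 ≤ C' ∧ ρ ≤ ρ' ∧ 1 / 2 ≤ ρ' ∧ ρ' < 1 ∧
      ∀ i : ℕ, C * (c * i + 1) ^ n * ρ ^ i ≤ C' * ρ' ^ i := by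
  set ρ' : ℝ := (1 + ρ) / 2 with hρ'
  have h0 : 0 < ρ' := by rw [hρ']; linarith
  have h1 : ρ' < 1 := by rw [hρ']; linarith
  have h2 : ρ < ρ' := by rw [hρ']; linarith
  have hr0 : 0 ≤ ρ / ρ' := by positivity
  have hr1 : ρ / ρ' < 1 := (div_lt_one h0).2 h2
  have ht := tendsto_pow_const_mul_const_pow_of_abs_lt_one n (r := ρ / ρ')
    (by rwa [abs_of_nonneg hr0])
  have ht' : Tendsto (fun k : ℕ => ((k + 1 : ℕ) : ℝ) ^ n * (ρ / ρ') ^ (k + 1)) atTop (𝓝 0) :=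
    (tendsto_add_atTop_iff_nat 1).2 ht
  obtain ⟨B, hB⟩ := ht'.bddAbove_range
  have hB' : ∀ i : ℕ, ((i + 1 : ℕ) : ℝ) ^ n * (ρ / ρ') ^ (i + 1) ≤ B := fun i => hB ⟨i, rfl⟩
  have hB0 : 0 ≤ B := le_trans (by positivity) (hB' 0)
  refine ⟨C * (c + 1) ^ n * B * (ρ' / ρ), ρ', by positivity, h2.le, by rw [hρ']; linarith, h1,
    fun i => ?_⟩
  have h3 : (c * i + 1) ^ n ≤ (c + 1) ^ n * ((i + 1 : ℕ) : ℝ) ^ n := by
    rw [← mul_pow]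
    refine pow_le_pow_left₀ (by positivity) ?_ n
    push_cast
    nlinarith [Nat.cast_nonneg (α := ℝ) i]
  have h4 : ((i + 1 : ℕ) : ℝ) ^ n * ρ ^ i ≤ B * (ρ' / ρ) * ρ' ^ i := by
    have h5 := mul_le_mul_of_nonneg_right (hB' i) (by positivity : 0 ≤ (ρ' / ρ) * ρ' ^ i)
    refine (le_of_eq ?_).trans (h5.trans (le_of_eq (by ring)))
    rw [div_pow, pow_succ, pow_succ]
    field_simp
  calc C * (c * i + 1) ^ n * ρ ^ i ≤ C * ((c + 1) ^ n * ((i + 1 : ℕ) : ℝ) ^ n) * ρ ^ i := by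
        gcongr
    _ = C * (c + 1) ^ n * (((i + 1 : ℕ) : ℝ) ^ n * ρ ^ i) := by ring
    _ ≤ C * (c + 1) ^ n * (B * (ρ' / ρ) * ρ' ^ i) := by gcongr
    _ = C * (c + 1) ^ n * B * (ρ' / ρ) * ρ' ^ i := by ring

end Pool.Agent.Lib.Pf720mp
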