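import Pool.Agent.Lib.Pf720mp.PolL2
import Pool.Agent.Lib.Pf720ae.Lift

/-!
# The multi-parameter polynomial ergodic theorem and the maximal inequality: final forms
-/

set_option autoImplicit false
set_option linter.unusedSectionVars false

open Finset MeasureTheory Filter Topology
open scoped ENNReal NNReal

namespace Pool.Agent.Lib.Pf720mp

open Pool.Agent.Lib.Pf720ae (Cvg avg pw pw_add mp_pw sum_Icc_eq NS PN boxs)

section shift

variable {κ : Type} [Fintype κ] [DecidableEq κ] {d : ℕ}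

/-- the polynomial `P(m + 1)` -/
noncomputable def shP (p : MvPolynomial κ ℤ) : MvPolynomial κ ℤ :=
  MvPolynomial.bind₁ (fun l => MvPolynomial.X l + 1) p

lemma eval_shP (p : MvPolynomial κ ℤ) (m : κ → ℕ) :
    MvPolynomial.eval (fun l => (m l : ℤ)) (shP p) =
      MvPolynomial.eval (fun l => (((m + 1) l : ℕ) : ℤ)) p := by
  unfold shP
  show MvPolynomial.eval₂Hom (RingHom.id ℤ) (fun l => (m l : ℤ))
      (MvPolynomial.bind₁ (fun l => MvPolynomial.X l + 1) p) =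
    MvPolynomial.eval₂Hom (RingHom.id ℤ) (fun l => (((m + 1) l : ℕ) : ℤ)) p
  rw [MvPolynomial.eval₂Hom_bind₁]
  congr 2
  funext l
  simp

end shift

theorem conv_mp {X : Type} [MeasurableSpace X] {μ : Measure X} [IsProbabilityMeasure μ] {d k : ℕ}
    (T : Fin d → Equiv.Perm X)
    (hT : ∀ i, Measurable (T i) ∧ Measurable (T i).symm ∧ MeasurePreserving (T i) μ μ)
    (hcomm : ∀ i i', T i * T i' = T i' * T i) (P : Fin d → MvPolynomial (Fin k) ℤ)
    {f : X → ℂ} (hf : MemLp f 2 μ) :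
    ∀ᵐ x ∂μ, ∃ L : ℂ, Tendsto (fun M : Fin k → ℕ => (∏ l, (M l : ℂ))⁻¹ *
      ∑ m ∈ Fintype.piFinset (fun l => Finset.Icc 1 (M l)),
        f (pw T (fun i => MvPolynomial.eval (fun l => (m l : ℤ)) (P i)) x)) atTop (𝓝 L) := by
  have hadd : ∀ (p q : Fin d → ℤ) (x : X), (fun e x => pw T e x) (p + q) x =
      (fun e x => pw T e x) p ((fun e x => pw T e x) q x) := by
    intro p q x
    simp only [pw_add T hcomm]
    rfl
  have hmp : ∀ p : Fin d → ℤ, MeasurePreserving ((fun e x => pw T e x) p) μ μ :=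
    fun p => mp_pw T hT p
  have h1 := poly_L2_mp (act := fun e x => pw T e x) hadd hmp (fun i => shP (P i)) hf.re
  have h2 := poly_L2_mp (act := fun e x => pw T e x) hadd hmp (fun i => shP (P i)) hf.im
  filter_upwards [h1, h2] with x h1 h2
  obtain ⟨a, ha⟩ := h1
  obtain ⟨b, hb⟩ := h2
  refine ⟨(a : ℂ) + (b : ℂ) * Complex.I, ?_⟩
  have ha' := (Complex.continuous_ofReal.tendsto a).comp ha
  have hb' := ((Complex.continuous_ofReal.tendsto b).comp hb).mul_const Complex.I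
  refine (ha'.add hb').congr fun M => ?_
  rw [sum_Icc_eq]
  simp only [Function.comp, avg, Pool.Agent.Lib.Pf720ae.box, eval_shP]
  push_cast
  rw [mul_assoc, ← mul_add, Finset.sum_mul, ← Finset.sum_add_distrib]
  congr 1
  refine Finset.sum_congr rfl fun m _ => ?_
  exact Complex.re_add_im _

/-- the average over a box of the values of a nonnegative function, dominated by `NS` -/
lemma avg_le_NS {X : Type} {k : ℕ} (U : (Fin k → ℕ) → X → X) (g : X → ℝ≥0∞) (x : X)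
    (M : Fin k → ℕ) :
    (∏ l, (M l : ℝ≥0∞))⁻¹ * ∑ m ∈ Fintype.piFinset (fun l => Finset.Icc 1 (M l)), g (U m x) ≤
      2 ^ k * NS U g x := by
  by_cases h0 : ∃ l, M l = 0
  · obtain ⟨l, hl⟩ := h0
    have : Fintype.piFinset (fun l => Finset.Icc 1 (M l)) = ∅ := by
      refine Finset.eq_empty_of_forall_notMem fun m hm => ?_
      have h1 := Finset.mem_Icc.1 (Fintype.mem_piFinset.1 hm l)
      omega
    rw [this, Finset.sum_empty, mul_zero]
    exact zero_le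
  push Not at h0
  have h1 : (2 : ℝ≥0∞) ^ k * (∏ l, ((M l : ℝ≥0∞) + 1))⁻¹ ≥ (∏ l, (M l : ℝ≥0∞))⁻¹ := by
    have h2 : ∏ l, ((M l : ℝ≥0∞) + 1) ≤ 2 ^ k * ∏ l, (M l : ℝ≥0∞) := by
      calc ∏ l, ((M l : ℝ≥0∞) + 1) ≤ ∏ l, (2 * (M l : ℝ≥0∞)) := by
            refine Finset.prod_le_prod' fun l _ => ?_
            rw [two_mul]
            gcongr
            exact_mod_cast Nat.one_le_iff_ne_zero.2 (h0 l)
        _ = _ := by rw [Finset.prod_mul_distrib]; simp
    have h3 : ((2 : ℝ≥0∞) ^ k) ≠ 0 := pow_ne_zero _ two_ne_zero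
    have h4 : ((2 : ℝ≥0∞) ^ k) ≠ ⊤ := ENNReal.pow_ne_top (by norm_num)
    calc (∏ l, (M l : ℝ≥0∞))⁻¹ = 2 ^ k * (2 ^ k * ∏ l, (M l : ℝ≥0∞))⁻¹ := by
          rw [ENNReal.mul_inv (Or.inl h3) (Or.inl h4), ← mul_assoc, ENNReal.mul_inv_cancel h3 h4,
            one_mul]
      _ ≤ 2 ^ k * (∏ l, ((M l : ℝ≥0∞) + 1))⁻¹ := by
          gcongr
  have h2 : ∑ m ∈ Fintype.piFinset (fun l => Finset.Icc 1 (M l)), g (U m x) ≤
      ∑ m ∈ boxs Finset.univ (fun l => M l + 1), g (U m x) := by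
    refine Finset.sum_le_sum_of_subset fun m hm => ?_
    rw [Pool.Agent.Lib.Pf720ae.mem_boxs]
    rw [Fintype.mem_piFinset] at hm
    intro l
    have := Finset.mem_Icc.1 (hm l)
    simp only [Finset.mem_univ, if_true]
    omega
  calc (∏ l, (M l : ℝ≥0∞))⁻¹ * ∑ m ∈ Fintype.piFinset (fun l => Finset.Icc 1 (M l)), g (U m x)
      ≤ (2 ^ k * (∏ l, ((M l : ℝ≥0∞) + 1))⁻¹) *
        ∑ m ∈ boxs Finset.univ (fun l => M l + 1), g (U m x) := by
        gcongr
    _ = 2 ^ k * ((∏ l, ((M l : ℝ≥0∞) + 1))⁻¹ *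
        ∑ m ∈ boxs Finset.univ (fun l => M l + 1), g (U m x)) := by ring
    _ ≤ 2 ^ k * NS U g x := by
        gcongr
        exact le_iSup (fun M : Fin k → ℕ => (∏ l, ((M l : ℝ≥0∞) + 1))⁻¹ *
          ∑ m ∈ boxs Finset.univ (fun l => M l + 1), g (U m x)) M

/-- the maximal inequality, with a constant depending only on the number of variables and on the
degree -/
theorem max_mp (k D : ℕ) : ∃ C : ℝ≥0, ∀ (X : Type) [MeasurableSpace X] (μ : Measure X)
    [IsProbabilityMeasure μ] (d : ℕ) (T : Fin d → Equiv.Perm X)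
    (_ : ∀ i, Measurable (T i) ∧ Measurable (T i).symm ∧ MeasurePreserving (T i) μ μ)
    (_ : ∀ i i', T i * T i' = T i' * T i) (P : Fin d → MvPolynomial (Fin k) ℤ)
    (_ : ∀ i, (P i).totalDegree ≤ D) (f : X → ℂ) (_ : AEStronglyMeasurable f μ),
    ∫⁻ x, (⨆ M : Fin k → ℕ, ‖(∏ l, (M l : ℂ))⁻¹ *
      ∑ m ∈ Fintype.piFinset (fun l => Finset.Icc 1 (M l)),
        f (pw T (fun i => MvPolynomial.eval (fun l => (m l : ℤ)) (P i)) x)‖ₑ) ^ 2 ∂μ ≤
      C * ∫⁻ x, ‖f x‖ₑ ^ 2 ∂μ := by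
  obtain ⟨A, hA, hmax⟩ := act_max (Fin k) D
  refine ⟨4 ^ k * A.toNNReal, ?_⟩
  intro X _ μ _ d T hT hcomm P hP f hf
  set R : (Ex (Fin k) D → ℕ) → X → X := fun v x =>
    pw T (fun i => ∑ γ, (P i).coeff (exs γ) * (v γ : ℤ)) x with hR
  have hRadd : ∀ m n x, R (m + n) x = R m (R n x) := by
    intro m n x
    simp only [hR]
    rw [← Equiv.Perm.mul_apply, ← pw_add T hcomm]
    congr 2
    funext i
    simp only [Pi.add_apply]
    rw [← Finset.sum_add_distrib]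
    refine Finset.sum_congr rfl fun γ _ => ?_
    push_cast
    ring
  have hRmp : ∀ m, MeasurePreserving (R m) μ μ := fun m => mp_pw T hT _
  have hRe : ∀ (m : Fin k → ℕ) x,
      pw T (fun i => MvPolynomial.eval (fun l => (m l : ℤ)) (P i)) x = R (mon m) x := by
    intro m x
    simp only [hR]
    congr 2
    funext i
    exact eval_eq_sum_ex (P i) (hP i) m
  obtain ⟨g, hgm, hg⟩ : ∃ g : X → ℝ≥0∞, Measurable g ∧ (fun x => ‖f x‖ₑ) =ᵐ[μ] g :=
    ⟨_, hf.enorm.measurable_mk, hf.enorm.ae_eq_mk⟩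
  have h1 := hmax X μ R hRadd hRmp g hgm
  have hae : ∀ᵐ x ∂μ, ∀ m : Fin k → ℕ, ‖f (R (mon m) x)‖ₑ = g (R (mon m) x) :=
    ae_all_iff.2 fun m => (hRmp (mon m)).quasiMeasurePreserving.ae hg
  calc ∫⁻ x, (⨆ M : Fin k → ℕ, ‖(∏ l, (M l : ℂ))⁻¹ *
      ∑ m ∈ Fintype.piFinset (fun l => Finset.Icc 1 (M l)),
        f (pw T (fun i => MvPolynomial.eval (fun l => (m l : ℤ)) (P i)) x)‖ₑ) ^ 2 ∂μ
      ≤ ∫⁻ x, (2 ^ k * NS (fun (m : Fin k → ℕ) x => R (mon m) x) g x) ^ 2 ∂μ := by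
        refine lintegral_mono_ae ?_
        filter_upwards [hae] with x hx
        refine pow_le_pow_left' (iSup_le fun M => ?_) 2
        refine le_trans ?_ (avg_le_NS (fun (m : Fin k → ℕ) x => R (mon m) x) g x M)
        rw [enorm_mul]
        have e1 : ‖(∏ l, (M l : ℂ))⁻¹‖ₑ ≤ (∏ l, (M l : ℝ≥0∞))⁻¹ := by
          by_cases h0 : ∏ l, (M l : ℂ) = 0
          · rw [h0, inv_zero, enorm_zero]
            exact zero_le
          · rw [enorm_inv h0]
            refine ENNReal.inv_le_inv.2 (le_of_eq ?_)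
            have : (∏ l, (M l : ℂ)) = (((∏ l, (M l : ℝ≥0) : ℝ≥0) : ℝ) : ℂ) := by push_cast; rfl
            rw [this, enorm_eq_nnnorm, Complex.nnnorm_real, NNReal.nnnorm_eq]
            push_cast
            rfl
        gcongr
        refine (enorm_sum_le _ _).trans (le_of_eq (Finset.sum_congr rfl fun m _ => ?_))
        rw [hRe, hx]
    _ = 4 ^ k * ∫⁻ x, (NS (fun (m : Fin k → ℕ) x => R (mon m) x) g x) ^ 2 ∂μ := by
        rw [← lintegral_const_mul]
        · refine lintegral_congr fun x => ?_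
          rw [mul_pow, ← pow_mul, mul_comm k 2, pow_mul]
          norm_num
        · exact (Pool.Agent.Lib.Pf720ae.measurable_NS (fun m => (hRmp _).measurable) hgm).pow_const 2
    _ ≤ 4 ^ k * (A * ∫⁻ x, (g x) ^ 2 ∂μ) := by gcongr
    _ = ((4 ^ k * A.toNNReal : ℝ≥0) : ℝ≥0∞) * ∫⁻ x, ‖f x‖ₑ ^ 2 ∂μ := by
        push_cast
        rw [ENNReal.coe_toNNReal hA, ← mul_assoc]
        congr 1
        refine lintegral_congr_ae ?_
        filter_upwards [hg] with x hx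
        rw [hx]

end Pool.Agent.Lib.Pf720mp
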