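import Pool.Agent.Lib.Pf720ae.Poly.MixedMax
import Pool.Agent.Lib.Pf720mp.Final

/-!
# Multiple polynomial averages for affine maps of compact abelian groups: bounded functions,
arbitrary polynomials
-/

set_option autoImplicit false
set_option linter.unusedSectionVars false

open Finset MeasureTheory Filter Topology
open scoped ENNReal ComplexConjugate
open Pool.Agent.Lib.Pf720ae.Alg (cz integral_char)

namespace Pool.Agent.Lib.Pf720ae.Aff

variable {X : Type} [CommGroup X] [TopologicalSpace X] [IsTopologicalGroup X] [CompactSpace X]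
  [T2Space X] [MeasurableSpace X] [BorelSpace X] {μ : Measure X} [IsProbabilityMeasure μ]

/-- The theorem on affine actions. -/
theorem thmAffMaxM (d k n : ℕ) [μ.IsHaarMeasure] [μ.Regular]
    (hsep : ∀ x : X, x ≠ 1 → ∃ χ : X →ₜ* Circle, χ x ≠ 1)
    (T : Fin d → Equiv.Perm X) (hTc : ∀ i, Continuous (T i)) (a : Fin d → X) (α : Fin d → X →* X)
    (hTα : ∀ i x, T i x = a i * α i x) (hα : ∀ i i' x, α i (α i' x) = α i' (α i x))
    (hnil : Group.IsNilpotent (Subgroup.closure (Set.range T)))
    (P : Fin d → Fin n → MvPolynomial (Fin k) ℤ) (f : Fin n → X → ℂ)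
    (hf : ∀ j, RI μ (f j) ∨ (MemLp (f j) ⊤ μ ∧
      ∀ i i', P i j ≠ 0 → P i' j ≠ 0 → T i * T i' = T i' * T i)) :
    ∀ᵐ x ∂μ, ∃ L : ℂ, Tendsto (fun M : Fin k → ℕ => (∏ l, (M l : ℂ))⁻¹ *
      ∑ m ∈ Fintype.piFinset (fun l => Finset.Icc 1 (M l)), ∏ j, f j
        ((List.ofFn fun i => T i ^ (MvPolynomial.eval (fun l => (m l : ℤ)) (P i j))).prod x))
      atTop (𝓝 L) := by
  classical
  have hTaff : ∀ i, T i ∈ affc X := by
    intro i
    refine ⟨hTc i, ?_, fun x y => ?_⟩
    · exact ((hTc i).homeoOfEquivCompactToT2).symm.continuous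
    · rw [hTα, hTα, hTα, hTα, map_mul, map_one, mul_one]
      rw [mul_mul_mul_comm, mul_assoc, mul_comm]
      simp only [mul_assoc, mul_comm]
  set T' : Fin d → affc X := fun i => ⟨T i, hTaff i⟩ with hT'
  have hlinα : ∀ i x, linf (T' i) x = α i x := by
    intro i x
    rw [linf_apply]
    change T i x / T i 1 = α i x
    rw [hTα, hTα, map_one, mul_one, mul_div_cancel_left]
  have hlin : ∀ i j x, linf (T' i) (linf (T' j) x) = linf (T' j) (linf (T' i) x) := by
    intro i j x
    rw [hlinα, hlinα, hlinα, hlinα, hα]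
  set P' : Fin n → (Fin k → ℤ) → (Fin d → ℤ) := fun j v i => MvPolynomial.eval (v + 1) (P i j)
    with hP'
  have hnice : ∃ K, ∀ j, Nice K (P' j) := by
    choose K hK using fun j => mv_nice (fun i => P i j)
    refine ⟨∑ j, K j, fun j => ?_⟩
    have h1 := (hK j).comp_affine (AddMonoidHom.id _) 1
    exact h1.mono (Finset.single_le_sum (fun _ _ => Nat.zero_le _) (Finset.mem_univ j))
  obtain ⟨K, hK⟩ := hnice
  set S : Fin n → (Fin k → ℕ) → X → X := fun j m x =>
    ((oprod T' (P' j (cz m)) : affc X) : Equiv.Perm X) x with hS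
  have hSmp : ∀ j m, MeasurePreserving (S j m) μ μ := fun j m => affc_mp _
  have hSeq : ∀ j (m : Fin k → ℕ) x, S j m x =
      (List.ofFn fun i => T i ^ (MvPolynomial.eval (fun l => (((m + 1) l : ℕ) : ℤ)) (P i j))).prod x := by
    intro j m x
    have h1 : ((oprod T' (P' j (cz m)) : affc X) : Equiv.Perm X) = oprod T (P' j (cz m)) :=
      map_oprod (affc X).subtype T' _
    simp only [hS]
    rw [h1]
    unfold oprod
    have h2 : (cz m + 1 : Fin k → ℤ) = fun l => (((m + 1) l : ℕ) : ℤ) := by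
      funext l
      simp [cz]
    simp only [hP', h2]
  have hrep : ∀ j, ∃ (C : ℝ) (F : Fin 2 → X → ℝ), (∀ i x, |F i x| ≤ 1) ∧
      (∀ i, Riem μ (F i) ∨ (Measurable (F i) ∧
        MaxBd μ (fun (m : Fin k → ℕ) x => ((oprod T' (P' j (cz m)) : affc X) : Equiv.Perm X) x))) ∧
      ∀ᵐ x ∂μ, f j x = (C : ℂ) * ((F 0 x : ℂ) + (F 1 x : ℂ) * Complex.I) := by
    intro j
    rcases hf j with h | ⟨h, hcom⟩
    · obtain ⟨C, F, hF1, hF2, hF3⟩ := h.rep
      exact ⟨C, F, hF1, fun i => Or.inl (hF2 i), Eventually.of_forall hF3⟩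
    · obtain ⟨C, F, hFm, hF1, hF3⟩ := exists_rep h
      refine ⟨C, F, hF1, fun i => Or.inr ⟨hFm i, ?_⟩, hF3⟩
      set T'' : Fin d → affc X := fun i => if P i j = 0 then 1 else T' i with hT''
      have hcom'' : ∀ i i', T'' i * T'' i' = T'' i' * T'' i := by
        intro i i'
        simp only [hT'']
        split_ifs with h1 h2 h2
        · rfl
        · rw [one_mul, mul_one]
        · rw [one_mul, mul_one]
        · exact Subtype.ext (hcom i i' h1 h2)
      have hop : ∀ p : Fin d → ℤ, (∀ i, P i j = 0 → p i = 0) → oprod T' p = oprod T'' p := by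
        intro p hp
        unfold oprod
        congr 2
        funext i
        simp only [hT'']
        split_ifs with h1
        · rw [hp i h1, zpow_zero, zpow_zero]
        · rfl
      have h1 := Pf720mp.maxBd_mp (μ := μ) (κ := Fin k)
        (act := fun (q : Fin d → ℤ) x => ((oprod T'' q : affc X) : Equiv.Perm X) x)
        (fun q q' x => by
          change ((oprod T'' (q + q') : affc X) : Equiv.Perm X) x = _
          rw [oprod_add T'' hcom'']
          rfl)
        (fun q => affc_mp _)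
        (fun i => Pf720mp.shP (P i j))
      refine h1.congr fun m x => ?_
      have hP'c : P' j (cz m) = fun i =>
          MvPolynomial.eval (fun l => (m l : ℤ)) (Pf720mp.shP (P i j)) := by
        funext i
        simp only [hP']
        rw [Pf720mp.eval_shP]
        congr 2
      have hP0 : ∀ i, P i j = 0 → P' j (cz m) i = 0 := fun i hi => by simp [hP', hi]
      rw [hop _ hP0, hP'c]
  choose C F hF1 hF2 hF3 using hrep
  have hmain : ∀ e : Fin n → Fin 2, ∀ᵐ x ∂μ, Cvg fun m => ∏ j, F j (e j) (S j m x) := by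
    intro e
    have h1 := mixed_max (μ := μ) hsep (fun χ hχ => integral_char χ hχ) T' hlin hnil P' hK
      Finset.univ (fun j x => (F j (e j) x : ℂ))
      (fun j _ => ⟨F j (e j), hF1 j (e j), fun x => rfl, hF2 j (e j)⟩)
      (fun j hj => absurd (Finset.mem_univ j) hj)
    filter_upwards [h1] with x hx
    refine hx.1.congr fun m => ?_
    rw [← Complex.ofReal_prod, Complex.ofReal_re]
  have h1 := lift_gen S hSmp f C F hF3 hmain
  filter_upwards [h1] with x hx
  obtain ⟨L, hL⟩ := hx
  refine ⟨L, hL.congr fun M => ?_⟩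
  rw [sum_Icc_eq]
  congr 1
  refine Finset.sum_congr rfl fun m _ => Finset.prod_congr rfl fun j _ => ?_
  rw [hSeq]

end Pool.Agent.Lib.Pf720ae.Aff
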