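import Pool.Agent.Lib.Pf720mp.Defs

/-!
# Elementary properties of the multi-parameter exponential sums

Hints. `AA_congr`: for `m ∈ bx (res V M)` one has `m l = 0` off `V`, so `mon m γ = 0` if `γ` is not
supported in `V`. `op_AA`: as `Pool.Agent.Lib.Pf720ae.Poly.op_em` and `chi_eq` (file Poly/Box.lean).
-/

set_option autoImplicit false
set_option linter.unusedSectionVars false

open Finset Filter Topology
open Pool.Agent.Lib.Pf720ae.Poly (ee ee_zero ee_add norm_ee ee_int ee_add_int norm_ee_sub_le)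

namespace Pool.Agent.Lib.Pf720mp

variable {ι : Type} [Fintype ι] [DecidableEq ι] {D : ℕ}

/-- only the active exponents matter -/
theorem AA_congr (V : Finset ι) (M : ι → ℕ) {θ θ' : Ex ι D → ℝ} (h0 : θ 0 = θ' 0)
    (h : ∀ γ ∈ (GV V : Finset (Ex ι D)), θ γ = θ' γ) : AA (res V M) θ = AA (res V M) θ' := by
  unfold AA
  congr 1
  refine Finset.sum_congr rfl fun m hm => ?_
  congr 1
  unfold pp
  refine Finset.sum_congr rfl fun γ _ => ?_
  by_cases hγ0 : γ = 0
  · rw [hγ0, h0]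
  by_cases hγ : ∀ l, l ∉ V → γ l = 0
  · rw [h γ (mem_GV.2 ⟨hγ0, hγ⟩)]
  · push Not at hγ
    obtain ⟨l, hl, hγl⟩ := hγ
    have h1 : m l = 0 := by
      have h2 := mem_bx.1 hm l
      rw [res_of_notMem hl] at h2
      omega
    have h3 : mon m γ = 0 := by
      unfold mon
      refine Finset.prod_eq_zero (Finset.mem_univ l) ?_
      rw [h1]
      refine zero_pow fun h4 => hγl ?_
      exact Fin.ext h4
    rw [h3]
    simp

theorem AA_periodic (M : ι → ℕ) (θ : Ex ι D → ℝ) (n : Ex ι D → ℤ) :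
    AA M (fun γ => θ γ + n γ) = AA M θ := by
  unfold AA
  congr 1
  refine Finset.sum_congr rfl fun m _ => ?_
  have h1 : pp (fun γ => θ γ + n γ) m = pp θ m + ((∑ γ, n γ * (mon m γ : ℤ) : ℤ) : ℝ) := by
    unfold pp
    push_cast
    rw [← Finset.sum_add_distrib]
    exact Finset.sum_congr rfl fun γ _ => by ring
  rw [h1, ee_add_int]

theorem AA_zero_coord (M : ι → ℕ) (θ : Ex ι D → ℝ) :
    AA M θ = ee (θ 0) * AA M (Function.update θ 0 0) := by
  unfold AA
  rw [mul_left_comm, Finset.mul_sum _ _ (ee (θ 0))]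
  congr 1
  refine Finset.sum_congr rfl fun m _ => ?_
  rw [← ee_add]
  congr 1
  unfold pp
  rw [← Finset.add_sum_erase Finset.univ (fun γ : Ex ι D => θ γ * (mon m γ : ℝ))
      (Finset.mem_univ (0 : Ex ι D)),
    ← Finset.add_sum_erase Finset.univ (fun γ => Function.update θ 0 0 γ * (mon m γ : ℝ))
      (Finset.mem_univ (0 : Ex ι D))]
  rw [Function.update_self, mon_zero]
  have h1 : ∑ γ ∈ Finset.univ.erase (0 : Ex ι D), θ γ * (mon m γ : ℝ) =
      ∑ γ ∈ Finset.univ.erase (0 : Ex ι D), Function.update θ 0 0 γ * (mon m γ : ℝ) := by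
    refine Finset.sum_congr rfl fun γ hγ => ?_
    rw [Function.update_of_ne (Finset.ne_of_mem_erase hγ)]
  rw [h1]
  push_cast
  ring

theorem psi_add_int (L : Finset ι) (μ : ι → ℕ) (θ : Ex ι D → ℝ) (n : Ex ι D → ℤ) (γ : Ex ι D) :
    psi L μ (fun δ => θ δ + n δ) γ =
      psi L μ θ γ + ((∑ δ, (wt L μ γ δ : ℤ) * n δ : ℤ) : ℝ) := by
  unfold psi
  push_cast
  rw [← Finset.sum_add_distrib]
  exact Finset.sum_congr rfl fun δ _ => by ring

theorem psi_sub (L : Finset ι) (μ : ι → ℕ) (θ θ' : Ex ι D → ℝ) (γ : Ex ι D) :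
    psi L μ θ γ - psi L μ θ' γ = ∑ δ, (wt L μ γ δ : ℝ) * (θ δ - θ' δ) := by
  unfold psi
  rw [← Finset.sum_sub_distrib]
  exact Finset.sum_congr rfl fun δ _ => by ring

lemma ApiB.chi_eq {I : Type} [Fintype I] {L : ℕ} [NeZero L] (a : I → ZMod L) (x : I → ℕ) :
    chi a (fun e => (x e : ZMod L)) = ee (∑ e, fq a e * x e) := by
  have h1 : (∑ e, a e * (x e : ZMod L)) = (((∑ e, (a e).val * x e : ℕ) : ℤ) : ZMod L) := by
    push_cast
    refine Finset.sum_congr rfl fun e _ => ?_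
    rw [ZMod.natCast_zmod_val]
  unfold chi
  rw [h1, ZMod.stdAddChar_coe]
  unfold ee fq
  congr 1
  have hL : (L : ℂ) ≠ 0 := Nat.cast_ne_zero.2 (NeZero.ne L)
  push_cast
  rw [mul_div_assoc]
  have h2 : (∑ e, ((a e).val : ℂ) * (x e : ℂ)) / (L : ℂ) =
      ∑ e, ((a e).val : ℂ) / (L : ℂ) * (x e : ℂ) := by
    rw [Finset.sum_div]
    refine Finset.sum_congr rfl fun e _ => ?_
    field_simp
  rw [h2]
  ring

theorem op_AA {L : ℕ} [NeZero L] (F : (Ex ι D → ZMod L) → ℂ) (M : ι → ℕ) (x : Ex ι D → ZMod L) :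
    op (fun a => AA M (fq a)) F x = (∏ l, (M l : ℂ))⁻¹ * ∑ m ∈ bx M, F (x + gam L m) := by
  have h1 : (fun a : Ex ι D → ZMod L => AA M (fq a)) =
      fun a => (∏ l, (M l : ℂ))⁻¹ * ∑ m ∈ bx M, chi a (gam L m) := by
    funext a
    unfold AA
    congr 1
    refine Finset.sum_congr rfl fun m _ => ?_
    have h2 := ApiB.chi_eq a (fun γ : Ex ι D => mon m γ)
    unfold pp
    rw [← h2]
    rfl
  rw [h1, op_smul, op_sum]
  congr 1
  refine Finset.sum_congr rfl fun m _ => ?_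
  exact op_chi _ F x

/-- weights of active exponents, lower bound -/
theorem pow_le_mon (V : Finset ι) {M : ι → ℕ} {N : ℕ} (hN : 1 ≤ N) (hM : ∀ l ∈ V, N ≤ M l)
    {γ : Ex ι D} (hγ : γ ∈ (GV V : Finset (Ex ι D))) : N ≤ mon (res V M) γ := by
  obtain ⟨h0, h1⟩ := mem_GV.1 hγ
  obtain ⟨l, hl⟩ : ∃ l, γ l ≠ 0 := by
    by_contra hcon
    push Not at hcon
    exact h0 (funext hcon)
  have hlV : l ∈ V := by
    by_contra h2
    exact hl (h1 l h2)
  rw [mon_res]
  have h2 : N ≤ M l ^ (γ l : ℕ) := by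
    have h3 : (γ l : ℕ) ≠ 0 := fun h4 => hl (Fin.ext h4)
    exact (hM l hlV).trans (Nat.le_self_pow h3 _)
  refine h2.trans ?_
  refine Finset.single_le_prod' (f := fun l => M l ^ (γ l : ℕ)) (fun l' hl' => ?_) hlV
  exact Nat.one_le_pow _ _ (lt_of_lt_of_le hN (hM l' hl'))

end Pool.Agent.Lib.Pf720mp
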