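import Pool.Agent.Lib.Pf720mp.ApiA
import Pool.Agent.Lib.Pf720mp.ApiB

/-!
# Elementary properties of the multi-parameter exponential sums (umbrella file)
-/
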