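import Pool.Agent.Lib.Pf720mp.Defs

/-!
# Freezing variables: algebra of `psi` and `wt`

Hints. For each `δ` the only `γ` with `wt L μ γ δ ≠ 0` is `cut L δ`. `pp_psi`: swap the two sums,
`mon (μ + m) δ = (∏_{l ∈ L} μ l ^ δ l) * mon m (cut L δ)`. `AA_split`: the box `bx (res V M)` is in bijection
with `bx (res L M) × bx (res (V \ L) M)` by `m ↦ (m on L, m off L)`. `psi_eq_pp`: reindex the `δ` with
`cut L δ = γ` by `γ' = ` the part of `δ` supported in `L`.
-/

set_option autoImplicit false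
set_option linter.unusedSectionVars false

open Finset Filter Topology
open Pool.Agent.Lib.Pf720ae.Poly (ee ee_zero ee_add norm_ee ee_int ee_add_int norm_ee_sub_le)

namespace Pool.Agent.Lib.Pf720mp

variable {ι : Type} [Fintype ι] [DecidableEq ι] {D : ℕ}

theorem ApiAAux.cond_iff {L : Finset ι} {γ δ : Ex ι D} :
    ((∀ l ∈ L, γ l = 0) ∧ ∀ l, l ∉ L → δ l = γ l) ↔ cut L δ = γ := by
  constructor
  · rintro ⟨h1, h2⟩
    funext l
    unfold cut
    split_ifs with hl
    · exact (h1 l hl).symm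
    · exact h2 l hl
  · rintro rfl
    constructor
    · intro l hl
      simp [cut, hl]
    · intro l hl
      simp [cut, hl]

theorem ApiAAux.wt_def (L : Finset ι) (μ : ι → ℕ) (γ δ : Ex ι D) :
    wt L μ γ δ = if cut L δ = γ then ∏ l ∈ L, μ l ^ (δ l : ℕ) else 0 := by
  unfold wt
  by_cases h : cut L δ = γ
  · rw [if_pos h, if_pos (ApiAAux.cond_iff.2 h)]
  · rw [if_neg h, if_neg (fun h' => h (ApiAAux.cond_iff.1 h'))]

theorem ApiAAux.mon_add (L : Finset ι) {μ m : ι → ℕ} (hμ : ∀ l, l ∉ L → μ l = 0)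
    (hm : ∀ l ∈ L, m l = 0) (δ : Ex ι D) :
    mon (fun l => μ l + m l) δ = (∏ l ∈ L, μ l ^ (δ l : ℕ)) * mon m (cut L δ) := by
  unfold mon
  rw [← Finset.prod_mul_prod_compl L (fun l => (μ l + m l) ^ (δ l : ℕ)),
    ← Finset.prod_mul_prod_compl L (fun l => m l ^ ((cut L δ) l : ℕ))]
  have h1 : ∏ l ∈ L, (μ l + m l) ^ (δ l : ℕ) = ∏ l ∈ L, μ l ^ (δ l : ℕ) :=
    Finset.prod_congr rfl fun l hl => by rw [hm l hl, add_zero]
  have h2 : ∏ l ∈ Lᶜ, (μ l + m l) ^ (δ l : ℕ) = ∏ l ∈ Lᶜ, m l ^ ((cut L δ) l : ℕ) :=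
    Finset.prod_congr rfl fun l hl => by
      have hl' : l ∉ L := Finset.mem_compl.1 hl
      rw [hμ l hl', zero_add]
      simp [cut, hl']
  have h3 : ∏ l ∈ L, m l ^ ((cut L δ) l : ℕ) = 1 :=
    Finset.prod_eq_one fun l hl => by simp [cut, hl]
  rw [h1, h2, h3, one_mul]

/-- substitution of the frozen variables in the phase polynomial -/
theorem pp_psi (L : Finset ι) {μ m : ι → ℕ} (hμ : ∀ l, l ∉ L → μ l = 0) (hm : ∀ l ∈ L, m l = 0)
    (θ : Ex ι D → ℝ) : pp θ (fun l => μ l + m l) = pp (psi L μ θ) m := by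
  unfold pp psi
  have h1 : ∀ γ : Ex ι D, (∑ δ, (wt L μ γ δ : ℝ) * θ δ) * (mon m γ : ℝ) =
      ∑ δ, (wt L μ γ δ : ℝ) * θ δ * (mon m γ : ℝ) := fun γ => Finset.sum_mul _ _ _
  simp only [h1]
  rw [Finset.sum_comm]
  refine Finset.sum_congr rfl fun δ _ => ?_
  rw [Finset.sum_eq_single (cut L δ)]
  · rw [ApiAAux.mon_add L hμ hm, ApiAAux.wt_def, if_pos rfl]
    push_cast
    ring
  · intro γ _ hγ
    rw [ApiAAux.wt_def, if_neg (Ne.symm hγ)]
    simp
  · intro h
    exact absurd (Finset.mem_univ _) h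

/-- averaging first over the variables in `V \ L` -/
theorem AA_split {L V : Finset ι} (hLV : L ⊆ V) (M : ι → ℕ) (θ : Ex ι D → ℝ) :
    AA (res V M) θ = (∏ l, (res L M l : ℂ))⁻¹ *
      ∑ μ ∈ bx (res L M), AA (res (V \ L) M) (psi L μ θ) := by
  classical
  have hres : ∀ l, res V M l = res L M l * res (V \ L) M l := by
    intro l
    unfold res
    by_cases h1 : l ∈ L
    · have h2 : l ∈ V := hLV h1
      simp [h1, h2]
    · by_cases h2 : l ∈ V
      · simp [h1, h2]
      · simp [h1, h2]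
  have hz1 : ∀ μ ∈ bx (res L M), ∀ l, l ∉ L → μ l = 0 := by
    intro μ hμ l hl
    have := mem_bx.1 hμ l
    rw [res_of_notMem hl] at this
    omega
  have hz2 : ∀ m ∈ bx (res (V \ L) M), ∀ l, l ∉ V \ L → m l = 0 := by
    intro m hm l hl
    have := mem_bx.1 hm l
    rw [res_of_notMem hl] at this
    omega
  have hsum : ∑ n ∈ bx (res V M), ee (pp θ n) =
      ∑ μ ∈ bx (res L M), ∑ m ∈ bx (res (V \ L) M), ee (pp (psi L μ θ) m) := by
    rw [← Finset.sum_product']
    refine Finset.sum_bij' (fun n _ => ((fun l => if l ∈ L then n l else 0 : ι → ℕ),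
        (fun l => if l ∈ L then 0 else n l : ι → ℕ)))
      (fun p _ => (fun l => p.1 l + p.2 l : ι → ℕ)) ?_ ?_ ?_ ?_ ?_
    · intro n hn
      rw [Finset.mem_product]
      have hn' := mem_bx.1 hn
      constructor
      · refine mem_bx.2 fun l => ?_
        show (if l ∈ L then n l else 0) < res L M l
        have h1 := hn' l
        by_cases hl : l ∈ L
        · rw [if_pos hl, res_of_mem hl]
          rwa [res_of_mem (hLV hl)] at h1
        · rw [if_neg hl, res_of_notMem hl]
          exact one_pos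
      · refine mem_bx.2 fun l => ?_
        show (if l ∈ L then 0 else n l) < res (V \ L) M l
        have h1 := hn' l
        by_cases hl : l ∈ L
        · rw [if_pos hl, res_of_notMem (by simp [hl])]
          exact one_pos
        · rw [if_neg hl]
          by_cases hv : l ∈ V
          · rw [res_of_mem (by simp [hl, hv])]
            rwa [res_of_mem hv] at h1
          · rw [res_of_notMem (by simp [hv])]
            rwa [res_of_notMem hv] at h1
    · intro p hp
      rw [Finset.mem_product] at hp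
      have h1 := mem_bx.1 hp.1
      have h2 := mem_bx.1 hp.2
      refine mem_bx.2 fun l => ?_
      show p.1 l + p.2 l < res V M l
      by_cases hl : l ∈ L
      · have h3 : p.2 l = 0 := hz2 _ hp.2 l (by simp [hl])
        have h4 := h1 l
        rw [res_of_mem hl] at h4
        rw [res_of_mem (hLV hl), h3, add_zero]
        exact h4
      · have h3 : p.1 l = 0 := hz1 _ hp.1 l hl
        have h4 := h2 l
        rw [h3, zero_add]
        by_cases hv : l ∈ V
        · rw [res_of_mem (by simp [hl, hv])] at h4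
          rw [res_of_mem hv]
          exact h4
        · rw [res_of_notMem (by simp [hv])] at h4
          rw [res_of_notMem hv]
          exact h4
    · intro n hn
      funext l
      show (if l ∈ L then n l else 0) + (if l ∈ L then 0 else n l) = n l
      split_ifs <;> simp
    · intro p hp
      rw [Finset.mem_product] at hp
      refine Prod.ext ?_ ?_
      · funext l
        show (if l ∈ L then p.1 l + p.2 l else 0) = p.1 l
        by_cases hl : l ∈ L
        · rw [if_pos hl, hz2 _ hp.2 l (by simp [hl]), add_zero]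
        · rw [if_neg hl, hz1 _ hp.1 l hl]
      · funext l
        show (if l ∈ L then 0 else p.1 l + p.2 l) = p.2 l
        by_cases hl : l ∈ L
        · rw [if_pos hl, hz2 _ hp.2 l (by simp [hl])]
        · rw [if_neg hl, hz1 _ hp.1 l hl, zero_add]
    · intro n hn
      congr 1
      rw [← pp_psi L (μ := fun l => if l ∈ L then n l else 0)
        (m := fun l => if l ∈ L then 0 else n l) (fun l hl => if_neg hl) (fun l hl => if_pos hl) θ]
      congr 1
      funext l
      split_ifs <;> simp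
  unfold AA
  rw [hsum, ← Finset.mul_sum, ← mul_assoc]
  congr 1
  rw [← mul_inv, ← Finset.prod_mul_distrib]
  congr 1
  refine Finset.prod_congr rfl fun l _ => ?_
  rw [hres l]
  push_cast
  rfl

/-- the coordinate `γ` of `psi L μ θ` as a polynomial in `μ` -/
theorem psi_eq_pp (L : Finset ι) {μ : ι → ℕ} (hμ : ∀ l, l ∉ L → μ l = 0) (θ : Ex ι D → ℝ)
    {γ : Ex ι D} (hγ : ∀ l ∈ L, γ l = 0) :
    psi L μ θ γ = pp (fun γ' => if ∀ l, l ∉ L → γ' l = 0 then θ (join L γ' γ) else 0) μ := by
  classical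
  unfold psi pp
  have h1 : ∑ δ, (wt L μ γ δ : ℝ) * θ δ = ∑ δ ∈ univ.filter (fun δ : Ex ι D => cut L δ = γ),
      ((∏ l ∈ L, μ l ^ (δ l : ℕ) : ℕ) : ℝ) * θ δ := by
    rw [Finset.sum_filter]
    refine Finset.sum_congr rfl fun δ _ => ?_
    rw [ApiAAux.wt_def]
    split_ifs with h
    · rfl
    · simp
  have h2 : ∑ γ' : Ex ι D, (if ∀ l, l ∉ L → γ' l = 0 then θ (join L γ' γ) else 0) *
      (mon μ γ' : ℝ) = ∑ γ' ∈ univ.filter (fun γ' : Ex ι D => ∀ l, l ∉ L → γ' l = 0),
      θ (join L γ' γ) * (mon μ γ' : ℝ) := by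
    rw [Finset.sum_filter]
    refine Finset.sum_congr rfl fun δ _ => ?_
    split_ifs with h
    · rfl
    · simp
  rw [h1]
  refine Eq.trans ?_ h2.symm
  refine Finset.sum_bij' (fun δ _ => (fun l => if l ∈ L then δ l else 0 : Ex ι D))
    (fun γ' _ => join L γ' γ) ?_ ?_ ?_ ?_ ?_
  · intro δ hδ
    rw [Finset.mem_filter]
    exact ⟨Finset.mem_univ _, fun l hl => if_neg hl⟩
  · intro γ' hγ'
    rw [Finset.mem_filter]
    refine ⟨Finset.mem_univ _, ?_⟩
    funext l
    unfold cut join
    by_cases hl : l ∈ L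
    · rw [if_pos hl, hγ l hl]
    · rw [if_neg hl, if_neg hl]
  · intro δ hδ
    rw [Finset.mem_filter] at hδ
    funext l
    have h3 := congrFun hδ.2 l
    unfold cut at h3
    unfold join
    by_cases hl : l ∈ L
    · simp only [if_pos hl]
    · rw [if_neg hl] at h3
      simp only [if_neg hl]
      exact h3.symm
  · intro γ' hγ'
    rw [Finset.mem_filter] at hγ'
    funext l
    unfold join
    by_cases hl : l ∈ L
    · rw [if_pos hl, if_pos hl]
    · rw [if_neg hl, hγ'.2 l hl]
  · intro δ hδ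
    rw [Finset.mem_filter] at hδ
    have h3 : join L (fun l => if l ∈ L then δ l else 0 : Ex ι D) γ = δ := by
      funext l
      have h3 := congrFun hδ.2 l
      unfold cut at h3
      unfold join
      by_cases hl : l ∈ L
      · simp only [if_pos hl]
      · rw [if_neg hl] at h3
        simp only [if_neg hl]
        exact h3.symm
    rw [h3, mul_comm]
    congr 2
    unfold mon
    rw [← Finset.prod_mul_prod_compl L]
    have h4 : ∏ l ∈ Lᶜ, μ l ^ ((if l ∈ L then δ l else 0 : Fin (D + 1)) : ℕ) = 1 :=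
      Finset.prod_eq_one fun l hl => by
        rw [if_neg (Finset.mem_compl.1 hl)]
        simp
    rw [h4, mul_one]
    refine Finset.prod_congr rfl fun l hl => ?_
    simp only [if_pos hl]

/-- `wt` vanishes unless `γ` is `δ` with the exponents in `L` erased -/
theorem wt_eq_zero {L : Finset ι} (μ : ι → ℕ) {γ δ : Ex ι D} (h : cut L δ ≠ γ) :
    wt L μ γ δ = 0 := by
  rw [ApiAAux.wt_def, if_neg h]

theorem wt_cut (L : Finset ι) (μ : ι → ℕ) (δ : Ex ι D) :
    wt L μ (cut L δ) δ = ∏ l ∈ L, μ l ^ (δ l : ℕ) := by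
  rw [ApiAAux.wt_def, if_pos rfl]

/-- the coordinate `0` of `psi L μ θ` only involves the exponents supported in `L` -/
theorem psi_zero_congr (L : Finset ι) (μ : ι → ℕ) {θ θ' : Ex ι D → ℝ}
    (h : ∀ δ : Ex ι D, (∀ l, l ∉ L → δ l = 0) → θ δ = θ' δ) : psi L μ θ 0 = psi L μ θ' 0 := by
  unfold psi
  refine Finset.sum_congr rfl fun δ _ => ?_
  by_cases hδ : cut L δ = 0
  · rw [h δ]
    intro l hl
    have := congrFun hδ l
    unfold cut at this
    rw [if_neg hl] at this
    exact this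
  · rw [wt_eq_zero μ hδ]
    simp

theorem wt_le (L : Finset ι) {μ : ι → ℕ} {R : ℕ} (hR : 1 ≤ R) (hμ : ∀ l ∈ L, μ l ≤ R)
    (γ δ : Ex ι D) : wt L μ γ δ ≤ R ^ (D * Fintype.card ι) := by
  rw [ApiAAux.wt_def]
  split_ifs with h
  · calc ∏ l ∈ L, μ l ^ (δ l : ℕ) ≤ ∏ _l ∈ L, R ^ D := by
          refine Finset.prod_le_prod' fun l hl => ?_
          have h1 : (δ l : ℕ) ≤ D := Nat.lt_succ_iff.1 (δ l).2
          exact (Nat.pow_le_pow_left (hμ l hl) _).trans (Nat.pow_le_pow_right hR h1)
      _ = R ^ (D * L.card) := by rw [Finset.prod_const, pow_mul]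
      _ ≤ _ := Nat.pow_le_pow_right hR (Nat.mul_le_mul_left _ (Finset.card_le_univ _))
  · exact Nat.zero_le _

end Pool.Agent.Lib.Pf720mp
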