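import Pool.Agent.Lib.Pf720mp.RecB

/-!
# Multi-parameter inverse theorem for Weyl sums

If `‖AA M θ‖ ≥ 1 / K` and all `M_l ≥ K ^ C` (`l ∈ V`), then all the coefficients `θ_γ`, `γ ≠ 0`, are
within `K ^ C M ^ (-γ)` of rationals with a common denominator `q ≤ K ^ C`.

`Finset.induction_on V`. `V = ∅`: `GV ∅ = ∅`, `q = 1`. Step `V = insert a V'`, `M' = update M a 1`
(so `M = res V M`, `M' = res V' M`), notation `Θ_e(m') = ∑ over γ with γ a = e of θ γ m' ^ γ`.

(1) `AA M θ = |bx M'|⁻¹ ∑_{m' ∈ bx M'} M_a⁻¹ ∑_{x < M_a} ee (∑_e Θ_e(m') x ^ e)`. So at least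
`|bx M'| / (2 K)` of the `m'` have inner average of modulus `≥ 1 / (2 K)`; for these
`inverse_weyl D` gives `q(m') ≤ (2 K) ^ C₀` and `nd (q(m') Θ_e(m')) ≤ (2 K) ^ C₀ / M_a ^ e`,
`1 ≤ e ≤ D`. Pigeonhole: common `q₀` for at least `|bx M'| / K₁` of the `m'`,
`K₁ = (2 K) ^ (C₀ + 1)`. For each `1 ≤ e ≤ D` apply `rec_multi D V'` with `K₁`, `M'`,
`ε = (2 K) ^ C₀ / M_a ^ e`, `g γ = if γ a = 0 then q₀ θ (update γ a e) else 0`: `q_e ≤ K₁ ^ C₁` and
`nd (q_e q₀ θ (update γ a e)) mon M' γ ≤ K₁ ^ C₁ ε` for all `γ` supported in `V'` (also `γ = 0`).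
(2) By averaging there is `x₀ < M_a` with `‖AA M' (psi {a} (Pi.single a x₀) θ)‖ ≥ 1 / K`
(`AA_split` with `L = {a}`, or directly). The induction hypothesis for `V'` gives `q' ≤ K ^ C'` and
`nd (q' ∑_e θ (update γ a e) x₀ ^ e) mon M' γ ≤ K ^ C'` for `γ ∈ GV V'`.
(3) `q = q' q₀ ∏_{e=1}^D q_e`. For `γ ∈ GV V` with `γ a = e ≥ 1`: `mon M γ = M_a ^ e mon M' (update γ a 0)`
and (1). For `γ a = 0`: `q θ γ = q (∑_e θ (update γ a e) x₀ ^ e) - ∑_{e ≥ 1} q θ (update γ a e) x₀ ^ e`,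
and `x₀ ^ e ε_e ≤ (2 K) ^ C₀`. `nd` is subadditive and `nd (n x) ≤ n nd x` (`IW.nd_nat_mul`).
-/

set_option autoImplicit false
set_option linter.unusedSectionVars false

open Finset
open Pool.Agent.Lib.Pf720ae.Poly (ee)
open Pool.Agent.Lib.Pf720ae.Poly.IW (nd)

namespace Pool.Agent.Lib.Pf720mp

variable {ι : Type} [Fintype ι] [DecidableEq ι]

namespace InvAux

open Pool.Agent.Lib.Pf720ae.Poly.IW (nd_add nd_sub nd_neg nd_sum nd_nat_mul nd_nonneg PP Good main
  ee_add norm_ee nat_le_pow two_pow_le)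

variable {D : ℕ}

/-- the coefficient polynomial of `x_a ^ e` -/
noncomputable def gg (a : ι) (e : Fin (D + 1)) (θ : Ex ι D → ℝ) : Ex ι D → ℝ :=
  fun γ => if γ a = 0 then θ (Function.update γ a e) else 0

/-- freezing the variable `a` at `x` -/
noncomputable def fr (a : ι) (x : ℕ) (θ : Ex ι D → ℝ) : Ex ι D → ℝ :=
  fun γ => ∑ e : Fin (D + 1), gg a e θ γ * (x : ℝ) ^ (e : ℕ)

theorem mon_cut (m : ι → ℕ) (a : ι) (γ : Ex ι D) :
    mon m (Function.update γ a 0) = ∏ l ∈ univ.erase a, m l ^ (γ l : ℕ) := by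
  unfold mon
  rw [← Finset.mul_prod_erase univ _ (mem_univ a), Function.update_self]
  rw [Fin.val_zero, pow_zero, one_mul]
  refine Finset.prod_congr rfl fun l hl => ?_
  rw [Function.update_of_ne (Finset.ne_of_mem_erase hl)]

theorem mon_update (m : ι → ℕ) (a : ι) (x : ℕ) (γ : Ex ι D) :
    mon (Function.update m a x) γ = x ^ (γ a : ℕ) * mon m (Function.update γ a 0) := by
  rw [mon_cut]
  unfold mon
  rw [← Finset.mul_prod_erase univ _ (mem_univ a), Function.update_self]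
  congr 1
  refine Finset.prod_congr rfl fun l hl => ?_
  rw [Function.update_of_ne (Finset.ne_of_mem_erase hl)]

theorem pp_update (m : ι → ℕ) (a : ι) (x : ℕ) (θ : Ex ι D → ℝ) :
    pp θ (Function.update m a x) = ∑ e : Fin (D + 1), pp (gg a e θ) m * (x : ℝ) ^ (e : ℕ) := by
  have h1 : ∀ e : Fin (D + 1), pp (gg a e θ) m * (x : ℝ) ^ (e : ℕ) =
      ∑ γ ∈ univ.filter (fun γ : Ex ι D => γ a = 0),
        θ (Function.update γ a e) * (mon m γ : ℝ) * (x : ℝ) ^ (e : ℕ) := by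
    intro e
    unfold pp gg
    rw [Finset.sum_mul, Finset.sum_filter]
    refine Finset.sum_congr rfl fun γ _ => ?_
    split_ifs <;> simp
  rw [Finset.sum_congr rfl fun e _ => h1 e, ← Finset.sum_product']
  unfold pp
  refine Finset.sum_bij' (fun γ _ => (γ a, Function.update γ a 0))
    (fun p _ => Function.update p.2 a p.1) ?_ ?_ ?_ ?_ ?_
  · intro γ _
    simp
  · intro p _
    exact mem_univ _
  · intro γ _
    simp
  · rintro ⟨e, γ⟩ hp
    simp only [mem_product, mem_filter, mem_univ, true_and] at hp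
    simp only [Function.update_self, Function.update_idem, Prod.mk.injEq, true_and]
    rw [← hp]
    exact Function.update_eq_self a γ
  · intro γ _
    rw [mon_update]
    simp only [Function.update_idem, Function.update_eq_self]
    push_cast
    ring

theorem pp_fr (m : ι → ℕ) (a : ι) (x : ℕ) (θ : Ex ι D → ℝ) :
    pp (fr a x θ) m = pp θ (Function.update m a x) := by
  rw [pp_update]
  unfold pp fr
  simp only [Finset.sum_mul]
  rw [Finset.sum_comm]
  refine Finset.sum_congr rfl fun e _ => Finset.sum_congr rfl fun γ _ => ?_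
  ring

theorem pp_smul (c : ℝ) (θ : Ex ι D → ℝ) (m : ι → ℕ) : pp (fun γ => c * θ γ) m = c * pp θ m := by
  unfold pp
  rw [Finset.mul_sum]
  exact Finset.sum_congr rfl fun γ _ => by ring

theorem sum_bx {β : Type} [AddCommMonoid β] (M : ι → ℕ) (a : ι) (f : (ι → ℕ) → β) :
    ∑ m ∈ bx M, f m = ∑ m ∈ bx (Function.update M a 1), ∑ x ∈ range (M a),
      f (Function.update m a x) := by
  rw [← Finset.sum_product']
  refine Finset.sum_bij' (fun m _ => (Function.update m a 0, m a))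
    (fun p _ => Function.update p.1 a p.2) ?_ ?_ ?_ ?_ ?_
  · intro m hm
    rw [mem_bx] at hm
    rw [mem_product, mem_bx, mem_range]
    refine ⟨fun l => ?_, hm a⟩
    by_cases hl : l = a
    · subst hl; simp
    · simp only [Function.update_of_ne hl]; exact hm l
  · rintro ⟨m, x⟩ hp
    rw [mem_product, mem_bx, mem_range] at hp
    rw [mem_bx]
    intro l
    by_cases hl : l = a
    · subst hl
      simp only [Function.update_self]
      exact hp.2
    · have h1 := hp.1 l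
      simp only [Function.update_of_ne hl] at h1 ⊢
      exact h1
  · intro m _
    simp
  · rintro ⟨m, x⟩ hp
    rw [mem_product, mem_bx, mem_range] at hp
    have h1 := hp.1 a
    simp only [Function.update_self] at h1
    have h2 : m a = 0 := by omega
    simp only [Function.update_self, Function.update_idem, Prod.mk.injEq, and_true]
    rw [← h2]
    exact Function.update_eq_self a m
  · intro m _
    simp

theorem prod_upd (M : ι → ℕ) (a : ι) : ∏ l, M l = M a * ∏ l, Function.update M a 1 l := by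
  rw [← Finset.mul_prod_erase univ _ (mem_univ a)]
  rw [← Finset.mul_prod_erase univ (Function.update M a 1) (mem_univ a), Function.update_self,
    one_mul]
  congr 1
  refine Finset.prod_congr rfl fun l hl => ?_
  rw [Function.update_of_ne (Finset.ne_of_mem_erase hl)]

theorem AA_fr (M : ι → ℕ) (a : ι) (θ : Ex ι D → ℝ) :
    AA M θ = (M a : ℂ)⁻¹ * ∑ x ∈ range (M a), AA (Function.update M a 1) (fr a x θ) := by
  unfold AA
  have h1 : (∏ l, (M l : ℂ)) = (M a : ℂ) * ∏ l, (Function.update M a 1 l : ℂ) := by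
    have := congrArg (Nat.cast : ℕ → ℂ) (prod_upd M a)
    push_cast at this
    exact this
  rw [h1, mul_inv, mul_assoc, sum_bx M a, Finset.sum_comm, Finset.mul_sum]
  simp only [pp_fr]

theorem exists_freeze {K : ℝ} (M : ι → ℕ) (a : ι) (hM : 0 < M a) (θ : Ex ι D → ℝ)
    (h : K⁻¹ ≤ ‖AA M θ‖) : ∃ x < M a, K⁻¹ ≤ ‖AA (Function.update M a 1) (fr a x θ)‖ := by
  by_contra hcon
  push Not at hcon
  have hMr : (0 : ℝ) < M a := by exact_mod_cast hM
  have h1 : ‖∑ x ∈ range (M a), AA (Function.update M a 1) (fr a x θ)‖ < M a * K⁻¹ := by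
    refine (norm_sum_le _ _).trans_lt ?_
    calc ∑ x ∈ range (M a), ‖AA (Function.update M a 1) (fr a x θ)‖
        < ∑ _x ∈ range (M a), K⁻¹ := by
          refine Finset.sum_lt_sum_of_nonempty ⟨0, mem_range.2 hM⟩ fun x hx => ?_
          exact hcon x (mem_range.1 hx)
      _ = M a * K⁻¹ := by rw [Finset.sum_const, card_range, nsmul_eq_mul]
  rw [AA_fr M a, norm_mul, norm_inv, Complex.norm_natCast] at h
  have h2 : (M a : ℝ)⁻¹ * ‖∑ x ∈ range (M a), AA (Function.update M a 1) (fr a x θ)‖ < K⁻¹ := by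
    rw [inv_mul_lt_iff₀ hMr]
    exact h1
  linarith

theorem many_inner {K : ℝ} (hK : 0 < K) (M : ι → ℕ) (a : ι) (hM : ∀ l, 0 < M l)
    (θ : Ex ι D → ℝ) (h : K⁻¹ ≤ ‖AA M θ‖) :
    ∃ E : Finset (ι → ℕ), E ⊆ bx (Function.update M a 1) ∧
      ((∏ l, Function.update M a 1 l : ℕ) : ℝ) ≤ 2 * K * E.card ∧
      ∀ m ∈ E, (M a : ℝ) ≤ 2 * K * ‖∑ x ∈ range (M a), ee (pp θ (Function.update m a x))‖ := by
  obtain ⟨P, hP⟩ : ∃ P : ℝ, P = ((∏ l, Function.update M a 1 l : ℕ) : ℝ) := ⟨_, rfl⟩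
  obtain ⟨S, hS⟩ : ∃ S : (ι → ℕ) → ℝ, ∀ m, S m =
      ‖∑ x ∈ range (M a), ee (pp θ (Function.update m a x))‖ := ⟨_, fun _ => rfl⟩
  have hMr : (0 : ℝ) < M a := by exact_mod_cast hM a
  have hP0 : 0 < P := by
    rw [hP]
    have : 0 < ∏ l, Function.update M a 1 l := by
      refine Finset.prod_pos fun l _ => ?_
      by_cases hl : l = a
      · subst hl; simp
      · rw [Function.update_of_ne hl]; exact hM l
    exact_mod_cast this
  have hSle : ∀ m, S m ≤ M a := by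
    intro m
    rw [hS]
    refine (norm_sum_le _ _).trans ?_
    simp [norm_ee]
  have h1 : (M a * P) * K⁻¹ ≤ ∑ m ∈ bx (Function.update M a 1), S m := by
    have h2 : ‖∑ m ∈ bx M, ee (pp θ m)‖ ≤ ∑ m ∈ bx (Function.update M a 1), S m := by
      rw [sum_bx M a]
      refine (norm_sum_le _ _).trans (le_of_eq ?_)
      exact Finset.sum_congr rfl fun m _ => (hS m).symm
    refine le_trans ?_ h2
    unfold AA at h
    have h3 : ‖(∏ l, (M l : ℂ))⁻¹‖ = (M a * P)⁻¹ := by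
      rw [norm_inv]
      congr 1
      have h4 : (∏ l, (M l : ℂ)) = ((∏ l, M l : ℕ) : ℂ) := by push_cast; rfl
      rw [h4, Complex.norm_natCast, prod_upd M a, Nat.cast_mul, hP]
    rw [norm_mul, h3, le_inv_mul_iff₀ (by positivity)] at h
    exact h
  refine ⟨(bx (Function.update M a 1)).filter (fun m => (M a : ℝ) ≤ 2 * K * S m),
    Finset.filter_subset _ _, ?_, fun m hm => ?_⟩
  · rw [← hP]
    obtain ⟨E, hE⟩ : ∃ E, E = (bx (Function.update M a 1)).filter
      (fun m => (M a : ℝ) ≤ 2 * K * S m) := ⟨_, rfl⟩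
    rw [← hE]
    have h2 : ∑ m ∈ bx (Function.update M a 1), S m ≤ E.card * M a + P * (M a / (2 * K)) := by
      rw [← Finset.sum_filter_add_sum_filter_not _ (fun m => (M a : ℝ) ≤ 2 * K * S m), ← hE]
      refine add_le_add ?_ ?_
      · calc ∑ m ∈ E, S m ≤ ∑ _m ∈ E, (M a : ℝ) := Finset.sum_le_sum fun m _ => hSle m
          _ = E.card * M a := by rw [Finset.sum_const, nsmul_eq_mul]
      · calc ∑ m ∈ (bx (Function.update M a 1)).filter (fun m => ¬ (M a : ℝ) ≤ 2 * K * S m), S m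
            ≤ ∑ _m ∈ (bx (Function.update M a 1)).filter
              (fun m => ¬ (M a : ℝ) ≤ 2 * K * S m), (M a : ℝ) / (2 * K) := by
              refine Finset.sum_le_sum fun m hm => ?_
              have h5 := (Finset.mem_filter.1 hm).2
              push Not at h5
              rw [le_div_iff₀ (by positivity)]
              nlinarith
          _ ≤ P * (M a / (2 * K)) := by
              rw [Finset.sum_const, nsmul_eq_mul]
              refine mul_le_mul_of_nonneg_right ?_ (by positivity)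
              rw [hP, ← card_bx]
              exact_mod_cast Finset.card_filter_le _ _
    have h3 := h1.trans h2
    have h4 : M a * P * K⁻¹ = 2 * (P * (M a / (2 * K))) := by
      field_simp
    have h5 : P * (M a / (2 * K)) ≤ E.card * M a := by linarith
    have h6 : P * (M a / (2 * K)) = (M a * P) / (2 * K) := by ring
    rw [h6, div_le_iff₀ (by positivity)] at h5
    have h7 : (M a : ℝ) * P ≤ M a * (2 * K * E.card) := by linarith
    exact le_of_mul_le_mul_left h7 hMr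
  · have h5 := (Finset.mem_filter.1 hm).2
    rw [hS] at h5
    exact h5

theorem pigeon {β : Type} (E : Finset β) (q : β → ℕ) {B : ℝ} (hB : 1 ≤ B)
    (hq : ∀ m ∈ E, 0 < q m ∧ (q m : ℝ) ≤ B) :
    ∃ (q₀ : ℕ) (E' : Finset β), 0 < q₀ ∧ (q₀ : ℝ) ≤ B ∧ E' ⊆ E ∧ (∀ m ∈ E', q m = q₀) ∧
      (E.card : ℝ) ≤ B * E'.card := by
  classical
  by_contra hcon
  push Not at hcon
  have hB0 : 0 < B := by linarith
  obtain ⟨N, hN⟩ : ∃ N, N = ⌊B⌋₊ := ⟨_, rfl⟩
  have hN1 : 1 ≤ N := by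
    rw [hN]
    exact Nat.le_floor (by simpa using hB)
  have hNB : (N : ℝ) ≤ B := by
    rw [hN]
    exact Nat.floor_le hB0.le
  have hmem : ∀ m ∈ E, q m ∈ Finset.Icc 1 N := by
    intro m hm
    rw [Finset.mem_Icc]
    refine ⟨(hq m hm).1, ?_⟩
    rw [hN]
    exact Nat.le_floor (hq m hm).2
  have h1 := Finset.card_eq_sum_card_fiberwise hmem
  have h2 : ∀ j ∈ Finset.Icc 1 N, B * ((E.filter (fun m => q m = j)).card : ℝ) < E.card := by
    intro j hj
    rw [Finset.mem_Icc] at hj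
    refine hcon j (E.filter (fun m => q m = j)) (by omega) ?_ (Finset.filter_subset _ _)
      (fun m hm => (Finset.mem_filter.1 hm).2)
    exact le_trans (by exact_mod_cast hj.2) hNB
  have h3 : B * (E.card : ℝ) < N * E.card := by
    have h4 : (E.card : ℝ) = ∑ j ∈ Finset.Icc 1 N, ((E.filter (fun m => q m = j)).card : ℝ) := by
      exact_mod_cast h1
    calc B * (E.card : ℝ) = ∑ j ∈ Finset.Icc 1 N, B * ((E.filter (fun m => q m = j)).card : ℝ) := by
          rw [h4, Finset.mul_sum]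
      _ < ∑ _j ∈ Finset.Icc 1 N, (E.card : ℝ) := by
          refine Finset.sum_lt_sum_of_nonempty ⟨1, ?_⟩ h2
          rw [Finset.mem_Icc]; omega
      _ = N * E.card := by
          rw [Finset.sum_const, Nat.card_Icc, nsmul_eq_mul, Nat.add_sub_cancel]
  have h5 : (N : ℝ) * E.card ≤ B * E.card := mul_le_mul_of_nonneg_right hNB (by positivity)
  linarith

/-- the coefficients of the polynomial in the variable `a` -/
noncomputable def xi (a : ι) (θ : Ex ι D → ℝ) (m : ι → ℕ) : ℕ → ℝ :=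
  fun e => if h : e < D then pp (gg a (Fin.succ ⟨e, h⟩) θ) m else 0

theorem norm_inner (M : ι → ℕ) (a : ι) (θ : Ex ι D → ℝ) (m : ι → ℕ) :
    ‖∑ x ∈ range (M a), ee (pp θ (Function.update m a x))‖ =
      ‖∑ x ∈ range (M a), ee (PP D (xi a θ m) x)‖ := by
  have h1 : ∀ x : ℕ, ee (pp θ (Function.update m a x)) =
      ee (pp (gg a 0 θ) m) * ee (PP D (xi a θ m) x) := by
    intro x
    rw [← ee_add, pp_update, Fin.sum_univ_succ]
    congr 1
    rw [Fin.val_zero, pow_zero, mul_one]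
    congr 1
    unfold PP
    rw [Finset.sum_range]
    refine Finset.sum_congr rfl fun e _ => ?_
    unfold xi
    rw [dif_pos e.2, Fin.val_succ]
  rw [Finset.sum_congr rfl fun x _ => h1 x, ← Finset.mul_sum, norm_mul, norm_ee, one_mul]

theorem nd_mul_le (q p : ℕ) (x : ℝ) {B : ℝ} (hB : (p : ℝ) ≤ B) {c : ℝ} (hc : nd (q * x) ≤ c) :
    nd (((p * q : ℕ) : ℝ) * x) ≤ B * c := by
  have h := nd_nat_mul p (q * x)
  push_cast
  rw [mul_assoc]
  refine h.trans ?_
  have h0 : 0 ≤ nd (q * x) := nd_nonneg _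
  calc (p : ℝ) * nd (q * x) ≤ B * nd (q * x) := mul_le_mul_of_nonneg_right hB h0
    _ ≤ B * c := mul_le_mul_of_nonneg_left hc (le_trans (Nat.cast_nonneg p) hB)

end InvAux

open InvAux
open Pool.Agent.Lib.Pf720ae.Poly.IW (nd_add nd_sub nd_neg nd_sum nd_nat_mul nd_nonneg PP Good main
  nat_le_pow two_pow_le)

theorem inverse_multi (D : ℕ) (V : Finset ι) : ∃ C : ℕ, ∀ K : ℝ, 2 ≤ K → ∀ M : ι → ℕ,
    (∀ l ∈ V, K ^ C ≤ M l) → (∀ l, l ∉ V → M l = 1) → ∀ θ : Ex ι D → ℝ, K⁻¹ ≤ ‖AA M θ‖ →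
    ∃ q : ℕ, 0 < q ∧ (q : ℝ) ≤ K ^ C ∧
      ∀ γ ∈ (GV V : Finset (Ex ι D)), nd (q * θ γ) * mon M γ ≤ K ^ C := by
  induction V using Finset.induction_on with
  | empty =>
    refine ⟨0, fun K hK M _ _ θ _ => ⟨1, Nat.one_pos, by simp, fun γ hγ => ?_⟩⟩
    rw [mem_GV] at hγ
    exact absurd (funext fun l => hγ.2 l (by simp)) hγ.1
  | insert a V' ha ih =>
    obtain ⟨C', hC'⟩ := ih
    obtain ⟨C₀, hC₀⟩ := main D
    obtain ⟨C₁, hC₁⟩ := rec_multi (ι := ι) D V'
    refine ⟨C' + 2 * C₀ + 2 * (C₀ + 1) * C₁ * (D + 1) + D, fun K hK M hMV hM1 θ hθ => ?_⟩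
    obtain ⟨C, hC⟩ : ∃ C, C = C' + 2 * C₀ + 2 * (C₀ + 1) * C₁ * (D + 1) + D := ⟨_, rfl⟩
    rw [← hC] at hMV ⊢
    have hK0 : 0 < K := by linarith
    have hK1 : 1 ≤ K := by linarith
    have h2K0 : 0 < 2 * K := by linarith
    have h2K1 : 1 ≤ 2 * K := by linarith
    have h2K : 2 * K ≤ K ^ 2 := by nlinarith
    obtain ⟨A, hA⟩ : ∃ A : ℝ, A = (2 * K) ^ C₀ := ⟨_, rfl⟩
    have hA1 : 1 ≤ A := by rw [hA]; exact one_le_pow₀ h2K1
    have hAK : A ≤ K ^ (2 * C₀) := by
      rw [hA, pow_mul]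
      exact pow_le_pow_left₀ h2K0.le h2K _
    obtain ⟨K₁, hK₁⟩ : ∃ K₁ : ℝ, K₁ = (2 * K) ^ (C₀ + 1) := ⟨_, rfl⟩
    have hK₁2 : 2 ≤ K₁ := by
      rw [hK₁]
      calc (2 : ℝ) ≤ 2 * K := by linarith
        _ ≤ (2 * K) ^ (C₀ + 1) := le_self_pow₀ h2K1 (by omega)
    have hK₁K : K₁ ≤ K ^ (2 * (C₀ + 1)) := by
      rw [hK₁, pow_mul]
      exact pow_le_pow_left₀ h2K0.le h2K _
    obtain ⟨B₁, hB₁⟩ : ∃ B₁ : ℝ, B₁ = K₁ ^ C₁ := ⟨_, rfl⟩
    have hB₁1 : 1 ≤ B₁ := by rw [hB₁]; exact one_le_pow₀ (by linarith)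
    have hB₁K : B₁ ≤ K ^ (2 * (C₀ + 1) * C₁) := by
      rw [hB₁, pow_mul]
      exact pow_le_pow_left₀ (by linarith) hK₁K _
    obtain ⟨B, hB⟩ : ∃ B : ℝ, B = K ^ C' * A * B₁ ^ (D + 1) := ⟨_, rfl⟩
    have hKC'0 : 0 < K ^ C' := by positivity
    have hKC'1 : 1 ≤ K ^ C' := one_le_pow₀ hK1
    have hA0 : 0 < A := by linarith
    have hB₁0 : 0 < B₁ := by linarith
    have hB0 : 0 < B := by rw [hB]; positivity
    have hBK : (D + 1 : ℝ) * B ≤ K ^ C := by
      have h1 : (D + 1 : ℝ) ≤ K ^ D := by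
        have h2 : ((D + 1 : ℕ) : ℝ) ≤ 2 ^ D := by exact_mod_cast Nat.lt_two_pow_self
        push_cast at h2
        exact h2.trans (two_pow_le hK D)
      have h3 : B₁ ^ (D + 1) ≤ K ^ (2 * (C₀ + 1) * C₁ * (D + 1)) := by
        rw [pow_mul K]
        exact pow_le_pow_left₀ hB₁0.le hB₁K _
      calc (D + 1 : ℝ) * B ≤ K ^ D * (K ^ C' * K ^ (2 * C₀) *
            K ^ (2 * (C₀ + 1) * C₁ * (D + 1))) := by
            rw [hB]
            gcongr
        _ = K ^ C := by
            rw [← pow_add, ← pow_add, ← pow_add, hC]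
            congr 1
            ring
    have hB_le : B ≤ K ^ C := by
      have hD : (0 : ℝ) ≤ D := Nat.cast_nonneg D
      nlinarith
    -- the box
    have hMpos : ∀ l, 0 < M l := by
      intro l
      by_cases hl : l ∈ insert a V'
      · have h1 := hMV l hl
        have h2 : (1 : ℝ) ≤ K ^ C := one_le_pow₀ hK1
        have h3 : (0 : ℝ) < M l := by linarith
        exact_mod_cast h3
      · rw [hM1 l hl]; exact one_pos
    have hMa : K ^ C ≤ M a := hMV a (mem_insert_self a V')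
    have hMa0 : (0 : ℝ) < M a := by exact_mod_cast hMpos a
    have hMa1 : (1 : ℝ) ≤ M a := by exact_mod_cast hMpos a
    obtain ⟨M', hM'⟩ : ∃ M' : ι → ℕ, M' = Function.update M a 1 := ⟨_, rfl⟩
    have hM'V : ∀ l ∈ V', M' l = M l := by
      intro l hl
      have : l ≠ a := fun h => ha (h ▸ hl)
      rw [hM', Function.update_of_ne this]
    have hM'1 : ∀ l, l ∉ V' → M' l = 1 := by
      intro l hl
      by_cases hla : l = a
      · rw [hla, hM', Function.update_self]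
      · rw [hM', Function.update_of_ne hla]
        exact hM1 l (by simp [hla, hl])
    have hMup : Function.update M' a (M a) = M := by
      rw [hM']
      simp
    have hmonM : ∀ γ : Ex ι D, mon M γ = M a ^ (γ a : ℕ) * mon M' (Function.update γ a 0) := by
      intro γ
      conv_lhs => rw [← hMup]
      exact mon_update M' a (M a) γ
    have hbig : ∀ (X : ℝ) (n : ℕ), n ≤ C → X ≤ K ^ n → ∀ l ∈ V', X ≤ M' l := by
      intro X n hn hX l hl
      rw [hM'V l hl]
      exact (hX.trans (pow_le_pow_right₀ hK1 hn)).trans (hMV l (mem_insert_of_mem hl))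
    -- step 2
    obtain ⟨x₀, hx₀, hAx⟩ := exists_freeze M a (hMpos a) θ hθ
    rw [← hM'] at hAx
    obtain ⟨q', hq'0, hq'B, hq'⟩ := hC' K hK M' (hbig _ C' (by omega) le_rfl) hM'1
      (fr a x₀ θ) hAx
    -- step 1
    obtain ⟨E₁, hE₁sub, hE₁c, hE₁⟩ := many_inner hK0 M a hMpos θ hθ
    rw [← hM'] at hE₁sub hE₁c
    have hgood : ∀ m ∈ E₁, ∃ q : ℕ, 0 < q ∧ (q : ℝ) ≤ A ∧
        ∀ e, e < D → nd (q * xi a θ m e) ≤ A / (M a : ℝ) ^ (e + 1) := by
      intro m hm
      have h1 := hE₁ m hm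
      rw [norm_inner] at h1
      obtain ⟨q, h2, h3, h4⟩ := hC₀ (2 * K) (by linarith) (M a) (hMpos a) (xi a θ m) h1
      rw [← hA] at h3 h4
      exact ⟨q, h2, h3, fun e he => h4 e (Nat.zero_le _) he⟩
    choose! qf hqf0 hqfB hqfe using hgood
    obtain ⟨q₀, E, hq₀0, hq₀B, hEE₁, hEq, hEc⟩ := pigeon E₁ qf hA1
      (fun m hm => ⟨hqf0 m hm, hqfB m hm⟩)
    have hEcard : ((∏ l, M' l : ℕ) : ℝ) ≤ K₁ * E.card := by
      refine hE₁c.trans ?_
      have h1 : 2 * K * (E₁.card : ℝ) ≤ 2 * K * (A * E.card) :=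
        mul_le_mul_of_nonneg_left hEc h2K0.le
      refine h1.trans (le_of_eq ?_)
      rw [hK₁, hA, pow_succ]
      ring
    have hrec : ∀ e : Fin D, ∃ qe : ℕ, 0 < qe ∧ (qe : ℝ) ≤ B₁ ∧ ∀ γ : Ex ι D,
        (∀ l, l ∉ V' → γ l = 0) → nd (qe * (q₀ * gg a e.succ θ γ)) * mon M' γ ≤
          B₁ * (A / (M a : ℝ) ^ ((e : ℕ) + 1)) := by
      intro e
      have hε : 0 < A / (M a : ℝ) ^ ((e : ℕ) + 1) := by positivity
      have hε1 : K₁ ^ C₁ * (A / (M a : ℝ) ^ ((e : ℕ) + 1)) ≤ 1 := by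
        rw [← hB₁, ← mul_div_assoc, div_le_one (by positivity)]
        have h1 : B₁ * A ≤ K ^ (2 * (C₀ + 1) * C₁) * K ^ (2 * C₀) := by gcongr
        have h2 : K ^ (2 * (C₀ + 1) * C₁) * K ^ (2 * C₀) ≤ K ^ C := by
          rw [← pow_add]
          refine pow_le_pow_right₀ hK1 ?_
          rw [hC]
          have : 2 * (C₀ + 1) * C₁ ≤ 2 * (C₀ + 1) * C₁ * (D + 1) := Nat.le_mul_of_pos_right _ (by omega)
          omega
        have h3 : (M a : ℝ) ≤ (M a : ℝ) ^ ((e : ℕ) + 1) := le_self_pow₀ hMa1 (by omega)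
        linarith
      obtain ⟨qe, h1, h2, h3⟩ := hC₁ K₁ hK₁2 M' (hbig _ (2 * (C₀ + 1) * C₁) (by
          rw [hC]
          have : 2 * (C₀ + 1) * C₁ ≤ 2 * (C₀ + 1) * C₁ * (D + 1) := Nat.le_mul_of_pos_right _ (by omega)
          omega) (by rw [← hB₁]; exact hB₁K)) hM'1 _ hε hε1
        (fun γ => q₀ * gg a e.succ θ γ) E (hEE₁.trans hE₁sub) hEcard (by
          intro m hm
          rw [pp_smul]
          have h4 := hqfe m (hEE₁ hm) e e.2
          rw [hEq m hm] at h4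
          unfold xi at h4
          rw [dif_pos e.2] at h4
          exact h4)
      rw [← hB₁] at h2 h3
      exact ⟨qe, h1, h2, h3⟩
    choose qe hqe0 hqeB hqeγ using hrec
    obtain ⟨P, hP⟩ : ∃ P : ℕ, P = ∏ e, qe e := ⟨_, rfl⟩
    have hP0 : 0 < P := by rw [hP]; exact Finset.prod_pos fun e _ => hqe0 e
    have hPB : (P : ℝ) ≤ B₁ ^ D := by
      rw [hP]
      push_cast
      calc ∏ e, (qe e : ℝ) ≤ ∏ _e : Fin D, B₁ :=
            Finset.prod_le_prod (fun e _ => Nat.cast_nonneg _) fun e _ => hqeB e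
        _ = B₁ ^ D := by rw [Finset.prod_const, Finset.card_univ, Fintype.card_fin]
    have hBD : B₁ ^ D ≤ B₁ ^ (D + 1) := pow_le_pow_right₀ hB₁1 (by omega)
    have hqtot : ((q' * q₀ * P : ℕ) : ℝ) ≤ B := by
      push_cast
      rw [hB]
      gcongr
      exact hPB.trans hBD
    refine ⟨q' * q₀ * P, by positivity, hqtot.trans hB_le, ?_⟩
    have hX : ∀ (e : Fin D) (γ : Ex ι D), (∀ l, l ∉ V' → γ l = 0) →
        nd (((q' * q₀ * P : ℕ) : ℝ) * gg a e.succ θ γ) * mon M' γ ≤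
          B / (M a : ℝ) ^ ((e : ℕ) + 1) := by
      intro e γ hγ
      obtain ⟨R, hR⟩ : ∃ R : ℕ, R = ∏ e' ∈ univ.erase e, qe e' := ⟨_, rfl⟩
      have hPR : P = qe e * R := by
        rw [hP, hR, Finset.mul_prod_erase univ _ (mem_univ e)]
      have hRP : R ≤ P := by
        rw [hPR]
        exact Nat.le_mul_of_pos_left _ (hqe0 e)
      have h1 : ((q' * R : ℕ) : ℝ) ≤ K ^ C' * B₁ ^ D := by
        push_cast
        have : (R : ℝ) ≤ B₁ ^ D := le_trans (by exact_mod_cast hRP) hPB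
        gcongr
      have h2 : ((q' * q₀ * P : ℕ) : ℝ) * gg a e.succ θ γ =
          ((q' * R : ℕ) : ℝ) * (qe e * (q₀ * gg a e.succ θ γ)) := by
        rw [hPR]
        push_cast
        ring
      rw [h2]
      have h3 := nd_nat_mul (q' * R) (qe e * (q₀ * gg a e.succ θ γ))
      have h4 := hqeγ e γ hγ
      have hm0 : (0 : ℝ) ≤ mon M' γ := Nat.cast_nonneg _
      calc nd (((q' * R : ℕ) : ℝ) * (qe e * (q₀ * gg a e.succ θ γ))) * mon M' γ
          ≤ (((q' * R : ℕ) : ℝ) * nd (qe e * (q₀ * gg a e.succ θ γ))) * mon M' γ :=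
            mul_le_mul_of_nonneg_right h3 hm0
        _ = ((q' * R : ℕ) : ℝ) * (nd (qe e * (q₀ * gg a e.succ θ γ)) * mon M' γ) := by ring
        _ ≤ (K ^ C' * B₁ ^ D) * (B₁ * (A / (M a : ℝ) ^ ((e : ℕ) + 1))) :=
            mul_le_mul h1 h4 (mul_nonneg (nd_nonneg _) hm0) (by positivity)
        _ = B / (M a : ℝ) ^ ((e : ℕ) + 1) := by
            rw [hB]
            ring
    intro γ hγ
    rw [mem_GV] at hγ
    obtain ⟨hγ0, hγV⟩ := hγ
    by_cases hγa : γ a = 0
    · -- the exponent of `a` is zero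
      have hup : Function.update γ a 0 = γ := by
        rw [← hγa]
        exact Function.update_eq_self a γ
      have hγV' : ∀ l, l ∉ V' → γ l = 0 := by
        intro l hl
        by_cases hla : l = a
        · rw [hla]; exact hγa
        · exact hγV l (by simp [hla, hl])
      have hmon : mon M γ = mon M' γ := by
        rw [hmonM, hγa, hup]
        simp
      rw [hmon]
      have hfr : fr a x₀ θ γ = θ γ + ∑ e : Fin D, gg a e.succ θ γ * (x₀ : ℝ) ^ ((e : ℕ) + 1) := by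
        unfold fr
        rw [Fin.sum_univ_succ]
        congr 1
        unfold gg
        rw [if_pos hγa, hup]
        simp
      have hθγ : ((q' * q₀ * P : ℕ) : ℝ) * θ γ = ((q' * q₀ * P : ℕ) : ℝ) * fr a x₀ θ γ -
          ∑ e : Fin D, ((x₀ ^ ((e : ℕ) + 1) : ℕ) : ℝ) *
            (((q' * q₀ * P : ℕ) : ℝ) * gg a e.succ θ γ) := by
        rw [hfr, mul_add, Finset.mul_sum, add_sub_assoc]
        have : ∑ e : Fin D, ((q' * q₀ * P : ℕ) : ℝ) * (gg a e.succ θ γ * (x₀ : ℝ) ^ ((e : ℕ) + 1)) =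
            ∑ e : Fin D, ((x₀ ^ ((e : ℕ) + 1) : ℕ) : ℝ) *
              (((q' * q₀ * P : ℕ) : ℝ) * gg a e.succ θ γ) := by
          refine Finset.sum_congr rfl fun e _ => ?_
          push_cast
          ring
        rw [this, sub_self, add_zero]
      rw [hθγ]
      have hm0 : (0 : ℝ) ≤ mon M' γ := Nat.cast_nonneg _
      have h1 : nd (((q' * q₀ * P : ℕ) : ℝ) * fr a x₀ θ γ) * mon M' γ ≤ B := by
        have h2 : ((q' * q₀ * P : ℕ) : ℝ) * fr a x₀ θ γ =
            ((q₀ * P : ℕ) : ℝ) * (q' * fr a x₀ θ γ) := by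
          push_cast
          ring
        rw [h2]
        have h3 := nd_nat_mul (q₀ * P) (q' * fr a x₀ θ γ)
        have h4 := hq' γ (mem_GV.2 ⟨hγ0, hγV'⟩)
        have h5 : ((q₀ * P : ℕ) : ℝ) ≤ A * B₁ ^ (D + 1) := by
          push_cast
          have := hPB.trans hBD
          gcongr
        calc nd (((q₀ * P : ℕ) : ℝ) * (q' * fr a x₀ θ γ)) * mon M' γ
            ≤ (((q₀ * P : ℕ) : ℝ) * nd (q' * fr a x₀ θ γ)) * mon M' γ :=
              mul_le_mul_of_nonneg_right h3 hm0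
          _ = ((q₀ * P : ℕ) : ℝ) * (nd (q' * fr a x₀ θ γ) * mon M' γ) := by ring
          _ ≤ (A * B₁ ^ (D + 1)) * K ^ C' :=
              mul_le_mul h5 h4 (mul_nonneg (nd_nonneg _) hm0) (by positivity)
          _ = B := by rw [hB]; ring
      have h2 : nd (∑ e : Fin D, ((x₀ ^ ((e : ℕ) + 1) : ℕ) : ℝ) *
          (((q' * q₀ * P : ℕ) : ℝ) * gg a e.succ θ γ)) * mon M' γ ≤ D * B := by
        have h3 := nd_sum univ (fun e : Fin D => ((x₀ ^ ((e : ℕ) + 1) : ℕ) : ℝ) *
          (((q' * q₀ * P : ℕ) : ℝ) * gg a e.succ θ γ))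
        refine (mul_le_mul_of_nonneg_right h3 hm0).trans ?_
        rw [Finset.sum_mul]
        have h4 : ∀ e ∈ (univ : Finset (Fin D)), nd (((x₀ ^ ((e : ℕ) + 1) : ℕ) : ℝ) *
            (((q' * q₀ * P : ℕ) : ℝ) * gg a e.succ θ γ)) * mon M' γ ≤ B := by
          intro e _
          have h5 := nd_nat_mul (x₀ ^ ((e : ℕ) + 1)) (((q' * q₀ * P : ℕ) : ℝ) * gg a e.succ θ γ)
          have h6 := hX e γ hγV'
          have h7 : ((x₀ ^ ((e : ℕ) + 1) : ℕ) : ℝ) ≤ (M a : ℝ) ^ ((e : ℕ) + 1) := by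
            push_cast
            refine pow_le_pow_left₀ (Nat.cast_nonneg _) ?_ _
            exact_mod_cast hx₀.le
          calc _ ≤ (((x₀ ^ ((e : ℕ) + 1) : ℕ) : ℝ) *
                nd (((q' * q₀ * P : ℕ) : ℝ) * gg a e.succ θ γ)) * mon M' γ :=
                mul_le_mul_of_nonneg_right h5 hm0
            _ = ((x₀ ^ ((e : ℕ) + 1) : ℕ) : ℝ) *
                (nd (((q' * q₀ * P : ℕ) : ℝ) * gg a e.succ θ γ) * mon M' γ) := by ring
            _ ≤ (M a : ℝ) ^ ((e : ℕ) + 1) * (B / (M a : ℝ) ^ ((e : ℕ) + 1)) :=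
                mul_le_mul h7 h6 (mul_nonneg (nd_nonneg _) hm0) (by positivity)
            _ = B := by
                field_simp
        refine (Finset.sum_le_sum h4).trans (le_of_eq ?_)
        rw [Finset.sum_const, Finset.card_univ, Fintype.card_fin, nsmul_eq_mul]
      have h3 := mul_le_mul_of_nonneg_right (nd_sub (((q' * q₀ * P : ℕ) : ℝ) * fr a x₀ θ γ)
        (∑ e : Fin D, ((x₀ ^ ((e : ℕ) + 1) : ℕ) : ℝ) *
          (((q' * q₀ * P : ℕ) : ℝ) * gg a e.succ θ γ))) hm0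
      refine h3.trans ?_
      rw [add_mul]
      calc _ ≤ B + D * B := add_le_add h1 h2
        _ = (D + 1 : ℝ) * B := by ring
        _ ≤ K ^ C := hBK
    · -- positive exponent of `a`
      obtain ⟨e, he⟩ : ∃ e : Fin D, e.succ = γ a := ⟨(γ a).pred hγa, Fin.succ_pred _ _⟩
      obtain ⟨γ', hγ'⟩ : ∃ γ' : Ex ι D, γ' = Function.update γ a 0 := ⟨_, rfl⟩
      have hγ'V : ∀ l, l ∉ V' → γ' l = 0 := by
        intro l hl
        by_cases hla : l = a
        · rw [hla, hγ', Function.update_self]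
        · rw [hγ', Function.update_of_ne hla]
          exact hγV l (by simp [hla, hl])
      have hgg : gg a e.succ θ γ' = θ γ := by
        unfold gg
        have h1 : γ' a = 0 := by rw [hγ', Function.update_self]
        rw [if_pos h1, hγ', Function.update_idem, he]
        rw [Function.update_eq_self]
      have h1 := hX e γ' hγ'V
      rw [hgg, le_div_iff₀ (by positivity)] at h1
      have h2 : (mon M γ : ℝ) = (mon M' γ' : ℝ) * (M a : ℝ) ^ ((e : ℕ) + 1) := by
        rw [hmonM, ← hγ', ← he, Fin.val_succ]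
        push_cast
        ring
      rw [h2, ← mul_assoc]
      exact h1.trans hB_le

end Pool.Agent.Lib.Pf720mp
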