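import Pool.Agent.Lib.Pf720mp.KkI
import Pool.Agent.Lib.Pf720mp.Inv

/-!
# Approximation of the exponential sums by the major arc contributions

Let `C₁` be the exponent of `inverse_multi D V` and `C₂` the constant of `AA_HH`; `P = card (GV V)`.
Take `C₀ = 8 (C₁ + 1)`. Write `M` for `res V M` (so `mon M γ ≥ 2 ^ (C₀ t) ≥ 2 ^ (3 t + 4)` for
`γ ∈ GV V`, `t ≥ 1`, by `pow_le_mon`). For `t < C₁ + 1` (in particular `t = 0`) both terms have norm
`≤ 1`, so the bound is trivial if the constant `C` is large. Let `s = t / (C₁ + 1) ≥ 1`, `K = 2 ^ s`,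
`K ^ C₁ ≤ 2 ^ t`.
Case 1: `‖AA M θ‖ ≥ K⁻¹`. `inverse_multi`: `q ≤ 2 ^ t`, `nd (q θ γ) mon M γ ≤ 2 ^ t` on `GV V`. Put
`b γ = round (q θ γ) / q` on `GV V`, `0` elsewhere: `|mon M γ (θ γ - b γ)| ≤ 2 ^ t / q ≤ 2 ^ t`. So
`Rep V t M θ b` and all cutoffs are `1`: `KK V t M θ = ee (θ 0) HH V b u` (`KK_of_rep`), and `AA_HH`
bounds the error by `C₂ 2 ^ t (1 + P 2 ^ t) / 2 ^ (C₀ t) ≤ C₂ (1 + P) 2 ^ (-t)`.
Case 2: `‖AA M θ‖ < K⁻¹`. If no `b` represents `θ`, `KK = 0`. Otherwise `KK = KB` (`KK_of_rep`) and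
`‖KB V t M θ b‖ ≤ ‖HH V b u‖ ≤ ‖AA M θ‖ + C₂ 2 ^ t (1 + P 2 ^ (t+1)) / 2 ^ (C₀ t)`.
Finally `K⁻¹ = 2 ^ (-s) ≤ 2 ρ ^ t` with `ρ = 2 ^ (-1 / (C₁ + 1))` (real power) `∈ (0, 1)`.
-/

set_option autoImplicit false
set_option linter.unusedSectionVars false

open Finset Filter Topology
open Pool.Agent.Lib.Pf720ae.Poly (ee ee_zero ee_add norm_ee ee_int ee_add_int norm_ee_sub_le)

namespace Pool.Agent.Lib.Pf720mp

variable {ι : Type} [Fintype ι] [DecidableEq ι] {D : ℕ}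

/-- approximation property with constants `C₀, C, ρ` -/
def AppP (D : ℕ) (V : Finset ι) (C₀ : ℕ) (C ρ : ℝ) : Prop :=
  ∀ (t : ℕ) (M : ι → ℕ), (∀ l ∈ V, 2 ^ (C₀ * t) ≤ M l) → ∀ θ : Ex ι D → ℝ,
    ‖AA (res V M) θ - KK V t (res V M) θ‖ ≤ C * ρ ^ t

/-- error of the major arc approximation at a representing rational point -/
lemma app_err (V : Finset ι) : ∃ C : ℝ, 0 ≤ C ∧ ∀ (t C₀ : ℕ) (M : ι → ℕ), 1 ≤ t → 8 ≤ C₀ →
    (∀ l ∈ V, 2 ^ (C₀ * t) ≤ M l) → ∀ (θ : Ex ι D → ℝ) (b : Ex ι D → ℚ),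
    Rep V t (res V M) θ b →
    ‖AA (res V M) θ - ee (θ 0) * HH V b (fun γ => (mon (res V M) γ : ℝ) * (θ γ - b γ))‖ ≤
      C * (1 / 2) ^ t := by
  obtain ⟨C₂, hC₂, h₂⟩ := AA_HH (D := D) V
  set P : ℕ := (GV V : Finset (Ex ι D)).card with hP
  refine ⟨2 * C₂ * (1 + P), by positivity, ?_⟩
  intro t C₀ M ht hC₀ hM θ b hb
  obtain ⟨hb0, ⟨q, hq0, hqt, hqb⟩, hbu⟩ := hb
  have h1 := h₂ q b θ M (2 ^ (C₀ * t)) hq0 hqb (pow_pos two_pos _) hM
  refine h1.trans ?_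
  have hS : ∑ γ ∈ (GV V : Finset (Ex ι D)), |(mon (res V M) γ : ℝ) * (θ γ - b γ)| ≤
      P * 2 ^ (t + 1) := by
    refine (Finset.sum_le_sum hbu).trans (le_of_eq ?_)
    rw [Finset.sum_const, nsmul_eq_mul, hP]
  have hq' : (q : ℝ) ≤ 2 ^ t := by exact_mod_cast hqt
  have hS0 : 0 ≤ ∑ γ ∈ (GV V : Finset (Ex ι D)), |(mon (res V M) γ : ℝ) * (θ γ - b γ)| :=
    Finset.sum_nonneg fun _ _ => abs_nonneg _
  have h2t : (1 : ℝ) ≤ 2 ^ (t + 1) := one_le_pow₀ one_le_two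
  have hnum : C₂ * q * (1 + ∑ γ ∈ (GV V : Finset (Ex ι D)),
      |(mon (res V M) γ : ℝ) * (θ γ - b γ)|) ≤ C₂ * 2 ^ t * ((1 + P) * 2 ^ (t + 1)) := by
    refine mul_le_mul (mul_le_mul_of_nonneg_left hq' hC₂) ?_ (by positivity) (by positivity)
    nlinarith
  have hden : (2 : ℝ) ^ (3 * t) ≤ ((2 ^ (C₀ * t) : ℕ) : ℝ) := by
    push_cast
    exact pow_le_pow_right₀ one_le_two (by nlinarith)
  have hden0 : (0 : ℝ) < 2 ^ (3 * t) := by positivity
  calc C₂ * q * (1 + ∑ γ ∈ (GV V : Finset (Ex ι D)),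
        |(mon (res V M) γ : ℝ) * (θ γ - b γ)|) / ((2 ^ (C₀ * t) : ℕ) : ℝ)
      ≤ (C₂ * 2 ^ t * ((1 + P) * 2 ^ (t + 1))) / 2 ^ (3 * t) :=
        div_le_div₀ (by positivity) hnum hden0 hden
    _ = 2 * C₂ * (1 + P) * (1 / 2) ^ t := by
        rw [div_eq_iff hden0.ne', one_div, inv_pow, pow_mul', pow_succ]
        have h3 : ((2 : ℝ) ^ t) ≠ 0 := by positivity
        field_simp

lemma norm_KB_le_HH (V : Finset ι) (t : ℕ) (M : ι → ℕ) (θ : Ex ι D → ℝ) (b : Ex ι D → ℚ) :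
    ‖KB V t M θ b‖ ≤ ‖HH V b (fun γ => (mon M γ : ℝ) * (θ γ - b γ))‖ := by
  unfold KB
  rw [norm_mul, norm_mul, norm_ee, one_mul, norm_prod]
  refine mul_le_of_le_one_right (norm_nonneg _) (Finset.prod_le_one (fun _ _ => norm_nonneg _) ?_)
  intro γ _
  rw [Complex.norm_real, Real.norm_of_nonneg (tz_nonneg _)]
  exact tz_le_one _

theorem app (D : ℕ) (V : Finset ι) : ∃ (C₀ : ℕ) (C ρ : ℝ), 8 ≤ C₀ ∧ 0 ≤ C ∧ 1 / 2 ≤ ρ ∧ ρ < 1 ∧
    AppP D V C₀ C ρ := by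
  obtain ⟨C₁, h₁⟩ := inverse_multi D V
  obtain ⟨C₂, hC₂, h₂⟩ := app_err (D := D) V
  set ρ : ℝ := (1 / 2 : ℝ) ^ (((C₁ + 1 : ℕ) : ℝ)⁻¹) with hρ
  have hρ1 : ρ ^ (C₁ + 1) = 1 / 2 := Real.rpow_inv_natCast_pow (by norm_num) (Nat.succ_ne_zero _)
  have hρ0 : 0 ≤ ρ := Real.rpow_nonneg (by norm_num) _
  have hρlt : ρ < 1 := by
    by_contra hcon
    push Not at hcon
    have := one_le_pow₀ hcon (n := C₁ + 1)
    rw [hρ1] at this
    norm_num at this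
  have hρge : 1 / 2 ≤ ρ := by
    rw [← hρ1]
    calc ρ ^ (C₁ + 1) ≤ ρ ^ 1 := pow_le_pow_of_le_one hρ0 hρlt.le (by omega)
      _ = ρ := pow_one ρ
  refine ⟨8 * (C₁ + 1), 4 + C₂ + 4, ρ, by omega, by positivity, hρge, hρlt, ?_⟩
  intro t M hM θ
  have hAA1 := norm_AA_le (res V M) θ
  have hKK1 := norm_KK_le V t (res V M) θ
  have hρt0 : 0 ≤ ρ ^ t := pow_nonneg hρ0 t
  rcases lt_or_ge t (C₁ + 1) with ht | ht
  · have h3 : 1 / 2 ≤ ρ ^ t := by
      rw [← hρ1]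
      exact pow_le_pow_of_le_one hρ0 hρlt.le ht.le
    refine (norm_sub_le _ _).trans ?_
    nlinarith
  -- the main case
  have ht1 : 1 ≤ t := by omega
  set s : ℕ := t / (C₁ + 1) with hs
  have hs1 : 1 ≤ s := (Nat.one_le_div_iff (Nat.succ_pos _)).2 ht
  have hst : s * (C₁ + 1) ≤ t := Nat.div_mul_le_self _ _
  have hts : t < (C₁ + 1) * (s + 1) := by
    have := Nat.lt_mul_div_succ t (Nat.succ_pos C₁)
    exact this
  have hKinv : ((2 : ℝ) ^ s)⁻¹ ≤ 2 * ρ ^ t := by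
    have h3 : ρ ^ ((C₁ + 1) * (s + 1)) ≤ ρ ^ t := pow_le_pow_of_le_one hρ0 hρlt.le hts.le
    rw [pow_mul, hρ1, pow_succ, one_div, inv_pow] at h3
    linarith
  have hK2 : (2 : ℝ) ≤ 2 ^ s := by
    calc (2 : ℝ) = 2 ^ 1 := (pow_one 2).symm
      _ ≤ 2 ^ s := pow_le_pow_right₀ one_le_two hs1
  have hKC : ((2 : ℝ) ^ s) ^ C₁ ≤ 2 ^ t := by
    rw [← pow_mul]
    exact pow_le_pow_right₀ one_le_two (by nlinarith)
  have hmon : ∀ γ ∈ (GV V : Finset (Ex ι D)), 2 ^ (3 * t + 4) ≤ mon (res V M) γ := by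
    intro γ hγ
    refine le_trans ?_ (pow_le_mon V (Nat.one_le_two_pow) hM hγ)
    exact Nat.pow_le_pow_right two_pos (by nlinarith)
  have herr : ∀ b : Ex ι D → ℚ, Rep V t (res V M) θ b →
      ‖AA (res V M) θ - ee (θ 0) * HH V b (fun γ => (mon (res V M) γ : ℝ) * (θ γ - b γ))‖ ≤
      C₂ * ρ ^ t := by
    intro b hb
    refine (h₂ t (8 * (C₁ + 1)) M ht1 (by omega) hM θ b hb).trans ?_
    exact mul_le_mul_of_nonneg_left (pow_le_pow_left₀ (by norm_num) hρge t) hC₂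
  rcases le_or_gt ((2 : ℝ) ^ s)⁻¹ ‖AA (res V M) θ‖ with hbig | hsmall
  · obtain ⟨q, hq0, hqK, hqnd⟩ := h₁ (2 ^ s) hK2 (res V M) (fun l hl => by
      rw [res_of_mem hl]
      have h3 : ((2 : ℝ) ^ (8 * (C₁ + 1) * t)) ≤ (M l : ℝ) := by exact_mod_cast hM l hl
      refine hKC.trans (le_trans ?_ h3)
      exact pow_le_pow_right₀ one_le_two (by nlinarith)) (fun l hl => res_of_notMem hl) θ hbig
    have hqr : (1 : ℝ) ≤ q := by exact_mod_cast hq0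
    have hqpos : (0 : ℝ) < q := by linarith
    have hqt : q ≤ 2 ^ t := by exact_mod_cast hqK.trans hKC
    set b : Ex ι D → ℚ := fun γ => if γ ∈ (GV V : Finset (Ex ι D)) then
      (round ((q : ℝ) * θ γ) : ℚ) / q else 0 with hb
    have hu : ∀ γ ∈ (GV V : Finset (Ex ι D)),
        |(mon (res V M) γ : ℝ) * (θ γ - b γ)| ≤ 2 ^ t := by
      intro γ hγ
      have h3 := (hqnd γ hγ).trans hKC
      have h4 : (θ γ - b γ) = (q * θ γ - round ((q : ℝ) * θ γ)) / q := by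
        simp only [hb, if_pos hγ]
        push_cast
        field_simp
      have h5 : (0 : ℝ) ≤ mon (res V M) γ := Nat.cast_nonneg _
      rw [h4, abs_mul, abs_div, abs_of_nonneg h5, abs_of_pos hqpos]
      unfold Pool.Agent.Lib.Pf720ae.Poly.IW.nd at h3
      calc (mon (res V M) γ : ℝ) * (|(q : ℝ) * θ γ - round ((q : ℝ) * θ γ)| / q) ≤
            (mon (res V M) γ : ℝ) * (|(q : ℝ) * θ γ - round ((q : ℝ) * θ γ)| / 1) := by
            refine mul_le_mul_of_nonneg_left ?_ h5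
            exact div_le_div_of_nonneg_left (abs_nonneg _) one_pos hqr
        _ ≤ 2 ^ t := by
            rw [div_one, mul_comm]
            exact h3
    have hrep : Rep V t (res V M) θ b := by
      refine ⟨fun γ hγ => by simp only [hb, if_neg hγ], ⟨q, hq0, hqt, fun γ => ?_⟩, fun γ hγ => ?_⟩
      · by_cases hγ : γ ∈ (GV V : Finset (Ex ι D))
        · refine ⟨round ((q : ℝ) * θ γ), ?_⟩
          simp only [hb, if_pos hγ]
          have h6 : (q : ℚ) ≠ 0 := by exact_mod_cast hq0.ne'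
          field_simp
        · exact ⟨0, by simp only [hb, if_neg hγ]; simp⟩
      · refine (hu γ hγ).trans ?_
        exact pow_le_pow_right₀ one_le_two (Nat.le_succ t)
    have hKK : KK V t (res V M) θ =
        ee (θ 0) * HH V b (fun γ => (mon (res V M) γ : ℝ) * (θ γ - b γ)) := by
      rw [KK_of_rep hrep hmon]
      unfold KB
      have h3 : ∏ γ ∈ (GV V : Finset (Ex ι D)),
          ((tz ((mon (res V M) γ : ℝ) * (θ γ - b γ) / 2 ^ t) : ℝ) : ℂ) = 1 := by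
        refine Finset.prod_eq_one fun γ hγ => ?_
        rw [tz_eq_one, Complex.ofReal_one]
        rw [abs_div, abs_of_pos (by positivity : (0 : ℝ) < 2 ^ t)]
        exact div_le_one_of_le₀ (hu γ hγ) (by positivity)
      rw [h3, mul_one]
    rw [hKK]
    refine (herr b hrep).trans ?_
    exact mul_le_mul_of_nonneg_right (by linarith) hρt0
  · have hKKle : ‖KK V t (res V M) θ‖ ≤ ((2 : ℝ) ^ s)⁻¹ + C₂ * ρ ^ t := by
      by_cases hex : ∃ b, Rep V t (res V M) θ b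
      · obtain ⟨b, hb⟩ := hex
        rw [KK_of_rep hb hmon]
        refine (norm_KB_le_HH V t (res V M) θ b).trans ?_
        set h := HH V b (fun γ => (mon (res V M) γ : ℝ) * (θ γ - b γ)) with hh
        have h3 : ‖h‖ = ‖ee (θ 0) * h‖ := by rw [norm_mul, norm_ee, one_mul]
        have h4 : ee (θ 0) * h = AA (res V M) θ - (AA (res V M) θ - ee (θ 0) * h) := by ring
        rw [h3, h4]
        refine (norm_sub_le _ _).trans ?_
        have h5 := herr b hb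
        exact add_le_add hsmall.le h5
      · rw [KK_of_not hex, norm_zero]
        positivity
    refine (norm_sub_le _ _).trans ?_
    nlinarith

end Pool.Agent.Lib.Pf720mp
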