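import Pool.Agent.Lib.Pf720mp.Net

/-!
# Pointwise convergence of the unrestricted averages of bounded functions

`ae_tendsto_bdd_mp`: for every `K` with positive coordinates (countably many) apply `net_conv` with
`a j = Av R f · (Mj K j)`, `c N = Av R f · (fun _ => 2 ^ N)` (`osc_action_mp` with
`ε / (1 + ‖f‖²)`; take `J ≥ max R₀ 1`). For `K = 1` this shows that `c N x` is Cauchy, hence converges to
some `ℓ`, and then `Av R f x (Mj K j) → ℓ` as `min j → ∞` for every `K`. Given `ε`, choose `m` with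
`2 B |ι| 2 ^ (-m) < ε / 2` and `k₀` such that `‖Av R f x (Mj K j) - ℓ‖ < ε / 2` for all `K` with values in
`[2 ^ m, 2 ^ (m+1))` and `j ≥ k₀`. For `M l ≥ 2 ^ (m + k₀)` write `K l * 2 ^ r l ≤ M l < (K l + 1) 2 ^ r l`
with `2 ^ m ≤ K l < 2 ^ (m+1)`, `r l ≥ k₀` (`r l = Nat.log 2 (M l) - m`). Comparison:
`‖Av M - Av M'‖ ≤ 2 B (1 - ∏ M' l / M l) ≤ 2 B ∑ (M l - M' l) / M l` for `M' ≤ M` pointwise, positive.
-/

set_option autoImplicit false
set_option linter.unusedSectionVars false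

open Finset MeasureTheory Filter Topology
open scoped ENNReal NNReal

namespace Pool.Agent.Lib.Pf720mp

variable {ι : Type} [Fintype ι] [DecidableEq ι] {D : ℕ} {X : Type} [MeasurableSpace X]
  {μ : Measure X}

lemma one_sub_prod_le {J : Type} [DecidableEq J] (s : Finset J) (x : J → ℝ) (h0 : ∀ l ∈ s, 0 ≤ x l)
    (h1 : ∀ l ∈ s, x l ≤ 1) : 1 - ∏ l ∈ s, x l ≤ ∑ l ∈ s, (1 - x l) := by
  induction s using Finset.induction_on with
  | empty => simp
  | insert a s ha ih =>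
    rw [Finset.prod_insert ha, Finset.sum_insert ha]
    have e1 := ih (fun l hl => h0 l (Finset.mem_insert_of_mem hl))
      (fun l hl => h1 l (Finset.mem_insert_of_mem hl))
    have e2 := h0 a (Finset.mem_insert_self a s)
    have e3 := h1 a (Finset.mem_insert_self a s)
    have e4 : ∏ l ∈ s, x l ≤ 1 := Finset.prod_le_one
      (fun l hl => h0 l (Finset.mem_insert_of_mem hl)) (fun l hl => h1 l (Finset.mem_insert_of_mem hl))
    have e5 : 0 ≤ (1 - x a) * (1 - ∏ l ∈ s, x l) := mul_nonneg (by linarith) (by linarith)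
    nlinarith

theorem Av_near_mp {R : (Ex ι D → ℕ) → X → X} {f : X → ℂ} {B : ℝ} (hB : ∀ x, ‖f x‖ ≤ B) (x : X)
    {M M' : ι → ℕ} (hM' : ∀ l, 0 < M' l) (h : ∀ l, M' l ≤ M l) :
    ‖Av R f x M - Av R f x M'‖ ≤ 2 * B * ∑ l, ((M l : ℝ) - M' l) / M l := by
  have hB0 : 0 ≤ B := (norm_nonneg _).trans (hB x)
  have hM : ∀ l, 0 < M l := fun l => lt_of_lt_of_le (hM' l) (h l)
  set u : (ι → ℕ) → ℂ := fun m => f (R (mon m) x) with hu
  set c : ℝ := ∏ l, (M l : ℝ) with hc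
  set c' : ℝ := ∏ l, (M' l : ℝ) with hc'
  have hcpos : 0 < c := Finset.prod_pos fun l _ => Nat.cast_pos.2 (hM l)
  have hcpos' : 0 < c' := Finset.prod_pos fun l _ => Nat.cast_pos.2 (hM' l)
  have hle : c' ≤ c := Finset.prod_le_prod (fun l _ => Nat.cast_nonneg _)
    (fun l _ => by exact_mod_cast h l)
  have hcC : (∏ l, (M l : ℂ)) = (c : ℂ) := by rw [hc]; push_cast; rfl
  have hcC' : (∏ l, (M' l : ℂ)) = (c' : ℂ) := by rw [hc']; push_cast; rfl
  have hsub : bx M' ⊆ bx M := by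
    intro m hm
    rw [mem_bx] at hm ⊢
    exact fun l => lt_of_lt_of_le (hm l) (h l)
  have e1 : (c : ℂ) ≠ 0 := by exact_mod_cast hcpos.ne'
  have e2 : (c' : ℂ) ≠ 0 := by exact_mod_cast hcpos'.ne'
  have h1 : Av R f x M - Av R f x M' = (c : ℂ)⁻¹ * ∑ m ∈ bx M \ bx M', u m -
      (((c : ℂ) - c') / c) * ((c' : ℂ)⁻¹ * ∑ m ∈ bx M', u m) := by
    unfold Av
    rw [hcC, hcC', ← Finset.sum_sdiff hsub]
    simp only [hu]
    field_simp
    ring
  have hcard : ((bx M \ bx M').card : ℝ) = c - c' := by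
    rw [Finset.card_sdiff_of_subset hsub, Nat.cast_sub (Finset.card_le_card hsub), card_bx, card_bx,
      hc, hc']
    push_cast
    rfl
  have h2 : ‖(c : ℂ)⁻¹ * ∑ m ∈ bx M \ bx M', u m‖ ≤ c⁻¹ * ((c - c') * B) := by
    rw [norm_mul, norm_inv, Complex.norm_real, Real.norm_of_nonneg hcpos.le]
    refine mul_le_mul_of_nonneg_left ?_ (inv_nonneg.2 hcpos.le)
    refine (norm_sum_le _ _).trans ((Finset.sum_le_sum fun n _ => hB _).trans ?_)
    rw [Finset.sum_const, nsmul_eq_mul, hcard]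
  have h3 : ‖(c' : ℂ)⁻¹ * ∑ m ∈ bx M', u m‖ ≤ B := by
    rw [norm_mul, norm_inv, Complex.norm_real, Real.norm_of_nonneg hcpos'.le,
      inv_mul_le_iff₀ hcpos']
    refine (norm_sum_le _ _).trans ((Finset.sum_le_sum fun n _ => hB _).trans ?_)
    rw [Finset.sum_const, nsmul_eq_mul, card_bx, hc']
    push_cast
    exact le_rfl
  have h4 : ‖((c : ℂ) - c') / c‖ = (c - c') / c := by
    have : ((c : ℂ) - c') / c = (((c - c') / c : ℝ) : ℂ) := by push_cast; rfl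
    rw [this, Complex.norm_real, Real.norm_of_nonneg (div_nonneg (by linarith) hcpos.le)]
  have h5 : ‖Av R f x M - Av R f x M'‖ ≤ 2 * B * ((c - c') / c) := by
    rw [h1]
    refine (norm_sub_le _ _).trans ?_
    rw [norm_mul (((c : ℂ) - c') / c), h4]
    have h6 : (c - c') / c * ‖(c' : ℂ)⁻¹ * ∑ m ∈ bx M', u m‖ ≤ (c - c') / c * B :=
      mul_le_mul_of_nonneg_left h3 (div_nonneg (by linarith) hcpos.le)
    refine (add_le_add h2 h6).trans (le_of_eq ?_)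
    field_simp
    ring
  refine h5.trans (mul_le_mul_of_nonneg_left ?_ (by positivity))
  have h7 : (c - c') / c = 1 - ∏ l, ((M' l : ℝ) / M l) := by
    rw [Finset.prod_div_distrib, ← hc, ← hc', sub_div, div_self hcpos.ne']
  rw [h7]
  refine (one_sub_prod_le univ (fun l => (M' l : ℝ) / M l) (fun l _ => by positivity)
    (fun l _ => ?_)).trans (le_of_eq (Finset.sum_congr rfl fun l _ => ?_))
  · rw [div_le_one (Nat.cast_pos.2 (hM l))]
    exact_mod_cast h l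
  · have : (M l : ℝ) ≠ 0 := by exact_mod_cast (hM l).ne'
    rw [sub_div, div_self this]

lemma ae_near_mp {R : (Ex ι D → ℕ) → X → X}
    (hRadd : ∀ m n x, R (m + n) x = R m (R n x))
    (hR : ∀ m, MeasurePreserving (R m) μ μ) {f : X → ℂ} (hf : Measurable f)
    (hf2 : ∫⁻ x, ‖f x‖ₑ ^ 2 ∂μ ≠ ⊤) (K : ι → ℕ) (hK : ∀ l, 0 < K l) (N₀ : ℕ) :
    ∀ᵐ x ∂μ, ∀ ε : ℝ, 0 < ε → ∃ N : ℕ, N₀ ≤ N ∧ ∀ j : ι → ℕ, (∀ l, N ≤ j l) →
      ‖Av R f x (Mj K j) - Av R f x (fun _ => 2 ^ N)‖ < ε := by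
  set W : ℝ≥0 := (∫⁻ x, ‖f x‖ₑ ^ 2 ∂μ).toNNReal with hW
  have hWeq : (W : ℝ≥0∞) = ∫⁻ x, ‖f x‖ₑ ^ 2 ∂μ := ENNReal.coe_toNNReal hf2
  have h1 := net_conv (ι := ι) (μ := μ) (a := fun j x => Av R f x (Mj K fun l => j l + N₀))
    (c := fun N x => Av R f x (fun _ => 2 ^ (N + N₀)))
    (fun j => measurable_Av (fun m => (hR m).measurable) hf _)
    (fun N => measurable_Av (fun m => (hR m).measurable) hf _) (fun ε hε => by
      have hε1 : 0 < ε / (W + 1) := by positivity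
      obtain ⟨R₀, hR₀⟩ := osc_action_mp (ι := ι) D K hK hε1
      refine ⟨R₀ + 1, Nat.succ_pos _, fun σ hσ => ?_⟩
      have hσ' : StrictMono fun i => σ i + N₀ := fun i j hij => Nat.add_lt_add_right (hσ hij) _
      have h2 := hR₀ X μ R hRadd hR f hf (fun i => σ i + N₀) hσ' (R₀ + 1) (Nat.le_succ _)
      refine le_trans (Finset.sum_le_sum fun i _ => lintegral_mono fun x => ?_) (h2.trans ?_)
      · refine Finset.sup_le fun j hj => ?_
        have hj' : (fun l => j l + N₀) ∈ blk ι (fun i => σ i + N₀) i := by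
          unfold blk at hj ⊢
          rw [Fintype.mem_piFinset] at hj ⊢
          intro l
          have := Finset.mem_Ico.1 (hj l)
          rw [Finset.mem_Ico]
          show σ i + N₀ ≤ j l + N₀ ∧ j l + N₀ < σ (i + 1) + N₀
          omega
        exact Finset.le_sup (f := fun j : ι → ℕ => ‖Av R f x (Mj K j) -
          Av R f x (fun _ => 2 ^ (σ i + N₀))‖ₑ ^ 2) hj'
      · rw [← hWeq]
        have h3 : ε / (W + 1) * ((R₀ + 1 : ℕ) : ℝ≥0) * W ≤ ε * ((R₀ + 1 : ℕ) : ℝ≥0) := by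
          have h4 : ε / (W + 1) * W ≤ ε := by
            rw [div_mul_eq_mul_div, div_le_iff₀ (by positivity)]
            exact mul_le_mul_of_nonneg_left (le_add_of_nonneg_right zero_le_one) hε.le
          calc ε / (W + 1) * ((R₀ + 1 : ℕ) : ℝ≥0) * W
              = ε / (W + 1) * W * ((R₀ + 1 : ℕ) : ℝ≥0) := by ring
            _ ≤ ε * ((R₀ + 1 : ℕ) : ℝ≥0) := mul_le_mul_of_nonneg_right h4 zero_le
        exact_mod_cast h3)
  filter_upwards [h1] with x hx ε hε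
  obtain ⟨N, hN⟩ := hx ε hε
  refine ⟨N + N₀, Nat.le_add_left _ _, fun j hj => ?_⟩
  have h2 := hN (fun l => j l - N₀) (fun l => by have := hj l; omega)
  have h3 : (fun l => j l - N₀ + N₀) = j := by
    funext l
    have := hj l
    omega
  simp only [h3] at h2
  exact h2

theorem ae_tendsto_bdd_mp {R : (Ex ι D → ℕ) → X → X}
    (hRadd : ∀ m n x, R (m + n) x = R m (R n x))
    (hR : ∀ m, MeasurePreserving (R m) μ μ) {f : X → ℂ} (hf : Measurable f) {B : ℝ}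
    (hB : ∀ x, ‖f x‖ ≤ B) (hf2 : ∫⁻ x, ‖f x‖ₑ ^ 2 ∂μ ≠ ⊤) :
    ∀ᵐ x ∂μ, ∃ ℓ : ℂ, Tendsto (fun M : ι → ℕ => Av R f x M) atTop (𝓝 ℓ) := by
  have h1 : ∀ᵐ x ∂μ, ∀ (K : ι → ℕ) (N₀ : ℕ), (∀ l, 0 < K l) → ∀ ε : ℝ, 0 < ε →
      ∃ N : ℕ, N₀ ≤ N ∧ ∀ j : ι → ℕ, (∀ l, N ≤ j l) →
        ‖Av R f x (Mj K j) - Av R f x (fun _ => 2 ^ N)‖ < ε := by
    rw [ae_all_iff]
    intro K
    rw [ae_all_iff]
    intro N₀
    by_cases hK : ∀ l, 0 < K l
    · filter_upwards [ae_near_mp hRadd hR hf hf2 K hK N₀] with x hx _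
      exact hx
    · exact Eventually.of_forall fun x h => absurd h hK
  filter_upwards [h1] with x hx
  have hMj1 : ∀ k : ℕ, Mj (fun _ : ι => 1) (fun _ => k) = fun _ => 2 ^ k := by
    intro k
    funext l
    simp [Mj]
  have hcau : CauchySeq fun k : ℕ => Av R f x (fun _ : ι => 2 ^ k) := by
    rw [Metric.cauchySeq_iff']
    intro ε hε
    obtain ⟨N, -, hN⟩ := hx (fun _ => 1) 0 (fun _ => one_pos) ε hε
    refine ⟨N, fun n hn => ?_⟩
    have := hN (fun _ => n) (fun _ => hn)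
    rw [hMj1] at this
    rwa [dist_eq_norm]
  obtain ⟨ℓ, hℓ⟩ := cauchySeq_tendsto_of_complete hcau
  refine ⟨ℓ, ?_⟩
  have hKlim : ∀ K : ι → ℕ, (∀ l, 0 < K l) → ∀ ε : ℝ, 0 < ε → ∃ N : ℕ, ∀ j : ι → ℕ,
      (∀ l, N ≤ j l) → ‖Av R f x (Mj K j) - ℓ‖ < ε := by
    intro K hK ε hε
    obtain ⟨N₀, hN₀⟩ := Metric.tendsto_atTop.1 hℓ (ε / 2) (half_pos hε)
    obtain ⟨N, hNN, hN⟩ := hx K N₀ hK (ε / 2) (half_pos hε)
    refine ⟨N, fun j hj => ?_⟩
    have h2 := hN j hj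
    have h3 := hN₀ N hNN
    rw [dist_eq_norm] at h3
    have h4 : Av R f x (Mj K j) - ℓ = (Av R f x (Mj K j) - Av R f x (fun _ => 2 ^ N)) +
        (Av R f x (fun _ => 2 ^ N) - ℓ) := by ring
    rw [h4]
    have := norm_add_le (Av R f x (Mj K j) - Av R f x (fun _ => 2 ^ N))
      (Av R f x (fun _ => 2 ^ N) - ℓ)
    linarith
  rw [Metric.tendsto_atTop]
  intro ε hε
  have hB0 : 0 ≤ B := (norm_nonneg _).trans (hB x)
  obtain ⟨m, hm⟩ : ∃ m : ℕ, 2 * B * (Fintype.card ι * (1 / 2) ^ m) < ε / 2 := by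
    have h3 := ((tendsto_pow_atTop_nhds_zero_of_lt_one (r := (1 / 2 : ℝ)) (by norm_num)
      (by norm_num)).const_mul (Fintype.card ι : ℝ)).const_mul (2 * B)
    rw [mul_zero, mul_zero] at h3
    exact (h3.eventually (gt_mem_nhds (half_pos hε))).exists
  obtain ⟨k₀, hk₀⟩ : ∃ k₀ : ℕ, ∀ K ∈ Fintype.piFinset (fun _ : ι => Ico (2 ^ m) (2 ^ (m + 1))),
      ∀ j : ι → ℕ, (∀ l, k₀ ≤ j l) → ‖Av R f x (Mj K j) - ℓ‖ < ε / 2 := by
    have h3 : ∀ K : ι → ℕ, ∃ N : ℕ, K ∈ Fintype.piFinset (fun _ : ι => Ico (2 ^ m) (2 ^ (m + 1))) →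
        ∀ j : ι → ℕ, (∀ l, N ≤ j l) → ‖Av R f x (Mj K j) - ℓ‖ < ε / 2 := by
      intro K
      by_cases hK : ∀ l, 0 < K l
      · obtain ⟨N, hN⟩ := hKlim K hK (ε / 2) (half_pos hε)
        exact ⟨N, fun _ => hN⟩
      · refine ⟨0, fun h => absurd (fun l => ?_) hK⟩
        have := (Finset.mem_Ico.1 (Fintype.mem_piFinset.1 h l)).1
        exact lt_of_lt_of_le (pow_pos two_pos m) this
    choose N hN using h3
    refine ⟨(Fintype.piFinset (fun _ : ι => Ico (2 ^ m) (2 ^ (m + 1)))).sup N, fun K hK j hj => ?_⟩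
    exact hN K hK j fun l => (Finset.le_sup (f := N) hK).trans (hj l)
  refine ⟨fun _ => 2 ^ (m + k₀), fun M hM => ?_⟩
  have hM0 : ∀ l, 0 < M l := fun l => lt_of_lt_of_le (pow_pos two_pos _) (hM l)
  have hkm : ∀ l, m + k₀ ≤ Nat.log 2 (M l) := fun l => Nat.le_log_of_pow_le one_lt_two (hM l)
  set r : ι → ℕ := fun l => Nat.log 2 (M l) - m with hr
  have hrk : ∀ l, k₀ ≤ r l := fun l => by have := hkm l; simp only [hr]; omega
  have hrm : ∀ l, Nat.log 2 (M l) = m + r l := fun l => by have := hkm l; simp only [hr]; omega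
  set K : ι → ℕ := fun l => M l / 2 ^ r l with hKdef
  have h2r : ∀ l, 0 < 2 ^ r l := fun l => pow_pos two_pos _
  have hKr : ∀ l, Mj K r l ≤ M l := fun l => Nat.div_mul_le_self (M l) (2 ^ r l)
  have hKr' : ∀ l, M l < Mj K r l + 2 ^ r l := fun l => Nat.lt_div_mul_add (h2r l) (a := M l)
  have hlow : ∀ l, 2 ^ Nat.log 2 (M l) ≤ M l := fun l => Nat.pow_log_le_self 2 (hM0 l).ne'
  have hup : ∀ l, M l < 2 ^ (Nat.log 2 (M l) + 1) := fun l => Nat.lt_pow_succ_log_self one_lt_two _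
  have hKlow : ∀ l, 2 ^ m ≤ K l := by
    intro l
    rw [hKdef]
    show 2 ^ m ≤ M l / 2 ^ r l
    rw [Nat.le_div_iff_mul_le (h2r l), ← pow_add, ← hrm l]
    exact hlow l
  have hKup : ∀ l, K l < 2 ^ (m + 1) := by
    intro l
    show M l / 2 ^ r l < 2 ^ (m + 1)
    rw [Nat.div_lt_iff_lt_mul (h2r l), ← pow_add]
    have : m + 1 + r l = Nat.log 2 (M l) + 1 := by rw [hrm l]; omega
    rw [this]
    exact hup l
  have h4 := hk₀ K (Fintype.mem_piFinset.2 fun l => Finset.mem_Ico.2 ⟨hKlow l, hKup l⟩) r hrk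
  have hK1 : ∀ l, 0 < K l := fun l => lt_of_lt_of_le (pow_pos two_pos m) (hKlow l)
  have h5 := Av_near_mp (R := R) hB x (M := M) (M' := Mj K r)
    (fun l => Nat.mul_pos (hK1 l) (h2r l)) hKr
  have h6 : 2 * B * ∑ l, ((M l : ℝ) - (Mj K r l : ℕ)) / M l ≤
      2 * B * (Fintype.card ι * (1 / 2) ^ m) := by
    refine mul_le_mul_of_nonneg_left ?_ (by positivity)
    have e0 : ∀ l, ((M l : ℝ) - (Mj K r l : ℕ)) / M l ≤ (1 / 2) ^ m := by
      intro l
      have hNR : (0 : ℝ) < M l := Nat.cast_pos.2 (hM0 l)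
      have e1 : (M l : ℝ) - ((Mj K r l : ℕ) : ℝ) ≤ 2 ^ r l := by
        have : (M l : ℝ) < ((Mj K r l : ℕ) : ℝ) + 2 ^ r l := by exact_mod_cast hKr' l
        linarith
      have e2 : ((1 : ℝ) / 2) ^ m * M l ≥ 2 ^ r l := by
        have e3 : (2 : ℝ) ^ Nat.log 2 (M l) ≤ M l := by exact_mod_cast hlow l
        calc ((1 : ℝ) / 2) ^ m * M l ≥ (1 / 2) ^ m * 2 ^ Nat.log 2 (M l) :=
              mul_le_mul_of_nonneg_left e3 (by positivity)
          _ = 2 ^ r l := by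
              rw [hrm l, pow_add, ← mul_assoc, ← mul_pow]
              norm_num
      rw [div_le_iff₀ hNR]
      exact e1.trans e2
    refine (Finset.sum_le_sum fun l _ => e0 l).trans (le_of_eq ?_)
    rw [Finset.sum_const, nsmul_eq_mul, Finset.card_univ]
  rw [dist_eq_norm]
  have h7 : Av R f x M - ℓ = (Av R f x M - Av R f x (Mj K r)) + (Av R f x (Mj K r) - ℓ) := by ring
  rw [h7]
  have h8 := norm_add_le (Av R f x M - Av R f x (Mj K r)) (Av R f x (Mj K r) - ℓ)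
  linarith

end Pool.Agent.Lib.Pf720mp
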