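import Pool.Agent.Lib.Pf720mp.Defs

/-!
# Rational numbers of small height near a real number

All statements are elementary. Two different rationals `β, β'` with denominators at most `P, P'`
are at distance at least `1 / (P P')` (the numerator of the difference is a nonzero integer), hence
the rational of denominator at most `2 ^ T` within `2 ^ (-2T-1)` of `x` is unique. For
`2T + 2 ≤ τ` one has `(1/2) ^ τ < (1/2) ^ (2T+1)`, which gives `XX_eq_one_iff`.
-/

set_option autoImplicit false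
set_option linter.unusedSectionVars false

open Finset

namespace Pool.Agent.Lib.Pf720mp

theorem rat_sep {β β' : ℚ} (h : β ≠ β') {P P' : ℝ} (hP : (β.den : ℝ) ≤ P)
    (hP' : (β'.den : ℝ) ≤ P') : 1 / (P * P') ≤ |(β : ℝ) - β'| := by
  have hd : (0 : ℝ) < β.den := by exact_mod_cast β.den_pos
  have hd' : (0 : ℝ) < β'.den := by exact_mod_cast β'.den_pos
  have hne : β.num * β'.den - β'.num * β.den ≠ 0 := by
    intro h0
    apply h
    rw [sub_eq_zero] at h0
    exact Rat.eq_iff_mul_eq_mul.mpr h0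
  have h1 : (1 : ℝ) ≤ |((β.num * β'.den - β'.num * β.den : ℤ) : ℝ)| := by
    rw [← Int.cast_abs]
    exact_mod_cast Int.one_le_abs hne
  have e : (β : ℝ) - β' =
      ((β.num * β'.den - β'.num * β.den : ℤ) : ℝ) / (β.den * β'.den) := by
    have a1 : (β : ℝ) = β.num / β.den := Rat.cast_def β
    have a2 : (β' : ℝ) = β'.num / β'.den := Rat.cast_def β'
    rw [a1, a2, div_sub_div _ _ hd.ne' hd'.ne']
    push_cast
    congr 1
    ring
  rw [e, abs_div, abs_of_pos (mul_pos hd hd')]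
  calc 1 / (P * P') ≤ 1 / ((β.den : ℝ) * β'.den) :=
        one_div_le_one_div_of_le (mul_pos hd hd') (mul_le_mul hP hP' hd'.le (hd.le.trans hP))
    _ ≤ _ := div_le_div_of_nonneg_right h1 (mul_pos hd hd').le

/-- denominators of a rational with a given common denominator -/
theorem den_le_of_mul_int {β : ℚ} {q : ℕ} (hq : 0 < q) {n : ℤ} (h : (q : ℚ) * β = n) :
    β.den ≤ q := by
  have hd : (β.den : ℚ) ≠ 0 := by exact_mod_cast β.den_pos.ne'
  have h1 : (q : ℤ) * β.num = n * β.den := by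
    have h2 : (q : ℚ) * β.num = n * β.den := by
      rw [← h]
      have h3 : β * β.den = β.num := Rat.mul_den_eq_num β
      rw [mul_assoc, h3]
    exact_mod_cast h2
  have h2 : β.den ∣ q * β.num.natAbs := by
    have h3 := congrArg Int.natAbs h1
    rw [Int.natAbs_mul, Int.natAbs_mul, Int.natAbs_natCast, Int.natAbs_natCast] at h3
    rw [h3]
    exact dvd_mul_left _ _
  have h3 : β.den ∣ q := Nat.Coprime.dvd_of_dvd_mul_right β.reduced.symm h2
  exact Nat.le_of_dvd hq h3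

theorem nr_spec {T : ℕ} {x : ℝ} (h : Near T x) :
    (nr T x).den ≤ 2 ^ T ∧ |x - nr T x| < (1 / 2) ^ (2 * T + 1) := by
  unfold nr
  rw [dif_pos h]
  exact h.choose_spec

theorem nr_den (T : ℕ) (x : ℝ) : (nr T x).den ≤ 2 ^ T := by
  by_cases h : Near T x
  · exact (nr_spec h).1
  · unfold nr
    rw [dif_neg h]
    exact Nat.one_le_two_pow

/-- two rationals of small height near the same number coincide -/
lemma near_unique {T : ℕ} {x : ℝ} {β β' : ℚ} (hβ : β.den ≤ 2 ^ T) (hβ' : β'.den ≤ 2 ^ T)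
    (h : |x - β| < (1 / 2) ^ (2 * T + 1)) (h' : |x - β'| < (1 / 2) ^ (2 * T + 1)) : β = β' := by
  by_contra hne
  have h1 := rat_sep hne (P := 2 ^ T) (P' := 2 ^ T) (by exact_mod_cast hβ) (by exact_mod_cast hβ')
  have h2 : |(β : ℝ) - β'| < (1 / 2) ^ (2 * T + 1) + (1 / 2) ^ (2 * T + 1) := by
    have e : (β : ℝ) - β' = -(x - β) + (x - β') := by ring
    rw [e]
    refine (abs_add_le _ _).trans_lt ?_
    rw [abs_neg]
    linarith
  have h3 : ((1 : ℝ) / 2) ^ (2 * T + 1) + (1 / 2) ^ (2 * T + 1) = 1 / (2 ^ T * 2 ^ T) := by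
    rw [pow_succ, two_mul T, pow_add, one_div, inv_pow]
    field_simp
    norm_num
  rw [h3] at h2
  linarith

theorem nr_eq {T : ℕ} {x : ℝ} {β : ℚ} (hβ : β.den ≤ 2 ^ T) (h : |x - β| < (1 / 2) ^ (2 * T + 1)) :
    nr T x = β := by
  have hN : Near T x := ⟨β, hβ, h⟩
  obtain ⟨h1, h2⟩ := nr_spec hN
  exact near_unique h1 hβ h2 h

theorem XX_zero_or_one (T τ : ℕ) (x : ℝ) : XX T τ x = 0 ∨ XX T τ x = 1 := by
  unfold XX
  split_ifs
  · exact Or.inr rfl
  · exact Or.inl rfl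

theorem norm_XX_le (T τ : ℕ) (x : ℝ) : ‖XX T τ x‖ ≤ 1 := by
  rcases XX_zero_or_one T τ x with h | h <;> rw [h] <;> simp

theorem XX_eq_one_of {T τ : ℕ} {x : ℝ} {β : ℚ} (hβ : β.den ≤ 2 ^ T) (h : |x - β| ≤ (1 / 2) ^ τ) :
    XX T τ x = 1 := by
  unfold XX
  rw [if_pos ⟨β, hβ, h⟩]

theorem exists_of_XX {T τ : ℕ} {x : ℝ} (h : XX T τ x ≠ 0) :
    ∃ β : ℚ, β.den ≤ 2 ^ T ∧ |x - β| ≤ (1 / 2) ^ τ := by
  unfold XX at h
  by_contra hcon
  rw [if_neg hcon] at h
  exact h rfl

open Classical in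
theorem XX_eq {T τ : ℕ} (hτ : 2 * T + 2 ≤ τ) (x : ℝ) :
    XX T τ x = if Near T x ∧ |x - nr T x| ≤ (1 / 2) ^ τ then 1 else 0 := by
  have hlt : ((1 : ℝ) / 2) ^ τ < (1 / 2) ^ (2 * T + 1) :=
    pow_lt_pow_right_of_lt_one₀ (by norm_num) (by norm_num) (by omega)
  by_cases h : Near T x ∧ |x - nr T x| ≤ (1 / 2) ^ τ
  · rw [if_pos h]
    exact XX_eq_one_of (nr_den T x) h.2
  · rw [if_neg h]
    by_contra hne
    obtain ⟨β, hβ, hx⟩ := exists_of_XX hne
    have hx' := hx.trans_lt hlt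
    apply h
    refine ⟨⟨β, hβ, hx'⟩, ?_⟩
    rw [nr_eq hβ hx']
    exact hx

theorem XX_anti {T τ τ' : ℕ} (h : τ ≤ τ') {x : ℝ} (hx : XX T τ' x = 1) : XX T τ x = 1 := by
  obtain ⟨β, hβ, hb⟩ := exists_of_XX (T := T) (τ := τ') (x := x) (by rw [hx]; exact one_ne_zero)
  refine XX_eq_one_of hβ (hb.trans ?_)
  exact pow_le_pow_of_le_one (by norm_num) (by norm_num) h

/-- one direction of the invariance under integers -/
lemma XX_add_int_aux {T τ : ℕ} {x : ℝ} (n : ℤ) (h : XX T τ x = 1) : XX T τ (x + n) = 1 := by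
  obtain ⟨β, hβ, hb⟩ := exists_of_XX (T := T) (τ := τ) (x := x) (by rw [h]; exact one_ne_zero)
  refine XX_eq_one_of (β := β + n) ?_ ?_
  · rw [Rat.add_intCast_den]
    exact hβ
  · push_cast
    have e : x + (n : ℝ) - ((β : ℝ) + n) = x - β := by ring
    rw [e]
    exact hb

theorem XX_add_int (T τ : ℕ) (x : ℝ) (n : ℤ) : XX T τ (x + n) = XX T τ x := by
  rcases XX_zero_or_one T τ x with h | h
  · rcases XX_zero_or_one T τ (x + n) with h' | h'
    · rw [h, h']
    · exfalso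
      have h2 := XX_add_int_aux (-n) h'
      have e : x + (n : ℝ) + ((-n : ℤ) : ℝ) = x := by
        push_cast
        ring
      rw [e, h] at h2
      exact zero_ne_one h2
  · rw [h]
    exact XX_add_int_aux n h

end Pool.Agent.Lib.Pf720mp
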