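import Pool.Agent.Lib.Pf720mp.MxB
import Pool.Agent.Lib.Pf720mp.Rat

/-!
# Square summable structured families

`𝔉 a u` is of size at most `A min_γ min(1, 4 ^ T |u_γ|)`, vanishes if some `|u_γ| > 2 ^ T`, and only
depends on `u_γ`, `γ ∈ W`.

Reduce by `mx_reindex` (with `g τ = fun γ => if γ ∈ W then τ γ else 0`) to the index set
`{τ | (∀ γ ∈ W, 6 T ≤ τ γ) ∧ ∀ γ ∉ W, τ γ = 0}` and apply `mx_sq`. For a given `a` let
`x_γ = |fq a γ - nr T (fq a γ)|`; if some `x_γ = 0` everything vanishes. Let `N_γ` be the first `n` with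
`2 ^ n x_γ > 2 ^ T`. Only `τ_γ < N_γ` matter, and with `k_γ = (N_γ - 1 - τ_γ) - 3 T` (truncated) one has
`‖m τ a‖ ≤ A 2 ^ (-k_γ)` for all `γ ∈ W`. Let `θ = 1 - 3 / (4 (w + 1))`, so that `θ ^ w ≥ 1 / 4`
(Bernoulli); then `‖m τ a‖ ^ 2 ≤ A ^ 2 ∏_γ θ ^ (k_γ)`, and the sum over `τ` factorises.
-/

set_option autoImplicit false
set_option linter.unusedSectionVars false

open Finset

namespace Pool.Agent.Lib.Pf720mp

variable {I : Type} [Fintype I] [DecidableEq I]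

namespace CoreAAux

/-- the ratio -/
noncomputable def th (w : ℕ) : ℝ := 1 - 3 / (4 * (w + 1))

lemma th_pos (w : ℕ) : 0 < th w := by
  unfold th
  have h1 : (0 : ℝ) < 4 * (w + 1) := by positivity
  have h2 : 3 / (4 * ((w : ℝ) + 1)) < 1 := by
    rw [div_lt_one h1]
    have : (0 : ℝ) ≤ w := Nat.cast_nonneg _
    linarith
  linarith

lemma th_lt_one (w : ℕ) : th w < 1 := by
  unfold th
  have h1 : (0 : ℝ) < 3 / (4 * (w + 1)) := by positivity
  linarith

lemma quarter_le (w : ℕ) : (1 / 4 : ℝ) ≤ th w ^ w := by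
  have h1 : (1 / 4 : ℝ) ≤ th w ^ (w + 1) := by
    have h2 : (-2 : ℝ) ≤ -(3 / (4 * (w + 1))) := by
      have h3 : 3 / (4 * ((w : ℝ) + 1)) ≤ 1 := by
        have := th_pos w
        unfold th at this
        linarith
      linarith
    have h4 := one_add_mul_le_pow h2 (w + 1)
    have h5 : 1 + ((w + 1 : ℕ) : ℝ) * -(3 / (4 * (w + 1))) = 1 / 4 := by
      push_cast
      field_simp
      ring
    rw [h5] at h4
    have h6 : (1 : ℝ) + -(3 / (4 * (w + 1))) = th w := by unfold th; ring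
    rw [h6] at h4
    exact h4
  exact h1.trans (pow_le_pow_of_le_one (th_pos w).le (th_lt_one w).le (Nat.le_succ w))

lemma geom_le {θ : ℝ} (h0 : 0 < θ) (h1 : θ < 1) (N : ℕ) :
    ∑ i ∈ range N, θ ^ i ≤ 1 / (1 - θ) := by
  have h2 : 0 < 1 - θ := by linarith
  rw [le_div_iff₀ h2, geom_sum_mul_neg]
  have := pow_pos h0 N
  linarith

lemma sum_le {θ : ℝ} (h0 : 0 < θ) (h1 : θ < 1) (N S : ℕ) :
    ∑ n ∈ range N, θ ^ ((N - 1 - n) - S) ≤ S + 1 / (1 - θ) := by
  rw [Finset.sum_range_reflect (fun j => θ ^ (j - S)) N]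
  have h2 : ∑ j ∈ range N, θ ^ (j - S) ≤ ∑ j ∈ range (S + N), θ ^ (j - S) := by
    refine Finset.sum_le_sum_of_subset_of_nonneg ?_ fun _ _ _ => by positivity
    intro j hj
    rw [Finset.mem_range] at hj ⊢
    omega
  refine h2.trans ?_
  rw [Finset.sum_range_add]
  refine add_le_add ?_ ?_
  · have h3 : ∀ j ∈ range S, θ ^ (j - S) = 1 := by
      intro j hj
      rw [Finset.mem_range] at hj
      rw [Nat.sub_eq_zero_of_le hj.le, pow_zero]
    rw [Finset.sum_congr rfl h3]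
    simp
  · have h3 : ∀ j ∈ range N, θ ^ (S + j - S) = θ ^ j := by
      intro j _
      rw [Nat.add_sub_cancel_left]
    rw [Finset.sum_congr rfl h3]
    exact geom_le h0 h1 N

end CoreAAux

open CoreAAux in
open Classical in
theorem core_sq (W : Finset I) : ∃ C : ℝ, 0 ≤ C ∧ ∀ (L : ℕ) [NeZero L] (T : ℕ), 1 ≤ T →
    ∀ (A : ℝ), 0 ≤ A → ∀ 𝔉 : (I → ZMod L) → (I → ℝ) → ℂ,
    (∀ a u, ‖𝔉 a u‖ ≤ A) →
    (∀ a u, ∀ γ ∈ W, (2 : ℝ) ^ T < |u γ| → 𝔉 a u = 0) →
    (∀ a u u', (∀ γ ∈ W, u γ = u' γ) → 𝔉 a u = 𝔉 a u') →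
    (∀ a u, ∀ γ ∈ W, ‖𝔉 a u‖ ≤ A * 2 ^ (2 * T) * |u γ|) →
    MxLe {τ : I → ℕ | ∀ γ ∈ W, 6 * T ≤ τ γ}
      (fun τ (a : I → ZMod L) => if ∀ γ ∈ W, Near T (fq a γ) then
        𝔉 a (fun γ => (2 : ℝ) ^ τ γ * (fq a γ - nr T (fq a γ))) else 0)
      (C * (T : ℝ) ^ W.card * A) := by
  obtain ⟨w, hw⟩ : ∃ w, w = W.card := ⟨_, rfl⟩
  obtain ⟨c, hc⟩ : ∃ c : ℝ, c = 3 + 1 / (1 - th w) := ⟨_, rfl⟩
  have hth0 := th_pos w
  have hth1 := th_lt_one w
  have hc1 : 1 ≤ c := by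
    have : 0 < 1 / (1 - th w) := by
      have : 0 < 1 - th w := by linarith
      positivity
    rw [hc]; linarith
  refine ⟨c ^ w, by positivity, ?_⟩
  intro L _ T hT A hA 𝔉 h1 h2 h3 h4
  have hT1 : (1 : ℝ) ≤ T := by exact_mod_cast hT
  obtain ⟨m, hm⟩ : ∃ m : (I → ℕ) → (I → ZMod L) → ℂ, m = fun τ (a : I → ZMod L) =>
    if ∀ γ ∈ W, Near T (fq a γ) then
        𝔉 a (fun γ => (2 : ℝ) ^ τ γ * (fq a γ - nr T (fq a γ))) else 0 := ⟨_, rfl⟩
  rw [← hm, ← hw]
  have hred : MxLe {τ : I → ℕ | (∀ γ ∈ W, 6 * T ≤ τ γ) ∧ ∀ γ, γ ∉ W → τ γ = 0} m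
      (c ^ w * (T : ℝ) ^ w * A) := by
    apply mx_sq
    intro s hs a
    by_cases hnear : ∀ γ ∈ W, Near T (fq a γ)
    swap
    · have hz : ∀ τ ∈ s, ‖m τ a‖ ^ 2 = 0 := by
        intro τ _
        rw [hm]
        simp only [if_neg hnear]
        simp
      rw [Finset.sum_congr rfl hz]
      simp only [Finset.sum_const_zero]
      positivity
    obtain ⟨x, hx⟩ : ∃ x : I → ℝ, x = fun γ => fq a γ - nr T (fq a γ) := ⟨_, rfl⟩
    have hmτ : ∀ τ, m τ a = 𝔉 a (fun γ => (2 : ℝ) ^ τ γ * x γ) := by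
      intro τ
      rw [hm, hx]
      simp only [if_pos hnear]
    have habs : ∀ (τ : I → ℕ) γ, |(2 : ℝ) ^ τ γ * x γ| = 2 ^ τ γ * |x γ| := by
      intro τ γ
      rw [abs_mul, abs_of_pos (by positivity)]
    by_cases hx0 : ∃ γ ∈ W, x γ = 0
    · obtain ⟨γ, hγ, hxγ⟩ := hx0
      have hz : ∀ τ ∈ s, ‖m τ a‖ ^ 2 = 0 := by
        intro τ _
        have h5 := h4 a (fun γ => (2 : ℝ) ^ τ γ * x γ) γ hγ
        rw [habs, hxγ, abs_zero, mul_zero, mul_zero] at h5
        rw [hmτ, le_antisymm h5 (norm_nonneg _)]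
        norm_num
      rw [Finset.sum_congr rfl hz]
      simp only [Finset.sum_const_zero]
      positivity
    push Not at hx0
    have hxp : ∀ γ ∈ W, 0 < |x γ| := fun γ hγ => abs_pos.2 (hx0 γ hγ)
    -- the cutoffs
    have hex : ∀ γ, ∃ n : ℕ, γ ∈ W → ((2 : ℝ) ^ T < 2 ^ n * |x γ| ∧
        ∀ k < n, (2 : ℝ) ^ k * |x γ| ≤ 2 ^ T) := by
      intro γ
      by_cases hγ : γ ∈ W
      · have h5 : ∃ n : ℕ, (2 : ℝ) ^ T < 2 ^ n * |x γ| := by
          obtain ⟨n, hn⟩ := pow_unbounded_of_one_lt ((2 : ℝ) ^ T / |x γ|) (by norm_num : (1 : ℝ) < 2)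
          refine ⟨n, ?_⟩
          rwa [div_lt_iff₀ (hxp γ hγ)] at hn
        exact ⟨Nat.find h5, fun _ => ⟨Nat.find_spec h5, fun k hk => not_lt.1 (Nat.find_min h5 hk)⟩⟩
      · exact ⟨0, fun h => absurd h hγ⟩
    choose N hN using hex
    obtain ⟨P, hP⟩ : ∃ P : Finset (I → ℕ), P = Fintype.piFinset
      (fun γ => if γ ∈ W then range (N γ) else {0}) := ⟨_, rfl⟩
    obtain ⟨F, hF⟩ : ∃ F : I → ℕ → ℝ, F = fun γ n => if γ ∈ W then
      th w ^ ((N γ - 1 - n) - 3 * T) else 1 := ⟨_, rfl⟩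
    have hF0 : ∀ γ n, 0 ≤ F γ n := by
      intro γ n
      rw [hF]
      show 0 ≤ if γ ∈ W then th w ^ ((N γ - 1 - n) - 3 * T) else 1
      split_ifs
      · positivity
      · norm_num
    -- pointwise bound
    have hpt : ∀ τ ∈ P, ‖m τ a‖ ^ 2 ≤ A ^ 2 * ∏ γ, F γ (τ γ) := by
      intro τ hτ
      rw [hP, Fintype.mem_piFinset] at hτ
      have hτN : ∀ γ ∈ W, τ γ < N γ := by
        intro γ hγ
        have := hτ γ
        rw [if_pos hγ, Finset.mem_range] at this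
        exact this
      have hk : ∀ γ ∈ W, ‖m τ a‖ ≤ A * (1 / 2) ^ ((N γ - 1 - τ γ) - 3 * T) := by
        intro γ hγ
        rcases Nat.eq_zero_or_pos ((N γ - 1 - τ γ) - 3 * T) with h0 | h0
        · rw [h0, pow_zero, mul_one, hmτ]
          exact h1 a _
        · have h5 := h4 a (fun γ => (2 : ℝ) ^ τ γ * x γ) γ hγ
          rw [habs, ← hmτ] at h5
          refine h5.trans ?_
          rw [mul_assoc]
          refine mul_le_mul_of_nonneg_left ?_ hA
          have h6 := (hN γ hγ).2 (N γ - 1) (by have := hτN γ hγ; omega)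
          have h7 : N γ - 1 = τ γ + (3 * T + ((N γ - 1 - τ γ) - 3 * T)) := by omega
          obtain ⟨k, hk⟩ : ∃ k, k = (N γ - 1 - τ γ) - 3 * T := ⟨_, rfl⟩
          rw [← hk] at h7 ⊢
          rw [h7, pow_add, pow_add] at h6
          have h8 : (2 : ℝ) ^ (3 * T) = 2 ^ (2 * T) * 2 ^ T := by rw [← pow_add]; congr 1; ring
          rw [h8] at h6
          have h9 : (0 : ℝ) < 2 ^ T := by positivity
          have h10 : 2 ^ (2 * T) * (2 ^ τ γ * |x γ|) * 2 ^ k ≤ 1 := by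
            have h11 : (2 ^ (2 * T) * (2 ^ τ γ * |x γ|) * 2 ^ k) * 2 ^ T ≤ 1 * 2 ^ T := by
              calc (2 ^ (2 * T) * (2 ^ τ γ * |x γ|) * 2 ^ k) * 2 ^ T =
                  2 ^ τ γ * (2 ^ (2 * T) * 2 ^ T * 2 ^ k) * |x γ| := by ring
                _ ≤ 2 ^ T := h6
                _ = 1 * 2 ^ T := by ring
            exact le_of_mul_le_mul_right h11 h9
          rw [one_div, inv_pow, ← one_div, le_div_iff₀ (by positivity)]
          exact h10
      have hprod : ∏ γ, F γ (τ γ) = th w ^ (∑ γ ∈ W, ((N γ - 1 - τ γ) - 3 * T)) := by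
        rw [hF, ← Finset.prod_pow_eq_pow_sum]
        show (∏ γ, if γ ∈ W then th w ^ ((N γ - 1 - τ γ) - 3 * T) else 1) = _
        rw [Finset.prod_ite_mem, Finset.univ_inter]
      rw [hprod]
      rcases W.eq_empty_or_nonempty with hWe | hWn
      · rw [hWe, Finset.sum_empty, pow_zero, mul_one]
        refine pow_le_pow_left₀ (norm_nonneg _) ?_ 2
        rw [hmτ]
        exact h1 a _
      · obtain ⟨γ, hγ, hmax⟩ := Finset.exists_max_image W
          (fun γ => (N γ - 1 - τ γ) - 3 * T) hWn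
        have h5 := pow_le_pow_left₀ (norm_nonneg _) (hk γ hγ) 2
        refine h5.trans ?_
        rw [mul_pow]
        refine mul_le_mul_of_nonneg_left ?_ (sq_nonneg A)
        obtain ⟨K, hK⟩ : ∃ K, K = (N γ - 1 - τ γ) - 3 * T := ⟨_, rfl⟩
        rw [← hK]
        have h6 : ∑ γ ∈ W, ((N γ - 1 - τ γ) - 3 * T) ≤ w * K := by
          rw [hw, hK, ← smul_eq_mul]
          exact Finset.sum_le_card_nsmul W _ _ fun γ' hγ' => hmax γ' hγ'
        have h7 : th w ^ (w * K) ≤ th w ^ (∑ γ ∈ W, ((N γ - 1 - τ γ) - 3 * T)) :=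
          pow_le_pow_of_le_one hth0.le hth1.le h6
        refine le_trans ?_ h7
        rw [pow_mul]
        have h8 : ((1 / 2 : ℝ) ^ K) ^ 2 = (1 / 4) ^ K := by
          rw [← pow_mul, mul_comm, pow_mul]
          norm_num
        rw [h8]
        exact pow_le_pow_left₀ (by norm_num) (quarter_le w) K
    -- the terms outside `P` vanish
    have hout : ∀ τ ∈ s, τ ∉ P → ‖m τ a‖ ^ 2 = 0 := by
      intro τ hτs hτP
      have hτ0 := (hs τ hτs).2
      have h5 : ∃ γ ∈ W, N γ ≤ τ γ := by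
        by_contra hcon
        push Not at hcon
        apply hτP
        rw [hP, Fintype.mem_piFinset]
        intro γ
        split_ifs with hγ
        · exact Finset.mem_range.2 (hcon γ hγ)
        · exact Finset.mem_singleton.2 (hτ0 γ hγ)
      obtain ⟨γ, hγ, hle⟩ := h5
      have h6 := h2 a (fun γ => (2 : ℝ) ^ τ γ * x γ) γ hγ (by
        rw [habs]
        refine lt_of_lt_of_le (hN γ hγ).1 ?_
        refine mul_le_mul_of_nonneg_right ?_ (abs_nonneg _)
        exact pow_le_pow_right₀ (by norm_num) hle)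
      rw [hmτ, h6]
      simp
    have hsum : ∑ τ ∈ s, ‖m τ a‖ ^ 2 ≤ ∑ τ ∈ P, A ^ 2 * ∏ γ, F γ (τ γ) := by
      have h5 : ∑ τ ∈ s, ‖m τ a‖ ^ 2 = ∑ τ ∈ s.filter (fun τ => τ ∈ P), ‖m τ a‖ ^ 2 := by
        rw [Finset.sum_filter]
        refine Finset.sum_congr rfl fun τ hτ => ?_
        split_ifs with h
        · rfl
        · exact hout τ hτ h
      rw [h5]
      refine (Finset.sum_le_sum fun τ hτ => hpt τ (Finset.mem_filter.1 hτ).2).trans ?_
      refine Finset.sum_le_sum_of_subset_of_nonneg ?_ fun τ _ _ => ?_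
      · intro τ hτ
        exact (Finset.mem_filter.1 hτ).2
      · exact mul_nonneg (sq_nonneg A) (Finset.prod_nonneg fun γ _ => hF0 _ _)
    have hfac : ∑ τ ∈ P, ∏ γ, F γ (τ γ) ≤ (c * T) ^ w := by
      rw [hP, ← Finset.prod_univ_sum]
      have h5 : ∀ γ, ∑ j ∈ (if γ ∈ W then range (N γ) else {0}), F γ j =
          if γ ∈ W then ∑ n ∈ range (N γ), th w ^ ((N γ - 1 - n) - 3 * T) else 1 := by
        intro γ
        rw [hF]
        by_cases hγ : γ ∈ W
        · rw [if_pos hγ, if_pos hγ]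
          refine Finset.sum_congr rfl fun n _ => ?_
          show (if γ ∈ W then _ else _) = _
          rw [if_pos hγ]
        · rw [if_neg hγ, if_neg hγ, Finset.sum_singleton]
          show (if γ ∈ W then _ else _) = _
          rw [if_neg hγ]
      rw [Finset.prod_congr rfl fun γ _ => h5 γ, Finset.prod_ite_mem, Finset.univ_inter]
      have h8 : ∀ γ ∈ W, ∑ n ∈ range (N γ), th w ^ ((N γ - 1 - n) - 3 * T) ≤ c * T := by
        intro γ _
        refine (sum_le hth0 hth1 (N γ) (3 * T)).trans ?_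
        have h6 : 0 < 1 / (1 - th w) := by
          have : 0 < 1 - th w := by linarith
          positivity
        rw [hc]
        push_cast
        nlinarith
      have h9 : (c * T) ^ w = ∏ _γ ∈ W, (c * T) := by rw [Finset.prod_const, hw]
      rw [h9]
      exact Finset.prod_le_prod (fun γ _ => Finset.sum_nonneg fun _ _ => by positivity) h8
    refine hsum.trans ?_
    rw [← Finset.mul_sum]
    have h5 := mul_le_mul_of_nonneg_left hfac (sq_nonneg A)
    refine h5.trans ?_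
    have h6 : (c ^ w * (T : ℝ) ^ w * A) ^ 2 = A ^ 2 * ((c * T) ^ w * (c * T) ^ w) := by
      rw [mul_pow c]; ring
    rw [h6]
    refine mul_le_mul_of_nonneg_left ?_ (sq_nonneg A)
    have h7 : 1 ≤ (c * T) ^ w := one_le_pow₀ (by nlinarith)
    nlinarith
  have hre := mx_reindex (S' := {τ : I → ℕ | ∀ γ ∈ W, 6 * T ≤ τ γ}) hred
    (fun τ γ => if γ ∈ W then τ γ else 0) (by
      intro τ hτ
      refine ⟨fun γ hγ => ?_, fun γ hγ => ?_⟩
      · show 6 * T ≤ if γ ∈ W then τ γ else 0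
        rw [if_pos hγ]
        exact hτ γ hγ
      · show (if γ ∈ W then τ γ else 0) = 0
        rw [if_neg hγ])
  refine mx_congr hre ?_
  intro τ _ a
  rw [hm]
  show (if ∀ γ ∈ W, Near T (fq a γ) then _ else _) = if ∀ γ ∈ W, Near T (fq a γ) then _ else _
  split_ifs with h
  · apply h3
    intro γ hγ
    show _ = (2 : ℝ) ^ (if γ ∈ W then τ γ else 0) * _
    rw [if_pos hγ]
  · rfl

end Pool.Agent.Lib.Pf720mp
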