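import Pool.Agent.Lib.Pf720mp.MxA

/-!
# Maximal bounds for families of multipliers: unions of index sets and infinite sums

Proof hints. The choice function takes finitely many values, so only finitely many members of an
infinite union or sum matter.
* `mx_union`: if `S` and `S'` are nonempty, let `j₁ x = j x` if `j x ∈ S` and a fixed element of `S`
  otherwise, `j₂` similarly; then `‖op (m (j x)) F x‖² ≤ ‖op (m (j₁ x)) F x‖² + ‖op (m (j₂ x)) F x‖²`
  and `B² + B'² ≤ (B + B')²`.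
* `mx_iUnion`: choose for each value of `j` an index `i` with value in `S i`, take a finite set of
  indices, apply `mx_biUnion` to a smaller set; `∑ ≤ tsum`.
* `mx_ite`: as in `mx_union` (if `S'` is empty the family vanishes).
* `mx_tsum`: let `N₀` be a bound for `N (j x)`; the family is `∑_{s < N₀}` of
  `if s < N j then d s j a else 0`, apply `mx_sum` and the argument of `mx_ite` to
  `S' = {j | s < N j}` inside `S`.
-/

set_option autoImplicit false
set_option linter.unusedSectionVars false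

open Finset

namespace Pool.Agent.Lib.Pf720mp

variable {I : Type} [Fintype I] [DecidableEq I] {L : ℕ} [NeZero L] {J J' : Type}

lemma MxB_op_zero (F : (I → ZMod L) → ℂ) (x : I → ZMod L) :
    op (fun _ : I → ZMod L => (0 : ℂ)) F x = 0 := by
  simp [op]

theorem MxB_ite_aux (S T : Set J) [DecidablePred (fun j => j ∈ T)] (m : J → (I → ZMod L) → ℂ)
    (B : ℝ) (h : MxLe (S ∩ T) m B) : MxLe S (fun j a => if j ∈ T then m j a else 0) B := by
  intro F j hj
  have h0 : ∀ x, (fun a => if j x ∈ T then m (j x) a else 0) =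
      if j x ∈ T then m (j x) else fun _ => 0 := by
    intro x
    funext a
    split_ifs <;> rfl
  by_cases hne : (S ∩ T).Nonempty
  · obtain ⟨j₀, hj₀⟩ := hne
    have h1 := h F (fun x => if j x ∈ T then j x else j₀) (by
      intro x
      show (if j x ∈ T then j x else j₀) ∈ S ∩ T
      split_ifs with hx
      · exact ⟨hj x, hx⟩
      · exact hj₀)
    refine le_trans (Finset.sum_le_sum fun x _ => ?_) h1
    show ‖op (fun a => if j x ∈ T then m (j x) a else 0) F x‖ ^ 2 ≤
      ‖op (m (if j x ∈ T then j x else j₀)) F x‖ ^ 2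
    rw [h0 x]
    by_cases hx : j x ∈ T
    · rw [if_pos hx, if_pos hx]
    · rw [if_neg hx, MxB_op_zero, norm_zero, zero_pow two_ne_zero]
      exact sq_nonneg _
  · have h3 : ∀ x ∈ (Finset.univ : Finset (I → ZMod L)),
        ‖op (fun a => if j x ∈ T then m (j x) a else 0) F x‖ ^ 2 = 0 := by
      intro x _
      have hx : j x ∉ T := fun hx => hne ⟨j x, hj x, hx⟩
      rw [h0 x, if_neg hx, MxB_op_zero, norm_zero, zero_pow two_ne_zero]
    show ∑ x, ‖op (fun a => if j x ∈ T then m (j x) a else 0) F x‖ ^ 2 ≤ B ^ 2 * nn F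
    rw [Finset.sum_congr rfl h3, Finset.sum_const_zero]
    exact mul_nonneg (sq_nonneg _) (nn_nonneg F)

theorem mx_union {S S' : Set J} {m : J → (I → ZMod L) → ℂ} {B B' : ℝ} (h : MxLe S m B)
    (h' : MxLe S' m B') (hB : 0 ≤ B) (hB' : 0 ≤ B') : MxLe (S ∪ S') m (B + B') := by
  classical
  have h1 : MxLe (S ∪ S') (fun j a => if j ∈ S then m j a else 0) B :=
    MxB_ite_aux (S ∪ S') S m B (mx_subset h Set.inter_subset_right)
  have h2 : MxLe (S ∪ S') (fun j a => if j ∈ Sᶜ then m j a else 0) B' := by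
    refine MxB_ite_aux (S ∪ S') Sᶜ m B' (mx_subset h' ?_)
    rintro x ⟨hx | hx, hx'⟩
    · exact absurd hx hx'
    · exact hx
  have h3 := mx_add h1 h2 hB hB'
  refine mx_congr h3 ?_
  intro j _ a
  by_cases hj : j ∈ S
  · rw [if_pos hj, if_neg (show ¬ (j ∈ Sᶜ) from fun hh => hh hj), add_zero]
  · rw [if_neg hj, if_pos (show j ∈ Sᶜ from hj), zero_add]

theorem mx_biUnion {κ : Type} (s : Finset κ) {S : κ → Set J} {m : J → (I → ZMod L) → ℂ}
    {B : κ → ℝ} (hB : ∀ i ∈ s, 0 ≤ B i) (h : ∀ i ∈ s, MxLe (S i) m (B i)) {S' : Set J}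
    (hS' : ∀ j ∈ S', ∃ i ∈ s, j ∈ S i) : MxLe S' m (∑ i ∈ s, B i) := by
  classical
  rcases isEmpty_or_nonempty κ with he | hne
  · intro F j hj
    obtain ⟨i, _⟩ := hS' (j 0) (hj 0)
    exact he.elim i
  have hc : ∀ j, ∃ i, j ∈ S' → i ∈ s ∧ j ∈ S i := by
    intro j
    by_cases hj : j ∈ S'
    · obtain ⟨i, hi, hji⟩ := hS' j hj
      exact ⟨i, fun _ => ⟨hi, hji⟩⟩
    · exact ⟨Classical.arbitrary κ, fun hh => absurd hh hj⟩
  choose c hc using hc
  have h0 : ∀ i ∈ s, MxLe S' (fun j a => if j ∈ ({j | j ∈ S' ∧ c j = i} : Set J) then m j a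
      else 0) (B i) := by
    intro i hi
    refine MxB_ite_aux S' {j | j ∈ S' ∧ c j = i} m (B i) (mx_subset (h i hi) ?_)
    rintro j ⟨_, hj, hij⟩
    rw [← hij]
    exact (hc j hj).2
  have h1 := mx_sum s (m := fun i j a => if j ∈ ({j | j ∈ S' ∧ c j = i} : Set J) then m j a
      else 0) hB h0
  refine mx_congr h1 ?_
  intro j hj a
  rw [Finset.sum_eq_single_of_mem (c j) (hc j hj).1]
  · rw [if_pos ⟨hj, rfl⟩]
  · intro i _ hi
    rw [if_neg]
    rintro ⟨_, hh⟩
    exact hi hh.symm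

theorem mx_iUnion {S : ℕ → Set J} {m : J → (I → ZMod L) → ℂ} {B : ℕ → ℝ} (hB : ∀ i, 0 ≤ B i)
    (hs : Summable B) (h : ∀ i, MxLe (S i) m (B i)) {S' : Set J}
    (hS' : ∀ j ∈ S', ∃ i, j ∈ S i) : MxLe S' m (∑' i, B i) := by
  classical
  intro F j hj
  have hc : ∀ x, ∃ i, j x ∈ S i := fun x => hS' _ (hj x)
  choose c hc using hc
  have h1 : MxLe (Set.range j) m (∑ i ∈ Finset.univ.image c, B i) := by
    refine mx_biUnion (Finset.univ.image c) (S := S) (fun i _ => hB i) (fun i _ => h i) ?_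
    rintro _ ⟨x, rfl⟩
    exact ⟨c x, Finset.mem_image_of_mem c (Finset.mem_univ x), hc x⟩
  have h2 : ∑ i ∈ Finset.univ.image c, B i ≤ ∑' i, B i := hs.sum_le_tsum _ fun i _ => hB i
  have h3 := mx_mono h1 (Finset.sum_nonneg fun i _ => hB i) h2
  exact h3 F j fun x => ⟨x, rfl⟩

open Classical in
/-- extension by zero -/
theorem mx_ite {S S' : Set J} {m : J → (I → ZMod L) → ℂ} {B : ℝ} (hB : 0 ≤ B)
    (h : MxLe (S ∩ S') m B) : MxLe S (fun j a => if j ∈ S' then m j a else 0) B :=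
  MxB_ite_aux S S' m B h

/-- sums of families with a number of terms depending on the index -/
theorem mx_tsum {S : Set J} {d : ℕ → J → (I → ZMod L) → ℂ} {B : ℕ → ℝ} (hB : ∀ s, 0 ≤ B s)
    (hs : Summable B) (N : J → ℕ) (h : ∀ s, MxLe {j | j ∈ S ∧ s < N j} (d s) (B s)) :
    MxLe S (fun j a => ∑ s ∈ range (N j), d s j a) (∑' s, B s) := by
  classical
  intro F j hj
  obtain ⟨N₀, hN₀⟩ : ∃ N₀, ∀ x, N (j x) ≤ N₀ :=
    ⟨Finset.univ.sup fun x => N (j x), fun x =>
      Finset.le_sup (f := fun x => N (j x)) (Finset.mem_univ x)⟩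
  have h0 : ∀ s ∈ range N₀, MxLe (Set.range j) (fun j a => if j ∈ ({j | j ∈ S ∧ s < N j} : Set J)
      then d s j a else 0) (B s) := by
    intro s _
    exact MxB_ite_aux (Set.range j) {j | j ∈ S ∧ s < N j} (d s) (B s)
      (mx_subset (h s) Set.inter_subset_right)
  have h1 := mx_sum (range N₀) (m := fun s j a => if j ∈ ({j | j ∈ S ∧ s < N j} : Set J)
      then d s j a else 0) (fun s _ => hB s) h0
  have h2 : MxLe (Set.range j) (fun j a => ∑ s ∈ range (N j), d s j a)
      (∑ s ∈ range N₀, B s) := by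
    refine mx_congr h1 ?_
    rintro _ ⟨x, rfl⟩ a
    rw [← Finset.sum_subset (Finset.range_subset_range.2 (hN₀ x))]
    · refine Finset.sum_congr rfl fun s hs' => ?_
      rw [if_pos ⟨hj x, Finset.mem_range.1 hs'⟩]
    · intro s _ hs'
      rw [if_neg]
      rintro ⟨_, hh⟩
      exact hs' (Finset.mem_range.2 hh)
  have h3 : ∑ i ∈ range N₀, B i ≤ ∑' i, B i := hs.sum_le_tsum _ fun i _ => hB i
  have h4 := mx_mono h2 (Finset.sum_nonneg fun i _ => hB i) h3
  exact h4 F j fun x => ⟨x, rfl⟩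

end Pool.Agent.Lib.Pf720mp
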