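import Pool.Agent.Lib.Pf720mp.MxA
import Pool.Agent.Lib.Pf720ae.Poly.Box
import Pool.Agent.Lib.Pf720ae.Max2

/-!
# Averages along a cyclic direction of a maximal function

`op (fun a => b1 Q M (fq a γ) * p a) F x = M⁻¹ ∑_{n < M} op p F (x + n Q e_γ)` (`op_op`, `op_chi`,
and `chi a (single γ (n Q)) = ee (Q * n * fq a γ)`, compare `Poly.chi_eq`). Given the choice
function `j`, let `G y = max_{i ∈ image j} ‖op (Y i) F y‖`, attained at some `i*(y)` in the image of
`j`, which is contained in `S`; so `∑_y G y ² ≤ B² nn F` by `MxLe S Y B` with the choice function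
`i*`. The left side at `x` is at most the Hardy-Littlewood maximal function of `G` along the
cyclic action `n ↦ x + n Q e_γ`; use `lintegral_NS_sq` for `κ = Unit` (or `Fin 1`) exactly as in
`Pool.Agent.Lib.Pf720ae.Poly.box_max` (file Poly/StrongMax.lean): constant `4` for the squares,
hence `2` here.
-/

set_option autoImplicit false
set_option linter.unusedSectionVars false

open Finset MeasureTheory
open scoped ENNReal NNReal
open Pool.Agent.Lib.Pf720ae.Poly (b1 ee)
open Pool.Agent.Lib.Pf720ae (avg box NS lintegral_NS_sq ofReal_avg_le_NS)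

namespace Pool.Agent.Lib.Pf720mp

variable {I : Type} [Fintype I] [DecidableEq I] {L : ℕ} [NeZero L] {J : Type}

private lemma chi_single (a : I → ZMod L) (γ : I) (k : ℕ) :
    chi a (Pi.single γ ((k : ℕ) : ZMod L)) = ee ((k : ℝ) * fq a γ) := by
  have h1 : (∑ e, a e * (Pi.single γ ((k : ℕ) : ZMod L) : I → ZMod L) e) =
      ((((a γ).val * k : ℕ) : ℤ) : ZMod L) := by
    rw [Finset.sum_eq_single γ]
    · rw [Pi.single_eq_same]
      push_cast
      rw [ZMod.natCast_zmod_val]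
    · intro b _ hb
      rw [Pi.single_eq_of_ne hb, mul_zero]
    · intro h
      exact absurd (Finset.mem_univ _) h
  unfold chi
  rw [h1, ZMod.stdAddChar_coe]
  unfold Pool.Agent.Lib.Pf720ae.Poly.ee fq
  congr 1
  have hL : (L : ℂ) ≠ 0 := Nat.cast_ne_zero.2 (NeZero.ne L)
  push_cast
  field_simp

private lemma op_b1 (γ : I) (Q M : ℕ) (m : (I → ZMod L) → ℂ) (F : (I → ZMod L) → ℂ)
    (x : I → ZMod L) :
    op (fun a => b1 Q M (fq a γ) * m a) F x =
      (M : ℂ)⁻¹ * ∑ n ∈ range M, op m F (x + Pi.single γ ((Q * n : ℕ) : ZMod L)) := by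
  rw [← op_op]
  have h1 : (fun a : I → ZMod L => b1 Q M (fq a γ)) =
      fun a => (M : ℂ)⁻¹ * ∑ n ∈ range M, chi a (Pi.single γ ((Q * n : ℕ) : ZMod L)) := by
    funext a
    unfold Pool.Agent.Lib.Pf720ae.Poly.b1
    congr 1
    refine Finset.sum_congr rfl fun n _ => ?_
    rw [chi_single]
    push_cast
    rfl
  rw [h1, op_smul, op_sum]
  congr 1
  refine Finset.sum_congr rfl fun n _ => ?_
  exact op_chi _ _ x

private lemma count_mp (v : I → ZMod L) :
    letI : MeasurableSpace (I → ZMod L) := ⊤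
    MeasurePreserving (fun x : I → ZMod L => x + v) Measure.count Measure.count := by
  letI : MeasurableSpace (I → ZMod L) := ⊤
  refine ⟨measurable_from_top, ?_⟩
  refine Measure.ext fun s hs => ?_
  rw [Measure.map_apply measurable_from_top hs]
  have h1 : (fun x : I → ZMod L => x + v) ⁻¹' s = (fun x => x - v) '' s := by
    ext x
    constructor
    · intro hx
      exact ⟨x + v, hx, by simp⟩
    · rintro ⟨y, hy, rfl⟩
      simpa using hy
  rw [h1, Measure.count_injective_image (sub_left_injective (b := v))]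

/-- Hardy-Littlewood in the direction `γ` with step `Q` -/
private lemma hl_dir (γ : I) (Q : ℕ) (g : (I → ZMod L) → ℝ) (hg : ∀ x, 0 ≤ g x)
    (N : (I → ZMod L) → ℕ) (hN : ∀ x, 0 < N x) :
    ∑ x, ((N x : ℝ)⁻¹ * ∑ n ∈ range (N x), g (x + Pi.single γ ((Q * n : ℕ) : ZMod L))) ^ 2 ≤
      4 * ∑ x, g x ^ 2 := by
  letI : MeasurableSpace (I → ZMod L) := ⊤
  haveI : MeasurableSingletonClass (I → ZMod L) := ⟨fun _ => trivial⟩
  set μ : Measure (I → ZMod L) := Measure.count with hμ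
  haveI : IsFiniteMeasure μ := by rw [hμ]; infer_instance
  set U : (Unit → ℕ) → (I → ZMod L) → (I → ZMod L) :=
    fun m x => x + Pi.single γ ((Q * m () : ℕ) : ZMod L) with hU
  have hU0 : ∀ x, U 0 x = x := by
    intro x
    simp [hU]
  have hUadd : ∀ m n x, U (m + n) x = U m (U n x) := by
    intro m n x
    simp only [hU, Pi.add_apply]
    rw [mul_add, Nat.cast_add, Pi.single_add]
    abel
  have hUmp : ∀ m, MeasurePreserving (U m) μ μ := fun m => count_mp _
  have h1 := lintegral_NS_sq hU0 hUadd hUmp (g := fun x => ENNReal.ofReal (g x))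
    (measurable_from_top)
  rw [Fintype.card_unit, pow_one] at h1
  set R : (I → ZMod L) → ℝ := fun x =>
    (N x : ℝ)⁻¹ * ∑ n ∈ range (N x), g (x + Pi.single γ ((Q * n : ℕ) : ZMod L)) with hR
  have hR0 : ∀ x, 0 ≤ R x := fun x =>
    mul_nonneg (inv_nonneg.2 (Nat.cast_nonneg _)) (Finset.sum_nonneg fun _ _ => hg _)
  have h2 : ∀ x, ENNReal.ofReal (R x ^ 2) ≤ (NS U (fun x => ENNReal.ofReal (g x)) x) ^ 2 := by
    intro x
    rw [ENNReal.ofReal_pow (hR0 x)]
    refine pow_le_pow_left' ?_ 2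
    have h3 := ofReal_avg_le_NS (U := U) (M := fun _ : Unit => N x) (fun _ => hN x) g hg x
    refine le_trans (ENNReal.ofReal_le_ofReal (le_of_eq ?_)) h3
    unfold Pool.Agent.Lib.Pf720ae.avg Pool.Agent.Lib.Pf720ae.box
    rw [hR]
    simp only [Finset.univ_unique, Finset.prod_singleton]
    congr 1
    refine Finset.sum_bij' (fun n _ => fun _ : Unit => n) (fun m _ => m ()) ?_ ?_ ?_ ?_ ?_
    · intro n hn
      rw [Fintype.mem_piFinset]
      exact fun _ => hn
    · intro m hm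
      exact Fintype.mem_piFinset.1 hm ()
    · intro n _
      rfl
    · intro m _
      rfl
    · intro n _
      rfl
  have h4 : ∑ x, ENNReal.ofReal (R x ^ 2) ≤ 4 * ∑ x, ENNReal.ofReal (g x ^ 2) := by
    rw [lintegral_fintype, lintegral_fintype] at h1
    simp only [hμ, Measure.count_singleton, mul_one] at h1
    refine (Finset.sum_le_sum fun x _ => h2 x).trans (h1.trans (le_of_eq ?_))
    congr 1
    exact Finset.sum_congr rfl fun x _ => (ENNReal.ofReal_pow (hg x) 2).symm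
  rw [← ENNReal.ofReal_sum_of_nonneg fun x _ => sq_nonneg _,
    ← ENNReal.ofReal_sum_of_nonneg fun x _ => sq_nonneg _] at h4
  have h5 : (4 : ℝ≥0∞) = ENNReal.ofReal 4 := by norm_num
  rw [h5, ← ENNReal.ofReal_mul (by norm_num)] at h4
  exact (ENNReal.ofReal_le_ofReal_iff
    (mul_nonneg (by norm_num) (Finset.sum_nonneg fun x _ => sq_nonneg _))).1 h4

theorem hl_fam {S : Set J} {Y : J → (I → ZMod L) → ℂ} {B : ℝ} (hB : 0 ≤ B) (hY : MxLe S Y B)
    (γ : I) (Q : ℕ) (M : J → ℕ) (hM : ∀ j ∈ S, 0 < M j) :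
    MxLe S (fun j a => b1 Q (M j) (fq a γ) * Y j a) (2 * B) := by
  classical
  intro F j hj
  have hjT : ∀ x, j x ∈ Finset.univ.image j := fun x => Finset.mem_image_of_mem j (Finset.mem_univ x)
  have hTne : (Finset.univ.image j).Nonempty := Finset.Nonempty.image Finset.univ_nonempty _
  have hmax : ∀ y : I → ZMod L, ∃ i ∈ Finset.univ.image j,
      ∀ i' ∈ Finset.univ.image j, ‖op (Y i') F y‖ ≤ ‖op (Y i) F y‖ :=
    fun y => Finset.exists_max_image (Finset.univ.image j) (fun i => ‖op (Y i) F y‖) hTne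
  choose i hi1 hi2 using hmax
  have hiS : ∀ y, i y ∈ S := by
    intro y
    obtain ⟨x, _, hx⟩ := Finset.mem_image.1 (hi1 y)
    rw [← hx]
    exact hj x
  have h1 := hY F i hiS
  obtain ⟨g, hg⟩ : ∃ g : (I → ZMod L) → ℝ, ∀ y, g y = ‖op (Y (i y)) F y‖ := ⟨_, fun _ => rfl⟩
  have hg0 : ∀ y, 0 ≤ g y := fun y => by rw [hg]; exact norm_nonneg _
  have h1' : ∑ y, g y ^ 2 ≤ B ^ 2 * nn F := by
    refine le_trans (le_of_eq (Finset.sum_congr rfl fun y _ => ?_)) h1
    rw [hg]
  have hlej : ∀ x y, ‖op (Y (j x)) F y‖ ≤ g y := fun x y => by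
    rw [hg]
    exact hi2 y (j x) (hjT x)
  have h2 := hl_dir γ Q g hg0 (fun x => M (j x)) (fun x => hM _ (hj x))
  have h3 : ∀ x, ‖op (fun a => b1 Q (M (j x)) (fq a γ) * Y (j x) a) F x‖ ≤
      ((M (j x) : ℕ) : ℝ)⁻¹ * ∑ n ∈ range (M (j x)),
        g (x + Pi.single γ ((Q * n : ℕ) : ZMod L)) := by
    intro x
    rw [op_b1, norm_mul, norm_inv, Complex.norm_natCast]
    refine mul_le_mul_of_nonneg_left ?_ (inv_nonneg.2 (Nat.cast_nonneg _))
    exact (norm_sum_le _ _).trans (Finset.sum_le_sum fun n _ => hlej x _)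
  have h4 : ∑ x, ‖op (fun a => b1 Q (M (j x)) (fq a γ) * Y (j x) a) F x‖ ^ 2 ≤
      4 * ∑ x, g x ^ 2 :=
    (Finset.sum_le_sum fun x _ => pow_le_pow_left₀ (norm_nonneg _) (h3 x) 2).trans h2
  have h5 : 4 * ∑ x, g x ^ 2 ≤ (2 * B) ^ 2 * nn F := by
    nlinarith
  exact h4.trans h5

end Pool.Agent.Lib.Pf720mp
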