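import Pool.Agent.Lib.Pf720mp.RmA
import Pool.Agent.Lib.Pf720mp.RmB
import Pool.Agent.Lib.Pf720mp.MxB
import Pool.Agent.Lib.Pf720mp.Rat

/-!
# Multiplication by rational cutoffs costs a factor `O(T)`

Let `Q = (2 ^ T)!`, so that `Q ≤ (2 ^ T) ^ (2 ^ T) = 2 ^ (T 2 ^ T)`, and `r = 2 T + 3`,
`R = 4 T + 2 ^ r - 1`; note `4 T + T 2 ^ T + 2 ≤ R` hence `4 Q ≤ 2 ^ R`. Split
`S = {j ∈ S | τ j < 4 T + 2 ^ r} ∪ {j ∈ S | 4 T + 2 ^ r ≤ τ j}` (`mx_union`).

Small scales: `rm_fam` with `E n a = XX T (4 T + n) (fq a γ)`, `σ j = τ j - 4 T`; the bound is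
`(2 T + 4) B ≤ 6 T B`.

Large scales: put `M j = 2 ^ τ j / Q + 1`, so `2 ^ τ j ≤ M j * Q ≤ 2 * 2 ^ τ j`. Then
`XX T (τ j) x = XX T R x * b1 Q (M j) x + XX T R x * (XX T (τ j) x - b1 Q (M j) x)` because
`XX T (τ j) x = 1` implies `XX T R x = 1` (`XX_anti`).
First term: `hl_fam` (factor 2) then `mx_mul` with the fixed multiplier `XX T R (fq a γ)`.
Second term: the family `Z j a = XX T R x * (XX T (τ j) x - b1 Q (M j) x)`, `x = fq a γ`, only depends
on `n = τ j`; if `XX T R x = 1` then with `β = nr T x`, `η = x - β`, `|η| ≤ 2 ^ (-R)`, one has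
`b1 Q M x = b1 Q M η` (as `Q β` is an integer) and `Q |η| ≤ 1/2`, so by `Poly.b1_near`
`|b1 - 1| ≤ 2 π M Q |η| ≤ 4 π 2 ^ n |η|` and by `Poly.b1_decay` `|b1| ≤ 1 / (2 * 2 ^ n |η|)`; and
`XX T n x = 1` iff `2 ^ n |η| ≤ 1` (`XX_eq`). Hence `∑_n ‖Z_n a‖² ≤ (4 π)² * 4/3 + 4/3 + ... ≤ 300`
for every `a`, for the sum over all `n` in a finite set. Then for the product with `Y j`:
`op (Z_n * Y j) F = op (Y j) (op Z_n F)`, and
`∑_x ‖op (Z_{τ (j x)} Y (j x)) F x‖² ≤ ∑_n ∑_x ‖op (Y (j x)) (op Z_n F) x‖² ≤ ∑_n B² nn (op Z_n F)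
≤ 300 B² nn F` (sum over the finite set of values `n` of `τ (j x)`, `sum_nn_op_le`).
-/

set_option autoImplicit false
set_option linter.unusedSectionVars false

open Finset

namespace Pool.Agent.Lib.Pf720mp

open Pool.Agent.Lib.Pf720ae.Poly (b1 b1_near b1_decay ee_add_int)

namespace RmCAux

/-! ### dyadic sums -/

lemma geo (n : ℕ) : ∑ k ∈ range n, ((1 : ℝ) / 4) ^ k ≤ 4 / 3 - 4 / 3 * (1 / 4) ^ n := by
  induction n with
  | zero => simp
  | succ n ih =>
    rw [Finset.sum_range_succ, pow_succ]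
    linarith

lemma geo' (n : ℕ) : ∑ k ∈ range n, ((1 : ℝ) / 4) ^ k ≤ 4 / 3 := by
  have h1 := geo n
  have h2 : (0 : ℝ) ≤ (1 / 4) ^ n := by positivity
  linarith

/-- sums over dyadic scales of a function that decays on both sides of the scale `y⁻¹` -/
lemma dyadic {y : ℝ} (hy0 : 0 < y) (f : ℕ → ℝ) {A : ℝ} (hA : 0 ≤ A)
    (h1 : ∀ n, 2 ^ n * y ≤ 1 → f n ≤ A * (2 ^ n * y) ^ 2)
    (h2 : ∀ n, 1 < 2 ^ n * y → f n ≤ A * (1 / (2 ^ n * y)) ^ 2) (s : Finset ℕ)
    (hf : ∀ n, 0 ≤ f n) : ∑ n ∈ s, f n ≤ A * (8 / 3) := by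
  classical
  have hex : ∃ n : ℕ, 1 < 2 ^ n * y := by
    obtain ⟨n, hn⟩ := pow_unbounded_of_one_lt (1 / y) (by norm_num : (1 : ℝ) < 2)
    refine ⟨n, ?_⟩
    rwa [div_lt_iff₀ hy0] at hn
  set n1 := Nat.find hex with hn1
  have hs1 : 1 < 2 ^ n1 * y := Nat.find_spec hex
  have hs2 : ∀ n < n1, 2 ^ n * y ≤ 1 := fun n hn => not_lt.1 (Nat.find_min hex hn)
  obtain ⟨N, hN⟩ : ∃ N, s ⊆ range N := by
    refine ⟨s.sup id + 1, fun n hn => ?_⟩
    rw [Finset.mem_range]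
    exact Nat.lt_succ_of_le (Finset.le_sup (f := id) hn)
  have hsub : s ⊆ range (n1 + N) := fun n hn => by
    have := Finset.mem_range.1 (hN hn)
    rw [Finset.mem_range]; omega
  calc ∑ n ∈ s, f n ≤ ∑ n ∈ range (n1 + N), f n :=
        Finset.sum_le_sum_of_subset_of_nonneg hsub (fun n _ _ => hf n)
    _ = ∑ n ∈ range n1, f n + ∑ n ∈ range N, f (n1 + n) := Finset.sum_range_add f n1 N
    _ ≤ ∑ n ∈ range n1, A * (1 / 4) ^ (n1 - 1 - n) + ∑ n ∈ range N, A * (1 / 4) ^ n := by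
        apply add_le_add
        · apply Finset.sum_le_sum
          intro n hn
          rw [Finset.mem_range] at hn
          refine (h1 n (hs2 n hn)).trans (mul_le_mul_of_nonneg_left ?_ hA)
          have h3 := hs2 (n1 - 1) (by omega)
          have h4 : (2 : ℝ) ^ (n1 - 1) = 2 ^ n * 2 ^ (n1 - 1 - n) := by
            rw [← pow_add]; congr 1; omega
          rw [h4] at h3
          have h5 : (2 : ℝ) ^ n * y ≤ (1 / 2) ^ (n1 - 1 - n) := by
            rw [one_div, inv_pow, ← one_div, le_div_iff₀ (by positivity)]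
            linarith
          calc ((2 : ℝ) ^ n * y) ^ 2 ≤ ((1 / 2) ^ (n1 - 1 - n)) ^ 2 :=
                pow_le_pow_left₀ (by positivity) h5 2
            _ = (1 / 4) ^ (n1 - 1 - n) := by
                rw [← pow_mul, mul_comm, pow_mul]; norm_num
        · apply Finset.sum_le_sum
          intro n _
          have h3 : (2 : ℝ) ^ n ≤ 2 ^ (n1 + n) * y := by
            rw [pow_add]
            have : (0 : ℝ) < 2 ^ n := by positivity
            nlinarith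
          have h3' : 1 < (2 : ℝ) ^ (n1 + n) * y := by
            have h6 : (1 : ℝ) ≤ 2 ^ n := one_le_pow₀ (by norm_num)
            have h7 : (2 : ℝ) ^ (n1 + n) * y = 2 ^ n * (2 ^ n1 * y) := by rw [pow_add]; ring
            rw [h7]
            nlinarith
          refine (h2 (n1 + n) h3').trans (mul_le_mul_of_nonneg_left ?_ hA)
          calc (1 / ((2 : ℝ) ^ (n1 + n) * y)) ^ 2 ≤ (1 / 2 ^ n) ^ 2 := by
                apply pow_le_pow_left₀ (by positivity)
                exact one_div_le_one_div_of_le (by positivity) h3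
            _ = (1 / 4) ^ n := by
                rw [one_div, ← inv_pow, ← pow_mul, mul_comm, pow_mul]; norm_num
    _ ≤ A * (4 / 3) + A * (4 / 3) := by
        rw [← Finset.mul_sum, ← Finset.mul_sum]
        have h3 : ∑ n ∈ range n1, ((1 : ℝ) / 4) ^ (n1 - 1 - n) = ∑ n ∈ range n1, (1 / 4) ^ n :=
          Finset.sum_range_reflect (fun k => ((1 : ℝ) / 4) ^ k) n1
        rw [h3]
        exact add_le_add (mul_le_mul_of_nonneg_left (geo' _) hA)
          (mul_le_mul_of_nonneg_left (geo' _) hA)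
    _ = A * (8 / 3) := by ring

/-! ### numbers -/

lemma fact_le (T : ℕ) : (2 ^ T).factorial ≤ 2 ^ (T * 2 ^ T) := by
  rw [pow_mul]
  exact Nat.factorial_le_pow (2 ^ T)

lemma exp_le (T : ℕ) : T * 2 ^ T + 2 ≤ 4 * T + 2 ^ (2 * T + 3) - 1 := by
  have h1 : T < 2 ^ T := Nat.lt_two_pow_self
  have h2 : 2 ^ (2 * T + 3) = 8 * (2 ^ T * 2 ^ T) := by
    rw [pow_add, two_mul, pow_add]; ring
  have h3 : T * 2 ^ T ≤ 2 ^ T * 2 ^ T := Nat.mul_le_mul_right _ h1.le
  have h4 : 1 ≤ 2 ^ T * 2 ^ T := Nat.one_le_iff_ne_zero.2 (by positivity)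
  omega

lemma R_ge (T : ℕ) : 2 * T + 2 ≤ 4 * T + 2 ^ (2 * T + 3) - 1 := by
  have h : 2 ^ 3 ≤ 2 ^ (2 * T + 3) := Nat.pow_le_pow_right (by norm_num) (by omega)
  omega

lemma MQ_lower {Q n : ℕ} (hQ : 0 < Q) : (2 : ℝ) ^ n ≤ ((2 ^ n / Q + 1 : ℕ) : ℝ) * Q := by
  have h : 2 ^ n ≤ (2 ^ n / Q + 1) * Q := by
    have h1 := Nat.div_add_mod (2 ^ n) Q
    have h2 := Nat.mod_lt (2 ^ n) hQ
    nlinarith
  exact_mod_cast h

lemma MQ_upper {Q n : ℕ} (hQn : Q ≤ 2 ^ n) :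
    ((2 ^ n / Q + 1 : ℕ) : ℝ) * Q ≤ 2 * 2 ^ n := by
  have h : (2 ^ n / Q + 1) * Q ≤ 2 * 2 ^ n := by
    have h1 := Nat.div_mul_le_self (2 ^ n) Q
    rw [add_mul, one_mul]
    omega
  exact_mod_cast h

/-- the multiplier `b1` near a rational number of small height -/
lemma b1_shift {T : ℕ} {β : ℚ} (hβ : β.den ≤ 2 ^ T) (M : ℕ) (x : ℝ) :
    b1 (2 ^ T).factorial M x = b1 (2 ^ T).factorial M (x - β) := by
  obtain ⟨c, hc⟩ := Nat.dvd_factorial β.den_pos hβ
  have h1 : (((2 ^ T).factorial : ℕ) : ℝ) * (β : ℝ) = ((β.num * c : ℤ) : ℝ) := by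
    rw [hc]
    have h2 : (β : ℝ) * β.den = β.num := by
      have := Rat.mul_den_eq_num β
      exact_mod_cast this
    push_cast
    calc (β.den : ℝ) * c * β = (β * β.den) * c := by ring
      _ = _ := by rw [h2]
  unfold b1
  congr 1
  apply Finset.sum_congr rfl
  intro m _
  have h3 : (((2 ^ T).factorial : ℕ) : ℝ) * m * x =
      (((2 ^ T).factorial : ℕ) : ℝ) * m * (x - β) + ((m * (β.num * c) : ℤ) : ℝ) := by
    have h4 : ((m * (β.num * c) : ℤ) : ℝ) = m * ((β.num * c : ℤ) : ℝ) := by push_cast; ring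
    rw [h4, ← h1]; ring
  rw [h3, ee_add_int]

/-- the square function of the differences -/
lemma sq_le (T : ℕ) (x : ℝ) (s : Finset ℕ) {thr R Q : ℕ} (hthr : thr = 4 * T + 2 ^ (2 * T + 3))
    (hR : R = thr - 1) (hQ : Q = (2 ^ T).factorial)
    (hs : ∀ n ∈ s, thr ≤ n) :
    ∑ n ∈ s, ‖XX T R x * (XX T n x - b1 Q (2 ^ n / Q + 1) x)‖ ^ 2 ≤ (22 : ℝ) ^ 2 := by
  have hR' : R = 4 * T + 2 ^ (2 * T + 3) - 1 := by rw [hR, hthr]
  have hQ0 : 0 < Q := by rw [hQ]; exact Nat.factorial_pos _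
  have hQR : Q ≤ 2 ^ (T * 2 ^ T) := by rw [hQ]; exact fact_le T
  have hRe : T * 2 ^ T + 2 ≤ R := by rw [hR']; exact exp_le T
  have hR2 : 2 * T + 2 ≤ R := by rw [hR']; exact R_ge T
  by_cases h0 : XX T R x = 0
  · simp [h0]
  obtain ⟨β, hβ, hx⟩ := exists_of_XX h0
  have h1 : XX T R x = 1 := (XX_zero_or_one T R x).resolve_left h0
  have hη : |x - β| < (1 / 2) ^ (2 * T + 1) :=
    lt_of_le_of_lt hx (pow_lt_pow_right_of_lt_one₀ (by norm_num) (by norm_num) (by omega))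
  have hnear : Near T x := ⟨β, hβ, hη⟩
  have hnr : nr T x = β := nr_eq hβ hη
  have hXX : ∀ n, R ≤ n → XX T n x = if |x - β| ≤ (1 / 2) ^ n then 1 else 0 := by
    intro n hn
    rw [XX_eq (by omega) x, hnr]
    simp [hnear]
  have hQη : (Q : ℝ) * |x - β| ≤ 1 / 2 := by
    have h3 : (Q : ℝ) ≤ 2 ^ (T * 2 ^ T) := by exact_mod_cast hQR
    have h4 : (1 / 2 : ℝ) ^ R ≤ (1 / 2) ^ (T * 2 ^ T + 1) :=
      pow_le_pow_of_le_one (by norm_num) (by norm_num) (by omega)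
    calc (Q : ℝ) * |x - β| ≤ 2 ^ (T * 2 ^ T) * (1 / 2) ^ (T * 2 ^ T + 1) :=
          mul_le_mul h3 (hx.trans h4) (abs_nonneg _) (by positivity)
      _ = 1 / 2 := by
          rw [pow_succ, ← mul_assoc, ← mul_pow]; norm_num
  rw [h1]
  simp only [one_mul]
  have hZ : ∀ n ∈ s, ‖XX T n x - b1 Q (2 ^ n / Q + 1) x‖ ^ 2 =
      ‖(if |x - β| ≤ (1 / 2) ^ n then (1 : ℂ) else 0) - b1 Q (2 ^ n / Q + 1) (x - β)‖ ^ 2 := by
    intro n hn
    rw [hXX n (by have := hs n hn; omega), hQ, b1_shift hβ]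
  rw [Finset.sum_congr rfl hZ]
  rcases (abs_nonneg (x - β)).eq_or_lt with hz | hz
  · -- `x` is rational
    have hz' : x - β = 0 := abs_eq_zero.1 hz.symm
    have h5 : ∀ n ∈ s, ‖(if |x - β| ≤ (1 / 2) ^ n then (1 : ℂ) else 0) -
        b1 Q (2 ^ n / Q + 1) (x - β)‖ ^ 2 = 0 := by
      intro n _
      have h6 := b1_near (Q := Q) (M := 2 ^ n / Q + 1) (Nat.succ_pos _) (x - β)
      rw [← hz, mul_zero, mul_zero] at h6
      have h7 : b1 Q (2 ^ n / Q + 1) (x - β) = 1 := by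
        have := norm_le_zero_iff.1 h6
        linear_combination this
      rw [h7, if_pos (by rw [← hz]; positivity)]
      simp
    rw [Finset.sum_congr rfl h5]
    simp
  have hpi : Real.pi ≤ 3.15 := by
    have := Real.pi_lt_d2
    linarith
  have hpi0 := Real.pi_pos
  have hpow : ∀ n : ℕ, |x - β| ≤ (1 / 2) ^ n ↔ 2 ^ n * |x - β| ≤ 1 := by
    intro n
    rw [one_div, inv_pow, ← one_div, le_div_iff₀ (by positivity), mul_comm]
  -- the function on the scales in `s`, zero elsewhere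
  have hmain : ∑ n ∈ s, (if R ≤ n then ‖(if |x - β| ≤ (1 / 2) ^ n then (1 : ℂ) else 0) -
      b1 Q (2 ^ n / Q + 1) (x - β)‖ ^ 2 else 0) ≤ 160 * (8 / 3) := by
    refine dyadic hz _ (by norm_num) ?_ ?_ s ?_
    · intro n hn
      split_ifs with hRn
      · rw [norm_sub_rev]
        have h6 := b1_near (Q := Q) (M := 2 ^ n / Q + 1) (Nat.succ_pos _) (x - β)
        have hQn : Q ≤ 2 ^ n := hQR.trans (Nat.pow_le_pow_right (by norm_num) (by omega))
        have h7 := MQ_upper hQn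
        have h8 : ‖b1 Q (2 ^ n / Q + 1) (x - β) - 1‖ ≤ 4 * Real.pi * (2 ^ n * |x - β|) := by
          refine h6.trans ?_
          have h9 := mul_le_mul_of_nonneg_right h7 hz.le
          have h10 : (0:ℝ) ≤ 2 * Real.pi := by positivity
          have h11 := mul_le_mul_of_nonneg_left h9 h10
          linarith
        have h12 : 4 * Real.pi * (2 ^ n * |x - β|) ≤ 12.6 * (2 ^ n * |x - β|) :=
          mul_le_mul_of_nonneg_right (by linarith) (by positivity)
        calc ‖b1 Q (2 ^ n / Q + 1) (x - β) - 1‖ ^ 2 ≤ (12.6 * (2 ^ n * |x - β|)) ^ 2 :=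
              pow_le_pow_left₀ (norm_nonneg _) (h8.trans h12) 2
          _ = 12.6 ^ 2 * (2 ^ n * |x - β|) ^ 2 := by ring
          _ ≤ 160 * (2 ^ n * |x - β|) ^ 2 :=
              mul_le_mul_of_nonneg_right (by norm_num) (by positivity)
      · rename_i hc
        exact absurd ((hpow n).2 hn) hc
      · positivity
    · intro n hn
      split_ifs with hRn hc
      · exact absurd ((hpow n).1 hc) (not_le.2 hn)
      · rw [zero_sub, norm_neg]
        have h6 := b1_decay (Q := Q) (M := 2 ^ n / Q + 1) (β := x - β) (Nat.succ_pos _) hQη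
        have h7 := MQ_lower (n := n) hQ0
        have h8 : ‖b1 Q (2 ^ n / Q + 1) (x - β)‖ * (2 ^ n * |x - β|) ≤ 1 := by
          refine le_trans (mul_le_mul_of_nonneg_left ?_ (norm_nonneg _)) h6
          have h9 := mul_le_mul_of_nonneg_right h7 hz.le
          have h10 : 0 ≤ (2:ℝ) ^ n * |x - β| := by positivity
          linarith
        have h11 : ‖b1 Q (2 ^ n / Q + 1) (x - β)‖ ≤ 1 / (2 ^ n * |x - β|) := by
          rw [le_div_iff₀ (by positivity)]; exact h8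
        calc ‖b1 Q (2 ^ n / Q + 1) (x - β)‖ ^ 2 ≤ (1 / (2 ^ n * |x - β|)) ^ 2 :=
              pow_le_pow_left₀ (norm_nonneg _) h11 2
          _ ≤ 160 * (1 / (2 ^ n * |x - β|)) ^ 2 := by
              have : 0 ≤ (1 / ((2:ℝ) ^ n * |x - β|)) ^ 2 := by positivity
              linarith
      · positivity
    · intro n
      split_ifs <;> positivity
  refine le_trans (le_of_eq ?_) (hmain.trans (by norm_num))
  apply Finset.sum_congr rfl
  intro n hn
  have hRn : R ≤ n := by have := hs n hn; omega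
  rw [if_pos hRn]

variable {I : Type} [Fintype I] [DecidableEq I] {L : ℕ} [NeZero L] {J : Type}

/-- multiplication by a family with a bounded square function -/
lemma mx_sqfam {S : Set J} {Y : J → (I → ZMod L) → ℂ} {B A : ℝ} (hY : MxLe S Y B)
    (P : ℕ → Prop) (Z : ℕ → (I → ZMod L) → ℂ) (τ : J → ℕ)
    (hZ : ∀ s : Finset ℕ, (∀ n ∈ s, P n) → ∀ a, ∑ n ∈ s, ‖Z n a‖ ^ 2 ≤ A ^ 2)
    (hτ : ∀ j ∈ S, P (τ j)) : MxLe S (fun j a => Z (τ j) a * Y j a) (A * B) := by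
  classical
  intro F j hj
  set s : Finset ℕ := univ.image (fun x => τ (j x)) with hs
  have h1 : ∀ x, ‖op (fun a => Z (τ (j x)) a * Y (j x) a) F x‖ ^ 2 ≤
      ∑ n ∈ s, ‖op (Y (j x)) (op (Z n) F) x‖ ^ 2 := by
    intro x
    have h2 : op (fun a => Z (τ (j x)) a * Y (j x) a) F = op (Y (j x)) (op (Z (τ (j x))) F) := by
      rw [op_op]
      congr 1
      funext a
      ring
    rw [h2]
    exact Finset.single_le_sum (f := fun n => ‖op (Y (j x)) (op (Z n) F) x‖ ^ 2)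
      (fun _ _ => sq_nonneg _) (Finset.mem_image_of_mem _ (Finset.mem_univ x))
  calc ∑ x, ‖op (fun a => Z (τ (j x)) a * Y (j x) a) F x‖ ^ 2
      ≤ ∑ x, ∑ n ∈ s, ‖op (Y (j x)) (op (Z n) F) x‖ ^ 2 := Finset.sum_le_sum (fun x _ => h1 x)
    _ = ∑ n ∈ s, ∑ x, ‖op (Y (j x)) (op (Z n) F) x‖ ^ 2 := Finset.sum_comm
    _ ≤ ∑ n ∈ s, B ^ 2 * nn (op (Z n) F) := Finset.sum_le_sum (fun n _ => hY _ j hj)
    _ = B ^ 2 * ∑ n ∈ s, nn (op (Z n) F) := by rw [Finset.mul_sum]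
    _ ≤ B ^ 2 * (A ^ 2 * nn F) := by
        apply mul_le_mul_of_nonneg_left _ (sq_nonneg _)
        apply sum_nn_op_le
        apply hZ
        intro n hn
        obtain ⟨x, _, rfl⟩ := Finset.mem_image.1 hn
        exact hτ _ (hj x)
    _ = (A * B) ^ 2 * nn F := by ring

end RmCAux

theorem rm_prop : ∃ C : ℝ, 0 ≤ C ∧ ∀ (I : Type) [Fintype I] [DecidableEq I] (L : ℕ) [NeZero L]
    (J : Type) (S : Set J) (Y : J → (I → ZMod L) → ℂ) (B : ℝ), 0 ≤ B → MxLe S Y B →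
    ∀ (γ : I) (T : ℕ), 1 ≤ T → ∀ τ : J → ℕ, (∀ j ∈ S, 4 * T ≤ τ j) →
      MxLe S (fun j a => XX T (τ j) (fq a γ) * Y j a) (C * T * B) := by
  refine ⟨30, by norm_num, ?_⟩
  intro I _ _ L _ J S Y B hB hY γ T hT τ hτ
  have hT' : (1 : ℝ) ≤ T := by exact_mod_cast hT
  obtain ⟨thr, hthr⟩ : ∃ thr, thr = 4 * T + 2 ^ (2 * T + 3) := ⟨_, rfl⟩
  obtain ⟨Q, hQ⟩ : ∃ Q, Q = (2 ^ T).factorial := ⟨_, rfl⟩
  -- small scales
  have hsmall : MxLe {j | j ∈ S ∧ τ j < thr} (fun j a => XX T (τ j) (fq a γ) * Y j a)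
      (6 * T * B) := by
    have h1 := rm_fam hB (mx_subset hY (fun j (hj : j ∈ {j | j ∈ S ∧ τ j < thr}) => hj.1))
      (fun n a => XX T (4 * T + n) (fq a γ)) (fun n a => XX_zero_or_one _ _ _)
      (fun n a h => XX_anti (by omega) h) (2 * T + 3) (fun j => τ j - 4 * T)
      (fun j hj => by
        have h2 := hj.2
        have h3 : τ j < thr := h2
        have h4 : 0 < 2 ^ (2 * T + 3) := by positivity
        show τ j - 4 * T < 2 ^ (2 * T + 3)
        omega)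
    refine mx_mono (mx_congr h1 ?_) (by positivity) ?_
    · intro j hj a
      have h2 : 4 * T + (τ j - 4 * T) = τ j := by
        have := hτ j hj.1
        omega
      rw [h2]
    · push_cast
      have h5 : (2 * (T : ℝ) + 3 + 1) ≤ 6 * T := by linarith
      exact mul_le_mul_of_nonneg_right h5 hB
  -- large scales
  have hlarge : MxLe {j | j ∈ S ∧ thr ≤ τ j} (fun j a => XX T (τ j) (fq a γ) * Y j a)
      (24 * B) := by
    have hY' : MxLe {j | j ∈ S ∧ thr ≤ τ j} Y B :=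
      mx_subset hY (fun j (hj : j ∈ {j | j ∈ S ∧ thr ≤ τ j}) => hj.1)
    have h1 := hl_fam hB hY' γ Q (fun j => 2 ^ τ j / Q + 1) (fun j _ => Nat.succ_pos _)
    have h2 := mx_mul h1 (by positivity) (n := fun a => XX T (thr - 1) (fq a γ)) (A := 1)
      (by norm_num) (fun a => norm_XX_le _ _ _)
    have h3 := RmCAux.mx_sqfam (A := 22) hY' (fun n => thr ≤ n)
      (fun n a => XX T (thr - 1) (fq a γ) * (XX T n (fq a γ) -
        b1 Q (2 ^ n / Q + 1) (fq a γ))) τ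
      (fun s hs a => RmCAux.sq_le T (fq a γ) s hthr rfl hQ hs) (fun j hj => hj.2)
    have h4 := mx_add h2 h3 (by positivity) (by positivity)
    refine mx_mono (mx_congr h4 ?_) (by positivity) (by linarith)
    intro j hj a
    have h5 : XX T (thr - 1) (fq a γ) * XX T (τ j) (fq a γ) = XX T (τ j) (fq a γ) := by
      rcases XX_zero_or_one T (τ j) (fq a γ) with h | h
      · rw [h, mul_zero]
      · have h6 : XX T (thr - 1) (fq a γ) = 1 := XX_anti (by have := hj.2; have h7 : thr ≤ τ j := this; omega) h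
        rw [h6, one_mul]
    linear_combination (-Y j a) * h5
  refine mx_mono (mx_subset (mx_union hsmall hlarge (by positivity) (by positivity)) ?_)
    (by positivity) ?_
  · intro j hj
    rcases lt_or_ge (τ j) thr with h | h
    · exact Or.inl ⟨hj, h⟩
    · exact Or.inr ⟨hj, h⟩
  · nlinarith [mul_nonneg (by linarith : (0:ℝ) ≤ T - 1) hB]

end Pool.Agent.Lib.Pf720mp
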