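import Pool.Agent.Lib.Pf720mp.CoreA
import Pool.Agent.Lib.Pf720mp.RmC

/-!
# Maximal bound for structured families

Induction on `U.card`, for all `W` disjoint from `U` (`U = ∅`: `core_sq`). Let `γ ∈ U`,
`U' = U.erase γ`. Write `𝔉 = 𝔉₁ + 𝔉₂`, `𝔉₂ a u = if |u γ| ≤ 1 then 𝔉 a (update u γ 0) else 0`.

* `𝔉₁` satisfies the hypotheses for `(U', insert γ W)` with `2 A` instead of `A`: for `γ` itself,
  `‖𝔉₁ a u‖ ≤ A 4 ^ T |u γ|` if `|u γ| ≤ 1` by the Lipschitz hypothesis, and `≤ A ≤ A 4 ^ T |u γ|`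
  otherwise; for `γ' ∈ U'` the differences are bounded by `2 A 4 ^ T |u γ'|` (`update_comm`), for
  `γ' ∈ W` as well; the support condition for `γ` uses `1 < 2 ^ T`. Note
  `insert γ W ∪ U' = U ∪ W` and the cardinality is the same.
* The family of `𝔉₂` is `XX T (τ γ) (fq a γ) * m⁰ τ a` (`XX_eq`, `2 ^ τ |η| ≤ 1` iff
  `|η| ≤ (1/2) ^ τ`), where `m⁰` is the family of
  `𝔉⁰ a u = if Near T (fq a γ) then 𝔉 a (update u γ 0) else 0` for `(U', W)`, to which the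
  induction hypothesis applies (bound `C T ^ (card (U' ∪ W)) A`); `rm_prop` (with `τ ↦ τ γ`,
  `4 T ≤ 6 T`) costs a factor `C T`, and `card (U ∪ W) = card (U' ∪ W) + 1`. The index set of
  the induction hypothesis is larger (`mx_subset`).
-/

set_option autoImplicit false
set_option linter.unusedSectionVars false

open Finset

namespace Pool.Agent.Lib.Pf720mp

variable {I : Type} [Fintype I] [DecidableEq I]

namespace CoreBAux

/-- the hypotheses on the structured family -/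
structure Hyp (U W V : Finset I) {L : ℕ} (T : ℕ) (A : ℝ) (𝔉 : (I → ZMod L) → (I → ℝ) → ℂ) :
    Prop where
  bd : ∀ a u, ‖𝔉 a u‖ ≤ A
  sp : ∀ a u, ∀ γ ∈ V, (2 : ℝ) ^ T < |u γ| → 𝔉 a u = 0
  dp : ∀ a u u', (∀ γ ∈ V, u γ = u' γ) → 𝔉 a u = 𝔉 a u'
  lu : ∀ a u, ∀ γ ∈ U, ‖𝔉 a u - 𝔉 a (Function.update u γ 0)‖ ≤ A * 2 ^ (2 * T) * |u γ|
  lw : ∀ a u, ∀ γ ∈ W, ‖𝔉 a u‖ ≤ A * 2 ^ (2 * T) * |u γ|

open Classical in
/-- the family of multipliers -/
noncomputable def fam (V : Finset I) {L : ℕ} (T : ℕ) (𝔉 : (I → ZMod L) → (I → ℝ) → ℂ)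
    (τ : I → ℕ) (a : I → ZMod L) : ℂ :=
  if ∀ γ ∈ V, Near T (fq a γ) then
    𝔉 a (fun γ => (2 : ℝ) ^ τ γ * (fq a γ - nr T (fq a γ))) else 0

open Classical in
/-- the part near `u γ = 0` -/
noncomputable def F2 {L : ℕ} (γ : I) (𝔉 : (I → ZMod L) → (I → ℝ) → ℂ) (a : I → ZMod L)
    (u : I → ℝ) : ℂ := if |u γ| ≤ 1 then 𝔉 a (Function.update u γ 0) else 0

open Classical in
/-- the value at `u γ = 0` -/
noncomputable def F0 {L : ℕ} (T : ℕ) (γ : I) (𝔉 : (I → ZMod L) → (I → ℝ) → ℂ)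
    (a : I → ZMod L) (u : I → ℝ) : ℂ :=
  if Near T (fq a γ) then 𝔉 a (Function.update u γ 0) else 0

theorem upd_ne {γ γ' : I} (h : γ' ≠ γ) (u : I → ℝ) : (Function.update u γ 0) γ' = u γ' :=
  Function.update_of_ne h _ _

theorem hyp_F0 {U W : Finset I} {γ : I} (hγU : γ ∉ U) (hγW : γ ∉ W) {L T : ℕ} {A : ℝ}
    (hA : 0 ≤ A) {𝔉 : (I → ZMod L) → (I → ℝ) → ℂ}
    (h : Hyp (insert γ U) W (insert γ (U ∪ W)) T A 𝔉) : Hyp U W (U ∪ W) T A (F0 T γ 𝔉) := by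
  have hne : ∀ γ' ∈ U ∪ W, γ' ≠ γ := by
    intro γ' h1 h2
    rw [h2, Finset.mem_union] at h1
    exact h1.elim hγU hγW
  refine ⟨?_, ?_, ?_, ?_, ?_⟩
  · intro a u
    unfold F0
    split_ifs
    · exact h.bd _ _
    · rw [norm_zero]; exact hA
  · intro a u γ' hγ' hu
    unfold F0
    split_ifs
    · apply h.sp _ _ γ' (Finset.mem_insert_of_mem hγ')
      rw [upd_ne (hne γ' hγ')]
      exact hu
    · rfl
  · intro a u u' hu
    unfold F0
    split_ifs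
    · apply h.dp
      intro γ' hγ'
      by_cases h1 : γ' = γ
      · rw [h1, Function.update_self, Function.update_self]
      · rw [upd_ne h1, upd_ne h1]
        exact hu γ' (Finset.mem_of_mem_insert_of_ne hγ' h1)
    · rfl
  · intro a u γ' hγ'
    have h1 : γ' ≠ γ := hne γ' (Finset.mem_union_left _ hγ')
    unfold F0
    split_ifs
    · rw [Function.update_comm h1]
      have h2 := h.lu a (Function.update u γ 0) γ' (Finset.mem_insert_of_mem hγ')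
      rw [upd_ne h1] at h2
      exact h2
    · rw [sub_self, norm_zero]
      positivity
  · intro a u γ' hγ'
    have h1 : γ' ≠ γ := hne γ' (Finset.mem_union_right _ hγ')
    unfold F0
    split_ifs
    · have h2 := h.lw a (Function.update u γ 0) γ' hγ'
      rw [upd_ne h1] at h2
      exact h2
    · rw [norm_zero]
      positivity

theorem hyp_F1 {U W : Finset I} {γ : I} (hγU : γ ∉ U) (hγW : γ ∉ W) {L T : ℕ} {A : ℝ}
    (hA : 0 ≤ A) {𝔉 : (I → ZMod L) → (I → ℝ) → ℂ}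
    (h : Hyp (insert γ U) W (insert γ (U ∪ W)) T A 𝔉) :
    Hyp U (insert γ W) (insert γ (U ∪ W)) T (2 * A) (fun a u => 𝔉 a u - F2 γ 𝔉 a u) := by
  have hne : ∀ γ' ∈ U ∪ W, γ' ≠ γ := by
    intro γ' h1 h2
    rw [h2, Finset.mem_union] at h1
    exact h1.elim hγU hγW
  refine ⟨?_, ?_, ?_, ?_, ?_⟩
  · intro a u
    refine (norm_sub_le _ _).trans ?_
    have h1 : ‖F2 γ 𝔉 a u‖ ≤ A := by
      unfold F2
      split_ifs
      · exact h.bd _ _
      · rw [norm_zero]; exact hA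
    linarith [h.bd a u]
  · intro a u γ' hγ' hu
    have h1 : F2 γ 𝔉 a u = 0 := by
      unfold F2
      split_ifs with h2
      · by_cases h3 : γ' = γ
        · exfalso
          rw [h3] at hu
          have h4 : (1 : ℝ) ≤ 2 ^ T := one_le_pow₀ (by norm_num)
          linarith
        · apply h.sp _ _ γ' hγ'
          rw [upd_ne h3]
          exact hu
      · rfl
    show 𝔉 a u - F2 γ 𝔉 a u = 0
    rw [h1, h.sp a u γ' hγ' hu, sub_zero]
  · intro a u u' hu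
    have h1 : F2 γ 𝔉 a u = F2 γ 𝔉 a u' := by
      unfold F2
      rw [hu γ (Finset.mem_insert_self _ _)]
      split_ifs
      · apply h.dp
        intro γ' hγ'
        by_cases h1 : γ' = γ
        · rw [h1, Function.update_self, Function.update_self]
        · rw [upd_ne h1, upd_ne h1]
          exact hu γ' hγ'
      · rfl
    show 𝔉 a u - F2 γ 𝔉 a u = 𝔉 a u' - F2 γ 𝔉 a u'
    rw [h1, h.dp a u u' hu]
  · intro a u γ' hγ'
    have h1 : γ' ≠ γ := hne γ' (Finset.mem_union_left _ hγ')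
    have h2 := h.lu a u γ' (Finset.mem_insert_of_mem hγ')
    have h3 : ‖F2 γ 𝔉 a u - F2 γ 𝔉 a (Function.update u γ' 0)‖ ≤
        A * 2 ^ (2 * T) * |u γ'| := by
      unfold F2
      rw [upd_ne (Ne.symm h1)]
      split_ifs
      · rw [Function.update_comm h1]
        have h4 := h.lu a (Function.update u γ 0) γ' (Finset.mem_insert_of_mem hγ')
        rw [upd_ne h1] at h4
        exact h4
      · rw [sub_self, norm_zero]
        positivity
    have e : (𝔉 a u - F2 γ 𝔉 a u) -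
        (𝔉 a (Function.update u γ' 0) - F2 γ 𝔉 a (Function.update u γ' 0)) =
        (𝔉 a u - 𝔉 a (Function.update u γ' 0)) -
          (F2 γ 𝔉 a u - F2 γ 𝔉 a (Function.update u γ' 0)) := by ring
    show ‖(𝔉 a u - F2 γ 𝔉 a u) -
        (𝔉 a (Function.update u γ' 0) - F2 γ 𝔉 a (Function.update u γ' 0))‖ ≤ _
    rw [e]
    refine (norm_sub_le _ _).trans ?_
    calc _ ≤ A * 2 ^ (2 * T) * |u γ'| + A * 2 ^ (2 * T) * |u γ'| := add_le_add h2 h3
      _ = 2 * A * 2 ^ (2 * T) * |u γ'| := by ring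
  · intro a u γ' hγ'
    have h0 : 0 ≤ A * 2 ^ (2 * T) * |u γ'| := by positivity
    have h0' : A * 2 ^ (2 * T) * |u γ'| ≤ 2 * A * 2 ^ (2 * T) * |u γ'| := by
      have : 2 * A * 2 ^ (2 * T) * |u γ'| = A * 2 ^ (2 * T) * |u γ'| +
        A * 2 ^ (2 * T) * |u γ'| := by ring
      linarith
    rcases Finset.mem_insert.1 hγ' with h1 | h1
    · refine le_trans ?_ h0'
      show ‖𝔉 a u - F2 γ 𝔉 a u‖ ≤ _
      unfold F2
      split_ifs with h2
      · rw [h1]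
        exact h.lu a u γ (Finset.mem_insert_self _ _)
      · rw [sub_zero]
        refine (h.bd a u).trans ?_
        rw [h1]
        have h3 : 1 < |u γ| := not_le.1 h2
        have h4 : (1 : ℝ) ≤ 2 ^ (2 * T) := one_le_pow₀ (by norm_num)
        have h5 : (1 : ℝ) ≤ 2 ^ (2 * T) * |u γ| := by nlinarith
        calc A = A * 1 := (mul_one A).symm
          _ ≤ A * (2 ^ (2 * T) * |u γ|) := mul_le_mul_of_nonneg_left h5 hA
          _ = _ := by ring
    · have h2 : γ' ≠ γ := hne γ' (Finset.mem_union_right _ h1)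
      have h3 : ‖F2 γ 𝔉 a u‖ ≤ A * 2 ^ (2 * T) * |u γ'| := by
        unfold F2
        split_ifs
        · have h4 := h.lw a (Function.update u γ 0) γ' h1
          rw [upd_ne h2] at h4
          exact h4
        · rw [norm_zero]
          exact h0
      refine (norm_sub_le _ _).trans ?_
      calc _ ≤ A * 2 ^ (2 * T) * |u γ'| + A * 2 ^ (2 * T) * |u γ'| :=
            add_le_add (h.lw a u γ' h1) h3
        _ = 2 * A * 2 ^ (2 * T) * |u γ'| := by ring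

theorem fam_F2 {U W : Finset I} {γ : I} {L T : ℕ} (hT : 1 ≤ T)
    (𝔉 : (I → ZMod L) → (I → ℝ) → ℂ) (τ : I → ℕ) (hτ : 6 * T ≤ τ γ) (a : I → ZMod L) :
    fam (insert γ (U ∪ W)) T (F2 γ 𝔉) τ a =
      XX T (τ γ) (fq a γ) * fam (U ∪ W) T (F0 T γ 𝔉) τ a := by
  rw [XX_eq (by omega)]
  have key : |(2 : ℝ) ^ τ γ * (fq a γ - nr T (fq a γ))| ≤ 1 ↔
      |fq a γ - nr T (fq a γ)| ≤ (1 / 2) ^ τ γ := by
    rw [abs_mul, abs_of_pos (by positivity : (0 : ℝ) < 2 ^ τ γ), one_div, inv_pow,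
      ← one_div, le_div_iff₀ (by positivity), mul_comm]
  unfold fam
  by_cases h1 : Near T (fq a γ)
  · by_cases h2 : ∀ γ' ∈ U ∪ W, Near T (fq a γ')
    · have h3 : ∀ γ' ∈ insert γ (U ∪ W), Near T (fq a γ') := by
        intro γ' hγ'
        rcases Finset.mem_insert.1 hγ' with h | h
        · rw [h]; exact h1
        · exact h2 γ' h
      rw [if_pos h3, if_pos h2]
      unfold F2 F0
      rw [if_pos h1]
      by_cases h4 : |fq a γ - nr T (fq a γ)| ≤ (1 / 2) ^ τ γ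
      · rw [if_pos (key.2 h4), if_pos ⟨h1, h4⟩, one_mul]
      · rw [if_neg (fun h => h4 (key.1 h)), if_neg (fun h => h4 h.2), zero_mul]
    · rw [if_neg h2, mul_zero, if_neg]
      intro h
      exact h2 fun γ' hγ' => h γ' (Finset.mem_insert_of_mem hγ')
  · rw [if_neg, if_neg (fun h => h1 h.1), zero_mul]
    intro h
    exact h1 (h γ (Finset.mem_insert_self _ _))

theorem main (U : Finset I) : ∀ W : Finset I, Disjoint U W → ∃ C : ℝ, 0 ≤ C ∧
    ∀ (L : ℕ) [NeZero L] (T : ℕ), 1 ≤ T →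
    ∀ (A : ℝ), 0 ≤ A → ∀ 𝔉 : (I → ZMod L) → (I → ℝ) → ℂ, Hyp U W (U ∪ W) T A 𝔉 →
    MxLe {τ : I → ℕ | ∀ γ ∈ U ∪ W, 6 * T ≤ τ γ} (fam (U ∪ W) T 𝔉)
      (C * (T : ℝ) ^ (U ∪ W).card * A) := by
  induction U using Finset.induction_on with
  | empty =>
    intro W _
    obtain ⟨C, hC, h⟩ := core_sq W
    refine ⟨C, hC, ?_⟩
    intro L _ T hT A hA 𝔉 h𝔉
    rw [Finset.empty_union] at h𝔉 ⊢
    exact mx_congr (h L T hT A hA 𝔉 h𝔉.bd h𝔉.sp h𝔉.dp h𝔉.lw) (fun τ _ a => rfl)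
  | insert γ U hγU ih =>
    intro W hUW
    have hγW : γ ∉ W := fun h => Finset.disjoint_left.1 hUW (Finset.mem_insert_self _ _) h
    have hUW' : Disjoint U W := hUW.mono_left (Finset.subset_insert _ _)
    have hUW1 : Disjoint U (insert γ W) := by
      rw [Finset.disjoint_insert_right]
      exact ⟨hγU, hUW'⟩
    obtain ⟨C1, hC1, h1⟩ := ih (insert γ W) hUW1
    obtain ⟨C2, hC2, h2⟩ := ih W hUW'
    obtain ⟨C3, hC3, h3⟩ := rm_prop
    refine ⟨2 * C1 + C3 * C2, by positivity, ?_⟩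
    intro L _ T hT A hA 𝔉 h𝔉
    have e1 : insert γ U ∪ W = insert γ (U ∪ W) := Finset.insert_union _ _ _
    have e2 : U ∪ insert γ W = insert γ (U ∪ W) := Finset.union_insert _ _ _
    rw [e1] at h𝔉 ⊢
    have hcard : (insert γ (U ∪ W)).card = (U ∪ W).card + 1 := by
      apply Finset.card_insert_of_notMem
      rw [Finset.mem_union]
      exact fun h => h.elim hγU hγW
    have g1 := h1 L T hT (2 * A) (by positivity) (fun a u => 𝔉 a u - F2 γ 𝔉 a u)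
      (by rw [e2]; exact hyp_F1 hγU hγW hA h𝔉)
    rw [e2] at g1
    have g2 := h2 L T hT A hA (F0 T γ 𝔉) (hyp_F0 hγU hγW hA h𝔉)
    have g3 : MxLe {τ : I → ℕ | ∀ γ' ∈ insert γ (U ∪ W), 6 * T ≤ τ γ'}
        (fam (U ∪ W) T (F0 T γ 𝔉)) (C2 * (T : ℝ) ^ (U ∪ W).card * A) :=
      mx_subset g2 (fun τ hτ γ' hγ' => hτ γ' (Finset.mem_insert_of_mem hγ'))
    have g4 := h3 I L (I → ℕ) {τ : I → ℕ | ∀ γ' ∈ insert γ (U ∪ W), 6 * T ≤ τ γ'}
      (fam (U ∪ W) T (F0 T γ 𝔉)) (C2 * (T : ℝ) ^ (U ∪ W).card * A) (by positivity) g3 γ T hT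
      (fun τ => τ γ) (fun τ hτ => by
        have := hτ γ (Finset.mem_insert_self _ _)
        show 4 * T ≤ τ γ
        omega)
    have g5 : MxLe {τ : I → ℕ | ∀ γ' ∈ insert γ (U ∪ W), 6 * T ≤ τ γ'}
        (fam (insert γ (U ∪ W)) T (F2 γ 𝔉))
        (C3 * T * (C2 * (T : ℝ) ^ (U ∪ W).card * A)) :=
      mx_congr g4 (fun τ hτ a => fam_F2 hT 𝔉 τ (hτ γ (Finset.mem_insert_self _ _)) a)
    have g6 := mx_add g1 g5 (by positivity) (by positivity)
    have g7 := mx_congr (m' := fam (insert γ (U ∪ W)) T 𝔉) g6 (fun τ _ a => by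
      unfold fam
      split_ifs
      · ring
      · ring)
    have e3 : C1 * (T : ℝ) ^ (insert γ (U ∪ W)).card * (2 * A) +
        C3 * T * (C2 * (T : ℝ) ^ (U ∪ W).card * A) =
        (2 * C1 + C3 * C2) * (T : ℝ) ^ (insert γ (U ∪ W)).card * A := by
      rw [hcard, pow_succ]
      ring
    rw [e3] at g7
    exact g7

end CoreBAux

open Classical in
theorem core (U W : Finset I) (hUW : Disjoint U W) : ∃ C : ℝ, 0 ≤ C ∧
    ∀ (L : ℕ) [NeZero L] (T : ℕ), 1 ≤ T →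
    ∀ (A : ℝ), 0 ≤ A → ∀ 𝔉 : (I → ZMod L) → (I → ℝ) → ℂ,
    (∀ a u, ‖𝔉 a u‖ ≤ A) →
    (∀ a u, ∀ γ ∈ U ∪ W, (2 : ℝ) ^ T < |u γ| → 𝔉 a u = 0) →
    (∀ a u u', (∀ γ ∈ U ∪ W, u γ = u' γ) → 𝔉 a u = 𝔉 a u') →
    (∀ a u, ∀ γ ∈ U, ‖𝔉 a u - 𝔉 a (Function.update u γ 0)‖ ≤ A * 2 ^ (2 * T) * |u γ|) →
    (∀ a u, ∀ γ ∈ W, ‖𝔉 a u‖ ≤ A * 2 ^ (2 * T) * |u γ|) →
    MxLe {τ : I → ℕ | ∀ γ ∈ U ∪ W, 6 * T ≤ τ γ}
      (fun τ (a : I → ZMod L) => if ∀ γ ∈ U ∪ W, Near T (fq a γ) then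
        𝔉 a (fun γ => (2 : ℝ) ^ τ γ * (fq a γ - nr T (fq a γ))) else 0)
      (C * (T : ℝ) ^ (U ∪ W).card * A) := by
  obtain ⟨C, hC, h⟩ := CoreBAux.main U W hUW
  refine ⟨C, hC, ?_⟩
  intro L _ T hT A hA 𝔉 h1 h2 h3 h4 h5
  exact mx_congr (h L T hT A hA 𝔉 ⟨h1, h2, h3, h4, h5⟩) (fun τ _ a => rfl)

end Pool.Agent.Lib.Pf720mp
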