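import Pool.Agent.Lib.Pf720mp.Torus
import Pool.Agent.Lib.Pf720ae.Poly.Decay
import Pool.Agent.Lib.Pf720ae.Poly.InvWeyl

/-!
# Multi-parameter exponential sums: definitions and first properties

`ι` is the (finite) set of variables, `Ex ι D = ι → Fin (D + 1)` the set of exponents (including
the zero exponent), `mon m γ = ∏ m_l ^ γ_l`, `pp θ m = ∑ θ_γ m ^ γ`, `bx M = ∏ [0, M_l)` and
`AA M θ` is the average of `ee (pp θ m)` over `m ∈ bx M`. A set `V` of active variables is encoded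
by `M_l = 1` for `l ∉ V` (then `m_l = 0` in the whole box): `res V M`. The nonzero exponents
supported in `V` are `GV V`.
-/

set_option autoImplicit false
set_option linter.unusedSectionVars false

open Finset Filter Topology
open Pool.Agent.Lib.Pf720ae.Poly (ee ee_zero ee_add norm_ee ee_int ee_add_int norm_ee_sub_le)

namespace Pool.Agent.Lib.Pf720mp

/-- frequency of a character -/
noncomputable def fq {I : Type} {L : ℕ} (a : I → ZMod L) : I → ℝ := fun e => ((a e).val : ℝ) / L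

/-- `L²` bound for the maximal function of a family of multipliers, in the form of a bound for all
choice functions -/
def MxLe {I : Type} [Fintype I] [DecidableEq I] {L : ℕ} [NeZero L] {J : Type} (S : Set J)
    (m : J → (I → ZMod L) → ℂ) (B : ℝ) : Prop :=
  ∀ (F : (I → ZMod L) → ℂ) (j : (I → ZMod L) → J), (∀ x, j x ∈ S) →
    ∑ x, ‖op (m (j x)) F x‖ ^ 2 ≤ B ^ 2 * nn F

/-- `x` is within `2 ^ (-2T-1)` of a rational number with denominator at most `2 ^ T` -/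
def Near (T : ℕ) (x : ℝ) : Prop := ∃ β : ℚ, β.den ≤ 2 ^ T ∧ |x - β| < (1 / 2) ^ (2 * T + 1)

open Classical in
/-- the rational number of denominator at most `2 ^ T` near `x` -/
noncomputable def nr (T : ℕ) (x : ℝ) : ℚ := if h : Near T x then h.choose else 0

open Classical in
/-- cutoff to the `2 ^ (-τ)`-neighbourhoods of the rationals of denominator at most `2 ^ T` -/
noncomputable def XX (T τ : ℕ) (x : ℝ) : ℂ :=
  if ∃ β : ℚ, β.den ≤ 2 ^ T ∧ |x - β| ≤ (1 / 2) ^ τ then 1 else 0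

section
variable {ι : Type} [Fintype ι] [DecidableEq ι] {D : ℕ}

/-- exponents -/
abbrev Ex (ι : Type) (D : ℕ) := ι → Fin (D + 1)

/-- monomials -/
def mon (m : ι → ℕ) (γ : Ex ι D) : ℕ := ∏ l, m l ^ (γ l : ℕ)

/-- phase polynomials -/
noncomputable def pp (θ : Ex ι D → ℝ) (m : ι → ℕ) : ℝ := ∑ γ, θ γ * (mon m γ : ℝ)

/-- boxes -/
def bx (M : ι → ℕ) : Finset (ι → ℕ) := Fintype.piFinset fun l => range (M l)

/-- exponential sums -/
noncomputable def AA (M : ι → ℕ) (θ : Ex ι D → ℝ) : ℂ :=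
  (∏ l, (M l : ℂ))⁻¹ * ∑ m ∈ bx M, ee (pp θ m)

/-- restriction to the active variables -/
def res (V : Finset ι) (M : ι → ℕ) : ι → ℕ := fun l => if l ∈ V then M l else 1

/-- nonzero exponents supported in `V` -/
def GV (V : Finset ι) : Finset (Ex ι D) := univ.filter fun γ => γ ≠ 0 ∧ ∀ l, l ∉ V → γ l = 0

/-- the point `b + M ^ (-γ) u` -/
noncomputable def pt (V : Finset ι) (b : Ex ι D → ℚ) (u : Ex ι D → ℝ) (M : ι → ℕ) : Ex ι D → ℝ :=
  fun γ => if γ ∈ (GV V : Finset (Ex ι D)) then (b γ : ℝ) + u γ / mon M γ else 0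

/-- limit of the exponential sums: product of the complete sum at `b` and the oscillatory integral
at `u` -/
noncomputable def HH (V : Finset ι) (b : Ex ι D → ℚ) (u : Ex ι D → ℝ) : ℂ :=
  limUnder atTop fun N : ℕ => AA (res V fun _ => N + 1) (pt V b u (res V fun _ => N + 1))

/-- trapezoidal cutoff -/
noncomputable def tz (x : ℝ) : ℝ := max 0 (min 1 (2 - |x|))

/-- common denominator at most `2 ^ t` -/
def HasDen (t : ℕ) (b : Ex ι D → ℚ) : Prop :=
  ∃ q : ℕ, 0 < q ∧ q ≤ 2 ^ t ∧ ∀ γ, ∃ n : ℤ, (q : ℚ) * b γ = n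

/-- `b` is a rational point of height at most `2 ^ t` near `θ`, at the scale `M` -/
def Rep (V : Finset ι) (t : ℕ) (M : ι → ℕ) (θ : Ex ι D → ℝ) (b : Ex ι D → ℚ) : Prop :=
  (∀ γ, γ ∉ (GV V : Finset (Ex ι D)) → b γ = 0) ∧ HasDen t b ∧
    ∀ γ ∈ (GV V : Finset (Ex ι D)), |(mon M γ : ℝ) * (θ γ - b γ)| ≤ 2 ^ (t + 1)

/-- contribution of one rational point -/
noncomputable def KB (V : Finset ι) (t : ℕ) (M : ι → ℕ) (θ : Ex ι D → ℝ) (b : Ex ι D → ℚ) : ℂ :=
  ee (θ 0) * HH V b (fun γ => (mon M γ : ℝ) * (θ γ - b γ)) *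
    ∏ γ ∈ (GV V : Finset (Ex ι D)), ((tz ((mon M γ : ℝ) * (θ γ - b γ) / 2 ^ t) : ℝ) : ℂ)

open Classical in
/-- contribution of all the rational points of height at most `2 ^ t` -/
noncomputable def KK (V : Finset ι) (t : ℕ) (M : ι → ℕ) (θ : Ex ι D → ℝ) : ℂ :=
  if h : ∃ b, Rep V t M θ b then KB V t M θ h.choose else 0

/-- the scales `K_l 2 ^ j_l` -/
def Mj (K j : ι → ℕ) : ι → ℕ := fun l => K l * 2 ^ j l

/-- the coefficients of the polynomial in the variables outside `L` obtained by freezing the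
variables in `L` at `μ` -/
def wt (L : Finset ι) (μ : ι → ℕ) (γ δ : Ex ι D) : ℕ :=
  if (∀ l ∈ L, γ l = 0) ∧ ∀ l, l ∉ L → δ l = γ l then ∏ l ∈ L, μ l ^ (δ l : ℕ) else 0

/-- freezing of the variables in `L` at `μ` -/
noncomputable def psi (L : Finset ι) (μ : ι → ℕ) (θ : Ex ι D → ℝ) : Ex ι D → ℝ :=
  fun γ => ∑ δ, (wt L μ γ δ : ℝ) * θ δ

/-- erasing the exponents in `L` -/
def cut (L : Finset ι) (δ : Ex ι D) : Ex ι D := fun l => if l ∈ L then 0 else δ l

/-- exponent equal to `γ'` on `L` and to `γ` outside `L` -/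
def join (L : Finset ι) (γ' γ : Ex ι D) : Ex ι D := fun l => if l ∈ L then γ' l else γ l

/-- the polynomial embedding of the parameters -/
def gam (L : ℕ) (m : ι → ℕ) : Ex ι D → ZMod L := fun γ => ((mon m γ : ℕ) : ZMod L)

lemma mem_bx {M m : ι → ℕ} : m ∈ bx M ↔ ∀ l, m l < M l := by simp [bx]

lemma card_bx (M : ι → ℕ) : (bx M).card = ∏ l, M l := by simp [bx, Fintype.card_piFinset]

lemma mem_GV {V : Finset ι} {γ : Ex ι D} : γ ∈ (GV V : Finset (Ex ι D)) ↔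
    γ ≠ 0 ∧ ∀ l, l ∉ V → γ l = 0 := by simp [GV]

lemma zero_notMem_GV (V : Finset ι) : (0 : Ex ι D) ∉ (GV V : Finset (Ex ι D)) := by simp [GV]

@[simp] lemma mon_zero (m : ι → ℕ) : mon m (0 : Ex ι D) = 1 := by simp [mon]

lemma norm_AA_le (M : ι → ℕ) (θ : Ex ι D → ℝ) : ‖AA M θ‖ ≤ 1 := by
  unfold AA
  rw [norm_mul, norm_inv, norm_prod]
  have h1 : ‖∑ m ∈ bx M, ee (pp θ m)‖ ≤ ∏ l, ‖(M l : ℂ)‖ := by
    refine (norm_sum_le _ _).trans ?_
    simp [norm_ee, card_bx]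
  have h0 : 0 ≤ ∏ l, ‖(M l : ℂ)‖ := Finset.prod_nonneg fun _ _ => norm_nonneg _
  calc (∏ l, ‖(M l : ℂ)‖)⁻¹ * ‖∑ m ∈ bx M, ee (pp θ m)‖ ≤
        (∏ l, ‖(M l : ℂ)‖)⁻¹ * ∏ l, ‖(M l : ℂ)‖ := mul_le_mul_of_nonneg_left h1 (inv_nonneg.2 h0)
    _ ≤ 1 := inv_mul_le_one

lemma mon_mono {m M : ι → ℕ} (h : ∀ l, m l ≤ M l) (γ : Ex ι D) : mon m γ ≤ mon M γ :=
  Finset.prod_le_prod' fun l _ => Nat.pow_le_pow_left (h l) _

lemma mon_pos {M : ι → ℕ} (h : ∀ l, 0 < M l) (γ : Ex ι D) : 0 < mon M γ :=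
  Finset.prod_pos fun l _ => Nat.pow_pos (h l)

lemma res_pos {V : Finset ι} {M : ι → ℕ} (h : ∀ l ∈ V, 0 < M l) (l : ι) : 0 < res V M l := by
  unfold res
  split_ifs with h1
  · exact h l h1
  · exact one_pos

lemma res_of_mem {V : Finset ι} {M : ι → ℕ} {l : ι} (h : l ∈ V) : res V M l = M l := if_pos h

lemma res_of_notMem {V : Finset ι} {M : ι → ℕ} {l : ι} (h : l ∉ V) : res V M l = 1 := if_neg h

/-- the monomials of `res V M` are those of the active variables -/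
lemma mon_res (V : Finset ι) (M : ι → ℕ) (γ : Ex ι D) :
    mon (res V M) γ = ∏ l ∈ V, M l ^ (γ l : ℕ) := by
  unfold mon
  rw [← Finset.prod_subset (Finset.subset_univ V) (fun l _ hl => by
    rw [res_of_notMem hl, one_pow])]
  exact Finset.prod_congr rfl fun l hl => by rw [res_of_mem hl]

lemma mon_Mj (K j : ι → ℕ) (γ : Ex ι D) : mon (Mj K j) γ = mon K γ * 2 ^ (∑ l, j l * (γ l : ℕ)) := by
  unfold mon Mj
  rw [← Finset.prod_pow_eq_pow_sum, ← Finset.prod_mul_distrib]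
  refine Finset.prod_congr rfl fun l _ => ?_
  rw [mul_pow, ← pow_mul]

/-- Lipschitz bound -/
lemma norm_AA_sub_le (M : ι → ℕ) (θ θ' : Ex ι D → ℝ) :
    ‖AA M θ - AA M θ'‖ ≤ 2 * Real.pi * ∑ γ, (mon M γ : ℝ) * |θ γ - θ' γ| := by
  unfold AA
  rw [← mul_sub, ← Finset.sum_sub_distrib, norm_mul, norm_inv, norm_prod]
  have hB0 : 0 ≤ 2 * Real.pi * ∑ γ, (mon M γ : ℝ) * |θ γ - θ' γ| :=
    mul_nonneg Real.two_pi_pos.le (Finset.sum_nonneg fun _ _ => by positivity)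
  have h1 : ‖∑ m ∈ bx M, (ee (pp θ m) - ee (pp θ' m))‖ ≤
      (∏ l, ‖(M l : ℂ)‖) * (2 * Real.pi * ∑ γ, (mon M γ : ℝ) * |θ γ - θ' γ|) := by
    refine (norm_sum_le _ _).trans ?_
    have h2 : ∀ m ∈ bx M, ‖ee (pp θ m) - ee (pp θ' m)‖ ≤
        2 * Real.pi * ∑ γ, (mon M γ : ℝ) * |θ γ - θ' γ| := by
      intro m hm
      refine (norm_ee_sub_le _ _).trans (mul_le_mul_of_nonneg_left ?_ Real.two_pi_pos.le)
      unfold pp
      rw [← Finset.sum_sub_distrib]
      refine (Finset.abs_sum_le_sum_abs _ _).trans (Finset.sum_le_sum fun γ _ => ?_)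
      rw [← sub_mul, abs_mul, Nat.abs_cast, mul_comm]
      refine mul_le_mul_of_nonneg_right ?_ (abs_nonneg _)
      exact_mod_cast mon_mono (fun l => (mem_bx.1 hm l).le) γ
    refine (Finset.sum_le_sum h2).trans (le_of_eq ?_)
    rw [Finset.sum_const, card_bx, nsmul_eq_mul]
    simp
  have h0 : 0 ≤ ∏ l, ‖(M l : ℂ)‖ := Finset.prod_nonneg fun _ _ => norm_nonneg _
  rcases h0.eq_or_lt with h | h
  · rw [← h]
    simpa using hB0
  · rw [inv_mul_le_iff₀ h]
    exact h1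

end

end Pool.Agent.Lib.Pf720mp
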