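import Mathlib

/-!
# Lagrange interpolation with rational coefficients of controlled height

`lagrange_coeff`: for distinct naturals `x_0, …, x_D < R` there are rationals `c e s` with
`∑_s c e s * x_s ^ e' = if e = e' then 1 else 0` (`e, e' ≤ D`), with `(c e s).den ≤ R ^ D` and
`|c e s| ≤ (2 R) ^ D`: `c e s` is the coefficient of `X ^ e` in `∏_{s' ≠ s} (X - x_s') / (x_s - x_s')`;
numerator an integer of absolute value `≤ (1 + R) ^ D` (sum of absolute values of the coefficients
of a product of `D` factors `X - x_s'`), denominator an integer `≠ 0` of absolute value `≤ R ^ D`.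
-/

set_option autoImplicit false
set_option linter.unusedSectionVars false

open Finset

namespace Pool.Agent.Lib.Pf720mp

section lag

variable {D : ℕ}

/-- the product of the `X - x s'`, `s' ≠ s` -/
noncomputable def lagP (x : Fin (D + 1) → ℕ) (s : Fin (D + 1)) : Polynomial ℤ :=
  ∏ s' ∈ univ.erase s, (Polynomial.X - Polynomial.C (x s' : ℤ))

/-- the product of the `x s - x s'`, `s' ≠ s` -/
def lagD (x : Fin (D + 1) → ℕ) (s : Fin (D + 1)) : ℤ :=
  ∏ s' ∈ univ.erase s, ((x s : ℤ) - x s')

lemma coeff_prod_le {κ : Type} [DecidableEq κ] (t : Finset κ) (a : κ → ℕ) :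
    ∀ e : ℕ, |(∏ s ∈ t, (Polynomial.X - Polynomial.C (a s : ℤ))).coeff e| ≤ ∏ s ∈ t, (1 + (a s : ℤ)) := by
  induction t using Finset.induction_on with
  | empty =>
    intro e
    rw [Finset.prod_empty, Finset.prod_empty, Polynomial.coeff_one]
    split_ifs <;> simp
  | insert s t hs ih =>
    intro e
    rw [Finset.prod_insert hs, Finset.prod_insert hs]
    set Q : Polynomial ℤ := ∏ s ∈ t, (Polynomial.X - Polynomial.C (a s : ℤ)) with hQ
    set B : ℤ := ∏ s ∈ t, (1 + (a s : ℤ)) with hB
    have h1 : |(Polynomial.C (a s : ℤ) * Q).coeff e| ≤ a s * B := by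
      rw [Polynomial.coeff_C_mul, abs_mul, Nat.abs_cast]
      exact mul_le_mul_of_nonneg_left (ih e) (by positivity)
    have h2 : |(Polynomial.X * Q).coeff e| ≤ B := by
      cases e with
      | zero =>
        rw [Polynomial.coeff_X_mul_zero, abs_zero]
        exact Finset.prod_nonneg fun _ _ => by positivity
      | succ e =>
        rw [Polynomial.coeff_X_mul]
        exact ih e
    rw [sub_mul, Polynomial.coeff_sub]
    refine (abs_sub _ _).trans ?_
    linarith

lemma lagD_ne {x : Fin (D + 1) → ℕ} (hx : Function.Injective x) (s : Fin (D + 1)) :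
    lagD x s ≠ 0 := by
  unfold lagD
  rw [Finset.prod_ne_zero_iff]
  intro s' hs'
  have h1 : x s ≠ x s' := fun h => (Finset.mem_erase.1 hs').1 (hx h).symm
  omega

lemma card_erase' (s : Fin (D + 1)) : (univ.erase s).card = D := by
  rw [Finset.card_erase_of_mem (Finset.mem_univ s), Finset.card_univ, Fintype.card_fin]
  omega

lemma lagD_le {R : ℕ} {x : Fin (D + 1) → ℕ} (hxR : ∀ s, x s < R) (s : Fin (D + 1)) :
    (lagD x s).natAbs ≤ R ^ D := by
  unfold lagD
  rw [← Int.natAbsHom_apply, map_prod]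
  refine (Finset.prod_le_pow_card _ _ R fun s' _ => ?_).trans (by rw [card_erase'])
  rw [Int.natAbsHom_apply]
  have h1 := hxR s
  have h2 := hxR s'
  omega

lemma lagP_le {R : ℕ} {x : Fin (D + 1) → ℕ} (hxR : ∀ s, x s < R) (s : Fin (D + 1)) (e : ℕ) :
    |(lagP x s).coeff e| ≤ (R : ℤ) ^ D := by
  refine (coeff_prod_le _ _ e).trans ?_
  have h1 : ∏ s' ∈ univ.erase s, (1 + (x s' : ℤ)) ≤ ∏ _s' ∈ univ.erase s, (R : ℤ) := by
    refine Finset.prod_le_prod (fun _ _ => by positivity) fun s' _ => ?_
    have := hxR s'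
    omega
  rwa [Finset.prod_const, card_erase'] at h1

lemma lag_basis (x : Fin (D + 1) → ℕ) (s : Fin (D + 1)) :
    Lagrange.basis univ (fun s => (x s : ℚ)) s =
      Polynomial.C ((lagD x s : ℚ)⁻¹) * (lagP x s).map (Int.castRingHom ℚ) := by
  unfold Lagrange.basis lagD lagP
  simp only [Lagrange.basisDivisor]
  rw [Finset.prod_mul_distrib, Polynomial.map_prod]
  congr 1
  · push_cast
    rw [← map_prod, Finset.prod_inv_distrib]
  · refine Finset.prod_congr rfl fun s' _ => ?_
    simp

end lag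

theorem lagrange_coeff {D R : ℕ} (hR : 1 ≤ R) (x : Fin (D + 1) → ℕ) (hx : Function.Injective x)
    (hxR : ∀ s, x s < R) : ∃ c : Fin (D + 1) → Fin (D + 1) → ℚ,
      (∀ e e' : Fin (D + 1), ∑ s, c e s * (x s : ℚ) ^ (e' : ℕ) = if e = e' then 1 else 0) ∧
      ∀ e s, (c e s).den ≤ R ^ D ∧ |c e s| ≤ ((2 * R : ℕ) : ℚ) ^ D := by
  refine ⟨fun e s => ((lagP x s).coeff e : ℚ) / (lagD x s : ℚ), fun e e' => ?_, fun e s => ⟨?_, ?_⟩⟩
  · have hinj : Set.InjOn (fun s => (x s : ℚ)) ((univ : Finset (Fin (D + 1))) : Set (Fin (D + 1))) :=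
      fun a _ b _ h => hx (by
        have h' : (x a : ℚ) = (x b : ℚ) := h
        exact_mod_cast h')
    have hdeg : (Polynomial.X ^ (e' : ℕ) : Polynomial ℚ).degree <
        (univ : Finset (Fin (D + 1))).card := by
      rw [Polynomial.degree_X_pow, Finset.card_univ, Fintype.card_fin]
      exact_mod_cast e'.2
    have h1 := Lagrange.eq_interpolate hinj hdeg
    rw [Lagrange.interpolate_apply] at h1
    have h2 := congrArg (fun P : Polynomial ℚ => P.coeff (e : ℕ)) h1
    simp only [Polynomial.coeff_X_pow, Polynomial.finsetSum_coeff, Polynomial.coeff_C_mul,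
      lag_basis, Polynomial.coeff_map, Polynomial.eval_pow, Polynomial.eval_X,
      eq_intCast] at h2
    have h3 : (if e = e' then (1 : ℚ) else 0) = if (e : ℕ) = (e' : ℕ) then 1 else 0 := by
      simp only [Fin.ext_iff]
    rw [h3, h2]
    refine Finset.sum_congr rfl fun s _ => ?_
    ring
  · have h1 := Rat.den_dvd ((lagP x s).coeff e) (lagD x s)
    have h2 : ((lagP x s).coeff e / lagD x s : ℚ).den ≤ (lagD x s).natAbs := by
      refine Nat.le_of_dvd (Int.natAbs_pos.2 (lagD_ne hx s)) ?_
      have h3 := Int.natAbs_dvd_natAbs.2 h1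
      rw [Int.natAbs_natCast, Rat.divInt_eq_div] at h3
      exact h3
    exact h2.trans (lagD_le hxR s)
  · have hd : (1 : ℚ) ≤ |(lagD x s : ℚ)| := by
      have := Int.one_le_abs (lagD_ne hx s)
      exact_mod_cast this
    have hn : |((lagP x s).coeff e : ℚ)| ≤ (R : ℚ) ^ D := by
      have := lagP_le hxR s e
      exact_mod_cast this
    rw [abs_div]
    calc |((lagP x s).coeff e : ℚ)| / |(lagD x s : ℚ)| ≤ |((lagP x s).coeff e : ℚ)| :=
          div_le_self (abs_nonneg _) hd
      _ ≤ (R : ℚ) ^ D := hn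
      _ ≤ ((2 * R : ℕ) : ℚ) ^ D := by
          refine pow_le_pow_left₀ (by positivity) ?_ _
          push_cast
          have : (0 : ℚ) ≤ R := by positivity
          linarith

end Pool.Agent.Lib.Pf720mp
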