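import Pool.Agent.Lib.Pf720mp.Api
import Pool.Agent.Lib.Pf720mp.Lag
import Pool.Agent.Lib.Pf720mp.Rat

/-!
# A polynomial which is often near rationals of small height

`coeff_near`, `Finset.induction_on L`. `L = ∅`: `bx M = {0}`, `E ≠ ∅`, so `0 ∈ E` and
`pp g 0 = g 0`; the only `γ` is `0`. Step `insert a L'`, `M' = update M a 1`,
`g^x = psi {a} (Pi.single a x) g`, `g^x γ = ∑_e g (update γ a e) x ^ e` for `γ a = 0`. For `x < M a` let
`E_x = {m ∈ bx M' | update m a x ∈ E}`. If at most `D` of the `x` had
`|E_x| > D (∑_{L'} 1 / M_l) |bx M'|`, then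
`|E| ≤ D |bx M'| + M_a D (∑_{L'} 1 / M_l) |bx M'| = D (∑_L 1 / M_l) |bx M|`, contradiction. So there
are `D + 1` such `x_0, …, x_D`, and by induction for each `γ` supported in `L'` and each `s` there is
`β_s` of denominator `≤ (Q R) ^ C'` with `|g^{x_s} γ - β_s| ≤ R ^ C' ρ`. Then
`g (update γ a e) = ∑_s c e s * g^{x_s} γ` is within `(D + 1) (2 R) ^ D R ^ C' ρ` of
`∑_s c e s * β_s`, a rational of denominator `≤ (R ^ D (Q R) ^ C') ^ (D + 1)`. (`2 ≤ R` absorbs the
constants in a power of `R`: `D + 1 ≤ 2 ^ D ≤ R ^ D`.)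
-/

set_option autoImplicit false
set_option linter.unusedSectionVars false

open Finset

namespace Pool.Agent.Lib.Pf720mp

variable {ι : Type} [Fintype ι] [DecidableEq ι]

/-- the denominator of a sum divides the product of the denominators -/
lemma sum_den_dvd {α : Type*} (S : Finset α) (q : α → ℚ) :
    (∑ s ∈ S, q s).den ∣ ∏ s ∈ S, (q s).den := by
  classical
  induction S using Finset.induction_on with
  | empty => simp
  | insert a S ha ih =>
    rw [Finset.sum_insert ha, Finset.prod_insert ha]
    exact (Rat.add_den_dvd _ _).trans (mul_dvd_mul_left _ ih)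

/-- freezing one variable -/
lemma psi_single {D : ℕ} (a : ι) (x : ℕ) (g : Ex ι D → ℝ) {γ : Ex ι D} (hγ : γ a = 0) :
    psi {a} (Pi.single a x) g γ =
      ∑ e : Fin (D + 1), g (Function.update γ a e) * (x : ℝ) ^ (e : ℕ) := by
  have hupd : ∀ δ : Ex ι D, (∀ l, l ∉ ({a} : Finset ι) → δ l = γ l) ↔
      δ = Function.update γ a (δ a) := by
    intro δ
    constructor
    · intro h
      funext l
      by_cases hl : l = a
      · subst hl
        rw [Function.update_self]
      · rw [Function.update_of_ne hl]
        exact h l (by rwa [Finset.mem_singleton])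
    · intro h l hl
      rw [Finset.mem_singleton] at hl
      rw [h, Function.update_of_ne hl]
  have h1 : ∀ δ : Ex ι D, (wt {a} (Pi.single a x) γ δ : ℝ) * g δ =
      if δ = Function.update γ a (δ a) then g δ * (x : ℝ) ^ ((δ a : Fin (D + 1)) : ℕ) else 0 := by
    intro δ
    unfold wt
    by_cases h : δ = Function.update γ a (δ a)
    · rw [if_pos h, if_pos ⟨by intro l hl; rw [Finset.mem_singleton] at hl; rw [hl, hγ],
        (hupd δ).mpr h⟩, Finset.prod_singleton, Pi.single_eq_same]
      push_cast
      ring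
    · rw [if_neg h, if_neg (fun hc => h ((hupd δ).mp hc.2))]
      push_cast
      ring
  unfold psi
  rw [Finset.sum_congr rfl (fun δ _ => h1 δ), ← Finset.sum_filter]
  symm
  refine Finset.sum_bij (fun e _ => Function.update γ a e) ?_ ?_ ?_ ?_
  · intro e _
    rw [Finset.mem_filter]
    refine ⟨Finset.mem_univ _, ?_⟩
    rw [Function.update_self]
  · intro e _ e' _ h
    have := congrFun h a
    rwa [Function.update_self, Function.update_self] at this
  · intro δ hδ
    rw [Finset.mem_filter] at hδ
    exact ⟨δ a, Finset.mem_univ _, hδ.2.symm⟩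
  · intro e _
    rw [Function.update_self]

/-- the value of a phase polynomial at the origin -/
lemma pp_at_zero {D : ℕ} (g : Ex ι D → ℝ) : pp g (0 : ι → ℕ) = g 0 := by
  unfold pp
  rw [Finset.sum_eq_single (0 : Ex ι D)]
  · rw [mon_zero]
    simp
  · intro γ _ hγ
    have : mon (0 : ι → ℕ) γ = 0 := by
      unfold mon
      obtain ⟨l, hl⟩ : ∃ l, γ l ≠ 0 := by
        by_contra hcon
        push Not at hcon
        exact hγ (funext hcon)
      apply Finset.prod_eq_zero (Finset.mem_univ l)
      rw [Pi.zero_apply]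
      apply zero_pow
      intro h0
      exact hl (Fin.ext h0)
    rw [this]
    simp
  · intro h
    exact absurd (Finset.mem_univ _) h

/-- many slices are rich -/
lemma many_slices (D : ℕ) {a : ι} {L : Finset ι} (ha : a ∉ L) {M : ι → ℕ} (hMa : 0 < M a)
    (E : Finset (ι → ℕ)) (hE : E ⊆ bx M)
    (hcard : (D * ∑ l ∈ insert a L, (1 : ℝ) / M l) * (∏ l, (M l : ℝ)) < E.card) :
    D + 1 ≤ ((range (M a)).filter fun x =>
      (D * ∑ l ∈ L, (1 : ℝ) / M l) * (∏ l, (Function.update M a 1 l : ℝ)) <
        ((bx (Function.update M a 1)).filter fun m => Function.update m a x ∈ E).card).card := by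
  classical
  by_contra hcon
  push Not at hcon
  obtain ⟨σ, hσ⟩ : ∃ σ : ℝ, σ = D * ∑ l ∈ L, (1 : ℝ) / M l := ⟨_, rfl⟩
  obtain ⟨P, hP⟩ : ∃ P : ℝ, P = ∏ l, (Function.update M a 1 l : ℝ) := ⟨_, rfl⟩
  have hσ0 : 0 ≤ σ := by
    rw [hσ]
    exact mul_nonneg (Nat.cast_nonneg _) (Finset.sum_nonneg fun l _ => by positivity)
  have hP0 : 0 ≤ P := by
    rw [hP]
    exact Finset.prod_nonneg fun l _ => Nat.cast_nonneg _
  rw [← hσ, ← hP] at hcon
  have hMa' : (0 : ℝ) < M a := by exact_mod_cast hMa
  have hprod : ∏ l, (M l : ℝ) = M a * P := by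
    rw [hP, ← Finset.mul_prod_erase univ (fun l => (M l : ℝ)) (Finset.mem_univ a),
      ← Finset.mul_prod_erase univ (fun l => (Function.update M a 1 l : ℝ)) (Finset.mem_univ a),
      Function.update_self, Nat.cast_one, one_mul]
    congr 1
    refine Finset.prod_congr rfl fun l hl => ?_
    rw [Function.update_of_ne (Finset.ne_of_mem_erase hl)]
  have hbx : ((bx (Function.update M a 1)).card : ℝ) = P := by
    rw [card_bx, hP]
    push_cast
    rfl
  have hfib : E.card = ∑ x ∈ range (M a), (E.filter fun μ => μ a = x).card :=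
    Finset.card_eq_sum_card_fiberwise fun μ hμ => by
      have := mem_bx.1 (hE hμ) a
      simpa using this
  have hsl : ∀ x, (E.filter fun μ => μ a = x).card ≤
      ((bx (Function.update M a 1)).filter fun m => Function.update m a x ∈ E).card := by
    intro x
    apply Finset.card_le_card_of_injOn (fun μ => Function.update μ a 0)
    · intro μ hμ
      rw [Finset.mem_coe, Finset.mem_filter] at hμ
      rw [Finset.mem_coe, Finset.mem_filter, mem_bx]
      refine ⟨?_, ?_⟩
      · change ∀ l, Function.update μ a 0 l < Function.update M a 1 l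
        intro l
        by_cases hl : l = a
        · subst hl
          rw [Function.update_self, Function.update_self]
          exact one_pos
        · rw [Function.update_of_ne hl, Function.update_of_ne hl]
          exact mem_bx.1 (hE hμ.1) l
      · change Function.update (Function.update μ a 0) a x ∈ E
        rw [Function.update_idem, ← hμ.2, Function.update_eq_self]
        exact hμ.1
    · intro μ hμ μ' hμ' h
      rw [Finset.mem_coe, Finset.mem_filter] at hμ hμ'
      funext l
      by_cases hl : l = a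
      · rw [hl, hμ.2, hμ'.2]
      · have h2 := congrFun h l
        simp only [Function.update_of_ne hl] at h2
        exact h2
  set X := (range (M a)).filter fun x => σ * P <
    ((bx (Function.update M a 1)).filter fun m => Function.update m a x ∈ E).card with hX
  have hXD : (X.card : ℝ) ≤ D := by
    have : X.card ≤ D := by omega
    exact_mod_cast this
  have h1 : ∀ x ∈ range (M a), ((E.filter fun μ => μ a = x).card : ℝ) ≤
      (if x ∈ X then P else 0) + σ * P := by
    intro x hx
    have h2 : ((E.filter fun μ => μ a = x).card : ℝ) ≤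
        (((bx (Function.update M a 1)).filter fun m => Function.update m a x ∈ E).card : ℝ) := by
      exact_mod_cast hsl x
    by_cases hxX : x ∈ X
    · rw [if_pos hxX]
      have h3 : (((bx (Function.update M a 1)).filter
          fun m => Function.update m a x ∈ E).card : ℝ) ≤ P := by
        rw [← hbx]
        exact_mod_cast Finset.card_filter_le _ _
      have h4 : 0 ≤ σ * P := mul_nonneg hσ0 hP0
      linarith
    · rw [if_neg hxX]
      have h3 : ¬ (σ * P < ((bx (Function.update M a 1)).filter
          fun m => Function.update m a x ∈ E).card) := by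
        intro h
        exact hxX (Finset.mem_filter.mpr ⟨hx, h⟩)
      push Not at h3
      linarith
  have h2 : (E.card : ℝ) ≤ X.card * P + M a * (σ * P) := by
    rw [hfib]
    push_cast
    refine (Finset.sum_le_sum h1).trans (le_of_eq ?_)
    rw [Finset.sum_add_distrib, Finset.sum_const, Finset.card_range, nsmul_eq_mul]
    congr 1
    rw [← Finset.sum_filter, Finset.sum_const, nsmul_eq_mul]
    congr 2
    have : (range (M a)).filter (fun x => x ∈ X) = X := by
      ext x
      rw [Finset.mem_filter, hX, Finset.mem_filter]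
      tauto
    rw [this]
  rw [Finset.sum_insert ha, mul_add, ← hσ, hprod] at hcard
  have h3 : (D * (1 / (M a : ℝ)) + σ) * (M a * P) = D * P + M a * (σ * P) := by
    field_simp
  rw [h3] at hcard
  have h4 : (X.card : ℝ) * P ≤ D * P := mul_le_mul_of_nonneg_right hXD hP0
  linarith

theorem coeff_near (D : ℕ) (L : Finset ι) : ∃ C : ℕ, ∀ (R Q : ℕ), 2 ≤ R → 1 ≤ Q → ∀ ρ : ℝ, 0 ≤ ρ →
    ∀ M : ι → ℕ, (∀ l ∈ L, 0 < M l ∧ M l ≤ R) → (∀ l, l ∉ L → M l = 1) →
    ∀ g : Ex ι D → ℝ, ∀ E : Finset (ι → ℕ), E ⊆ bx M →
    (D * ∑ l ∈ L, (1 : ℝ) / M l) * (∏ l, (M l : ℝ)) < E.card →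
    (∀ μ ∈ E, ∃ β : ℚ, β.den ≤ Q ∧ |pp g μ - β| ≤ ρ) →
    ∀ γ : Ex ι D, (∀ l, l ∉ L → γ l = 0) →
      ∃ β : ℚ, β.den ≤ (Q * R) ^ C ∧ |g γ - β| ≤ (R : ℝ) ^ C * ρ := by
  induction L using Finset.induction_on with
  | empty =>
    refine ⟨1, ?_⟩
    intro R Q hR hQ ρ hρ M _ hM g E hE hcard hnear γ hγ
    have hγ0 : γ = 0 := funext fun l => hγ l (Finset.notMem_empty l)
    subst hγ0
    rw [Finset.sum_empty, mul_zero, zero_mul] at hcard
    have hEc : 0 < E.card := by exact_mod_cast hcard
    obtain ⟨μ, hμ⟩ := Finset.card_pos.mp hEc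
    have hμ0 : μ = 0 := by
      funext l
      have h1 := mem_bx.1 (hE hμ) l
      rw [hM l (Finset.notMem_empty l)] at h1
      simpa using h1
    obtain ⟨β, hβ, hb⟩ := hnear μ hμ
    rw [hμ0, pp_at_zero] at hb
    refine ⟨β, ?_, ?_⟩
    · rw [pow_one]
      exact hβ.trans (Nat.le_mul_of_pos_right _ (by omega))
    · rw [pow_one]
      have h1 : (1 : ℝ) ≤ R := by
        have : 1 ≤ R := by omega
        exact_mod_cast this
      calc _ ≤ ρ := hb
        _ = 1 * ρ := (one_mul _).symm
        _ ≤ _ := mul_le_mul_of_nonneg_right h1 hρ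
  | insert a L ha ih =>
    obtain ⟨C', hC'⟩ := ih
    refine ⟨(D + C') * (D + 1) + (3 * D + C'), ?_⟩
    intro R Q hR hQ ρ hρ M hML hM g E hE hcard hnear γ hγ
    have hR1 : 1 ≤ R := by omega
    have hR1' : (1 : ℝ) ≤ R := by exact_mod_cast hR1
    have hR2' : (2 : ℝ) ≤ R := by exact_mod_cast hR
    have hMa := (hML a (Finset.mem_insert_self a L)).1
    have hMaR := (hML a (Finset.mem_insert_self a L)).2
    have hmany := many_slices D ha hMa E hE hcard
    set X := (range (M a)).filter fun x =>
      (D * ∑ l ∈ L, (1 : ℝ) / M l) * (∏ l, (Function.update M a 1 l : ℝ)) <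
        ((bx (Function.update M a 1)).filter fun m => Function.update m a x ∈ E).card with hX
    obtain ⟨x, hxinj, hxX⟩ : ∃ x : Fin (D + 1) → ℕ, Function.Injective x ∧ ∀ s, x s ∈ X :=
      ⟨X.orderEmbOfCardLe hmany, (X.orderEmbOfCardLe hmany).injective,
        fun s => Finset.orderEmbOfCardLe_mem X hmany s⟩
    have hxM : ∀ s, x s < M a := fun s => by
      have := (Finset.mem_filter.mp (hxX s)).1
      rwa [Finset.mem_range] at this
    obtain ⟨c, hc1, hc2⟩ := lagrange_coeff hR1 x hxinj (fun s => (hxM s).trans_le hMaR)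
    -- the exponent with the variable `a` erased
    obtain ⟨γ0, hγ0⟩ : ∃ γ0 : Ex ι D, γ0 = Function.update γ a 0 := ⟨_, rfl⟩
    have hγ0a : γ0 a = 0 := by rw [hγ0, Function.update_self]
    have hγ0L : ∀ l, l ∉ L → γ0 l = 0 := by
      intro l hl
      by_cases hla : l = a
      · rw [hla, hγ0a]
      · rw [hγ0, Function.update_of_ne hla]
        apply hγ
        rw [Finset.mem_insert, not_or]
        exact ⟨hla, hl⟩
    have hγe : Function.update γ0 a (γ a) = γ := by
      rw [hγ0, Function.update_idem, Function.update_eq_self]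
    -- induction hypothesis on the slices
    have hslice : ∀ s, ∃ β : ℚ, β.den ≤ (Q * R) ^ C' ∧
        |psi {a} (Pi.single a (x s)) g γ0 - β| ≤ (R : ℝ) ^ C' * ρ := by
      intro s
      refine hC' R Q hR hQ ρ hρ (Function.update M a 1) ?_ ?_ (psi {a} (Pi.single a (x s)) g)
        ((bx (Function.update M a 1)).filter fun m => Function.update m a (x s) ∈ E)
        (Finset.filter_subset _ _) ?_ ?_ γ0 hγ0L
      · intro l hl
        have hla : l ≠ a := fun h => ha (h ▸ hl)
        rw [Function.update_of_ne hla]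
        exact hML l (Finset.mem_insert_of_mem hl)
      · intro l hl
        by_cases hla : l = a
        · rw [hla, Function.update_self]
        · rw [Function.update_of_ne hla]
          apply hM
          rw [Finset.mem_insert, not_or]
          exact ⟨hla, hl⟩
      · have h1 := (Finset.mem_filter.mp (hxX s)).2
        have h2 : ∑ l ∈ L, (1 : ℝ) / (Function.update M a 1 l : ℕ) = ∑ l ∈ L, (1 : ℝ) / M l := by
          refine Finset.sum_congr rfl fun l hl => ?_
          have hla : l ≠ a := fun h => ha (h ▸ hl)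
          rw [Function.update_of_ne hla]
        rw [h2]
        exact h1
      · intro m hm
        rw [Finset.mem_filter] at hm
        obtain ⟨β, hβ, hb⟩ := hnear _ hm.2
        refine ⟨β, hβ, ?_⟩
        have hma : m a = 0 := by
          have := mem_bx.1 hm.1 a
          rw [Function.update_self] at this
          omega
        have e : Function.update m a (x s) =
            fun l => (Pi.single a (x s) : ι → ℕ) l + m l := by
          funext l
          by_cases hla : l = a
          · rw [hla, Function.update_self, Pi.single_eq_same, hma, add_zero]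
          · rw [Function.update_of_ne hla, Pi.single_eq_of_ne hla, zero_add]
        rw [e, pp_psi {a} (μ := Pi.single a (x s)) (m := m)] at hb
        · exact hb
        · intro l hl
          rw [Finset.mem_singleton] at hl
          exact Pi.single_eq_of_ne hl _
        · intro l hl
          rw [Finset.mem_singleton] at hl
          rw [hl, hma]
    choose β hβd hβ using hslice
    -- interpolation
    have hg : g γ = ∑ s, ((c (γ a) s : ℚ) : ℝ) * psi {a} (Pi.single a (x s)) g γ0 := by
      have h1 : ∀ s, ((c (γ a) s : ℚ) : ℝ) * psi {a} (Pi.single a (x s)) g γ0 =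
          ∑ e : Fin (D + 1), g (Function.update γ0 a e) *
            (((c (γ a) s : ℚ) : ℝ) * (x s : ℝ) ^ (e : ℕ)) := by
        intro s
        rw [psi_single a (x s) g hγ0a, Finset.mul_sum]
        refine Finset.sum_congr rfl fun e _ => ?_
        ring
      rw [Finset.sum_congr rfl (fun s _ => h1 s), Finset.sum_comm]
      have h2 : ∀ e : Fin (D + 1), ∑ s, g (Function.update γ0 a e) *
          (((c (γ a) s : ℚ) : ℝ) * (x s : ℝ) ^ (e : ℕ)) =
            g (Function.update γ0 a e) * (if γ a = e then 1 else 0) := by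
        intro e
        rw [← Finset.mul_sum]
        congr 1
        have h3 := hc1 (γ a) e
        have h4 : ((∑ s, c (γ a) s * (x s : ℚ) ^ (e : ℕ) : ℚ) : ℝ) =
            ((if γ a = e then 1 else 0 : ℚ) : ℝ) := by rw [h3]
        push_cast at h4
        rw [h4]
        split_ifs <;> simp
      rw [Finset.sum_congr rfl (fun e _ => h2 e)]
      simp only [mul_ite, mul_one, mul_zero, Finset.sum_ite_eq, Finset.mem_univ, if_true]
      rw [hγe]
    refine ⟨∑ s, c (γ a) s * β s, ?_, ?_⟩
    · have h1 : (∑ s, c (γ a) s * β s).den ≤ ∏ s, (c (γ a) s * β s).den :=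
        Nat.le_of_dvd (Finset.prod_pos fun s _ => Rat.den_pos _) (sum_den_dvd _ _)
      have hQR : 1 ≤ Q * R := Nat.one_le_iff_ne_zero.mpr (by positivity)
      have hRQR : R ≤ Q * R := Nat.le_mul_of_pos_left _ (by omega)
      have h2 : ∀ s ∈ (univ : Finset (Fin (D + 1))),
          (c (γ a) s * β s).den ≤ (Q * R) ^ (D + C') := by
        intro s _
        refine (Nat.le_of_dvd (Nat.mul_pos (Rat.den_pos _) (Rat.den_pos _))
          (Rat.mul_den_dvd _ _)).trans ?_
        rw [pow_add]
        exact Nat.mul_le_mul (((hc2 (γ a) s).1).trans (Nat.pow_le_pow_left hRQR D)) (hβd s)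
      have h3 := Finset.prod_le_prod' h2
      rw [Finset.prod_const, Finset.card_univ, Fintype.card_fin, ← pow_mul] at h3
      refine (h1.trans h3).trans ?_
      exact Nat.pow_le_pow_right hQR (Nat.le_add_right _ _)
    · rw [hg]
      push_cast
      rw [← Finset.sum_sub_distrib]
      have hD1 : ((D : ℝ) + 1) ≤ (R : ℝ) ^ D := by
        have h1 : D + 1 ≤ 2 ^ D := Nat.lt_two_pow_self
        have h2 : (2 : ℝ) ^ D ≤ (R : ℝ) ^ D := pow_le_pow_left₀ (by norm_num) hR2' D
        have h3 : ((D : ℝ) + 1) ≤ 2 ^ D := by exact_mod_cast h1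
        linarith
      have h2R : ((2 : ℝ) * R) ^ D ≤ (R : ℝ) ^ (2 * D) := by
        rw [pow_mul, sq]
        exact pow_le_pow_left₀ (by positivity)
          (mul_le_mul_of_nonneg_right hR2' (by positivity)) D
      have h1 : ∀ s ∈ (univ : Finset (Fin (D + 1))),
          |((c (γ a) s : ℚ) : ℝ) * psi {a} (Pi.single a (x s)) g γ0 -
            ((c (γ a) s : ℚ) : ℝ) * (β s : ℝ)| ≤ ((2 : ℝ) * R) ^ D * ((R : ℝ) ^ C' * ρ) := by
        intro s _
        rw [← mul_sub, abs_mul]
        have h2 : |((c (γ a) s : ℚ) : ℝ)| ≤ ((2 : ℝ) * R) ^ D := by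
          have h3 := (hc2 (γ a) s).2
          have h4 : ((|c (γ a) s| : ℚ) : ℝ) ≤ ((((2 * R : ℕ) : ℚ) ^ D : ℚ) : ℝ) := by
            exact_mod_cast h3
          push_cast at h4
          exact h4
        exact mul_le_mul h2 (hβ s) (abs_nonneg _) (by positivity)
      refine (Finset.abs_sum_le_sum_abs _ _).trans ((Finset.sum_le_sum h1).trans ?_)
      rw [Finset.sum_const, Finset.card_univ, Fintype.card_fin, nsmul_eq_mul]
      push_cast
      have h3 : ((D : ℝ) + 1) * (((2 : ℝ) * R) ^ D * ((R : ℝ) ^ C' * ρ)) ≤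
          (R : ℝ) ^ D * ((R : ℝ) ^ (2 * D) * ((R : ℝ) ^ C' * ρ)) := by
        apply mul_le_mul hD1 _ (by positivity) (by positivity)
        exact mul_le_mul_of_nonneg_right h2R (by positivity)
      refine h3.trans ?_
      have h4 : (R : ℝ) ^ D * ((R : ℝ) ^ (2 * D) * ((R : ℝ) ^ C' * ρ)) =
          (R : ℝ) ^ (3 * D + C') * ρ := by
        rw [← mul_assoc, ← mul_assoc, ← pow_add, ← pow_add]
        congr 2
        ring
      rw [h4]
      apply mul_le_mul_of_nonneg_right _ hρ
      exact pow_le_pow_right₀ hR1' (Nat.le_add_left _ _)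

end Pool.Agent.Lib.Pf720mp
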