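import Pool.Agent.Lib.Pf720mp.GapDefs
import Pool.Agent.Lib.Pf720mp.LemV

/-!
# Freezing small parameters: few active values

`few_active`. Fix `δ ∈ G1 L W`, `γ = cut L δ ∈ GV W`, so `tauW W j δ = tauW W j γ`. Let
`Λ = bx (res L (Mj K p))`. Suppose that more than `D |L| 2 ^ (-i) |Λ|` of the `μ ∈ Λ` are active; for
such `μ` choose `j_μ` and let `r_μ = tauW W j_μ γ`, let `μ₁` minimise `r_μ`, `r = r_{μ₁}`.
As `KK W i … (psi L μ θ) ≠ 0` some `b` represents `psi L μ θ`, so `psi L μ θ γ` is within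
`2 ^ (i+1) / mon ≤ 2 ^ (i + 1 - r_μ) ≤ 2 ^ (i+1-r)` of the rational `b γ` of denominator `≤ 2 ^ i`.
By `psi_eq_pp`, `psi L μ θ γ = pp g μ` with `g γ' = θ (join L γ' γ)` for `γ'` supported in `L`. `coeff_near`
gives for `γ' = ` the part of `δ` supported in `L` (`join L γ' γ = δ`) a rational `β` of denominator
`≤ 2 ^ (C₃ i)` with `|θ δ - β| ≤ 2 ^ (C₃ i - r)`, a contradiction.
-/

set_option autoImplicit false
set_option linter.unusedSectionVars false

open Finset Filter Topology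

namespace Pool.Agent.Lib.Pf720mp

variable {ι : Type} [Fintype ι] [DecidableEq ι] {D : ℕ}

/-- a nonzero main term has a representing rational point -/
lemma exists_rep {V : Finset ι} {t : ℕ} {M : ι → ℕ} {θ : Ex ι D → ℝ} (h : KK V t M θ ≠ 0) :
    ∃ b, Rep V t M θ b := by
  by_contra hcon
  unfold KK at h
  rw [dif_neg hcon] at h
  exact h rfl

lemma cut_mem_GV {L W : Finset ι} (hLW : Disjoint L W) {δ : Ex ι D} (hδ : δ ∈ (G1 L W : Finset (Ex ι D))) :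
    cut L δ ∈ (GV W : Finset (Ex ι D)) := by
  unfold G1 at hδ
  rw [Finset.mem_filter, mem_GV] at hδ
  obtain ⟨⟨_, h0⟩, l, hlW, hl⟩ := hδ
  have hlL : l ∉ L := fun h => (Finset.disjoint_left.mp hLW h) hlW
  rw [mem_GV]
  constructor
  · intro h
    have := congrFun h l
    unfold cut at this
    rw [if_neg hlL] at this
    exact hl this
  · intro l' hl'
    unfold cut
    split_ifs with hL
    · rfl
    · apply h0
      rw [Finset.mem_union, not_or]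
      exact ⟨hL, hl'⟩

lemma tauW_cut {L W : Finset ι} (hLW : Disjoint L W) (j : ι → ℕ) (δ : Ex ι D) :
    tauW W j (cut L δ) = tauW W j δ := by
  unfold tauW
  refine Finset.sum_congr rfl fun l hl => ?_
  have hlL : l ∉ L := fun h => (Finset.disjoint_left.mp hLW h) hl
  unfold cut
  rw [if_neg hlL]

lemma two_pow_tauW_le {W : Finset ι} {K : ι → ℕ} (hK : ∀ l, 0 < K l) (j : ι → ℕ) (γ : Ex ι D) :
    2 ^ tauW W j γ ≤ mon (res W (Mj K j)) γ := by
  rw [mon_res]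
  unfold tauW Mj
  rw [← Finset.prod_pow_eq_pow_sum]
  refine Finset.prod_le_prod' fun l _ => ?_
  rw [pow_mul]
  exact Nat.pow_le_pow_left (Nat.le_mul_of_pos_left _ (hK l)) _

lemma le_tauW {W : Finset ι} {j : ι → ℕ} {N : ℕ} (hj : ∀ l ∈ W, N ≤ j l) {γ : Ex ι D}
    (hγ : γ ∈ (GV W : Finset (Ex ι D))) : N ≤ tauW W j γ := by
  rw [mem_GV] at hγ
  obtain ⟨h0, hW⟩ := hγ
  obtain ⟨l, hl⟩ : ∃ l, γ l ≠ 0 := by
    by_contra hcon
    push Not at hcon
    exact h0 (funext hcon)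
  have hlW : l ∈ W := by
    by_contra h
    exact hl (hW l h)
  have h1 : 1 ≤ (γ l : ℕ) := by
    rw [Nat.one_le_iff_ne_zero]
    intro h
    exact hl (Fin.ext h)
  unfold tauW
  refine le_trans ?_ (Finset.single_le_sum (f := fun l => j l * (γ l : ℕ))
    (fun _ _ => Nat.zero_le _) hlW)
  exact (hj l hlW).trans (Nat.le_mul_of_pos_right _ h1)

/-- part (2) of the header: few `μ` are active -/
theorem few_active {L W : Finset ι} (hLW : Disjoint L W) {K : ι → ℕ} (hK : ∀ l, 0 < K l)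
    (Ca : ℕ) : ∃ c : ℕ, ∀ C₃ : ℕ, c ≤ C₃ → ∀ (i : ℕ), 1 ≤ i → ∀ p : ι → ℕ,
    (∀ l ∈ L, i ≤ p l ∧ p l ≤ Ca * i) → ∀ δ ∈ (G1 L W : Finset (Ex ι D)), ∀ θ : Ex ι D → ℝ,
    ∀ E : Finset (ι → ℕ), E ⊆ bx (res L (Mj K p)) →
    (∀ μ ∈ E, ∃ j ∈ Sp L W p (2 * C₃ * i), KK W i (res W (Mj K j)) (psi L μ θ) ≠ 0 ∧
      XX (C₃ * i) (tauW W j δ - C₃ * i) (θ δ) ≠ 1) →
    (E.card : ℝ) ≤ D * L.card * (1 / 2) ^ i * (bx (res L (Mj K p))).card := by
  classical
  obtain ⟨CV, hCV⟩ := coeff_near (ι := ι) D L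
  obtain ⟨k0, hk0⟩ : ∃ k0 : ℕ, k0 = ∑ l, K l := ⟨_, rfl⟩
  refine ⟨(2 + k0 + Ca) * CV + 2, ?_⟩
  intro C₃ hC₃ i hi p hp δ hδ θ E hE hact
  by_contra hcon
  push Not at hcon
  -- choices
  have hact' : ∀ μ : ι → ℕ, ∃ j : ι → ℕ, μ ∈ E → j ∈ Sp L W p (2 * C₃ * i) ∧
      KK W i (res W (Mj K j)) (psi L μ θ) ≠ 0 ∧
      XX (C₃ * i) (tauW W j δ - C₃ * i) (θ δ) ≠ 1 := by
    intro μ
    by_cases hμ : μ ∈ E
    · obtain ⟨j, h1, h2⟩ := hact μ hμ
      exact ⟨j, fun _ => ⟨h1, h2⟩⟩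
    · exact ⟨p, fun h => absurd h hμ⟩
  choose J hJ using hact'
  have hEne : E.Nonempty := by
    rw [← Finset.card_pos]
    have : (0 : ℝ) < E.card := lt_of_le_of_lt (by positivity) hcon
    exact_mod_cast this
  obtain ⟨μ₁, hμ₁, hmin⟩ := Finset.exists_min_image E (fun μ => tauW W (J μ) (cut L δ)) hEne
  set γ := cut L δ with hγ
  have hγW : γ ∈ (GV W : Finset (Ex ι D)) := cut_mem_GV hLW hδ
  set r := tauW W (J μ₁) γ with hr
  have hr2 : 2 * C₃ * i ≤ r := le_tauW (fun l hl => (hJ μ₁ hμ₁).1.2 l hl) hγW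
  -- the box
  obtain ⟨M, hM⟩ : ∃ M : ι → ℕ, M = res L (Mj K p) := ⟨_, rfl⟩
  have hMoff : ∀ l, l ∉ L → M l = 1 := fun l hl => by rw [hM, res_of_notMem hl]
  have hMon : ∀ l ∈ L, M l = K l * 2 ^ p l := fun l hl => by
    rw [hM, res_of_mem hl]
    rfl
  rw [← hM] at hE hcon
  obtain ⟨R, hR⟩ : ∃ R : ℕ, R = 2 ^ ((k0 + Ca + 1) * i) := ⟨_, rfl⟩
  have hKk : ∀ l, K l ≤ 2 ^ k0 := by
    intro l
    have h1 : K l ≤ k0 := by
      rw [hk0]
      exact Finset.single_le_sum (f := K) (fun _ _ => Nat.zero_le _) (Finset.mem_univ l)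
    exact h1.trans Nat.lt_two_pow_self.le
  have hMR : ∀ l ∈ L, 0 < M l ∧ M l ≤ R := by
    intro l hl
    rw [hMon l hl]
    refine ⟨Nat.mul_pos (hK l) (by positivity), ?_⟩
    refine (Nat.mul_le_mul (hKk l) (Nat.pow_le_pow_right (by norm_num) (hp l hl).2)).trans ?_
    rw [hR, ← pow_add]
    apply Nat.pow_le_pow_right (by norm_num)
    nlinarith
  have hR2 : 2 ≤ R := by
    rw [hR]
    calc 2 = 2 ^ 1 := by norm_num
      _ ≤ _ := Nat.pow_le_pow_right (by norm_num) (by nlinarith)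
  have hQ1 : 1 ≤ 2 ^ i := Nat.one_le_two_pow
  obtain ⟨ρ, hρ⟩ : ∃ ρ : ℝ, ρ = 2 ^ (i + 1) / 2 ^ r := ⟨_, rfl⟩
  have hρ0 : 0 ≤ ρ := by
    rw [hρ]
    positivity
  obtain ⟨g, hg⟩ : ∃ g : Ex ι D → ℝ, g =
    fun γ' => if ∀ l, l ∉ L → γ' l = 0 then θ (join L γ' γ) else 0 := ⟨_, rfl⟩
  have hcount : (D * ∑ l ∈ L, (1 : ℝ) / M l) * (∏ l, (M l : ℝ)) < E.card := by
    refine lt_of_le_of_lt ?_ hcon
    rw [card_bx]
    push_cast
    apply mul_le_mul_of_nonneg_right _ (Finset.prod_nonneg fun l _ => Nat.cast_nonneg _)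
    rw [mul_assoc]
    apply mul_le_mul_of_nonneg_left _ (Nat.cast_nonneg _)
    rw [← nsmul_eq_mul, ← Finset.sum_const]
    refine Finset.sum_le_sum fun l hl => ?_
    rw [one_div, one_div, inv_pow]
    apply inv_anti₀ (by positivity)
    rw [hMon l hl]
    have h1 : 2 ^ i ≤ K l * 2 ^ p l :=
      (Nat.pow_le_pow_right (by norm_num) (hp l hl).1).trans
        (Nat.le_mul_of_pos_left _ (hK l))
    exact_mod_cast h1
  have hnear : ∀ μ ∈ E, ∃ β : ℚ, β.den ≤ 2 ^ i ∧ |pp g μ - β| ≤ ρ := by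
    intro μ hμ
    obtain ⟨_, hKKne, _⟩ := hJ μ hμ
    obtain ⟨b, _, ⟨q, hq0, hq, hqb⟩, hb⟩ := exists_rep hKKne
    obtain ⟨n, hn⟩ := hqb γ
    refine ⟨b γ, (den_le_of_mul_int hq0 hn).trans hq, ?_⟩
    have hμoff : ∀ l, l ∉ L → μ l = 0 := by
      intro l hl
      have := mem_bx.1 (hE hμ) l
      rw [hMoff l hl] at this
      omega
    have hγL : ∀ l ∈ L, γ l = 0 := by
      intro l hl
      rw [hγ]
      unfold cut
      rw [if_pos hl]
    rw [hg, ← psi_eq_pp L hμoff θ hγL]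
    have h1 := hb γ hγW
    have h2 : r ≤ tauW W (J μ) γ := hmin μ hμ
    have h3 : (2 : ℝ) ^ r ≤ mon (res W (Mj K (J μ))) γ := by
      have h4 : 2 ^ r ≤ mon (res W (Mj K (J μ))) γ :=
        (Nat.pow_le_pow_right (by norm_num) h2).trans (two_pow_tauW_le hK (J μ) γ)
      exact_mod_cast h4
    rw [abs_mul, Nat.abs_cast] at h1
    rw [hρ, le_div_iff₀ (by positivity)]
    calc _ ≤ |psi L μ θ γ - b γ| * (mon (res W (Mj K (J μ))) γ : ℝ) :=
          mul_le_mul_of_nonneg_left h3 (abs_nonneg _)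
      _ = (mon (res W (Mj K (J μ))) γ : ℝ) * |psi L μ θ γ - b γ| := mul_comm _ _
      _ ≤ _ := h1
  obtain ⟨β, hβ, hb⟩ := hCV R (2 ^ i) hR2 hQ1 ρ hρ0 M hMR hMoff g E hE hcount hnear
    (fun l => if l ∈ L then δ l else 0) (fun l hl => if_neg hl)
  have hgδ : g (fun l => if l ∈ L then δ l else 0) = θ δ := by
    rw [hg]
    simp only
    rw [if_pos (fun l hl => if_neg hl)]
    congr 1
    funext l
    unfold join
    split_ifs with h
    · exact if_pos h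
    · rw [hγ]
      unfold cut
      rw [if_neg h]
  rw [hgδ] at hb
  have hfin : XX (C₃ * i) (tauW W (J μ₁) δ - C₃ * i) (θ δ) = 1 := by
    refine XX_eq_one_of (β := β) ?_ ?_
    · refine hβ.trans ?_
      rw [hR, ← pow_add, ← pow_mul]
      apply Nat.pow_le_pow_right (by norm_num)
      have h1 : (i + (k0 + Ca + 1) * i) * CV = ((2 + k0 + Ca) * CV) * i := by ring
      rw [h1]
      exact Nat.mul_le_mul_right i (by omega)
    · refine hb.trans ?_
      rw [← tauW_cut hLW (J μ₁) δ, ← hγ, ← hr]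
      have hC : C₃ * i ≤ r := by
        refine le_trans ?_ hr2
        nlinarith
      have h1 : ((R : ℝ)) ^ CV * ρ ≤ 2 ^ (C₃ * i) / 2 ^ r := by
        rw [hρ, ← mul_div_assoc]
        apply div_le_div_of_nonneg_right _ (by positivity)
        rw [hR]
        push_cast
        rw [← pow_mul, ← pow_add]
        apply pow_le_pow_right₀ (by norm_num)
        have h2 : (k0 + Ca + 1) * i * CV + (i + 1) ≤ ((2 + k0 + Ca) * CV + 2) * i := by
          nlinarith [Nat.zero_le (i * CV)]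
        exact h2.trans (Nat.mul_le_mul_right i hC₃)
      refine h1.trans (le_of_eq ?_)
      obtain ⟨u, hu⟩ : ∃ u, r = C₃ * i + u := ⟨r - C₃ * i, by omega⟩
      rw [hu, Nat.add_sub_cancel_left, pow_add, one_div, inv_pow]
      field_simp
  exact (hJ μ₁ hμ₁).2.2 hfin

end Pool.Agent.Lib.Pf720mp
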