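import Pool.Agent.Lib.Pf720mp.SumC

/-!
# Maximal inequality on finite tori, all boxes

Let `V = univ`, `K = 1` (`Mj 1 j l = 2 ^ j l`, `res univ M = M`). `ss_all` with `t = 1` and `KK_mx` with
`t = 1`: for `c = max C₀ (2 C₁)`, `MxLe {j | ∀ l, c ≤ j l} (AA (Mj 1 j) ∘ fq) B`. For general `M` (all
`M l ≥ 1`) let `j l = max c (Nat.clog 2 (M l))`, so `M l ≤ 2 ^ j l ≤ 2 ^ (c+1) M l`. With `|F|` in place
of `F` (`op_AA`):
`|avg_{bx M} F (x + gam m)| ≤ avg_{bx M} |F| ≤ 2 ^ ((c+1) |ι|) avg_{bx (2 ^ j)} |F|`.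
-/

set_option autoImplicit false
set_option linter.unusedSectionVars false

open Finset Filter Topology

namespace Pool.Agent.Lib.Pf720mp

variable {ι : Type} [Fintype ι] [DecidableEq ι]

/-- averages along the polynomial embedding on a finite torus -/
noncomputable def TA {D L : ℕ} (F : (Ex ι D → ZMod L) → ℂ) (x : Ex ι D → ZMod L) (M : ι → ℕ) : ℂ :=
  (∏ l, (M l : ℂ))⁻¹ * ∑ m ∈ bx M, F (x + gam L m)

lemma FinMax.two_pow_le (c n : ℕ) (hn : 0 < n) : 2 ^ max c (Nat.clog 2 n) ≤ 2 ^ (c + 1) * n := by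
  have h1 : 1 ≤ 2 ^ c := Nat.one_le_two_pow
  rcases le_total c (Nat.clog 2 n) with h | h
  · rw [max_eq_right h]
    have h2 : 2 ^ Nat.clog 2 n ≤ 2 * n := by
      rcases Nat.lt_or_ge 1 n with h3 | h3
      · have h4 := Nat.pow_pred_clog_lt_self (b := 2) (by norm_num) h3
        have h5 : 0 < Nat.clog 2 n := Nat.clog_pos (by norm_num) h3
        have h6 : Nat.clog 2 n = (Nat.clog 2 n).pred + 1 := by
          rw [← Nat.succ_eq_add_one, Nat.succ_pred_eq_of_pos h5]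
        rw [h6, pow_succ]
        omega
      · have h4 : n = 1 := by omega
        subst h4
        simp
    calc 2 ^ Nat.clog 2 n ≤ 2 * n := h2
      _ ≤ 2 ^ (c + 1) * n := Nat.mul_le_mul_right _ (by
        rw [pow_succ]; omega)
  · rw [max_eq_left h, pow_succ]
    nlinarith

lemma FinMax.pointwise {D L : ℕ} (F : (Ex ι D → ZMod L) → ℂ) (x : Ex ι D → ZMod L) {M j : ι → ℕ}
    {Q : ℕ} (hM : ∀ l, 0 < M l) (h1 : ∀ l, M l ≤ 2 ^ j l) (h2 : ∀ l, 2 ^ j l ≤ Q * M l) :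
    ‖TA F x M‖ ≤ (Q : ℝ) ^ Fintype.card ι * ‖TA (fun y => ((‖F y‖ : ℝ) : ℂ)) x fun l => 2 ^ j l‖ := by
  have h3 : ‖TA F x M‖ ≤ (∏ l, (M l : ℝ))⁻¹ * ∑ m ∈ bx M, ‖F (x + gam L m)‖ := by
    unfold TA
    rw [norm_mul, norm_inv, norm_prod]
    simp only [Complex.norm_natCast]
    exact mul_le_mul_of_nonneg_left (norm_sum_le _ _) (by positivity)
  have h4 : ‖TA (fun y => ((‖F y‖ : ℝ) : ℂ)) x fun l => 2 ^ j l‖ =
      (∏ l, ((2 ^ j l : ℕ) : ℝ))⁻¹ * ∑ m ∈ bx (fun l => 2 ^ j l), ‖F (x + gam L m)‖ := by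
    unfold TA
    rw [norm_mul, norm_inv, norm_prod]
    simp only [Complex.norm_natCast]
    congr 1
    rw [← Complex.ofReal_sum, Complex.norm_real, Real.norm_eq_abs,
      abs_of_nonneg (Finset.sum_nonneg fun _ _ => norm_nonneg _)]
  rw [h4]
  refine h3.trans ?_
  have hsub : bx M ⊆ bx fun l => 2 ^ j l := by
    intro m hm
    exact mem_bx.2 fun l => (mem_bx.1 hm l).trans_le (h1 l)
  have h5 : ∑ m ∈ bx M, ‖F (x + gam L m)‖ ≤ ∑ m ∈ bx (fun l => 2 ^ j l), ‖F (x + gam L m)‖ :=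
    Finset.sum_le_sum_of_subset_of_nonneg hsub fun _ _ _ => norm_nonneg _
  have h6 : (∏ l, (M l : ℝ))⁻¹ ≤ (Q : ℝ) ^ Fintype.card ι * (∏ l, ((2 ^ j l : ℕ) : ℝ))⁻¹ := by
    have hMp : 0 < ∏ l, (M l : ℝ) := Finset.prod_pos fun l _ => Nat.cast_pos.2 (hM l)
    have hJp : 0 < ∏ l, ((2 ^ j l : ℕ) : ℝ) :=
      Finset.prod_pos fun l _ => Nat.cast_pos.2 (Nat.pow_pos (by norm_num))
    rw [inv_le_iff_one_le_mul₀ hMp, mul_comm ((Q : ℝ) ^ Fintype.card ι), mul_assoc,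
      ← div_eq_inv_mul, one_le_div hJp]
    have h7 : ∏ l, ((2 ^ j l : ℕ) : ℝ) ≤ ∏ l, ((Q : ℝ) * M l) := by
      refine Finset.prod_le_prod (fun _ _ => Nat.cast_nonneg _) fun l _ => ?_
      exact_mod_cast h2 l
    refine h7.trans (le_of_eq ?_)
    rw [Finset.prod_mul_distrib, Finset.prod_const, Finset.card_univ]
  calc (∏ l, (M l : ℝ))⁻¹ * ∑ m ∈ bx M, ‖F (x + gam L m)‖
      ≤ ((Q : ℝ) ^ Fintype.card ι * (∏ l, ((2 ^ j l : ℕ) : ℝ))⁻¹) *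
        ∑ m ∈ bx (fun l => 2 ^ j l), ‖F (x + gam L m)‖ :=
        mul_le_mul h6 h5 (Finset.sum_nonneg fun _ _ => norm_nonneg _) (by positivity)
    _ = _ := mul_assoc _ _ _

theorem maxfin_mp (ι : Type) [Fintype ι] [DecidableEq ι] (D : ℕ) : ∃ A : ℝ, 0 ≤ A ∧
    ∀ (L : ℕ) [NeZero L] (F : (Ex ι D → ZMod L) → ℂ) (M : (Ex ι D → ZMod L) → ι → ℕ),
      (∀ x l, 0 < M x l) → ∑ x, ‖TA F x (M x)‖ ^ 2 ≤ A * ∑ x, ‖F x‖ ^ 2 := by
  have hK : ∀ l : ι, 0 < (fun _ : ι => 1) l := fun _ => one_pos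
  obtain ⟨C₀, C, ρ, hC, hρ, hρ1, hSS⟩ := ss_all (ι := ι) D univ (fun _ => 1) hK
  obtain ⟨C₁, C', hC', hKK⟩ := KK_mx (D := D) (univ : Finset ι) (fun _ => 1) hK
  set c : ℕ := max (C₀ * 1) (C₁ * (1 + 1)) with hc
  set B₁ : ℝ := C * ρ ^ 1 with hB₁
  set B₂ : ℝ := C' * (((1 : ℕ) : ℝ) + 1) ^ (GV (univ : Finset ι) : Finset (Ex ι D)).card with hB₂
  have hB₁0 : 0 ≤ B₁ := by positivity
  have hB₂0 : 0 ≤ B₂ := by positivity
  refine ⟨(((2 ^ (c + 1) : ℕ) : ℝ) ^ Fintype.card ι) ^ 2 * (B₁ + B₂) ^ 2, by positivity, ?_⟩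
  intro L _ F M hM
  have hres : ∀ j : ι → ℕ, res univ (Mj (fun _ => 1) j) = fun l => 2 ^ j l := by
    intro j
    funext l
    rw [res_of_mem (Finset.mem_univ l), Mj, one_mul]
  have hmx : MxLe {j : ι → ℕ | ∀ l, c ≤ j l}
      (fun j (a : Ex ι D → ZMod L) => AA (fun l => 2 ^ j l) (fq a)) (B₁ + B₂) := by
    have h1 := mx_subset (S' := {j : ι → ℕ | ∀ l, c ≤ j l}) (hSS L 1 le_rfl)
      (fun j hj l _ => (le_max_left _ _).trans (hj l))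
    have h2 := mx_subset (S' := {j : ι → ℕ | ∀ l, c ≤ j l}) (hKK L 1)
      (fun j hj l _ => (le_max_right _ _).trans (hj l))
    refine mx_congr (mx_add h1 h2 hB₁0 hB₂0) fun j _ a => ?_
    rw [hres j]
    ring
  set j : (Ex ι D → ZMod L) → ι → ℕ := fun x l => max c (Nat.clog 2 (M x l)) with hj
  have h3 := hmx (fun y => ((‖F y‖ : ℝ) : ℂ)) j (fun x l => le_max_left _ _)
  have h4 : nn (fun y : Ex ι D → ZMod L => ((‖F y‖ : ℝ) : ℂ)) = ∑ x, ‖F x‖ ^ 2 := by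
    unfold nn
    refine Finset.sum_congr rfl fun x _ => ?_
    rw [Complex.norm_real, norm_norm]
  rw [h4] at h3
  have h5 : ∀ x, ‖TA F x (M x)‖ ^ 2 ≤ (((2 ^ (c + 1) : ℕ) : ℝ) ^ Fintype.card ι) ^ 2 *
      ‖op (fun a : Ex ι D → ZMod L => AA (fun l => 2 ^ j x l) (fq a))
        (fun y => ((‖F y‖ : ℝ) : ℂ)) x‖ ^ 2 := by
    intro x
    rw [op_AA, ← mul_pow]
    refine pow_le_pow_left₀ (norm_nonneg _) ?_ 2
    exact FinMax.pointwise F x (hM x)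
      (fun l => (Nat.le_pow_clog (by norm_num) _).trans
        (Nat.pow_le_pow_right (by norm_num) (le_max_right _ _)))
      (fun l => FinMax.two_pow_le c _ (hM x l))
  calc ∑ x, ‖TA F x (M x)‖ ^ 2 ≤ ∑ x, (((2 ^ (c + 1) : ℕ) : ℝ) ^ Fintype.card ι) ^ 2 *
      ‖op (fun a : Ex ι D → ZMod L => AA (fun l => 2 ^ j x l) (fq a))
        (fun y => ((‖F y‖ : ℝ) : ℂ)) x‖ ^ 2 := Finset.sum_le_sum fun x _ => h5 x
    _ = (((2 ^ (c + 1) : ℕ) : ℝ) ^ Fintype.card ι) ^ 2 * ∑ x,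
      ‖op (fun a : Ex ι D → ZMod L => AA (fun l => 2 ^ j x l) (fq a))
        (fun y => ((‖F y‖ : ℝ) : ℂ)) x‖ ^ 2 := by rw [Finset.mul_sum]
    _ ≤ (((2 ^ (c + 1) : ℕ) : ℝ) ^ Fintype.card ι) ^ 2 * ((B₁ + B₂) ^ 2 * ∑ x, ‖F x‖ ^ 2) :=
        mul_le_mul_of_nonneg_left h3 (by positivity)
    _ = _ := (mul_assoc _ _ _).symm

end Pool.Agent.Lib.Pf720mp
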