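import Pool.Agent.Lib.Pf720mp.GapDefs

/-!
# Freezing small parameters: the dense part is structured

Family `m j θ = (mm L W K i j θ - KK (L ∪ W) t (res (L ∪ W) (Mj K j)) θ) * XP L W T j θ` with
`T = C₃ i`, `t ≤ i`, on `Sp L W p (Cb i)`, where `i ≤ p l ≤ Ca i` on `L`. Facts:
* for `γ ∈ G1 L W`: `tau j γ = (∑_{l ∈ L} p l * γ l) + tauW W j γ`, `cut L γ ∈ GV W` and
  `tau j (cut L γ) = tauW W j γ`, `tauW W j γ ≥ Cb i`;
* `C₃` is chosen such that `16 * (max K) ^ (2 D |ι|) 2 ^ (Ca i D |ι|) ≤ 2 ^ (C₃ i)` (as `i ≥ 1`), then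
  `Cb` such that `Cb i ≥ 20 (D + 1) ^ |ι| (C₃ + 1) i`.

`inv`: let `j, j', θ, θ', β` be as in `Str.inv` and `u γ = 2 ^ tauW W j γ (θ γ - β γ)`, `|u γ| ≤ 2 ^ T`.
(a) `XP = 1` at `(j, θ)` and `(j', θ')` (`XX_eq_one_of`: `|θ γ - β| ≤ 2 ^ T / 2 ^ tauW =
(1/2) ^ (tauW - T)`).
(b) `KK (L ∪ W) t` agrees by `KK_inv`: for `γ ∈ GV (L ∪ W)` not in `G1` (supported in `L`) the scales
`mon (res _ (Mj K j)) γ = mon (res _ (Mj K j')) γ` agree as `j = j' = p` on `L`, and `θ γ = θ' γ`; for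
`γ ∈ G1` use `β γ` (`mon = mon (res _ K) γ * 2 ^ (∑_{L} p l γ l) * 2 ^ tauW`), and `θ 0 = θ' 0`.
(c) for each `μ`, `KK W i (res W (Mj K j)) (psi L μ θ) = KK W i (res W (Mj K j')) (psi L μ θ')` by `KK_inv`:
`psi L μ θ 0 = psi L μ θ' 0` (`psi_zero_congr`: exponents supported in `L` are not in `G1`); for
`γ ∈ GV W` take the rational `β'_γ = ∑_δ wt L μ γ δ * β δ` (only `δ` with `cut L δ = γ` matter, and these
are in `G1 L W` if `δ` is supported in `L ∪ W`; if `δ` is not supported in `L ∪ W` then neither is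
`γ = cut L δ`, impossible), denominator `≤ 2 ^ (T (D+1)^|ι|)`; `psi L μ θ γ - β'_γ =
∑_δ wt L μ γ δ (θ δ - β δ)` (`psi_sub`), times `2 ^ tauW W j γ` it is `∑_δ wt * u δ`, the same for
`θ', j'`; the smallness conditions of `KK_inv` (with `T := T (D+1)^|ι|`) hold because
`2 ^ (Cb i)` is huge.
`supp`: `XP ≠ 0` gives `β` (`exists_of_XX`) with `|θ γ - β| ≤ (1/2) ^ (tauW - T)`.
`lip`: `γ ∈ G1`, `|2 ^ tauW (θ γ - β)| ≤ 1`: the factor `XX T (tauW - T)` is `1` at `θ γ` and at `β`, the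
other factors are unchanged. The difference of the `mm` is at most
`max_μ 8 mon (res W (Mj K j)) (cut L γ) * wt L μ (cut L γ) γ * |θ γ - β|` by `KK_lip`
(`psi L μ θ - psi L μ (update θ γ β)` is supported at `cut L γ ∈ GV W`, `psi_sub`), that of `KK (L ∪ W) t` at
most `8 mon (res (L ∪ W) (Mj K j)) γ |θ γ - β|`; both are `≤ 2 ^ (C₃ i) / 2 * |2 ^ tauW (θ γ - β)|`.
-/

set_option autoImplicit false
set_option linter.unusedSectionVars false

open Finset Filter Topology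
open Pool.Agent.Lib.Pf720ae.Poly (ee ee_zero ee_add norm_ee ee_int ee_add_int norm_ee_sub_le)

namespace Pool.Agent.Lib.Pf720mp

variable {ι : Type} [Fintype ι] [DecidableEq ι] {D : ℕ}

namespace GapBAux

theorem mon_union {L W : Finset ι} (hLW : Disjoint L W) (K p j : ι → ℕ)
    (hj : ∀ l ∈ L, j l = p l) (γ : Ex ι D) :
    mon (res (L ∪ W) (Mj K j)) γ =
      ((∏ l ∈ L, (K l * 2 ^ p l) ^ (γ l : ℕ)) * ∏ l ∈ W, K l ^ (γ l : ℕ)) * 2 ^ tauW W j γ := by
  rw [mon_res, Finset.prod_union hLW, tauW, ← Finset.prod_pow_eq_pow_sum, mul_assoc,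
    ← Finset.prod_mul_distrib]
  congr 1
  · refine Finset.prod_congr rfl fun l hl => ?_
    rw [Mj, hj l hl]
  · refine Finset.prod_congr rfl fun l hl => ?_
    rw [Mj, mul_pow, ← pow_mul]

theorem mon_W (W : Finset ι) (K j : ι → ℕ) (γ : Ex ι D) :
    mon (res W (Mj K j)) γ = (∏ l ∈ W, K l ^ (γ l : ℕ)) * 2 ^ tauW W j γ := by
  rw [mon_res, tauW, ← Finset.prod_pow_eq_pow_sum, ← Finset.prod_mul_distrib]
  refine Finset.prod_congr rfl fun l hl => ?_
  rw [Mj, mul_pow, ← pow_mul]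

theorem prod_pow_le (s : Finset ι) (a : ι → ℕ) (m : ℕ) (ha : ∀ l ∈ s, a l ≤ 2 ^ m)
    (γ : Ex ι D) : ∏ l ∈ s, a l ^ (γ l : ℕ) ≤ 2 ^ (m * (D * Fintype.card ι)) := by
  calc ∏ l ∈ s, a l ^ (γ l : ℕ) ≤ ∏ _l ∈ s, (2 ^ m) ^ D := by
        refine Finset.prod_le_prod' fun l hl => ?_
        have h1 : (γ l : ℕ) ≤ D := Nat.lt_succ_iff.1 (γ l).2
        exact (Nat.pow_le_pow_left (ha l hl) _).trans
          (Nat.pow_le_pow_right (by positivity) h1)
    _ = 2 ^ (m * (D * s.card)) := by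
        rw [Finset.prod_const, ← pow_mul, ← pow_mul]
    _ ≤ _ := Nat.pow_le_pow_right (by norm_num)
        (Nat.mul_le_mul_left _ (Nat.mul_le_mul_left _ (Finset.card_le_univ _)))

theorem le_tauW {W : Finset ι} {j : ι → ℕ} {N : ℕ} (hj : ∀ l ∈ W, N ≤ j l) {γ : Ex ι D}
    (hγ : ∃ l ∈ W, γ l ≠ 0) : N ≤ tauW W j γ := by
  obtain ⟨l, hl, hγl⟩ := hγ
  unfold tauW
  refine le_trans ?_ (Finset.single_le_sum (f := fun l => j l * (γ l : ℕ))
    (fun _ _ => Nat.zero_le _) hl)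
  have h1 : (γ l : ℕ) ≠ 0 := fun h => hγl (Fin.ext h)
  exact (hj l hl).trans (Nat.le_mul_of_pos_right _ (Nat.pos_of_ne_zero h1))

theorem mem_G1 {L W : Finset ι} {γ : Ex ι D} : γ ∈ (G1 L W : Finset (Ex ι D)) ↔
    γ ∈ (GV (L ∪ W) : Finset (Ex ι D)) ∧ ∃ l ∈ W, γ l ≠ 0 := by
  unfold G1
  rw [Finset.mem_filter]

theorem tauW_cut {L W : Finset ι} (hLW : Disjoint L W) (j : ι → ℕ) (δ : Ex ι D) :
    tauW W j (cut L δ) = tauW W j δ := by
  unfold tauW
  refine Finset.sum_congr rfl fun l hl => ?_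
  have h1 : l ∉ L := fun h => (Finset.disjoint_left.1 hLW h) hl
  rw [cut, if_neg h1]

theorem cut_mem {L W : Finset ι} (hLW : Disjoint L W) {γ : Ex ι D}
    (hγ : γ ∈ (G1 L W : Finset (Ex ι D))) : cut L γ ∈ (GV W : Finset (Ex ι D)) := by
  obtain ⟨h1, l, hl, hγl⟩ := mem_G1.1 hγ
  rw [mem_GV]
  constructor
  · intro h
    have h2 := congrFun h l
    have h3 : l ∉ L := fun h => (Finset.disjoint_left.1 hLW h) hl
    rw [cut, if_neg h3] at h2
    exact hγl h2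
  · intro l' hl'
    unfold cut
    split_ifs with h
    · rfl
    · refine (mem_GV.1 h1).2 l' ?_
      rw [Finset.mem_union]
      tauto

theorem mem_of_cut {L W : Finset ι} (hLW : Disjoint L W) {δ : Ex ι D}
    (h : cut L δ ∈ (GV W : Finset (Ex ι D))) : δ ∈ (G1 L W : Finset (Ex ι D)) := by
  obtain ⟨h1, h2⟩ := mem_GV.1 h
  obtain ⟨l, hl⟩ : ∃ l, cut L δ l ≠ 0 := by
    by_contra hcon
    push Not at hcon
    exact h1 (funext hcon)
  have hlW : l ∈ W := by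
    by_contra hcon
    exact hl (h2 l hcon)
  have hlL : l ∉ L := fun h => (Finset.disjoint_left.1 hLW h) hlW
  have hδl : δ l ≠ 0 := by
    rw [cut, if_neg hlL] at hl
    exact hl
  refine mem_G1.2 ⟨mem_GV.2 ⟨?_, ?_⟩, l, hlW, hδl⟩
  · intro h0
    rw [h0] at hδl
    exact hδl rfl
  · intro l' hl'
    rw [Finset.mem_union, not_or] at hl'
    have := h2 l' hl'.2
    rw [cut, if_neg hl'.1] at this
    exact this

theorem notMem_G1_zero (L W : Finset ι) : (0 : Ex ι D) ∉ (G1 L W : Finset (Ex ι D)) := by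
  intro h
  exact zero_notMem_GV _ (mem_G1.1 h).1

theorem close {τ a n : ℕ} {x : ℝ} (h : |(2 : ℝ) ^ τ * x| ≤ 2 ^ a) (hτ : a + n ≤ τ) :
    |x| ≤ (1 / 2) ^ n := by
  rw [abs_mul, abs_of_pos (by positivity : (0 : ℝ) < 2 ^ τ)] at h
  have h1 : (2 : ℝ) ^ (a + n) * |x| ≤ 2 ^ a :=
    (mul_le_mul_of_nonneg_right (pow_le_pow_right₀ (by norm_num) hτ) (abs_nonneg _)).trans h
  rw [pow_add, mul_assoc] at h1
  have h2 : (0 : ℝ) < 2 ^ a := by positivity
  have h3 : (2 : ℝ) ^ n * |x| ≤ 1 := by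
    refine le_of_mul_le_mul_left ?_ h2
    rw [mul_one]
    exact h1
  rw [one_div, inv_pow, ← one_div, le_div_iff₀ (by positivity), mul_comm]
  exact h3

theorem choose_congr {α : Type} {P P' : α → Prop} (h : P = P') (e : ∃ b, P b) (e' : ∃ b, P' b) :
    e.choose = e'.choose := by
  subst h
  rfl

/-- a rational point near `θ` has the given coordinate -/
theorem b_eq {V : Finset ι} {t T : ℕ} {M : ι → ℕ} {θ : Ex ι D → ℝ} {b : Ex ι D → ℚ}
    (hb : Rep V t M θ b) {γ : Ex ι D} (hγ : γ ∈ (GV V : Finset (Ex ι D))) {β : ℚ}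
    (h1 : β.den ≤ 2 ^ T) (h3 : |θ γ - β| ≤ (1 / 2) ^ (t + T + 2))
    (h4 : 2 ^ (2 * t + T + 3) ≤ mon M γ) : b γ = β := by
  by_contra hne
  obtain ⟨q, hq, hq2, hqb⟩ := hb.2.1
  obtain ⟨n, hn⟩ := hqb γ
  have hden : ((b γ).den : ℝ) ≤ 2 ^ t := by
    have := (den_le_of_mul_int hq hn).trans hq2
    exact_mod_cast this
  have hden' : (β.den : ℝ) ≤ 2 ^ T := by exact_mod_cast h1
  have h5 := rat_sep hne hden hden'
  have h6 := hb.2.2 γ hγ
  have hm : (2 : ℝ) ^ (2 * t + T + 3) ≤ mon M γ := by exact_mod_cast h4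
  have hm0 : (0 : ℝ) < mon M γ := lt_of_lt_of_le (by positivity) hm
  have h7 : |θ γ - b γ| ≤ (1 / 2) ^ (t + T + 2) := by
    refine close (τ := 2 * t + T + 3) (a := t + 1) ?_ (by omega)
    rw [abs_mul, abs_of_pos (by positivity : (0 : ℝ) < 2 ^ (2 * t + T + 3))]
    rw [abs_mul, abs_of_pos hm0] at h6
    exact (mul_le_mul_of_nonneg_right hm (abs_nonneg _)).trans h6
  have h8 : |(b γ : ℝ) - β| ≤ (1 / 2) ^ (t + T + 2) + (1 / 2) ^ (t + T + 2) := by
    have e : (b γ : ℝ) - β = (θ γ - β) - (θ γ - b γ) := by ring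
    rw [e]
    exact (abs_sub _ _).trans (add_le_add h3 h7)
  have h9 : (1 : ℝ) / (2 ^ t * 2 ^ T) = 4 * (1 / 2) ^ (t + T + 2) := by
    rw [pow_add, pow_add, one_div, one_div, mul_inv, inv_pow, inv_pow]
    norm_num
    ring
  rw [h9] at h5
  have h10 : (0 : ℝ) < (1 / 2) ^ (t + T + 2) := by positivity
  linarith

theorem KB_lip_coord (V : Finset ι) (t : ℕ) (M : ι → ℕ) (θ : Ex ι D → ℝ) (b : Ex ι D → ℚ)
    {γ : Ex ι D} (hγ : γ ∈ (GV V : Finset (Ex ι D))) (x : ℝ) :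
    ‖KB V t M θ b - KB V t M (Function.update θ γ x) b‖ ≤ 8 * ((mon M γ : ℝ) * |θ γ - x|) := by
  have hγ0 : γ ≠ 0 := (mem_GV.1 hγ).1
  set θ' := Function.update θ γ x with hθ'
  have h0 : θ' 0 = θ 0 := by rw [hθ', Function.update_of_ne hγ0.symm]
  have hne : ∀ γ', γ' ≠ γ → θ' γ' = θ γ' := fun γ' h => by rw [hθ', Function.update_of_ne h]
  have hx : θ' γ = x := by rw [hθ', Function.update_self]
  set u : Ex ι D → ℝ := fun γ => (mon M γ : ℝ) * (θ γ - b γ) with hu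
  set u' : Ex ι D → ℝ := fun γ => (mon M γ : ℝ) * (θ' γ - b γ) with hu'
  have hune : ∀ γ', γ' ≠ γ → u γ' = u' γ' := fun γ' h => by
    simp only [hu, hu', hne γ' h]
  have hud : |u γ - u' γ| = (mon M γ : ℝ) * |θ γ - x| := by
    simp only [hu, hu', hx]
    rw [← mul_sub, abs_mul, Nat.abs_cast]
    congr 2
    ring
  have hH : ‖HH V b u - HH V b u'‖ ≤ 2 * Real.pi * |u γ - u' γ| := by
    refine (HH_lip V b u u').trans (le_of_eq ?_)
    rw [Finset.sum_eq_single_of_mem γ hγ (fun γ' _ h => by rw [hune γ' h, sub_self, abs_zero])]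
  set P : ℂ := ∏ γ ∈ (GV V : Finset (Ex ι D)), ((tz (u γ / 2 ^ t) : ℝ) : ℂ) with hP
  set P' : ℂ := ∏ γ ∈ (GV V : Finset (Ex ι D)), ((tz (u' γ / 2 ^ t) : ℝ) : ℂ) with hP'
  have htz : ∀ y : ℝ, ‖((tz y : ℝ) : ℂ)‖ ≤ 1 := by
    intro y
    rw [Complex.norm_real, Real.norm_eq_abs, abs_of_nonneg (tz_nonneg y)]
    exact tz_le_one y
  have hPn : ‖P‖ ≤ 1 := by
    rw [hP, norm_prod]
    exact Finset.prod_le_one (fun _ _ => norm_nonneg _) (fun _ _ => htz _)
  have hPd : ‖P - P'‖ ≤ |u γ - u' γ| := by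
    have e1 : P = ((tz (u γ / 2 ^ t) : ℝ) : ℂ) *
        ∏ γ' ∈ (GV V : Finset (Ex ι D)).erase γ, ((tz (u γ' / 2 ^ t) : ℝ) : ℂ) := by
      exact (Finset.mul_prod_erase (GV V : Finset (Ex ι D))
        (fun γ => ((tz (u γ / 2 ^ t) : ℝ) : ℂ)) hγ).symm
    have e2 : P' = ((tz (u' γ / 2 ^ t) : ℝ) : ℂ) *
        ∏ γ' ∈ (GV V : Finset (Ex ι D)).erase γ, ((tz (u γ' / 2 ^ t) : ℝ) : ℂ) := by
      rw [hP', ← Finset.mul_prod_erase (GV V : Finset (Ex ι D))
        (fun γ => ((tz (u' γ / 2 ^ t) : ℝ) : ℂ)) hγ]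
      congr 1
      refine Finset.prod_congr rfl fun γ' h => ?_
      rw [hune γ' (Finset.ne_of_mem_erase h)]
    rw [e1, e2, ← sub_mul, norm_mul]
    have h1 : ‖∏ γ' ∈ (GV V : Finset (Ex ι D)).erase γ, ((tz (u γ' / 2 ^ t) : ℝ) : ℂ)‖ ≤ 1 := by
      rw [norm_prod]
      exact Finset.prod_le_one (fun _ _ => norm_nonneg _) (fun _ _ => htz _)
    have h2 : ‖((tz (u γ / 2 ^ t) : ℝ) : ℂ) - ((tz (u' γ / 2 ^ t) : ℝ) : ℂ)‖ ≤
        |u γ - u' γ| := by
      rw [← Complex.ofReal_sub, Complex.norm_real, Real.norm_eq_abs]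
      refine (tz_lip _ _).trans ?_
      rw [← sub_div, abs_div, abs_of_pos (by positivity : (0 : ℝ) < 2 ^ t)]
      exact div_le_self (abs_nonneg _) (one_le_pow₀ (by norm_num))
    calc _ ≤ |u γ - u' γ| * 1 := mul_le_mul h2 h1 (norm_nonneg _) (abs_nonneg _)
      _ = _ := mul_one _
  have hK : KB V t M θ b - KB V t M θ' b =
      ee (θ 0) * ((HH V b u - HH V b u') * P + HH V b u' * (P - P')) := by
    unfold KB
    rw [h0]
    ring
  rw [hK, norm_mul, norm_ee, one_mul]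
  refine (norm_add_le _ _).trans ?_
  rw [norm_mul, norm_mul]
  have h1 : ‖HH V b u - HH V b u'‖ * ‖P‖ ≤ 2 * Real.pi * |u γ - u' γ| * 1 :=
    mul_le_mul hH hPn (norm_nonneg _) (by positivity)
  have h2 : ‖HH V b u'‖ * ‖P - P'‖ ≤ 1 * |u γ - u' γ| :=
    mul_le_mul (norm_HH_le V b u') hPd (norm_nonneg _) zero_le_one
  rw [hud] at h1 h2
  have h3 : 0 ≤ (mon M γ : ℝ) * |θ γ - x| := by positivity
  have h4 := Real.pi_lt_d2
  nlinarith

theorem KK_lip_coord {V : Finset ι} {t T : ℕ} {M : ι → ℕ} {θ : Ex ι D → ℝ} {γ : Ex ι D}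
    (hγ : γ ∈ (GV V : Finset (Ex ι D))) {β : ℚ} (h1 : β.den ≤ 2 ^ T)
    (h3 : |θ γ - β| ≤ (1 / 2) ^ (t + T + 2)) (h4 : 2 ^ (2 * t + T + 3) ≤ mon M γ) :
    ‖KK V t M θ - KK V t M (Function.update θ γ (β : ℝ))‖ ≤
      8 * ((mon M γ : ℝ) * |θ γ - β|) := by
  have hx0 : 0 ≤ (mon M γ : ℝ) * |θ γ - β| := by positivity
  by_cases hc : (mon M γ : ℝ) * |θ γ - β| ≤ 2 ^ (t + 1)
  · have hpred : Rep V t M θ = Rep V t M (Function.update θ γ (β : ℝ)) := by
      funext b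
      apply propext
      constructor
      · intro hb
        have hbβ := b_eq hb hγ h1 h3 h4
        refine ⟨hb.1, hb.2.1, fun γ' hγ' => ?_⟩
        by_cases hg : γ' = γ
        · rw [hg, Function.update_self, hbβ, sub_self, mul_zero, abs_zero]
          positivity
        · rw [Function.update_of_ne hg]
          exact hb.2.2 γ' hγ'
      · intro hb
        have hbβ := b_eq hb hγ h1 (by
          rw [Function.update_self, sub_self, abs_zero]; positivity) h4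
        refine ⟨hb.1, hb.2.1, fun γ' hγ' => ?_⟩
        by_cases hg : γ' = γ
        · rw [hg, hbβ, abs_mul, Nat.abs_cast]
          exact hc
        · have := hb.2.2 γ' hγ'
          rw [Function.update_of_ne hg] at this
          exact this
    by_cases hex : ∃ b, Rep V t M θ b
    · have hex' : ∃ b, Rep V t M (Function.update θ γ (β : ℝ)) b := by
        rw [← hpred]
        exact hex
      unfold KK
      rw [dif_pos hex, dif_pos hex', choose_congr hpred hex hex']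
      exact KB_lip_coord V t M θ _ hγ β
    · have hex' : ¬ ∃ b, Rep V t M (Function.update θ γ (β : ℝ)) b := by
        rw [← hpred]
        exact hex
      rw [KK_of_not hex, KK_of_not hex', sub_zero, norm_zero]
      positivity
  · push Not at hc
    have hex : ¬ ∃ b, Rep V t M θ b := by
      rintro ⟨b, hb⟩
      have hbβ := b_eq hb hγ h1 h3 h4
      have h6 := hb.2.2 γ hγ
      rw [hbβ, abs_mul, Nat.abs_cast] at h6
      linarith
    rw [KK_of_not hex, zero_sub, norm_neg]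
    have h5 : (1 : ℝ) ≤ 2 ^ (t + 1) := one_le_pow₀ (by norm_num)
    have h6 := norm_KK_le V t M (Function.update θ γ (β : ℝ))
    linarith

theorem den_sum_le (s : Finset (Ex ι D)) (c : Ex ι D → ℕ) (b : Ex ι D → ℚ) (T : ℕ)
    (hb : ∀ δ ∈ s, (b δ).den ≤ 2 ^ T) :
    (∑ δ ∈ s, (c δ : ℚ) * b δ).den ≤ 2 ^ (T * s.card) := by
  have hq : 0 < ∏ δ ∈ s, (b δ).den := Finset.prod_pos fun δ _ => (b δ).den_pos
  have h1 : ((∏ δ ∈ s, (b δ).den : ℕ) : ℚ) * (∑ δ ∈ s, (c δ : ℚ) * b δ) =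
      ((∑ δ ∈ s, (c δ : ℤ) * (b δ).num * ∏ δ' ∈ s.erase δ, ((b δ').den : ℤ) : ℤ) : ℚ) := by
    push_cast
    rw [Finset.mul_sum]
    refine Finset.sum_congr rfl fun δ hδ => ?_
    rw [← Finset.mul_prod_erase _ _ hδ]
    have h2 : ((b δ).den : ℚ) * b δ = (b δ).num := by
      rw [mul_comm]
      exact Rat.mul_den_eq_num (b δ)
    calc ((b δ).den : ℚ) * (∏ x ∈ s.erase δ, ((b x).den : ℚ)) * ((c δ : ℚ) * b δ) =
          (c δ : ℚ) * (((b δ).den : ℚ) * b δ) * ∏ x ∈ s.erase δ, ((b x).den : ℚ) := by ring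
      _ = _ := by rw [h2]
  refine (den_le_of_mul_int hq h1).trans ?_
  calc ∏ δ ∈ s, (b δ).den ≤ ∏ _δ ∈ s, 2 ^ T := Finset.prod_le_prod' hb
    _ = 2 ^ (T * s.card) := by rw [Finset.prod_const, ← pow_mul]

/-- invariance of one main term -/
theorem KK_psi_inv {L W : Finset ι} (hLW : Disjoint L W) {K : ι → ℕ} (hK : ∀ l, 0 < K l)
    {T A i : ℕ} {j j' : ι → ℕ} (hj : ∀ l ∈ W, Fintype.card (Ex ι D) + A + T + i +
      T * Fintype.card (Ex ι D) + 3 + i ≤ j l)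
    (hj' : ∀ l ∈ W, Fintype.card (Ex ι D) + A + T + i +
      T * Fintype.card (Ex ι D) + 3 + i ≤ j' l)
    {μ : ι → ℕ} (hμ : ∀ γ δ : Ex ι D, wt L μ γ δ ≤ 2 ^ A) {θ θ' : Ex ι D → ℝ}
    (hout : ∀ γ, γ ∉ (G1 L W : Finset (Ex ι D)) → θ γ = θ' γ) (bet : Ex ι D → ℚ)
    (hb1 : ∀ γ ∈ (G1 L W : Finset (Ex ι D)), (bet γ).den ≤ 2 ^ T)
    (hb2 : ∀ γ ∈ (G1 L W : Finset (Ex ι D)),
      (2 : ℝ) ^ tauW W j γ * (θ γ - bet γ) = (2 : ℝ) ^ tauW W j' γ * (θ' γ - bet γ))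
    (hb3 : ∀ γ ∈ (G1 L W : Finset (Ex ι D)), |(2 : ℝ) ^ tauW W j γ * (θ γ - bet γ)| ≤ 2 ^ T) :
    KK W i (res W (Mj K j)) (psi L μ θ) = KK W i (res W (Mj K j')) (psi L μ θ') := by
  classical
  set n := Fintype.card (Ex ι D) with hn
  set b' : Ex ι D → ℚ := fun δ => if δ ∈ (G1 L W : Finset (Ex ι D)) then bet δ else 0 with hb'
  have hb'1 : ∀ δ, (b' δ).den ≤ 2 ^ T := by
    intro δ
    simp only [hb']
    split_ifs with h
    · exact hb1 δ h
    · exact Nat.one_le_two_pow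
  have hwt : ∀ γ ∈ (GV W : Finset (Ex ι D)), ∀ δ, wt L μ γ δ ≠ 0 →
      cut L δ = γ ∧ δ ∈ (G1 L W : Finset (Ex ι D)) := by
    intro γ hγ δ h
    have h1 : cut L δ = γ := by
      by_contra hne
      exact h (wt_eq_zero μ hne)
    refine ⟨h1, mem_of_cut hLW ?_⟩
    rw [h1]
    exact hγ
  refine KK_inv (T := T * n) ?_ fun γ hγ => Or.inr ?_
  · refine psi_zero_congr L μ fun δ hδ => hout δ ?_
    intro h
    obtain ⟨_, l, hl, hne⟩ := mem_G1.1 h
    exact hne (hδ l fun h' => (Finset.disjoint_left.1 hLW h') hl)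
  · set β' : ℚ := ∑ δ, (wt L μ γ δ : ℚ) * b' δ with hβ'
    have hden : β'.den ≤ 2 ^ (T * n) := by
      have := den_sum_le Finset.univ (fun δ => wt L μ γ δ) b' T (fun δ _ => hb'1 δ)
      rw [Finset.card_univ] at this
      exact this
    -- the difference of `psi` and `β'`
    have hdiff : ∀ θ : Ex ι D → ℝ, psi L μ θ γ - β' =
        ∑ δ, (wt L μ γ δ : ℝ) * (θ δ - b' δ) := by
      intro θ
      rw [hβ']
      unfold psi
      push_cast
      rw [← Finset.sum_sub_distrib]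
      exact Finset.sum_congr rfl fun δ _ => by ring
    have hE : ∀ (j : ι → ℕ) (θ : Ex ι D → ℝ), (2 : ℝ) ^ tauW W j γ * (psi L μ θ γ - β') =
        ∑ δ, (wt L μ γ δ : ℝ) * ((2 : ℝ) ^ tauW W j δ * (θ δ - b' δ)) := by
      intro j θ
      rw [hdiff, Finset.mul_sum]
      refine Finset.sum_congr rfl fun δ _ => ?_
      by_cases h : wt L μ γ δ = 0
      · rw [h]
        simp
      · obtain ⟨h1, _⟩ := hwt γ hγ δ h
        rw [← h1, tauW_cut hLW]
        ring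
    have hU : ∀ δ, wt L μ γ δ ≠ 0 → (2 : ℝ) ^ tauW W j δ * (θ δ - b' δ) =
        (2 : ℝ) ^ tauW W j' δ * (θ' δ - b' δ) ∧
        |(2 : ℝ) ^ tauW W j δ * (θ δ - b' δ)| ≤ 2 ^ T := by
      intro δ h
      obtain ⟨_, h2⟩ := hwt γ hγ δ h
      have e : b' δ = bet δ := by
        simp only [hb']
        rw [if_pos h2]
      rw [e]
      exact ⟨hb2 δ h2, hb3 δ h2⟩
    have hEE : (2 : ℝ) ^ tauW W j γ * (psi L μ θ γ - β') =
        (2 : ℝ) ^ tauW W j' γ * (psi L μ θ' γ - β') := by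
      rw [hE, hE]
      refine Finset.sum_congr rfl fun δ _ => ?_
      by_cases h : wt L μ γ δ = 0
      · rw [h]
        simp
      · rw [(hU δ h).1]
    have hbound : |(2 : ℝ) ^ tauW W j γ * (psi L μ θ γ - β')| ≤ 2 ^ (n + A + T) := by
      rw [hE]
      refine (Finset.abs_sum_le_sum_abs _ _).trans ?_
      have h1 : ∀ δ ∈ (Finset.univ : Finset (Ex ι D)),
          |(wt L μ γ δ : ℝ) * ((2 : ℝ) ^ tauW W j δ * (θ δ - b' δ))| ≤ 2 ^ A * 2 ^ T := by
        intro δ _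
        by_cases h : wt L μ γ δ = 0
        · rw [h]
          simp
        · rw [abs_mul, Nat.abs_cast]
          refine mul_le_mul ?_ (hU δ h).2 (abs_nonneg _) (by positivity)
          exact_mod_cast hμ γ δ
      refine (Finset.sum_le_sum h1).trans ?_
      rw [Finset.sum_const, Finset.card_univ, nsmul_eq_mul, ← hn, pow_add, pow_add, mul_assoc]
      refine mul_le_mul_of_nonneg_right ?_ (by positivity)
      exact_mod_cast (Nat.lt_two_pow_self (n := n)).le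
    have hex : ∃ l ∈ W, γ l ≠ 0 := by
      obtain ⟨g0, g1⟩ := mem_GV.1 hγ
      obtain ⟨l, hl⟩ : ∃ l, γ l ≠ 0 := by
        by_contra hcon
        push Not at hcon
        exact g0 (funext hcon)
      refine ⟨l, ?_, hl⟩
      by_contra hcon
      exact hl (g1 l hcon)
    have hτ := le_tauW hj hex
    have hτ' := le_tauW hj' hex
    have hKp : 0 < ∏ l ∈ W, K l ^ (γ l : ℕ) := Finset.prod_pos fun l _ => Nat.pow_pos (hK l)
    refine ⟨β', hden, ?_, ?_, ?_, ?_, ?_⟩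
    · rw [mon_W, mon_W]
      push_cast
      rw [mul_assoc, hEE, mul_assoc]
    · exact close hbound (by omega)
    · rw [hEE] at hbound
      exact close hbound (by omega)
    · rw [mon_W]
      calc 2 ^ (2 * i + T * n + 3) ≤ 2 ^ tauW W j γ := Nat.pow_le_pow_right (by norm_num) (by omega)
        _ ≤ _ := Nat.le_mul_of_pos_left _ hKp
    · rw [mon_W]
      calc 2 ^ (2 * i + T * n + 3) ≤ 2 ^ tauW W j' γ :=
            Nat.pow_le_pow_right (by norm_num) (by omega)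
        _ ≤ _ := Nat.le_mul_of_pos_left _ hKp

/-- Lipschitz bound for one main term -/
theorem KK_psi_lip {L W : Finset ι} (hLW : Disjoint L W) {K : ι → ℕ}
    {A B i : ℕ} {j : ι → ℕ} (hM : ∀ γ ∈ (GV W : Finset (Ex ι D)),
      2 ^ (3 * i + 4) ≤ mon (res W (Mj K j)) γ)
    {μ : ι → ℕ} (hμ : ∀ γ δ : Ex ι D, wt L μ γ δ ≤ 2 ^ A)
    (hB : ∀ γ : Ex ι D, ∏ l ∈ W, K l ^ (γ l : ℕ) ≤ 2 ^ B) {θ : Ex ι D → ℝ} {γ : Ex ι D}
    (hγ : γ ∈ (G1 L W : Finset (Ex ι D))) (x : ℝ) :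
    ‖KK W i (res W (Mj K j)) (psi L μ θ) -
      KK W i (res W (Mj K j)) (psi L μ (Function.update θ γ x))‖ ≤
      2 ^ (3 + A + B) * |(2 : ℝ) ^ tauW W j γ * (θ γ - x)| := by
  have hd : ∀ γ', psi L μ θ γ' - psi L μ (Function.update θ γ x) γ' =
      (wt L μ γ' γ : ℝ) * (θ γ - x) := by
    intro γ'
    rw [psi_sub, Finset.sum_eq_single γ]
    · rw [Function.update_self]
    · intro δ _ hδ
      rw [Function.update_of_ne hδ, sub_self, mul_zero]
    · intro h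
      exact absurd (Finset.mem_univ _) h
  have hc := cut_mem hLW hγ
  refine (KK_lip hM _ _).trans ?_
  have h0 : psi L μ θ 0 - psi L μ (Function.update θ γ x) 0 = 0 := by
    rw [hd, wt_eq_zero μ (fun h => (mem_GV.1 hc).1 h)]
    simp
  rw [h0, abs_zero, zero_add, Finset.sum_eq_single_of_mem (cut L γ) hc (fun γ' _ hne => by
    rw [hd, wt_eq_zero μ (fun h => hne h.symm)]
    simp), hd, mon_W, tauW_cut hLW]
  push_cast
  rw [abs_mul, abs_mul, Nat.abs_cast, abs_of_pos (by positivity : (0 : ℝ) < 2 ^ tauW W j γ)]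
  have h1 : ((∏ l ∈ W, (K l : ℝ) ^ ((cut L γ) l : ℕ))) ≤ 2 ^ B := by
    exact_mod_cast hB (cut L γ)
  have h2 : (wt L μ (cut L γ) γ : ℝ) ≤ 2 ^ A := by exact_mod_cast hμ (cut L γ) γ
  have h3 : (0 : ℝ) ≤ ∏ l ∈ W, (K l : ℝ) ^ ((cut L γ) l : ℕ) :=
    Finset.prod_nonneg fun _ _ => by positivity
  calc 8 * ((∏ l ∈ W, (K l : ℝ) ^ ((cut L γ) l : ℕ)) * 2 ^ tauW W j γ *
        ((wt L μ (cut L γ) γ : ℝ) * |θ γ - x|)) =
        8 * ((∏ l ∈ W, (K l : ℝ) ^ ((cut L γ) l : ℕ)) * (wt L μ (cut L γ) γ : ℝ)) *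
          (2 ^ tauW W j γ * |θ γ - x|) := by ring
    _ ≤ 8 * (2 ^ B * 2 ^ A) * (2 ^ tauW W j γ * |θ γ - x|) := by gcongr
    _ = _ := by
        rw [pow_add, pow_add]
        ring

end GapBAux

open GapBAux

theorem dense_str {L W : Finset ι} (hLW : Disjoint L W) {K : ι → ℕ} (hK : ∀ l, 0 < K l)
    (Ca : ℕ) : ∃ c : ℕ, ∀ C₃ : ℕ, c ≤ C₃ → ∃ Cb : ℕ, ∀ (i : ℕ), 1 ≤ i → ∀ t : ℕ, t ≤ i →
    ∀ p : ι → ℕ, (∀ l ∈ L, i ≤ p l ∧ p l ≤ Ca * i) →
      Str (G1 L W : Finset (Ex ι D)) (C₃ * i) (Sp L W p (Cb * i)) (tauW W) ((2 : ℝ) ^ (C₃ * i))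
        (fun j θ => (mm L W K i j θ - KK (L ∪ W) t (res (L ∪ W) (Mj K j)) θ) *
          XP L W (C₃ * i) j θ) := by
  classical
  obtain ⟨κ, hκ⟩ : ∃ κ : ℕ, ∀ l, K l ≤ 2 ^ κ :=
    ⟨∑ l, K l, fun l => (Finset.single_le_sum (f := K) (fun _ _ => Nat.zero_le _)
      (Finset.mem_univ l)).trans (Nat.lt_two_pow_self).le⟩
  set Dn := D * Fintype.card ι with hDn
  set n := Fintype.card (Ex ι D) with hn
  refine ⟨4 + κ * Dn + (κ + Ca) * Dn, fun C₃ hC₃ =>
    ⟨n + (κ + Ca) * Dn + 2 * C₃ + C₃ * n + 20, fun i hi t ht p hp => ?_⟩⟩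
  set T := C₃ * i with hT
  set A := (κ + Ca * i) * Dn with hA
  set B := κ * Dn with hB
  set Cb := n + (κ + Ca) * Dn + 2 * C₃ + C₃ * n + 20 with hCb
  -- numerical facts
  have hA1 : A ≤ (κ + Ca) * Dn * i := by
    have : κ ≤ κ * i := Nat.le_mul_of_pos_right _ hi
    calc A ≤ (κ * i + Ca * i) * Dn := Nat.mul_le_mul_right _ (by omega)
      _ = (κ + Ca) * Dn * i := by ring
  have hBT : 4 + B + A ≤ T := by
    have h1 : (4 + κ * Dn + (κ + Ca) * Dn) * i ≤ C₃ * i := Nat.mul_le_mul_right _ hC₃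
    have h2 : (4 + κ * Dn + (κ + Ca) * Dn) * i = 4 * i + B * i + (κ + Ca) * Dn * i := by
      rw [hB]; ring
    have h3 : B ≤ B * i := Nat.le_mul_of_pos_right _ hi
    omega
  have hCbi : Cb * i = n * i + (κ + Ca) * Dn * i + 2 * T + T * n + 20 * i := by
    rw [hCb, hT]; ring
  have hni : n ≤ n * i := Nat.le_mul_of_pos_right _ hi
  have hsep1 : n + A + T + i + T * n + 3 + i ≤ Cb * i := by omega
  have hsep2 : 2 * T + t + 2 ≤ Cb * i := by omega
  have hsep3 : 3 * i + 4 ≤ Cb * i := by omega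
  have hsep4 : 2 * t + T + 3 ≤ Cb * i := by omega
  -- the sizes on `L`
  have hLsize : ∀ l ∈ L, K l * 2 ^ p l ≤ 2 ^ (κ + Ca * i) := by
    intro l hl
    rw [pow_add]
    exact Nat.mul_le_mul (hκ l) (Nat.pow_le_pow_right (by norm_num) (hp l hl).2)
  have hBle : ∀ γ : Ex ι D, ∏ l ∈ W, K l ^ (γ l : ℕ) ≤ 2 ^ B := fun γ =>
    prod_pow_le W K κ (fun l _ => hκ l) γ
  have hAle : ∀ γ : Ex ι D, ∏ l ∈ L, (K l * 2 ^ p l) ^ (γ l : ℕ) ≤ 2 ^ A := fun γ =>
    prod_pow_le L (fun l => K l * 2 ^ p l) (κ + Ca * i) hLsize γ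
  have hresL : ∀ j ∈ Sp L W p (Cb * i), res L (Mj K j) = res L (Mj K p) := by
    intro j hj
    funext l
    unfold res Mj
    split_ifs with h
    · rw [hj.1 l h]
    · rfl
  have hwt : ∀ μ ∈ bx (res L (Mj K p)), ∀ γ δ : Ex ι D, wt L μ γ δ ≤ 2 ^ A := by
    intro μ hμ γ δ
    have h1 := wt_le L (R := 2 ^ (κ + Ca * i)) Nat.one_le_two_pow (μ := μ) (fun l hl => ?_) γ δ
    · rw [← pow_mul] at h1
      exact h1
    · have h2 := mem_bx.1 hμ l
      rw [res_of_mem hl] at h2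
      exact h2.le.trans (hLsize l hl)
  have hτ : ∀ j ∈ Sp L W p (Cb * i), ∀ γ ∈ (G1 L W : Finset (Ex ι D)),
      Cb * i ≤ tauW W j γ := fun j hj γ hγ => le_tauW hj.2 (mem_G1.1 hγ).2
  have hKL : ∀ γ : Ex ι D, 0 < ∏ l ∈ L, (K l * 2 ^ p l) ^ (γ l : ℕ) := fun γ =>
    Finset.prod_pos fun l _ => Nat.pow_pos (Nat.mul_pos (hK l) (by positivity))
  have hKW : ∀ γ : Ex ι D, 0 < ∏ l ∈ W, K l ^ (γ l : ℕ) := fun γ =>
    Finset.prod_pos fun l _ => Nat.pow_pos (hK l)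
  have hmonV : ∀ j ∈ Sp L W p (Cb * i), ∀ γ ∈ (G1 L W : Finset (Ex ι D)),
      2 ^ (Cb * i) ≤ mon (res (L ∪ W) (Mj K j)) γ := by
    intro j hj γ hγ
    rw [mon_union hLW K p j hj.1]
    calc 2 ^ (Cb * i) ≤ 2 ^ tauW W j γ := Nat.pow_le_pow_right (by norm_num) (hτ j hj γ hγ)
      _ ≤ _ := Nat.le_mul_of_pos_left _ (Nat.mul_pos (hKL γ) (hKW γ))
  have hmonW : ∀ j ∈ Sp L W p (Cb * i), ∀ γ ∈ (GV W : Finset (Ex ι D)),
      2 ^ (3 * i + 4) ≤ mon (res W (Mj K j)) γ := by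
    intro j hj γ hγ
    refine pow_le_mon W Nat.one_le_two_pow (fun l hl => ?_) hγ
    unfold Mj
    calc 2 ^ (3 * i + 4) ≤ 2 ^ j l := Nat.pow_le_pow_right (by norm_num) (hsep3.trans (hj.2 l hl))
      _ ≤ K l * 2 ^ j l := Nat.le_mul_of_pos_left _ (hK l)
  refine ⟨?_, ?_, ?_⟩
  · -- invariance
    intro j hj j' hj' θ θ' hout hin
    choose! bet hb1 hb2 hb3 using hin
    have hX : XP L W T j θ = 1 := by
      unfold XP
      refine Finset.prod_eq_one fun γ hγ => XX_eq_one_of (hb1 γ hγ) ?_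
      exact close (hb3 γ hγ) (by have := hτ j hj γ hγ; omega)
    have hX' : XP L W T j' θ' = 1 := by
      unfold XP
      refine Finset.prod_eq_one fun γ hγ => XX_eq_one_of (hb1 γ hγ) ?_
      refine close (a := T) (τ := tauW W j' γ) ?_ (by have := hτ j' hj' γ hγ; omega)
      rw [← hb2 γ hγ]
      exact hb3 γ hγ
    have hK1 : KK (L ∪ W) t (res (L ∪ W) (Mj K j)) θ =
        KK (L ∪ W) t (res (L ∪ W) (Mj K j')) θ' := by
      refine KK_inv (T := T) (hout 0 (notMem_G1_zero L W)) fun γ hγ => ?_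
      by_cases hg : γ ∈ (G1 L W : Finset (Ex ι D))
      · right
        refine ⟨bet γ, hb1 γ hg, ?_, ?_, ?_, ?_, ?_⟩
        · rw [mon_union hLW K p j hj.1, mon_union hLW K p j' hj'.1]
          push_cast
          rw [mul_assoc _ ((2 : ℝ) ^ tauW W j γ), hb2 γ hg, ← mul_assoc]
        · exact close (hb3 γ hg) (by have := hτ j hj γ hg; omega)
        · refine close (a := T) ?_ (by have := hτ j' hj' γ hg; omega) (τ := tauW W j' γ)
          rw [← hb2 γ hg]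
          exact hb3 γ hg
        · exact (Nat.pow_le_pow_right (by norm_num) hsep4).trans (hmonV j hj γ hg)
        · exact (Nat.pow_le_pow_right (by norm_num) hsep4).trans (hmonV j' hj' γ hg)
      · left
        refine ⟨?_, hout γ hg⟩
        rw [mon_union hLW K p j hj.1, mon_union hLW K p j' hj'.1]
        congr 1
        congr 1
        unfold tauW
        refine Finset.sum_congr rfl fun l hl => ?_
        have h1 : γ l = 0 := by
          by_contra hne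
          exact hg (mem_G1.2 ⟨hγ, l, hl, hne⟩)
        rw [h1]
        simp
    have hM1 : mm L W K i j θ = mm L W K i j' θ' := by
      unfold mm
      rw [hresL j hj, hresL j' hj']
      congr 1
      refine Finset.sum_congr rfl fun μ hμ => ?_
      refine KK_psi_inv hLW hK (T := T) (A := A) (i := i) ?_ ?_
        (hwt μ hμ) hout bet hb1 hb2 hb3
      · intro l hl
        exact hsep1.trans (hj.2 l hl)
      · intro l hl
        exact hsep1.trans (hj'.2 l hl)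
    show (mm L W K i j θ - _) * XP L W T j θ = (mm L W K i j' θ' - _) * XP L W T j' θ'
    rw [hX, hX', hK1, hM1]
  · -- support
    intro j hj θ hne γ hγ
    have hX : XP L W T j θ ≠ 0 := right_ne_zero_of_mul hne
    unfold XP at hX
    have h1 := Finset.prod_ne_zero_iff.1 hX γ hγ
    obtain ⟨β, hβ, hb⟩ := exists_of_XX h1
    refine ⟨β, hβ, ?_⟩
    have h2 : T ≤ tauW W j γ := by have := hτ j hj γ hγ; omega
    rw [abs_mul, abs_of_pos (by positivity : (0 : ℝ) < 2 ^ tauW W j γ)]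
    have h3 : (2 : ℝ) ^ tauW W j γ = 2 ^ T * 2 ^ (tauW W j γ - T) := by
      rw [← pow_add]
      congr 1
      omega
    calc (2 : ℝ) ^ tauW W j γ * |θ γ - β| ≤ 2 ^ tauW W j γ * (1 / 2) ^ (tauW W j γ - T) :=
          mul_le_mul_of_nonneg_left hb (by positivity)
      _ = 2 ^ T * (2 ^ (tauW W j γ - T) * (1 / 2) ^ (tauW W j γ - T)) := by rw [h3]; ring
      _ = 2 ^ T := by
          rw [← mul_pow]
          norm_num
  · -- Lipschitz
    intro j hj θ γ hγ β hβ hle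
    have hγV := (mem_G1.1 hγ).1
    have hτγ := hτ j hj γ hγ
    have hle0 : |(2 : ℝ) ^ tauW W j γ * (θ γ - β)| ≤ 2 ^ 0 := by rw [pow_zero]; exact hle
    have hX : XP L W T j θ = XP L W T j (Function.update θ γ (β : ℝ)) := by
      unfold XP
      refine Finset.prod_congr rfl fun γ' hγ' => ?_
      by_cases hg : γ' = γ
      · rw [hg, Function.update_self, XX_eq_one_of hβ (close hle0 (by omega)),
          XX_eq_one_of hβ (by rw [sub_self, abs_zero]; positivity)]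
      · rw [Function.update_of_ne hg]
    have hXn : ‖XP L W T j (Function.update θ γ (β : ℝ))‖ ≤ 1 := by
      unfold XP
      rw [norm_prod]
      exact Finset.prod_le_one (fun _ _ => norm_nonneg _) (fun _ _ => norm_XX_le _ _ _)
    set U := |(2 : ℝ) ^ tauW W j γ * (θ γ - β)| with hU
    have hU0 : 0 ≤ U := abs_nonneg _
    have hKd : ‖KK (L ∪ W) t (res (L ∪ W) (Mj K j)) θ -
        KK (L ∪ W) t (res (L ∪ W) (Mj K j)) (Function.update θ γ (β : ℝ))‖ ≤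
        2 ^ (3 + A + B) * U := by
      refine (KK_lip_coord hγV hβ (close hle0 (by omega))
        ((Nat.pow_le_pow_right (by norm_num) hsep4).trans (hmonV j hj γ hγ))).trans ?_
      rw [mon_union hLW K p j hj.1]
      push_cast
      rw [hU, abs_mul, abs_of_pos (by positivity : (0 : ℝ) < 2 ^ tauW W j γ)]
      have h1 : (∏ l ∈ L, ((K l : ℝ) * 2 ^ p l) ^ (γ l : ℕ)) ≤ 2 ^ A := by
        exact_mod_cast hAle γ
      have h2 : (∏ l ∈ W, (K l : ℝ) ^ (γ l : ℕ)) ≤ 2 ^ B := by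
        exact_mod_cast hBle γ
      have h3 : (0 : ℝ) ≤ ∏ l ∈ W, (K l : ℝ) ^ (γ l : ℕ) :=
        Finset.prod_nonneg fun _ _ => by positivity
      calc 8 * ((∏ l ∈ L, ((K l : ℝ) * 2 ^ p l) ^ (γ l : ℕ)) *
            (∏ l ∈ W, (K l : ℝ) ^ (γ l : ℕ)) * 2 ^ tauW W j γ * |θ γ - β|) ≤
            8 * (2 ^ A * 2 ^ B * 2 ^ tauW W j γ * |θ γ - β|) := by gcongr
        _ = _ := by
            rw [pow_add, pow_add]
            ring
    have hMd : ‖mm L W K i j θ - mm L W K i j (Function.update θ γ (β : ℝ))‖ ≤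
        2 ^ (3 + A + B) * U := by
      unfold mm
      rw [hresL j hj, ← mul_sub, ← Finset.sum_sub_distrib, norm_mul, norm_inv, norm_prod]
      have hcard : (∏ l, ‖(res L (Mj K p) l : ℂ)‖) = ((bx (res L (Mj K p))).card : ℝ) := by
        rw [card_bx]
        push_cast
        exact Finset.prod_congr rfl fun l _ => Complex.norm_natCast _
      rw [hcard]
      have hpos : 0 < ((bx (res L (Mj K p))).card : ℝ) := by
        rw [card_bx]
        have : 0 < ∏ l, res L (Mj K p) l := Finset.prod_pos fun l _ =>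
          res_pos (fun l _ => Nat.mul_pos (hK l) (by positivity)) l
        exact_mod_cast this
      rw [inv_mul_le_iff₀ hpos]
      refine (norm_sum_le _ _).trans ?_
      refine (Finset.sum_le_sum (g := fun _ => (2 : ℝ) ^ (3 + A + B) * U) fun μ hμ => ?_).trans ?_
      · exact KK_psi_lip hLW (hmonW j hj) (hwt μ hμ) hBle hγ β
      · rw [Finset.sum_const, nsmul_eq_mul]
    show ‖(mm L W K i j θ - KK (L ∪ W) t (res (L ∪ W) (Mj K j)) θ) * XP L W T j θ -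
      (mm L W K i j (Function.update θ γ (β : ℝ)) - KK (L ∪ W) t (res (L ∪ W) (Mj K j))
        (Function.update θ γ (β : ℝ))) * XP L W T j (Function.update θ γ (β : ℝ))‖ ≤
      2 ^ T * U
    rw [hX, ← sub_mul, norm_mul]
    have h1 : ‖mm L W K i j θ - KK (L ∪ W) t (res (L ∪ W) (Mj K j)) θ -
        (mm L W K i j (Function.update θ γ (β : ℝ)) - KK (L ∪ W) t (res (L ∪ W) (Mj K j))
          (Function.update θ γ (β : ℝ)))‖ ≤ 2 ^ (3 + A + B) * U + 2 ^ (3 + A + B) * U := by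
      have e : mm L W K i j θ - KK (L ∪ W) t (res (L ∪ W) (Mj K j)) θ -
        (mm L W K i j (Function.update θ γ (β : ℝ)) - KK (L ∪ W) t (res (L ∪ W) (Mj K j))
          (Function.update θ γ (β : ℝ))) =
        (mm L W K i j θ - mm L W K i j (Function.update θ γ (β : ℝ))) -
        (KK (L ∪ W) t (res (L ∪ W) (Mj K j)) θ - KK (L ∪ W) t (res (L ∪ W) (Mj K j))
          (Function.update θ γ (β : ℝ))) := by ring
      rw [e]
      exact (norm_sub_le _ _).trans (add_le_add hMd hKd)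
    have h2 : (2 : ℝ) ^ (3 + A + B) * U + 2 ^ (3 + A + B) * U ≤ 2 ^ T * U := by
      have h3 : (2 : ℝ) ^ (4 + B + A) ≤ 2 ^ T := pow_le_pow_right₀ (by norm_num) hBT
      have h4 : (2 : ℝ) ^ (4 + B + A) = 2 * 2 ^ (3 + A + B) := by
        rw [← pow_succ']
        congr 1
        omega
      rw [h4] at h3
      nlinarith
    calc _ ≤ (2 ^ (3 + A + B) * U + 2 ^ (3 + A + B) * U) * 1 :=
          mul_le_mul h1 hXn (norm_nonneg _) (by positivity)
      _ ≤ _ := by rw [mul_one]; exact h2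

end Pool.Agent.Lib.Pf720mp
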