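import Pool.Agent.Lib.Pf720mp.SpA
import Pool.Agent.Lib.Pf720mp.RmC
import Pool.Agent.Lib.Pf720mp.Abs

/-!
# Freezing small parameters: the sparse part

`sparse_mx`: for every finset `P ⊆ G1 L W` the family
`mm * (1 - ∏_{γ ∈ P} XX (C₃ i) (tauW W j γ - C₃ i) (fq a γ))` satisfies the bound `B_P i`, by induction on `P`:
`1 - X_δ ∏_P X = (1 - X_δ) + X_δ (1 - ∏_P X)`: `B_{insert δ P} = B_δ + C C₃ i B_P` by `sparse_one`, `rm_prop`
(`4 C₃ i ≤ tauW - C₃ i` if `Cb ≥ 5 C₃`, as some `l ∈ W` has `δ l ≥ 1`, `j l ≥ Cb i`) and `mx_add`.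
Polynomial factors in `i` are absorbed by increasing `ρ` slightly.
Polynomial factors: `absorb` (file Abs.lean, proved).
-/

set_option autoImplicit false
set_option linter.unusedSectionVars false

open Finset Filter Topology

namespace Pool.Agent.Lib.Pf720mp

variable {ι : Type} [Fintype ι] [DecidableEq ι] {D : ℕ}

/-- the zero family -/
lemma spB_zero {I : Type} [Fintype I] [DecidableEq I] {L : ℕ} [NeZero L] {J : Type} (S : Set J)
    {B : ℝ} : MxLe S (fun (_ : J) (_ : I → ZMod L) => (0 : ℂ)) B := by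
  intro F j _
  have h : ∀ x, op (fun _ : I → ZMod L => (0 : ℂ)) F x = 0 := by
    intro x
    have h1 := op_smul (0 : ℂ) (fun _ : I → ZMod L => (0 : ℂ)) F x
    simpa using h1
  simp only [h]
  simpa using mul_nonneg (sq_nonneg B) (nn_nonneg F)

/-- the scales of the exponents of `G1` are large -/
lemma spB_tau {L W : Finset ι} {p j : ι → ℕ} {N : ℕ} (hj : j ∈ Sp L W p N) {δ : Ex ι D}
    (hδ : δ ∈ (G1 L W : Finset (Ex ι D))) : N ≤ tauW W j δ := by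
  obtain ⟨l, hl, hl0⟩ := (Finset.mem_filter.1 hδ).2
  have h1 : j l * (δ l : ℕ) ≤ tauW W j δ :=
    Finset.single_le_sum (f := fun l => j l * (δ l : ℕ)) (fun _ _ => Nat.zero_le _) hl
  have h2 : 1 ≤ (δ l : ℕ) := by
    rcases Nat.eq_zero_or_pos (δ l : ℕ) with h | h
    · exact absurd (Fin.ext h) hl0
    · exact h
  calc N ≤ j l := hj.2 l hl
    _ = j l * 1 := (mul_one _).symm
    _ ≤ j l * (δ l : ℕ) := Nat.mul_le_mul_left _ h2
    _ ≤ _ := h1

theorem sparse_mx {L W : Finset ι} (hLW : Disjoint L W) {K : ι → ℕ} (hK : ∀ l, 0 < K l)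
    (Ca : ℕ) : ∃ c : ℕ, ∀ C₃ : ℕ, c ≤ C₃ → ∃ (Cb : ℕ) (C ρ : ℝ), 0 ≤ C ∧ 0 < ρ ∧ ρ < 1 ∧
    ∀ (N : ℕ) [NeZero N] (i : ℕ), 1 ≤ i → ∀ p : ι → ℕ, (∀ l ∈ L, i ≤ p l ∧ p l ≤ Ca * i) →
      MxLe (Sp L W p (Cb * i)) (fun j (a : Ex ι D → ZMod N) => mm L W K i j (fq a) *
        (1 - XP L W (C₃ * i) j (fq a))) (C * ρ ^ i) := by
  obtain ⟨c, hc⟩ := sparse_one (D := D) hLW hK Ca
  obtain ⟨Cr, hCr, hr⟩ := rm_prop
  refine ⟨max c 1, fun C₃ hC₃ => ?_⟩
  obtain ⟨Cb, C₀, ρ₀, hC₀, hρ₀, hρ₀', h0⟩ := hc C₃ ((le_max_left _ _).trans hC₃)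
  have hC₃1 : 1 ≤ C₃ := (le_max_right _ _).trans hC₃
  refine ⟨max Cb (5 * C₃), ?_⟩
  have key : ∀ P : Finset (Ex ι D), P ⊆ (G1 L W : Finset (Ex ι D)) →
      ∃ C ρ : ℝ, 0 ≤ C ∧ 0 < ρ ∧ ρ < 1 ∧ ∀ (N : ℕ) [NeZero N] (i : ℕ), 1 ≤ i →
        ∀ p : ι → ℕ, (∀ l ∈ L, i ≤ p l ∧ p l ≤ Ca * i) →
        MxLe (Sp L W p (max Cb (5 * C₃) * i)) (fun j (a : Ex ι D → ZMod N) =>
          mm L W K i j (fq a) *
            (1 - ∏ γ ∈ P, XX (C₃ * i) (tauW W j γ - C₃ * i) (fq a γ))) (C * ρ ^ i) := by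
    intro P
    induction P using Finset.induction_on with
    | empty =>
      intro _
      refine ⟨0, 1 / 2, le_rfl, by norm_num, by norm_num, fun N _ i _ p _ => ?_⟩
      refine mx_congr (m := fun _ _ => (0 : ℂ)) (spB_zero _) fun j _ a => ?_
      simp
    | insert δ P hδ ih =>
      intro hP
      have hδG : δ ∈ (G1 L W : Finset (Ex ι D)) := hP (Finset.mem_insert_self _ _)
      obtain ⟨C, ρ, hC, hρ, hρ', h1⟩ := ih fun γ hγ => hP (Finset.mem_insert_of_mem hγ)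
      obtain ⟨C', ρ', hC', _, hρ'2, hρ'1, h2⟩ := absorb 1 (mul_nonneg hCr hC) hρ hρ'
        (Nat.cast_nonneg C₃)
      refine ⟨C₀ + C', max ρ₀ ρ', add_nonneg hC₀ hC', lt_max_of_lt_left hρ₀,
        max_lt hρ₀' hρ'1, fun N _ i hi p hp => ?_⟩
      have hρ'0 : 0 < ρ' := lt_of_lt_of_le (by norm_num) hρ'2
      have ha := mx_subset (h0 N i hi p hp δ hδG)
        (S' := Sp L W p (max Cb (5 * C₃) * i)) (fun j hj => ⟨hj.1, fun l hl =>
          (Nat.mul_le_mul_right i (le_max_left _ _)).trans (hj.2 l hl)⟩)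
      have hb := hr (Ex ι D) N (ι → ℕ) (Sp L W p (max Cb (5 * C₃) * i)) _ (C * ρ ^ i)
        (by positivity) (h1 N i hi p hp) δ (C₃ * i) (Nat.mul_pos hC₃1 hi)
        (fun j => tauW W j δ - C₃ * i) (fun j hj => by
          have h3 := spB_tau hj hδG
          have h4 : 5 * C₃ * i ≤ max Cb (5 * C₃) * i := Nat.mul_le_mul_right i (le_max_right _ _)
          have h5 : 5 * C₃ * i = 4 * (C₃ * i) + C₃ * i := by ring
          show 4 * (C₃ * i) ≤ tauW W j δ - C₃ * i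
          omega)
      have hab := mx_add ha hb (by positivity) (by positivity)
      refine mx_mono (mx_congr hab fun j _ a => ?_) (by positivity) ?_
      · rw [Finset.prod_insert hδ]
        ring
      · have h3 : C₀ * ρ₀ ^ i ≤ C₀ * (max ρ₀ ρ') ^ i :=
          mul_le_mul_of_nonneg_left (pow_le_pow_left₀ hρ₀.le (le_max_left _ _) i) hC₀
        have h4 : C' * ρ' ^ i ≤ C' * (max ρ₀ ρ') ^ i :=
          mul_le_mul_of_nonneg_left (pow_le_pow_left₀ hρ'0.le (le_max_right _ _) i) hC'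
        have h5 := h2 i
        have h6 : Cr * ((C₃ * i : ℕ) : ℝ) * (C * ρ ^ i) ≤
            Cr * C * ((C₃ : ℝ) * i + 1) ^ 1 * ρ ^ i := by
          push_cast
          have : 0 ≤ Cr * C * ρ ^ i := by positivity
          nlinarith
        calc C₀ * ρ₀ ^ i + Cr * ((C₃ * i : ℕ) : ℝ) * (C * ρ ^ i)
            ≤ C₀ * (max ρ₀ ρ') ^ i + C' * (max ρ₀ ρ') ^ i :=
              add_le_add h3 (h6.trans (h5.trans h4))
          _ = _ := by ring
  obtain ⟨C, ρ, hC, hρ, hρ', h1⟩ := key _ (Finset.Subset.refl _)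
  exact ⟨C, ρ, hC, hρ, hρ', fun N _ i hi p hp => h1 N i hi p hp⟩

end Pool.Agent.Lib.Pf720mp
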