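import Pool.Agent.Lib.Pf720mp.GapA
import Pool.Agent.Lib.Pf720mp.GapB
import Pool.Agent.Lib.Pf720mp.SpB

/-!
# Freezing small parameters: the result

Take `C₃` at least the constants `c` of `dense_str` and `sparse_mx` and `≥ 2`, and `Cb` the maximum of
all the constants `Cb` (`Sp L W p N` decreases in `N`), also `≥ C₃` and `6 C₃`. With `t = i / C₀`,
`T₁ = C₃ i`, for `j ∈ Sp L W p (Cb i)`:
`AA - KK V t = (AA - mm) + (mm - KK V t) * XP + mm * (1 - XP) - KK V t * (1 - XP)`.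
First term `gap_first`; last term `0` by `gap_kill` (`t + 1 ≤ 2 i ≤ T₁`); third `sparse_mx`; second:
`struct_max (G1 L W)` applied to `dense_str` with `T = C₃ i` (`6 T ≤ tauW W j γ` if `Cb ≥ 6 C₃`, because
`γ ∈ G1` has `γ l ≥ 1` for some `l ∈ W`), amplitude `A = max B 1 * r ^ i` from `gap_pointwise`
(`‖XP‖ ≤ 1`), `Λ = 2 ^ T ≤ A 4 ^ T` since `r ≥ 1/2`; bound `C T ^ n B r ^ i`. All is `≤ C' ρ' ^ i`.
If `W = ∅` everything is consistent (`G1 L ∅ = ∅`), no special treatment is necessary.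
Polynomial factors: `absorb` (file Abs.lean, proved).
-/

set_option autoImplicit false
set_option linter.unusedSectionVars false

open Finset Filter Topology

namespace Pool.Agent.Lib.Pf720mp

variable {ι : Type} [Fintype ι] [DecidableEq ι] {D : ℕ}

theorem gap {L W : Finset ι} (hLW : Disjoint L W) {K : ι → ℕ} (hK : ∀ l, 0 < K l)
    (hS : SS D W K) {C₀ : ℕ} (hC₀ : 1 ≤ C₀) {CA ρA : ℝ} (hCA : 0 ≤ CA) (hρA : 0 < ρA)
    (hρA1 : ρA < 1) (hV : AppP D (L ∪ W) C₀ CA ρA) (Ca : ℕ) :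
    ∃ (Cb : ℕ) (C ρ : ℝ), 0 ≤ C ∧ 0 < ρ ∧ ρ < 1 ∧ ∀ (N : ℕ) [NeZero N] (i : ℕ), 1 ≤ i →
    ∀ p : ι → ℕ, (∀ l ∈ L, i ≤ p l ∧ p l ≤ Ca * i) →
      MxLe (Sp L W p (Cb * i)) (fun j (a : Ex ι D → ZMod N) =>
        AA (res (L ∪ W) (Mj K j)) (fq a) -
          KK (L ∪ W) (i / C₀) (res (L ∪ W) (Mj K j)) (fq a)) (C * ρ ^ i) := by
  obtain ⟨CbF, CF, ρF, hCF, hρF, hρF1, hF⟩ := gap_first (D := D) hLW hK hS
  obtain ⟨C₁, C', ρ', _, hC', hρ'h, hρ'1, hW⟩ := app (ι := ι) D W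
  obtain ⟨CbP, Bp, r, hBp, hr, hr1, hP⟩ :=
    gap_pointwise hLW hK hC₀ hCA hρA hρA1 hV hC' (by linarith : 0 < ρ') hρ'1 hW
  obtain ⟨cS, hcS⟩ := dense_str (D := D) hLW hK Ca
  obtain ⟨cM, hcM⟩ := sparse_mx (D := D) hLW hK Ca
  set C₃ : ℕ := max cS (max cM 2) with hC₃
  have hC₃S : cS ≤ C₃ := le_max_left _ _
  have hC₃M : cM ≤ C₃ := (le_max_left _ _).trans (le_max_right _ _)
  have hC₃2 : 2 ≤ C₃ := (le_max_right _ _).trans (le_max_right _ _)
  obtain ⟨CbS, hS'⟩ := hcS C₃ hC₃S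
  obtain ⟨CbM, CM, ρM, hCM, hρM, hρM1, hM⟩ := hcM C₃ hC₃M
  obtain ⟨Cs, hCs, hstr⟩ := struct_max (G1 L W : Finset (Ex ι D))
  have hr0 : 0 < r := by linarith
  have hmB : 0 ≤ max Bp 1 := hBp.trans (le_max_left _ _)
  obtain ⟨Ca', ρa, hCa', hρar, hρah, hρa1, hab⟩ := absorb (G1 L W : Finset (Ex ι D)).card
    (C := Cs * max Bp 1) (ρ := r) (c := (C₃ : ℝ)) (mul_nonneg hCs hmB) hr0 hr1 (Nat.cast_nonneg _)
  set ρ : ℝ := max ρF (max ρa ρM) with hρ
  have hρF' : ρF ≤ ρ := le_max_left _ _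
  have hρa' : ρa ≤ ρ := (le_max_left _ _).trans (le_max_right _ _)
  have hρM' : ρM ≤ ρ := (le_max_right _ _).trans (le_max_right _ _)
  refine ⟨CbF + CbP + CbS + CbM + 6 * C₃, CF + (Ca' + CM), ρ, by positivity, hρF.trans_le hρF',
    max_lt hρF1 (max_lt hρa1 hρM1), ?_⟩
  intro N _ i hi p hp
  have hsub : ∀ {c : ℕ}, c ≤ CbF + CbP + CbS + CbM + 6 * C₃ →
      (Sp L W p ((CbF + CbP + CbS + CbM + 6 * C₃) * i) : Set (ι → ℕ)) ⊆ Sp L W p (c * i) :=
    fun hc j hj => ⟨hj.1, fun l hl => (Nat.mul_le_mul_right i hc).trans (hj.2 l hl)⟩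
  set T : ℕ := C₃ * i with hT
  have hT1 : 1 ≤ T := Nat.mul_pos (by omega) hi
  have hti : i / C₀ ≤ i := Nat.div_le_self _ _
  have hiT : 2 * i ≤ T := Nat.mul_le_mul_right i hC₃2
  have hXP : ∀ (j : ι → ℕ) (θ : Ex ι D → ℝ), ‖XP L W T j θ‖ ≤ 1 := by
    intro j θ
    unfold XP
    rw [norm_prod]
    refine Finset.prod_le_one (fun _ _ => norm_nonneg _) fun γ _ => ?_
    unfold XX
    split_ifs <;> simp
  -- first term
  have h1 := mx_subset (hF N i hi p) (hsub (c := CbF) (by omega))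
  -- second term
  have hA0 : 0 ≤ max Bp 1 * r ^ i := mul_nonneg hmB (pow_nonneg hr0.le _)
  have hΛ : (2 : ℝ) ^ T ≤ max Bp 1 * r ^ i * 2 ^ (2 * T) := by
    have e1 : (1 / 2 : ℝ) ^ i ≤ max Bp 1 * r ^ i := by
      calc (1 / 2 : ℝ) ^ i ≤ r ^ i := pow_le_pow_left₀ (by norm_num) hr i
        _ = 1 * r ^ i := (one_mul _).symm
        _ ≤ max Bp 1 * r ^ i := mul_le_mul_of_nonneg_right (le_max_right _ _)
            (pow_nonneg hr0.le _)
    have e2 : (1 : ℝ) ≤ (1 / 2) ^ i * 2 ^ T := by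
      calc (1 : ℝ) = (1 / 2) ^ i * 2 ^ i := by rw [← mul_pow]; norm_num
        _ ≤ (1 / 2) ^ i * 2 ^ T := mul_le_mul_of_nonneg_left
            (pow_le_pow_right₀ (by norm_num) (by omega)) (by positivity)
    calc (2 : ℝ) ^ T = 1 * 2 ^ T := (one_mul _).symm
      _ ≤ ((1 / 2) ^ i * 2 ^ T) * 2 ^ T := mul_le_mul_of_nonneg_right e2 (by positivity)
      _ = (1 / 2) ^ i * 2 ^ (2 * T) := by rw [two_mul, pow_add]; ring
      _ ≤ max Bp 1 * r ^ i * 2 ^ (2 * T) := mul_le_mul_of_nonneg_right e1 (by positivity)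
  have h2 := hstr N T hT1 (max Bp 1 * r ^ i) ((2 : ℝ) ^ T) hA0 hΛ (ι → ℕ)
    (Sp L W p ((CbF + CbP + CbS + CbM + 6 * C₃) * i)) (tauW W)
    (fun j θ => (mm L W K i j θ - KK (L ∪ W) (i / C₀) (res (L ∪ W) (Mj K j)) θ) *
      XP L W T j θ) ?_ ?_ ?_
  rotate_left
  · intro j hj γ hγ
    obtain ⟨l, hl, hγl⟩ := (Finset.mem_filter.1 hγ).2
    have e1 : 6 * T ≤ j l := by
      refine le_trans ?_ (hj.2 l hl)
      rw [hT, ← mul_assoc]
      exact Nat.mul_le_mul_right i (by omega)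
    have e2 : 1 ≤ (γ l : ℕ) := by
      have e3 : (γ l : ℕ) ≠ 0 := fun h => hγl (Fin.ext (by simpa using h))
      omega
    calc 6 * T ≤ j l * (γ l : ℕ) := e1.trans (Nat.le_mul_of_pos_right _ e2)
      _ ≤ tauW W j γ := Finset.single_le_sum (f := fun l => j l * (γ l : ℕ))
          (fun _ _ => Nat.zero_le _) hl
  · exact (hS' i hi (i / C₀) hti p hp).subset (hsub (c := CbS) (by omega))
  · intro j hj θ
    rw [norm_mul]
    have e1 := hP i hi p (fun l hl => (hp l hl).1) j (hsub (c := CbP) (by omega) hj) θ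
    calc ‖mm L W K i j θ - KK (L ∪ W) (i / C₀) (res (L ∪ W) (Mj K j)) θ‖ * ‖XP L W T j θ‖ ≤
          (Bp * r ^ i) * 1 := mul_le_mul e1 (hXP j θ) (norm_nonneg _)
            (mul_nonneg hBp (pow_nonneg hr0.le _))
      _ = Bp * r ^ i := mul_one _
      _ ≤ max Bp 1 * r ^ i := mul_le_mul_of_nonneg_right (le_max_left _ _)
            (pow_nonneg hr0.le _)
  have hB2 : Cs * (T : ℝ) ^ (G1 L W : Finset (Ex ι D)).card * (max Bp 1 * r ^ i) ≤
      Ca' * ρa ^ i := by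
    refine le_trans ?_ (hab i)
    have e1 : (T : ℝ) ^ (G1 L W : Finset (Ex ι D)).card ≤
        ((C₃ : ℝ) * i + 1) ^ (G1 L W : Finset (Ex ι D)).card := by
      refine pow_le_pow_left₀ (Nat.cast_nonneg _) ?_ _
      rw [hT]
      push_cast
      linarith
    calc Cs * (T : ℝ) ^ (G1 L W : Finset (Ex ι D)).card * (max Bp 1 * r ^ i) ≤
          Cs * ((C₃ : ℝ) * i + 1) ^ (G1 L W : Finset (Ex ι D)).card * (max Bp 1 * r ^ i) :=
          mul_le_mul_of_nonneg_right (mul_le_mul_of_nonneg_left e1 hCs) hA0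
      _ = Cs * max Bp 1 * ((C₃ : ℝ) * i + 1) ^ (G1 L W : Finset (Ex ι D)).card * r ^ i := by
          ring
  have h2' := mx_mono h2 (by positivity) hB2
  -- third term
  have h3 := mx_subset (hM N i hi p hp) (hsub (c := CbM) (by omega))
  have h4 := mx_add h1 (mx_add h2' h3 (mul_nonneg hCa' (by positivity))
    (mul_nonneg hCM (by positivity))) (mul_nonneg hCF (by positivity))
    (add_nonneg (mul_nonneg hCa' (by positivity)) (mul_nonneg hCM (by positivity)))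
  refine mx_mono (mx_congr h4 ?_) (by positivity) ?_
  · intro j hj a
    have hk := gap_kill (D := D) (L := L) (W := W) hK (t := i / C₀) (T₁ := T) (by omega)
      (j := j) (fun l hl => by
        refine le_trans ?_ (hj.2 l hl)
        exact Nat.mul_le_mul_right i (by omega)) (fq a)
    linear_combination (-1 : ℂ) * hk
  · have e1 : CF * ρF ^ i ≤ CF * ρ ^ i :=
      mul_le_mul_of_nonneg_left (pow_le_pow_left₀ hρF.le hρF' i) hCF
    have e2 : Ca' * ρa ^ i ≤ Ca' * ρ ^ i :=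
      mul_le_mul_of_nonneg_left (pow_le_pow_left₀ (by linarith) hρa' i) hCa'
    have e3 : CM * ρM ^ i ≤ CM * ρ ^ i :=
      mul_le_mul_of_nonneg_left (pow_le_pow_left₀ hρM.le hρM' i) hCM
    calc CF * ρF ^ i + (Ca' * ρa ^ i + CM * ρM ^ i) ≤
          CF * ρ ^ i + (Ca' * ρ ^ i + CM * ρ ^ i) := add_le_add e1 (add_le_add e2 e3)
      _ = (CF + (Ca' + CM)) * ρ ^ i := by ring

end Pool.Agent.Lib.Pf720mp
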