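import Pool.Agent.Lib.Pf720mp.GapDefs

/-!
# Freezing small parameters: the first error term and the pointwise estimates
-/

set_option autoImplicit false
set_option linter.unusedSectionVars false

open Finset Filter Topology

namespace Pool.Agent.Lib.Pf720mp

variable {ι : Type} [Fintype ι] [DecidableEq ι] {D : ℕ}

lemma gapA_two_pow_le_Mj {K : ι → ℕ} (hK : ∀ l, 0 < K l) (j : ι → ℕ) (l : ι) {N : ℕ}
    (h : N ≤ j l) : 2 ^ N ≤ Mj K j l := by
  unfold Mj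
  calc 2 ^ N ≤ 2 ^ j l := Nat.pow_le_pow_right (by norm_num) h
    _ ≤ K l * 2 ^ j l := Nat.le_mul_of_pos_left _ (hK l)

lemma gapA_Mj_pos {K : ι → ℕ} (hK : ∀ l, 0 < K l) (j : ι → ℕ) (l : ι) : 0 < Mj K j l :=
  Nat.mul_pos (hK l) (by positivity)

lemma gapA_res_L {L W : Finset ι} {K p j : ι → ℕ} {N : ℕ} (hj : j ∈ Sp L W p N) :
    res L (Mj K j) = res L (Mj K p) := by
  funext l
  unfold res Mj
  split_ifs with h
  · rw [hj.1 l h]
  · rfl

lemma gapA_diff {L W : Finset ι} (hLW : Disjoint L W) (K : ι → ℕ) (T₀ : ℕ) (j : ι → ℕ)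
    (θ : Ex ι D → ℝ) : AA (res (L ∪ W) (Mj K j)) θ - mm L W K T₀ j θ =
      (((bx (res L (Mj K j))).card : ℂ))⁻¹ * ∑ μ ∈ bx (res L (Mj K j)),
        (AA (res W (Mj K j)) (psi L μ θ) - KK W T₀ (res W (Mj K j)) (psi L μ θ)) := by
  have h1 : (L ∪ W) \ L = W := by
    rw [Finset.union_sdiff_left]
    exact Finset.sdiff_eq_self_of_disjoint hLW.symm
  rw [AA_split (L := L) (V := L ∪ W) Finset.subset_union_left, h1]
  unfold mm
  rw [← mul_sub, ← Finset.sum_sub_distrib, card_bx]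
  push_cast
  rfl

theorem gap_first {L W : Finset ι} (hLW : Disjoint L W) {K : ι → ℕ} (hK : ∀ l, 0 < K l)
    (hS : SS D W K) : ∃ (Cb : ℕ) (C ρ : ℝ), 0 ≤ C ∧ 0 < ρ ∧ ρ < 1 ∧
    ∀ (N : ℕ) [NeZero N] (i : ℕ), 1 ≤ i → ∀ p : ι → ℕ,
      MxLe (Sp L W p (Cb * i)) (fun j (a : Ex ι D → ZMod N) =>
        AA (res (L ∪ W) (Mj K j)) (fq a) - mm L W K i j (fq a)) (C * ρ ^ i) := by
  obtain ⟨C₀, C, ρ, hC, hρ, hρ1, h⟩ := hS
  refine ⟨C₀ + 7, C, ρ, hC, hρ, hρ1, ?_⟩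
  intro N _ i hi p
  have hB : 0 ≤ C * ρ ^ i := by positivity
  have key : MxLe (Sp L W p ((C₀ + 7) * i)) (fun j (a : Ex ι D → ZMod N) =>
      (((bx (res L (Mj K p))).card : ℂ))⁻¹ * ∑ μ ∈ bx (res L (Mj K p)),
        (fun θ : Ex ι D → ℝ => AA (res W (Mj K j)) θ - KK W i (res W (Mj K j)) θ)
          (fun γ => ∑ δ, (wt L μ γ δ : ℝ) * fq a δ)) (C * ρ ^ i) := by
    refine mx_avg (bx (res L (Mj K p))) hB (m := fun μ j (a : Ex ι D → ZMod N) =>
      (fun θ : Ex ι D → ℝ => AA (res W (Mj K j)) θ - KK W i (res W (Mj K j)) θ)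
          (fun γ => ∑ δ, (wt L μ γ δ : ℝ) * fq a δ)) ?_
    intro μ _
    refine mx_hom (wt L μ) (n := fun j (θ : Ex ι D → ℝ) =>
      AA (res W (Mj K j)) θ - KK W i (res W (Mj K j)) θ) hB ?_ ?_
    · intro j hj θ k
      have hM : ∀ γ ∈ (GV W : Finset (Ex ι D)), 2 ^ (3 * i + 4) ≤ mon (res W (Mj K j)) γ := by
        intro γ hγ
        refine pow_le_mon W Nat.one_le_two_pow (fun l hl => ?_) hγ
        apply gapA_two_pow_le_Mj hK
        refine le_trans ?_ (hj.2 l hl)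
        nlinarith
      show AA _ _ - KK _ _ _ _ = AA _ _ - KK _ _ _ _
      rw [AA_periodic, KK_add_int hM]
    · refine mx_subset (h N i hi) ?_
      intro j hj l hl
      refine le_trans ?_ (hj.2 l hl)
      exact Nat.mul_le_mul_right _ (by omega)
  refine mx_congr key ?_
  intro j hj a
  rw [gapA_diff hLW, gapA_res_L hj]
  rfl

theorem gap_pointwise {L W : Finset ι} (hLW : Disjoint L W) {K : ι → ℕ} (hK : ∀ l, 0 < K l)
    {C₀ : ℕ} (hC₀ : 1 ≤ C₀) {C ρ : ℝ} (hC : 0 ≤ C) (hρ : 0 < ρ) (hρ1 : ρ < 1)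
    (hV : AppP D (L ∪ W) C₀ C ρ) {C₁ : ℕ} {C' ρ' : ℝ} (hC' : 0 ≤ C') (hρ' : 0 < ρ') (hρ1' : ρ' < 1)
    (hW : AppP D W C₁ C' ρ') :
    ∃ (Cb : ℕ) (B r : ℝ), 0 ≤ B ∧ 1 / 2 ≤ r ∧ r < 1 ∧
    ∀ (i : ℕ), 1 ≤ i → ∀ p : ι → ℕ, (∀ l ∈ L, i ≤ p l) → ∀ j ∈ Sp L W p (Cb * i),
      ∀ θ : Ex ι D → ℝ,
        ‖mm L W K i j θ - KK (L ∪ W) (i / C₀) (res (L ∪ W) (Mj K j)) θ‖ ≤ B * r ^ i := by
  set σ : ℝ := ρ ^ ((C₀ : ℝ)⁻¹) with hσ
  have hσ0 : 0 < σ := Real.rpow_pos_of_pos hρ _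
  have hσ1 : σ < 1 := by
    apply Real.rpow_lt_one hρ.le hρ1
    have : (0 : ℝ) < C₀ := by exact_mod_cast hC₀
    positivity
  have hσC : σ ^ C₀ = ρ := Real.rpow_inv_natCast_pow hρ.le (by omega)
  refine ⟨C₁ + 1, C' + C / ρ, max (max ρ' σ) (1 / 2), by positivity, le_max_right _ _,
    max_lt (max_lt hρ1' hσ1) (by norm_num), ?_⟩
  intro i hi p hp j hj θ
  set r : ℝ := max (max ρ' σ) (1 / 2) with hr
  have hr1 : ρ' ≤ r := (le_max_left _ _).trans (le_max_left _ _)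
  have hr2 : σ ≤ r := (le_max_right _ _).trans (le_max_left _ _)
  have h1 : ‖AA (res (L ∪ W) (Mj K j)) θ - mm L W K i j θ‖ ≤ C' * ρ' ^ i := by
    rw [gapA_diff hLW, norm_mul, norm_inv, Complex.norm_natCast]
    have hpos : 0 < ((bx (res L (Mj K j))).card : ℝ) := by
      rw [card_bx]
      have : 0 < ∏ l, res L (Mj K j) l := Finset.prod_pos fun l _ =>
        res_pos (fun l _ => gapA_Mj_pos hK j l) l
      exact_mod_cast this
    rw [inv_mul_le_iff₀ hpos]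
    refine (norm_sum_le _ _).trans ?_
    refine (Finset.sum_le_sum (g := fun _ => C' * ρ' ^ i) fun μ _ => ?_).trans ?_
    · refine hW i (Mj K j) (fun l hl => ?_) (psi L μ θ)
      apply gapA_two_pow_le_Mj hK
      refine le_trans ?_ (hj.2 l hl)
      exact Nat.mul_le_mul_right _ (by omega)
    · rw [Finset.sum_const, nsmul_eq_mul]
  have h2 : ‖AA (res (L ∪ W) (Mj K j)) θ -
      KK (L ∪ W) (i / C₀) (res (L ∪ W) (Mj K j)) θ‖ ≤ C * ρ ^ (i / C₀) := by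
    refine hV (i / C₀) (Mj K j) (fun l hl => ?_) θ
    apply gapA_two_pow_le_Mj hK
    refine le_trans (Nat.mul_div_le i C₀) ?_
    rcases Finset.mem_union.1 hl with h | h
    · rw [hj.1 l h]; exact hp l h
    · refine le_trans ?_ (hj.2 l h)
      exact Nat.le_mul_of_pos_left _ (by omega)
  have h3 : ρ ^ (i / C₀) ≤ σ ^ i / ρ := by
    rw [le_div_iff₀ hρ]
    conv_lhs => rw [← hσC]
    rw [← pow_mul, ← pow_add]
    apply pow_le_pow_of_le_one hσ0.le hσ1.le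
    have := Nat.lt_mul_div_succ i (show 0 < C₀ by omega)
    rw [mul_add, mul_one] at this
    omega
  have h4 : mm L W K i j θ - KK (L ∪ W) (i / C₀) (res (L ∪ W) (Mj K j)) θ =
      (AA (res (L ∪ W) (Mj K j)) θ - KK (L ∪ W) (i / C₀) (res (L ∪ W) (Mj K j)) θ) -
      (AA (res (L ∪ W) (Mj K j)) θ - mm L W K i j θ) := by ring
  rw [h4]
  refine (norm_sub_le _ _).trans ?_
  have h5 : ρ' ^ i ≤ r ^ i := pow_le_pow_left₀ hρ'.le hr1 i
  have h6 : σ ^ i ≤ r ^ i := pow_le_pow_left₀ hσ0.le hr2 i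
  calc _ ≤ C * ρ ^ (i / C₀) + C' * ρ' ^ i := add_le_add h2 h1
    _ ≤ C * (σ ^ i / ρ) + C' * ρ' ^ i := by gcongr
    _ = C / ρ * σ ^ i + C' * ρ' ^ i := by ring
    _ ≤ C / ρ * r ^ i + C' * r ^ i := by gcongr
    _ = (C' + C / ρ) * r ^ i := by ring

theorem gap_kill {L W : Finset ι} {K : ι → ℕ} (hK : ∀ l, 0 < K l) {t T₁ : ℕ}
    (ht : t + 1 ≤ T₁) {j : ι → ℕ} (hj : ∀ l ∈ W, T₁ ≤ j l) (θ : Ex ι D → ℝ) :
    KK (L ∪ W) t (res (L ∪ W) (Mj K j)) θ * (1 - XP L W T₁ j θ) = 0 := by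
  by_cases hb : ∃ b, Rep (L ∪ W) t (res (L ∪ W) (Mj K j)) θ b
  · obtain ⟨b, hb1, ⟨q, hq0, hq1, hq2⟩, hb3⟩ := hb
    have hX : XP L W T₁ j θ = 1 := by
      unfold XP
      apply Finset.prod_eq_one
      intro γ hγ
      unfold G1 at hγ
      rw [Finset.mem_filter] at hγ
      obtain ⟨hγ1, l0, hl0, hγ2⟩ := hγ
      obtain ⟨nn, hnn⟩ := hq2 γ
      have hden : (b γ).den ≤ 2 ^ T₁ := (den_le_of_mul_int hq0 hnn).trans
        (hq1.trans (Nat.pow_le_pow_right (by norm_num) (by omega)))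
      refine XX_eq_one_of hden ?_
      have hτ : T₁ ≤ tauW W j γ := by
        unfold tauW
        refine le_trans ?_ (Finset.single_le_sum (f := fun l => j l * (γ l : ℕ))
          (fun _ _ => Nat.zero_le _) hl0)
        have h1 : (γ l0 : ℕ) ≠ 0 := fun h => hγ2 (Fin.ext h)
        exact (hj l0 hl0).trans (Nat.le_mul_of_pos_right _ (Nat.pos_of_ne_zero h1))
      have hmon : 2 ^ tauW W j γ ≤ mon (res (L ∪ W) (Mj K j)) γ := by
        rw [mon_res]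
        calc 2 ^ tauW W j γ = ∏ l ∈ W, 2 ^ (j l * (γ l : ℕ)) := by
              unfold tauW
              rw [Finset.prod_pow_eq_pow_sum]
          _ ≤ ∏ l ∈ W, Mj K j l ^ (γ l : ℕ) := by
              refine Finset.prod_le_prod' fun l _ => ?_
              rw [pow_mul]
              exact Nat.pow_le_pow_left (gapA_two_pow_le_Mj hK j l le_rfl) _
          _ ≤ ∏ l ∈ L ∪ W, Mj K j l ^ (γ l : ℕ) := by
              refine Finset.prod_le_prod_of_subset_of_one_le' Finset.subset_union_right ?_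
              intro l _ _
              exact Nat.one_le_pow _ _ (gapA_Mj_pos hK j l)
      have h3 := hb3 γ hγ1
      rw [abs_mul, Nat.abs_cast] at h3
      have h4 : (2 : ℝ) ^ tauW W j γ ≤ (mon (res (L ∪ W) (Mj K j)) γ : ℝ) := by
        exact_mod_cast hmon
      have h5 : (2 : ℝ) ^ tauW W j γ * |θ γ - b γ| ≤ 2 ^ T₁ := by
        refine (mul_le_mul_of_nonneg_right h4 (abs_nonneg _)).trans (h3.trans ?_)
        exact pow_le_pow_right₀ (by norm_num) ht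
      have h6 : (2 : ℝ) ^ tauW W j γ = 2 ^ (tauW W j γ - T₁) * 2 ^ T₁ := by
        rw [← pow_add]
        congr 1
        omega
      rw [h6] at h5
      have h7 : (2 : ℝ) ^ (tauW W j γ - T₁) * |θ γ - b γ| ≤ 1 := by
        have h8 : (0 : ℝ) < 2 ^ T₁ := by positivity
        refine le_of_mul_le_mul_left ?_ h8
        calc (2 : ℝ) ^ T₁ * (2 ^ (tauW W j γ - T₁) * |θ γ - b γ|) =
              2 ^ (tauW W j γ - T₁) * 2 ^ T₁ * |θ γ - b γ| := by ring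
          _ ≤ 2 ^ T₁ * 1 := by rw [mul_one]; exact h5
      rw [one_div_pow, le_div_iff₀ (by positivity), mul_comm]
      exact h7
    rw [hX, sub_self, mul_zero]
  · rw [KK_of_not hb, zero_mul]

end Pool.Agent.Lib.Pf720mp
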