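import Pool.Agent.Lib.Pf720mp.MxA

/-!
# Transference of maximal bounds under homomorphisms, and the overlap lemma

`mx_hom`. Let `W` be a natural matrix, `w a = ∑_δ W_γδ a_δ` the homomorphism
`(ℤ/L)^I → (ℤ/L)^I'` and `wᵀ` the dual one, `(wᵀ y)_δ = ∑_γ W_γδ y_γ`. As `n j` is periodic,
`n j (W (fq a)) = n j (fq (w a))` (the two arguments differ by integers). For fixed `x` put
`F_x y = F (x + wᵀ y)`. Claim: for every multiplier `p` on `(ℤ/L)^I'`,
`op (p ∘ w) F (x + wᵀ y) = op p F_x y`. (Expand: `F = L^{-|I|} ∑_a ft F a χ_a` i.e. `op_one`; both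
sides are linear in `F` and for `F = χ_a` one has `op (p ∘ w) χ_a = p (w a) χ_a`,
`χ_a (x + wᵀ y) = χ_a x * χ_{w a} y`. Alternatively: `p = ∑_v c_v χ_v` is a linear combination of
the characters `a' ↦ chi a' v`, for which both sides are translations by `op_chi`, and
`chi (w a) v = chi a (wᵀ v)`. The second way is probably shorter.)
Then `∑_x |op (n (j x) ∘ w) F x|² = L^{-|I'|} ∑_y ∑_x |op (n (j (x + wᵀ y)) ∘ w) F (x + wᵀ y)|² =
L^{-|I'|} ∑_x ∑_y |op (n (j (x + wᵀ y))) F_x y|² ≤ L^{-|I'|} ∑_x B² ∑_y |F (x + wᵀ y)|² = B² ‖F‖²`.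

`mx_overlap`. Put `Θ_i = {a | ∃ j ∈ S, m i j a ≠ 0}` and `F_i = op 1_{Θ_i} F`. Then
`op (m i j) F = op (m i j) F_i` for `j ∈ S`, so by Cauchy-Schwarz over `i`
`∑_x |s|⁻² |∑_i op (m i (j x)) F_i x|² ≤ |s|⁻¹ ∑_i ∑_x |op (m i (j x)) F_i x|² ≤
|s|⁻¹ B² ∑_i nn F_i`, and `L^{|I|} ∑_i nn F_i = ∑_a #{i | a ∈ Θ_i} |ft F a|² ≤ κ |s| L^{|I|} nn F`.
-/

set_option autoImplicit false
set_option linter.unusedSectionVars false

open Finset

namespace Pool.Agent.Lib.Pf720mp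

variable {I I' : Type} [Fintype I] [DecidableEq I] [Fintype I'] [DecidableEq I'] {L : ℕ} [NeZero L]
  {J : Type}

namespace MxHAux

/-- the homomorphism of the matrix -/
def wm (W : I' → I → ℕ) (a : I → ZMod L) : I' → ZMod L := fun γ => ∑ δ, (W γ δ : ZMod L) * a δ

/-- the dual homomorphism -/
def wd (W : I' → I → ℕ) (y : I' → ZMod L) : I → ZMod L := fun δ => ∑ γ, (W γ δ : ZMod L) * y γ

lemma chi_wm (W : I' → I → ℕ) (a : I → ZMod L) (v : I' → ZMod L) :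
    chi (wm W a) v = chi a (wd W v) := by
  unfold chi wm wd
  congr 1
  simp only [Finset.sum_mul, Finset.mul_sum]
  rw [Finset.sum_comm]
  exact Finset.sum_congr rfl fun δ _ => Finset.sum_congr rfl fun γ _ => by ring

lemma wd_add (W : I' → I → ℕ) (y v : I' → ZMod L) : wd W (y + v) = wd W y + wd W v := by
  funext δ
  simp only [wd, Pi.add_apply, mul_add, Finset.sum_add_distrib]

lemma expand (p : (I' → ZMod L) → ℂ) :
    ∃ c : (I' → ZMod L) → ℂ, ∀ a, p a = ∑ v, c v * chi a v := by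
  refine ⟨fun v => ((L : ℂ) ^ Fintype.card I')⁻¹ * ft p v, fun a => ?_⟩
  have h := congrFun (op_one p) a
  rw [← h]
  unfold op
  rw [Finset.mul_sum]
  refine Finset.sum_congr rfl fun v _ => ?_
  rw [one_mul, chi_comm v a, mul_assoc]

lemma op_hom (W : I' → I → ℕ) (p : (I' → ZMod L) → ℂ) (F : (I → ZMod L) → ℂ) (x : I → ZMod L)
    (y : I' → ZMod L) :
    op (fun a => p (wm W a)) F (x + wd W y) = op p (fun y => F (x + wd W y)) y := by
  obtain ⟨c, hc⟩ := expand p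
  have h1 : (fun a : I → ZMod L => p (wm W a)) = fun a => ∑ v, c v * chi a (wd W v) := by
    funext a
    rw [hc]
    exact Finset.sum_congr rfl fun v _ => by rw [chi_wm]
  have h2 : p = fun a => ∑ v, c v * chi a v := funext hc
  have h3 : op p (fun y => F (x + wd W y)) y =
      op (fun a => ∑ v, c v * chi a v) (fun y => F (x + wd W y)) y := congrArg
        (fun q => op q (fun y => F (x + wd W y)) y) h2
  rw [h1, h3, op_sum, op_sum]
  refine Finset.sum_congr rfl fun v _ => ?_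
  rw [op_smul, op_smul, op_chi, op_chi, wd_add, add_assoc]

lemma shift (f : (I → ZMod L) → ℝ) (z : I → ZMod L) : ∑ x, f (x + z) = ∑ x, f x :=
  Fintype.sum_equiv (Equiv.addRight z) _ _ (fun _ => rfl)

lemma fq_wm (W : I' → I → ℕ) (a : I → ZMod L) :
    (fun γ => ∑ δ, (W γ δ : ℝ) * fq a δ) =
      fun γ => fq (wm W a) γ + ((((∑ δ, W γ δ * (a δ).val) / L : ℕ) : ℤ) : ℝ) := by
  funext γ
  have hL : (L : ℝ) ≠ 0 := Nat.cast_ne_zero.2 (NeZero.ne L)
  obtain ⟨N, hN⟩ : ∃ N : ℕ, N = ∑ δ, W γ δ * (a δ).val := ⟨_, rfl⟩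
  rw [← hN]
  have e1 : wm W a γ = (N : ZMod L) := by
    rw [hN]
    unfold wm
    push_cast
    exact Finset.sum_congr rfl fun δ _ => by rw [ZMod.natCast_zmod_val]
  have e2 : ∑ δ, (W γ δ : ℝ) * fq a δ = (N : ℝ) / L := by
    rw [hN]
    unfold fq
    push_cast
    rw [Finset.sum_div]
    exact Finset.sum_congr rfl fun δ _ => by ring
  have e3 : fq (wm W a) γ = ((N % L : ℕ) : ℝ) / L := by
    unfold fq
    rw [e1, ZMod.val_natCast]
  have e4 : ((N % L : ℕ) : ℝ) + L * ((N / L : ℕ) : ℝ) = N := by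
    exact_mod_cast Nat.mod_add_div N L
  rw [e2, e3, Int.cast_natCast, div_eq_iff hL, add_mul, div_mul_cancel₀ _ hL]
  linarith

end MxHAux

open MxHAux

theorem mx_hom (W : I' → I → ℕ) {S : Set J} {n : J → (I' → ℝ) → ℂ} {B : ℝ} (hB : 0 ≤ B)
    (hper : ∀ j ∈ S, ∀ (θ : I' → ℝ) (k : I' → ℤ), n j (fun γ => θ γ + k γ) = n j θ)
    (h : MxLe S (fun j (a : I' → ZMod L) => n j (fq a)) B) :
    MxLe S (fun j (a : I → ZMod L) => n j (fun γ => ∑ δ, (W γ δ : ℝ) * fq a δ)) B := by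
  intro F j hj
  have hm : ∀ x, (fun a : I → ZMod L => n (j x) (fun γ => ∑ δ, (W γ δ : ℝ) * fq a δ)) =
      fun a => (fun a' : I' → ZMod L => n (j x) (fq a')) (wm W a) := by
    intro x
    funext a
    rw [fq_wm]
    exact hper (j x) (hj x) (fq (wm W a)) (fun γ => (((∑ δ, W γ δ * (a δ).val) / L : ℕ) : ℤ))
  have hcard : (0 : ℝ) < (Fintype.card (I' → ZMod L) : ℝ) := by
    exact_mod_cast Fintype.card_pos
  set g : (I → ZMod L) → ℝ := fun x =>
    ‖op (fun a => (fun a' : I' → ZMod L => n (j x) (fq a')) (wm W a)) F x‖ ^ 2 with hg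
  have hgoal : ∑ x, ‖op (fun a : I → ZMod L => n (j x) (fun γ => ∑ δ, (W γ δ : ℝ) * fq a δ)) F x‖ ^ 2
      = ∑ x, g x := by
    refine Finset.sum_congr rfl fun x _ => ?_
    rw [hm x]
  show ∑ x, ‖op (fun a : I → ZMod L => n (j x) (fun γ => ∑ δ, (W γ δ : ℝ) * fq a δ)) F x‖ ^ 2 ≤ _
  rw [hgoal]
  refine le_of_mul_le_mul_left ?_ hcard
  calc (Fintype.card (I' → ZMod L) : ℝ) * ∑ x, g x
      = ∑ y : I' → ZMod L, ∑ x, g (x + wd W y) := by
        rw [Finset.sum_congr rfl fun y _ => shift g (wd W y), Finset.sum_const, Finset.card_univ,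
          nsmul_eq_mul]
    _ = ∑ x, ∑ y, g (x + wd W y) := Finset.sum_comm
    _ ≤ ∑ x, B ^ 2 * nn (fun y => F (x + wd W y)) := by
        refine Finset.sum_le_sum fun x _ => ?_
        have h1 := h (fun y => F (x + wd W y)) (fun y => j (x + wd W y)) (fun y => hj _)
        refine le_trans (le_of_eq ?_) h1
        refine Finset.sum_congr rfl fun y _ => ?_
        simp only [hg]
        rw [op_hom W (fun a' : I' → ZMod L => n (j (x + wd W y)) (fq a')) F x y]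
    _ = (Fintype.card (I' → ZMod L) : ℝ) * (B ^ 2 * nn F) := by
        rw [← Finset.mul_sum]
        unfold nn
        rw [Finset.sum_comm, Finset.sum_congr rfl fun y _ => shift (fun x => ‖F x‖ ^ 2) (wd W y),
          Finset.sum_const, Finset.card_univ, nsmul_eq_mul]
        ring

open Classical in
theorem mx_overlap {κ : Type} (s : Finset κ) {S : Set J} {m : κ → J → (I → ZMod L) → ℂ} {B k : ℝ}
    (hB : 0 ≤ B) (hk : 0 ≤ k) (h : ∀ i ∈ s, MxLe S (m i) B)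
    (hov : ∀ a, ((s.filter fun i => ∃ j ∈ S, m i j a ≠ 0).card : ℝ) ≤ k * s.card) :
    MxLe S (fun j a => ((s.card : ℂ))⁻¹ * ∑ i ∈ s, m i j a) (Real.sqrt k * B) := by
  intro F j hj
  have hc0 : (0 : ℝ) ≤ (s.card : ℝ) := Nat.cast_nonneg _
  set E : κ → (I → ZMod L) → ℂ := fun i a => if ∃ j ∈ S, m i j a ≠ 0 then 1 else 0 with hE
  have h1 : ∀ i x, op (m i (j x)) F x = op (m i (j x)) (op (E i) F) x := by
    intro i x
    rw [op_op]
    have h2 : (fun a => m i (j x) a * E i a) = m i (j x) := by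
      funext a
      by_cases hex : ∃ j ∈ S, m i j a ≠ 0
      · simp only [hE, if_pos hex, mul_one]
      · push Not at hex
        rw [hex (j x) (hj x), zero_mul]
    rw [h2]
  have h2 : ∀ x, ‖op (fun a => ((s.card : ℂ))⁻¹ * ∑ i ∈ s, m i (j x) a) F x‖ ^ 2 ≤
      (s.card : ℝ)⁻¹ * ∑ i ∈ s, ‖op (m i (j x)) (op (E i) F) x‖ ^ 2 := by
    intro x
    rw [op_smul, op_sum, norm_mul, mul_pow, norm_inv, Complex.norm_natCast]
    have h3 : ‖∑ i ∈ s, op (m i (j x)) F x‖ ^ 2 ≤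
        (s.card : ℝ) * ∑ i ∈ s, ‖op (m i (j x)) (op (E i) F) x‖ ^ 2 := by
      calc _ ≤ (∑ i ∈ s, ‖op (m i (j x)) F x‖) ^ 2 :=
            pow_le_pow_left₀ (norm_nonneg _) (norm_sum_le _ _) 2
        _ ≤ s.card * ∑ i ∈ s, ‖op (m i (j x)) F x‖ ^ 2 := sq_sum_le_card_mul_sum_sq
        _ = _ := by rw [Finset.sum_congr rfl fun i _ => by rw [h1 i x]]
    calc ((s.card : ℝ)⁻¹) ^ 2 * ‖∑ i ∈ s, op (m i (j x)) F x‖ ^ 2
        ≤ ((s.card : ℝ)⁻¹) ^ 2 * ((s.card : ℝ) *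
          ∑ i ∈ s, ‖op (m i (j x)) (op (E i) F) x‖ ^ 2) :=
          mul_le_mul_of_nonneg_left h3 (sq_nonneg _)
      _ = (s.card : ℝ)⁻¹ * ∑ i ∈ s, ‖op (m i (j x)) (op (E i) F) x‖ ^ 2 := by
          rcases eq_or_ne (s.card : ℝ) 0 with h0 | h0
          · rw [h0]; simp
          · rw [← mul_assoc, pow_two, mul_assoc (s.card : ℝ)⁻¹, inv_mul_cancel₀ h0, mul_one]
  have h4 : ∑ i ∈ s, nn (op (E i) F) ≤ (k * s.card) * nn F := by
    apply sum_nn_op_le
    intro a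
    refine le_trans (le_of_eq ?_) (hov a)
    rw [Finset.card_filter]
    push_cast
    refine Finset.sum_congr rfl fun i _ => ?_
    by_cases hex : ∃ j ∈ S, m i j a ≠ 0
    · simp only [hE, if_pos hex, norm_one, one_pow]
    · simp only [hE, if_neg hex, norm_zero]
      norm_num
  show ∑ x, ‖op (fun a => ((s.card : ℂ))⁻¹ * ∑ i ∈ s, m i (j x) a) F x‖ ^ 2 ≤ _
  calc ∑ x, ‖op (fun a => ((s.card : ℂ))⁻¹ * ∑ i ∈ s, m i (j x) a) F x‖ ^ 2
      ≤ ∑ x, (s.card : ℝ)⁻¹ * ∑ i ∈ s, ‖op (m i (j x)) (op (E i) F) x‖ ^ 2 :=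
        Finset.sum_le_sum fun x _ => h2 x
    _ = (s.card : ℝ)⁻¹ * ∑ i ∈ s, ∑ x, ‖op (m i (j x)) (op (E i) F) x‖ ^ 2 := by
        rw [← Finset.mul_sum, Finset.sum_comm]
    _ ≤ (s.card : ℝ)⁻¹ * ∑ i ∈ s, B ^ 2 * nn (op (E i) F) :=
        mul_le_mul_of_nonneg_left (Finset.sum_le_sum fun i hi => h i hi (op (E i) F) j hj)
          (inv_nonneg.2 hc0)
    _ = (s.card : ℝ)⁻¹ * (B ^ 2 * ∑ i ∈ s, nn (op (E i) F)) := by
        rw [Finset.mul_sum s _ (B ^ 2)]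
    _ ≤ (s.card : ℝ)⁻¹ * (B ^ 2 * ((k * s.card) * nn F)) :=
        mul_le_mul_of_nonneg_left (mul_le_mul_of_nonneg_left h4 (sq_nonneg _)) (inv_nonneg.2 hc0)
    _ = ((s.card : ℝ)⁻¹ * s.card) * (k * B ^ 2 * nn F) := by ring
    _ ≤ 1 * (k * B ^ 2 * nn F) := mul_le_mul_of_nonneg_right inv_mul_le_one
        (mul_nonneg (mul_nonneg hk (sq_nonneg _)) (nn_nonneg _))
    _ = (Real.sqrt k * B) ^ 2 * nn F := by
        rw [mul_pow, Real.sq_sqrt hk]
        ring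

end Pool.Agent.Lib.Pf720mp
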