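import Pool.Agent.Lib.Pf720mp.KkB
import Pool.Agent.Lib.Pf720mp.MxH

/-!
# Freezing small parameters: definitions

`V = L ∪ W`, `L` the frozen (small) parameters, `W` the large ones. `SS W K` is the statement proved
by induction.
-/

set_option autoImplicit false
set_option linter.unusedSectionVars false

open Finset Filter Topology

namespace Pool.Agent.Lib.Pf720mp

variable {ι : Type} [Fintype ι] [DecidableEq ι]

/-- the exponential sums are close to the main terms, in the sense of maximal functions -/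
def SS (D : ℕ) (V : Finset ι) (K : ι → ℕ) : Prop :=
  ∃ (C₀ : ℕ) (C ρ : ℝ), 0 ≤ C ∧ 0 < ρ ∧ ρ < 1 ∧ ∀ (N : ℕ) [NeZero N] (t : ℕ), 1 ≤ t →
    MxLe {j : ι → ℕ | ∀ l ∈ V, C₀ * t ≤ j l}
      (fun j (a : Ex ι D → ZMod N) => AA (res V (Mj K j)) (fq a) -
        KK V t (res V (Mj K j)) (fq a)) (C * ρ ^ t)

variable {D : ℕ}

/-- exponents involving one of the large parameters -/
def G1 (L W : Finset ι) : Finset (Ex ι D) := (GV (L ∪ W)).filter fun γ => ∃ l ∈ W, γ l ≠ 0

/-- partial main terms: the average over the frozen variables of the main terms -/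
noncomputable def mm (L W : Finset ι) (K : ι → ℕ) (T₀ : ℕ) (j : ι → ℕ) (θ : Ex ι D → ℝ) : ℂ :=
  (∏ l, (res L (Mj K j) l : ℂ))⁻¹ *
    ∑ μ ∈ bx (res L (Mj K j)), KK W T₀ (res W (Mj K j)) (psi L μ θ)

/-- scales of the large parameters -/
def tauW (W : Finset ι) (j : ι → ℕ) (γ : Ex ι D) : ℕ := ∑ l ∈ W, j l * (γ l : ℕ)

/-- cutoff of all the exponents in `G1` -/
noncomputable def XP (L W : Finset ι) (T₁ : ℕ) (j : ι → ℕ) (θ : Ex ι D → ℝ) : ℂ :=
  ∏ γ ∈ (G1 L W : Finset (Ex ι D)), XX T₁ (tauW W j γ - T₁) (θ γ)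

/-- index set: the parameters in `L` are frozen, those in `W` are large -/
def Sp (L W : Finset ι) (p : ι → ℕ) (N : ℕ) : Set (ι → ℕ) :=
  {j | (∀ l ∈ L, j l = p l) ∧ ∀ l ∈ W, N ≤ j l}

end Pool.Agent.Lib.Pf720mp
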