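import Pool.Agent.Lib.Pf720mp.MajB
import Pool.Agent.Lib.Pf720mp.Rat

/-!
# Properties of the main terms `KK`

`rep_unique`: for `γ ∈ GV V`, `|b γ - b' γ| ≤ 2 * 2 ^ (t+1) / mon M γ ≤ 2 ^ (-2t-2) < 4 ^ (-t)` and
both have denominator `≤ 2 ^ t` (`rat_sep`, `den_le_of_mul_int`); outside `GV V` both vanish.
`KK_lip` (`hM`: separation). Write `u γ = mon M γ (θ γ - b γ)`. If `b` represents `θ` and `θ'`:
`KB` is a product of `ee (θ 0)` (Lipschitz `2 π`), `HH` (`HH_lip`), and the `tz (u γ / 2 ^ t)`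
(Lipschitz `1`, values in `[0,1]`), so the difference is
`≤ 2 π |θ 0 - θ' 0| + (2 π + 1) ∑ mon M γ |θ γ - θ' γ|`. If `b` represents `θ` but not `θ'`: some
`γ ∈ GV V` has `|u' γ| > 2 ^ (t+1)` (`u' γ = mon M γ (θ' γ - b γ)`), and
`‖KB V t M θ b‖ ≤ tz (u γ / 2 ^ t) ≤ 2 - |u γ| / 2 ^ t ≤ |u γ - u' γ| / 2 ^ t`. So
`‖KK V t M θ‖ ≤ ∑ mon M γ |θ γ - θ' γ|` in that case, and symmetrically; if neither the same `b`
represents both, the difference is `≤ 2 ∑`.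
-/

set_option autoImplicit false
set_option linter.unusedSectionVars false

open Finset Filter Topology
open Pool.Agent.Lib.Pf720ae.Poly (ee ee_zero ee_add norm_ee ee_int ee_add_int norm_ee_sub_le)

namespace Pool.Agent.Lib.Pf720mp

variable {ι : Type} [Fintype ι] [DecidableEq ι] {D : ℕ}

theorem tz_nonneg (x : ℝ) : 0 ≤ tz x := le_max_left _ _

theorem tz_le_one (x : ℝ) : tz x ≤ 1 := max_le zero_le_one (min_le_left _ _)

theorem tz_eq_one {x : ℝ} (h : |x| ≤ 1) : tz x = 1 := by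
  unfold tz
  rw [min_eq_left (by linarith), max_eq_right zero_le_one]

theorem tz_lip (x y : ℝ) : |tz x - tz y| ≤ |x - y| := by
  have h := abs_abs_sub_abs_le_abs_sub x y
  refine le_trans ?_ h
  unfold tz
  generalize |x| = a
  generalize |y| = b
  rw [abs_le]
  have h1 := neg_abs_le (a - b)
  have h2 := le_abs_self (a - b)
  have h3 := abs_nonneg (a - b)
  simp only [max_def, min_def]
  constructor <;> split_ifs <;> linarith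

theorem rep_unique {V : Finset ι} {t : ℕ} {M : ι → ℕ} {θ : Ex ι D → ℝ} {b b' : Ex ι D → ℚ}
    (h : Rep V t M θ b) (h' : Rep V t M θ b')
    (hM : ∀ γ ∈ (GV V : Finset (Ex ι D)), 2 ^ (3 * t + 4) ≤ mon M γ) : b = b' := by
  obtain ⟨h1, ⟨q, hq0, hq1, hq2⟩, h3⟩ := h
  obtain ⟨h1', ⟨q', hq0', hq1', hq2'⟩, h3'⟩ := h'
  funext γ
  by_cases hγ : γ ∈ (GV V : Finset (Ex ι D))
  · by_contra hne
    obtain ⟨n, hn⟩ := hq2 γ
    obtain ⟨n', hn'⟩ := hq2' γ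
    have hd : ((b γ).den : ℝ) ≤ 2 ^ t := by
      have := (den_le_of_mul_int hq0 hn).trans hq1
      exact_mod_cast this
    have hd' : ((b' γ).den : ℝ) ≤ 2 ^ t := by
      have := (den_le_of_mul_int hq0' hn').trans hq1'
      exact_mod_cast this
    have hsep := rat_sep hne hd hd'
    have ha := h3 γ hγ
    have hb := h3' γ hγ
    have hm : (2 : ℝ) ^ (3 * t + 4) ≤ (mon M γ : ℝ) := by exact_mod_cast hM γ hγ
    have hmpos : (0 : ℝ) < (mon M γ : ℝ) := lt_of_lt_of_le (by positivity) hm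
    have hc : (mon M γ : ℝ) * |(b γ : ℝ) - b' γ| ≤ 2 * 2 ^ (t + 1) := by
      have e1 : (mon M γ : ℝ) * |(b γ : ℝ) - b' γ| =
          |(mon M γ : ℝ) * (θ γ - b' γ) - (mon M γ : ℝ) * (θ γ - b γ)| := by
        rw [← mul_sub, abs_mul, abs_of_pos hmpos]
        congr 2
        ring
      rw [e1]
      refine (abs_sub _ _).trans ?_
      linarith
    have hd2 : (mon M γ : ℝ) * (1 / (2 ^ t * 2 ^ t)) ≤ 2 * 2 ^ (t + 1) :=
      (mul_le_mul_of_nonneg_left hsep hmpos.le).trans hc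
    have he : (2 : ℝ) ^ (3 * t + 4) * (1 / (2 ^ t * 2 ^ t)) ≤ 2 * 2 ^ (t + 1) :=
      (mul_le_mul_of_nonneg_right hm (by positivity)).trans hd2
    have hp : (0 : ℝ) < 2 ^ t := by positivity
    have e2 : (2 : ℝ) ^ (3 * t + 4) * (1 / (2 ^ t * 2 ^ t)) = 16 * 2 ^ t := by
      have : (2 : ℝ) ^ (3 * t + 4) = 16 * (2 ^ t * 2 ^ t * 2 ^ t) := by ring
      rw [this]
      field_simp
    rw [e2, pow_succ] at he
    linarith
  · rw [h1 γ hγ, h1' γ hγ]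

theorem KK_of_rep {V : Finset ι} {t : ℕ} {M : ι → ℕ} {θ : Ex ι D → ℝ} {b : Ex ι D → ℚ}
    (h : Rep V t M θ b) (hM : ∀ γ ∈ (GV V : Finset (Ex ι D)), 2 ^ (3 * t + 4) ≤ mon M γ) :
    KK V t M θ = KB V t M θ b := by
  have hex : ∃ b, Rep V t M θ b := ⟨b, h⟩
  unfold KK
  rw [dif_pos hex, rep_unique hex.choose_spec h hM]

theorem KK_of_not {V : Finset ι} {t : ℕ} {M : ι → ℕ} {θ : Ex ι D → ℝ} (h : ¬ ∃ b, Rep V t M θ b) :
    KK V t M θ = 0 := by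
  unfold KK
  rw [dif_neg h]

private lemma tzc_norm (x : ℝ) : ‖((tz x : ℝ) : ℂ)‖ = tz x := by
  rw [Complex.norm_real, Real.norm_of_nonneg (tz_nonneg x)]

private lemma norm_prodtz_le (s : Finset (Ex ι D)) (f : Ex ι D → ℝ) :
    ‖∏ γ ∈ s, ((tz (f γ) : ℝ) : ℂ)‖ ≤ 1 := by
  rw [norm_prod]
  refine Finset.prod_le_one (fun _ _ => norm_nonneg _) fun γ _ => ?_
  rw [tzc_norm]
  exact tz_le_one _

theorem norm_KB_le (V : Finset ι) (t : ℕ) (M : ι → ℕ) (θ : Ex ι D → ℝ) (b : Ex ι D → ℚ) :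
    ‖KB V t M θ b‖ ≤ 1 := by
  unfold KB
  rw [norm_mul, norm_mul, norm_ee, one_mul]
  exact mul_le_one₀ (norm_HH_le _ _ _) (norm_nonneg _) (norm_prodtz_le _ _)

theorem norm_KK_le (V : Finset ι) (t : ℕ) (M : ι → ℕ) (θ : Ex ι D → ℝ) : ‖KK V t M θ‖ ≤ 1 := by
  unfold KK
  split_ifs
  · exact norm_KB_le _ _ _ _ _
  · rw [norm_zero]; exact zero_le_one

private lemma prodtz_lip (s : Finset (Ex ι D)) (f g : Ex ι D → ℝ) :
    ‖∏ γ ∈ s, ((tz (f γ) : ℝ) : ℂ) - ∏ γ ∈ s, ((tz (g γ) : ℝ) : ℂ)‖ ≤ ∑ γ ∈ s, |f γ - g γ| := by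
  classical
  induction s using Finset.induction_on with
  | empty => simp
  | insert a s ha ih =>
    rw [Finset.prod_insert ha, Finset.prod_insert ha, Finset.sum_insert ha]
    set P := ∏ γ ∈ s, ((tz (f γ) : ℝ) : ℂ)
    set Q := ∏ γ ∈ s, ((tz (g γ) : ℝ) : ℂ)
    have hP : ‖P‖ ≤ 1 := norm_prodtz_le _ _
    have e : ((tz (f a) : ℝ) : ℂ) * P - ((tz (g a) : ℝ) : ℂ) * Q =
        (((tz (f a) : ℝ) : ℂ) - ((tz (g a) : ℝ) : ℂ)) * P + ((tz (g a) : ℝ) : ℂ) * (P - Q) := by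
      ring
    rw [e]
    refine (norm_add_le _ _).trans (add_le_add ?_ ?_)
    · rw [norm_mul, ← Complex.ofReal_sub, Complex.norm_real, Real.norm_eq_abs]
      calc |tz (f a) - tz (g a)| * ‖P‖ ≤ |tz (f a) - tz (g a)| * 1 :=
            mul_le_mul_of_nonneg_left hP (abs_nonneg _)
        _ ≤ |f a - g a| := by rw [mul_one]; exact tz_lip _ _
    · rw [norm_mul, tzc_norm]
      calc tz (g a) * ‖P - Q‖ ≤ 1 * ‖P - Q‖ :=
            mul_le_mul_of_nonneg_right (tz_le_one _) (norm_nonneg _)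
        _ ≤ _ := by rw [one_mul]; exact ih

private lemma div_two_pow_le (t : ℕ) (x : ℝ) : |x / 2 ^ t| ≤ |x| := by
  rw [abs_div, abs_of_pos (by positivity : (0 : ℝ) < 2 ^ t)]
  exact div_le_self (abs_nonneg _) (one_le_pow₀ one_le_two)

private lemma KB_lip (V : Finset ι) (t : ℕ) (M : ι → ℕ) (b : Ex ι D → ℚ) (θ θ' : Ex ι D → ℝ) :
    ‖KB V t M θ b - KB V t M θ' b‖ ≤ 2 * Real.pi * |θ 0 - θ' 0| + (2 * Real.pi + 1) *
      ∑ γ ∈ (GV V : Finset (Ex ι D)), (mon M γ : ℝ) * |θ γ - θ' γ| := by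
  unfold KB
  set e₁ := ee (θ 0)
  set e₂ := ee (θ' 0)
  set H₁ := HH V b (fun γ => (mon M γ : ℝ) * (θ γ - b γ))
  set H₂ := HH V b (fun γ => (mon M γ : ℝ) * (θ' γ - b γ))
  set P₁ := ∏ γ ∈ (GV V : Finset (Ex ι D)), ((tz ((mon M γ : ℝ) * (θ γ - b γ) / 2 ^ t) : ℝ) : ℂ)
  set P₂ := ∏ γ ∈ (GV V : Finset (Ex ι D)), ((tz ((mon M γ : ℝ) * (θ' γ - b γ) / 2 ^ t) : ℝ) : ℂ)
  have he : ‖e₁ - e₂‖ ≤ 2 * Real.pi * |θ 0 - θ' 0| := norm_ee_sub_le _ _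
  have hdiff : ∀ γ : Ex ι D, |(mon M γ : ℝ) * (θ γ - b γ) - (mon M γ : ℝ) * (θ' γ - b γ)| =
      (mon M γ : ℝ) * |θ γ - θ' γ| := by
    intro γ
    rw [← mul_sub, abs_mul, Nat.abs_cast]
    congr 2
    ring
  have hH : ‖H₁ - H₂‖ ≤ 2 * Real.pi *
      ∑ γ ∈ (GV V : Finset (Ex ι D)), (mon M γ : ℝ) * |θ γ - θ' γ| := by
    refine (HH_lip V b _ _).trans (le_of_eq ?_)
    congr 1
    exact Finset.sum_congr rfl fun γ _ => hdiff γ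
  have hP : ‖P₁ - P₂‖ ≤ ∑ γ ∈ (GV V : Finset (Ex ι D)), (mon M γ : ℝ) * |θ γ - θ' γ| := by
    refine (prodtz_lip _ _ _).trans (Finset.sum_le_sum fun γ _ => ?_)
    rw [← sub_div, ← hdiff γ]
    exact div_two_pow_le _ _
  have n1 : ‖e₁‖ = 1 := norm_ee _
  have n2 : ‖e₂‖ = 1 := norm_ee _
  have n3 : ‖H₁‖ ≤ 1 := norm_HH_le _ _ _
  have n4 : ‖H₂‖ ≤ 1 := norm_HH_le _ _ _
  have n5 : ‖P₁‖ ≤ 1 := norm_prodtz_le _ _
  have e : e₁ * H₁ * P₁ - e₂ * H₂ * P₂ =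
      (e₁ - e₂) * (H₁ * P₁) + (e₂ * ((H₁ - H₂) * P₁) + e₂ * (H₂ * (P₁ - P₂))) := by ring
  rw [e]
  have a1 : ‖(e₁ - e₂) * (H₁ * P₁)‖ ≤ 2 * Real.pi * |θ 0 - θ' 0| := by
    rw [norm_mul, norm_mul]
    calc ‖e₁ - e₂‖ * (‖H₁‖ * ‖P₁‖) ≤ ‖e₁ - e₂‖ * 1 :=
          mul_le_mul_of_nonneg_left (mul_le_one₀ n3 (norm_nonneg _) n5) (norm_nonneg _)
      _ ≤ _ := by rw [mul_one]; exact he
  have a2 : ‖e₂ * ((H₁ - H₂) * P₁)‖ ≤ 2 * Real.pi *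
      ∑ γ ∈ (GV V : Finset (Ex ι D)), (mon M γ : ℝ) * |θ γ - θ' γ| := by
    rw [norm_mul, norm_mul, n2, one_mul]
    calc ‖H₁ - H₂‖ * ‖P₁‖ ≤ ‖H₁ - H₂‖ * 1 := mul_le_mul_of_nonneg_left n5 (norm_nonneg _)
      _ ≤ _ := by rw [mul_one]; exact hH
  have a3 : ‖e₂ * (H₂ * (P₁ - P₂))‖ ≤
      ∑ γ ∈ (GV V : Finset (Ex ι D)), (mon M γ : ℝ) * |θ γ - θ' γ| := by
    rw [norm_mul, norm_mul, n2, one_mul]
    calc ‖H₂‖ * ‖P₁ - P₂‖ ≤ 1 * ‖P₁ - P₂‖ := mul_le_mul_of_nonneg_right n4 (norm_nonneg _)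
      _ ≤ _ := by rw [one_mul]; exact hP
  refine (norm_add_le _ _).trans ((add_le_add a1 ((norm_add_le _ _).trans
    (add_le_add a2 a3))).trans (le_of_eq (by ring)))

private lemma KB_small {V : Finset ι} {t : ℕ} {M : ι → ℕ} {b : Ex ι D → ℚ} {θ θ' : Ex ι D → ℝ}
    (h : Rep V t M θ b) (h' : ¬ Rep V t M θ' b) :
    ‖KB V t M θ b‖ ≤ ∑ γ ∈ (GV V : Finset (Ex ι D)), (mon M γ : ℝ) * |θ γ - θ' γ| := by
  obtain ⟨h1, h2, h3⟩ := h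
  have h4 : ∃ γ ∈ (GV V : Finset (Ex ι D)), 2 ^ (t + 1) < |(mon M γ : ℝ) * (θ' γ - b γ)| := by
    by_contra hc
    push Not at hc
    exact h' ⟨h1, h2, hc⟩
  obtain ⟨γ, hγ, h5⟩ := h4
  have hp : (0 : ℝ) < 2 ^ t := by positivity
  have h6 : tz ((mon M γ : ℝ) * (θ γ - b γ) / 2 ^ t) ≤ (mon M γ : ℝ) * |θ γ - θ' γ| := by
    have e1 : (mon M γ : ℝ) * |θ γ - θ' γ| =
        |(mon M γ : ℝ) * (θ' γ - b γ) - (mon M γ : ℝ) * (θ γ - b γ)| := by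
      rw [← mul_sub, abs_mul, Nat.abs_cast, ← abs_neg]
      congr 2
      ring
    rw [e1]
    set u := (mon M γ : ℝ) * (θ γ - b γ)
    set u' := (mon M γ : ℝ) * (θ' γ - b γ)
    refine max_le (abs_nonneg _) ((min_le_right _ _).trans ?_)
    refine le_trans ?_ (div_two_pow_le t (u' - u))
    rw [abs_div, abs_div, abs_of_pos hp]
    have h7 : |u'| - |u| ≤ |u' - u| := abs_sub_abs_le_abs_sub _ _
    have h8 : 2 * 2 ^ t < |u'| := by rw [pow_succ] at h5; linarith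
    rw [sub_le_iff_le_add, ← add_div, le_div_iff₀ hp]
    linarith
  have h7 : ‖KB V t M θ b‖ ≤ tz ((mon M γ : ℝ) * (θ γ - b γ) / 2 ^ t) := by
    unfold KB
    rw [norm_mul, norm_mul, norm_ee, one_mul]
    calc ‖HH V b fun γ => (mon M γ : ℝ) * (θ γ - b γ)‖ *
          ‖∏ γ ∈ (GV V : Finset (Ex ι D)), ((tz ((mon M γ : ℝ) * (θ γ - b γ) / 2 ^ t) : ℝ) : ℂ)‖
          ≤ 1 * ‖∏ γ ∈ (GV V : Finset (Ex ι D)),
            ((tz ((mon M γ : ℝ) * (θ γ - b γ) / 2 ^ t) : ℝ) : ℂ)‖ :=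
          mul_le_mul_of_nonneg_right (norm_HH_le _ _ _) (norm_nonneg _)
      _ ≤ _ := by
          rw [one_mul, ← Finset.mul_prod_erase _ _ hγ, norm_mul, tzc_norm]
          calc tz ((mon M γ : ℝ) * (θ γ - b γ) / 2 ^ t) * _ ≤
                tz ((mon M γ : ℝ) * (θ γ - b γ) / 2 ^ t) * 1 :=
                mul_le_mul_of_nonneg_left (norm_prodtz_le _ _) (tz_nonneg _)
            _ = _ := mul_one _
  refine (h7.trans h6).trans ?_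
  exact Finset.single_le_sum (f := fun γ => (mon M γ : ℝ) * |θ γ - θ' γ|)
    (fun γ _ => by positivity) hγ

theorem KK_lip {V : Finset ι} {t : ℕ} {M : ι → ℕ}
    (hM : ∀ γ ∈ (GV V : Finset (Ex ι D)), 2 ^ (3 * t + 4) ≤ mon M γ) (θ θ' : Ex ι D → ℝ) :
    ‖KK V t M θ - KK V t M θ'‖ ≤
      8 * (|θ 0 - θ' 0| + ∑ γ ∈ (GV V : Finset (Ex ι D)), (mon M γ : ℝ) * |θ γ - θ' γ|) := by
  have hS0 : 0 ≤ ∑ γ ∈ (GV V : Finset (Ex ι D)), (mon M γ : ℝ) * |θ γ - θ' γ| :=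
    Finset.sum_nonneg fun _ _ => by positivity
  have hsymm : ∑ γ ∈ (GV V : Finset (Ex ι D)), (mon M γ : ℝ) * |θ' γ - θ γ| =
      ∑ γ ∈ (GV V : Finset (Ex ι D)), (mon M γ : ℝ) * |θ γ - θ' γ| :=
    Finset.sum_congr rfl fun γ _ => by rw [abs_sub_comm]
  have ha0 : 0 ≤ |θ 0 - θ' 0| := abs_nonneg _
  have hpi := Real.pi_lt_d2
  have key : ∀ θ₁ θ₂ : Ex ι D → ℝ, (¬ ∃ b, Rep V t M θ₁ b ∧ Rep V t M θ₂ b) →
      ‖KK V t M θ₁‖ ≤ ∑ γ ∈ (GV V : Finset (Ex ι D)), (mon M γ : ℝ) * |θ₁ γ - θ₂ γ| := by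
    intro θ₁ θ₂ hn
    by_cases h : ∃ b, Rep V t M θ₁ b
    · obtain ⟨b, hb⟩ := h
      rw [KK_of_rep hb hM]
      exact KB_small hb fun hb' => hn ⟨b, hb, hb'⟩
    · rw [KK_of_not h, norm_zero]
      exact Finset.sum_nonneg fun _ _ => by positivity
  by_cases h : ∃ b, Rep V t M θ b ∧ Rep V t M θ' b
  · obtain ⟨b, hb, hb'⟩ := h
    rw [KK_of_rep hb hM, KK_of_rep hb' hM]
    refine (KB_lip V t M b θ θ').trans ?_
    rw [mul_add]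
    refine add_le_add (mul_le_mul_of_nonneg_right (by linarith) ha0)
      (mul_le_mul_of_nonneg_right (by linarith) hS0)
  · have h1 := key θ θ' h
    have h2 := key θ' θ (fun ⟨b, hb, hb'⟩ => h ⟨b, hb', hb⟩)
    rw [hsymm] at h2
    refine (norm_sub_le _ _).trans ?_
    linarith

end Pool.Agent.Lib.Pf720mp
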