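import Pool.Agent.Lib.Pf720mp.CoreB

/-!
# Structured families of functions of real frequencies

`Str Γ₁ T S τ Λ m`: the function `m j` only depends on `θ_γ` (`γ ∉ Γ₁`), on the rationals `β_γ`
of height `2 ^ T` near `θ_γ` and on `u_γ = 2 ^ τ_γ(j) (θ_γ - β_γ)` (`γ ∈ Γ₁`), `|u_γ| ≤ 2 ^ T`.

Proof of `struct_max` (apply `core` with `U = Γ₁`, `W = ∅`). If `S = ∅` there is no choice function.
Fix `j₀ ∈ S`. For `a : I → ZMod L`, `u : I → ℝ` let `𝔉 a u = m j₀ θ*` if `|u γ| ≤ 2 ^ T` for all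
`γ ∈ Γ₁`, where `θ* γ = nr T (fq a γ) + u γ / 2 ^ τ j₀ γ` for `γ ∈ Γ₁` and `θ* γ = fq a γ` otherwise;
`𝔉 a u = 0` if some `|u γ| > 2 ^ T`. The hypotheses of `core`: bounded by `A`; support by
definition; Lipschitz: if `|u γ| ≤ 1`, by `Str.lip` at `θ*`, `β = nr T (fq a γ)` (`nr_den`):
`≤ Λ |u γ| ≤ A 4 ^ T |u γ|`; if `|u γ| > 1` trivially `2 A ≤ A 4 ^ T |u γ|`.
For `j ∈ S` and every `a`, `m j (fq a)` equals the expression in `core` with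
`τ = τ j`: if `Near T (fq a γ)` for all `γ ∈ Γ₁` put `u γ = 2 ^ τ j γ (fq a γ - nr T (fq a γ))`; if
all `|u γ| ≤ 2 ^ T` use `Str.inv` with `j' = j₀`, `θ' = θ*`, `β = nr T (fq a γ)`; if some
`|u γ| > 2 ^ T` then `m j (fq a) = 0` by `Str.supp`: a rational `β` of height `2 ^ T` with
`|2 ^ τ (θ - β)| ≤ 2 ^ T` satisfies `|θ - β| ≤ 2 ^ (T - τ) ≤ 2 ^ (-5 T) < 2 ^ (-2 T - 1)`, so it is
`nr T θ` (`nr_eq`). If some `fq a γ` is not `Near T`, then `m j (fq a) = 0` by the same remark.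
So the family is the reindexation `j ↦ τ j` of the family of `core` (`mx_reindex`, `mx_congr`).
-/

set_option autoImplicit false
set_option linter.unusedSectionVars false

open Finset

namespace Pool.Agent.Lib.Pf720mp

variable {I : Type} [Fintype I] [DecidableEq I] {J : Type}

structure Str (Γ₁ : Finset I) (T : ℕ) (S : Set J) (τ : J → I → ℕ) (Λ : ℝ)
    (m : J → (I → ℝ) → ℂ) : Prop where
  inv : ∀ j ∈ S, ∀ j' ∈ S, ∀ θ θ' : I → ℝ, (∀ γ, γ ∉ Γ₁ → θ γ = θ' γ) →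
    (∀ γ ∈ Γ₁, ∃ β : ℚ, β.den ≤ 2 ^ T ∧
      (2 : ℝ) ^ τ j γ * (θ γ - β) = (2 : ℝ) ^ τ j' γ * (θ' γ - β) ∧
      |(2 : ℝ) ^ τ j γ * (θ γ - β)| ≤ 2 ^ T) → m j θ = m j' θ'
  supp : ∀ j ∈ S, ∀ θ : I → ℝ, m j θ ≠ 0 → ∀ γ ∈ Γ₁, ∃ β : ℚ, β.den ≤ 2 ^ T ∧
    |(2 : ℝ) ^ τ j γ * (θ γ - β)| ≤ 2 ^ T
  lip : ∀ j ∈ S, ∀ θ : I → ℝ, ∀ γ ∈ Γ₁, ∀ β : ℚ, β.den ≤ 2 ^ T →
    |(2 : ℝ) ^ τ j γ * (θ γ - β)| ≤ 1 →
    ‖m j θ - m j (Function.update θ γ (β : ℝ))‖ ≤ Λ * |(2 : ℝ) ^ τ j γ * (θ γ - β)|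

theorem Str.sub {Γ₁ : Finset I} {T : ℕ} {S : Set J} {τ : J → I → ℕ} {Λ Λ' : ℝ}
    {m m' : J → (I → ℝ) → ℂ} (h : Str Γ₁ T S τ Λ m) (h' : Str Γ₁ T S τ Λ' m') :
    Str Γ₁ T S τ (Λ + Λ') (fun j θ => m j θ - m' j θ) := by
  refine ⟨?_, ?_, ?_⟩
  · intro j hj j' hj' θ θ' h1 h2
    beta_reduce
    rw [h.inv j hj j' hj' θ θ' h1 h2, h'.inv j hj j' hj' θ θ' h1 h2]
  · intro j hj θ hne γ hγ
    by_cases h0 : m j θ = 0
    · have h1 : m' j θ ≠ 0 := by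
        intro h1
        apply hne
        simp only [h0, h1, sub_zero]
      exact h'.supp j hj θ h1 γ hγ
    · exact h.supp j hj θ h0 γ hγ
  · intro j hj θ γ hγ β hβ hle
    have e1 := h.lip j hj θ γ hγ β hβ hle
    have e2 := h'.lip j hj θ γ hγ β hβ hle
    beta_reduce
    calc ‖m j θ - m' j θ - (m j (Function.update θ γ (β : ℝ)) - m' j (Function.update θ γ (β : ℝ)))‖
        = ‖(m j θ - m j (Function.update θ γ (β : ℝ))) -
            (m' j θ - m' j (Function.update θ γ (β : ℝ)))‖ := by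
          congr 1
          ring
      _ ≤ ‖m j θ - m j (Function.update θ γ (β : ℝ))‖ +
            ‖m' j θ - m' j (Function.update θ γ (β : ℝ))‖ := norm_sub_le _ _
      _ ≤ Λ * |(2 : ℝ) ^ τ j γ * (θ γ - β)| + Λ' * |(2 : ℝ) ^ τ j γ * (θ γ - β)| :=
          add_le_add e1 e2
      _ = (Λ + Λ') * |(2 : ℝ) ^ τ j γ * (θ γ - β)| := by ring

theorem Str.subset {Γ₁ : Finset I} {T : ℕ} {S S' : Set J} {τ : J → I → ℕ} {Λ : ℝ}
    {m : J → (I → ℝ) → ℂ} (h : Str Γ₁ T S τ Λ m) (hS : S' ⊆ S) : Str Γ₁ T S' τ Λ m := by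
  refine ⟨?_, ?_, ?_⟩
  · intro j hj j' hj'
    exact h.inv j (hS hj) j' (hS hj')
  · intro j hj
    exact h.supp j (hS hj)
  · intro j hj
    exact h.lip j (hS hj)

namespace StrAux

open Classical in
/-- the frequency with the rational parts of `a` and the rescaled parts `u` -/
noncomputable def ts (Γ₁ : Finset I) (T : ℕ) (τ₀ : I → ℕ) {L : ℕ} (a : I → ZMod L)
    (u : I → ℝ) : I → ℝ :=
  fun γ => if γ ∈ Γ₁ then (nr T (fq a γ) : ℝ) + u γ / 2 ^ τ₀ γ else fq a γ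

theorem ts_mem {Γ₁ : Finset I} {T : ℕ} {τ₀ : I → ℕ} {L : ℕ} {a : I → ZMod L}
    {u : I → ℝ} {γ : I} (h : γ ∈ Γ₁) :
    ts Γ₁ T τ₀ a u γ = (nr T (fq a γ) : ℝ) + u γ / 2 ^ τ₀ γ := by
  unfold ts
  rw [if_pos h]

theorem ts_not_mem {Γ₁ : Finset I} {T : ℕ} {τ₀ : I → ℕ} {L : ℕ} {a : I → ZMod L}
    {u : I → ℝ} {γ : I} (h : γ ∉ Γ₁) : ts Γ₁ T τ₀ a u γ = fq a γ := by
  unfold ts
  rw [if_neg h]

theorem ts_scale {Γ₁ : Finset I} {T : ℕ} {τ₀ : I → ℕ} {L : ℕ} {a : I → ZMod L}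
    {u : I → ℝ} {γ : I} (h : γ ∈ Γ₁) :
    (2 : ℝ) ^ τ₀ γ * (ts Γ₁ T τ₀ a u γ - nr T (fq a γ)) = u γ := by
  rw [ts_mem h]
  field_simp
  ring

theorem ts_update {Γ₁ : Finset I} {T : ℕ} {τ₀ : I → ℕ} {L : ℕ} {a : I → ZMod L}
    {u : I → ℝ} {γ : I} (h : γ ∈ Γ₁) :
    ts Γ₁ T τ₀ a (Function.update u γ 0) =
      Function.update (ts Γ₁ T τ₀ a u) γ ((nr T (fq a γ) : ℚ) : ℝ) := by
  funext δ
  by_cases hδ : δ = γ
  · subst hδ
    rw [Function.update_self, ts_mem h, Function.update_self]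
    simp
  · rw [Function.update_of_ne hδ]
    by_cases hm : δ ∈ Γ₁
    · rw [ts_mem hm, ts_mem hm, Function.update_of_ne hδ]
    · rw [ts_not_mem hm, ts_not_mem hm]

theorem near_of {T τ : ℕ} (hT : 1 ≤ T) (hτ : 6 * T ≤ τ) {x : ℝ} {β : ℚ}
    (h : |(2 : ℝ) ^ τ * (x - β)| ≤ 2 ^ T) : |x - β| < (1 / 2) ^ (2 * T + 1) := by
  rw [abs_mul, abs_of_pos (show (0 : ℝ) < 2 ^ τ by positivity)] at h
  have h2 : (2 : ℝ) ^ (6 * T) * |x - β| ≤ 2 ^ T :=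
    le_trans (mul_le_mul_of_nonneg_right (pow_le_pow_right₀ (by norm_num) hτ)
      (abs_nonneg _)) h
  have e1 : (2 : ℝ) ^ (6 * T) = 2 ^ T * 2 ^ (5 * T) := by
    rw [← pow_add]
    congr 1
    ring
  rw [e1, mul_assoc] at h2
  have h3 : (2 : ℝ) ^ (5 * T) * |x - β| ≤ 1 := by
    have hp : (0 : ℝ) < 2 ^ T := by positivity
    by_contra hc
    push Not at hc
    have := mul_lt_mul_of_pos_left hc hp
    rw [mul_one] at this
    linarith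
  have h4 : (2 : ℝ) ^ (2 * T + 1) < 2 ^ (5 * T) :=
    pow_lt_pow_right₀ (by norm_num) (by omega)
  have h5 : |x - β| ≤ 1 / 2 ^ (5 * T) := by
    rw [le_div_iff₀ (by positivity), mul_comm]
    exact h3
  refine lt_of_le_of_lt h5 ?_
  rw [one_div_pow]
  exact one_div_lt_one_div_of_lt (by positivity) h4

end StrAux

theorem struct_max (Γ₁ : Finset I) : ∃ C : ℝ, 0 ≤ C ∧ ∀ (L : ℕ) [NeZero L] (T : ℕ), 1 ≤ T →
    ∀ (A Λ : ℝ), 0 ≤ A → Λ ≤ A * 2 ^ (2 * T) → ∀ (J : Type) (S : Set J) (τ : J → I → ℕ)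
      (m : J → (I → ℝ) → ℂ), (∀ j ∈ S, ∀ γ ∈ Γ₁, 6 * T ≤ τ j γ) → Str Γ₁ T S τ Λ m →
      (∀ j ∈ S, ∀ θ, ‖m j θ‖ ≤ A) →
      MxLe S (fun j (a : I → ZMod L) => m j (fq a)) (C * (T : ℝ) ^ Γ₁.card * A) := by
  classical
  obtain ⟨C, hC, hcore⟩ := core Γ₁ ∅ (disjoint_empty_right _)
  simp only [union_empty] at hcore
  refine ⟨C, hC, ?_⟩
  intro L _ T hT A Λ hA hΛ J S τ m hτ hs hm
  rcases S.eq_empty_or_nonempty with hS | ⟨j₀, hj₀⟩
  · intro F j hj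
    exact absurd (hj 0) (by simp [hS])
  set 𝔉 : (I → ZMod L) → (I → ℝ) → ℂ := fun a u =>
    if ∀ γ ∈ Γ₁, |u γ| ≤ 2 ^ T then m j₀ (StrAux.ts Γ₁ T (τ j₀) a u) else 0 with h𝔉
  have hbd : ∀ a u, ‖𝔉 a u‖ ≤ A := by
    intro a u
    simp only [h𝔉]
    split_ifs
    · exact hm j₀ hj₀ _
    · simpa using hA
  have h2T : (1 : ℝ) ≤ 2 ^ T := one_le_pow₀ (by norm_num)
  have h4T : (4 : ℝ) ≤ 2 ^ (2 * T) := by
    calc (4 : ℝ) = 2 ^ 2 := by norm_num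
      _ ≤ 2 ^ (2 * T) := pow_le_pow_right₀ (by norm_num) (by omega)
  have hmain := hcore L T hT A hA 𝔉 hbd ?_ ?_ ?_ ?_
  · have hre := mx_reindex (S' := S) hmain τ (fun j hj γ hγ => hτ j hj γ hγ)
    refine mx_congr hre ?_
    intro j hj a
    beta_reduce
    by_cases hN : ∀ γ ∈ Γ₁, Near T (fq a γ)
    · rw [if_pos hN]
      by_cases hu : ∀ γ ∈ Γ₁, |(2 : ℝ) ^ τ j γ * (fq a γ - nr T (fq a γ))| ≤ 2 ^ T
      · simp only [h𝔉]
        rw [if_pos hu]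
        refine hs.inv j hj j₀ hj₀ _ _ ?_ ?_
        · intro γ hγ
          rw [StrAux.ts_not_mem hγ]
        · intro γ hγ
          refine ⟨nr T (fq a γ), nr_den _ _, ?_, hu γ hγ⟩
          rw [StrAux.ts_scale hγ]
      · simp only [h𝔉]
        rw [if_neg hu]
        by_contra hne
        apply hu
        intro γ hγ
        obtain ⟨β, hβ, hle⟩ := hs.supp j hj (fq a) hne γ hγ
        have hnr := nr_eq hβ (StrAux.near_of hT (hτ j hj γ hγ) hle)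
        rw [hnr]
        exact hle
    · rw [if_neg hN]
      by_contra hne
      apply hN
      intro γ hγ
      obtain ⟨β, hβ, hle⟩ := hs.supp j hj (fq a) hne γ hγ
      exact ⟨β, hβ, StrAux.near_of hT (hτ j hj γ hγ) hle⟩
  · intro a u γ hγ hlt
    simp only [h𝔉]
    rw [if_neg]
    intro h
    exact absurd (h γ hγ) (not_le.mpr hlt)
  · intro a u u' huu
    simp only [h𝔉]
    have e1 : (∀ γ ∈ Γ₁, |u γ| ≤ (2 : ℝ) ^ T) ↔ ∀ γ ∈ Γ₁, |u' γ| ≤ (2 : ℝ) ^ T :=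
      ⟨fun h γ hγ => by rw [← huu γ hγ]; exact h γ hγ,
        fun h γ hγ => by rw [huu γ hγ]; exact h γ hγ⟩
    have e2 : StrAux.ts Γ₁ T (τ j₀) a u = StrAux.ts Γ₁ T (τ j₀) a u' := by
      funext γ
      by_cases hγ : γ ∈ Γ₁
      · rw [StrAux.ts_mem hγ, StrAux.ts_mem hγ, huu γ hγ]
      · rw [StrAux.ts_not_mem hγ, StrAux.ts_not_mem hγ]
    by_cases hc : ∀ γ ∈ Γ₁, |u γ| ≤ (2 : ℝ) ^ T
    · rw [if_pos hc, if_pos (e1.mp hc), e2]
    · rw [if_neg hc, if_neg (fun h => hc (e1.mpr h))]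
  · intro a u γ hγ
    by_cases h1 : |u γ| ≤ 1
    · by_cases hc : ∀ δ ∈ Γ₁, |u δ| ≤ (2 : ℝ) ^ T
      · have hc' : ∀ δ ∈ Γ₁, |Function.update u γ 0 δ| ≤ (2 : ℝ) ^ T := by
          intro δ hδ
          by_cases hd : δ = γ
          · subst hd
            rw [Function.update_self, abs_zero]
            positivity
          · rw [Function.update_of_ne hd]
            exact hc δ hδ
        simp only [h𝔉]
        rw [if_pos hc, if_pos hc', StrAux.ts_update hγ]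
        have e3 := hs.lip j₀ hj₀ (StrAux.ts Γ₁ T (τ j₀) a u) γ hγ (nr T (fq a γ)) (nr_den _ _)
          (by rw [StrAux.ts_scale hγ]; exact h1)
        rw [StrAux.ts_scale hγ] at e3
        exact le_trans e3 (mul_le_mul_of_nonneg_right hΛ (abs_nonneg _))
      · have hc' : ¬ ∀ δ ∈ Γ₁, |Function.update u γ 0 δ| ≤ (2 : ℝ) ^ T := by
          intro h
          apply hc
          intro δ hδ
          by_cases hd : δ = γ
          · subst hd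
            exact le_trans h1 h2T
          · have := h δ hδ
            rw [Function.update_of_ne hd] at this
            exact this
        simp only [h𝔉]
        rw [if_neg hc, if_neg hc', sub_zero, norm_zero]
        positivity
    · push Not at h1
      have e4 : ‖𝔉 a u - 𝔉 a (Function.update u γ 0)‖ ≤ A + A :=
        le_trans (norm_sub_le _ _) (add_le_add (hbd _ _) (hbd _ _))
      refine le_trans e4 ?_
      have e5 : A * 4 ≤ A * 2 ^ (2 * T) := mul_le_mul_of_nonneg_left h4T hA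
      have e6 : A * 2 ^ (2 * T) * 1 ≤ A * 2 ^ (2 * T) * |u γ| :=
        mul_le_mul_of_nonneg_left h1.le (by positivity)
      linarith
  · intro a u γ hγ
    exact absurd hγ (by simp)

end Pool.Agent.Lib.Pf720mp
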