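import Pool.Agent.Lib.Pf720mp.App
import Pool.Agent.Lib.Pf720mp.Str
import Pool.Agent.Lib.Pf720mp.Abs

/-!
# Maximal bounds for the main terms

Scales: `τV j γ = ∑ l, j l * γ l`. For `γ ∈ GV V`,
`mon (res V (Mj K j)) γ = mon (res V K) γ * 2 ^ τV j γ` (`mon_res`, `γ l = 0` outside `V`), and
`τV j γ ≥ min_V j`.

`KK_str`: let `c` be such that `8 * mon (res V K) γ ≤ 2 ^ c` for all `γ`. Let `t + c + 1 ≤ T`, `1 ≤ T`.
`Str.inv`: `KK_inv` with the given `β`: with `x = 2 ^ τ (θ γ - β)`, `|θ γ - β| ≤ 2 ^ (T - 6 T) ≤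
2 ^ (-t-T-2)`, same for `θ'`, `mon ≥ 2 ^ (6T) ≥ 2 ^ (2t+T+3)`, and
`mon M γ (θ γ - β) = mon (res V K) γ * x`. `Str.supp`: if `KK ≠ 0`, some `b` represents `θ`:
`|mon (res V K) γ 2 ^ τ (θ γ - b γ)| ≤ 2 ^ (t+1)`, `mon (res V K) γ ≥ 1`, `den ≤ 2 ^ t ≤ 2 ^ T`.
`Str.lip`: `KK_lip` (only the coordinate `γ ∈ GV V` changes, `γ ≠ 0`):
`≤ 8 mon (res V K) γ |2 ^ τ (θ γ - β)| ≤ 2 ^ c |…|`. (The separation hypothesis:
`6 T ≥ 6 (t + 1) ≥ 3 t + 4`.)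
`KK_mx`: `struct_max (GV V)` with `A = 1`, `Λ = 2 ^ c`, `T = t + c + 1`; `C₁ = 6 (c + 1)`.
`KK_diff_mx`: `Str.sub` of `KK_str` at levels `t` and `t - 1`, `Λ = 2 ^ (c+1)`; amplitude: by `AppP` for
`t` and `t - 1`, `‖KK V t - KK V (t-1)‖ ≤ 2 C ρ ^ (t-1) ≤ A := 4 C' ρ ^ t`, `C' = max C 1`, valid for all
real `θ` as soon as `2 ^ (C₀ t) ≤ Mj K j l` on `V`; and `Λ ≤ A 4 ^ T` if `T = c' t` with `c'` large
(`ρ ≥ 1/2`). Then `T ^ card * ρ ^ t ≤ C'' ρ' ^ t` for `ρ' = (1 + ρ) / 2`, say.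
Polynomial factors: `absorb` (file Abs.lean, proved).
-/

set_option autoImplicit false
set_option linter.unusedSectionVars false

open Finset Filter Topology

namespace Pool.Agent.Lib.Pf720mp

variable {ι : Type} [Fintype ι] [DecidableEq ι] {D : ℕ}

def tau (j : ι → ℕ) (γ : Ex ι D) : ℕ := ∑ l, j l * (γ l : ℕ)

theorem mon_res_Mj (V : Finset ι) (K j : ι → ℕ) {γ : Ex ι D}
    (hγ : γ ∈ (GV V : Finset (Ex ι D))) :
    mon (res V (Mj K j)) γ = mon (res V K) γ * 2 ^ tau j γ := by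
  rw [mon_res, mon_res, tau]
  have h1 : ∑ l, j l * (γ l : ℕ) = ∑ l ∈ V, j l * (γ l : ℕ) := by
    symm
    refine Finset.sum_subset (Finset.subset_univ V) fun l _ hl => ?_
    rw [(mem_GV.1 hγ).2 l hl]
    simp
  rw [h1, ← Finset.prod_pow_eq_pow_sum, ← Finset.prod_mul_distrib]
  refine Finset.prod_congr rfl fun l _ => ?_
  rw [Mj, mul_pow, ← pow_mul]

theorem le_tau (V : Finset ι) {j : ι → ℕ} {N : ℕ} (hj : ∀ l ∈ V, N ≤ j l) {γ : Ex ι D}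
    (hγ : γ ∈ (GV V : Finset (Ex ι D))) : N ≤ tau j γ := by
  obtain ⟨h0, h1⟩ := mem_GV.1 hγ
  obtain ⟨l, hl⟩ : ∃ l, γ l ≠ 0 := by
    by_contra h
    push Not at h
    exact h0 (funext h)
  have hlV : l ∈ V := by
    by_contra h
    exact hl (h1 l h)
  have h2 : 1 ≤ (γ l : ℕ) := by
    rw [Nat.one_le_iff_ne_zero]
    intro h
    exact hl (Fin.ext h)
  calc N ≤ j l := hj l hlV
    _ = j l * 1 := (mul_one _).symm
    _ ≤ j l * (γ l : ℕ) := Nat.mul_le_mul_left _ h2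
    _ ≤ tau j γ := Finset.single_le_sum (f := fun l => j l * (γ l : ℕ))
        (fun _ _ => Nat.zero_le _) (Finset.mem_univ l)

theorem KkB_den_le {t : ℕ} {b : Ex ι D → ℚ} (h : HasDen t b) (γ : Ex ι D) : (b γ).den ≤ 2 ^ t := by
  obtain ⟨q, hq, hqt, hb⟩ := h
  obtain ⟨n, hn⟩ := hb γ
  exact (den_le_of_mul_int hq hn).trans hqt

/-- separation -/
theorem KkB_sep (V : Finset ι) (K : ι → ℕ) (hK : ∀ l, 0 < K l) {T : ℕ} {j : ι → ℕ}
    (hj : ∀ l ∈ V, 6 * T ≤ j l) {N : ℕ} (hN : N ≤ 6 * T) {γ : Ex ι D}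
    (hγ : γ ∈ (GV V : Finset (Ex ι D))) : 2 ^ N ≤ mon (res V (Mj K j)) γ := by
  rw [mon_res_Mj V K j hγ]
  have h1 : 0 < mon (res V K) γ := mon_pos (fun l => res_pos (fun l _ => hK l) l) γ
  calc 2 ^ N ≤ 2 ^ tau j γ := Nat.pow_le_pow_right (by norm_num) (hN.trans (le_tau V hj hγ))
    _ = 1 * 2 ^ tau j γ := (one_mul _).symm
    _ ≤ _ := Nat.mul_le_mul_right _ h1

theorem KkB_close {T τ N : ℕ} {x : ℝ} (hτ : 6 * T ≤ τ) (hN : N ≤ 5 * T)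
    (h : |(2 : ℝ) ^ τ * x| ≤ 2 ^ T) : |x| ≤ (1 / 2) ^ N := by
  rw [abs_mul, abs_of_pos (by positivity : (0 : ℝ) < 2 ^ τ)] at h
  have h1 : (2 : ℝ) ^ (6 * T) * |x| ≤ 2 ^ T :=
    (mul_le_mul_of_nonneg_right (pow_le_pow_right₀ (by norm_num) hτ) (abs_nonneg _)).trans h
  have h2 : (2 : ℝ) ^ (6 * T) = 2 ^ (5 * T) * 2 ^ T := by rw [← pow_add]; congr 1; ring
  rw [h2] at h1
  have h3 : (0 : ℝ) < 2 ^ T := by positivity
  have h4 : (2 : ℝ) ^ (5 * T) * |x| ≤ 1 := by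
    by_contra hc
    push Not at hc
    nlinarith
  have h5 : (2 : ℝ) ^ N * |x| ≤ 1 :=
    (mul_le_mul_of_nonneg_right (pow_le_pow_right₀ (by norm_num) hN) (abs_nonneg _)).trans h4
  have h6 : (0 : ℝ) < 2 ^ N := by positivity
  rw [one_div, inv_pow, ← one_div, le_div_iff₀ h6, mul_comm]
  exact h5

theorem KK_str (V : Finset ι) (K : ι → ℕ) (hK : ∀ l, 0 < K l) : ∃ c : ℕ, ∀ t T : ℕ,
    t + c + 1 ≤ T → Str (GV V : Finset (Ex ι D)) T {j : ι → ℕ | ∀ l ∈ V, 6 * T ≤ j l} tau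
      ((2 : ℝ) ^ c) (fun j => KK V t (res V (Mj K j))) := by
  obtain ⟨c, hc⟩ : ∃ c : ℕ, ∀ γ : Ex ι D, 8 * mon (res V K) γ ≤ 2 ^ c := by
    refine ⟨∑ γ : Ex ι D, 8 * mon (res V K) γ, fun γ => ?_⟩
    refine le_trans ?_ (Nat.lt_two_pow_self).le
    exact Finset.single_le_sum (f := fun γ : Ex ι D => 8 * mon (res V K) γ)
      (fun _ _ => Nat.zero_le _) (Finset.mem_univ γ)
  have hK0 : ∀ γ : Ex ι D, 0 < mon (res V K) γ :=
    fun γ => mon_pos (fun l => res_pos (fun l _ => hK l) l) γ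
  refine ⟨c, fun t T hT => ⟨?_, ?_, ?_⟩⟩
  · intro j hj j' hj' θ θ' hout hin
    have hj1 : ∀ l ∈ V, 6 * T ≤ j l := hj
    have hj2 : ∀ l ∈ V, 6 * T ≤ j' l := hj'
    refine KK_inv (T := T) (hout 0 (zero_notMem_GV V)) fun γ hγ => Or.inr ?_
    obtain ⟨β, hβ, he, hle⟩ := hin γ hγ
    refine ⟨β, hβ, ?_, ?_, ?_, ?_, ?_⟩
    · rw [mon_res_Mj V K j hγ, mon_res_Mj V K j' hγ]
      push_cast
      rw [mul_assoc, he, mul_assoc]
    · exact KkB_close (le_tau V hj1 hγ) (by omega) hle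
    · rw [he] at hle
      exact KkB_close (le_tau V hj2 hγ) (by omega) hle
    · exact KkB_sep V K hK hj1 (by omega) hγ
    · exact KkB_sep V K hK hj2 (by omega) hγ
  · intro j hj θ hne γ hγ
    have hrep : ∃ b, Rep V t (res V (Mj K j)) θ b := by
      by_contra h
      exact hne (KK_of_not h)
    obtain ⟨b, hb0, hbd, hbn⟩ := hrep
    refine ⟨b γ, (KkB_den_le hbd γ).trans (Nat.pow_le_pow_right (by norm_num) (by omega)), ?_⟩
    have h1 := hbn γ hγ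
    rw [mon_res_Mj V K j hγ] at h1
    push_cast at h1
    rw [mul_assoc, abs_mul, Nat.abs_cast] at h1
    have h2 : (1 : ℝ) ≤ mon (res V K) γ := by exact_mod_cast hK0 γ
    have h3 : |(2 : ℝ) ^ tau j γ * (θ γ - b γ)| ≤ 2 ^ (t + 1) := by
      refine le_trans ?_ h1
      exact le_mul_of_one_le_left (abs_nonneg _) h2
    exact h3.trans (pow_le_pow_right₀ (by norm_num) (by omega))
  · intro j hj θ γ hγ β hβ hle
    have hj1 : ∀ l ∈ V, 6 * T ≤ j l := hj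
    have hne : γ ≠ 0 := (mem_GV.1 hγ).1
    refine (KK_lip (fun γ' hγ' => KkB_sep V K hK hj1 (by omega) hγ') _ _).trans ?_
    rw [Function.update_of_ne hne.symm, sub_self, abs_zero, zero_add,
      Finset.sum_eq_single_of_mem γ hγ (fun γ' _ hne' => by
        rw [Function.update_of_ne hne', sub_self, abs_zero, mul_zero]),
      Function.update_self, mon_res_Mj V K j hγ]
    push_cast
    rw [abs_mul, abs_of_pos (by positivity : (0 : ℝ) < 2 ^ tau j γ), mul_assoc, ← mul_assoc]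
    refine mul_le_mul_of_nonneg_right ?_ (by positivity)
    exact_mod_cast hc γ

theorem KK_mx (V : Finset ι) (K : ι → ℕ) (hK : ∀ l, 0 < K l) : ∃ (C₁ : ℕ) (C : ℝ), 0 ≤ C ∧
    ∀ (L : ℕ) [NeZero L] (t : ℕ), MxLe {j : ι → ℕ | ∀ l ∈ V, C₁ * (t + 1) ≤ j l}
      (fun j (a : Ex ι D → ZMod L) => KK V t (res V (Mj K j)) (fq a))
      (C * ((t : ℝ) + 1) ^ (GV V : Finset (Ex ι D)).card) := by
  obtain ⟨c, hc⟩ := KK_str (D := D) V K hK
  obtain ⟨C, hC, hmax⟩ := struct_max (GV V : Finset (Ex ι D))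
  refine ⟨6 * (c + 1), C * ((c : ℝ) + 1) ^ (GV V : Finset (Ex ι D)).card, by positivity, ?_⟩
  intro L _ t
  have hT : 1 ≤ t + c + 1 := by omega
  have h1 := hmax L (t + c + 1) hT 1 (2 ^ c) zero_le_one
    (by rw [one_mul]; exact pow_le_pow_right₀ (by norm_num) (by omega)) (ι → ℕ)
    {j : ι → ℕ | ∀ l ∈ V, 6 * (t + c + 1) ≤ j l} tau (fun j => KK V t (res V (Mj K j)))
    (fun j hj γ hγ => le_tau V hj hγ) (hc t (t + c + 1) le_rfl) (fun j _ θ => norm_KK_le _ _ _ _)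
  have h2 := mx_subset (S' := {j : ι → ℕ | ∀ l ∈ V, 6 * (c + 1) * (t + 1) ≤ j l}) h1
    (fun j hj l hl => le_trans (by nlinarith [Nat.zero_le (c * t)]) (hj l hl))
  refine mx_mono h2 (by positivity) ?_
  rw [mul_one, mul_assoc, ← mul_pow]
  refine mul_le_mul_of_nonneg_left (pow_le_pow_left₀ (by positivity) ?_ _) hC
  push_cast
  nlinarith [mul_nonneg (Nat.cast_nonneg (α := ℝ) c) (Nat.cast_nonneg (α := ℝ) t)]

theorem KK_diff_mx (V : Finset ι) (K : ι → ℕ) (hK : ∀ l, 0 < K l) : ∃ (C₁ : ℕ) (C ρ : ℝ),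
    0 ≤ C ∧ 0 < ρ ∧ ρ < 1 ∧ ∀ (L : ℕ) [NeZero L] (t : ℕ), 1 ≤ t →
      MxLe {j : ι → ℕ | ∀ l ∈ V, C₁ * t ≤ j l}
      (fun j (a : Ex ι D → ZMod L) => KK V t (res V (Mj K j)) (fq a) -
        KK V (t - 1) (res V (Mj K j)) (fq a)) (C * ρ ^ t) := by
  obtain ⟨c, hc⟩ := KK_str (D := D) V K hK
  obtain ⟨Cs, hCs, hmax⟩ := struct_max (GV V : Finset (Ex ι D))
  obtain ⟨C₀, Ca, ρ, _, hCa, hρ, hρ1, happ⟩ := app D V
  have hρ0 : 0 < ρ := by linarith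
  set C' : ℝ := max Ca 1 with hC'
  have hC'1 : 1 ≤ C' := le_max_right _ _
  have hC'a : Ca ≤ C' := le_max_left _ _
  obtain ⟨C'', ρ', hC'', _, hρ', hρ'1, habs⟩ := absorb (GV V : Finset (Ex ι D)).card
    (C := Cs * (4 * C')) (ρ := ρ) (c := (c : ℝ) + 1) (by positivity) hρ0 hρ1 (by positivity)
  refine ⟨6 * (c + 2) + C₀, C'', ρ', hC'', by linarith, hρ'1, ?_⟩
  intro L _ t ht
  have hS1 : {j : ι → ℕ | ∀ l ∈ V, (6 * (c + 2) + C₀) * t ≤ j l} ⊆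
      {j : ι → ℕ | ∀ l ∈ V, 6 * (t + c + 1) ≤ j l} := by
    intro j hj l hl
    refine le_trans ?_ (hj l hl)
    have h1 : c * 1 ≤ c * t := Nat.mul_le_mul_left c ht
    nlinarith [Nat.zero_le (C₀ * t)]
  have hstr : Str (GV V : Finset (Ex ι D)) (t + c + 1)
      {j : ι → ℕ | ∀ l ∈ V, (6 * (c + 2) + C₀) * t ≤ j l} tau ((2 : ℝ) ^ c + 2 ^ c)
      (fun j θ => KK V t (res V (Mj K j)) θ - KK V (t - 1) (res V (Mj K j)) θ) :=
    ((hc t (t + c + 1) le_rfl).sub (hc (t - 1) (t + c + 1) (by omega))).subset hS1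
  have hpow : (1 : ℝ) ≤ ρ ^ t * 2 ^ t := by
    rw [← mul_pow]
    exact one_le_pow₀ (by linarith)
  have hρt : 0 < ρ ^ t := by positivity
  have hΛ : (2 : ℝ) ^ c + 2 ^ c ≤ 4 * C' * ρ ^ t * 2 ^ (2 * (t + c + 1)) := by
    have e1 : (2 : ℝ) ^ (2 * (t + c + 1)) = 2 ^ t * 2 ^ c * 2 ^ (t + c + 2) := by
      rw [← pow_add, ← pow_add]
      congr 1
      ring
    have e2 : (1 : ℝ) ≤ 2 ^ (t + c + 2) := one_le_pow₀ (by norm_num)
    have e3 : (0 : ℝ) < 2 ^ c := by positivity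
    rw [e1]
    calc (2 : ℝ) ^ c + 2 ^ c ≤ 4 * 1 * 1 * 2 ^ c * 1 := by linarith
      _ ≤ 4 * C' * (ρ ^ t * 2 ^ t) * 2 ^ c * 2 ^ (t + c + 2) := by gcongr
      _ = _ := by ring
  have hA : ∀ j ∈ {j : ι → ℕ | ∀ l ∈ V, (6 * (c + 2) + C₀) * t ≤ j l}, ∀ θ : Ex ι D → ℝ,
      ‖KK V t (res V (Mj K j)) θ - KK V (t - 1) (res V (Mj K j)) θ‖ ≤ 4 * C' * ρ ^ t := by
    intro j hj θ
    have hM : ∀ l ∈ V, 2 ^ (C₀ * t) ≤ Mj K j l := by
      intro l hl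
      have h1 : C₀ * t ≤ j l := le_trans (by nlinarith [Nat.zero_le (6 * (c + 2) * t)]) (hj l hl)
      calc 2 ^ (C₀ * t) ≤ 2 ^ j l := Nat.pow_le_pow_right (by norm_num) h1
        _ = 1 * 2 ^ j l := (one_mul _).symm
        _ ≤ Mj K j l := Nat.mul_le_mul_right _ (hK l)
    have hM' : ∀ l ∈ V, 2 ^ (C₀ * (t - 1)) ≤ Mj K j l := fun l hl =>
      le_trans (Nat.pow_le_pow_right (by norm_num) (Nat.mul_le_mul_left _ (Nat.sub_le t 1)))
        (hM l hl)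
    have h1 := happ t (Mj K j) hM θ
    have h2 := happ (t - 1) (Mj K j) hM' θ
    have h3 : ρ ^ (t - 1) ≤ 2 * ρ ^ t := by
      obtain ⟨s, rfl⟩ : ∃ s, t = s + 1 := ⟨t - 1, by omega⟩
      rw [Nat.add_sub_cancel, pow_succ]
      have : 0 < ρ ^ s := by positivity
      nlinarith
    have h4 : KK V t (res V (Mj K j)) θ - KK V (t - 1) (res V (Mj K j)) θ =
        (AA (res V (Mj K j)) θ - KK V (t - 1) (res V (Mj K j)) θ) -
          (AA (res V (Mj K j)) θ - KK V t (res V (Mj K j)) θ) := by ring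
    rw [h4]
    refine (norm_sub_le _ _).trans ?_
    have h5 : Ca * ρ ^ t ≤ C' * ρ ^ t := mul_le_mul_of_nonneg_right hC'a hρt.le
    have h6 : Ca * ρ ^ (t - 1) ≤ C' * (2 * ρ ^ t) :=
      mul_le_mul hC'a h3 (by positivity) (by positivity)
    nlinarith [mul_pos (by linarith : 0 < C') hρt]
  have h1 := hmax L (t + c + 1) (by omega) (4 * C' * ρ ^ t) (2 ^ c + 2 ^ c) (by positivity) hΛ
    (ι → ℕ) _ tau _ (fun j hj γ hγ => le_tau V (hS1 hj) hγ) hstr hA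
  refine mx_mono h1 (by positivity) ?_
  refine le_trans (le_of_eq ?_) ((mul_le_mul_of_nonneg_right (mul_le_mul_of_nonneg_left
    (pow_le_pow_left₀ (by positivity : (0 : ℝ) ≤ ((t + c + 1 : ℕ) : ℝ)) ?_ _)
      (by positivity : (0 : ℝ) ≤ Cs * (4 * C'))) hρt.le).trans (habs t))
  · ring
  · push_cast
    have h1 : (1 : ℝ) ≤ t := by exact_mod_cast ht
    nlinarith [mul_nonneg (Nat.cast_nonneg (α := ℝ) c) (by linarith : (0 : ℝ) ≤ (t : ℝ) - 1)]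

end Pool.Agent.Lib.Pf720mp
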