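import Pool.Agent.Lib.Pf720mp.KkA

/-!
# Invariance of the main terms `KK`

`KK_inv`: the set of the representing `b` is the same for `(M, θ)` and `(M', θ')`: let `b` represent
`(M, θ)`. For `γ ∈ GV V` of the first kind nothing changes. For the second kind,
`|θ γ - b γ| ≤ 2 ^ (t+1) / mon M γ ≤ 2 ^ (-t-T-2)` and `|θ γ - β| ≤ 2 ^ (-t-T-2)`, so
`|b γ - β| < 2 ^ (-t-T)`, hence `b γ = β` (`rat_sep`), and
`mon M' γ (θ' γ - b γ) = mon M γ (θ γ - b γ)`. The same argument works in the other direction. With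
the same `b` (`rep_unique` is not needed: `Rep V t M θ = Rep V t M' θ'` as predicates, so the chosen
`b` is the same), `KB` has the same value (`HH_congr`).
`KK_add_int`: `Rep V t M θ b ↔ Rep V t M (θ + n) (b + n 1_{GV V})`; use `KK_of_rep`, `HH_add_int`,
`ee_add_int`.
-/

set_option autoImplicit false
set_option linter.unusedSectionVars false

open Finset Filter Topology
open Pool.Agent.Lib.Pf720ae.Poly (ee ee_zero ee_add norm_ee ee_int ee_add_int norm_ee_sub_le)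

namespace Pool.Agent.Lib.Pf720mp

variable {ι : Type} [Fintype ι] [DecidableEq ι] {D : ℕ}

namespace KkIAux

lemma choose_congr {α : Type} {p p' : α → Prop} (h : p = p') (e : ∃ b, p b) (e' : ∃ b, p' b) :
    e.choose = e'.choose := by
  subst h
  rfl

/-- the two phases have the same normalised coefficients at a representing point -/
lemma key {V : Finset ι} {t T : ℕ} {M M' : ι → ℕ} {θ θ' : Ex ι D → ℝ}
    (h : ∀ γ ∈ (GV V : Finset (Ex ι D)), (mon M γ = mon M' γ ∧ θ γ = θ' γ) ∨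
      ∃ β : ℚ, β.den ≤ 2 ^ T ∧ (mon M γ : ℝ) * (θ γ - β) = (mon M' γ : ℝ) * (θ' γ - β) ∧
        |θ γ - β| ≤ (1 / 2) ^ (t + T + 2) ∧ 2 ^ (2 * t + T + 3) ≤ mon M γ)
    {b : Ex ι D → ℚ} (hb : Rep V t M θ b) :
    ∀ γ ∈ (GV V : Finset (Ex ι D)),
      (mon M γ : ℝ) * (θ γ - b γ) = (mon M' γ : ℝ) * (θ' γ - b γ) := by
  intro γ hγ
  rcases h γ hγ with ⟨h1, h2⟩ | ⟨β, h1, h2, h3, h4⟩
  · rw [h1, h2]
  · have hbβ : b γ = β := by
      by_contra hne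
      obtain ⟨q, hq, hq2, hqb⟩ := hb.2.1
      obtain ⟨n, hn⟩ := hqb γ
      have hden : ((b γ).den : ℝ) ≤ 2 ^ t := by
        have := (den_le_of_mul_int hq hn).trans hq2
        exact_mod_cast this
      have hden' : (β.den : ℝ) ≤ 2 ^ T := by exact_mod_cast h1
      have h5 := rat_sep hne hden hden'
      have h6 := hb.2.2 γ hγ
      have hm : (2 : ℝ) ^ (2 * t + T + 3) ≤ mon M γ := by exact_mod_cast h4
      have hm0 : (0 : ℝ) < mon M γ := lt_of_lt_of_le (by positivity) hm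
      have h7 : |θ γ - b γ| ≤ (1 / 2) ^ (t + T + 2) := by
        rw [abs_mul, abs_of_pos hm0] at h6
        have h8 : (2 : ℝ) ^ (2 * t + T + 3) * |θ γ - b γ| ≤ 2 ^ (t + 1) :=
          (mul_le_mul_of_nonneg_right hm (abs_nonneg _)).trans h6
        have h9 : (2 : ℝ) ^ (2 * t + T + 3) = 2 ^ (t + 1) * 2 ^ (t + T + 2) := by
          rw [← pow_add]; congr 1; ring
        rw [h9, mul_assoc] at h8
        have h10 : (2 : ℝ) ^ (t + T + 2) * |θ γ - b γ| ≤ 1 := by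
          have hp : (0 : ℝ) < 2 ^ (t + 1) := by positivity
          nlinarith
        rw [one_div, inv_pow, ← one_div, le_div_iff₀ (by positivity), mul_comm]
        exact h10
      have h8 : |(b γ : ℝ) - β| ≤ (1 / 2) ^ (t + T + 2) + (1 / 2) ^ (t + T + 2) := by
        have e : (b γ : ℝ) - β = (θ γ - β) - (θ γ - b γ) := by ring
        rw [e]
        exact (abs_sub _ _).trans (add_le_add h3 h7)
      have h9 : (1 : ℝ) / (2 ^ t * 2 ^ T) = 4 * (1 / 2) ^ (t + T + 2) := by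
        rw [pow_add, pow_add, one_div, one_div, mul_inv, inv_pow, inv_pow]
        norm_num
        ring
      rw [h9] at h5
      have h10 : (0 : ℝ) < (1 / 2) ^ (t + T + 2) := by positivity
      linarith
    rw [hbβ]
    exact h2

lemma rep_of {V : Finset ι} {t : ℕ} {M M' : ι → ℕ} {θ θ' : Ex ι D → ℝ} {b : Ex ι D → ℚ}
    (hb : Rep V t M θ b) (hk : ∀ γ ∈ (GV V : Finset (Ex ι D)),
      (mon M γ : ℝ) * (θ γ - b γ) = (mon M' γ : ℝ) * (θ' γ - b γ)) : Rep V t M' θ' b :=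
  ⟨hb.1, hb.2.1, fun γ hγ => by rw [← hk γ hγ]; exact hb.2.2 γ hγ⟩

lemma KB_of {V : Finset ι} {t : ℕ} {M M' : ι → ℕ} {θ θ' : Ex ι D → ℝ} {b : Ex ι D → ℚ}
    (h0 : θ 0 = θ' 0) (hk : ∀ γ ∈ (GV V : Finset (Ex ι D)),
      (mon M γ : ℝ) * (θ γ - b γ) = (mon M' γ : ℝ) * (θ' γ - b γ)) :
    KB V t M θ b = KB V t M' θ' b := by
  unfold KB
  rw [h0, HH_congr V (fun _ _ => rfl) hk]
  congr 1
  exact Finset.prod_congr rfl fun γ hγ => by rw [hk γ hγ]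

lemma rep_add {V : Finset ι} {t : ℕ} {M : ι → ℕ} {θ : Ex ι D → ℝ} {b : Ex ι D → ℚ}
    (hb : Rep V t M θ b) (n : Ex ι D → ℤ) :
    Rep V t M (fun γ => θ γ + n γ)
      (fun γ => b γ + if γ ∈ (GV V : Finset (Ex ι D)) then (n γ : ℚ) else 0) := by
  refine ⟨fun γ hγ => ?_, ?_, fun γ hγ => ?_⟩
  · beta_reduce
    rw [if_neg hγ, hb.1 γ hγ, add_zero]
  · obtain ⟨q, hq, hq2, hqb⟩ := hb.2.1
    refine ⟨q, hq, hq2, fun γ => ?_⟩
    obtain ⟨k, hk⟩ := hqb γ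
    by_cases hγ : γ ∈ (GV V : Finset (Ex ι D))
    · refine ⟨k + q * n γ, ?_⟩
      beta_reduce
      rw [if_pos hγ, mul_add, hk]
      push_cast
      ring
    · exact ⟨k, by beta_reduce; rw [if_neg hγ, add_zero, hk]⟩
  · beta_reduce
    rw [if_pos hγ]
    have h1 := hb.2.2 γ hγ
    have e : (θ γ + n γ - ((b γ + (n γ : ℚ) : ℚ) : ℝ)) = θ γ - b γ := by
      push_cast
      ring
    rw [e]
    exact h1

end KkIAux

open KkIAux

theorem KK_inv {V : Finset ι} {t T : ℕ} {M M' : ι → ℕ} {θ θ' : Ex ι D → ℝ} (h0 : θ 0 = θ' 0)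
    (h : ∀ γ ∈ (GV V : Finset (Ex ι D)), (mon M γ = mon M' γ ∧ θ γ = θ' γ) ∨
      ∃ β : ℚ, β.den ≤ 2 ^ T ∧ (mon M γ : ℝ) * (θ γ - β) = (mon M' γ : ℝ) * (θ' γ - β) ∧
        |θ γ - β| ≤ (1 / 2) ^ (t + T + 2) ∧ |θ' γ - β| ≤ (1 / 2) ^ (t + T + 2) ∧
        2 ^ (2 * t + T + 3) ≤ mon M γ ∧ 2 ^ (2 * t + T + 3) ≤ mon M' γ) :
    KK V t M θ = KK V t M' θ' := by
  have hA : ∀ γ ∈ (GV V : Finset (Ex ι D)), (mon M γ = mon M' γ ∧ θ γ = θ' γ) ∨
      ∃ β : ℚ, β.den ≤ 2 ^ T ∧ (mon M γ : ℝ) * (θ γ - β) = (mon M' γ : ℝ) * (θ' γ - β) ∧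
        |θ γ - β| ≤ (1 / 2) ^ (t + T + 2) ∧ 2 ^ (2 * t + T + 3) ≤ mon M γ := by
    intro γ hγ
    rcases h γ hγ with h1 | ⟨β, h1, h2, h3, _, h5, _⟩
    · exact Or.inl h1
    · exact Or.inr ⟨β, h1, h2, h3, h5⟩
  have hB : ∀ γ ∈ (GV V : Finset (Ex ι D)), (mon M' γ = mon M γ ∧ θ' γ = θ γ) ∨
      ∃ β : ℚ, β.den ≤ 2 ^ T ∧ (mon M' γ : ℝ) * (θ' γ - β) = (mon M γ : ℝ) * (θ γ - β) ∧
        |θ' γ - β| ≤ (1 / 2) ^ (t + T + 2) ∧ 2 ^ (2 * t + T + 3) ≤ mon M' γ := by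
    intro γ hγ
    rcases h γ hγ with ⟨h1, h2⟩ | ⟨β, h1, h2, _, h4, _, h6⟩
    · exact Or.inl ⟨h1.symm, h2.symm⟩
    · exact Or.inr ⟨β, h1, h2.symm, h4, h6⟩
  have hpred : Rep V t M θ = Rep V t M' θ' := funext fun b => propext
    ⟨fun hb => rep_of hb (key hA hb), fun hb => rep_of hb (key hB hb)⟩
  unfold KK
  by_cases hex : ∃ b, Rep V t M θ b
  · have hex' : ∃ b, Rep V t M' θ' b := by
      rw [← hpred]
      exact hex
    rw [dif_pos hex, dif_pos hex', choose_congr hpred hex hex']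
    refine KB_of h0 (key hA ?_)
    rw [hpred]
    exact hex'.choose_spec
  · have hex' : ¬ ∃ b, Rep V t M' θ' b := by
      rw [← hpred]
      exact hex
    rw [dif_neg hex, dif_neg hex']

theorem KK_add_int {V : Finset ι} {t : ℕ} {M : ι → ℕ}
    (hM : ∀ γ ∈ (GV V : Finset (Ex ι D)), 2 ^ (3 * t + 4) ≤ mon M γ) (θ : Ex ι D → ℝ)
    (n : Ex ι D → ℤ) : KK V t M (fun γ => θ γ + n γ) = KK V t M θ := by
  by_cases hex : ∃ b, Rep V t M θ b
  · obtain ⟨b, hb⟩ := hex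
    rw [KK_of_rep hb hM, KK_of_rep (rep_add hb n) hM]
    have hu : ∀ γ ∈ (GV V : Finset (Ex ι D)), (mon M γ : ℝ) * (θ γ + n γ -
        ((b γ + if γ ∈ (GV V : Finset (Ex ι D)) then (n γ : ℚ) else 0 : ℚ) : ℝ)) =
        (mon M γ : ℝ) * (θ γ - b γ) := by
      intro γ hγ
      rw [if_pos hγ]
      push_cast
      ring
    unfold KB
    rw [ee_add_int, HH_congr V (fun _ _ => rfl) hu,
      HH_add_int V (b := b) _ (fun γ hγ => ⟨n γ, by rw [if_pos hγ]⟩)]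
    congr 1
    exact Finset.prod_congr rfl fun γ hγ => by rw [hu γ hγ]
  · rw [KK_of_not hex, KK_of_not]
    rintro ⟨b, hb⟩
    refine hex ⟨fun γ => b γ + if γ ∈ (GV V : Finset (Ex ι D)) then ((-n γ : ℤ) : ℚ) else 0, ?_⟩
    have h1 := rep_add hb (fun γ => -n γ)
    have e : (fun γ => θ γ + (n γ : ℝ) + ((-n γ : ℤ) : ℝ)) = θ := by
      funext γ
      push_cast
      ring
    rw [e] at h1
    exact h1

end Pool.Agent.Lib.Pf720mp
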