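import Pool.Agent.Lib.Pf720mp.MajDefs
import Pool.Agent.Lib.Pf720ae.Avg

/-!
# Major arcs: separation of the rational part and of the real part

`WW V M u = |bx (res V M)|⁻¹ ∑_m ee (∑_{γ ∈ GV V} u_γ m ^ γ / M ^ γ)`,
`GG V q b = |bx (res V q)|⁻¹ ∑_{r ∈ bx (res V q)} ee (∑_{γ ∈ GV V} b_γ r ^ γ)`.

`sep_rat`. Write `f m = ee (∑_{GV} b_γ m^γ)` (periodic of period `q` in each variable), `φ m =
ee (∑_{GV} u_γ m^γ / M^γ)`; then `AA (res V M) (pt V b u (res V M)) = avg_{m ∈ bx (res V M)} f m φ m`.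
(i) If `N < q` the claim is trivial (`≤ 2`), so let `q ≤ N`.
(ii) For `r ∈ bx (res V q)`: `|avg_m f(m) φ(m) - avg_m f(m+r) φ(m+r)| ≤ 2 ∑_{l ∈ V} r_l / M_l ≤
2 |ι| q / N` (shift of a box, compare `Pool.Agent.Lib.Pf720ae.avg_shift`, real valued).
(iii) `|φ(m+r) - φ(m)| ≤ 2 π ∑_γ |u_γ| |(m+r)^γ - m^γ| / M^γ ≤ 2 π C' (∑ |u_γ|) q / N`, since
`m_l / M_l, (m_l + r_l)/ M_l ∈ [0, 2]` differ by at most `q / N` and the monomials of degree `≤ D` in
each variable are Lipschitz on `[0,2]^ι` (for `l ∉ V` nothing depends on `m_l`).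
(iv) Average over `r` and exchange: `avg_m φ(m) avg_r f(m + r) = GG V q b * avg_m φ m` because
`r ↦ m + r mod q` permutes the residues (sum over `ι → ZMod q` or coordinatewise).
-/

set_option autoImplicit false
set_option linter.unusedSectionVars false

open Finset
open Pool.Agent.Lib.Pf720ae.Poly (ee ee_zero ee_add norm_ee ee_int ee_add_int norm_ee_sub_le)

namespace Pool.Agent.Lib.Pf720mp

variable {ι : Type} [Fintype ι] [DecidableEq ι] {D : ℕ}

namespace MajAAux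

/-- complex box average -/
noncomputable def cav (M : ι → ℕ) (g : (ι → ℕ) → ℂ) : ℂ :=
  (∏ l, (M l : ℂ))⁻¹ * ∑ m ∈ bx M, g m

lemma cav_sub (M : ι → ℕ) (g h : (ι → ℕ) → ℂ) :
    cav M g - cav M h = cav M (fun m => g m - h m) := by
  simp only [cav, Finset.sum_sub_distrib, mul_sub]

lemma cav_congr {M : ι → ℕ} {g h : (ι → ℕ) → ℂ} (H : ∀ m ∈ bx M, g m = h m) :
    cav M g = cav M h := by
  unfold cav
  rw [Finset.sum_congr rfl H]

lemma cav_const {M : ι → ℕ} (hM : ∀ l, 0 < M l) (c : ℂ) : cav M (fun _ => c) = c := by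
  have h : (∏ l, (M l : ℂ)) ≠ 0 := Finset.prod_ne_zero_iff.2 fun l _ => by
    exact_mod_cast (hM l).ne'
  simp only [cav, Finset.sum_const, card_bx, nsmul_eq_mul]
  push_cast
  rw [← mul_assoc, inv_mul_cancel₀ h, one_mul]

lemma cav_comm (M Q : ι → ℕ) (g : (ι → ℕ) → (ι → ℕ) → ℂ) :
    cav M (fun m => cav Q (fun r => g m r)) = cav Q (fun r => cav M (fun m => g m r)) := by
  simp only [cav, ← Finset.mul_sum]
  rw [Finset.sum_comm]
  ring

lemma cav_mul_right (M : ι → ℕ) (g : (ι → ℕ) → ℂ) (c : ℂ) :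
    cav M (fun m => g m * c) = cav M g * c := by
  simp only [cav, ← Finset.sum_mul]
  ring

lemma cav_mul_left (M : ι → ℕ) (g : (ι → ℕ) → ℂ) (c : ℂ) :
    cav M (fun m => c * g m) = c * cav M g := by
  simp only [cav, ← Finset.mul_sum]
  ring

lemma norm_cav_le {M : ι → ℕ} (hM : ∀ l, 0 < M l) {g : (ι → ℕ) → ℂ} {B : ℝ}
    (hg : ∀ m ∈ bx M, ‖g m‖ ≤ B) : ‖cav M g‖ ≤ B := by
  unfold cav
  rw [norm_mul, norm_inv, norm_prod]
  have h0 : 0 < ∏ l, ‖(M l : ℂ)‖ := Finset.prod_pos fun l _ => by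
    rw [Complex.norm_natCast]; exact_mod_cast hM l
  rw [inv_mul_le_iff₀ h0]
  refine (norm_sum_le _ _).trans ((Finset.sum_le_sum hg).trans (le_of_eq ?_))
  rw [Finset.sum_const, card_bx, nsmul_eq_mul]
  simp

lemma cav_re (M : ι → ℕ) (g : (ι → ℕ) → ℂ) :
    (cav M g).re = Pool.Agent.Lib.Pf720ae.avg M (fun m => (g m).re) := by
  have h : (∏ l, (M l : ℂ))⁻¹ = (((∏ l, (M l : ℝ))⁻¹ : ℝ) : ℂ) := by push_cast; rfl
  unfold cav
  rw [h, Complex.re_ofReal_mul, Complex.re_sum]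
  rfl

lemma cav_im (M : ι → ℕ) (g : (ι → ℕ) → ℂ) :
    (cav M g).im = Pool.Agent.Lib.Pf720ae.avg M (fun m => (g m).im) := by
  have h : (∏ l, (M l : ℂ))⁻¹ = (((∏ l, (M l : ℝ))⁻¹ : ℝ) : ℂ) := by push_cast; rfl
  unfold cav
  rw [h, Complex.im_ofReal_mul, Complex.im_sum]
  rfl

/-- shift of a box -/
lemma cav_shift {M : ι → ℕ} (hM : ∀ l, 0 < M l) (h : ι → ℕ) {g : (ι → ℕ) → ℂ}
    (hg : ∀ m, ‖g m‖ ≤ 1) :
    ‖cav M (fun m => g (m + h)) - cav M g‖ ≤ 4 * ∑ l, (h l : ℝ) / M l := by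
  have h1 := Pool.Agent.Lib.Pf720ae.avg_shift M h (fun m => (g m).re) (R := 1)
    (fun m => (Complex.abs_re_le_norm _).trans (hg m)) hM
  have h2 := Pool.Agent.Lib.Pf720ae.avg_shift M h (fun m => (g m).im) (R := 1)
    (fun m => (Complex.abs_im_le_norm _).trans (hg m)) hM
  refine (Complex.norm_le_abs_re_add_abs_im _).trans ?_
  rw [Complex.sub_re, Complex.sub_im, cav_re, cav_re, cav_im, cav_im]
  refine (add_le_add h1 h2).trans (le_of_eq ?_)
  rw [← Finset.sum_add_distrib, Finset.mul_sum]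
  refine Finset.sum_congr rfl fun l _ => ?_
  ring

/-- congruent arguments give congruent monomials -/
lemma mon_modEq {V : Finset ι} {q : ℕ} {x y : ι → ℕ} (h : ∀ l ∈ V, x l ≡ y l [MOD q])
    {γ : Ex ι D} (hγ : γ ∈ (GV V : Finset (Ex ι D))) : mon x γ ≡ mon y γ [MOD q] := by
  unfold mon
  have h1 : ∀ s : Finset ι, (∏ l ∈ s, x l ^ (γ l : ℕ)) ≡ (∏ l ∈ s, y l ^ (γ l : ℕ)) [MOD q] := by
    intro s
    induction s using Finset.induction_on with
    | empty => simp; rfl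
    | insert a s ha ih =>
      rw [Finset.prod_insert ha, Finset.prod_insert ha]
      refine Nat.ModEq.mul ?_ ih
      by_cases hV : a ∈ V
      · exact (h a hV).pow _
      · have h2 := (mem_GV.1 hγ).2 a hV
        rw [h2]
        simp
        rfl
  exact h1 univ

lemma ee_congr_mod {V : Finset ι} {q : ℕ} {b : Ex ι D → ℚ}
    (hb : ∀ γ, ∃ n : ℤ, (q : ℚ) * b γ = n) {x y : ι → ℕ} (h : ∀ l ∈ V, x l ≡ y l [MOD q]) :
    ee (∑ γ ∈ (GV V : Finset (Ex ι D)), (b γ : ℝ) * (mon x γ : ℝ)) =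
    ee (∑ γ ∈ (GV V : Finset (Ex ι D)), (b γ : ℝ) * (mon y γ : ℝ)) := by
  choose n hn using hb
  have hn' : ∀ γ, (b γ : ℝ) * q = n γ := by
    intro γ
    have := congrArg (fun t : ℚ => (t : ℝ)) (hn γ)
    push_cast at this
    rw [mul_comm]; exact this
  have h1 : ∀ γ ∈ (GV V : Finset (Ex ι D)), ∃ k : ℤ,
      (mon x γ : ℝ) = mon y γ + q * k := by
    intro γ hγ
    obtain ⟨k, hk⟩ := (mon_modEq h hγ).symm.dvd
    refine ⟨k, ?_⟩
    have : ((mon x γ : ℤ) : ℝ) - (mon y γ : ℤ) = (q : ℤ) * k := by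
      exact_mod_cast hk
    push_cast at this
    linarith
  choose! k hk using h1
  have h2 : (∑ γ ∈ (GV V : Finset (Ex ι D)), (b γ : ℝ) * (mon x γ : ℝ)) =
      (∑ γ ∈ (GV V : Finset (Ex ι D)), (b γ : ℝ) * (mon y γ : ℝ)) +
        ((∑ γ ∈ (GV V : Finset (Ex ι D)), n γ * k γ : ℤ) : ℝ) := by
    push_cast
    rw [← Finset.sum_add_distrib]
    refine Finset.sum_congr rfl fun γ hγ => ?_
    rw [hk γ hγ, ← hn']
    ring
  rw [h2, ee_add_int]

lemma mod_inv {Q : ℕ} (m r : ℕ) (hr : r < Q) :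
    (m + (r + (Q - m % Q)) % Q) % Q = r := by
  have hQ : 0 < Q := by omega
  rw [Nat.add_mod_mod]
  have h1 : m % Q < Q := Nat.mod_lt _ hQ
  have h2 : m + (r + (Q - m % Q)) = r + Q * (m / Q + 1) := by
    have h3 := Nat.div_add_mod m Q
    rw [mul_add, mul_one]
    omega
  rw [h2, Nat.add_mul_mod_self_left, Nat.mod_eq_of_lt hr]

lemma mod_inv' {Q : ℕ} (m r : ℕ) (hr : r < Q) :
    ((m + r) % Q + (Q - m % Q)) % Q = r := by
  have hQ : 0 < Q := by omega
  rw [Nat.mod_add_mod]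
  have h1 : m % Q < Q := Nat.mod_lt _ hQ
  have h2 : m + r + (Q - m % Q) = r + Q * (m / Q + 1) := by
    have h3 := Nat.div_add_mod m Q
    rw [mul_add, mul_one]
    omega
  rw [h2, Nat.add_mul_mod_self_left, Nat.mod_eq_of_lt hr]

/-- complete sums are invariant under shifts -/
lemma cav_complete {V : Finset ι} {q : ℕ} (hq : 0 < q) {F : (ι → ℕ) → ℂ}
    (hF : ∀ x y : ι → ℕ, (∀ l ∈ V, x l ≡ y l [MOD q]) → F x = F y) (m : ι → ℕ) :
    cav (res V fun _ => q) (fun r => F (m + r)) = cav (res V fun _ => q) F := by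
  unfold cav
  congr 1
  have hQ : ∀ l, 0 < res V (fun _ => q) l := res_pos fun _ _ => hq
  refine Finset.sum_nbij' (fun r l => (m l + r l) % res V (fun _ => q) l)
    (fun r l => (r l + (res V (fun _ => q) l - m l % res V (fun _ => q) l)) %
      res V (fun _ => q) l) ?_ ?_ ?_ ?_ ?_
  · intro r _
    exact mem_bx.2 fun l => Nat.mod_lt _ (hQ l)
  · intro r _
    exact mem_bx.2 fun l => Nat.mod_lt _ (hQ l)
  · intro r hr
    funext l
    exact mod_inv' _ _ (mem_bx.1 hr l)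
  · intro r hr
    funext l
    exact mod_inv _ _ (mem_bx.1 hr l)
  · intro r _
    apply hF
    intro l hl
    have h1 : res V (fun _ => q) l = q := res_of_mem hl
    show m l + r l ≡ (m l + r l) % res V (fun _ => q) l [MOD q]
    rw [h1]
    exact (Nat.mod_modEq _ _).symm

/-- convexity in one parameter -/
lemma pow_conv (x t : ℝ) (hx : 0 ≤ x) (ht : 0 ≤ t) (ht1 : t ≤ 1) (k : ℕ) :
    (x + t) ^ k ≤ x ^ k + t * ((x + 1) ^ k - x ^ k) := by
  induction k with
  | zero => simp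
  | succ k ih =>
    have h1 : x ^ k ≤ (x + 1) ^ k := pow_le_pow_left₀ hx (by linarith) k
    have h2 : 0 ≤ x ^ k := pow_nonneg hx k
    have h3 : (x + t) ^ (k + 1) = (x + t) ^ k * (x + t) := pow_succ _ _
    rw [h3, pow_succ, pow_succ]
    have h4 := mul_le_mul_of_nonneg_right ih (by linarith : 0 ≤ x + t)
    refine h4.trans ?_
    have h5 : 0 ≤ t * (1 - t) * ((x + 1) ^ k - x ^ k) :=
      mul_nonneg (mul_nonneg ht (by linarith)) (by linarith)
    nlinarith

lemma prod_conv (s : Finset ι) (a b : ι → ℝ) (ha : ∀ i, 0 ≤ a i) (hb : ∀ i, 0 ≤ b i) {t : ℝ}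
    (ht : 0 ≤ t) (ht1 : t ≤ 1) :
    ∏ i ∈ s, (a i + t * b i) ≤ ∏ i ∈ s, a i + t * (∏ i ∈ s, (a i + b i) - ∏ i ∈ s, a i) := by
  induction s using Finset.induction_on with
  | empty => simp
  | insert i s hi ih =>
    rw [Finset.prod_insert hi, Finset.prod_insert hi, Finset.prod_insert hi]
    have hA0 : 0 ≤ ∏ i ∈ s, a i := Finset.prod_nonneg fun i _ => ha i
    have hA1 : ∏ i ∈ s, a i ≤ ∏ i ∈ s, (a i + b i) :=
      Finset.prod_le_prod (fun i _ => ha i) fun i _ => by linarith [hb i]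
    have h4 := mul_le_mul_of_nonneg_left ih (by
      have := mul_nonneg ht (hb i)
      linarith [ha i] : 0 ≤ a i + t * b i)
    refine h4.trans ?_
    have h5 : 0 ≤ t * (1 - t) * (b i * (∏ i ∈ s, (a i + b i) - ∏ i ∈ s, a i)) :=
      mul_nonneg (mul_nonneg ht (by linarith)) (mul_nonneg (hb i) (by linarith))
    nlinarith

/-- the monomials are Lipschitz on the box -/
lemma mon_lip {V : Finset ι} {M : ι → ℕ} {q N : ℕ} (hN : 0 < N) (hqN : q ≤ N)
    (hM : ∀ l ∈ V, N ≤ M l) {m r : ι → ℕ} (hm : m ∈ bx (res V M))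
    (hr : r ∈ bx (res V fun _ => q)) {γ : Ex ι D} (hγ : γ ∈ (GV V : Finset (Ex ι D))) :
    |((mon (m + r) γ : ℝ) - mon m γ) / mon (res V M) γ| ≤
      2 ^ (D * Fintype.card ι) * ((q : ℝ) / N) := by
  have hNr : (0 : ℝ) < N := by exact_mod_cast hN
  have hres : ∀ l, 0 < res V M l := res_pos fun l hl => lt_of_lt_of_le hN (hM l hl)
  have hresr : ∀ l, (0 : ℝ) < res V M l := fun l => by exact_mod_cast hres l
  obtain ⟨t, ht⟩ : ∃ t : ℝ, t = (q : ℝ) / N := ⟨_, rfl⟩
  have ht0 : 0 ≤ t := by rw [ht]; positivity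
  have ht1 : t ≤ 1 := by
    rw [ht, div_le_one hNr]; exact_mod_cast hqN
  rw [← ht]
  obtain ⟨x, hx⟩ : ∃ x : ι → ℝ, x = fun l => (m l : ℝ) / res V M l := ⟨_, rfl⟩
  have hx0 : ∀ l, 0 ≤ x l := fun l => by rw [hx]; positivity
  have hx1 : ∀ l, x l ≤ 1 := fun l => by
    rw [hx]
    show (m l : ℝ) / res V M l ≤ 1
    rw [div_le_one (hresr l)]
    exact_mod_cast (mem_bx.1 hm l).le
  have hmon : ∀ z : ι → ℕ, (mon z γ : ℝ) / mon (res V M) γ =
      ∏ l, ((z l : ℝ) / res V M l) ^ (γ l : ℕ) := by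
    intro z
    unfold mon
    push_cast
    rw [← Finset.prod_div_distrib]
    refine Finset.prod_congr rfl fun l _ => ?_
    rw [div_pow]
  have h1 : ((mon (m + r) γ : ℝ) - mon m γ) / mon (res V M) γ =
      (mon (m + r) γ : ℝ) / mon (res V M) γ - (mon m γ : ℝ) / mon (res V M) γ := by
    rw [sub_div]
  have h2 : (mon m γ : ℝ) / mon (res V M) γ = ∏ l, x l ^ (γ l : ℕ) := by
    rw [hmon, hx]
  have h3 : (mon m γ : ℝ) / mon (res V M) γ ≤ (mon (m + r) γ : ℝ) / mon (res V M) γ := by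
    refine div_le_div_of_nonneg_right ?_ (Nat.cast_nonneg _)
    exact_mod_cast mon_mono (fun l => Nat.le_add_right _ _) γ
  have h4 : (mon (m + r) γ : ℝ) / mon (res V M) γ ≤ ∏ l, (x l + t) ^ (γ l : ℕ) := by
    rw [hmon]
    refine Finset.prod_le_prod (fun l _ => by positivity) fun l _ => ?_
    by_cases hl : l ∈ V
    · refine pow_le_pow_left₀ (by positivity) ?_ _
      rw [hx, ht]
      show (((m + r) l : ℕ) : ℝ) / res V M l ≤ (m l : ℝ) / res V M l + (q : ℝ) / N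
      have h5 : (((m + r) l : ℕ) : ℝ) = m l + r l := by
        rw [Pi.add_apply]; push_cast; rfl
      rw [h5, add_div]
      refine add_le_add le_rfl ?_
      have h6 : (r l : ℝ) ≤ q := by
        have := mem_bx.1 hr l
        rw [res_of_mem hl] at this
        exact_mod_cast this.le
      have h7 : (N : ℝ) ≤ res V M l := by
        rw [res_of_mem hl]
        exact_mod_cast hM l hl
      exact div_le_div₀ (Nat.cast_nonneg _) h6 hNr h7
    · have h8 := (mem_GV.1 hγ).2 l hl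
      rw [h8]
      simp
  have h5 : ∏ l, (x l + t) ^ (γ l : ℕ) ≤ ∏ l, x l ^ (γ l : ℕ) +
      t * 2 ^ (D * Fintype.card ι) := by
    have h6 : ∏ l, (x l + t) ^ (γ l : ℕ) ≤
        ∏ l, (x l ^ (γ l : ℕ) + t * ((x l + 1) ^ (γ l : ℕ) - x l ^ (γ l : ℕ))) :=
      Finset.prod_le_prod (fun l _ => pow_nonneg (add_nonneg (hx0 l) ht0) _)
        fun l _ => pow_conv _ _ (hx0 l) ht0 ht1 _
    have h7 := prod_conv univ (fun l => x l ^ (γ l : ℕ))
      (fun l => (x l + 1) ^ (γ l : ℕ) - x l ^ (γ l : ℕ)) (fun l => pow_nonneg (hx0 l) _)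
      (fun l => sub_nonneg.2 (pow_le_pow_left₀ (hx0 l) (by linarith) _)) ht0 ht1
    refine h6.trans (h7.trans ?_)
    have h8 : ∏ l, (x l ^ (γ l : ℕ) + ((x l + 1) ^ (γ l : ℕ) - x l ^ (γ l : ℕ))) ≤
        2 ^ (D * Fintype.card ι) := by
      have h9 : ∏ l, (x l ^ (γ l : ℕ) + ((x l + 1) ^ (γ l : ℕ) - x l ^ (γ l : ℕ))) ≤
          ∏ _l : ι, (2 : ℝ) ^ D := by
        refine Finset.prod_le_prod (fun l _ => ?_) fun l _ => ?_
        · rw [add_sub_cancel]
          exact pow_nonneg (by linarith [hx0 l]) _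
        · rw [add_sub_cancel]
          have h10 : (x l + 1) ^ (γ l : ℕ) ≤ 2 ^ (γ l : ℕ) :=
            pow_le_pow_left₀ (by linarith [hx0 l]) (by linarith [hx1 l]) _
          refine h10.trans ?_
          exact pow_le_pow_right₀ (by norm_num) (Nat.lt_succ_iff.1 (γ l).2)
      refine h9.trans (le_of_eq ?_)
      rw [Finset.prod_const, Finset.card_univ, ← pow_mul]
    have h9 : 0 ≤ ∏ l, x l ^ (γ l : ℕ) := Finset.prod_nonneg fun l _ => pow_nonneg (hx0 l) _
    have h10 := mul_le_mul_of_nonneg_left (sub_le_self _ h9 |>.trans h8) ht0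
    linarith
  rw [h1, abs_of_nonneg (by linarith), h2]
  linarith

end MajAAux

open MajAAux in
theorem sep_rat (V : Finset ι) : ∃ C : ℝ, 0 ≤ C ∧ ∀ (q : ℕ) (b : Ex ι D → ℚ) (u : Ex ι D → ℝ)
    (M : ι → ℕ) (N : ℕ), 0 < q → (∀ γ, ∃ n : ℤ, (q : ℚ) * b γ = n) → 0 < N →
    (∀ l ∈ V, N ≤ M l) →
    ‖AA (res V M) (pt V b u (res V M)) - GG V q b * WW V M u‖ ≤
      C * q * (1 + ∑ γ ∈ (GV V : Finset (Ex ι D)), |u γ|) / N := by
  refine ⟨2 + 4 * Fintype.card ι + 2 * Real.pi * 2 ^ (D * Fintype.card ι), by positivity, ?_⟩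
  intro q b u M N hq hb hN hM
  have hNr : (0 : ℝ) < N := by exact_mod_cast hN
  have hqr : (0 : ℝ) < q := by exact_mod_cast hq
  obtain ⟨S, hS⟩ : ∃ S : ℝ, S = ∑ γ ∈ (GV V : Finset (Ex ι D)), |u γ| := ⟨_, rfl⟩
  have hS0 : 0 ≤ S := by rw [hS]; exact Finset.sum_nonneg fun _ _ => abs_nonneg _
  rw [← hS]
  have hpi : 0 ≤ 2 * Real.pi * 2 ^ (D * Fintype.card ι) := by positivity
  have hcard : (0 : ℝ) ≤ Fintype.card ι := Nat.cast_nonneg _
  rcases le_or_gt q N with hqN | hqN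
  swap
  · have h1 : (1 : ℝ) ≤ q / N := by
      rw [le_div_iff₀ hNr, one_mul]; exact_mod_cast hqN.le
    have h2 : ‖AA (res V M) (pt V b u (res V M)) - GG V q b * WW V M u‖ ≤ 2 := by
      refine (norm_sub_le _ _).trans ?_
      rw [norm_mul]
      have h3 := norm_AA_le (res V M) (pt V b u (res V M))
      have h4 := norm_GG_le V q b
      have h5 := norm_WW_le V M u
      have h6 : ‖GG V q b‖ * ‖WW V M u‖ ≤ 1 * 1 :=
        mul_le_mul h4 h5 (norm_nonneg _) zero_le_one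
      linarith
    refine h2.trans ?_
    have h3 : (2 + 4 * Fintype.card ι + 2 * Real.pi * 2 ^ (D * Fintype.card ι)) * q * (1 + S) / N =
        (2 + 4 * Fintype.card ι + 2 * Real.pi * 2 ^ (D * Fintype.card ι)) * ((1 + S) * (q / N)) := by
      ring
    rw [h3]
    have h4 : 1 ≤ (1 + S) * (q / N) := by nlinarith
    nlinarith
  -- the main case
  have hres : ∀ l, 0 < res V M l := res_pos fun l hl => lt_of_lt_of_le hN (hM l hl)
  have hQ : ∀ l, 0 < res V (fun _ => q) l := res_pos fun _ _ => hq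
  obtain ⟨f, hf⟩ : ∃ f : (ι → ℕ) → ℂ, f = fun m =>
    ee (∑ γ ∈ (GV V : Finset (Ex ι D)), (b γ : ℝ) * (mon m γ : ℝ)) := ⟨_, rfl⟩
  obtain ⟨φ, hφ⟩ : ∃ φ : (ι → ℕ) → ℂ, φ = fun m =>
    ee (∑ γ ∈ (GV V : Finset (Ex ι D)), u γ * (mon m γ : ℝ) / mon (res V M) γ) := ⟨_, rfl⟩
  have hf1 : ∀ m, ‖f m‖ = 1 := fun m => by rw [hf]; exact norm_ee _
  have hφ1 : ∀ m, ‖φ m‖ = 1 := fun m => by rw [hφ]; exact norm_ee _
  have hAA : AA (res V M) (pt V b u (res V M)) = cav (res V M) (fun m => f m * φ m) := by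
    unfold AA cav
    congr 1
    refine Finset.sum_congr rfl fun m _ => ?_
    rw [hf, hφ]
    show _ = ee _ * ee _
    rw [← ee_add]
    congr 1
    unfold pp pt
    have h1 : ∀ γ : Ex ι D, (if γ ∈ (GV V : Finset (Ex ι D)) then (b γ : ℝ) + u γ / mon (res V M) γ
        else 0) * (mon m γ : ℝ) = if γ ∈ (GV V : Finset (Ex ι D)) then
        ((b γ : ℝ) * mon m γ + u γ * (mon m γ : ℝ) / mon (res V M) γ) else 0 := by
      intro γ
      split_ifs
      · ring
      · ring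
    rw [Finset.sum_congr rfl fun γ _ => h1 γ, Finset.sum_ite_mem, Finset.univ_inter,
      Finset.sum_add_distrib]
  have hGG : GG V q b = cav (res V fun _ => q) f := by rw [hf]; rfl
  have hWW : WW V M u = cav (res V M) φ := by rw [hφ]; rfl
  have hcomp : ∀ m, cav (res V fun _ => q) (fun r => f (m + r)) = cav (res V fun _ => q) f := by
    intro m
    refine cav_complete hq (fun x y hxy => ?_) m
    rw [hf]
    exact ee_congr_mod hb hxy
  have hmain : AA (res V M) (pt V b u (res V M)) - GG V q b * WW V M u =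
      cav (res V fun _ => q) (fun r => cav (res V M) (fun m => f m * φ m) -
        cav (res V M) (fun m => f (m + r) * φ m)) := by
    rw [← cav_sub, cav_const hQ, hAA]
    congr 1
    rw [← cav_comm]
    have h1 : ∀ m, cav (res V fun _ => q) (fun r => f (m + r) * φ m) =
        cav (res V fun _ => q) f * φ m := by
      intro m
      rw [cav_mul_right, hcomp]
    rw [cav_congr (fun m _ => h1 m), cav_mul_left, hGG, hWW]
  rw [hmain]
  refine norm_cav_le hQ fun r hr => ?_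
  have h1 := cav_shift hres r (g := fun m => f m * φ m) (fun m => by
    rw [norm_mul, hf1, hφ1, mul_one])
  have h2 : ∑ l, (r l : ℝ) / res V M l ≤ Fintype.card ι * ((q : ℝ) / N) := by
    have h3 : ∀ l ∈ (univ : Finset ι), (r l : ℝ) / res V M l ≤ (q : ℝ) / N := by
      intro l _
      by_cases hl : l ∈ V
      · have h6 : (r l : ℝ) ≤ q := by
          have := mem_bx.1 hr l
          rw [res_of_mem hl] at this
          exact_mod_cast this.le
        have h7 : (N : ℝ) ≤ res V M l := by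
          rw [res_of_mem hl]
          exact_mod_cast hM l hl
        exact div_le_div₀ hqr.le h6 hNr h7
      · have := mem_bx.1 hr l
        rw [res_of_notMem hl] at this
        have h8 : r l = 0 := by omega
        rw [h8]
        simp only [Nat.cast_zero, zero_div]
        positivity
    refine (Finset.sum_le_sum h3).trans (le_of_eq ?_)
    rw [Finset.sum_const, Finset.card_univ, nsmul_eq_mul]
  have h3 : ‖cav (res V M) (fun m => f (m + r) * φ (m + r)) -
      cav (res V M) (fun m => f (m + r) * φ m)‖ ≤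
      2 * Real.pi * (S * (2 ^ (D * Fintype.card ι) * ((q : ℝ) / N))) := by
    rw [cav_sub]
    refine norm_cav_le hres fun m hm => ?_
    rw [← mul_sub, norm_mul, hf1, one_mul, hφ]
    refine (norm_ee_sub_le _ _).trans (mul_le_mul_of_nonneg_left ?_ Real.two_pi_pos.le)
    rw [← Finset.sum_sub_distrib, hS, Finset.sum_mul]
    refine (Finset.abs_sum_le_sum_abs _ _).trans (Finset.sum_le_sum fun γ hγ => ?_)
    have h4 : u γ * (mon (m + r) γ : ℝ) / mon (res V M) γ - u γ * (mon m γ : ℝ) / mon (res V M) γ =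
        u γ * (((mon (m + r) γ : ℝ) - mon m γ) / mon (res V M) γ) := by ring
    rw [h4, abs_mul]
    exact mul_le_mul_of_nonneg_left (mon_lip hN hqN hM hm hr hγ) (abs_nonneg _)
  have h4 : ‖cav (res V M) (fun m => f m * φ m) -
        cav (res V M) (fun m => f (m + r) * φ m)‖ ≤
      4 * (Fintype.card ι * ((q : ℝ) / N)) +
      2 * Real.pi * (S * (2 ^ (D * Fintype.card ι) * ((q : ℝ) / N))) := by
    have h5 : cav (res V M) (fun m => f m * φ m) - cav (res V M) (fun m => f (m + r) * φ m) =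
        -(cav (res V M) (fun m => f (m + r) * φ (m + r)) - cav (res V M) (fun m => f m * φ m)) +
        (cav (res V M) (fun m => f (m + r) * φ (m + r)) -
          cav (res V M) (fun m => f (m + r) * φ m)) := by ring
    rw [h5]
    refine (norm_add_le _ _).trans (add_le_add ?_ h3)
    rw [norm_neg]
    exact h1.trans (mul_le_mul_of_nonneg_left h2 (by norm_num))
  refine h4.trans ?_
  have h5 : (2 + 4 * Fintype.card ι + 2 * Real.pi * 2 ^ (D * Fintype.card ι)) * q * (1 + S) / N =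
      (2 + 4 * Fintype.card ι + 2 * Real.pi * 2 ^ (D * Fintype.card ι)) * ((1 + S) * (q / N)) := by
    ring
  rw [h5]
  have h6 : 0 ≤ (q : ℝ) / N := by positivity
  have h7 : 0 ≤ S * ((q : ℝ) / N) := mul_nonneg hS0 h6
  have h8 : 0 ≤ (Fintype.card ι : ℝ) * (S * ((q : ℝ) / N)) := mul_nonneg hcard h7
  have h9 : 0 ≤ 2 * Real.pi * 2 ^ (D * Fintype.card ι) * ((q : ℝ) / N) := mul_nonneg hpi h6
  nlinarith

end Pool.Agent.Lib.Pf720mp
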