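import Pool.Agent.Lib.Pf720mp.MajDefs

/-!
# Refinement of averages of smooth phases

`refine_avg`: write `m ∈ bx (res V (M' M))` as `m_l = M'_l n_l + r_l`, `n ∈ bx (res V M)`,
`r ∈ bx (res V M')` (bijection `m ↦ (m / M', m % M')`; for `l ∉ V` all are `0`). Then
`|m_l / (M'_l M_l) - n_l / M_l| ≤ 1 / M_l ≤ 1 / N` for `l ∈ V`, both numbers in `[0, 1]`, so for
`γ ∈ GV V`, `|m ^ γ / (M' M) ^ γ - n ^ γ / M ^ γ| ≤ D |ι| / N` (product of numbers in `[0,1]`, each power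
is `D`-Lipschitz), and `ee` is `2 π`-Lipschitz: `C = 2 π D |ι|`.
-/

set_option autoImplicit false
set_option linter.unusedSectionVars false

open Finset
open Pool.Agent.Lib.Pf720ae.Poly (ee ee_zero ee_add norm_ee ee_int ee_add_int norm_ee_sub_le)

namespace Pool.Agent.Lib.Pf720mp

variable {ι : Type} [Fintype ι] [DecidableEq ι] {D : ℕ}

namespace MajRAux

lemma abs_prod_sub_le {κ : Type} (s : Finset κ) {a b : κ → ℝ} (ha : ∀ i ∈ s, 0 ≤ a i ∧ a i ≤ 1)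
    (hb : ∀ i ∈ s, 0 ≤ b i ∧ b i ≤ 1) :
    |∏ i ∈ s, a i - ∏ i ∈ s, b i| ≤ ∑ i ∈ s, |a i - b i| := by
  classical
  induction s using Finset.induction_on with
  | empty => simp
  | insert x s hx ih =>
    rw [Finset.prod_insert hx, Finset.prod_insert hx, Finset.sum_insert hx]
    have h1 := ih (fun i hi => ha i (Finset.mem_insert_of_mem hi))
      (fun i hi => hb i (Finset.mem_insert_of_mem hi))
    have ha' := ha x (Finset.mem_insert_self _ _)
    have hPb : 0 ≤ ∏ i ∈ s, b i := Finset.prod_nonneg fun i hi =>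
      (hb i (Finset.mem_insert_of_mem hi)).1
    have hPb1 : ∏ i ∈ s, b i ≤ 1 := Finset.prod_le_one (fun i hi =>
      (hb i (Finset.mem_insert_of_mem hi)).1) fun i hi => (hb i (Finset.mem_insert_of_mem hi)).2
    have e : a x * ∏ i ∈ s, a i - b x * ∏ i ∈ s, b i =
        a x * (∏ i ∈ s, a i - ∏ i ∈ s, b i) + (a x - b x) * ∏ i ∈ s, b i := by ring
    rw [e]
    refine (abs_add_le _ _).trans ?_
    rw [abs_mul, abs_mul, abs_of_nonneg ha'.1, abs_of_nonneg hPb]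
    have h2 : a x * |∏ i ∈ s, a i - ∏ i ∈ s, b i| ≤ 1 * |∏ i ∈ s, a i - ∏ i ∈ s, b i| :=
      mul_le_mul_of_nonneg_right ha'.2 (abs_nonneg _)
    have h3 : |a x - b x| * ∏ i ∈ s, b i ≤ |a x - b x| * 1 :=
      mul_le_mul_of_nonneg_left hPb1 (abs_nonneg _)
    linarith

lemma abs_pow_sub_le {a b : ℝ} (ha : 0 ≤ a ∧ a ≤ 1) (hb : 0 ≤ b ∧ b ≤ 1) (k : ℕ) :
    |a ^ k - b ^ k| ≤ k * |a - b| := by
  have h := abs_prod_sub_le (range k) (a := fun _ => a) (b := fun _ => b) (fun _ _ => ha)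
    (fun _ _ => hb)
  simpa using h

lemma sum_split (A B : ι → ℕ) (hA : ∀ l, 0 < A l) (f : (ι → ℕ) → ℂ) :
    ∑ m ∈ bx (fun l => A l * B l), f m =
      ∑ n ∈ bx B, ∑ r ∈ bx A, f (fun l => A l * n l + r l) := by
  rw [← Finset.sum_product']
  refine Finset.sum_nbij' (fun m => (fun l => m l / A l, fun l => m l % A l))
    (fun p l => A l * p.1 l + p.2 l) ?_ ?_ ?_ ?_ ?_
  · intro m hm
    rw [Finset.mem_product]
    exact ⟨mem_bx.2 fun l => Nat.div_lt_of_lt_mul (mem_bx.1 hm l),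
      mem_bx.2 fun l => Nat.mod_lt _ (hA l)⟩
  · rintro ⟨n, r⟩ h
    rw [Finset.mem_product] at h
    refine mem_bx.2 fun l => ?_
    have h1 := mem_bx.1 h.1 l
    have h2 := mem_bx.1 h.2 l
    simp only at h1 h2 ⊢
    calc A l * n l + r l < A l * n l + A l := by omega
      _ = A l * (n l + 1) := by ring
      _ ≤ A l * B l := Nat.mul_le_mul_left _ h1
  · intro m _
    funext l
    exact Nat.div_add_mod (m l) (A l)
  · rintro ⟨n, r⟩ h
    rw [Finset.mem_product] at h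
    have h2 := fun l => mem_bx.1 h.2 l
    simp only at h2
    refine Prod.ext (funext fun l => ?_) (funext fun l => ?_)
    · simp only
      rw [Nat.mul_add_div (hA l), Nat.div_eq_of_lt (h2 l), add_zero]
    · simp only
      rw [Nat.mul_add_mod, Nat.mod_eq_of_lt (h2 l)]
  · intro m _
    exact congrArg f (funext fun l => (Nat.div_add_mod _ _).symm)

lemma mon_div (m P : ι → ℕ) (γ : Ex ι D) :
    (mon m γ : ℝ) / mon P γ = ∏ l, ((m l : ℝ) / P l) ^ (γ l : ℕ) := by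
  unfold mon
  push_cast
  rw [← Finset.prod_div_distrib]
  exact Finset.prod_congr rfl fun l _ => by rw [div_pow]

lemma ratio {V : Finset ι} {A B n r : ι → ℕ} {N : ℕ} (hN : 0 < N) (hA : ∀ l, 0 < A l)
    (hB : ∀ l, 0 < B l) (hBN : ∀ l ∈ V, N ≤ B l) (hn : ∀ l, n l < B l) (hr : ∀ l, r l < A l)
    {γ : Ex ι D} (hγ : γ ∈ (GV V : Finset (Ex ι D))) :
    |(mon (fun l => A l * n l + r l) γ : ℝ) / mon (fun l => A l * B l) γ -
      (mon n γ : ℝ) / mon B γ| ≤ (Fintype.card ι : ℝ) * D / N := by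
  rw [mon_div, mon_div]
  have hNr : (0 : ℝ) < N := by exact_mod_cast hN
  have hAr : ∀ l, (0 : ℝ) < A l := fun l => by exact_mod_cast hA l
  have hBr : ∀ l, (0 : ℝ) < B l := fun l => by exact_mod_cast hB l
  have h1 : ∀ l, 0 ≤ (((A l * n l + r l : ℕ) : ℝ) / ((A l * B l : ℕ) : ℝ)) ∧
      (((A l * n l + r l : ℕ) : ℝ) / ((A l * B l : ℕ) : ℝ)) ≤ 1 := by
    intro l
    refine ⟨by positivity, ?_⟩
    have h2 : (0 : ℝ) < ((A l * B l : ℕ) : ℝ) := by exact_mod_cast Nat.mul_pos (hA l) (hB l)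
    rw [div_le_one h2]
    have h3 : A l * n l + r l ≤ A l * B l := by
      have h4 := hn l
      have h5 := hr l
      calc A l * n l + r l ≤ A l * n l + A l := by omega
        _ = A l * (n l + 1) := by ring
        _ ≤ A l * B l := Nat.mul_le_mul_left _ h4
    exact_mod_cast h3
  have h2 : ∀ l, 0 ≤ ((n l : ℝ) / B l) ∧ ((n l : ℝ) / B l) ≤ 1 := by
    intro l
    refine ⟨by positivity, ?_⟩
    rw [div_le_one (hBr l)]
    exact_mod_cast (hn l).le
  have h3 : ∀ l, |(((A l * n l + r l : ℕ) : ℝ) / ((A l * B l : ℕ) : ℝ)) ^ (γ l : ℕ) -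
      ((n l : ℝ) / B l) ^ (γ l : ℕ)| ≤ D / N := by
    intro l
    by_cases hl : l ∈ V
    · refine (abs_pow_sub_le (h1 l) (h2 l) _).trans ?_
      have h4 : |((A l * n l + r l : ℕ) : ℝ) / ((A l * B l : ℕ) : ℝ) - (n l : ℝ) / B l| ≤ 1 / N := by
        have e : ((A l * n l + r l : ℕ) : ℝ) / ((A l * B l : ℕ) : ℝ) - (n l : ℝ) / B l =
            (r l : ℝ) / (A l * B l) := by
          push_cast
          have := (hAr l).ne'
          have := (hBr l).ne'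
          field_simp
          ring
        rw [e, abs_of_nonneg (by positivity), div_le_div_iff₀ (mul_pos (hAr l) (hBr l)) hNr, one_mul]
        have h5 : (r l : ℝ) ≤ A l := by exact_mod_cast (hr l).le
        have h6 : (N : ℝ) ≤ B l := by exact_mod_cast hBN l hl
        exact mul_le_mul h5 h6 hNr.le (hAr l).le
      have h5 : ((γ l : ℕ) : ℝ) ≤ D := by exact_mod_cast Nat.lt_succ_iff.1 (γ l).2
      calc ((γ l : ℕ) : ℝ) * |((A l * n l + r l : ℕ) : ℝ) / ((A l * B l : ℕ) : ℝ) - (n l : ℝ) / B l|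
          ≤ D * (1 / N) := mul_le_mul h5 h4 (abs_nonneg _) (Nat.cast_nonneg _)
        _ = D / N := by ring
    · have h4 : (γ l : ℕ) = 0 := by
        have := (mem_GV.1 hγ).2 l hl
        rw [this]
        rfl
      rw [h4, pow_zero, pow_zero, sub_self, abs_zero]
      positivity
  refine (abs_prod_sub_le _ (fun l _ => ⟨pow_nonneg (h1 l).1 _, pow_le_one₀ (h1 l).1 (h1 l).2⟩)
    (fun l _ => ⟨pow_nonneg (h2 l).1 _, pow_le_one₀ (h2 l).1 (h2 l).2⟩)).trans ?_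
  refine (Finset.sum_le_sum fun l _ => h3 l).trans (le_of_eq ?_)
  rw [Finset.sum_const, Finset.card_univ, nsmul_eq_mul]
  ring

end MajRAux

open MajRAux

theorem refine_avg (V : Finset ι) : ∃ C : ℝ, 0 ≤ C ∧ ∀ (u : Ex ι D → ℝ)
    (M M' : ι → ℕ) (N : ℕ), 0 < N → (∀ l ∈ V, N ≤ M l) → (∀ l ∈ V, 0 < M' l) →
    ‖WW V (fun l => M' l * M l) u - WW V M u‖ ≤
      C * (∑ γ ∈ (GV V : Finset (Ex ι D)), |u γ|) / N := by
  refine ⟨2 * Real.pi * ((Fintype.card ι : ℝ) * D), by positivity, ?_⟩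
  intro u M M' N hN hM hM'
  obtain ⟨A, hA⟩ : ∃ A, A = res V M' := ⟨_, rfl⟩
  obtain ⟨B, hB⟩ : ∃ B, B = res V M := ⟨_, rfl⟩
  have hP : res V (fun l => M' l * M l) = fun l => A l * B l := by
    funext l
    by_cases hl : l ∈ V
    · rw [hA, hB, res_of_mem hl, res_of_mem hl, res_of_mem hl]
    · rw [hA, hB, res_of_notMem hl, res_of_notMem hl, res_of_notMem hl]
  have hA0 : ∀ l, 0 < A l := fun l => by rw [hA]; exact res_pos hM' l
  have hB0 : ∀ l, 0 < B l := fun l => by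
    rw [hB]; exact res_pos (fun l hl => lt_of_lt_of_le hN (hM l hl)) l
  have hBN : ∀ l ∈ V, N ≤ B l := fun l hl => by rw [hB, res_of_mem hl]; exact hM l hl
  unfold WW
  rw [hP, ← hB, sum_split A B hA0]
  set K : ℝ := 2 * Real.pi * ((Fintype.card ι : ℝ) * D) *
    (∑ γ ∈ (GV V : Finset (Ex ι D)), |u γ|) / N with hK
  have hK0 : 0 ≤ K := by
    rw [hK]
    have : 0 ≤ ∑ γ ∈ (GV V : Finset (Ex ι D)), |u γ| := Finset.sum_nonneg fun _ _ => abs_nonneg _
    positivity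
  have hPA : (∏ l, (A l : ℂ)) ≠ 0 := Finset.prod_ne_zero_iff.2 fun l _ =>
    Nat.cast_ne_zero.2 (hA0 l).ne'
  have hPB : (∏ l, (B l : ℂ)) ≠ 0 := Finset.prod_ne_zero_iff.2 fun l _ =>
    Nat.cast_ne_zero.2 (hB0 l).ne'
  have hprod : (∏ l, ((A l * B l : ℕ) : ℂ)) = (∏ l, (A l : ℂ)) * ∏ l, (B l : ℂ) := by
    push_cast
    rw [Finset.prod_mul_distrib]
  have hsum : ∀ z : ℂ, ∑ _r ∈ bx A, z = (∏ l, (A l : ℂ)) * z := by
    intro z
    rw [Finset.sum_const, card_bx, nsmul_eq_mul]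
    push_cast
    rfl
  have h1 : (∏ l, (B l : ℂ))⁻¹ * ∑ m ∈ bx B,
      ee (∑ γ ∈ (GV V : Finset (Ex ι D)), u γ * (mon m γ : ℝ) / mon B γ) =
      ((∏ l, (A l : ℂ)) * ∏ l, (B l : ℂ))⁻¹ * ∑ n ∈ bx B, ∑ _r ∈ bx A,
        ee (∑ γ ∈ (GV V : Finset (Ex ι D)), u γ * (mon n γ : ℝ) / mon B γ) := by
    simp only [hsum]
    rw [← Finset.mul_sum, mul_inv]
    field_simp
  rw [h1, hprod, ← mul_sub, ← Finset.sum_sub_distrib]
  have h2 : ∀ n ∈ bx B, ‖(∑ r ∈ bx A, ee (∑ γ ∈ (GV V : Finset (Ex ι D)),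
      u γ * (mon (fun l => A l * n l + r l) γ : ℝ) / mon (fun l => A l * B l) γ)) -
      ∑ _r ∈ bx A, ee (∑ γ ∈ (GV V : Finset (Ex ι D)), u γ * (mon n γ : ℝ) / mon B γ)‖ ≤
      ∑ _r ∈ bx A, K := by
    intro n hn
    rw [← Finset.sum_sub_distrib]
    refine (norm_sum_le _ _).trans (Finset.sum_le_sum fun r hr => ?_)
    refine (norm_ee_sub_le _ _).trans ?_
    have h3 : |(∑ γ ∈ (GV V : Finset (Ex ι D)),
        u γ * (mon (fun l => A l * n l + r l) γ : ℝ) / mon (fun l => A l * B l) γ) -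
        ∑ γ ∈ (GV V : Finset (Ex ι D)), u γ * (mon n γ : ℝ) / mon B γ| ≤
        ∑ γ ∈ (GV V : Finset (Ex ι D)), |u γ| * ((Fintype.card ι : ℝ) * D / N) := by
      rw [← Finset.sum_sub_distrib]
      refine (Finset.abs_sum_le_sum_abs _ _).trans (Finset.sum_le_sum fun γ hγ => ?_)
      rw [mul_div_assoc, mul_div_assoc, ← mul_sub, abs_mul]
      exact mul_le_mul_of_nonneg_left (ratio hN hA0 hB0 hBN (mem_bx.1 hn) (mem_bx.1 hr) hγ)
        (abs_nonneg _)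
    refine (mul_le_mul_of_nonneg_left h3 Real.two_pi_pos.le).trans (le_of_eq ?_)
    rw [← Finset.sum_mul, hK]
    ring
  rw [norm_mul, norm_inv, norm_mul, norm_prod, norm_prod]
  have h4 : ‖∑ n ∈ bx B, ((∑ r ∈ bx A, ee (∑ γ ∈ (GV V : Finset (Ex ι D)),
      u γ * (mon (fun l => A l * n l + r l) γ : ℝ) / mon (fun l => A l * B l) γ)) -
      ∑ _r ∈ bx A, ee (∑ γ ∈ (GV V : Finset (Ex ι D)), u γ * (mon n γ : ℝ) / mon B γ))‖ ≤
      ((∏ l, ‖(A l : ℂ)‖) * ∏ l, ‖(B l : ℂ)‖) * K := by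
    refine (norm_sum_le _ _).trans ((Finset.sum_le_sum h2).trans (le_of_eq ?_))
    rw [Finset.sum_const, Finset.sum_const, card_bx, card_bx, nsmul_eq_mul, nsmul_eq_mul]
    simp only [Complex.norm_natCast]
    push_cast
    ring
  have h5 : 0 < (∏ l, ‖(A l : ℂ)‖) * ∏ l, ‖(B l : ℂ)‖ := by
    refine mul_pos (Finset.prod_pos fun l _ => ?_) (Finset.prod_pos fun l _ => ?_)
    · rw [Complex.norm_natCast]; exact_mod_cast hA0 l
    · rw [Complex.norm_natCast]; exact_mod_cast hB0 l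
  rw [inv_mul_le_iff₀ h5]
  exact h4

end Pool.Agent.Lib.Pf720mp
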