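import Pool.Agent.Lib.Pf720mp.MajA
import Pool.Agent.Lib.Pf720mp.MajR

/-!
# The limit `HH` and the major arc approximation

From `sep_rat` and `refine_avg`: for `M`, `M'` with all `M_l, M'_l ≥ N` (`l ∈ V`),
`‖AA (res V M) (pt V b u (res V M)) - AA (res V M') (pt V b u (res V M'))‖ ≤
C' q (1 + ∑ |u_γ|) / N` (compare both `WW V M u` and `WW V M' u` with
`WW V (M' M) u = WW V (M M') u`). Hence the sequence defining `HH V b u` is Cauchy (take
`q = ∏ (b γ).den`), it converges to `HH V b u` (`CauchySeq.tendsto_limUnder`), and `HH_approx`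
follows by letting `M' → ∞`. `norm_HH_le`, `HH_lip`, `HH_congr`, `HH_add_int`: pass to the limit in
`norm_AA_le`, `norm_AA_sub_le` (`mon M γ * |u γ / mon M γ - u' γ / mon M γ| = |u γ - u' γ|`),
`pt` only uses `b` on `GV V`, `AA_periodic`. `AA_HH`: `AA_zero_coord`, and `AA_congr` to replace
`update θ 0 0` by `pt V b u (res V M)` with `u γ = mon (res V M) γ * (θ γ - b γ)`.
-/

set_option autoImplicit false
set_option linter.unusedSectionVars false

open Finset Filter Topology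
open Pool.Agent.Lib.Pf720ae.Poly (ee ee_zero ee_add norm_ee ee_int ee_add_int norm_ee_sub_le)

namespace Pool.Agent.Lib.Pf720mp

variable {ι : Type} [Fintype ι] [DecidableEq ι] {D : ℕ}

/-- comparison of the exponential sums at two scales -/
theorem cmp_scales (V : Finset ι) : ∃ C : ℝ, 0 ≤ C ∧ ∀ (q : ℕ) (b : Ex ι D → ℚ) (u : Ex ι D → ℝ)
    (M M' : ι → ℕ) (N : ℕ), 0 < q → (∀ γ, ∃ n : ℤ, (q : ℚ) * b γ = n) → 0 < N →
    (∀ l ∈ V, N ≤ M l) → (∀ l ∈ V, N ≤ M' l) →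
    ‖AA (res V M) (pt V b u (res V M)) - AA (res V M') (pt V b u (res V M'))‖ ≤
      C * q * (1 + ∑ γ ∈ (GV V : Finset (Ex ι D)), |u γ|) / N := by
  obtain ⟨C₁, hC₁, h₁⟩ := sep_rat (D := D) V
  obtain ⟨C₂, hC₂, h₂⟩ := refine_avg (D := D) V
  refine ⟨2 * C₁ + 2 * C₂, by positivity, ?_⟩
  intro q b u M M' N hq hb hN hM hM'
  set S : ℝ := ∑ γ ∈ (GV V : Finset (Ex ι D)), |u γ| with hS
  have hS0 : 0 ≤ S := Finset.sum_nonneg fun _ _ => abs_nonneg _
  have hNr : (0 : ℝ) < N := by exact_mod_cast hN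
  have hqr : (1 : ℝ) ≤ q := by exact_mod_cast hq
  have e1 := h₁ q b u M N hq hb hN hM
  have e2 := h₁ q b u M' N hq hb hN hM'
  have e3 := h₂ u M M' N hN hM fun l hl => lt_of_lt_of_le hN (hM' l hl)
  have e4 := h₂ u M' M N hN hM' fun l hl => lt_of_lt_of_le hN (hM l hl)
  have e5 : (fun l => M l * M' l) = fun l => M' l * M l := funext fun l => mul_comm _ _
  rw [e5] at e4
  rw [← hS] at e1 e2 e3 e4
  set A := AA (res V M) (pt V b u (res V M)) with hA
  set A' := AA (res V M') (pt V b u (res V M')) with hA'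
  set W := WW V M u with hW
  set W' := WW V M' u with hW'
  set W'' := WW V (fun l => M' l * M l) u with hW''
  set G := GG V q b with hG
  have hG1 : ‖G‖ ≤ 1 := norm_GG_le V q b
  have e6 : ‖G * W - G * W'‖ ≤ 2 * (C₂ * S / N) := by
    rw [← mul_sub, norm_mul]
    have e7 : ‖W - W'‖ ≤ 2 * (C₂ * S / N) := by
      have e8 : W - W' = (W'' - W') - (W'' - W) := by ring
      rw [e8]
      refine (norm_sub_le _ _).trans ?_
      linarith
    calc ‖G‖ * ‖W - W'‖ ≤ 1 * ‖W - W'‖ := mul_le_mul_of_nonneg_right hG1 (norm_nonneg _)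
      _ ≤ 2 * (C₂ * S / N) := by rw [one_mul]; exact e7
  have e9 : A - A' = (A - G * W) + (G * W - G * W') - (A' - G * W') := by ring
  rw [e9]
  have e10 : ‖(A - G * W) + (G * W - G * W') - (A' - G * W')‖ ≤
      ‖A - G * W‖ + ‖G * W - G * W'‖ + ‖A' - G * W'‖ :=
    (norm_sub_le _ _).trans (add_le_add (norm_add_le _ _) le_rfl)
  have e11 : C₂ * S / N ≤ C₂ * q * (1 + S) / N := by
    refine div_le_div_of_nonneg_right ?_ hNr.le
    rw [mul_assoc]
    refine mul_le_mul_of_nonneg_left ?_ hC₂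
    nlinarith
  have e12 : (2 * C₁ + 2 * C₂) * q * (1 + S) / N =
      2 * (C₁ * q * (1 + S) / N) + 2 * (C₂ * q * (1 + S) / N) := by ring
  rw [e12]
  linarith

lemma exists_den (b : Ex ι D → ℚ) : ∃ q : ℕ, 0 < q ∧ ∀ γ, ∃ n : ℤ, (q : ℚ) * b γ = n := by
  refine ⟨∏ γ, (b γ).den, Finset.prod_pos fun γ _ => (b γ).den_pos, fun γ => ?_⟩
  refine ⟨(∏ γ' ∈ Finset.univ.erase γ, (b γ').den : ℕ) * (b γ).num, ?_⟩
  rw [← Finset.prod_erase_mul Finset.univ _ (Finset.mem_univ γ)]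
  push_cast
  rw [mul_assoc, mul_comm ((b γ).den : ℚ), Rat.mul_den_eq_num]

theorem tendsto_HH (V : Finset ι) (b : Ex ι D → ℚ) (u : Ex ι D → ℝ) :
    Tendsto (fun N : ℕ => AA (res V fun _ => N + 1) (pt V b u (res V fun _ => N + 1))) atTop
      (𝓝 (HH V b u)) := by
  obtain ⟨C, hC, h⟩ := cmp_scales (D := D) V
  obtain ⟨q, hq, hb⟩ := exists_den b
  refine CauchySeq.tendsto_limUnder (cauchySeq_of_le_tendsto_0
    (fun N : ℕ => C * q * (1 + ∑ γ ∈ (GV V : Finset (Ex ι D)), |u γ|) * (1 / ((N : ℝ) + 1)))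
    ?_ ?_)
  · intro n m N hn hm
    rw [dist_eq_norm]
    refine (h q b u (fun _ => n + 1) (fun _ => m + 1) (N + 1) hq hb (Nat.succ_pos _)
      (fun _ _ => by omega) (fun _ _ => by omega)).trans (le_of_eq ?_)
    push_cast
    ring
  · have h1 := (tendsto_one_div_add_atTop_nhds_zero_nat (𝕜 := ℝ)).const_mul
      (C * q * (1 + ∑ γ ∈ (GV V : Finset (Ex ι D)), |u γ|))
    rw [mul_zero] at h1
    exact h1

theorem norm_HH_le (V : Finset ι) (b : Ex ι D → ℚ) (u : Ex ι D → ℝ) : ‖HH V b u‖ ≤ 1 :=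
  le_of_tendsto (tendsto_HH V b u).norm (Eventually.of_forall fun _ => norm_AA_le _ _)

theorem HH_lip (V : Finset ι) (b : Ex ι D → ℚ) (u u' : Ex ι D → ℝ) :
    ‖HH V b u - HH V b u'‖ ≤
      2 * Real.pi * ∑ γ ∈ (GV V : Finset (Ex ι D)), |u γ - u' γ| := by
  refine le_of_tendsto ((tendsto_HH V b u).sub (tendsto_HH V b u')).norm
    (Eventually.of_forall fun N => ?_)
  refine (norm_AA_sub_le _ _ _).trans (mul_le_mul_of_nonneg_left ?_ Real.two_pi_pos.le)
  rw [← Finset.sum_subset (Finset.subset_univ (GV V : Finset (Ex ι D)))]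
  · refine Finset.sum_le_sum fun γ hγ => ?_
    simp only [pt, if_pos hγ]
    have h1 : (0 : ℝ) < mon (res V fun _ => N + 1) γ := by
      exact_mod_cast mon_pos (res_pos fun _ _ => Nat.succ_pos N) γ
    have h2 : ((b γ : ℝ) + u γ / mon (res V fun _ => N + 1) γ) -
        ((b γ : ℝ) + u' γ / mon (res V fun _ => N + 1) γ) =
        (u γ - u' γ) / mon (res V fun _ => N + 1) γ := by ring
    rw [h2, abs_div, abs_of_pos h1, mul_div_cancel₀ _ h1.ne']
  · intro γ _ hγ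
    simp [pt, if_neg hγ]

theorem HH_congr (V : Finset ι) {b b' : Ex ι D → ℚ} {u u' : Ex ι D → ℝ}
    (hb : ∀ γ ∈ (GV V : Finset (Ex ι D)), b γ = b' γ)
    (hu : ∀ γ ∈ (GV V : Finset (Ex ι D)), u γ = u' γ) : HH V b u = HH V b' u' := by
  unfold HH
  congr 1
  funext N
  congr 1
  funext γ
  unfold pt
  by_cases hγ : γ ∈ (GV V : Finset (Ex ι D))
  · rw [if_pos hγ, if_pos hγ, hb γ hγ, hu γ hγ]
  · rw [if_neg hγ, if_neg hγ]

theorem HH_add_int (V : Finset ι) {b b' : Ex ι D → ℚ} (u : Ex ι D → ℝ)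
    (hb : ∀ γ ∈ (GV V : Finset (Ex ι D)), ∃ n : ℤ, b' γ = b γ + n) : HH V b' u = HH V b u := by
  classical
  have hb' : ∀ γ : Ex ι D, ∃ n : ℤ, (γ ∈ (GV V : Finset (Ex ι D)) → b' γ = b γ + n) ∧
      (γ ∉ (GV V : Finset (Ex ι D)) → n = 0) := by
    intro γ
    by_cases hγ : γ ∈ (GV V : Finset (Ex ι D))
    · obtain ⟨n, hn⟩ := hb γ hγ
      exact ⟨n, fun _ => hn, fun h => absurd hγ h⟩
    · exact ⟨0, fun h => absurd h hγ, fun _ => rfl⟩
  choose n hn1 hn2 using hb'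
  unfold HH
  congr 1
  funext N
  rw [← AA_periodic (res V fun _ => N + 1) (pt V b u (res V fun _ => N + 1)) n]
  congr 1
  funext γ
  unfold pt
  by_cases hγ : γ ∈ (GV V : Finset (Ex ι D))
  · rw [if_pos hγ, if_pos hγ, hn1 γ hγ]
    push_cast
    ring
  · rw [if_neg hγ, if_neg hγ, hn2 γ hγ]
    simp

/-- major arc approximation -/
theorem AA_HH (V : Finset ι) : ∃ C : ℝ, 0 ≤ C ∧ ∀ (q : ℕ) (b : Ex ι D → ℚ) (θ : Ex ι D → ℝ)
    (M : ι → ℕ) (N : ℕ), 0 < q → (∀ γ, ∃ n : ℤ, (q : ℚ) * b γ = n) → 0 < N →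
    (∀ l ∈ V, N ≤ M l) →
    ‖AA (res V M) θ - ee (θ 0) * HH V b (fun γ => (mon (res V M) γ : ℝ) * (θ γ - b γ))‖ ≤
      C * q * (1 + ∑ γ ∈ (GV V : Finset (Ex ι D)), |(mon (res V M) γ : ℝ) * (θ γ - b γ)|) / N := by
  obtain ⟨C, hC, h⟩ := cmp_scales (D := D) V
  refine ⟨C, hC, ?_⟩
  intro q b θ M N hq hb hN hM
  set u : Ex ι D → ℝ := fun γ => (mon (res V M) γ : ℝ) * (θ γ - b γ) with hu
  have hmon : ∀ γ : Ex ι D, (0 : ℝ) < mon (res V M) γ := by
    intro γ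
    exact_mod_cast mon_pos (res_pos fun l hl => lt_of_lt_of_le hN (hM l hl)) γ
  have e1 : AA (res V M) θ = ee (θ 0) * AA (res V M) (pt V b u (res V M)) := by
    rw [AA_zero_coord]
    congr 1
    refine AA_congr V M ?_ ?_
    · unfold pt
      rw [Function.update_self, if_neg (zero_notMem_GV V)]
    · intro γ hγ
      have hγ0 : γ ≠ 0 := (mem_GV.1 hγ).1
      unfold pt
      rw [Function.update_of_ne hγ0, if_pos hγ]
      simp only [hu]
      rw [mul_div_cancel_left₀ _ (hmon γ).ne']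
      ring
  rw [e1, ← mul_sub, norm_mul, norm_ee, one_mul]
  refine le_of_tendsto ((tendsto_HH V b u).const_sub _).norm ?_
  filter_upwards [eventually_ge_atTop N] with N' hN'
  exact h q b u M (fun _ => N' + 1) N hq hb hN hM fun _ _ => by omega

end Pool.Agent.Lib.Pf720mp
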