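import Pool.Agent.Lib.Pf720mp.Api

/-!
# Complete sums and averages of smooth phases: definitions

`WW V M u = |bx (res V M)|⁻¹ ∑_m ee (∑_{γ ∈ GV V} u_γ m ^ γ / M ^ γ)`,
`GG V q b = |bx (res V q)|⁻¹ ∑_{r ∈ bx (res V q)} ee (∑_{γ ∈ GV V} b_γ r ^ γ)`.
-/

set_option autoImplicit false
set_option linter.unusedSectionVars false

open Finset
open Pool.Agent.Lib.Pf720ae.Poly (ee ee_zero ee_add norm_ee ee_int ee_add_int norm_ee_sub_le)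

namespace Pool.Agent.Lib.Pf720mp

variable {ι : Type} [Fintype ι] [DecidableEq ι] {D : ℕ}

noncomputable def WW (V : Finset ι) (M : ι → ℕ) (u : Ex ι D → ℝ) : ℂ :=
  (∏ l, (res V M l : ℂ))⁻¹ * ∑ m ∈ bx (res V M),
    ee (∑ γ ∈ (GV V : Finset (Ex ι D)), u γ * (mon m γ : ℝ) / mon (res V M) γ)

noncomputable def GG (V : Finset ι) (q : ℕ) (b : Ex ι D → ℚ) : ℂ :=
  (∏ l, (res V (fun _ => q) l : ℂ))⁻¹ * ∑ r ∈ bx (res V fun _ => q),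
    ee (∑ γ ∈ (GV V : Finset (Ex ι D)), (b γ : ℝ) * (mon r γ : ℝ))

lemma norm_avg_le (M : ι → ℕ) {f : (ι → ℕ) → ℂ} (hf : ∀ m ∈ bx M, ‖f m‖ ≤ 1) :
    ‖(∏ l, (M l : ℂ))⁻¹ * ∑ m ∈ bx M, f m‖ ≤ 1 := by
  rw [norm_mul, norm_inv, norm_prod]
  have h1 : ‖∑ m ∈ bx M, f m‖ ≤ ∏ l, ‖(M l : ℂ)‖ := by
    refine (norm_sum_le _ _).trans ((Finset.sum_le_sum hf).trans ?_)
    simp [card_bx]
  have h0 : 0 ≤ ∏ l, ‖(M l : ℂ)‖ := Finset.prod_nonneg fun _ _ => norm_nonneg _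
  calc (∏ l, ‖(M l : ℂ)‖)⁻¹ * ‖∑ m ∈ bx M, f m‖ ≤
        (∏ l, ‖(M l : ℂ)‖)⁻¹ * ∏ l, ‖(M l : ℂ)‖ := mul_le_mul_of_nonneg_left h1 (inv_nonneg.2 h0)
    _ ≤ 1 := inv_mul_le_one

theorem norm_WW_le (V : Finset ι) (M : ι → ℕ) (u : Ex ι D → ℝ) : ‖WW V M u‖ ≤ 1 :=
  norm_avg_le _ fun _ _ => (norm_ee _).le

theorem norm_GG_le (V : Finset ι) (q : ℕ) (b : Ex ι D → ℚ) : ‖GG V q b‖ ≤ 1 :=
  norm_avg_le _ fun _ _ => (norm_ee _).le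

end Pool.Agent.Lib.Pf720mp
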