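import Pool.Agent.Lib.Pf720mp.Defs

/-!
# Maximal bounds for families of multipliers: basic calculus

`MxLe S m B` says: for every `F` and every choice function `j : x ↦ j x ∈ S`,
`∑_x |T_{m (j x)} F (x)|² ≤ B² ‖F‖²`. All functions on the finite torus have finite support, the
choice function takes finitely many values.

Proof hints.
* `mx_add`: `op` is additive in the multiplier (`op_add`); Minkowski's inequality in `ℓ²`
  (e.g. `‖u + v‖² ≤ (1 + s) ‖u‖² + (1 + s⁻¹) ‖v‖²` with `s = B'/B`, the cases `B = 0` or `B' = 0`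
  separately; or use the norm of `EuclideanSpace ℂ (I → ZMod L)`).
* `mx_sum`: induction on the finset with `mx_add`.
* `mx_mul`: `op (n * m) F = op m (op n F)` (`op_op`) and `nn_op_le`.
* `mx_sq`: choose `s = Finset.image j univ`, bound `‖op (m (j x)) F x‖² ≤ ∑_{i ∈ s}` and
  use `sum_nn_op_le`.
-/

set_option autoImplicit false
set_option linter.unusedSectionVars false

open Finset

namespace Pool.Agent.Lib.Pf720mp

variable {I : Type} [Fintype I] [DecidableEq I] {L : ℕ} [NeZero L] {J J' : Type}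

section aux

variable {X : Type} [Fintype X]

/-- the `ℓ²` norm -/
noncomputable def l2n (u : X → ℂ) : ℝ := Real.sqrt (∑ x, ‖u x‖ ^ 2)

lemma l2n_eq (u : X → ℂ) : l2n u = ‖(WithLp.toLp 2 u : EuclideanSpace ℂ X)‖ := by
  rw [EuclideanSpace.norm_eq]
  rfl

lemma l2n_add_le (u v : X → ℂ) : l2n (fun x => u x + v x) ≤ l2n u + l2n v := by
  rw [l2n_eq, l2n_eq, l2n_eq]
  have h := norm_add_le (WithLp.toLp 2 u : EuclideanSpace ℂ X) (WithLp.toLp 2 v)
  rw [← WithLp.toLp_add] at h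
  exact h

lemma sq_le_iff_l2n {u : X → ℂ} {B n : ℝ} (hB : 0 ≤ B) (hn : 0 ≤ n) :
    ∑ x, ‖u x‖ ^ 2 ≤ B ^ 2 * n ↔ l2n u ≤ B * Real.sqrt n := by
  have h0 : 0 ≤ ∑ x, ‖u x‖ ^ 2 := Finset.sum_nonneg fun _ _ => sq_nonneg _
  have h1 : Real.sqrt (B ^ 2 * n) = B * Real.sqrt n := by
    rw [Real.sqrt_mul (sq_nonneg B), Real.sqrt_sq hB]
  rw [← h1]
  unfold l2n
  exact (Real.sqrt_le_sqrt_iff (by positivity)).symm

end aux

theorem mx_mono {S : Set J} {m : J → (I → ZMod L) → ℂ} {B B' : ℝ} (h : MxLe S m B) (h0 : 0 ≤ B)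
    (hB : B ≤ B') : MxLe S m B' := by
  intro F j hj
  exact (h F j hj).trans
    (mul_le_mul_of_nonneg_right (pow_le_pow_left₀ h0 hB 2) (nn_nonneg F))

theorem mx_subset {S S' : Set J} {m : J → (I → ZMod L) → ℂ} {B : ℝ} (h : MxLe S m B)
    (hS : S' ⊆ S) : MxLe S' m B :=
  fun F j hj => h F j fun x => hS (hj x)

theorem mx_congr {S : Set J} {m m' : J → (I → ZMod L) → ℂ} {B : ℝ} (h : MxLe S m B)
    (hm : ∀ j ∈ S, ∀ a, m' j a = m j a) : MxLe S m' B := by
  intro F j hj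
  have h1 : ∀ x, m' (j x) = m (j x) := fun x => funext (hm _ (hj x))
  simp only [h1]
  exact h F j hj

theorem mx_reindex {S : Set J} {S' : Set J'} {m : J → (I → ZMod L) → ℂ} {B : ℝ} (h : MxLe S m B)
    (g : J' → J) (hg : ∀ j ∈ S', g j ∈ S) : MxLe S' (fun j => m (g j)) B :=
  fun F j hj => h F (fun x => g (j x)) fun x => hg _ (hj x)

theorem mx_add {S : Set J} {m m' : J → (I → ZMod L) → ℂ} {B B' : ℝ} (h : MxLe S m B)
    (h' : MxLe S m' B') (hB : 0 ≤ B) (hB' : 0 ≤ B') :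
    MxLe S (fun j a => m j a + m' j a) (B + B') := by
  intro F j hj
  have h1 := (sq_le_iff_l2n hB (nn_nonneg F)).1 (h F j hj)
  have h2 := (sq_le_iff_l2n hB' (nn_nonneg F)).1 (h' F j hj)
  refine (sq_le_iff_l2n (add_nonneg hB hB') (nn_nonneg F)).2 ?_
  have h3 : (fun x => op (fun a => m (j x) a + m' (j x) a) F x) =
      fun x => op (m (j x)) F x + op (m' (j x)) F x := funext fun x => op_add _ _ _ _
  rw [h3, add_mul]
  exact (l2n_add_le _ _).trans (add_le_add h1 h2)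

theorem mx_smul {S : Set J} {m : J → (I → ZMod L) → ℂ} {B : ℝ} (h : MxLe S m B) (hB : 0 ≤ B)
    (c : ℂ) : MxLe S (fun j a => c * m j a) (‖c‖ * B) := by
  intro F j hj
  simp only [op_smul, norm_mul, mul_pow]
  rw [← Finset.mul_sum, mul_assoc]
  exact mul_le_mul_of_nonneg_left (h F j hj) (sq_nonneg _)

theorem mx_sub {S : Set J} {m m' : J → (I → ZMod L) → ℂ} {B B' : ℝ} (h : MxLe S m B)
    (h' : MxLe S m' B') (hB : 0 ≤ B) (hB' : 0 ≤ B') :
    MxLe S (fun j a => m j a - m' j a) (B + B') := by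
  have h1 := mx_smul h' hB' (-1)
  rw [norm_neg, norm_one, one_mul] at h1
  refine mx_congr (mx_add h h1 hB hB') fun j _ a => ?_
  ring

theorem mx_sum {κ : Type} (s : Finset κ) {S : Set J} {m : κ → J → (I → ZMod L) → ℂ} {B : κ → ℝ}
    (hB : ∀ i ∈ s, 0 ≤ B i) (h : ∀ i ∈ s, MxLe S (m i) (B i)) :
    MxLe S (fun j a => ∑ i ∈ s, m i j a) (∑ i ∈ s, B i) := by
  classical
  induction s using Finset.induction_on with
  | empty =>
    intro F j hj
    simp [op]
  | insert i s hi ih =>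
    have h1 := ih (fun l hl => hB l (Finset.mem_insert_of_mem hl))
      fun l hl => h l (Finset.mem_insert_of_mem hl)
    rw [Finset.sum_insert hi]
    refine mx_congr (mx_add (h i (Finset.mem_insert_self i s)) h1
      (hB i (Finset.mem_insert_self i s))
      (Finset.sum_nonneg fun l hl => hB l (Finset.mem_insert_of_mem hl))) fun j _ a => ?_
    rw [Finset.sum_insert hi]

theorem mx_mul {S : Set J} {m : J → (I → ZMod L) → ℂ} {B A : ℝ} (h : MxLe S m B) (hB : 0 ≤ B)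
    {n : (I → ZMod L) → ℂ} (hA : 0 ≤ A) (hn : ∀ a, ‖n a‖ ≤ A) :
    MxLe S (fun j a => n a * m j a) (A * B) := by
  intro F j hj
  have h1 : ∀ x, op (fun a => n a * m (j x) a) F x = op (m (j x)) (op n F) x := by
    intro x
    rw [op_op]
    congr 1
    funext a
    exact mul_comm _ _
  simp only [h1]
  refine (h (op n F) j hj).trans ?_
  calc B ^ 2 * nn (op n F) ≤ B ^ 2 * (A ^ 2 * nn F) :=
        mul_le_mul_of_nonneg_left (nn_op_le n hn F) (sq_nonneg _)
    _ = (A * B) ^ 2 * nn F := by ring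

/-- averages over a finite set -/
theorem mx_avg {κ : Type} (s : Finset κ) {S : Set J} {m : κ → J → (I → ZMod L) → ℂ} {B : ℝ}
    (hB : 0 ≤ B) (h : ∀ i ∈ s, MxLe S (m i) B) :
    MxLe S (fun j a => ((s.card : ℂ))⁻¹ * ∑ i ∈ s, m i j a) B := by
  have h1 := mx_smul (mx_sum s (B := fun _ => B) (fun _ _ => hB) h)
    (Finset.sum_nonneg fun _ _ => hB) ((s.card : ℂ))⁻¹
  refine mx_mono h1 (mul_nonneg (norm_nonneg _) (Finset.sum_nonneg fun _ _ => hB)) ?_
  rw [Finset.sum_const, nsmul_eq_mul, norm_inv, Complex.norm_natCast, ← mul_assoc]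
  exact mul_le_of_le_one_left hB inv_mul_le_one

/-- square functions -/
theorem mx_sq {S : Set J} {m : J → (I → ZMod L) → ℂ} {B : ℝ}
    (h : ∀ s : Finset J, (∀ j ∈ s, j ∈ S) → ∀ a, ∑ j ∈ s, ‖m j a‖ ^ 2 ≤ B ^ 2) : MxLe S m B := by
  classical
  intro F j hj
  set s : Finset J := Finset.univ.image j with hs
  have h1 : ∀ i ∈ s, i ∈ S := by
    intro i hi
    obtain ⟨x, _, rfl⟩ := Finset.mem_image.1 hi
    exact hj x
  calc ∑ x, ‖op (m (j x)) F x‖ ^ 2 ≤ ∑ x, ∑ i ∈ s, ‖op (m i) F x‖ ^ 2 :=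
        Finset.sum_le_sum fun x _ => Finset.single_le_sum
          (f := fun i => ‖op (m i) F x‖ ^ 2) (fun _ _ => sq_nonneg _)
          (Finset.mem_image_of_mem j (Finset.mem_univ x))
    _ = ∑ i ∈ s, nn (op (m i) F) := Finset.sum_comm
    _ ≤ B ^ 2 * nn F := sum_nn_op_le s m (h s h1) F

/-- one multiplier -/
theorem mx_const {S : Set J} {m : J → (I → ZMod L) → ℂ} {B : ℝ} {n : (I → ZMod L) → ℂ}
    (hm : ∀ j ∈ S, ∀ a, m j a = n a) (hB : ∀ a, ‖n a‖ ≤ B) : MxLe S m B := by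
  intro F j hj
  have h1 : ∀ x, m (j x) = n := fun x => funext (hm _ (hj x))
  simp only [h1]
  exact nn_op_le n hB F

end Pool.Agent.Lib.Pf720mp
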