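import Pool.Agent.Lib.Pf720mp.OscD

/-!
# Oscillation inequalities imply convergence of nets

`net_conv`: as `Pool.Agent.Lib.Pf720ae.Poly.ae_cauchy_of_osc` (file Osc/Conv.lean):
`S N x = sup_{j, ∀ l, N ≤ j l} ‖a j x - c N x‖ₑ ^ 2` is the increasing limit over `N'` of the suprema
over the finite boxes `[N, N')^ι`; if `∫ S N > η` for all `N`, choose `σ` inductively with
`∫ sup_{blk σ i} > η` and contradict `hosc` for `ε = η / 2`. So `inf_N ∫ S N = 0` and `inf_N S N = 0` a.e.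
-/

set_option autoImplicit false
set_option linter.unusedSectionVars false

open Finset MeasureTheory Filter Topology
open scoped ENNReal NNReal

namespace Pool.Agent.Lib.Pf720mp

variable {ι : Type} [Fintype ι] [DecidableEq ι] {D : ℕ} {X : Type} [MeasurableSpace X]
  {μ : Measure X}

/-- measurability of finite suprema -/
lemma net_measurable_fsup {κ : Type} (s : Finset κ) {g : κ → X → ℝ≥0∞}
    (hg : ∀ j, Measurable (g j)) : Measurable fun x => s.sup fun j => g j x := by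
  classical
  induction s using Finset.induction_on with
  | empty => simp
  | insert j s _ ih =>
    simp only [Finset.sup_insert]
    exact (hg j).max ih

theorem net_conv {a : (ι → ℕ) → X → ℂ} {c : ℕ → X → ℂ} (ha : ∀ j, Measurable (a j))
    (hc : ∀ N, Measurable (c N))
    (hosc : ∀ ε : ℝ≥0, 0 < ε → ∃ J : ℕ, 0 < J ∧ ∀ σ : ℕ → ℕ, StrictMono σ →
      ∑ i ∈ range J, ∫⁻ x, ((blk ι σ i).sup fun j => ‖a j x - c (σ i) x‖ₑ ^ 2) ∂μ ≤ ε * J) :
    ∀ᵐ x ∂μ, ∀ ε : ℝ, 0 < ε → ∃ N : ℕ, ∀ j : ι → ℕ, (∀ l, N ≤ j l) → ‖a j x - c N x‖ < ε := by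
  set b : ℕ → ℕ → X → ℝ≥0∞ := fun N M x =>
    (Fintype.piFinset fun _ : ι => Ico N M).sup fun j => ‖a j x - c N x‖ₑ ^ 2 with hb
  have hbm : ∀ N M, Measurable (b N M) := fun N M =>
    net_measurable_fsup _ fun j => ((ha j).sub (hc N)).enorm.pow_const 2
  have hbmono : ∀ N x, Monotone fun M => b N M x := fun N x M M' h =>
    Finset.sup_mono (Fintype.piFinset_subset _ _ fun _ => Finset.Ico_subset_Ico_right h)
  set S : ℕ → X → ℝ≥0∞ := fun N x => ⨆ M, b N M x with hS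
  have hSm : ∀ N, Measurable (S N) := fun N => Measurable.iSup fun M => hbm N M
  have hSint : ∀ N, ∫⁻ x, S N x ∂μ = ⨆ M, ∫⁻ x, b N M x ∂μ := fun N =>
    lintegral_iSup (fun M => hbm N M) (fun M M' h x => hbmono N x h)
  have hsmall : ∀ η : ℝ≥0, 0 < η → ∃ N, ∫⁻ x, S N x ∂μ ≤ η := by
    intro η hη
    by_contra hcon
    push Not at hcon
    have h1 : ∀ N, ∃ M, N < M ∧ (η : ℝ≥0∞) < ∫⁻ x, b N M x ∂μ := by
      intro N
      have h2 := hcon N
      rw [hSint N] at h2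
      obtain ⟨M, hM⟩ := lt_iSup_iff.1 h2
      refine ⟨max M (N + 1), lt_of_lt_of_le (Nat.lt_succ_self N) (le_max_right _ _),
        lt_of_lt_of_le hM ?_⟩
      exact lintegral_mono fun x => hbmono N x (le_max_left _ _)
    choose M hM1 hM2 using h1
    set σ : ℕ → ℕ := fun i => Nat.rec 0 (fun _ s => M s) i with hσ
    have hσs : ∀ i, σ (i + 1) = M (σ i) := fun i => rfl
    have hσm : StrictMono σ := strictMono_nat_of_lt_succ fun i => by
      rw [hσs]; exact hM1 _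
    obtain ⟨J, hJ, hle⟩ := hosc (η / 2) (by positivity)
    have h2 := hle σ hσm
    have h3 : (η : ℝ≥0∞) * J ≤ ∑ i ∈ range J,
        ∫⁻ x, ((blk ι σ i).sup fun j => ‖a j x - c (σ i) x‖ₑ ^ 2) ∂μ := by
      have h4 : ∀ i ∈ range J, (η : ℝ≥0∞) ≤
          ∫⁻ x, ((blk ι σ i).sup fun j => ‖a j x - c (σ i) x‖ₑ ^ 2) ∂μ := by
        intro i _
        have h5 : blk ι σ i = Fintype.piFinset fun _ : ι => Ico (σ i) (M (σ i)) := by
          unfold blk; rw [hσs i]
        rw [h5]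
        exact (hM2 (σ i)).le
      have h5 := Finset.sum_le_sum h4
      rw [Finset.sum_const, Finset.card_range, nsmul_eq_mul] at h5
      rw [mul_comm]
      exact h5
    have h4 : (η : ℝ≥0∞) * J ≤ (η / 2 : ℝ≥0) * J := h3.trans h2
    have h5 : (η * J : ℝ≥0) ≤ (η / 2) * J := by exact_mod_cast h4
    have h6 : (0 : ℝ≥0) < J := Nat.cast_pos.2 hJ
    have h7 : η ≤ η / 2 := le_of_mul_le_mul_right h5 h6
    have h8 : η / 2 < η := NNReal.half_lt_self hη.ne'
    exact absurd h7 (not_le.2 h8)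
  have hinf : ∫⁻ x, ⨅ N, S N x ∂μ = 0 := by
    refine le_antisymm (ENNReal.le_of_forall_pos_le_add fun η hη _ => ?_) zero_le
    obtain ⟨N, hN⟩ := hsmall η hη
    rw [zero_add]
    exact (lintegral_mono fun x => iInf_le _ N).trans hN
  rw [lintegral_eq_zero_iff (Measurable.iInf hSm)] at hinf
  filter_upwards [hinf] with x hx
  intro ε hε
  have h1 : ⨅ N, S N x < (ENNReal.ofReal ε) ^ 2 := by
    have h2 : (⨅ N, S N x) = 0 := hx
    rw [h2]
    have : 0 < ENNReal.ofReal ε := ENNReal.ofReal_pos.2 hε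
    positivity
  obtain ⟨N, hN⟩ := iInf_lt_iff.1 h1
  refine ⟨N, fun j hj => ?_⟩
  have h2 : ‖a j x - c N x‖ₑ ^ 2 ≤ S N x := by
    have h3 : ‖a j x - c N x‖ₑ ^ 2 ≤ b N (∑ l, j l + 1) x :=
      Finset.le_sup (f := fun j => ‖a j x - c N x‖ₑ ^ 2)
        (Fintype.mem_piFinset.2 fun l => Finset.mem_Ico.2 ⟨hj l, Nat.lt_succ_of_le
          (Finset.single_le_sum (f := j) (fun _ _ => Nat.zero_le _) (Finset.mem_univ l))⟩)
    exact h3.trans (le_iSup (fun M => b N M x) (∑ l, j l + 1))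
  have h3 := lt_of_le_of_lt h2 hN
  have h4 : ‖a j x - c N x‖ₑ < ENNReal.ofReal ε := by
    by_contra hcon
    exact absurd h3 (not_lt.2 (pow_le_pow_left' (not_lt.1 hcon) 2))
  rw [← ofReal_norm] at h4
  exact (ENNReal.ofReal_lt_ofReal_iff hε).1 h4

end Pool.Agent.Lib.Pf720mp
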