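import Pool.Agent.Lib.Pf720mp.KkB
import Pool.Agent.Lib.Pf720mp.MxB

/-!
# The main terms near their rational points

`EE V K t T T' j θ`: difference of the main term at `θ` and at the rational point near `θ`, cut off to
`|2 ^ tau (θ γ - β γ)| ≤ 2 ^ (-T')`.

`EE_str`. `inv`: the cutoff condition depends only on the numbers `2 ^ tau (θ γ - β)` where the `β` are
the given ones (a rational of height `2 ^ T` with `|2 ^ tau (θ γ - β)| ≤ 2 ^ T`, `tau ≥ 6 T`, is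
`nr T (θ γ)`, `nr_eq`); both terms are invariant by `KK_inv` (first as in `KK_str`; second with both
sides at the point `β`). `supp` clear. `lip`: let `|u| ≤ 1`, `u = 2 ^ tau (θ γ - β)`. If the cutoff
condition holds at `θ` it holds at `update θ γ β`, the second terms agree, and `KK_lip` gives
`≤ 2 ^ c |u|` (`8 mon (res V K) γ ≤ 2 ^ c`); if it fails at `θ` only because of `γ`, then
`|u| > 2 ^ (-T')`, and the value at `update θ γ β` is at most `2 ^ c 2 ^ (-T')` (`KK_lip`;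
`c` such that `8 ∑_γ mon (res V K) γ ≤ 2 ^ c`) `≤ 2 ^ c |u|`; if it fails at both the difference is `0`.
`EE_mx`: `struct_max` with `A = Λ 2 ^ (-T')`, `Λ = 2 ^ c₁` (`c₁` the constant of `EE_str`),
`T = T' + t + c`, `c ≥ c₁ + 1`; `T ^ n 2 ^ (-T') → 0` as `T' → ∞` for fixed `t, c`.
-/

set_option autoImplicit false
set_option linter.unusedSectionVars false

open Finset Filter Topology

namespace Pool.Agent.Lib.Pf720mp

variable {ι : Type} [Fintype ι] [DecidableEq ι] {D : ℕ}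

/-- rational point near `θ` -/
noncomputable def ZZ (V : Finset ι) (T : ℕ) (θ : Ex ι D → ℝ) : Ex ι D → ℝ :=
  fun γ => if γ ∈ (GV V : Finset (Ex ι D)) then (nr T (θ γ) : ℝ) else θ γ

open Classical in
noncomputable def EE (V : Finset ι) (K : ι → ℕ) (t T T' : ℕ) (j : ι → ℕ) (θ : Ex ι D → ℝ) : ℂ :=
  if ∀ γ ∈ (GV V : Finset (Ex ι D)), ∃ β : ℚ, β.den ≤ 2 ^ T ∧
      |(2 : ℝ) ^ tau j γ * (θ γ - β)| ≤ (1 / 2) ^ T' then
    KK V t (res V (Mj K j)) θ - KK V t (res V (Mj K j)) (ZZ V T θ) else 0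

namespace OscA

/-- a point of size at most `2 ^ T` at the scale `τ ≥ 6 T` is near -/
lemma abs_sub_le {T τ : ℕ} (hτ : 6 * T ≤ τ) {x y : ℝ} (h : |(2 : ℝ) ^ τ * (x - y)| ≤ 2 ^ T) :
    |x - y| ≤ (1 / 2) ^ (5 * T) := by
  rw [abs_mul, abs_of_pos (by positivity : (0 : ℝ) < 2 ^ τ)] at h
  have h1 : (2 : ℝ) ^ (6 * T) * |x - y| ≤ 2 ^ T :=
    (mul_le_mul_of_nonneg_right (pow_le_pow_right₀ one_le_two hτ) (abs_nonneg _)).trans h
  have h2 : (2 : ℝ) ^ (6 * T) = 2 ^ T * 2 ^ (5 * T) := by rw [← pow_add]; congr 1; ring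
  rw [h2, mul_assoc] at h1
  have h3 : (2 : ℝ) ^ (5 * T) * |x - y| ≤ 1 := by
    by_contra hcon
    push Not at hcon
    have : (2 : ℝ) ^ T * 1 < 2 ^ T * (2 ^ (5 * T) * |x - y|) :=
      mul_lt_mul_of_pos_left hcon (by positivity)
    linarith
  rw [one_div, inv_pow, ← one_div, le_div_iff₀ (by positivity), mul_comm]
  exact h3

lemma half_pow_lt {a b : ℕ} (h : a < b) : (1 / 2 : ℝ) ^ b < (1 / 2) ^ a :=
  pow_lt_pow_right_of_lt_one₀ (by norm_num) (by norm_num) h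

lemma half_pow_le {a b : ℕ} (h : a ≤ b) : (1 / 2 : ℝ) ^ b ≤ (1 / 2) ^ a :=
  pow_le_pow_of_le_one (by norm_num) (by norm_num) h

lemma nr_of {T τ : ℕ} (hT : 1 ≤ T) (hτ : 6 * T ≤ τ) {x : ℝ} {β : ℚ} (hβ : β.den ≤ 2 ^ T)
    (h : |(2 : ℝ) ^ τ * (x - β)| ≤ 2 ^ T) : nr T x = β :=
  nr_eq hβ (lt_of_le_of_lt (abs_sub_le hτ h) (half_pow_lt (by omega)))

lemma near_of {T τ : ℕ} (hT : 1 ≤ T) (hτ : 6 * T ≤ τ) {x : ℝ} {β : ℚ} (hβ : β.den ≤ 2 ^ T)
    (h : |(2 : ℝ) ^ τ * (x - β)| ≤ 2 ^ T) : Near T x :=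
  ⟨β, hβ, lt_of_le_of_lt (abs_sub_le hτ h) (half_pow_lt (by omega))⟩

lemma half_le_two (T T' : ℕ) : (1 / 2 : ℝ) ^ T' ≤ 2 ^ T :=
  (pow_le_one₀ (by norm_num) (by norm_num)).trans (one_le_pow₀ one_le_two)

end OscA

open OscA

/-- cutoff condition -/
def CC (V : Finset ι) (T T' : ℕ) (j : ι → ℕ) (θ : Ex ι D → ℝ) : Prop :=
  ∀ γ ∈ (GV V : Finset (Ex ι D)), ∃ β : ℚ, β.den ≤ 2 ^ T ∧
      |(2 : ℝ) ^ tau j γ * (θ γ - β)| ≤ (1 / 2) ^ T'

lemma EE_of {V : Finset ι} {K : ι → ℕ} {t T T' : ℕ} {j : ι → ℕ} {θ : Ex ι D → ℝ}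
    (h : CC V T T' j θ) : EE V K t T T' j θ =
      KK V t (res V (Mj K j)) θ - KK V t (res V (Mj K j)) (ZZ V T θ) := if_pos h

lemma EE_not {V : Finset ι} {K : ι → ℕ} {t T T' : ℕ} {j : ι → ℕ} {θ : Ex ι D → ℝ}
    (h : ¬ CC V T T' j θ) : EE V K t T T' j θ = 0 := if_neg h

/-- a common constant -/
lemma exists_c (V : Finset ι) (K : ι → ℕ) : ∃ c : ℕ,
    8 * ∑ γ ∈ (GV V : Finset (Ex ι D)), (mon (res V K) γ : ℝ) ≤ 2 ^ c := by
  obtain ⟨c, hc⟩ := pow_unbounded_of_one_lt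
    (8 * ∑ γ ∈ (GV V : Finset (Ex ι D)), (mon (res V K) γ : ℝ)) (one_lt_two)
  exact ⟨c, hc.le⟩

lemma sep_of {V : Finset ι} {K : ι → ℕ} (hK : ∀ l, 0 < K l) {T n : ℕ} {j : ι → ℕ}
    (hj : ∀ l ∈ V, 6 * T ≤ j l) (hn : n ≤ 6 * T) {γ : Ex ι D}
    (hγ : γ ∈ (GV V : Finset (Ex ι D))) : 2 ^ n ≤ mon (res V (Mj K j)) γ := by
  rw [mon_res_Mj V K j hγ]
  calc 2 ^ n ≤ 2 ^ tau j γ := Nat.pow_le_pow_right (by norm_num) (hn.trans (le_tau V hj hγ))
    _ = 1 * 2 ^ tau j γ := (one_mul _).symm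
    _ ≤ mon (res V K) γ * 2 ^ tau j γ :=
      Nat.mul_le_mul_right _ (mon_pos (res_pos fun l _ => hK l) γ)

lemma EE_amp {V : Finset ι} {K : ι → ℕ} (hK : ∀ l, 0 < K l) {t T T' c : ℕ} (hT : t + 1 ≤ T)
    (hc : 8 * ∑ γ ∈ (GV V : Finset (Ex ι D)), (mon (res V K) γ : ℝ) ≤ 2 ^ c)
    {j : ι → ℕ} (hj : ∀ l ∈ V, 6 * T ≤ j l) (θ : Ex ι D → ℝ) :
    ‖EE V K t T T' j θ‖ ≤ 2 ^ c * (1 / 2) ^ T' := by
  by_cases h : CC V T T' j θ
  · rw [EE_of h]
    refine (KK_lip (fun γ hγ => sep_of hK hj (by omega) hγ) _ _).trans ?_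
    have h0 : |θ 0 - ZZ V T θ 0| = 0 := by
      unfold ZZ
      rw [if_neg (zero_notMem_GV V)]
      simp
    rw [h0, zero_add]
    refine le_trans ?_ (mul_le_mul_of_nonneg_right hc (by positivity))
    rw [mul_assoc, Finset.sum_mul]
    refine mul_le_mul_of_nonneg_left (Finset.sum_le_sum fun γ hγ => ?_) (by norm_num)
    rw [mon_res_Mj V K j hγ]
    push_cast
    rw [mul_assoc]
    refine mul_le_mul_of_nonneg_left ?_ (Nat.cast_nonneg _)
    obtain ⟨β, hβ, hb⟩ := h γ hγ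
    have h1 : nr T (θ γ) = β :=
      nr_of (by omega) (le_tau V hj hγ) hβ (hb.trans (half_le_two _ _))
    unfold ZZ
    rw [if_pos hγ, h1]
    rwa [abs_mul, abs_of_pos (by positivity : (0 : ℝ) < 2 ^ tau j γ)] at hb
  · rw [EE_not h, norm_zero]
    positivity

theorem EE_str (V : Finset ι) (K : ι → ℕ) (hK : ∀ l, 0 < K l) : ∃ c : ℕ, ∀ t T T' : ℕ,
    t + T' + c + 1 ≤ T → Str (GV V : Finset (Ex ι D)) T {j : ι → ℕ | ∀ l ∈ V, 6 * T ≤ j l} tau
      ((2 : ℝ) ^ c) (EE V K t T T') ∧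
      ∀ j : ι → ℕ, (∀ l ∈ V, 6 * T ≤ j l) → ∀ θ : Ex ι D → ℝ,
        ‖EE V K t T T' j θ‖ ≤ 2 ^ c * (1 / 2) ^ T' := by
  obtain ⟨c, hc⟩ := exists_c (D := D) V K
  refine ⟨c, fun t T T' hT => ⟨⟨?_, ?_, ?_⟩, fun j hj θ => EE_amp hK (by omega) hc hj θ⟩⟩
  · -- invariance
    intro j hj j' hj' θ θ' h0 h1
    have hCC : ∀ {j j' : ι → ℕ} {θ θ' : Ex ι D → ℝ}, (∀ l ∈ V, 6 * T ≤ j l) →
        (∀ γ ∈ (GV V : Finset (Ex ι D)), ∃ β : ℚ, β.den ≤ 2 ^ T ∧
          (2 : ℝ) ^ tau j γ * (θ γ - β) = (2 : ℝ) ^ tau j' γ * (θ' γ - β) ∧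
          |(2 : ℝ) ^ tau j γ * (θ γ - β)| ≤ 2 ^ T) → CC V T T' j θ → CC V T T' j' θ' := by
      intro j j' θ θ' hj h1 h γ hγ
      obtain ⟨β, hβ, he, hb⟩ := h1 γ hγ
      obtain ⟨β', hβ', hb'⟩ := h γ hγ
      have e1 := nr_of (by omega) (le_tau V hj hγ) hβ hb
      have e2 := nr_of (by omega) (le_tau V hj hγ) hβ' (hb'.trans (half_le_two _ _))
      have e3 : β = β' := e1.symm.trans e2
      refine ⟨β, hβ, ?_⟩
      rw [← he, e3]
      exact hb'
    have hiff : CC V T T' j θ ↔ CC V T T' j' θ' := by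
      refine ⟨hCC hj h1, hCC hj' fun γ hγ => ?_⟩
      obtain ⟨β, hβ, he, hb⟩ := h1 γ hγ
      exact ⟨β, hβ, he.symm, he ▸ hb⟩
    by_cases h : CC V T T' j θ
    · rw [EE_of h, EE_of (hiff.1 h)]
      congr 1
      · refine KK_inv (T := T) (h0 0 (zero_notMem_GV V)) fun γ hγ => Or.inr ?_
        obtain ⟨β, hβ, he, hb⟩ := h1 γ hγ
        have hle : (1 / 2 : ℝ) ^ (5 * T) ≤ (1 / 2) ^ (t + T + 2) := half_pow_le (by omega)
        refine ⟨β, hβ, ?_, (abs_sub_le (le_tau V hj hγ) hb).trans hle,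
          (abs_sub_le (le_tau V hj' hγ) (he ▸ hb)).trans hle, sep_of hK hj (by omega) hγ,
          sep_of hK hj' (by omega) hγ⟩
        rw [mon_res_Mj V K j hγ, mon_res_Mj V K j' hγ]
        push_cast
        rw [mul_assoc, he, mul_assoc]
      · refine KK_inv (T := T) ?_ fun γ hγ => Or.inr ?_
        · unfold ZZ
          rw [if_neg (zero_notMem_GV V), if_neg (zero_notMem_GV V)]
          exact h0 0 (zero_notMem_GV V)
        · obtain ⟨β, hβ, he, hb⟩ := h1 γ hγ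
          have e1 := nr_of (by omega) (le_tau V hj hγ) hβ hb
          have e2 := nr_of (by omega) (le_tau V hj' hγ) hβ (he ▸ hb)
          have z1 : ZZ V T θ γ = β := by unfold ZZ; rw [if_pos hγ, e1]
          have z2 : ZZ V T θ' γ = β := by unfold ZZ; rw [if_pos hγ, e2]
          rw [z1, z2]
          refine ⟨β, hβ, by simp, by simp, by simp, sep_of hK hj (by omega) hγ,
            sep_of hK hj' (by omega) hγ⟩
    · rw [EE_not h, EE_not fun h' => h (hiff.2 h')]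
  · -- support
    intro j hj θ h γ hγ
    have h1 : CC V T T' j θ := by
      by_contra hcon
      exact h (EE_not hcon)
    obtain ⟨β, hβ, hb⟩ := h1 γ hγ
    exact ⟨β, hβ, hb.trans (half_le_two _ _)⟩
  · -- Lipschitz
    intro j hj θ γ hγ β hβ hb
    have hsing : 8 * (mon (res V K) γ : ℝ) ≤ 2 ^ c := by
      refine le_trans ?_ hc
      refine mul_le_mul_of_nonneg_left ?_ (by norm_num)
      exact Finset.single_le_sum (f := fun γ => (mon (res V K) γ : ℝ))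
        (fun _ _ => Nat.cast_nonneg _) hγ
    have h1T : (1 : ℝ) ≤ 2 ^ T := one_le_pow₀ one_le_two
    have hnr : nr T (θ γ) = β := nr_of (by omega) (le_tau V hj hγ) hβ (hb.trans h1T)
    have hnr' : nr T ((β : ℝ)) = β :=
      nr_of (by omega) (le_tau V hj hγ) hβ (by simp)
    by_cases h : CC V T T' j θ
    · have h' : CC V T T' j (Function.update θ γ (β : ℝ)) := by
        intro γ' hγ'
        by_cases e : γ' = γ
        · subst e
          refine ⟨β, hβ, ?_⟩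
          simp
        · rw [Function.update_of_ne e]
          exact h γ' hγ'
      rw [EE_of h, EE_of h']
      have hZ : ZZ V T (Function.update θ γ (β : ℝ)) = ZZ V T θ := by
        funext γ'
        unfold ZZ
        by_cases e : γ' = γ
        · subst e
          rw [if_pos hγ, if_pos hγ, Function.update_self, hnr, hnr']
        · rw [Function.update_of_ne e]
      rw [hZ, sub_sub_sub_cancel_right]
      refine (KK_lip (fun γ hγ => sep_of hK hj (by omega) hγ) _ _).trans ?_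
      have hne : (0 : Ex ι D) ≠ γ := fun e => zero_notMem_GV V (e ▸ hγ)
      rw [Function.update_of_ne hne, sub_self, abs_zero, zero_add,
        Finset.sum_eq_single_of_mem γ hγ]
      · rw [Function.update_self, mon_res_Mj V K j hγ]
        push_cast
        rw [abs_mul, abs_of_pos (by positivity : (0 : ℝ) < 2 ^ tau j γ), ← mul_assoc, ← mul_assoc,
          ← mul_assoc]
        exact mul_le_mul_of_nonneg_right (mul_le_mul_of_nonneg_right hsing (by positivity))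
          (abs_nonneg _)
      · intro γ' _ e
        rw [Function.update_of_ne e, sub_self, abs_zero, mul_zero]
    · rw [EE_not h, zero_sub, norm_neg]
      by_cases h' : CC V T T' j (Function.update θ γ (β : ℝ))
      · have hlt : (1 / 2 : ℝ) ^ T' < |(2 : ℝ) ^ tau j γ * (θ γ - β)| := by
          by_contra hcon
          push Not at hcon
          apply h
          intro γ' hγ'
          by_cases e : γ' = γ
          · subst e
            exact ⟨β, hβ, hcon⟩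
          · have := h' γ' hγ'
            rwa [Function.update_of_ne e] at this
        exact (EE_amp hK (by omega) hc hj _).trans
          (mul_le_mul_of_nonneg_left hlt.le (by positivity))
      · rw [EE_not h', norm_zero]
        positivity

theorem EE_mx (V : Finset ι) (K : ι → ℕ) (hK : ∀ l, 0 < K l) (t : ℕ) {ε : ℝ} (hε : 0 < ε) :
    ∃ c₀ : ℕ, ∀ c : ℕ, c₀ ≤ c → ∃ T₀ : ℕ, ∀ T' : ℕ, T₀ ≤ T' → ∀ (L : ℕ) [NeZero L],
      MxLe {j : ι → ℕ | ∀ l ∈ V, 6 * (T' + t + c) ≤ j l}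
        (fun j (a : Ex ι D → ZMod L) => EE V K t (T' + t + c) T' j (fq a)) ε := by
  obtain ⟨c₁, hc₁⟩ := EE_str (D := D) V K hK
  obtain ⟨C, hC, hmax⟩ := struct_max (GV V : Finset (Ex ι D))
  refine ⟨c₁ + 1, fun c hc => ?_⟩
  set n := (GV V : Finset (Ex ι D)).card with hn
  have hlim : Tendsto (fun T' : ℕ => C * ((T' + t + c : ℕ) : ℝ) ^ n * (2 ^ c₁ * (1 / 2) ^ T'))
      atTop (𝓝 0) := by
    have h1 := tendsto_pow_const_mul_const_pow_of_abs_lt_one n (r := (1 / 2 : ℝ))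
      (by rw [abs_of_pos] <;> norm_num)
    have h2 : Tendsto (fun T' : ℕ => ((T' + (t + c) : ℕ) : ℝ) ^ n * (1 / 2 : ℝ) ^ (T' + (t + c)))
        atTop (𝓝 0) := (tendsto_add_atTop_iff_nat (t + c)).2 h1
    have h3 := h2.const_mul (C * 2 ^ c₁ * 2 ^ (t + c))
    rw [mul_zero] at h3
    refine h3.congr fun T' => ?_
    have h4 : (1 / 2 : ℝ) ^ (T' + (t + c)) = (1 / 2) ^ T' * (1 / 2) ^ (t + c) := pow_add _ _ _
    have h5 : (2 : ℝ) ^ (t + c) * (1 / 2) ^ (t + c) = 1 := by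
      rw [← mul_pow]; norm_num
    rw [h4, ← add_assoc]
    calc C * 2 ^ c₁ * 2 ^ (t + c) * (((T' + t + c : ℕ) : ℝ) ^ n * ((1 / 2) ^ T' * (1 / 2) ^ (t + c)))
        = C * ((T' + t + c : ℕ) : ℝ) ^ n * (2 ^ c₁ * (1 / 2) ^ T') *
          (2 ^ (t + c) * (1 / 2) ^ (t + c)) := by ring
      _ = _ := by rw [h5, mul_one]
  obtain ⟨T₀, hT₀⟩ := Filter.eventually_atTop.1 (hlim.eventually (ge_mem_nhds hε))
  refine ⟨T₀, fun T' hT' L _ => ?_⟩
  obtain ⟨hs, ha⟩ := hc₁ t (T' + t + c) T' (by omega)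
  have h1 := hmax L (T' + t + c) (by omega) (2 ^ c₁ * (1 / 2) ^ T') (2 ^ c₁) (by positivity) (by
    have h2 : (1 / 2 : ℝ) ^ T' * 2 ^ (2 * (T' + t + c)) = 2 ^ (T' + 2 * t + 2 * c) := by
      have e : 2 * (T' + t + c) = T' + (T' + 2 * t + 2 * c) := by ring
      rw [e, pow_add, ← mul_assoc, ← mul_pow]
      norm_num
    rw [mul_assoc, h2]
    exact le_mul_of_one_le_right (by positivity) (one_le_pow₀ one_le_two))
    (ι → ℕ) {j : ι → ℕ | ∀ l ∈ V, 6 * (T' + t + c) ≤ j l} tau (EE V K t (T' + t + c) T')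
    (fun j hj γ hγ => le_tau V hj hγ) hs (fun j hj θ => ha j hj θ)
  exact mx_mono h1 (by positivity) (hT₀ T' hT')

end Pool.Agent.Lib.Pf720mp
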