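import Pool.Agent.Lib.Pf720mp.OscA
import Pool.Agent.Lib.Pf720ae.Osc.Level

/-!
# Oscillation inequality for the main terms

Notation: `θ = fq a`, block `i` = the indices `j` with `σ i ≤ j l < σ (i+1)` for all `l`, reference
index the constant `σ i`, `D_{i,j} = KK V t (res V (Mj K j)) - KK V t (res V (Mj 1 (σ i)))`.
Let `c₀` be the maximum of the two constants of `EE_mx` (for `K` and for `1`), `c ≥ c₀` also so large
that `2 ^ c ≥ 4`, `T'` at least both `T₀` (for `ε' = sqrt (ε / 16)`, say) and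
`T = T' + t + c`, `N₀ = 6 T + C₁ (t + 1)` (`C₁` the constants of `KK_mx` for `K` and `1`).
If some `θ γ` (`γ ∈ GV V`) is not `Near T`, all `D_{i,j}` vanish at `θ` (a representing `b` is `nr T θ`).
Otherwise let `η γ = θ γ - nr T (θ γ)` and `x γ s = 2 ^ (s * ∑ l, γ l) |η γ|`, for which
`2 x γ s ≤ x γ (s+1)`; for `j` in block `i`, `x γ (σ i) ≤ 2 ^ tau j γ |η γ| ≤ x γ (σ (i+1))`. (Only
the coordinates of `j` in `V` matter for `γ ∈ GV V`.) Let `T'' = T + 2` and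
`mid i a := ∃ γ ∈ GV V, (1/2) ^ T'' < x γ (σ (i+1)) ∧ x γ (σ i) < 2 ^ T''`. By
`Pool.Agent.Lib.Pf720ae.Poly.count_mid` at most `(2 T'' + 1) card (GV V)` blocks `i < R` are `mid`.
If `i` is not `mid`: (A) if `x γ (σ i) ≥ 2 ^ T''` for some `γ`, then `D_{i,j} = 0` for `j` in the
block (`2 ^ T'' > 2 ^ (t+1)`); (B) otherwise `x γ (σ (i+1)) ≤ (1/2) ^ T'' ≤ (1/2) ^ T'` for all `γ`, and
`D_{i,j} = EE V K t T T' j θ - EE V 1 t T T' (σ i) θ`, since
`KK V t (res V (Mj K j)) (ZZ V T θ) = KK V t (res V (Mj 1 (σ i))) (ZZ V T θ)` (`KK_inv`).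
So `D_{i,j} = 1_mid D_{i,j} + 1_B (EE_K - EE_1)` and
`∑_{i<R} ∑_x ‖op (1_mid D_{i,j}) F‖² ≤ ∑_i B₀² nn (op 1_{mid i} F) ≤ B₀² (2 T'' + 1) card (GV V) nn F`
(`KK_mx` twice, `sum_nn_op_le`), `∑_{i<R} ∑_x ‖op (1_B (EE_K - EE_1)) F‖² ≤ R (2 ε')² nn F`.
-/

set_option autoImplicit false
set_option linter.unusedSectionVars false

open Finset Filter Topology

namespace Pool.Agent.Lib.Pf720mp

variable {ι : Type} [Fintype ι] [DecidableEq ι] {D : ℕ}

namespace OscB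

/-- relative size of the frequency -/
noncomputable def xs (T : ℕ) (θ : Ex ι D → ℝ) (γ : Ex ι D) (s : ℕ) : ℝ :=
  2 ^ (s * ∑ l, (γ l : ℕ)) * |θ γ - nr T (θ γ)|

lemma xs_nonneg (T : ℕ) (θ : Ex ι D → ℝ) (γ : Ex ι D) (s : ℕ) : 0 ≤ xs T θ γ s :=
  mul_nonneg (by positivity) (abs_nonneg _)

lemma one_le_sum {V : Finset ι} {γ : Ex ι D} (hγ : γ ∈ (GV V : Finset (Ex ι D))) :
    1 ≤ ∑ l, (γ l : ℕ) := by
  have h1 := (mem_GV.1 hγ).1
  by_contra hcon
  apply h1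
  have h2 : ∑ l, (γ l : ℕ) = 0 := by omega
  rw [Finset.sum_eq_zero_iff] at h2
  funext l
  exact Fin.ext (h2 l (Finset.mem_univ l))

lemma xs_two {V : Finset ι} {γ : Ex ι D} (hγ : γ ∈ (GV V : Finset (Ex ι D))) (T : ℕ)
    (θ : Ex ι D → ℝ) (s : ℕ) : 2 * xs T θ γ s ≤ xs T θ γ (s + 1) := by
  unfold xs
  rw [← mul_assoc]
  refine mul_le_mul_of_nonneg_right ?_ (abs_nonneg _)
  rw [← pow_succ']
  refine pow_le_pow_right₀ one_le_two ?_
  have := one_le_sum hγ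
  nlinarith

lemma le_of_block {T N : ℕ} {θ : Ex ι D → ℝ} {γ : Ex ι D} {j : ι → ℕ} (hj : ∀ l, N ≤ j l) :
    xs T θ γ N ≤ 2 ^ tau j γ * |θ γ - nr T (θ γ)| := by
  unfold xs
  refine mul_le_mul_of_nonneg_right ?_ (abs_nonneg _)
  refine pow_le_pow_right₀ one_le_two ?_
  unfold tau
  rw [Finset.mul_sum]
  exact Finset.sum_le_sum fun l _ => Nat.mul_le_mul_right _ (hj l)

lemma block_le {T N : ℕ} {θ : Ex ι D → ℝ} {γ : Ex ι D} {j : ι → ℕ} (hj : ∀ l, j l ≤ N) :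
    2 ^ tau j γ * |θ γ - nr T (θ γ)| ≤ xs T θ γ N := by
  unfold xs
  refine mul_le_mul_of_nonneg_right ?_ (abs_nonneg _)
  refine pow_le_pow_right₀ one_le_two ?_
  unfold tau
  rw [Finset.mul_sum]
  exact Finset.sum_le_sum fun l _ => Nat.mul_le_mul_right _ (hj l)

/-- high frequencies -/
lemma vanish {V : Finset ι} {K : ι → ℕ} (hK : ∀ l, 0 < K l) {t T : ℕ} (hT : t + 1 ≤ T)
    {j : ι → ℕ} (hj : ∀ l ∈ V, 6 * T ≤ j l) {θ : Ex ι D → ℝ} {γ : Ex ι D}
    (hγ : γ ∈ (GV V : Finset (Ex ι D))) (h : (2 : ℝ) ^ (T + 2) ≤ 2 ^ tau j γ * |θ γ - nr T (θ γ)|) :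
    KK V t (res V (Mj K j)) θ = 0 := by
  apply KK_of_not
  rintro ⟨b, _, ⟨q, hq, hqt, hn⟩, hb⟩
  obtain ⟨n, hn⟩ := hn γ
  have hden : (b γ).den ≤ 2 ^ T :=
    (den_le_of_mul_int hq hn).trans (hqt.trans (Nat.pow_le_pow_right (by norm_num) (by omega)))
  have h1 := hb γ hγ
  rw [mon_res_Mj V K j hγ] at h1
  push_cast at h1
  rw [mul_assoc, abs_mul, Nat.abs_cast] at h1
  have hK1 : (1 : ℝ) ≤ (mon (res V K) γ : ℝ) := by
    exact_mod_cast mon_pos (res_pos fun l _ => hK l) γ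
  have h2 : |(2 : ℝ) ^ tau j γ * (θ γ - b γ)| ≤ 2 ^ (t + 1) :=
    (le_mul_of_one_le_left (abs_nonneg _) hK1).trans h1
  have h3 : |(2 : ℝ) ^ tau j γ * (θ γ - b γ)| ≤ 2 ^ T :=
    h2.trans (pow_le_pow_right₀ one_le_two hT)
  have h4 : nr T (θ γ) = b γ := OscA.nr_of (by omega) (le_tau V hj hγ) hden h3
  rw [h4] at h
  rw [abs_mul, abs_of_pos (by positivity : (0 : ℝ) < 2 ^ tau j γ)] at h3
  have h5 : (2 : ℝ) ^ T < 2 ^ (T + 2) := pow_lt_pow_right₀ one_lt_two (by omega)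
  linarith

/-- low frequencies -/
lemma low {V : Finset ι} {K : ι → ℕ} (hK : ∀ l, 0 < K l) {t T T' : ℕ} (hT : t + 1 ≤ T)
    {j j' : ι → ℕ} (hj : ∀ l ∈ V, 6 * T ≤ j l) (hj' : ∀ l ∈ V, 6 * T ≤ j' l) {θ : Ex ι D → ℝ}
    (h : ∀ γ ∈ (GV V : Finset (Ex ι D)), 2 ^ tau j γ * |θ γ - nr T (θ γ)| ≤ (1 / 2) ^ T')
    (h' : ∀ γ ∈ (GV V : Finset (Ex ι D)), 2 ^ tau j' γ * |θ γ - nr T (θ γ)| ≤ (1 / 2) ^ T') :
    KK V t (res V (Mj K j)) θ - KK V t (res V (Mj (fun _ => 1) j')) θ =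
      EE V K t T T' j θ - EE V (fun _ => 1) t T T' j' θ := by
  have hc : CC V T T' j θ := by
    intro γ hγ
    refine ⟨nr T (θ γ), nr_den _ _, ?_⟩
    rw [abs_mul, abs_of_pos (by positivity : (0 : ℝ) < 2 ^ tau j γ)]
    exact h γ hγ
  have hc' : CC V T T' j' θ := by
    intro γ hγ
    refine ⟨nr T (θ γ), nr_den _ _, ?_⟩
    rw [abs_mul, abs_of_pos (by positivity : (0 : ℝ) < 2 ^ tau j' γ)]
    exact h' γ hγ
  rw [EE_of hc, EE_of hc']
  have h1 : KK V t (res V (Mj K j)) (ZZ V T θ) =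
      KK V t (res V (Mj (fun _ => 1) j')) (ZZ V T θ) := by
    refine KK_inv (T := T) rfl fun γ hγ => Or.inr ⟨nr T (θ γ), nr_den _ _, ?_, ?_, ?_,
      sep_of hK hj (by omega) hγ, sep_of (fun _ => one_pos) hj' (by omega) hγ⟩
    all_goals
      have z : ZZ V T θ γ = nr T (θ γ) := by unfold ZZ; rw [if_pos hγ]
      rw [z]
      simp
  rw [h1]
  ring

/-- middle range -/
def mid (V : Finset ι) (T : ℕ) (σ : ℕ → ℕ) (θ : Ex ι D → ℝ) (i : ℕ) : Prop :=
  ∃ γ ∈ (GV V : Finset (Ex ι D)), (1 / 2 : ℝ) ^ (T + 2) < xs T θ γ (σ (i + 1)) ∧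
    xs T θ γ (σ i) < 2 ^ (T + 2)

/-- low range -/
def lo (V : Finset ι) (T : ℕ) (σ : ℕ → ℕ) (θ : Ex ι D → ℝ) (i : ℕ) : Prop :=
  ∀ γ ∈ (GV V : Finset (Ex ι D)), xs T θ γ (σ (i + 1)) ≤ (1 / 2 : ℝ) ^ (T + 2)

open Classical in
lemma card_mid (V : Finset ι) (T : ℕ) {σ : ℕ → ℕ} (hσ : StrictMono σ) (θ : Ex ι D → ℝ) (R : ℕ) :
    ((range R).filter fun i => mid V T σ θ i).card ≤
      (GV V : Finset (Ex ι D)).card * (2 * (T + 2) + 1) := by
  have h1 : ((range R).filter fun i => mid V T σ θ i) ⊆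
      (GV V : Finset (Ex ι D)).biUnion fun γ => (range R).filter fun i =>
        (1 / 2 : ℝ) ^ (T + 2) < xs T θ γ (σ (i + 1)) ∧ xs T θ γ (σ i) < 2 ^ (T + 2) := by
    intro i hi
    rw [Finset.mem_filter] at hi
    obtain ⟨hi, γ, hγ, h⟩ := hi
    rw [Finset.mem_biUnion]
    exact ⟨γ, hγ, Finset.mem_filter.2 ⟨hi, h⟩⟩
  refine (Finset.card_le_card h1).trans (Finset.card_biUnion_le.trans ?_)
  refine (Finset.sum_le_sum fun γ hγ => Pf720ae.Poly.count_mid (xs_nonneg T θ γ)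
    (xs_two hγ T θ) hσ (T + 2) R).trans ?_
  rw [Finset.sum_const, smul_eq_mul]

end OscB

open OscB

theorem osc_KK (V : Finset ι) (K : ι → ℕ) (hK : ∀ l, 0 < K l) (t : ℕ) {ε : ℝ} (hε : 0 < ε) :
    ∃ (N₀ : ℕ) (B : ℝ), 0 ≤ B ∧ ∀ (L : ℕ) [NeZero L] (F : (Ex ι D → ZMod L) → ℂ) (σ : ℕ → ℕ),
      StrictMono σ → N₀ ≤ σ 0 → ∀ j : ℕ → (Ex ι D → ZMod L) → ι → ℕ,
      (∀ i x l, σ i ≤ j i x l ∧ j i x l < σ (i + 1)) → ∀ R : ℕ,
      ∑ i ∈ range R, ∑ x, ‖op (fun a => KK V t (res V (Mj K (j i x))) (fq a) -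
        KK V t (res V (Mj (fun _ => 1) fun _ => σ i)) (fq a)) F x‖ ^ 2 ≤ (B + ε * R) * nn F := by
  classical
  obtain ⟨C₁, C, hC, hmx⟩ := KK_mx (D := D) V K hK
  obtain ⟨C₁', C', hC', hmx'⟩ := KK_mx (D := D) V (fun _ => 1) (fun _ => one_pos)
  set ε' : ℝ := Real.sqrt (ε / 8) with hε'
  have hε'0 : 0 < ε' := Real.sqrt_pos.2 (by positivity)
  have hε'2 : ε' ^ 2 = ε / 8 := Real.sq_sqrt (by positivity)
  obtain ⟨c₀, hc₀⟩ := EE_mx (D := D) V K hK t hε'0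
  obtain ⟨c₀', hc₀'⟩ := EE_mx (D := D) V (fun _ => 1) (fun _ => one_pos) t hε'0
  set c := c₀ + c₀' + 1 with hc
  obtain ⟨T₀, hT₀⟩ := hc₀ c (by omega)
  obtain ⟨T₀', hT₀'⟩ := hc₀' c (by omega)
  set T' := T₀ + T₀' with hT'
  set T := T' + t + c with hT
  set n := (GV V : Finset (Ex ι D)).card with hn
  set B₀ : ℝ := C * ((t : ℝ) + 1) ^ n + C' * ((t : ℝ) + 1) ^ n with hB₀
  have hB₀0 : 0 ≤ B₀ := by positivity
  refine ⟨6 * T + (C₁ + C₁') * (t + 1), 2 * (B₀ ^ 2 * ((n : ℝ) * (2 * ((T : ℝ) + 2) + 1))),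
    by positivity, fun L _ F σ hσ hσ0 j hj R => ?_⟩
  have hσi : ∀ i, 6 * T + (C₁ + C₁') * (t + 1) ≤ σ i := fun i =>
    hσ0.trans (hσ.monotone (Nat.zero_le i))
  -- the families
  have hσa : ∀ i, 6 * T ≤ σ i := fun i => (Nat.le_add_right _ _).trans (hσi i)
  have hσb : ∀ i, C₁ * (t + 1) ≤ σ i := fun i => by
    have := hσi i
    nlinarith [Nat.zero_le (C₁' * (t + 1)), Nat.zero_le (6 * T)]
  have hσc : ∀ i, C₁' * (t + 1) ≤ σ i := fun i => by
    have := hσi i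
    nlinarith [Nat.zero_le (C₁ * (t + 1)), Nat.zero_le (6 * T)]
  have hD : ∀ i, MxLe {m : ι → ℕ | ∀ l, σ i ≤ m l} (fun m (a : Ex ι D → ZMod L) =>
      KK V t (res V (Mj K m)) (fq a) -
        KK V t (res V (Mj (fun _ => 1) fun _ => σ i)) (fq a)) B₀ := by
    intro i
    refine mx_sub (mx_subset (hmx L t) fun m hm l _ => (hσb i).trans (hm l))
      (mx_reindex (hmx' L t) (fun _ _ => σ i) fun m _ l _ => hσc i) (by positivity)
      (by positivity)
  have hE : ∀ i, MxLe {m : ι → ℕ | ∀ l, σ i ≤ m l} (fun m (a : Ex ι D → ZMod L) =>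
      EE V K t T T' m (fq a) - EE V (fun _ => 1) t T T' (fun _ => σ i) (fq a)) (ε' + ε') := by
    intro i
    refine mx_sub (mx_subset (hT₀ T' (by omega) L) fun m hm l _ => (hσa i).trans (hm l))
      (mx_reindex (hT₀' T' (by omega) L) (fun _ _ => σ i) fun m _ l _ => hσa i) hε'0.le hε'0.le
  -- the cutoffs
  set n₁ : ℕ → (Ex ι D → ZMod L) → ℂ := fun i a => if mid V T σ (fq a) i then 1 else 0 with hn₁
  set n₂ : ℕ → (Ex ι D → ZMod L) → ℂ := fun i a =>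
    if ¬ mid V T σ (fq a) i ∧ lo V T σ (fq a) i then 1 else 0 with hn₂
  have hsplit : ∀ i (m : ι → ℕ), (∀ l, σ i ≤ m l ∧ m l < σ (i + 1)) → ∀ a : Ex ι D → ZMod L,
      KK V t (res V (Mj K m)) (fq a) - KK V t (res V (Mj (fun _ => 1) fun _ => σ i)) (fq a) =
      (KK V t (res V (Mj K m)) (fq a) -
        KK V t (res V (Mj (fun _ => 1) fun _ => σ i)) (fq a)) * n₁ i a +
      (EE V K t T T' m (fq a) - EE V (fun _ => 1) t T T' (fun _ => σ i) (fq a)) * n₂ i a := by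
    intro i m hm a
    by_cases h : mid V T σ (fq a) i
    · simp only [hn₁, hn₂, h, if_true, not_true, false_and, if_false, mul_one, mul_zero, add_zero]
    · by_cases h' : lo V T σ (fq a) i
      · simp only [hn₁, hn₂, h, h', if_true, not_false_eq_true, and_self, if_false, mul_one,
          mul_zero, zero_add]
        have hle : (1 / 2 : ℝ) ^ (T + 2) ≤ (1 / 2) ^ T' := OscA.half_pow_le (by omega)
        refine low hK (by omega) (fun l _ => (hσa i).trans (hm l).1) (fun l _ => hσa i)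
          (fun γ hγ => ((block_le fun l => (hm l).2.le).trans (h' γ hγ)).trans hle)
          (fun γ hγ => ((block_le fun l => (hσ (Nat.lt_succ_self i)).le).trans (h' γ hγ)).trans
            hle)
      · simp only [hn₁, hn₂, h, h', if_false, mul_zero, add_zero, and_false]
        unfold lo at h'
        push Not at h'
        obtain ⟨γ, hγ, hlt⟩ := h'
        have hge : (2 : ℝ) ^ (T + 2) ≤ xs T (fq a) γ (σ i) := by
          by_contra hcon
          push Not at hcon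
          exact h ⟨γ, hγ, hlt, hcon⟩
        rw [vanish hK (by omega) (fun l _ => (hσa i).trans (hm l).1) hγ
            (hge.trans (le_of_block fun l => (hm l).1)),
          vanish (fun _ => one_pos) (by omega) (fun l _ => hσa i) hγ
            (hge.trans (le_of_block fun l => le_rfl)), sub_zero]
  -- one block
  have hblock : ∀ i, ∑ x, ‖op (fun a => KK V t (res V (Mj K (j i x))) (fq a) -
        KK V t (res V (Mj (fun _ => 1) fun _ => σ i)) (fq a)) F x‖ ^ 2 ≤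
      2 * (B₀ ^ 2 * nn (op (n₁ i) F)) + 2 * ((ε' + ε') ^ 2 * nn F) := by
    intro i
    have h1 := hD i (op (n₁ i) F) (j i) fun x l => (hj i x l).1
    have h2 := hE i (op (n₂ i) F) (j i) fun x l => (hj i x l).1
    have h3 : nn (op (n₂ i) F) ≤ nn F := by
      have := nn_op_le (n₂ i) (B := 1) (fun a => by
        simp only [hn₂]
        split_ifs <;> simp) F
      simpa using this
    have h4 : ∀ x, ‖op (fun a => KK V t (res V (Mj K (j i x))) (fq a) -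
        KK V t (res V (Mj (fun _ => 1) fun _ => σ i)) (fq a)) F x‖ ^ 2 ≤
        2 * ‖op (fun a => KK V t (res V (Mj K (j i x))) (fq a) -
          KK V t (res V (Mj (fun _ => 1) fun _ => σ i)) (fq a)) (op (n₁ i) F) x‖ ^ 2 +
        2 * ‖op (fun a => EE V K t T T' (j i x) (fq a) -
          EE V (fun _ => 1) t T T' (fun _ => σ i) (fq a)) (op (n₂ i) F) x‖ ^ 2 := by
      intro x
      rw [op_op, op_op]
      have h5 : op (fun a => KK V t (res V (Mj K (j i x))) (fq a) -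
          KK V t (res V (Mj (fun _ => 1) fun _ => σ i)) (fq a)) F x =
          op (fun a => (KK V t (res V (Mj K (j i x))) (fq a) -
            KK V t (res V (Mj (fun _ => 1) fun _ => σ i)) (fq a)) * n₁ i a) F x +
          op (fun a => (EE V K t T T' (j i x) (fq a) -
            EE V (fun _ => 1) t T T' (fun _ => σ i) (fq a)) * n₂ i a) F x := by
        rw [← op_add]
        congr 1
        funext a
        exact hsplit i (j i x) (fun l => hj i x l) a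
      rw [h5]
      set u := op (fun a => (KK V t (res V (Mj K (j i x))) (fq a) -
            KK V t (res V (Mj (fun _ => 1) fun _ => σ i)) (fq a)) * n₁ i a) F x
      set v := op (fun a => (EE V K t T T' (j i x) (fq a) -
            EE V (fun _ => 1) t T T' (fun _ => σ i) (fq a)) * n₂ i a) F x
      have h6 : ‖u + v‖ ^ 2 ≤ (‖u‖ + ‖v‖) ^ 2 :=
        pow_le_pow_left₀ (norm_nonneg _) (norm_add_le u v) 2
      nlinarith [sq_nonneg (‖u‖ - ‖v‖)]
    refine (Finset.sum_le_sum fun x _ => h4 x).trans ?_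
    rw [Finset.sum_add_distrib, ← Finset.mul_sum, ← Finset.mul_sum]
    refine add_le_add (mul_le_mul_of_nonneg_left h1 (by norm_num))
      (mul_le_mul_of_nonneg_left (h2.trans ?_) (by norm_num))
    exact mul_le_mul_of_nonneg_left h3 (by positivity)
  refine (Finset.sum_le_sum fun i _ => hblock i).trans ?_
  rw [Finset.sum_add_distrib, ← Finset.mul_sum, ← Finset.mul_sum, Finset.sum_const, card_range,
    nsmul_eq_mul]
  have hsum : ∑ i ∈ range R, nn (op (n₁ i) F) ≤ ((n : ℝ) * (2 * ((T : ℝ) + 2) + 1)) * nn F := by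
    refine sum_nn_op_le (range R) n₁ (fun a => ?_) F
    have h1 : ∑ i ∈ range R, ‖n₁ i a‖ ^ 2 =
        (((range R).filter fun i => mid V T σ (fq a) i).card : ℝ) := by
      rw [Finset.card_filter]
      push_cast
      refine Finset.sum_congr rfl fun i _ => ?_
      simp only [hn₁]
      split_ifs <;> simp
    rw [h1]
    have h2 := card_mid V T hσ (fq a) R
    have h3 : ((((range R).filter fun i => mid V T σ (fq a) i).card : ℕ) : ℝ) ≤
        (((GV V : Finset (Ex ι D)).card * (2 * (T + 2) + 1) : ℕ) : ℝ) := by exact_mod_cast h2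
    refine h3.trans (le_of_eq ?_)
    push_cast
    rfl
  have hF := nn_nonneg F
  have h1 : B₀ ^ 2 * ∑ i ∈ range R, nn (op (n₁ i) F) ≤
      B₀ ^ 2 * (((n : ℝ) * (2 * ((T : ℝ) + 2) + 1)) * nn F) :=
    mul_le_mul_of_nonneg_left hsum (by positivity)
  have h2 : (ε' + ε') ^ 2 = ε / 2 := by
    have : (ε' + ε') ^ 2 = 4 * ε' ^ 2 := by ring
    rw [this, hε'2]
    ring
  rw [h2]
  nlinarith

end Pool.Agent.Lib.Pf720mp
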