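import Pool.Agent.Lib.Pf720mp.OscB
import Pool.Agent.Lib.Pf720mp.FinMax

/-!
# Oscillation inequality for the averages

`oscfin_mp`: `V = univ` (`res univ M = M`). Let `C ρ ^ t` be the bounds of `ss_all` for `K` and for
`1` (level `t`), choose `t` with `(C ρ ^ t)² ≤ ε / 100` for both. For the blocks with
`σ i ≥ N := max (C₀ t) N₀` write `TA(Mj K j) - TA(Mj 1 σ_i) = (AA - KK)_K - (AA - KK)_1 + D_{i,j}`;
`‖u + v + w‖² ≤ 3 (…)`, the first two by `SS` (`R` blocks, each `≤ (ε / 100) nn F`), the third by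
`osc_KK` with `ε / 12` for the shifted sequence `i ↦ σ (i + N)` (`σ` is strictly increasing so
`σ N ≥ N`). The first `N` blocks: each `≤ 4 A nn F` by `maxfin_mp`. So the total is
`≤ (4 A N + 3 B + (ε / 2) R) nn F ≤ ε R nn F` for `R ≥ R₀`. (`op_AA` relates `TA` and `op`.)
-/

set_option autoImplicit false
set_option linter.unusedSectionVars false

open Finset MeasureTheory Filter Topology
open scoped ENNReal NNReal

namespace Pool.Agent.Lib.Pf720mp

variable {ι : Type} [Fintype ι] [DecidableEq ι]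

private lemma res_univ (M : ι → ℕ) : res Finset.univ M = M := by
  funext l
  exact res_of_mem (Finset.mem_univ l)

private lemma exists_level {C ρ C' ρ' δ : ℝ} (hρ : 0 < ρ) (hρ1 : ρ < 1)
    (hρ' : 0 < ρ') (hρ1' : ρ' < 1) (hδ : 0 < δ) :
    ∃ t : ℕ, 1 ≤ t ∧ C * ρ ^ t ≤ δ ∧ C' * ρ' ^ t ≤ δ := by
  have h1 : Tendsto (fun t : ℕ => C * ρ ^ t) atTop (𝓝 (C * 0)) :=
    (tendsto_pow_atTop_nhds_zero_of_lt_one hρ.le hρ1).const_mul C
  have h2 : Tendsto (fun t : ℕ => C' * ρ' ^ t) atTop (𝓝 (C' * 0)) :=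
    (tendsto_pow_atTop_nhds_zero_of_lt_one hρ'.le hρ1').const_mul C'
  rw [mul_zero] at h1 h2
  have h3 := (h1.eventually (gt_mem_nhds hδ)).and ((h2.eventually (gt_mem_nhds hδ)).and
    (eventually_ge_atTop 1))
  obtain ⟨t, ht1, ht2, ht3⟩ := h3.exists
  exact ⟨t, ht3, ht1.le, ht2.le⟩

private lemma sq_sub_le (u v : ℂ) : ‖u - v‖ ^ 2 ≤ 2 * ‖u‖ ^ 2 + 2 * ‖v‖ ^ 2 := by
  have h := norm_sub_le u v
  have h0 := norm_nonneg (u - v)
  nlinarith [sq_nonneg (‖u‖ - ‖v‖), norm_nonneg u, norm_nonneg v]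

private lemma sq_three_le (u v w : ℂ) :
    ‖u - v + w‖ ^ 2 ≤ 3 * (‖u‖ ^ 2 + ‖v‖ ^ 2 + ‖w‖ ^ 2) := by
  have h : ‖u - v + w‖ ≤ ‖u‖ + ‖v‖ + ‖w‖ :=
    (norm_add_le _ _).trans (add_le_add (norm_sub_le _ _) le_rfl)
  have h1 : ‖u - v + w‖ ^ 2 ≤ (‖u‖ + ‖v‖ + ‖w‖) ^ 2 := pow_le_pow_left₀ (norm_nonneg _) h 2
  nlinarith [sq_nonneg (‖u‖ - ‖v‖), sq_nonneg (‖u‖ - ‖w‖), sq_nonneg (‖v‖ - ‖w‖)]

/-- one block -/
private lemma block {D L : ℕ} [NeZero L] {K : ι → ℕ} {t C₀ C₀' : ℕ} {δ : ℝ}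
    (h1 : MxLe {j : ι → ℕ | ∀ l ∈ (Finset.univ : Finset ι), C₀ * t ≤ j l}
      (fun j (a : Ex ι D → ZMod L) => AA (res Finset.univ (Mj K j)) (fq a) -
        KK Finset.univ t (res Finset.univ (Mj K j)) (fq a)) δ)
    (h2 : MxLe {j : ι → ℕ | ∀ l ∈ (Finset.univ : Finset ι), C₀' * t ≤ j l}
      (fun j (a : Ex ι D → ZMod L) => AA (res Finset.univ (Mj (fun _ => 1) j)) (fq a) -
        KK Finset.univ t (res Finset.univ (Mj (fun _ => 1) j)) (fq a)) δ)
    (F : (Ex ι D → ZMod L) → ℂ) (s : ℕ) (hs : C₀ * t ≤ s) (hs' : C₀' * t ≤ s)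
    (j : (Ex ι D → ZMod L) → ι → ℕ) (hj : ∀ x l, s ≤ j x l) :
    ∑ x, ‖TA F x (Mj K (j x)) - TA F x (fun _ => 2 ^ s)‖ ^ 2 ≤
      3 * (2 * (δ ^ 2 * nn F) + ∑ x, ‖op (fun a => KK Finset.univ t (res Finset.univ (Mj K (j x))) (fq a) -
        KK Finset.univ t (res Finset.univ (Mj (fun _ => 1) fun _ => s)) (fq a)) F x‖ ^ 2) := by
  have e1 := h1 F j (fun x l _ => hs.trans (hj x l))
  have e2 := h2 F (fun _ _ => s) (fun x l _ => hs')
  have e3 : ∀ x, TA F x (Mj K (j x)) - TA F x (fun _ => 2 ^ s) =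
      op (fun a => AA (res Finset.univ (Mj K (j x))) (fq a) -
        KK Finset.univ t (res Finset.univ (Mj K (j x))) (fq a)) F x -
      op (fun a => AA (res Finset.univ (Mj (fun _ => 1) fun _ => s)) (fq a) -
        KK Finset.univ t (res Finset.univ (Mj (fun _ => 1) fun _ => s)) (fq a)) F x +
      op (fun a => KK Finset.univ t (res Finset.univ (Mj K (j x))) (fq a) -
        KK Finset.univ t (res Finset.univ (Mj (fun _ => 1) fun _ => s)) (fq a)) F x := by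
    intro x
    have e4 : TA F x (Mj K (j x)) = op (fun a => AA (res Finset.univ (Mj K (j x))) (fq a)) F x := by
      rw [res_univ, op_AA]
      rfl
    have e5 : TA F x (fun _ => 2 ^ s) =
        op (fun a => AA (res Finset.univ (Mj (fun _ => 1) fun _ => s)) (fq a)) F x := by
      have e6 : (Mj (fun _ : ι => 1) fun _ => s) = fun _ => 2 ^ s := by
        funext l
        simp [Mj]
      rw [res_univ, op_AA, e6]
      rfl
    rw [e4, e5, op_sub, op_sub, op_sub]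
    ring
  calc ∑ x, ‖TA F x (Mj K (j x)) - TA F x (fun _ => 2 ^ s)‖ ^ 2 ≤
      ∑ x, 3 * (‖op (fun a => AA (res Finset.univ (Mj K (j x))) (fq a) -
          KK Finset.univ t (res Finset.univ (Mj K (j x))) (fq a)) F x‖ ^ 2 +
        ‖op (fun a => AA (res Finset.univ (Mj (fun _ => 1) fun _ => s)) (fq a) -
          KK Finset.univ t (res Finset.univ (Mj (fun _ => 1) fun _ => s)) (fq a)) F x‖ ^ 2 +
        ‖op (fun a => KK Finset.univ t (res Finset.univ (Mj K (j x))) (fq a) -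
          KK Finset.univ t (res Finset.univ (Mj (fun _ => 1) fun _ => s)) (fq a)) F x‖ ^ 2) := by
        refine Finset.sum_le_sum fun x _ => ?_
        rw [e3 x]
        exact sq_three_le _ _ _
    _ ≤ _ := by
        rw [← Finset.mul_sum, Finset.sum_add_distrib, Finset.sum_add_distrib]
        have := add_le_add e1 e2
        linarith

theorem oscfin_mp (D : ℕ) (K : ι → ℕ) (hK : ∀ l, 0 < K l) {ε : ℝ} (hε : 0 < ε) :
    ∃ R₀ : ℕ, ∀ (L : ℕ) [NeZero L] (F : (Ex ι D → ZMod L) → ℂ) (σ : ℕ → ℕ), StrictMono σ →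
      ∀ j : ℕ → (Ex ι D → ZMod L) → ι → ℕ, (∀ i x l, σ i ≤ j i x l ∧ j i x l < σ (i + 1)) →
      ∀ R : ℕ, R₀ ≤ R →
      ∑ i ∈ range R, ∑ x, ‖TA F x (Mj K (j i x)) - TA F x (fun _ => 2 ^ σ i)‖ ^ 2 ≤
        ε * R * ∑ x, ‖F x‖ ^ 2 := by
  obtain ⟨C₀, C, ρ, hC, hρ, hρ1, hss⟩ := ss_all D (Finset.univ : Finset ι) K hK
  obtain ⟨C₀', C', ρ', hC', hρ', hρ1', hss'⟩ :=
    ss_all D (Finset.univ : Finset ι) (fun _ => 1) (fun _ => one_pos)
  obtain ⟨t, ht, ht1, ht2⟩ := exists_level (C := C) (C' := C') hρ hρ1 hρ' hρ1'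
    (Real.sqrt_pos.2 (by positivity : 0 < ε / 100))
  set δ := Real.sqrt (ε / 100) with hδ
  have hδ0 : 0 ≤ δ := Real.sqrt_nonneg _
  have hδ2 : δ ^ 2 = ε / 100 := Real.sq_sqrt (by positivity)
  obtain ⟨N₀, B, hB, hosc⟩ := osc_KK (D := D) (Finset.univ : Finset ι) K hK t
    (by positivity : 0 < ε / 12)
  obtain ⟨A, hA, hmax⟩ := maxfin_mp ι D
  set N := max (C₀ * t) (max (C₀' * t) N₀) with hN
  have hN1 : C₀ * t ≤ N := le_max_left _ _
  have hN2 : C₀' * t ≤ N := (le_max_left _ _).trans (le_max_right _ _)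
  have hN3 : N₀ ≤ N := (le_max_right _ _).trans (le_max_right _ _)
  obtain ⟨R₁, hR₁⟩ := exists_nat_ge (2 * (4 * A * N + 3 * B) / ε)
  refine ⟨max N R₁, fun L _ F σ hσ j hj R hR => ?_⟩
  have hRN : N ≤ R := (le_max_left _ _).trans hR
  have hRR : R₁ ≤ R := (le_max_right _ _).trans hR
  obtain ⟨R', rfl⟩ := Nat.exists_eq_add_of_le hRN
  have hnn : 0 ≤ nn F := nn_nonneg F
  have hnn' : ∑ x, ‖F x‖ ^ 2 = nn F := rfl
  rw [hnn', Finset.sum_range_add]
  have g1 : MxLe {j : ι → ℕ | ∀ l ∈ (Finset.univ : Finset ι), C₀ * t ≤ j l}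
      (fun j (a : Ex ι D → ZMod L) => AA (res Finset.univ (Mj K j)) (fq a) -
        KK Finset.univ t (res Finset.univ (Mj K j)) (fq a)) δ :=
    mx_mono (hss L t ht) (by positivity) ht1
  have g2 : MxLe {j : ι → ℕ | ∀ l ∈ (Finset.univ : Finset ι), C₀' * t ≤ j l}
      (fun j (a : Ex ι D → ZMod L) => AA (res Finset.univ (Mj (fun _ => 1) j)) (fq a) -
        KK Finset.univ t (res Finset.univ (Mj (fun _ => 1) j)) (fq a)) δ :=
    mx_mono (hss' L t ht) (by positivity) ht2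
  have p1 : ∑ i ∈ range N, ∑ x, ‖TA F x (Mj K (j i x)) - TA F x (fun _ => 2 ^ σ i)‖ ^ 2 ≤
      N * (4 * A * nn F) := by
    refine (Finset.sum_le_card_nsmul (range N) _ (4 * A * nn F) fun i _ => ?_).trans
      (le_of_eq (by rw [Finset.card_range, nsmul_eq_mul]))
    have q1 := hmax L F (fun x => Mj K (j i x)) (fun x l => by
      unfold Mj
      exact Nat.mul_pos (hK l) (Nat.pow_pos two_pos))
    have q2 := hmax L F (fun _ _ => 2 ^ σ i) (fun x l => Nat.pow_pos two_pos)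
    rw [hnn'] at q1 q2
    calc ∑ x, ‖TA F x (Mj K (j i x)) - TA F x (fun _ => 2 ^ σ i)‖ ^ 2 ≤
        ∑ x, (2 * ‖TA F x (Mj K (j i x))‖ ^ 2 + 2 * ‖TA F x (fun _ => 2 ^ σ i)‖ ^ 2) :=
          Finset.sum_le_sum fun x _ => sq_sub_le _ _
      _ ≤ 4 * A * nn F := by
          rw [Finset.sum_add_distrib, ← Finset.mul_sum, ← Finset.mul_sum]
          linarith
  have hσge : ∀ i, i ≤ σ i := fun i => hσ.le_apply
  have p2 := hosc L F (fun i => σ (N + i)) (fun a b hab => hσ (Nat.add_lt_add_left hab N))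
    (hN3.trans (hσge N)) (fun i => j (N + i)) (fun i x l => hj (N + i) x l) R'
  have p3 : ∑ i ∈ range R', ∑ x, ‖TA F x (Mj K (j (N + i) x)) -
      TA F x (fun _ => 2 ^ σ (N + i))‖ ^ 2 ≤
      3 * (2 * R' * (δ ^ 2 * nn F) + (B + ε / 12 * R') * nn F) := by
    refine (Finset.sum_le_sum fun i _ => block g1 g2 F (σ (N + i)) ?_ ?_ (j (N + i))
      (fun x l => (hj (N + i) x l).1)).trans ?_
    · exact hN1.trans ((Nat.le_add_right N i).trans (hσge _))
    · exact hN2.trans ((Nat.le_add_right N i).trans (hσge _))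
    · rw [← Finset.mul_sum, Finset.sum_add_distrib, Finset.sum_const, Finset.card_range,
        nsmul_eq_mul]
      have : (R' : ℝ) * (2 * (δ ^ 2 * nn F)) = 2 * R' * (δ ^ 2 * nn F) := by ring
      rw [this]
      refine mul_le_mul_of_nonneg_left (add_le_add le_rfl p2) (by norm_num)
  refine (add_le_add p1 p3).trans ?_
  rw [hδ2]
  have hR₂ : 2 * (4 * A * N + 3 * B) ≤ ε * ((N + R' : ℕ) : ℝ) := by
    have h1 : (R₁ : ℝ) ≤ ((N + R' : ℕ) : ℝ) := by exact_mod_cast hRR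
    have h2 := hR₁.trans h1
    rw [div_le_iff₀ hε] at h2
    linarith
  have hR0 : (0 : ℝ) ≤ R' := Nat.cast_nonneg _
  have hN0 : (0 : ℝ) ≤ N := Nat.cast_nonneg _
  have key : (N : ℝ) * (4 * A) + 3 * (2 * R' * (ε / 100) + (B + ε / 12 * R')) ≤
      ε * ((N + R' : ℕ) : ℝ) := by
    push_cast at hR₂ ⊢
    have h5 : 0 ≤ ε * R' := mul_nonneg hε.le hR0
    have h6 : 0 ≤ ε * N := mul_nonneg hε.le hN0
    nlinarith
  have := mul_le_mul_of_nonneg_right key hnn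
  refine le_trans (le_of_eq ?_) this
  ring

end Pool.Agent.Lib.Pf720mp
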