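import Pool.Agent.Lib.Pf720mp.FinMax

/-!
# Transference to measure preserving actions

Generalisation of `Pool.Agent.Lib.Pf720ae.Poly.transfer` (file Osc/TransferG.lean) from `Fin D` to the
index set `Ex ι D` of all exponents; follow that proof (`SH`, `vl`, `vl_add`, `card_SH` of
Poly/Transfer.lean with `Fin D` replaced by `Ex ι D`): `mon m γ < H := 2 ^ (J D |ι|) + 1` or
`≤ 2 ^ (J D |ι|)` for `m ∈ bx M`, `M l ≤ 2 ^ J`; `L = 2 H`.
-/

set_option autoImplicit false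
set_option linter.unusedSectionVars false

open Finset ZMod MeasureTheory Filter Topology
open scoped ENNReal NNReal

namespace Pool.Agent.Lib.Pf720mp

variable {ι : Type} [Fintype ι] [DecidableEq ι] {D : ℕ} {X : Type} [MeasurableSpace X]
  {μ : Measure X}

/-- averages along the polynomial embedding -/
noncomputable def Av (R : (Ex ι D → ℕ) → X → X) (f : X → ℂ) (x : X) (M : ι → ℕ) : ℂ :=
  (∏ l, (M l : ℂ))⁻¹ * ∑ m ∈ bx M, f (R (mon m) x)

theorem measurable_Av {R : (Ex ι D → ℕ) → X → X} (hR : ∀ m, Measurable (R m)) {f : X → ℂ}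
    (hf : Measurable f) (M : ι → ℕ) : Measurable fun x => Av R f x M :=
  (Finset.measurable_fun_sum _ fun _ _ => hf.comp (hR _)).const_mul _

/-- representatives -/
def vlx {I : Type} {L : ℕ} (v : I → ZMod L) : I → ℕ := fun e => (v e).val

/-- small cube in the torus -/
def SHx (I : Type) [Fintype I] [DecidableEq I] (L H : ℕ) : Finset (I → ZMod L) :=
  Fintype.piFinset fun _ : I => (range H).image (Nat.cast : ℕ → ZMod L)

lemma card_SHx (I : Type) [Fintype I] [DecidableEq I] {L H : ℕ} (hH : H ≤ L) :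
    (SHx I L H).card = H ^ Fintype.card I := by
  unfold SHx
  rw [Fintype.card_piFinset]
  have h1 : ((range H).image (Nat.cast : ℕ → ZMod L)).card = H := by
    rw [Finset.card_image_of_injOn, Finset.card_range]
    intro a ha b hb hab
    have ha' : a < L := lt_of_lt_of_le (Finset.mem_range.1 ha) hH
    have hb' : b < L := lt_of_lt_of_le (Finset.mem_range.1 hb) hH
    have h2 := (ZMod.natCast_eq_natCast_iff' a b L).1 hab
    rwa [Nat.mod_eq_of_lt ha', Nat.mod_eq_of_lt hb'] at h2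
  rw [Finset.prod_const, h1, Finset.card_univ]

lemma vlx_lt_of_mem {I : Type} [Fintype I] [DecidableEq I] {L H : ℕ} (hH : H ≤ L)
    {v : I → ZMod L} (hv : v ∈ SHx I L H) (e : I) : vlx v e < H := by
  unfold SHx at hv
  rw [Fintype.mem_piFinset] at hv
  obtain ⟨a, ha, hav⟩ := Finset.mem_image.1 (hv e)
  have ha' := Finset.mem_range.1 ha
  unfold vlx
  rw [← hav, ZMod.val_natCast, Nat.mod_eq_of_lt (lt_of_lt_of_le ha' hH)]
  exact ha'

lemma mon_le_pow {J : ℕ} {m : ι → ℕ} (hm : ∀ l, m l ≤ 2 ^ J) (γ : Ex ι D) :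
    mon m γ ≤ 2 ^ (J * D * Fintype.card ι) := by
  unfold mon
  calc ∏ l, m l ^ (γ l : ℕ) ≤ ∏ _l : ι, 2 ^ (J * D) := by
        refine Finset.prod_le_prod' fun l _ => ?_
        calc m l ^ (γ l : ℕ) ≤ (2 ^ J) ^ (γ l : ℕ) := Nat.pow_le_pow_left (hm l) _
          _ ≤ (2 ^ J) ^ D := Nat.pow_le_pow_right (pow_pos two_pos J) (Nat.lt_succ_iff.1 (γ l).2)
          _ = 2 ^ (J * D) := (pow_mul 2 J D).symm
    _ = 2 ^ (J * D * Fintype.card ι) := by
        rw [Finset.prod_const, Finset.card_univ, ← pow_mul]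

lemma vlx_add {L H J : ℕ} [NeZero L] (hH : H = 2 ^ (J * D * Fintype.card ι)) (hL : L = 2 * H)
    {v : Ex ι D → ZMod L} (hv : v ∈ SHx (Ex ι D) L H) {m : ι → ℕ} (hm : ∀ l, m l ≤ 2 ^ J) :
    vlx (v + gam L m) = mon m + vlx v := by
  funext e
  have hH0 : 0 < H := by
    rw [hH]
    exact pow_pos two_pos _
  have h1 : vlx v e < H := vlx_lt_of_mem (by omega) hv e
  have h2 : mon m e ≤ H := by
    rw [hH]
    exact mon_le_pow hm e
  unfold vlx at h1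
  simp only [vlx, gam, Pi.add_apply]
  have h3 : mon m e < L := by omega
  rw [ZMod.val_add_of_lt, ZMod.val_natCast, Nat.mod_eq_of_lt h3, add_comm]
  rw [ZMod.val_natCast, Nat.mod_eq_of_lt h3]
  omega

theorem transfer_mp {B : ℝ≥0} {G : ((ι → ℕ) → ℂ) → ℝ≥0} {J : ℕ}
    (hGloc : ∀ a b : (ι → ℕ) → ℂ, (∀ M : ι → ℕ, (∀ l, M l ≤ 2 ^ J) → a M = b M) → G a = G b)
    (hGm : Measurable G)
    (hfin : ∀ (L : ℕ) [NeZero L] (F : (Ex ι D → ZMod L) → ℂ),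
      ∑ x, G (TA F x) ≤ B * ∑ x, ‖F x‖₊ ^ 2)
    {R : (Ex ι D → ℕ) → X → X} (hRadd : ∀ m n x, R (m + n) x = R m (R n x))
    (hR : ∀ m, MeasurePreserving (R m) μ μ) {f : X → ℂ} (hf : Measurable f) :
    ∫⁻ x, G (Av R f x) ∂μ ≤
      (2 ^ Fintype.card (Ex ι D) * B : ℝ≥0) * ∫⁻ x, ‖f x‖ₑ ^ 2 ∂μ := by
  set H : ℕ := 2 ^ (J * D * Fintype.card ι) with hH
  have hH0 : 0 < H := pow_pos two_pos _
  set L : ℕ := 2 * H with hL
  have : NeZero L := ⟨by omega⟩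
  have hRm : ∀ m, Measurable (R m) := fun m => (hR m).measurable
  have hGA : Measurable fun x => (G (Av R f x) : ℝ≥0∞) := by
    refine (hGm.comp ?_).coe_nnreal_ennreal
    exact measurable_pi_lambda _ fun N => measurable_Av hRm hf N
  have hf2 : Measurable fun x => ‖f x‖ₑ ^ 2 := hf.enorm.pow_const 2
  have hpt : ∀ x, ∑ v ∈ SHx (Ex ι D) L H, (G (Av R f (R (vlx v) x)) : ℝ≥0∞) ≤
      B * ∑ v : Ex ι D → ZMod L, ‖f (R (vlx v) x)‖ₑ ^ 2 := by
    intro x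
    set F : (Ex ι D → ZMod L) → ℂ := fun v => f (R (vlx v) x) with hF
    have h1 := hfin L F
    have h2 : ∀ v ∈ SHx (Ex ι D) L H, G (Av R f (R (vlx v) x)) = G (TA F v) := by
      intro v hv
      refine hGloc _ _ fun M hM => ?_
      unfold Av TA
      congr 1
      refine Finset.sum_congr rfl fun m hm => ?_
      simp only [hF]
      rw [vlx_add hH hL hv (fun l => ((mem_bx.1 hm l).le).trans (hM l)), ← hRadd]
    have h3 : ∑ v ∈ SHx (Ex ι D) L H, G (Av R f (R (vlx v) x)) ≤ B * ∑ v, ‖F v‖₊ ^ 2 := by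
      rw [Finset.sum_congr rfl h2]
      exact (Finset.sum_le_sum_of_subset (Finset.subset_univ _)).trans h1
    have h4 : ((∑ v ∈ SHx (Ex ι D) L H, G (Av R f (R (vlx v) x)) : ℝ≥0) : ℝ≥0∞) ≤
        ((B * ∑ v, ‖F v‖₊ ^ 2 : ℝ≥0) : ℝ≥0∞) := ENNReal.coe_le_coe.2 h3
    push_cast at h4
    exact h4
  have h1 : ∫⁻ x, ∑ v ∈ SHx (Ex ι D) L H, (G (Av R f (R (vlx v) x)) : ℝ≥0∞) ∂μ ≤
      ∫⁻ x, B * ∑ v : Ex ι D → ZMod L, ‖f (R (vlx v) x)‖ₑ ^ 2 ∂μ := lintegral_mono hpt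
  have h2 : ∫⁻ x, ∑ v ∈ SHx (Ex ι D) L H, (G (Av R f (R (vlx v) x)) : ℝ≥0∞) ∂μ =
      (H : ℝ≥0∞) ^ Fintype.card (Ex ι D) * ∫⁻ x, G (Av R f x) ∂μ := by
    rw [lintegral_finsetSum]
    · have h3 : ∀ v ∈ SHx (Ex ι D) L H, ∫⁻ x, (G (Av R f (R (vlx v) x)) : ℝ≥0∞) ∂μ =
          ∫⁻ x, G (Av R f x) ∂μ := fun v _ => (hR (vlx v)).lintegral_comp hGA
      rw [Finset.sum_congr rfl h3, Finset.sum_const, card_SHx (Ex ι D) (by omega), nsmul_eq_mul]
      push_cast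
      rfl
    · intro v _
      exact hGA.comp (hRm (vlx v))
  have h3 : ∫⁻ x, B * ∑ v : Ex ι D → ZMod L, ‖f (R (vlx v) x)‖ₑ ^ 2 ∂μ =
      B * ((L : ℝ≥0∞) ^ Fintype.card (Ex ι D) * ∫⁻ x, ‖f x‖ₑ ^ 2 ∂μ) := by
    rw [lintegral_const_mul, lintegral_finsetSum]
    · have h4 : ∀ v ∈ (Finset.univ : Finset (Ex ι D → ZMod L)),
          ∫⁻ x, ‖f (R (vlx v) x)‖ₑ ^ 2 ∂μ = ∫⁻ x, ‖f x‖ₑ ^ 2 ∂μ :=
        fun v _ => (hR (vlx v)).lintegral_comp hf2
      have h5 : Fintype.card (Ex ι D → ZMod L) = L ^ Fintype.card (Ex ι D) := by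
        rw [Fintype.card_fun, ZMod.card]
      rw [Finset.sum_congr rfl h4, Finset.sum_const, Finset.card_univ, h5, nsmul_eq_mul,
        Nat.cast_pow]
    · intro v _
      exact hf2.comp (hRm (vlx v))
    · exact Finset.measurable_fun_sum _ fun v _ => hf2.comp (hRm (vlx v))
  rw [h2, h3] at h1
  have hHne : (H : ℝ≥0∞) ^ Fintype.card (Ex ι D) ≠ 0 :=
    pow_ne_zero _ (Nat.cast_ne_zero.2 hH0.ne')
  have hHtop : (H : ℝ≥0∞) ^ Fintype.card (Ex ι D) ≠ ⊤ :=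
    ENNReal.pow_ne_top (ENNReal.natCast_ne_top H)
  have h4 : B * ((L : ℝ≥0∞) ^ Fintype.card (Ex ι D) * ∫⁻ x, ‖f x‖ₑ ^ 2 ∂μ) =
      (H : ℝ≥0∞) ^ Fintype.card (Ex ι D) *
        ((2 ^ Fintype.card (Ex ι D) * B : ℝ≥0) * ∫⁻ x, ‖f x‖ₑ ^ 2 ∂μ) := by
    have h5 : (L : ℝ≥0∞) = 2 * (H : ℝ≥0∞) := by
      rw [hL]
      push_cast
      ring
    rw [h5, mul_pow, ENNReal.coe_mul, ENNReal.coe_pow, ENNReal.coe_ofNat]
    ring
  rw [h4] at h1
  exact (ENNReal.mul_le_mul_iff_right hHne hHtop).1 h1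

end Pool.Agent.Lib.Pf720mp
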