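import Pool.Agent.Lib.Pf720mp.OscC
import Pool.Agent.Lib.Pf720mp.Trf

/-!
# Oscillation inequality for actions
-/

set_option autoImplicit false
set_option linter.unusedSectionVars false

open Finset MeasureTheory Filter Topology
open scoped ENNReal NNReal

namespace Pool.Agent.Lib.Pf720mp

variable {ι : Type} [Fintype ι] [DecidableEq ι]

/-- block of indices -/
def blk (ι : Type) [Fintype ι] [DecidableEq ι] (σ : ℕ → ℕ) (i : ℕ) : Finset (ι → ℕ) :=
  Fintype.piFinset fun _ => Ico (σ i) (σ (i + 1))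

lemma oscD_measurable_fsup {Y κ : Type*} [DecidableEq κ] [MeasurableSpace Y] (s : Finset κ)
    {f : κ → Y → ℝ≥0} (hf : ∀ j, Measurable (f j)) : Measurable fun x => s.sup fun j => f j x := by
  induction s using Finset.induction_on with
  | empty =>
    simp only [Finset.sup_empty]
    exact measurable_const
  | insert a s ha ih =>
    simp only [Finset.sup_insert]
    exact (hf a).sup ih

lemma oscD_measurable_esup {Y κ : Type*} [DecidableEq κ] [MeasurableSpace Y] (s : Finset κ)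
    {f : κ → Y → ℝ≥0∞} (hf : ∀ j, Measurable (f j)) :
    Measurable fun x => s.sup fun j => f j x := by
  induction s using Finset.induction_on with
  | empty =>
    simp only [Finset.sup_empty]
    exact measurable_const
  | insert a s ha ih =>
    simp only [Finset.sup_insert]
    exact (hf a).sup ih

lemma oscD_measurable_dif (M M' : ι → ℕ) :
    Measurable fun a : (ι → ℕ) → ℂ => ‖a M - a M'‖₊ ^ 2 := by
  have hp : ∀ M : ι → ℕ, Measurable fun a : (ι → ℕ) → ℂ => a M := fun M => measurable_pi_apply M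
  exact ((hp M).sub (hp M')).nnnorm.pow_const 2

lemma oscD_mem_blk {σ : ℕ → ℕ} {i : ℕ} {j : ι → ℕ} :
    j ∈ blk ι σ i ↔ ∀ l, σ i ≤ j l ∧ j l < σ (i + 1) := by
  unfold blk
  simp [Fintype.mem_piFinset, Finset.mem_Ico]

theorem osc_action_mp (D : ℕ) (K : ι → ℕ) (hK : ∀ l, 0 < K l) {ε : ℝ≥0} (hε : 0 < ε) :
    ∃ R₀ : ℕ, ∀ (X : Type) [MeasurableSpace X] (μ : Measure X) (R : (Ex ι D → ℕ) → X → X),
    (∀ m n x, R (m + n) x = R m (R n x)) → (∀ m, MeasurePreserving (R m) μ μ) →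
    ∀ f : X → ℂ, Measurable f → ∀ σ : ℕ → ℕ, StrictMono σ → ∀ J : ℕ, R₀ ≤ J →
    ∑ i ∈ range J, ∫⁻ x, ((blk ι σ i).sup fun j =>
      ‖Av R f x (Mj K j) - Av R f x (fun _ => 2 ^ σ i)‖ₑ ^ 2) ∂μ ≤
        ε * J * ∫⁻ x, ‖f x‖ₑ ^ 2 ∂μ := by
  classical
  have hε' : (0 : ℝ) < ε / 2 ^ Fintype.card (Ex ι D) := by positivity
  obtain ⟨J₀, hJ₀⟩ := oscfin_mp D K hK hε'
  refine ⟨J₀, fun X _ μ R hRadd hR f hf σ hσ J hJ => ?_⟩
  set G : ((ι → ℕ) → ℂ) → ℝ≥0 := fun a => ∑ i ∈ range J, (blk ι σ i).sup fun j =>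
    ‖a (Mj K j) - a (fun _ => 2 ^ σ i)‖₊ ^ 2 with hG
  have hGm : Measurable G :=
    Finset.measurable_fun_sum _ fun i _ => oscD_measurable_fsup _ fun j =>
      oscD_measurable_dif (Mj K j) (fun _ => 2 ^ σ i)
  have hloc : ∀ a b : (ι → ℕ) → ℂ, (∀ M : ι → ℕ, (∀ l, M l ≤ 2 ^ (σ J + ∑ l, K l)) → a M = b M) →
      G a = G b := by
    intro a b hab
    simp only [hG]
    refine Finset.sum_congr rfl fun i hi => ?_
    have hiJ : σ (i + 1) ≤ σ J := hσ.monotone (Finset.mem_range.1 hi)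
    have hi1 : σ i < σ (i + 1) := hσ (Nat.lt_succ_self i)
    refine Finset.sup_congr rfl fun j hj => ?_
    have hj2 := oscD_mem_blk.1 hj
    rw [hab _ (fun l => ?_), hab _ (fun l => Nat.pow_le_pow_right two_pos (by omega))]
    unfold Mj
    have h1 : K l ≤ 2 ^ (∑ l, K l) :=
      (Nat.lt_two_pow_self (n := K l)).le.trans (Nat.pow_le_pow_right two_pos
        (Finset.single_le_sum (f := K) (fun _ _ => Nat.zero_le _) (Finset.mem_univ l)))
    have h2 : 2 ^ j l ≤ 2 ^ σ J := Nat.pow_le_pow_right two_pos (by have := (hj2 l).2; omega)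
    calc K l * 2 ^ j l ≤ 2 ^ (∑ l, K l) * 2 ^ σ J := Nat.mul_le_mul h1 h2
      _ = 2 ^ (σ J + ∑ l, K l) := by rw [pow_add, mul_comm]
  have hfin : ∀ (L : ℕ) [NeZero L] (F : (Ex ι D → ZMod L) → ℂ),
      ∑ x, G (TA F x) ≤ (ε / 2 ^ Fintype.card (Ex ι D) * J) * ∑ x, ‖F x‖₊ ^ 2 := by
    intro L _ F
    have hsel : ∀ i (x : Ex ι D → ZMod L), ∃ k, k ∈ blk ι σ i ∧
        ((blk ι σ i).sup fun j => ‖TA F x (Mj K j) - TA F x (fun _ => 2 ^ σ i)‖₊ ^ 2) =
          ‖TA F x (Mj K k) - TA F x (fun _ => 2 ^ σ i)‖₊ ^ 2 := by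
      intro i x
      exact Finset.exists_mem_eq_sup _ ⟨fun _ => σ i, oscD_mem_blk.2 fun _ =>
        ⟨le_rfl, hσ (Nat.lt_succ_self i)⟩⟩ _
    choose j hj1 hj2 using hsel
    have h1 := hJ₀ L F σ hσ j (fun i x l => oscD_mem_blk.1 (hj1 i x) l) J hJ
    have h2 : ((∑ x, G (TA F x) : ℝ≥0) : ℝ) =
        ∑ i ∈ range J, ∑ x, ‖TA F x (Mj K (j i x)) - TA F x (fun _ => 2 ^ σ i)‖ ^ 2 := by
      rw [Finset.sum_comm]
      simp only [hj2]
      push_cast
      rfl
    rw [← NNReal.coe_le_coe, h2]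
    refine h1.trans (le_of_eq ?_)
    push_cast
    rfl
  have h1 := transfer_mp (D := D) (B := ε / 2 ^ Fintype.card (Ex ι D) * J) (G := G)
    (J := σ J + ∑ l, K l) hloc hGm hfin hRadd hR hf
  have h2 : ∑ i ∈ range J, ∫⁻ x, ((blk ι σ i).sup fun j =>
      ‖Av R f x (Mj K j) - Av R f x (fun _ => 2 ^ σ i)‖ₑ ^ 2) ∂μ = ∫⁻ x, G (Av R f x) ∂μ := by
    rw [← lintegral_finsetSum]
    · refine lintegral_congr fun x => ?_
      simp only [hG]
      push_cast
      rfl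
    · intro i _
      refine oscD_measurable_esup _ fun k => ?_
      exact ((measurable_Av (fun m => (hR m).measurable) hf (Mj K k)).sub
        (measurable_Av (fun m => (hR m).measurable) hf (fun _ => 2 ^ σ i))).enorm.pow_const 2
  rw [h2]
  refine h1.trans (le_of_eq ?_)
  congr 1
  have h3 : (2 ^ Fintype.card (Ex ι D) * (ε / 2 ^ Fintype.card (Ex ι D) * J) : ℝ≥0) = ε * J := by
    field_simp
  rw [h3]
  push_cast
  rfl

end Pool.Agent.Lib.Pf720mp
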