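import Pool.Agent.Lib.Pf720mp.Defs

/-!
# Recurrence lemma for polynomials in one variable

Notation `nd x` = distance to the nearest integer (`Pool.Agent.Lib.Pf720ae.Poly.IW.nd`).

Statement: if `g(x) = ∑_{e ≤ D} c_e x^e` satisfies `nd (g x) ≤ ε` for at least `N / K` of the
`x < N`, where `K ^ C ≤ N` and `K ^ C ε ≤ 1`, then for some `1 ≤ q ≤ K ^ C` one has
`nd (q c_e) N ^ e ≤ K ^ C ε` for all `e ≤ D` (also `e = 0`).

Proof. Let `H = ⌊1 / (8 ε)⌋` (a large integer, `K ^ (C-4) ≤ 8 H`, `8 H ε ≤ 1 ≤ 16 H ε`).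
Fejér: `F y = H⁻¹ |∑_{0 ≤ h < H} ee (h y)|² ≥ 0`, and `F y ≥ H / 4` if `nd y ≤ ε` (each
`|ee (h y) - 1| ≤ 2 π h nd y`, better: `Re ee (h y) ≥ 1/2` since `h nd y ≤ 1/8`). So
`N⁻¹ ∑_{x < N} F (g x) ≥ H / (4 K)`. Expanding, `N⁻¹ ∑_x F (g x) =
H⁻¹ ∑_{h, h' < H} N⁻¹ ∑_x ee ((h - h') g x) ≤ 1 + 2 ∑_{1 ≤ h < H} |N⁻¹ ∑_x ee (h g x)|`
(group by `|h - h'|`; diagonal `= 1`). As `H ≥ 8 K`, `∑_{1 ≤ h < H} |N⁻¹ ∑_x ee (h g x)| ≥ H / (16 K)`,
hence at least `H / (32 K)` of the `1 ≤ h < H` have `|N⁻¹ ∑_{x<N} ee (h g x)| ≥ 1 / (32 K)`.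
By `inverse_weyl D` (`IW`, with `ξ_e = h c_{e+1}`; the constant term does not change the modulus),
for each such `h` there is `q_h ≤ (32 K) ^ C₀` with
`nd (q_h h c_e) ≤ (32 K) ^ C₀ / N ^ e` for `1 ≤ e ≤ D`. Pigeonhole: a common `q` for at least
`H / (32 K (32 K) ^ C₀)` values of `h`. For each `1 ≤ e ≤ D` Vinogradov's lemma
`Poly.IW.vin` (with `α = q c_e`, `N := H`, `A = 32 K (32 K) ^ C₀ * 2`,
`ε := (32 K) ^ C₀ / N ^ e`) gives `q_e ≤ 16 A` with `nd (q_e q c_e) ≤ 32 A (32 K) ^ C₀ / (N ^ e H)` and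
`1 / H ≤ 16 ε`. Take the product `q' = q ∏ q_e`. For `e = 0`: there is some `x` with
`nd (g x) ≤ ε`, `nd (q' c_0) ≤ q' nd (g x) + ∑_{e ≥ 1} nd (q' c_e) x ^ e`. All constants are powers of
`K ≥ 2` with exponents depending on `D, C₀` (`32 = 2 ^ 5 ≤ K ^ 5`). `D = 0` is allowed (`q = 1`).
-/

set_option autoImplicit false
set_option linter.unusedSectionVars false

open Finset
open Pool.Agent.Lib.Pf720ae.Poly (ee)
open Pool.Agent.Lib.Pf720ae.Poly.IW (nd)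
open Pool.Agent.Lib.Pf720ae.Poly

namespace Pool.Agent.Lib.Pf720mp

/-- the exponential of a small multiple -/
lemma recA_near {y ε : ℝ} {H h : ℕ} (hH : 16 * (H : ℝ) * ε ≤ 1) (hh : h ≤ H) (hy : nd y ≤ ε) :
    ‖ee (h * y) - 1‖ ≤ 1 / 2 := by
  have h1 : ee (h * y) = ee (h * (y - round y)) := by
    have h2 := IW.ee_add_int (h * (y - round y)) (h * round y)
    rw [← h2]
    congr 1
    push_cast
    ring
  have h3 := IW.norm_ee_sub_ee_le (h * (y - round y)) 0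
  rw [IW.ee_zero, sub_zero, abs_mul, Nat.abs_cast] at h3
  rw [h1]
  refine h3.trans ?_
  have h4 : (h : ℝ) ≤ H := by exact_mod_cast hh
  have h5 : (h : ℝ) * |y - round y| ≤ 1 / 16 := by
    have h6 : (h : ℝ) * |y - round y| ≤ H * ε :=
      mul_le_mul h4 hy (abs_nonneg _) (Nat.cast_nonneg _)
    linarith
  have h7 := Real.pi_lt_four
  have h8 := Real.pi_pos
  have h9 : 0 ≤ (h : ℝ) * |y - round y| := by positivity
  nlinarith

lemma recA_sum {y ε : ℝ} {H : ℕ} (hH : 16 * (H : ℝ) * ε ≤ 1) (hy : nd y ≤ ε) :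
    (H : ℝ) / 2 ≤ ‖∑ h ∈ range H, ee (h * y)‖ := by
  have h1 : ‖∑ h ∈ range H, (1 - ee (h * y))‖ ≤ H * (1 / 2) := by
    refine (norm_sum_le _ _).trans ?_
    have h2 : ∀ h ∈ range H, ‖1 - ee (h * y)‖ ≤ 1 / 2 := by
      intro h hh
      rw [norm_sub_rev]
      exact recA_near hH (mem_range.1 hh).le hy
    refine (sum_le_sum h2).trans (le_of_eq ?_)
    rw [sum_const, card_range, nsmul_eq_mul]
  rw [sum_sub_distrib, sum_const, card_range, nsmul_eq_mul, mul_one] at h1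
  have h3 := norm_sub_norm_le (H : ℂ) (∑ h ∈ range H, ee (h * y))
  rw [Complex.norm_natCast] at h3
  linarith

/-- the Fejer kernel -/
lemma recA_fejer (y : ℝ) (H : ℕ) : ‖∑ h ∈ range H, ee (h * y)‖ ^ 2 =
    H + 2 * ∑ k ∈ range H, ((H - (k + 1) : ℕ) : ℝ) * (ee (((k : ℝ) + 1) * y)).re := by
  rw [IW.vdc_identity (fun h => ee (h * y)) (fun h => IW.norm_ee _) H, Complex.re_sum]
  congr 2
  refine sum_congr rfl fun k _ => ?_
  have h1 : IW.cor (fun h => ee (h * y)) H k =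
      ((H - (k + 1) : ℕ) : ℂ) * ee (((k : ℝ) + 1) * y) := by
    rw [IW.cor]
    have h2 : ∀ m ∈ range (H - (k + 1)), ee (((m + (k + 1) : ℕ) : ℝ) * y) *
        (starRingEnd ℂ) (ee ((m : ℝ) * y)) = ee (((k : ℝ) + 1) * y) := by
      intro m _
      rw [IW.conj_ee, ← IW.ee_add]
      congr 1
      push_cast
      ring
    rw [sum_congr rfl h2, sum_const, card_range, nsmul_eq_mul]
  rw [h1]
  simp

/-- many large exponential sums -/
lemma recA_many {K ε : ℝ} (hK : 2 ≤ K) {N H : ℕ} (hH : 8 * K ≤ H) (hHε : 16 * (H : ℝ) * ε ≤ 1)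
    (g : ℕ → ℝ) (E : Finset ℕ) (hE : ∀ x ∈ E, x < N) (hcard : (N : ℝ) ≤ K * E.card)
    (hnd : ∀ x ∈ E, nd (g x) ≤ ε) :
    ∃ T : Finset ℕ, (∀ h ∈ T, h ≤ H) ∧ (H : ℝ) ≤ K ^ 6 * T.card ∧
      ∀ h ∈ T, (N : ℝ) ≤ K ^ 6 * ‖∑ x ∈ range N, ee (h * g x)‖ := by
  classical
  have hK0 : 0 < K := by linarith
  have hH0 : (0:ℝ) < H := by linarith
  have hK5 : (32:ℝ) ≤ K ^ 5 := by
    calc (32:ℝ) = 2 ^ 5 := by norm_num
      _ ≤ K ^ 5 := pow_le_pow_left₀ (by norm_num) hK 5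
  rcases Nat.eq_zero_or_pos N with hN0 | hN0
  · subst hN0
    refine ⟨range H, fun h hh => (mem_range.1 hh).le, ?_, fun h _ => by simp⟩
    rw [card_range]
    exact le_mul_of_one_le_left hH0.le (one_le_pow₀ (by linarith))
  have hN : (0:ℝ) < N := by exact_mod_cast hN0
  set W : ℕ → ℝ := fun k => ‖∑ x ∈ range N, ee (((k : ℝ) + 1) * g x)‖ with hW
  have hWN : ∀ k, W k ≤ N := by
    intro k
    refine (norm_sum_le _ _).trans ?_
    simp [IW.norm_ee]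
  have hW0 : ∀ k, 0 ≤ W k := fun k => norm_nonneg _
  -- lower bound
  have h1 : (E.card : ℝ) * (H / 2) ^ 2 ≤ ∑ x ∈ range N, ‖∑ h ∈ range H, ee (h * g x)‖ ^ 2 := by
    have hsub : E ⊆ range N := fun x hx => mem_range.2 (hE x hx)
    calc (E.card : ℝ) * (H / 2) ^ 2 = ∑ x ∈ E, ((H : ℝ) / 2) ^ 2 := by
          rw [sum_const, nsmul_eq_mul]
      _ ≤ ∑ x ∈ E, ‖∑ h ∈ range H, ee (h * g x)‖ ^ 2 :=
          sum_le_sum fun x hx => pow_le_pow_left₀ (by positivity) (recA_sum hHε (hnd x hx)) 2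
      _ ≤ _ := sum_le_sum_of_subset_of_nonneg hsub fun _ _ _ => by positivity
  -- upper bound
  have h2 : ∑ x ∈ range N, ‖∑ h ∈ range H, ee (h * g x)‖ ^ 2 ≤
      N * H + 2 * ∑ k ∈ range H, H * W k := by
    simp only [recA_fejer]
    rw [sum_add_distrib, sum_const, card_range, nsmul_eq_mul, ← mul_sum, sum_comm]
    have h3 : ∀ k ∈ range H, ∑ x ∈ range N, ((H - (k + 1) : ℕ) : ℝ) *
        (ee (((k : ℝ) + 1) * g x)).re ≤ H * W k := by
      intro k _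
      rw [← mul_sum, ← Complex.re_sum]
      have h4 : ((H - (k + 1) : ℕ) : ℝ) ≤ H := by exact_mod_cast Nat.sub_le _ _
      calc ((H - (k + 1) : ℕ) : ℝ) * (∑ x ∈ range N, ee (((k : ℝ) + 1) * g x)).re
          ≤ ((H - (k + 1) : ℕ) : ℝ) * W k :=
            mul_le_mul_of_nonneg_left (Complex.re_le_norm _) (Nat.cast_nonneg _)
        _ ≤ H * W k := mul_le_mul_of_nonneg_right h4 (hW0 k)
    have := sum_le_sum h3
    linarith
  rw [← mul_sum] at h2
  have h5 : (N : ℝ) * H ≤ 16 * K * ∑ k ∈ range H, W k := by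
    have h6 : (E.card : ℝ) * (H / 2) ^ 2 ≤ N * H + 2 * (H * ∑ k ∈ range H, W k) := h1.trans h2
    have h7 : (N : ℝ) * (H / 2) ^ 2 ≤ K * (N * H + 2 * (H * ∑ k ∈ range H, W k)) := by
      calc (N : ℝ) * (H / 2) ^ 2 ≤ K * E.card * (H / 2) ^ 2 :=
            mul_le_mul_of_nonneg_right hcard (by positivity)
        _ = K * (E.card * (H / 2) ^ 2) := by ring
        _ ≤ _ := mul_le_mul_of_nonneg_left h6 hK0.le
    have h8 : (H : ℝ) * (N * H) ≤ H * (4 * K * N + 8 * K * ∑ k ∈ range H, W k) := by nlinarith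
    have h9 := le_of_mul_le_mul_left h8 hH0
    have h10 : 4 * K * N ≤ N * H / 2 := by nlinarith
    linarith
  set T : Finset ℕ := (range H).filter fun k => (N : ℝ) ≤ K ^ 6 * W k with hT
  have hT1 : ∀ k ∈ T, k < H ∧ (N : ℝ) ≤ K ^ 6 * W k := fun k hk =>
    ⟨mem_range.1 (mem_filter.1 hk).1, (mem_filter.1 hk).2⟩
  have h11 : ∑ k ∈ range H, W k ≤ T.card * N + H * (N / K ^ 6) := by
    have h12 : ∀ k ∈ range H, W k ≤ (if k ∈ T then (N:ℝ) else 0) + N / K ^ 6 := by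
      intro k hk
      have hpos : (0:ℝ) ≤ N / K ^ 6 := by positivity
      by_cases hkT : k ∈ T
      · rw [if_pos hkT]
        linarith [hWN k]
      · rw [if_neg hkT, zero_add]
        have h13 : ¬ (N : ℝ) ≤ K ^ 6 * W k := fun h => hkT (mem_filter.2 ⟨hk, h⟩)
        rw [le_div_iff₀ (by positivity)]
        push Not at h13
        linarith
    refine (sum_le_sum h12).trans ?_
    rw [sum_add_distrib, sum_const, card_range, nsmul_eq_mul]
    have h7 : ∑ k ∈ range H, (if k ∈ T then (N:ℝ) else 0) = T.card * N := by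
      rw [← sum_filter, sum_const, nsmul_eq_mul]
      congr 3
      ext k
      rw [mem_filter]
      constructor
      · exact fun h => h.2
      · exact fun h => ⟨(mem_filter.1 h).1, h⟩
    rw [h7]
  have h14 : (H : ℝ) ≤ 32 * K * T.card := by
    have h15 : (N : ℝ) * H ≤ 16 * K * (T.card * N + H * (N / K ^ 6)) :=
      h5.trans (mul_le_mul_of_nonneg_left h11 (by positivity))
    have h16 : 16 * K * (H * (N / K ^ 6)) ≤ N * H / 2 := by
      have h17 : N / K ^ 6 ≤ N / (32 * K) := by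
        apply div_le_div_of_nonneg_left hN.le (by positivity)
        nlinarith [show K ^ 6 = K * K ^ 5 by ring]
      calc 16 * K * (H * (N / K ^ 6)) ≤ 16 * K * (H * (N / (32 * K))) := by gcongr
        _ = N * H / 2 := by field_simp; ring
    have h18 : (N : ℝ) * H ≤ N * (32 * K * T.card) := by nlinarith
    exact le_of_mul_le_mul_left h18 hN
  refine ⟨T.image (· + 1), ?_, ?_, ?_⟩
  · intro h hh
    obtain ⟨k, hk, rfl⟩ := mem_image.1 hh
    exact (hT1 k hk).1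
  · rw [card_image_of_injective _ (add_left_injective 1)]
    refine h14.trans (mul_le_mul_of_nonneg_right ?_ (Nat.cast_nonneg _))
    nlinarith [show K ^ 6 = K * K ^ 5 by ring]
  · intro h hh
    obtain ⟨k, hk, rfl⟩ := mem_image.1 hh
    have := (hT1 k hk).2
    simp only [hW] at this
    push_cast
    exact this

/-- the Vinogradov step, for one coefficient -/
lemma recA_vin {L ε : ℝ} (hL : 32 ≤ L) (hε : 0 < ε) {N H C₀ e : ℕ} (he : 0 < e) (hN0 : 0 < N)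
    (hH1 : L ^ (C₀ + 3) ≤ H) (hH2 : 1 ≤ 32 * H * ε) (hN : L ^ (2 * C₀ + 3) ≤ N)
    {α : ℝ} (T : Finset ℕ) (hT : ∀ h ∈ T, h ≤ H) (hcard : (H : ℝ) ≤ L ^ (C₀ + 1) * T.card)
    (hnd : ∀ h ∈ T, nd (h * α) ≤ L ^ C₀ / (N : ℝ) ^ e) :
    ∃ q : ℕ, 0 < q ∧ (q : ℝ) ≤ L ^ (C₀ + 2) ∧
      nd (q * α) * (N : ℝ) ^ e ≤ L ^ (2 * C₀ + 3) * ε := by
  have hL1 : 1 ≤ L := by linarith
  have hL0 : 0 < L := by linarith
  have hNr : (0:ℝ) < N := by exact_mod_cast hN0
  have hN1 : (1:ℝ) ≤ N := by exact_mod_cast hN0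
  have hNe : (N : ℝ) ≤ (N : ℝ) ^ e := by
    calc (N : ℝ) = (N : ℝ) ^ 1 := (pow_one _).symm
      _ ≤ (N : ℝ) ^ e := pow_le_pow_right₀ hN1 he
  have hNe0 : (0:ℝ) < (N : ℝ) ^ e := by positivity
  have hA1 : 1 ≤ L ^ (C₀ + 1) := one_le_pow₀ hL1
  have hp0 : 0 < L ^ C₀ := by positivity
  have h1 : 64 * L ^ (C₀ + 1) * (L ^ C₀ / (N : ℝ) ^ e) ≤ 1 := by
    rw [mul_div_assoc', div_le_one hNe0]
    refine le_trans ?_ (hN.trans hNe)
    calc 64 * L ^ (C₀ + 1) * L ^ C₀ = 64 * L ^ (2 * C₀ + 1) := by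
          rw [mul_assoc, ← pow_add]
          congr 2
          omega
      _ ≤ L ^ 2 * L ^ (2 * C₀ + 1) := by
          apply mul_le_mul_of_nonneg_right _ (by positivity)
          nlinarith
      _ = L ^ (2 * C₀ + 3) := by
          rw [← pow_add]
          congr 1
          omega
  have h2 : 16 * L ^ (C₀ + 1) ≤ H := by
    refine le_trans ?_ hH1
    calc 16 * L ^ (C₀ + 1) ≤ L ^ 2 * L ^ (C₀ + 1) := by
          apply mul_le_mul_of_nonneg_right _ (by positivity)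
          nlinarith
      _ = L ^ (C₀ + 3) := by
          rw [← pow_add]
          congr 1
          omega
  obtain ⟨q, hq0, hq1, hq2⟩ := IW.vin hA1 (div_pos hp0 hNe0) h1 h2 T hT hcard hnd
  have hH0 : (0:ℝ) < H := by linarith
  refine ⟨q, hq0, hq1.trans ?_, ?_⟩
  · calc 16 * L ^ (C₀ + 1) ≤ L * L ^ (C₀ + 1) := by
          apply mul_le_mul_of_nonneg_right _ (by positivity)
          linarith
      _ = L ^ (C₀ + 2) := by
          rw [← pow_succ']
  · have h3 : nd (q * α) * (N : ℝ) ^ e ≤ 32 * L ^ (C₀ + 1) * L ^ C₀ / H := by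
      calc nd (q * α) * (N : ℝ) ^ e ≤
            32 * L ^ (C₀ + 1) * (L ^ C₀ / (N : ℝ) ^ e) / H * (N : ℝ) ^ e :=
            mul_le_mul_of_nonneg_right hq2 hNe0.le
        _ = 32 * L ^ (C₀ + 1) * L ^ C₀ / H := by
            field_simp
    refine h3.trans ?_
    rw [div_le_iff₀ hH0]
    have h4 : 0 < L ^ (C₀ + 1) * L ^ C₀ := by positivity
    have h5 : L ^ (2 * C₀ + 3) = L ^ 2 * (L ^ (C₀ + 1) * L ^ C₀) := by
      rw [← pow_add, ← pow_add]
      congr 1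
      omega
    rw [h5]
    calc 32 * L ^ (C₀ + 1) * L ^ C₀ = 32 * (L ^ (C₀ + 1) * L ^ C₀) * 1 := by ring
      _ ≤ 32 * (L ^ (C₀ + 1) * L ^ C₀) * (32 * H * ε) :=
          mul_le_mul_of_nonneg_left hH2 (by positivity)
      _ = 1024 * ((L ^ (C₀ + 1) * L ^ C₀) * (ε * H)) := by ring
      _ ≤ L ^ 2 * ((L ^ (C₀ + 1) * L ^ C₀) * (ε * H)) := by
          apply mul_le_mul_of_nonneg_right _ (by positivity)
          nlinarith
      _ = _ := by ring

/-- the pigeonhole step -/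
lemma recA_pig {L : ℝ} {C : ℕ} (T : Finset ℕ) (q : ℕ → ℕ) (hq : ∀ h ∈ T, (q h : ℝ) ≤ L ^ C)
    (hq0 : ∀ h ∈ T, 0 < q h) (hL : 0 < L) (hne : T.Nonempty) :
    ∃ p : ℕ, 0 < p ∧ (p : ℝ) ≤ L ^ C ∧ (T.card : ℝ) ≤ L ^ C * (T.filter fun h => q h = p).card := by
  classical
  set Q := ⌊L ^ C⌋₊ with hQ
  have hmaps : ∀ h ∈ T, q h ∈ Icc 1 Q := fun h hh =>
    mem_Icc.2 ⟨hq0 h hh, Nat.le_floor (hq h hh)⟩
  by_contra hcon
  push Not at hcon
  have h1 : (T.card : ℝ) = ∑ p ∈ Icc 1 Q, ((T.filter fun h => q h = p).card : ℝ) := by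
    have := card_eq_sum_card_fiberwise hmaps
    exact_mod_cast this
  have hQne : (Icc 1 Q).Nonempty := by
    obtain ⟨h, hh⟩ := hne
    exact ⟨_, hmaps h hh⟩
  have h2 : ∀ p ∈ Icc 1 Q, L ^ C * ((T.filter fun h => q h = p).card : ℝ) < T.card := by
    intro p hp
    obtain ⟨h3, h4⟩ := mem_Icc.1 hp
    refine hcon p h3 ?_
    have h5 : (p : ℝ) ≤ Q := by exact_mod_cast h4
    exact h5.trans (Nat.floor_le (by positivity))
  have h3 := sum_lt_sum_of_nonempty hQne h2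
  rw [← mul_sum, ← h1, sum_const, Nat.card_Icc, nsmul_eq_mul, Nat.add_sub_cancel] at h3
  have h4 : (Q : ℝ) ≤ L ^ C := Nat.floor_le (by positivity)
  have h5 : (Q : ℝ) * T.card ≤ L ^ C * T.card := mul_le_mul_of_nonneg_right h4 (Nat.cast_nonneg _)
  linarith

theorem rec_one (D : ℕ) : ∃ C : ℕ, ∀ K : ℝ, 2 ≤ K → ∀ N : ℕ, K ^ C ≤ N → ∀ ε : ℝ, 0 < ε →
    K ^ C * ε ≤ 1 → ∀ c : Fin (D + 1) → ℝ, ∀ E : Finset ℕ, (∀ x ∈ E, x < N) →
    (N : ℝ) ≤ K * E.card → (∀ x ∈ E, nd (∑ e, c e * (x : ℝ) ^ (e : ℕ)) ≤ ε) →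
    ∃ q : ℕ, 0 < q ∧ (q : ℝ) ≤ K ^ C ∧
      ∀ e, nd (q * c e) * (N : ℝ) ^ (e : ℕ) ≤ K ^ C * ε := by
  obtain ⟨C₀, hC₀⟩ := IW.main D
  set M := (C₀ + 2) * D + 2 * C₀ + 3 with hM
  refine ⟨6 * (M + D + 1), fun K hK N hN ε hε hKε c E hE hcard hnd => ?_⟩
  classical
  set L := K ^ 6 with hL
  have hK0 : 0 < K := by linarith
  have hL64 : 64 ≤ L := by
    calc (64:ℝ) = 2 ^ 6 := by norm_num
      _ ≤ K ^ 6 := pow_le_pow_left₀ (by norm_num) hK 6
  have hL1 : 1 ≤ L := by linarith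
  have hL0 : 0 < L := by linarith
  rw [pow_mul, ← hL] at hN hKε ⊢
  have hNr : (0:ℝ) < N := lt_of_lt_of_le (by positivity) hN
  have hN0 : 0 < N := by exact_mod_cast hNr
  -- the parameter H
  set H := ⌊1 / (16 * ε)⌋₊ with hH
  have hH1 : (H : ℝ) ≤ 1 / (16 * ε) := Nat.floor_le (by positivity)
  have hH2 : 1 / (16 * ε) < H + 1 := Nat.lt_floor_add_one _
  have hHε : 16 * (H : ℝ) * ε ≤ 1 := by
    rw [le_div_iff₀ (by positivity)] at hH1
    linarith
  have hH3 : 1 < 16 * ε * (H + 1) := by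
    rw [div_lt_iff₀ (by positivity)] at hH2
    linarith
  have hpow : ∀ a b : ℕ, a ≤ b → L ^ a ≤ L ^ b := fun a b h => pow_le_pow_right₀ hL1 h
  have hH4 : L ^ (M + D + 1) < 16 * (H + 1) := by
    have h1 : L ^ (M + D + 1) * ε < 16 * (H + 1) * ε := by linarith
    exact lt_of_mul_lt_mul_right h1 hε.le
  have hH5 : L ^ (M + D) ≤ H := by
    have h1 : L ^ (M + D + 1) = L * L ^ (M + D) := pow_succ' _ _
    have h2 : 1 ≤ L ^ (M + D) := one_le_pow₀ hL1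
    nlinarith
  have hH6 : 1 ≤ 32 * (H : ℝ) * ε := by
    have h2 : 1 ≤ L ^ (M + D) := one_le_pow₀ hL1
    nlinarith
  have hH7 : 8 * K ≤ H := by
    refine le_trans ?_ hH5
    have h1 : L ≤ L ^ (M + D) := by
      calc L = L ^ 1 := (pow_one _).symm
        _ ≤ _ := hpow _ _ (by omega)
    refine le_trans ?_ h1
    have h3 : (8:ℝ) ≤ K ^ 5 := by
      calc (8:ℝ) ≤ 2 ^ 5 := by norm_num
        _ ≤ K ^ 5 := pow_le_pow_left₀ (by norm_num) hK 5
    nlinarith [show K ^ 6 = K * K ^ 5 by ring]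
  obtain ⟨T, hT1, hT2, hT3⟩ := recA_many hK hH7 hHε
    (fun x => ∑ e : Fin (D + 1), c e * (x : ℝ) ^ (e : ℕ)) E hE hcard hnd
  -- inverse theorem
  set ζ : ℕ → ℝ := fun e => if he : e < D then c (Fin.succ ⟨e, he⟩) else 0 with hζ
  have hζe : ∀ e : Fin D, ζ e = c (Fin.succ e) := fun e => dif_pos e.2
  have hph : ∀ x : ℕ, ∑ e : Fin (D + 1), c e * (x : ℝ) ^ (e : ℕ) = c 0 + IW.PP D ζ x := by
    intro x
    rw [IW.PP, ← Fin.sum_univ_eq_sum_range (fun e => ζ e * (x : ℝ) ^ (e + 1)) D, Fin.sum_univ_succ]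
    congr 1
    · simp
    · refine sum_congr rfl fun e _ => ?_
      rw [hζe, Fin.val_succ]
  have hgood : ∀ h ∈ T, ∃ q : ℕ, 0 < q ∧ (q : ℝ) ≤ L ^ C₀ ∧
      ∀ e < D, nd (q * (h * ζ e)) ≤ L ^ C₀ / (N : ℝ) ^ (e + 1) := by
    intro h hh
    have h1 := hT3 h hh
    have h2 : ‖∑ x ∈ range N, ee (h * ∑ e : Fin (D + 1), c e * (x : ℝ) ^ (e : ℕ))‖ =
        ‖∑ x ∈ range N, ee (IW.PP D (fun e => h * ζ e) x)‖ := by
      have h3 : ∀ x ∈ range N, ee (h * ∑ e : Fin (D + 1), c e * (x : ℝ) ^ (e : ℕ)) =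
          ee (h * c 0) * ee (IW.PP D (fun e => h * ζ e) x) := by
        intro x _
        rw [hph, mul_add, IW.ee_add]
        congr 2
        rw [IW.PP, IW.PP, mul_sum]
        exact sum_congr rfl fun e _ => by ring
      rw [sum_congr rfl h3, ← mul_sum, norm_mul, IW.norm_ee, one_mul]
    rw [h2] at h1
    obtain ⟨q, hq0, hq1, hq2⟩ := hC₀ L (by linarith) N hN0 _ h1
    exact ⟨q, hq0, hq1, fun e he => hq2 e (Nat.zero_le _) he⟩
  choose! qf hqf0 hqf1 hqf2 using hgood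
  have hTne : T.Nonempty := by
    rw [← card_pos]
    have h1 : (0:ℝ) < L * T.card := lt_of_lt_of_le (by linarith) hT2
    have h2 : (0:ℝ) < T.card := by
      by_contra h
      push Not at h
      nlinarith
    exact_mod_cast h2
  obtain ⟨q, hq0, hq1, hq2⟩ := recA_pig T qf hqf1 hqf0 hL0 hTne
  set T' := T.filter fun h => qf h = q with hT'
  have hT'1 : (H : ℝ) ≤ L ^ (C₀ + 1) * T'.card := by
    calc (H : ℝ) ≤ L * T.card := hT2
      _ ≤ L * (L ^ C₀ * T'.card) := mul_le_mul_of_nonneg_left hq2 hL0.le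
      _ = L ^ (C₀ + 1) * T'.card := by ring
  -- Vinogradov
  have hvin : ∀ e : Fin D, ∃ p : ℕ, 0 < p ∧ (p : ℝ) ≤ L ^ (C₀ + 2) ∧
      nd (p * (q * ζ e)) * (N : ℝ) ^ ((e : ℕ) + 1) ≤ L ^ (2 * C₀ + 3) * ε := by
    intro e
    have hDpos : 0 < D := lt_of_le_of_lt (Nat.zero_le _) e.2
    refine recA_vin (by linarith) hε (Nat.succ_pos _) hN0 ((hpow _ _ ?_).trans hH5) hH6
      ((hpow _ _ ?_).trans hN) T' (fun h hh => hT1 h (mem_filter.1 hh).1) hT'1 ?_
    · nlinarith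
    · nlinarith
    · intro h hh
      obtain ⟨h1, h2⟩ := mem_filter.1 hh
      have h3 := hqf2 h h1 e e.2
      rw [h2] at h3
      rw [show (h : ℝ) * (q * ζ e) = q * (h * ζ e) by ring]
      exact h3
  choose p hp0 hp1 hp2 using hvin
  set P := ∏ e, p e with hP
  have hP0 : 0 < P := prod_pos fun e _ => hp0 e
  have hprod : ∀ s : Finset (Fin D), ((∏ e ∈ s, p e : ℕ) : ℝ) ≤ (L ^ (C₀ + 2)) ^ s.card := by
    intro s
    push_cast
    calc ∏ e ∈ s, (p e : ℝ) ≤ ∏ e ∈ s, L ^ (C₀ + 2) :=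
          prod_le_prod (fun _ _ => Nat.cast_nonneg _) fun e _ => hp1 e
      _ = _ := by rw [prod_const]
  have hcoef : ∀ e : Fin D, nd ((q * P : ℕ) * ζ e) * (N : ℝ) ^ ((e : ℕ) + 1) ≤ L ^ M * ε := by
    intro e
    set R := ∏ e' ∈ univ.erase e, p e' with hR
    have h1 : P = R * p e := by
      rw [hP, hR, mul_comm]
      exact (mul_prod_erase univ p (mem_univ e)).symm
    have h2 : ((q * P : ℕ) : ℝ) * ζ e = R * (p e * (q * ζ e)) := by
      rw [h1]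
      push_cast
      ring
    have h3 : (R : ℝ) ≤ L ^ ((C₀ + 2) * D) := by
      refine (hprod _).trans ?_
      rw [← pow_mul]
      refine hpow _ _ (Nat.mul_le_mul_left _ ?_)
      calc (univ.erase e).card ≤ (univ : Finset (Fin D)).card := card_erase_le
        _ = D := by simp
    rw [h2]
    calc nd (R * (p e * (q * ζ e))) * (N : ℝ) ^ ((e : ℕ) + 1)
        ≤ R * nd (p e * (q * ζ e)) * (N : ℝ) ^ ((e : ℕ) + 1) :=
          mul_le_mul_of_nonneg_right (IW.nd_nat_mul _ _) (by positivity)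
      _ = R * (nd (p e * (q * ζ e)) * (N : ℝ) ^ ((e : ℕ) + 1)) := by ring
      _ ≤ R * (L ^ (2 * C₀ + 3) * ε) := mul_le_mul_of_nonneg_left (hp2 e) (Nat.cast_nonneg _)
      _ ≤ L ^ ((C₀ + 2) * D) * (L ^ (2 * C₀ + 3) * ε) :=
          mul_le_mul_of_nonneg_right h3 (by positivity)
      _ = L ^ M * ε := by
          rw [← mul_assoc, ← pow_add]
          congr 2
  have hqP : ((q * P : ℕ) : ℝ) ≤ L ^ M := by
    have h1 : (P : ℝ) ≤ L ^ ((C₀ + 2) * D) := by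
      refine (hprod univ).trans ?_
      rw [← pow_mul]
      refine hpow _ _ (Nat.mul_le_mul_left _ ?_)
      simp
    push_cast
    calc (q : ℝ) * P ≤ L ^ C₀ * L ^ ((C₀ + 2) * D) :=
          mul_le_mul hq1 h1 (Nat.cast_nonneg _) (by positivity)
      _ = L ^ (C₀ + (C₀ + 2) * D) := (pow_add _ _ _).symm
      _ ≤ L ^ M := hpow _ _ (by omega)
  refine ⟨q * P, Nat.mul_pos hq0 hP0, hqP.trans (hpow _ _ (by omega)), ?_⟩
  intro e
  refine Fin.cases ?_ (fun e => ?_) e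
  · -- the constant coefficient
    have hEne : E.Nonempty := by
      rw [← card_pos]
      have h2 : (0:ℝ) < E.card := by
        by_contra h
        push Not at h
        nlinarith
      exact_mod_cast h2
    obtain ⟨x, hx⟩ := hEne
    have h1 := hnd x hx
    rw [hph] at h1
    have h2 : ((q * P : ℕ) : ℝ) * c 0 = (q * P : ℕ) * (c 0 + IW.PP D ζ x) -
        ∑ e : Fin D, ((x ^ ((e : ℕ) + 1) : ℕ) : ℝ) * ((q * P : ℕ) * ζ e) := by
      rw [IW.PP, ← Fin.sum_univ_eq_sum_range (fun e => ζ e * (x : ℝ) ^ (e + 1)) D, mul_add,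
        mul_sum, add_sub_assoc, ← sum_sub_distrib]
      rw [sum_eq_zero, add_zero]
      intro e _
      push_cast
      ring
    have h3 : nd ((q * P : ℕ) * c 0) ≤ (q * P : ℕ) * ε + ∑ e : Fin D, L ^ M * ε := by
      rw [h2]
      refine (IW.nd_sub _ _).trans (add_le_add ?_ ?_)
      · exact (IW.nd_nat_mul _ _).trans (mul_le_mul_of_nonneg_left h1 (Nat.cast_nonneg _))
      · refine (IW.nd_sum _ _).trans (sum_le_sum fun e _ => ?_)
        refine (IW.nd_nat_mul _ _).trans (le_trans ?_ (hcoef e))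
        rw [mul_comm]
        refine mul_le_mul_of_nonneg_left ?_ (IW.nd_nonneg _)
        have : (x : ℝ) ≤ N := by exact_mod_cast (hE x hx).le
        push_cast
        exact pow_le_pow_left₀ (Nat.cast_nonneg _) this _
    rw [sum_const, card_univ, Fintype.card_fin, nsmul_eq_mul] at h3
    have h4 : nd ((q * P : ℕ) * c 0) ≤ (D + 1) * (L ^ M * ε) := by
      have : ((q * P : ℕ) : ℝ) * ε ≤ L ^ M * ε := mul_le_mul_of_nonneg_right hqP hε.le
      linarith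
    have h5 : ((D : ℝ) + 1) ≤ L ^ (D + 1) := by
      have := IW.nat_le_pow (by linarith : (2:ℝ) ≤ L) (D + 1)
      push_cast at this
      exact this
    rw [Fin.val_zero, pow_zero, mul_one]
    calc nd ((q * P : ℕ) * c 0) ≤ (D + 1) * (L ^ M * ε) := h4
      _ ≤ L ^ (D + 1) * (L ^ M * ε) := mul_le_mul_of_nonneg_right h5 (by positivity)
      _ = L ^ (M + D + 1) * ε := by
          rw [← mul_assoc, ← pow_add]
          congr 2
          omega
  · have h1 := hcoef e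
    rw [hζe] at h1
    rw [Fin.val_succ]
    exact h1.trans (mul_le_mul_of_nonneg_right (hpow _ _ (by omega)) hε.le)

end Pool.Agent.Lib.Pf720mp
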