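import Pool.Agent.Lib.Pf720mp.RecA
import Pool.Agent.Lib.Pf720mp.Api

/-!
# Recurrence lemma for polynomials in several variables

`Finset.induction_on V`. `V = ∅`: the box is `{0}`, `E = {0}`, `pp g 0 = g 0`, `q = 1`, and the only
exponent `γ` vanishing everywhere is `0`.

Step `V = insert a V'`. Let `M' = Function.update M a 1`. The map `m ↦ (m a, update m a 0)`
identifies `bx M` with `range (M a) × bx M'`, and
`pp g m = pp (psi {a} μ g) (update m a 0)` for `μ = Pi.single a (m a)` (`pp_psi`). Write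
`g^x = psi {a} (Pi.single a x) g`; for `γ` with `γ a = 0`, `g^x γ = ∑_{e ≤ D} g (update γ a e) x ^ e`.
Since `∑_x |E_x| = |E| ≥ M_a ∏ M' / K`, the set `X` of the `x < M_a` with
`|E_x| ≥ ∏ M' / (2 K)` has at least `M_a / (2 K)` elements. For `x ∈ X` the induction hypothesis for
`V'`, `2 K`, `M'`, `g^x` gives `q_x ≤ (2 K) ^ C'`, `nd (q_x g^x γ) mon M' γ ≤ (2 K) ^ C' ε` for all `γ`
supported in `V'`. Pigeonhole: common `q` on `X' ⊆ X`, `|X'| ≥ M_a / (2 K (2 K) ^ C')`. For each `γ`
supported in `V'` apply `rec_one` to `c e = q * g (update γ a e)`, `N = M a`, `E = X'`,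
`K₁ = (2 K) ^ (C' + 1)`, `ε₁ = (2 K) ^ C' ε / mon M' γ`: get `q_γ ≤ K₁ ^ C₁`,
`nd (q_γ q g (update γ a e)) M_a ^ e ≤ K₁ ^ C₁ ε₁`. Final `q_tot = q * ∏_γ q_γ` (product over all
the exponents supported in `V'`, at most `(D+1) ^ card ι` of them). Every `γ'` supported in `V` is
`update γ a e` with `γ = update γ' a 0`, `e = γ' a`, and `mon M γ' = M_a ^ e * mon M' γ`.
-/

set_option autoImplicit false
set_option linter.unusedSectionVars false

open Finset
open Pool.Agent.Lib.Pf720ae.Poly (ee)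
open Pool.Agent.Lib.Pf720ae.Poly.IW (nd)

namespace Pool.Agent.Lib.Pf720mp

variable {ι : Type} [Fintype ι] [DecidableEq ι]

namespace RecBAux

variable {D : ℕ}

theorem psi_single (a : ι) (x : ℕ) (g : Ex ι D → ℝ) {γ : Ex ι D} (hγ : γ a = 0) :
    psi {a} (Pi.single a x) g γ =
      ∑ e : Fin (D + 1), g (Function.update γ a e) * (x : ℝ) ^ (e : ℕ) := by
  have hinj : Function.Injective (fun e : Fin (D + 1) => (Function.update γ a e : Ex ι D)) :=
    Function.update_injective γ a
  unfold psi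
  rw [← Finset.sum_subset (Finset.subset_univ
    (univ.image (fun e : Fin (D + 1) => (Function.update γ a e : Ex ι D))))]
  · rw [Finset.sum_image (fun x _ y _ h => hinj h)]
    refine Finset.sum_congr rfl fun e _ => ?_
    have : wt {a} (Pi.single a x) γ (Function.update γ a e) = x ^ (e : ℕ) := by
      unfold wt
      rw [if_pos]
      · simp
      · constructor
        · intro l hl
          rw [Finset.mem_singleton] at hl
          rw [hl, hγ]
        · intro l hl
          rw [Finset.mem_singleton] at hl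
          rw [Function.update_of_ne hl]
    rw [this]
    push_cast
    ring
  · intro δ _ hδ
    have : wt {a} (Pi.single a x) γ δ = 0 := by
      unfold wt
      rw [if_neg]
      rintro ⟨_, h2⟩
      apply hδ
      rw [Finset.mem_image]
      refine ⟨δ a, Finset.mem_univ _, ?_⟩
      funext l
      rcases eq_or_ne l a with rfl | hl
      · simp
      · rw [Function.update_of_ne hl, h2 l (by simpa using hl)]
    rw [this]
    simp

/-- the fibre of `E` over `x` -/
def fib (a : ι) (E : Finset (ι → ℕ)) (x : ℕ) : Finset (ι → ℕ) :=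
  (E.filter (fun m => m a = x)).image (fun m => Function.update m a 0)

theorem card_fib (a : ι) (E : Finset (ι → ℕ)) (x : ℕ) :
    (fib a E x).card = (E.filter (fun m => m a = x)).card := by
  unfold fib
  rw [Finset.card_image_of_injOn]
  intro m hm m' hm' h
  rw [Finset.mem_coe, Finset.mem_filter] at hm hm'
  funext l
  rcases eq_or_ne l a with rfl | hl
  · rw [hm.2, hm'.2]
  · have := congrFun h l
    simp only at this
    rwa [Function.update_of_ne hl, Function.update_of_ne hl] at this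

theorem sum_card_fib {a : ι} {M : ι → ℕ} {E : Finset (ι → ℕ)} (hE : E ⊆ bx M) :
    ∑ x ∈ range (M a), (fib a E x).card = E.card := by
  rw [Finset.card_eq_sum_card_fiberwise (f := fun m : ι → ℕ => m a) (t := range (M a))]
  · exact Finset.sum_congr rfl fun x _ => card_fib a E x
  · intro m hm
    have := mem_bx.1 (hE hm) a
    simpa using this

theorem fib_subset {a : ι} {M : ι → ℕ} {E : Finset (ι → ℕ)} (hE : E ⊆ bx M) (x : ℕ) :
    fib a E x ⊆ bx (Function.update M a 1) := by
  intro m' hm'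
  unfold fib at hm'
  rw [Finset.mem_image] at hm'
  obtain ⟨m, hm, rfl⟩ := hm'
  rw [Finset.mem_filter] at hm
  rw [mem_bx]
  intro l
  rcases eq_or_ne l a with rfl | hl
  · simp
  · rw [Function.update_of_ne hl, Function.update_of_ne hl]
    exact mem_bx.1 (hE hm.1) l

theorem pp_fib {a : ι} {E : Finset (ι → ℕ)} (g : Ex ι D → ℝ) {x : ℕ} {ε : ℝ}
    (h : ∀ m ∈ E, nd (pp g m) ≤ ε) :
    ∀ m' ∈ fib a E x, nd (pp (psi {a} (Pi.single a x) g) m') ≤ ε := by
  intro m' hm'
  unfold fib at hm'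
  rw [Finset.mem_image] at hm'
  obtain ⟨m, hm, rfl⟩ := hm'
  rw [Finset.mem_filter] at hm
  rw [← pp_psi {a} (μ := Pi.single a x) (m := Function.update m a 0)]
  · have : (fun l => (Pi.single a x : ι → ℕ) l + Function.update m a 0 l) = m := by
      funext l
      rcases eq_or_ne l a with rfl | hl
      · simp [hm.2]
      · simp [hl]
    rw [this]
    exact h m hm.1
  · intro l hl
    rw [Finset.mem_singleton] at hl
    exact Pi.single_eq_of_ne hl _
  · intro l hl
    rw [Finset.mem_singleton] at hl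
    rw [hl]
    simp

theorem prod_update_one (a : ι) (M : ι → ℕ) :
    ∏ l, M l = M a * ∏ l, (Function.update M a 1) l := by
  rw [← Finset.mul_prod_erase univ M (Finset.mem_univ a),
    ← Finset.mul_prod_erase univ (Function.update M a 1) (Finset.mem_univ a)]
  rw [Function.update_self, one_mul]
  congr 1
  refine Finset.prod_congr rfl fun l hl => ?_
  rw [Function.update_of_ne (Finset.ne_of_mem_erase hl)]

theorem mon_update (a : ι) (M : ι → ℕ) (γ : Ex ι D) :
    mon M γ = M a ^ (γ a : ℕ) * mon (Function.update M a 1) (Function.update γ a 0) := by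
  unfold mon
  rw [← Finset.mul_prod_erase univ (fun l => M l ^ (γ l : ℕ)) (Finset.mem_univ a),
    ← Finset.mul_prod_erase univ (fun l => (Function.update M a 1) l ^
      ((Function.update γ a 0 : Ex ι D) l : ℕ)) (Finset.mem_univ a)]
  rw [Function.update_self, one_pow, one_mul]
  congr 1
  refine Finset.prod_congr rfl fun l hl => ?_
  rw [Function.update_of_ne (Finset.ne_of_mem_erase hl),
    Function.update_of_ne (Finset.ne_of_mem_erase hl)]

/-- many rich fibres -/
theorem many_rich {K : ℝ} (hK : 2 ≤ K) {N P : ℕ} (hP : 0 < P) (f : ℕ → ℕ)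
    (hf : ∀ x ∈ range N, f x ≤ P)
    (h : ((N * P : ℕ) : ℝ) ≤ K * ((∑ x ∈ range N, f x : ℕ) : ℝ)) :
    (N : ℝ) ≤ 2 * K * (((range N).filter (fun x => (P : ℝ) ≤ 2 * K * f x)).card : ℝ) := by
  set X := (range N).filter (fun x => (P : ℝ) ≤ 2 * K * f x) with hX
  have hK0 : 0 < K := by linarith
  have hPr : (0 : ℝ) < P := by exact_mod_cast hP
  have h1 : ∀ x ∈ range N, (f x : ℝ) ≤ (if (P : ℝ) ≤ 2 * K * f x then (P : ℝ) else 0) + P / (2 * K) := by
    intro x hx
    by_cases hc : (P : ℝ) ≤ 2 * K * f x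
    · rw [if_pos hc]
      have h2 : (f x : ℝ) ≤ P := by exact_mod_cast hf x hx
      have h3 : 0 ≤ (P : ℝ) / (2 * K) := by positivity
      linarith
    · rw [if_neg hc, zero_add, le_div_iff₀ (by positivity)]
      push Not at hc
      linarith
  have h2 : ((∑ x ∈ range N, f x : ℕ) : ℝ) ≤ X.card * P + N * (P / (2 * K)) := by
    push_cast
    refine (Finset.sum_le_sum h1).trans (le_of_eq ?_)
    rw [Finset.sum_add_distrib, ← Finset.sum_filter, Finset.sum_const, Finset.sum_const,
      nsmul_eq_mul, nsmul_eq_mul, Finset.card_range]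
  have h3 : K * (N * (P / (2 * K))) = N * P / 2 := by
    field_simp
  have h4 : ((N * P : ℕ) : ℝ) ≤ K * (X.card * P) + N * P / 2 := by
    calc ((N * P : ℕ) : ℝ) ≤ K * ((∑ x ∈ range N, f x : ℕ) : ℝ) := h
      _ ≤ K * (X.card * P + N * (P / (2 * K))) := mul_le_mul_of_nonneg_left h2 hK0.le
      _ = K * (X.card * P) + N * P / 2 := by rw [mul_add, h3]
  push_cast at h4
  have h5 : (N : ℝ) * P ≤ (2 * K * X.card) * P := by linarith
  exact le_of_mul_le_mul_right h5 hPr

/-- pigeonhole -/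
theorem pigeon {X : Finset ℕ} {Q : ℝ} (hQ : 0 ≤ Q) (q : ℕ → ℕ) (hq0 : ∀ x ∈ X, 0 < q x)
    (hq : ∀ x ∈ X, (q x : ℝ) ≤ Q) (hX : X.Nonempty) :
    ∃ r : ℕ, 0 < r ∧ (r : ℝ) ≤ Q ∧ (X.card : ℝ) ≤ Q * ((X.filter (fun x => q x = r)).card : ℝ) := by
  classical
  set T : Finset ℕ := Finset.Icc 1 ⌊Q⌋₊ with hT
  have hmem : ∀ x ∈ X, q x ∈ T := by
    intro x hx
    rw [hT, Finset.mem_Icc]
    exact ⟨hq0 x hx, Nat.le_floor (hq x hx)⟩
  have hTne : T.Nonempty := by
    obtain ⟨x, hx⟩ := hX
    exact ⟨_, hmem x hx⟩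
  obtain ⟨r, hr, hmax⟩ := Finset.exists_max_image T
    (fun r => (X.filter (fun x => q x = r)).card) hTne
  have hr' := hr
  rw [hT, Finset.mem_Icc] at hr'
  refine ⟨r, hr'.1, (Nat.le_floor_iff hQ).1 hr'.2, ?_⟩
  have h1 : X.card = ∑ r ∈ T, (X.filter (fun x => q x = r)).card :=
    Finset.card_eq_sum_card_fiberwise hmem
  have h2 : X.card ≤ T.card * (X.filter (fun x => q x = r)).card := by
    rw [h1]
    exact Finset.sum_le_card_nsmul _ _ _ hmax
  have h3 : (T.card : ℝ) ≤ Q := by
    rw [hT, Nat.card_Icc, Nat.add_sub_cancel]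
    exact Nat.floor_le hQ
  calc (X.card : ℝ) ≤ (T.card : ℝ) * ((X.filter (fun x => q x = r)).card : ℝ) := by
        exact_mod_cast h2
    _ ≤ Q * ((X.filter (fun x => q x = r)).card : ℝ) :=
        mul_le_mul_of_nonneg_right h3 (Nat.cast_nonneg _)

end RecBAux

open RecBAux

theorem rec_multi (D : ℕ) (V : Finset ι) : ∃ C : ℕ, ∀ K : ℝ, 2 ≤ K → ∀ M : ι → ℕ,
    (∀ l ∈ V, K ^ C ≤ M l) → (∀ l, l ∉ V → M l = 1) → ∀ ε : ℝ, 0 < ε → K ^ C * ε ≤ 1 →
    ∀ g : Ex ι D → ℝ, ∀ E : Finset (ι → ℕ), E ⊆ bx M → ((∏ l, M l : ℕ) : ℝ) ≤ K * E.card →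
    (∀ m ∈ E, nd (pp g m) ≤ ε) →
    ∃ q : ℕ, 0 < q ∧ (q : ℝ) ≤ K ^ C ∧
      ∀ γ : Ex ι D, (∀ l, l ∉ V → γ l = 0) → nd (q * g γ) * mon M γ ≤ K ^ C * ε := by
  induction V using Finset.induction_on with
  | empty =>
    refine ⟨0, ?_⟩
    intro K hK M _ hM ε hε _ g E hE hcard h
    have hM1 : ∀ l, M l = 1 := fun l => hM l (Finset.notMem_empty l)
    have hEne : E.Nonempty := by
      rw [← Finset.card_pos]
      by_contra hcon
      have h0 : E.card = 0 := by omega
      rw [h0] at hcard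
      simp only [hM1, Finset.prod_const_one, Nat.cast_one, Nat.cast_zero, mul_zero] at hcard
      linarith
    obtain ⟨m, hm⟩ := hEne
    have hm0 : m = fun _ => 0 := by
      funext l
      have := mem_bx.1 (hE hm) l
      rw [hM1 l] at this
      omega
    have hpp : pp g m = g 0 := by
      unfold pp
      rw [Finset.sum_eq_single (0 : Ex ι D)]
      · simp
      · intro γ _ hγ
        obtain ⟨l, hl⟩ := Function.ne_iff.1 hγ
        have : mon m γ = 0 := by
          unfold mon
          rw [Finset.prod_eq_zero (Finset.mem_univ l)]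
          rw [hm0]
          have h1 : (γ l : ℕ) ≠ 0 := by
            intro h2
            exact hl (Fin.ext h2)
          exact zero_pow h1
        rw [this]
        simp
      · intro h0
        exact absurd (Finset.mem_univ _) h0
    have h1 := h m hm
    rw [hpp] at h1
    refine ⟨1, one_pos, by simp, ?_⟩
    intro γ hγ
    have hγ0 : γ = 0 := by
      funext l
      exact hγ l (Finset.notMem_empty l)
    rw [hγ0]
    simpa using h1
  | insert a V' ha ih =>
    obtain ⟨C', hC'⟩ := ih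
    obtain ⟨C₁, hC₁⟩ := rec_one D
    set R : ℕ := Fintype.card (Ex ι D) with hR
    refine ⟨(2 * C' + 2) * C₁ * (R + 1) + 2 * C', ?_⟩
    set C : ℕ := (2 * C' + 2) * C₁ * (R + 1) + 2 * C' with hC
    intro K hK M hMl hM1 ε hε hKε g E hE hcard hnd
    have hK1 : 1 ≤ K := by linarith
    have hK0 : 0 < K := by linarith
    have hmono : ∀ {x y : ℕ}, x ≤ y → K ^ x ≤ K ^ y := fun h => pow_le_pow_right₀ hK1 h
    have hb1 : (2 * C' + 2) * C₁ ≤ (2 * C' + 2) * C₁ * (R + 1) :=
      Nat.le_mul_of_pos_right _ (Nat.succ_pos R)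
    have hb2 : (2 * C' + 2) * C₁ * R ≤ (2 * C' + 2) * C₁ * (R + 1) :=
      Nat.mul_le_mul_left _ (Nat.le_succ R)
    have h2K : (2 * K) ^ C' ≤ K ^ (2 * C') := by
      rw [pow_mul]
      refine pow_le_pow_left₀ (by positivity) ?_ _
      nlinarith
    have h2K0 : 0 < (2 * K) ^ C' := by positivity
    -- the box without `a`
    set M' : ι → ℕ := Function.update M a 1 with hM'
    have hMa : K ^ C ≤ M a := hMl a (Finset.mem_insert_self a V')
    have hM'l : ∀ l ∈ V', (2 * K) ^ C' ≤ M' l := by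
      intro l hl
      have hla : l ≠ a := fun h => ha (h ▸ hl)
      rw [hM', Function.update_of_ne hla]
      refine h2K.trans ((hmono (by omega)).trans (hMl l (Finset.mem_insert_of_mem hl)))
    have hM'1 : ∀ l, l ∉ V' → M' l = 1 := by
      intro l hl
      rcases eq_or_ne l a with rfl | hla
      · rw [hM', Function.update_self]
      · rw [hM', Function.update_of_ne hla]
        exact hM1 l (fun h => (Finset.mem_insert.1 h).elim hla hl)
    have hM'pos : ∀ l, 0 < M' l := by
      intro l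
      by_cases hl : l ∈ V'
      · have := hM'l l hl
        have h3 : (0 : ℝ) < M' l := lt_of_lt_of_le h2K0 this
        exact_mod_cast h3
      · rw [hM'1 l hl]
        exact one_pos
    set P : ℕ := ∏ l, M' l with hP
    have hPpos : 0 < P := Finset.prod_pos fun l _ => hM'pos l
    -- rich fibres
    have hfcard : ∀ x ∈ range (M a), (fib a E x).card ≤ P := by
      intro x _
      rw [hP, ← card_bx]
      exact Finset.card_le_card (fib_subset hE x)
    have hrich := many_rich hK (N := M a) hPpos (fun x => (fib a E x).card) hfcard (by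
      rw [sum_card_fib hE, ← prod_update_one a M]
      exact hcard)
    set X := (range (M a)).filter (fun x => (P : ℝ) ≤ 2 * K * (fib a E x).card) with hX
    have hMapos : (0 : ℝ) < M a := lt_of_lt_of_le (by positivity) hMa
    have hXne : X.Nonempty := by
      rw [← Finset.card_pos]
      by_contra hcon
      have h0 : X.card = 0 := by omega
      rw [h0, Nat.cast_zero, mul_zero] at hrich
      linarith
    have hε' : (2 * K) ^ C' * ε ≤ 1 := by
      refine (mul_le_mul_of_nonneg_right (h2K.trans (hmono (by omega))) hε.le).trans hKε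
    have hIH : ∀ x ∈ X, ∃ q : ℕ, 0 < q ∧ (q : ℝ) ≤ (2 * K) ^ C' ∧
        ∀ γ : Ex ι D, (∀ l, l ∉ V' → γ l = 0) →
          nd (q * psi {a} (Pi.single a x) g γ) * mon M' γ ≤ (2 * K) ^ C' * ε := by
      intro x hx
      rw [hX, Finset.mem_filter] at hx
      exact hC' (2 * K) (by linarith) M' hM'l hM'1 ε hε hε' _ (fib a E x) (fib_subset hE x) hx.2
        (pp_fib g hnd)
    choose! qf hq0 hq1 hq2 using hIH
    obtain ⟨q, hqpos, hqle, hqcard⟩ := pigeon (Q := K ^ (2 * C')) (by positivity) qf hq0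
      (fun x hx => (hq1 x hx).trans h2K) hXne
    set X' := X.filter (fun x => qf x = q) with hX'
    -- one variable
    set K₁ : ℝ := K ^ (2 * C' + 2) with hK₁
    have hK₁2 : 2 ≤ K₁ := by
      calc (2 : ℝ) ≤ K := hK
        _ = K ^ 1 := (pow_one K).symm
        _ ≤ K₁ := hmono (by omega)
    have hK₁pow : ∀ n : ℕ, K₁ ^ n = K ^ ((2 * C' + 2) * n) := fun n => by rw [hK₁, ← pow_mul]
    have hMaX' : (M a : ℝ) ≤ K₁ * X'.card := by
      have h3 : 2 * K * K ^ (2 * C') ≤ K₁ := by
        rw [hK₁, pow_add]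
        have : 2 * K ≤ K ^ 2 := by nlinarith
        have h4 : 0 < K ^ (2 * C') := by positivity
        nlinarith
      calc (M a : ℝ) ≤ 2 * K * X.card := hrich
        _ ≤ 2 * K * (K ^ (2 * C') * X'.card) :=
            mul_le_mul_of_nonneg_left hqcard (by positivity)
        _ = (2 * K * K ^ (2 * C')) * X'.card := by ring
        _ ≤ K₁ * X'.card := mul_le_mul_of_nonneg_right h3 (Nat.cast_nonneg _)
    set Γ : Finset (Ex ι D) := univ.filter (fun γ => ∀ l, l ∉ V' → γ l = 0) with hΓ
    have hone : ∀ γ ∈ Γ, ∃ r : ℕ, 0 < r ∧ (r : ℝ) ≤ K₁ ^ C₁ ∧ ∀ e : Fin (D + 1),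
        nd (r * (q * g (Function.update γ a e))) * (M a : ℝ) ^ (e : ℕ) * mon M' γ ≤
          K₁ ^ C₁ * ((2 * K) ^ C' * ε) := by
      intro γ hγ
      rw [hΓ, Finset.mem_filter] at hγ
      have hγ' := hγ.2
      have hγa : γ a = 0 := hγ' a ha
      have hmon : (1 : ℝ) ≤ mon M' γ := by exact_mod_cast mon_pos hM'pos γ
      have hmon0 : (0 : ℝ) < mon M' γ := by linarith
      set ε₁ : ℝ := (2 * K) ^ C' * ε / mon M' γ with hε₁
      have hε₁0 : 0 < ε₁ := by positivity
      have hε₁le : ε₁ ≤ K ^ (2 * C') * ε := by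
        refine (div_le_self (by positivity) hmon).trans ?_
        exact mul_le_mul_of_nonneg_right h2K hε.le
      have c1 : K₁ ^ C₁ ≤ (M a : ℝ) := by
        rw [hK₁pow]
        exact (hmono (by omega)).trans hMa
      have c2 : K₁ ^ C₁ * ε₁ ≤ 1 := by
        calc K₁ ^ C₁ * ε₁ ≤ K₁ ^ C₁ * (K ^ (2 * C') * ε) :=
              mul_le_mul_of_nonneg_left hε₁le (by positivity)
          _ = K ^ ((2 * C' + 2) * C₁ + 2 * C') * ε := by rw [hK₁pow, pow_add]; ring
          _ ≤ K ^ C * ε := mul_le_mul_of_nonneg_right (hmono (by omega)) hε.le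
          _ ≤ 1 := hKε
      obtain ⟨r, hr0, hr1, hr2⟩ := hC₁ K₁ hK₁2 (M a) c1 ε₁ hε₁0 c2
        (fun e => q * g (Function.update γ a e)) X'
        (fun x hx => by
          rw [hX', Finset.mem_filter, hX, Finset.mem_filter, Finset.mem_range] at hx
          exact hx.1.1) hMaX'
        (fun x hx => by
          rw [hX', Finset.mem_filter] at hx
          have h3 := hq2 x hx.1 γ hγ'
          rw [hx.2, psi_single a x g hγa] at h3
          have h4 : (∑ e : Fin (D + 1), (q * g (Function.update γ a e)) * (x : ℝ) ^ (e : ℕ)) =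
              q * ∑ e : Fin (D + 1), g (Function.update γ a e) * (x : ℝ) ^ (e : ℕ) := by
            rw [Finset.mul_sum]
            exact Finset.sum_congr rfl fun e _ => by ring
          rw [h4, hε₁, le_div_iff₀ hmon0]
          exact h3)
      refine ⟨r, hr0, hr1, fun e => ?_⟩
      have h5 := mul_le_mul_of_nonneg_right (hr2 e) hmon0.le
      refine h5.trans (le_of_eq ?_)
      rw [hε₁]
      field_simp
    choose! r hr0 hr1 hr2 using hone
    have hΓcard : Γ.card ≤ R := by
      rw [hR, ← Finset.card_univ]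
      exact Finset.card_le_card (Finset.filter_subset _ _)
    have hK₁1 : 1 ≤ K₁ ^ C₁ := one_le_pow₀ (by linarith)
    have hprod : ∀ T : Finset (Ex ι D), T ⊆ Γ → ((∏ γ ∈ T, r γ : ℕ) : ℝ) ≤ (K₁ ^ C₁) ^ R := by
      intro T hT
      push_cast
      calc ∏ γ ∈ T, (r γ : ℝ) ≤ ∏ _γ ∈ T, K₁ ^ C₁ :=
            Finset.prod_le_prod (fun _ _ => Nat.cast_nonneg _) (fun γ hγ => hr1 γ (hT hγ))
        _ = (K₁ ^ C₁) ^ T.card := by rw [Finset.prod_const]
        _ ≤ (K₁ ^ C₁) ^ R :=
            pow_le_pow_right₀ hK₁1 ((Finset.card_le_card hT).trans hΓcard)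
    refine ⟨q * ∏ γ ∈ Γ, r γ, Nat.mul_pos hqpos (Finset.prod_pos hr0), ?_, ?_⟩
    · push_cast
      have h3 := hprod Γ Subset.rfl
      push_cast at h3
      calc (q : ℝ) * ∏ γ ∈ Γ, (r γ : ℝ) ≤ K ^ (2 * C') * (K₁ ^ C₁) ^ R :=
            mul_le_mul hqle h3 (Finset.prod_nonneg fun _ _ => Nat.cast_nonneg _) (by positivity)
        _ = K ^ ((2 * C' + 2) * C₁ * R + 2 * C') := by
            rw [hK₁pow, ← pow_mul, pow_add]; ring
        _ ≤ K ^ C := hmono (by omega)
    · intro γ' hγ'
      set γ : Ex ι D := Function.update γ' a 0 with hγ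
      have hγΓ : γ ∈ Γ := by
        rw [hΓ, Finset.mem_filter]
        refine ⟨Finset.mem_univ _, fun l hl => ?_⟩
        rcases eq_or_ne l a with rfl | hla
        · rw [hγ, Function.update_self]
        · rw [hγ, Function.update_of_ne hla]
          exact hγ' l (fun h => (Finset.mem_insert.1 h).elim hla hl)
      have hupd : Function.update γ a (γ' a) = γ' := by
        rw [hγ, Function.update_idem, Function.update_eq_self]
      have h3 := hr2 γ hγΓ (γ' a)
      rw [hupd] at h3
      have h4 : ((q * ∏ γ ∈ Γ, r γ : ℕ) : ℝ) * g γ' =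
          ((∏ δ ∈ Γ.erase γ, r δ : ℕ) : ℝ) * (r γ * (q * g γ')) := by
        rw [← Finset.mul_prod_erase Γ r hγΓ]
        push_cast
        ring
      have h5 : nd (((q * ∏ γ ∈ Γ, r γ : ℕ) : ℝ) * g γ') ≤
          (K₁ ^ C₁) ^ R * nd (r γ * (q * g γ')) := by
        rw [h4]
        refine (Pool.Agent.Lib.Pf720ae.Poly.IW.nd_nat_mul _ _).trans ?_
        exact mul_le_mul_of_nonneg_right (hprod _ (Finset.erase_subset _ _))
          (Pool.Agent.Lib.Pf720ae.Poly.IW.nd_nonneg _)
      have h6 : (mon M γ' : ℝ) = (M a : ℝ) ^ (γ' a : ℕ) * mon M' γ := by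
        rw [mon_update a M γ']
        push_cast
        rfl
      have hMM : (0 : ℝ) ≤ (M a : ℝ) ^ (γ' a : ℕ) * mon M' γ := by positivity
      calc nd (((q * ∏ γ ∈ Γ, r γ : ℕ) : ℝ) * g γ') * mon M γ'
          ≤ ((K₁ ^ C₁) ^ R * nd (r γ * (q * g γ'))) * ((M a : ℝ) ^ (γ' a : ℕ) * mon M' γ) := by
            rw [h6]
            exact mul_le_mul_of_nonneg_right h5 hMM
        _ = (K₁ ^ C₁) ^ R * (nd (r γ * (q * g γ')) * (M a : ℝ) ^ (γ' a : ℕ) * mon M' γ) := by ring
        _ ≤ (K₁ ^ C₁) ^ R * (K₁ ^ C₁ * ((2 * K) ^ C' * ε)) :=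
            mul_le_mul_of_nonneg_left h3 (by positivity)
        _ ≤ (K₁ ^ C₁) ^ R * (K₁ ^ C₁ * (K ^ (2 * C') * ε)) := by gcongr
        _ = K ^ C * ε := by
            rw [hK₁pow, ← pow_mul, hC, pow_add, mul_add, pow_add, mul_one]
            ring

end Pool.Agent.Lib.Pf720mp
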