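import Pool.Agent.Lib.Pf720mp.MxA

/-!
# Rademacher-Menshov for a decreasing family of frequency cutoffs

For fixed `x` apply `rm_pointwise r` to `g n = op (fun a => E n a * Y (j x) a) F x` at
`σ (j x) < 2 ^ r`. The differences are
`g ((l+1) 2^i) - g (l 2^i) = op (fun a => (E ((l+1) 2^i) a - E (l 2^i) a) * Y (j x) a) F x`
`= op (Y (j x)) (op (E ((l+1) 2^i) - E (l 2^i)) F) x` (`op_sub`, `op_op`). Sum over `x`, use
`MxLe S Y B` for each fixed `(i, l)` and then `sum_nn_op_le`: for fixed `i` the functions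
`E ((l+1) 2^i) - E (l 2^i)`, `l < 2^(r-i)`, take values in `{0, -1}` and at each `a` at most one is
nonzero, so `∑_l ‖·‖² ≤ 1`. Result: `∑_x ‖g (σ) - g 0‖² ≤ r * r * B² * nn F`. Finally `g 0` is
bounded by `MxLe S Y B` applied to `op (E 0) F`, and Minkowski (`mx_add`).
-/

set_option autoImplicit false
set_option linter.unusedSectionVars false

open Finset

namespace Pool.Agent.Lib.Pf720mp

variable {I : Type} [Fintype I] [DecidableEq I] {L : ℕ} [NeZero L] {J : Type}

namespace RmAAux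

lemma telesc (E : ℕ → ℂ) (hE : ∀ n, E n = 0 ∨ E n = 1) (hanti : ∀ n, E (n + 1) = 1 → E n = 1)
    (i K : ℕ) : ∑ l ∈ range K, ‖E ((l + 1) * 2 ^ i) - E (l * 2 ^ i)‖ ^ 2 ≤ 1 := by
  classical
  set f : ℕ → ℝ := fun n => if E n = 1 then 1 else 0 with hf
  have hfa : Antitone f := by
    apply antitone_nat_of_succ_le
    intro n
    simp only [hf]
    by_cases h1 : E (n + 1) = 1
    · rw [if_pos h1, if_pos (hanti n h1)]
    · rw [if_neg h1]
      split_ifs <;> norm_num
  have hEf : ∀ n, E n = (f n : ℂ) := by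
    intro n
    simp only [hf]
    rcases hE n with h1 | h1
    · rw [h1, if_neg (by norm_num)]; simp
    · rw [h1, if_pos rfl]; simp
  have hf01 : ∀ n, f n = 0 ∨ f n = 1 := by
    intro n
    simp only [hf]
    split_ifs
    · exact Or.inr rfl
    · exact Or.inl rfl
  have h1 : ∀ l, ‖E ((l + 1) * 2 ^ i) - E (l * 2 ^ i)‖ ^ 2 =
      f (l * 2 ^ i) - f ((l + 1) * 2 ^ i) := by
    intro l
    rw [hEf, hEf, ← Complex.ofReal_sub, Complex.norm_real, Real.norm_eq_abs, sq_abs]
    have h2 : f ((l + 1) * 2 ^ i) ≤ f (l * 2 ^ i) :=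
      hfa (Nat.mul_le_mul_right _ (Nat.le_succ l))
    rcases hf01 ((l + 1) * 2 ^ i) with h3 | h3 <;> rcases hf01 (l * 2 ^ i) with h4 | h4 <;>
      rw [h3, h4] at h2 ⊢ <;> first | (exfalso; linarith) | norm_num
  rw [Finset.sum_congr rfl fun l _ => h1 l]
  rw [Finset.sum_range_sub' (fun l => f (l * 2 ^ i)) K]
  rcases hf01 (0 * 2 ^ i) with h3 | h3 <;> rcases hf01 (K * 2 ^ i) with h4 | h4 <;>
    rw [h3, h4] <;> norm_num

end RmAAux

theorem rm_fam {S : Set J} {Y : J → (I → ZMod L) → ℂ} {B : ℝ} (hB : 0 ≤ B) (hY : MxLe S Y B)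
    (E : ℕ → (I → ZMod L) → ℂ) (hE : ∀ n a, E n a = 0 ∨ E n a = 1)
    (hanti : ∀ n a, E (n + 1) a = 1 → E n a = 1) (r : ℕ) (σ : J → ℕ) (hσ : ∀ j ∈ S, σ j < 2 ^ r) :
    MxLe S (fun j a => E (σ j) a * Y j a) ((r + 1) * B) := by
  have hr0 : (0 : ℝ) ≤ r := Nat.cast_nonneg r
  have hA : MxLe S (fun j a => (E (σ j) a - E 0 a) * Y j a) (r * B) := by
    intro F j hj
    have h1 : ∀ x, ‖op (fun a => (E (σ (j x)) a - E 0 a) * Y (j x) a) F x‖ ^ 2 ≤
        r * ∑ i ∈ range r, ∑ l ∈ range (2 ^ (r - i)),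
          ‖op (Y (j x)) (op (fun a => E ((l + 1) * 2 ^ i) a - E (l * 2 ^ i) a) F) x‖ ^ 2 := by
      intro x
      have h2 := rm_pointwise r (fun n => op (fun a => E n a * Y (j x) a) F x) (σ (j x))
        (hσ _ (hj x))
      have h3 : ∀ n n', op (fun a => E n a * Y (j x) a) F x - op (fun a => E n' a * Y (j x) a) F x =
          op (fun a => (E n a - E n' a) * Y (j x) a) F x := by
        intro n n'
        rw [← op_sub]
        congr 1
        funext a
        ring
      have h4 : ∀ n n', op (fun a => (E n a - E n' a) * Y (j x) a) F x =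
          op (Y (j x)) (op (fun a => E n a - E n' a) F) x := by
        intro n n'
        rw [op_op]
        congr 1
        funext a
        ring
      simp only [h3] at h2
      simp only [h4] at h2 ⊢
      exact h2
    show ∑ x, ‖op (fun a => (E (σ (j x)) a - E 0 a) * Y (j x) a) F x‖ ^ 2 ≤ _
    calc ∑ x, ‖op (fun a => (E (σ (j x)) a - E 0 a) * Y (j x) a) F x‖ ^ 2
        ≤ ∑ x, r * ∑ i ∈ range r, ∑ l ∈ range (2 ^ (r - i)),
          ‖op (Y (j x)) (op (fun a => E ((l + 1) * 2 ^ i) a - E (l * 2 ^ i) a) F) x‖ ^ 2 :=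
          Finset.sum_le_sum fun x _ => h1 x
      _ = r * ∑ i ∈ range r, ∑ l ∈ range (2 ^ (r - i)), ∑ x,
          ‖op (Y (j x)) (op (fun a => E ((l + 1) * 2 ^ i) a - E (l * 2 ^ i) a) F) x‖ ^ 2 := by
          rw [← Finset.mul_sum, Finset.sum_comm]
          congr 1
          exact Finset.sum_congr rfl fun i _ => Finset.sum_comm
      _ ≤ r * ∑ _i ∈ range r, B ^ 2 * nn F := by
          refine mul_le_mul_of_nonneg_left (Finset.sum_le_sum fun i _ => ?_) hr0
          calc ∑ l ∈ range (2 ^ (r - i)), ∑ x,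
              ‖op (Y (j x)) (op (fun a => E ((l + 1) * 2 ^ i) a - E (l * 2 ^ i) a) F) x‖ ^ 2
              ≤ ∑ l ∈ range (2 ^ (r - i)),
                B ^ 2 * nn (op (fun a => E ((l + 1) * 2 ^ i) a - E (l * 2 ^ i) a) F) :=
                Finset.sum_le_sum fun l _ => hY _ j hj
            _ = B ^ 2 * ∑ l ∈ range (2 ^ (r - i)),
                nn (op (fun a => E ((l + 1) * 2 ^ i) a - E (l * 2 ^ i) a) F) := by
                rw [Finset.mul_sum]
            _ ≤ B ^ 2 * (1 * nn F) := by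
                refine mul_le_mul_of_nonneg_left ?_ (sq_nonneg _)
                apply sum_nn_op_le
                intro a
                exact RmAAux.telesc (fun n => E n a) (fun n => hE n a) (fun n => hanti n a) i _
            _ = B ^ 2 * nn F := by rw [one_mul]
      _ = (r * B) ^ 2 * nn F := by
          rw [Finset.sum_const, Finset.card_range, nsmul_eq_mul]
          ring
  have hC : MxLe S (fun j a => E 0 a * Y j a) (1 * B) :=
    mx_mul hY hB zero_le_one (fun a => by
      rcases hE 0 a with h | h <;> rw [h] <;> norm_num)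
  have hD := mx_add hA hC (mul_nonneg hr0 hB) (by rw [one_mul]; exact hB)
  have hE' : ((r : ℝ) + 1) * B = r * B + 1 * B := by ring
  rw [hE']
  exact mx_congr hD fun j _ a => by ring

end Pool.Agent.Lib.Pf720mp
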