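import Pool.Agent.Lib.Pf720mp.Few

/-!
# Freezing small parameters: the sparse part, one exponent

`sparse_one`. Fix `δ ∈ G1 L W`, `T₁ = C₃ i`. Let `Λ = bx (res L (Mj K p))` and for `μ ∈ Λ`
`a_μ j a = KK W i (res W (Mj K j)) (psi L μ (fq a)) * (1 - XX T₁ (tauW W j δ - T₁) (fq a δ))`; the family is
the average over `μ ∈ Λ` of the `a_μ` (`res L (Mj K j) = res L (Mj K p)` for `j ∈ Sp L W p _`).
(1) Each `a_μ` satisfies `MxLe … (C i ^ n)`: `KK_mx` for `W` (level `i`), `mx_hom` with the matrix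
`wt L μ` (periodicity `KK_add_int`), `rm_prop` for the product with `XX`, `mx_sub`.
(2) Overlap: `few_active`.
(3) `mx_overlap` with `k = D |L| 2 ^ (-i)`: bound `sqrt k * C i ^ n`.
-/

set_option autoImplicit false
set_option linter.unusedSectionVars false

open Finset Filter Topology

namespace Pool.Agent.Lib.Pf720mp

variable {ι : Type} [Fintype ι] [DecidableEq ι] {D : ℕ}

namespace SpAAux

/-- the scale of an exponent involving a large parameter -/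
theorem le_tauW {L W : Finset ι} {p : ι → ℕ} {M : ℕ} {j : ι → ℕ} (hj : j ∈ Sp L W p M)
    {δ : Ex ι D} (hδ : δ ∈ (G1 L W : Finset (Ex ι D))) : M ≤ tauW W j δ := by
  unfold G1 at hδ
  rw [Finset.mem_filter] at hδ
  obtain ⟨-, l, hl, hl0⟩ := hδ
  have h1 : M ≤ j l := hj.2 l hl
  have h2 : 1 ≤ (δ l : ℕ) := by
    rcases Nat.eq_zero_or_pos (δ l : ℕ) with h | h
    · exact absurd (Fin.ext (by simpa using h)) hl0
    · exact h
  unfold tauW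
  calc M ≤ j l := h1
    _ = j l * 1 := (mul_one _).symm
    _ ≤ j l * (δ l : ℕ) := Nat.mul_le_mul_left _ h2
    _ ≤ ∑ l ∈ W, j l * (δ l : ℕ) :=
        Finset.single_le_sum (f := fun l => j l * (δ l : ℕ)) (fun _ _ => Nat.zero_le _) hl

theorem res_eq {L W : Finset ι} {p : ι → ℕ} {M : ℕ} (K : ι → ℕ) {j : ι → ℕ}
    (hj : j ∈ Sp L W p M) : res L (Mj K j) = res L (Mj K p) := by
  funext l
  unfold res Mj
  by_cases hl : l ∈ L
  · rw [if_pos hl, if_pos hl, hj.1 l hl]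
  · rw [if_neg hl, if_neg hl]

theorem le_mon {L W : Finset ι} {p : ι → ℕ} {M : ℕ} {K : ι → ℕ} (hK : ∀ l, 0 < K l) {j : ι → ℕ}
    (hj : j ∈ Sp L W p M) {γ : Ex ι D} (hγ : γ ∈ (GV W : Finset (Ex ι D))) :
    2 ^ M ≤ mon (res W (Mj K j)) γ := by
  refine pow_le_mon W Nat.one_le_two_pow (fun l hl => ?_) hγ
  unfold Mj
  calc 2 ^ M ≤ 2 ^ j l := Nat.pow_le_pow_right (by norm_num) (hj.2 l hl)
    _ = 1 * 2 ^ j l := (one_mul _).symm
    _ ≤ K l * 2 ^ j l := Nat.mul_le_mul_right _ (hK l)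

end SpAAux

open SpAAux

theorem sparse_one {L W : Finset ι} (hLW : Disjoint L W) {K : ι → ℕ} (hK : ∀ l, 0 < K l)
    (Ca : ℕ) : ∃ c : ℕ, ∀ C₃ : ℕ, c ≤ C₃ → ∃ (Cb : ℕ) (C ρ : ℝ), 0 ≤ C ∧ 0 < ρ ∧ ρ < 1 ∧
    ∀ (N : ℕ) [NeZero N] (i : ℕ), 1 ≤ i → ∀ p : ι → ℕ, (∀ l ∈ L, i ≤ p l ∧ p l ≤ Ca * i) →
    ∀ δ ∈ (G1 L W : Finset (Ex ι D)),
      MxLe (Sp L W p (Cb * i)) (fun j (a : Ex ι D → ZMod N) => mm L W K i j (fq a) *
        (1 - XX (C₃ * i) (tauW W j δ - C₃ * i) (fq a δ))) (C * ρ ^ i) := by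
  classical
  obtain ⟨c, hc⟩ := few_active (D := D) hLW hK Ca
  obtain ⟨C₁, C₂, hC₂, hKK⟩ := KK_mx (D := D) W K hK
  obtain ⟨CR, hCR, hRM⟩ := rm_prop
  refine ⟨c + 1, fun C₃ hC₃ => ?_⟩
  obtain ⟨n, hn⟩ : ∃ n : ℕ, n = (GV W : Finset (Ex ι D)).card := ⟨_, rfl⟩
  obtain ⟨c₀, hc₀⟩ : ∃ c₀ : ℝ, c₀ = 1 + CR * C₃ := ⟨_, rfl⟩
  have hc₀0 : 0 ≤ c₀ := by rw [hc₀]; positivity
  have hs0 : 0 < Real.sqrt (1 / 2) := Real.sqrt_pos.2 (by norm_num)
  have hs1 : Real.sqrt (1 / 2) < 1 := by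
    rw [Real.sqrt_lt' one_pos]
    norm_num
  obtain ⟨C', ρ', hC', hρρ', hρ', hρ'1, habs⟩ := absorb (n + 1)
    (C := Real.sqrt (D * L.card) * C₂) (by positivity) hs0 hs1 hc₀0
  refine ⟨5 * C₃ + 2 * C₁ + 7, C', ρ', hC', by linarith, hρ'1, ?_⟩
  intro N _ i hi p hp δ hδ
  have hCb1 : C₁ * (i + 1) ≤ (5 * C₃ + 2 * C₁ + 7) * i := by nlinarith
  have hCb2 : 3 * i + 4 ≤ (5 * C₃ + 2 * C₁ + 7) * i := by nlinarith
  have hCb3 : 5 * (C₃ * i) ≤ (5 * C₃ + 2 * C₁ + 7) * i := by nlinarith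
  have hT1 : 1 ≤ C₃ * i := by
    have : 1 ≤ C₃ := by omega
    exact Nat.mul_pos this hi
  obtain ⟨S, hS⟩ : ∃ S : Set (ι → ℕ), S = Sp L W p ((5 * C₃ + 2 * C₁ + 7) * i) := ⟨_, rfl⟩
  rw [← hS]
  obtain ⟨B, hB⟩ : ∃ B : ℝ, B = C₂ * ((i : ℝ) + 1) ^ n := ⟨_, rfl⟩
  have hB0 : 0 ≤ B := by rw [hB]; positivity
  -- the main terms of the large parameters
  have h1 : MxLe S (fun j (a : Ex ι D → ZMod N) => KK W i (res W (Mj K j)) (fq a)) B := by
    rw [hB, hn]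
    refine mx_subset (hKK N i) ?_
    rw [hS]
    intro j hj l hl
    exact hCb1.trans (hj.2 l hl)
  have h2 : ∀ μ : ι → ℕ, MxLe S (fun j (a : Ex ι D → ZMod N) =>
      KK W i (res W (Mj K j)) (psi L μ (fq a))) B := by
    intro μ
    refine mx_hom (I := Ex ι D) (I' := Ex ι D) (n := fun j θ => KK W i (res W (Mj K j)) θ)
      (fun γ δ => wt L μ γ δ) hB0 ?_ h1
    intro j hj θ k
    refine KK_add_int (fun γ hγ => ?_) θ k
    rw [hS] at hj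
    exact (Nat.pow_le_pow_right (by norm_num) hCb2).trans (le_mon hK hj hγ)
  have h3 : ∀ μ : ι → ℕ, MxLe S (fun j (a : Ex ι D → ZMod N) =>
      KK W i (res W (Mj K j)) (psi L μ (fq a)) *
        (1 - XX (C₃ * i) (tauW W j δ - C₃ * i) (fq a δ))) (B + CR * (C₃ * i : ℕ) * B) := by
    intro μ
    have h4 := hRM (Ex ι D) N (ι → ℕ) S (fun j (a : Ex ι D → ZMod N) =>
      KK W i (res W (Mj K j)) (psi L μ (fq a))) B hB0 (h2 μ) δ (C₃ * i) hT1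
      (fun j => tauW W j δ - C₃ * i) (fun j hj => by
        rw [hS] at hj
        have := SpAAux.le_tauW hj hδ
        omega)
    have h5 := mx_sub (h2 μ) h4 hB0 (by positivity)
    refine mx_congr h5 fun j _ a => ?_
    ring
  have hB2 : 0 ≤ B + CR * (C₃ * i : ℕ) * B := by positivity
  have hk0 : (0 : ℝ) ≤ D * L.card * (1 / 2) ^ i := by positivity
  have h6 := mx_overlap (bx (res L (Mj K p))) (S := S)
    (m := fun μ j (a : Ex ι D → ZMod N) => KK W i (res W (Mj K j)) (psi L μ (fq a)) *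
        (1 - XX (C₃ * i) (tauW W j δ - C₃ * i) (fq a δ))) hB2 hk0 (fun μ _ => h3 μ) (by
    intro a
    refine hc C₃ (by omega) i hi p hp δ hδ (fq a) _ (Finset.filter_subset _ _) ?_
    intro μ hμ
    rw [Finset.mem_filter] at hμ
    obtain ⟨-, j, hj, hj0⟩ := hμ
    rw [hS] at hj
    refine ⟨j, ⟨hj.1, fun l hl => ?_⟩, left_ne_zero_of_mul hj0, fun hX => ?_⟩
    · have := hj.2 l hl
      nlinarith
    · exact right_ne_zero_of_mul hj0 (by rw [hX, sub_self]))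
  have h7 := mx_congr (m' := fun j (a : Ex ι D → ZMod N) => mm L W K i j (fq a) *
        (1 - XX (C₃ * i) (tauW W j δ - C₃ * i) (fq a δ))) h6 (by
    intro j hj a
    rw [hS] at hj
    unfold mm
    rw [res_eq K hj, ← Finset.sum_mul, card_bx]
    push_cast
    ring)
  refine mx_mono h7 (by positivity) ?_
  refine le_trans ?_ (habs i)
  have h8 : Real.sqrt (D * L.card * (1 / 2) ^ i) =
      Real.sqrt (D * L.card) * Real.sqrt (1 / 2) ^ i := by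
    rw [Real.sqrt_mul (by positivity)]
    congr 1
    rw [Real.sqrt_eq_rpow, Real.sqrt_eq_rpow, ← Real.rpow_natCast, ← Real.rpow_natCast,
      ← Real.rpow_mul (by norm_num), ← Real.rpow_mul (by norm_num), mul_comm]
  rw [h8, hB]
  have hi0 : (0 : ℝ) ≤ i := Nat.cast_nonneg i
  have h9 : C₂ * ((i : ℝ) + 1) ^ n + CR * (C₃ * i : ℕ) * (C₂ * ((i : ℝ) + 1) ^ n) ≤
      C₂ * (c₀ * i + 1) ^ (n + 1) := by
    have e1 : (i : ℝ) + 1 ≤ c₀ * i + 1 := by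
      have : 0 ≤ CR * C₃ * i := by positivity
      rw [hc₀]
      linarith
    have e2 : 1 + CR * (C₃ * i : ℕ) ≤ c₀ * i + 1 := by
      rw [hc₀]
      push_cast
      linarith
    have e3 : 0 ≤ 1 + CR * ((C₃ * i : ℕ) : ℝ) := by positivity
    calc C₂ * ((i : ℝ) + 1) ^ n + CR * (C₃ * i : ℕ) * (C₂ * ((i : ℝ) + 1) ^ n) =
        C₂ * (((i : ℝ) + 1) ^ n * (1 + CR * (C₃ * i : ℕ))) := by ring
      _ ≤ C₂ * ((c₀ * i + 1) ^ n * (c₀ * i + 1)) := by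
          refine mul_le_mul_of_nonneg_left ?_ hC₂
          exact mul_le_mul (pow_le_pow_left₀ (by positivity) e1 n) e2 e3 (by positivity)
      _ = C₂ * (c₀ * i + 1) ^ (n + 1) := by rw [pow_succ]
  calc Real.sqrt (D * L.card) * Real.sqrt (1 / 2) ^ i *
      (C₂ * ((i : ℝ) + 1) ^ n + CR * (C₃ * i : ℕ) * (C₂ * ((i : ℝ) + 1) ^ n)) ≤
      Real.sqrt (D * L.card) * Real.sqrt (1 / 2) ^ i * (C₂ * (c₀ * i + 1) ^ (n + 1)) :=
        mul_le_mul_of_nonneg_left h9 (by positivity)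
    _ = Real.sqrt (D * L.card) * C₂ * (c₀ * i + 1) ^ (n + 1) * Real.sqrt (1 / 2) ^ i := by ring

end Pool.Agent.Lib.Pf720mp
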