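import Pool.Agent.Lib.Pf720mp.Gap

/-!
# All indices with a given minimum

Hypothesis `h`: the conclusion of `gap` for every nonempty `L ⊆ V`, `W = V \ L` and every `Ca`
(constants depending on `L`, `Ca`). Conclusion: the bound for all `j` with `min_V j = i`.

Define `c 0 = 1`, `c (s+1) = c s + max_L Cb(L, c s)` (maximum over the nonempty `L ⊆ V`), so `c` is
nondecreasing and `Cb(L, c s) ≤ c (s+1)`. Let `j` have minimum `i` over `V`, attained; for
`s ≤ card V` let `L_s = {l ∈ V | j l ≤ c s * i}`. `L_0` is nonempty and `L_s` increases with `s`, so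
`L_s = L_{s+1}` for some `s < card V` (otherwise `card L_{card V} ≥ 1 + card V`). For this `s` and
`L = L_s`: `i ≤ j l ≤ c s * i` on `L` and `j l > c (s+1) * i ≥ Cb(L, c s) * i` on `V \ L`. Let
`p l = j l` for `l ∈ L`, `0` otherwise. So the index set is the union over the finite set of triples
`(s, L, p)` with `s < card V`, `L ⊆ V` nonempty, `p l ≤ c (card V) * i` (all `l`), `p` in
`Fintype.piFinset fun _ => range (c (card V) * i + 1)`, of the sets
`Sp L (V \ L) p (Cb(L, c s) * i)` for which `i ≤ p l ≤ c s * i` on `L` (for the other triples use the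
empty set). `mx_biUnion`; the number of triples is at most
`card V * 2 ^ card V * (c (card V) * i + 1) ^ card ι`, a polynomial in `i`; absorb it.
Polynomial factors: `absorb` (file Abs.lean, proved).
-/

set_option autoImplicit false
set_option linter.unusedSectionVars false

open Finset Filter Topology

namespace Pool.Agent.Lib.Pf720mp

variable {ι : Type} [Fintype ι] [DecidableEq ι] {D : ℕ}

namespace SumA

lemma exists_rho {κ : Type} (A : Finset κ) (ρ : κ → ℝ) (h : ∀ a ∈ A, ρ a < 1) :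
    ∃ r : ℝ, 0 < r ∧ r < 1 ∧ ∀ a ∈ A, ρ a ≤ r := by
  classical
  induction A using Finset.induction_on with
  | empty => exact ⟨1 / 2, by norm_num, by norm_num, by simp⟩
  | insert a A ha ih =>
      obtain ⟨r, h1, h2, h3⟩ := ih fun b hb => h b (Finset.mem_insert_of_mem hb)
      refine ⟨max r (ρ a), lt_max_of_lt_left h1, max_lt h2 (h a (Finset.mem_insert_self _ _)), ?_⟩
      intro b hb
      rcases Finset.mem_insert.1 hb with rfl | hb
      · exact le_max_right _ _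
      · exact (h3 b hb).trans (le_max_left _ _)

lemma pigeon (V : Finset ι) (c : ℕ → ℕ) (hc0 : 1 ≤ c 0) (hc : Monotone c) (i : ℕ) (j : ι → ℕ)
    (h : ∃ l ∈ V, j l = i) :
    ∃ s < V.card, (V.filter fun l => j l ≤ c s * i) = V.filter fun l => j l ≤ c (s + 1) * i := by
  by_contra hcon
  push Not at hcon
  have key : ∀ s ≤ V.card, s + 1 ≤ (V.filter fun l => j l ≤ c s * i).card := by
    intro s
    induction s with
    | zero =>
        intro _
        obtain ⟨l, hl, hj⟩ := h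
        have : l ∈ V.filter fun l => j l ≤ c 0 * i := by
          rw [Finset.mem_filter]
          exact ⟨hl, by rw [hj]; exact Nat.le_mul_of_pos_left _ hc0⟩
        exact Finset.card_pos.2 ⟨l, this⟩
    | succ s ih =>
        intro hs
        have h1 := ih (by omega)
        have h2 : (V.filter fun l => j l ≤ c s * i) ⊆ V.filter fun l => j l ≤ c (s + 1) * i := by
          intro l hl
          rw [Finset.mem_filter] at hl ⊢
          exact ⟨hl.1, hl.2.trans (Nat.mul_le_mul_right _ (hc (Nat.le_succ s)))⟩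
        have h3 := Finset.card_lt_card (Finset.ssubset_iff_subset_ne.2 ⟨h2, hcon s (by omega)⟩)
        omega
  have h1 := key V.card le_rfl
  have h2 := Finset.card_filter_le V fun l => j l ≤ c V.card * i
  omega

end SumA

theorem all_min {V : Finset ι} (hVne : V.Nonempty) {K : ι → ℕ} {C₀ : ℕ}
    (h : ∀ L : Finset ι, L ⊆ V → L.Nonempty → ∀ Ca : ℕ, ∃ (Cb : ℕ) (C ρ : ℝ), 0 ≤ C ∧ 0 < ρ ∧
      ρ < 1 ∧ ∀ (N : ℕ) [NeZero N] (i : ℕ), 1 ≤ i →
      ∀ p : ι → ℕ, (∀ l ∈ L, i ≤ p l ∧ p l ≤ Ca * i) →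
        MxLe (Sp L (V \ L) p (Cb * i)) (fun j (a : Ex ι D → ZMod N) =>
          AA (res V (Mj K j)) (fq a) - KK V (i / C₀) (res V (Mj K j)) (fq a)) (C * ρ ^ i)) :
    ∃ (C ρ : ℝ), 0 ≤ C ∧ 0 < ρ ∧ ρ < 1 ∧ ∀ (N : ℕ) [NeZero N] (i : ℕ), 1 ≤ i →
      MxLe {j : ι → ℕ | (∀ l ∈ V, i ≤ j l) ∧ ∃ l ∈ V, j l = i}
        (fun j (a : Ex ι D → ZMod N) =>
          AA (res V (Mj K j)) (fq a) - KK V (i / C₀) (res V (Mj K j)) (fq a)) (C * ρ ^ i) := by
  classical
  have h' : ∀ (L : Finset ι) (Ca : ℕ), ∃ (Cb : ℕ) (C ρ : ℝ), 0 ≤ C ∧ 0 < ρ ∧ ρ < 1 ∧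
      (L ⊆ V → L.Nonempty → ∀ (N : ℕ) [NeZero N] (i : ℕ), 1 ≤ i →
      ∀ p : ι → ℕ, (∀ l ∈ L, i ≤ p l ∧ p l ≤ Ca * i) →
        MxLe (Sp L (V \ L) p (Cb * i)) (fun j (a : Ex ι D → ZMod N) =>
          AA (res V (Mj K j)) (fq a) - KK V (i / C₀) (res V (Mj K j)) (fq a)) (C * ρ ^ i)) := by
    intro L Ca
    by_cases h1 : L ⊆ V ∧ L.Nonempty
    · obtain ⟨Cb, C, ρ, h2, h3, h4, h5⟩ := h L h1.1 h1.2 Ca
      exact ⟨Cb, C, ρ, h2, h3, h4, fun _ _ => h5⟩
    · exact ⟨0, 0, 1 / 2, le_rfl, by norm_num, by norm_num, fun h2 h3 => absurd ⟨h2, h3⟩ h1⟩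
  choose Cb C ρ hC0 hρ0 hρ1 hM using h'
  obtain ⟨c, hc00, hcs⟩ : ∃ c : ℕ → ℕ, c 0 = 1 ∧
      ∀ s, c (s + 1) = c s + ∑ L ∈ V.powerset, Cb L (c s) :=
    ⟨fun s => Nat.rec 1 (fun _ x => x + ∑ L ∈ V.powerset, Cb L x) s, rfl, fun s => rfl⟩
  have hcm : Monotone c := monotone_nat_of_le_succ fun s => by rw [hcs]; omega
  have hc1 : ∀ s, 1 ≤ c s := fun s => hc00 ▸ hcm (Nat.zero_le s)
  have hcb : ∀ s, ∀ L ⊆ V, Cb L (c s) ≤ c (s + 1) := by
    intro s L hL
    rw [hcs]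
    have := Finset.single_le_sum (f := fun L => Cb L (c s)) (fun _ _ => Nat.zero_le _)
      (Finset.mem_powerset.2 hL)
    omega
  obtain ⟨r, hr0, hr1, hr⟩ := SumA.exists_rho (range V.card ×ˢ V.powerset)
    (fun t => ρ t.2 (c t.1)) (fun t _ => hρ1 _ _)
  set Cm : ℝ := ∑ t ∈ range V.card ×ˢ V.powerset, C t.2 (c t.1) with hCm
  have hCm0 : 0 ≤ Cm := Finset.sum_nonneg fun t _ => hC0 _ _
  have hCle : ∀ t ∈ range V.card ×ˢ V.powerset, C t.2 (c t.1) ≤ Cm := fun t ht =>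
    Finset.single_le_sum (f := fun t => C t.2 (c t.1)) (fun t _ => hC0 _ _) ht
  have hcn : (0 : ℝ) ≤ ((c V.card : ℕ) : ℝ) := Nat.cast_nonneg _
  have hAn : (0 : ℝ) ≤ (((range V.card ×ˢ V.powerset).card : ℕ) : ℝ) * Cm :=
    mul_nonneg (Nat.cast_nonneg _) hCm0
  obtain ⟨C', ρ', hC', _, hρ'0, hρ'1, hab⟩ := absorb (Fintype.card ι) hAn hr0 hr1 hcn
  refine ⟨C', ρ', hC', by linarith, hρ'1, fun N _ i hi => ?_⟩
  let T : Finset ((ℕ × Finset ι) × (ι → ℕ)) := (range V.card ×ˢ V.powerset) ×ˢ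
    (Fintype.piFinset fun _ : ι => range (c V.card * i + 1))
  have hcard : (T.card : ℝ) = (((range V.card ×ˢ V.powerset).card : ℕ) : ℝ) *
      (c V.card * i + 1) ^ Fintype.card ι := by
    rw [show T.card = (range V.card ×ˢ V.powerset).card *
      (Fintype.piFinset fun _ : ι => range (c V.card * i + 1)).card from Finset.card_product _ _,
      Fintype.card_piFinset, Finset.prod_const, Finset.card_range, Finset.card_univ]
    push_cast
    ring
  have hsum : ∑ t ∈ T, C t.1.2 (c t.1.1) * ρ t.1.2 (c t.1.1) ^ i ≤ C' * ρ' ^ i := by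
    refine (Finset.sum_le_card_nsmul T _ (Cm * r ^ i) fun t ht => ?_).trans ?_
    · have ht1 := (Finset.mem_product.1 ht).1
      exact mul_le_mul (hCle _ ht1) (pow_le_pow_left₀ (hρ0 _ _).le (hr _ ht1) i)
        (pow_nonneg (hρ0 _ _).le _) hCm0
    · rw [nsmul_eq_mul, hcard]
      refine (le_of_eq ?_).trans (hab i)
      ring
  have h0 : ∀ t ∈ T, 0 ≤ C t.1.2 (c t.1.1) * ρ t.1.2 (c t.1.1) ^ i := fun t _ =>
    mul_nonneg (hC0 _ _) (pow_nonneg (hρ0 _ _).le _)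
  refine mx_mono (mx_biUnion T (S := fun t => {j | t.1.2 ⊆ V ∧ t.1.2.Nonempty ∧
    (∀ l ∈ t.1.2, i ≤ t.2 l ∧ t.2 l ≤ c t.1.1 * i) ∧
    j ∈ Sp t.1.2 (V \ t.1.2) t.2 (Cb t.1.2 (c t.1.1) * i)}) h0 (fun t _ => ?_) ?_)
    (Finset.sum_nonneg h0) hsum
  · by_cases h1 : t.1.2 ⊆ V ∧ t.1.2.Nonempty ∧ (∀ l ∈ t.1.2, i ≤ t.2 l ∧ t.2 l ≤ c t.1.1 * i)
    · exact mx_subset (hM _ _ h1.1 h1.2.1 N i hi t.2 h1.2.2) fun j hj => hj.2.2.2
    · intro F jj hjj
      exact absurd ⟨(hjj 0).1, (hjj 0).2.1, (hjj 0).2.2.1⟩ h1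
  · rintro j ⟨hj1, hj2⟩
    obtain ⟨s, hs, hL⟩ := SumA.pigeon V c (hc1 0) hcm i j hj2
    set L := V.filter fun l => j l ≤ c s * i with hLdef
    have hLV : L ⊆ V := Finset.filter_subset _ _
    refine ⟨((s, L), fun l => if l ∈ L then j l else 0), ?_, hLV, ?_, ?_, ?_, ?_⟩
    · refine Finset.mem_product.2 ⟨Finset.mem_product.2 ⟨Finset.mem_range.2 hs,
        Finset.mem_powerset.2 hLV⟩, ?_⟩
      rw [Fintype.mem_piFinset]
      intro l
      rw [Finset.mem_range]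
      show (if l ∈ L then j l else 0) < _
      split_ifs with hl
      · have h1 := (Finset.mem_filter.1 hl).2
        have h2 := Nat.mul_le_mul_right i (hcm hs.le)
        omega
      · omega
    · obtain ⟨l, hl, hj⟩ := hj2
      refine ⟨l, Finset.mem_filter.2 ⟨hl, ?_⟩⟩
      rw [hj]
      exact Nat.le_mul_of_pos_left _ (hc1 s)
    · intro l hl
      show i ≤ (if l ∈ L then j l else 0) ∧ (if l ∈ L then j l else 0) ≤ c s * i
      have hl' : l ∈ L := hl
      rw [if_pos hl']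
      exact ⟨hj1 l (hLV hl'), (Finset.mem_filter.1 hl').2⟩
    · intro l hl
      exact (if_pos hl).symm
    · intro l hl
      rw [Finset.mem_sdiff] at hl
      have h1 : l ∉ V.filter fun l => j l ≤ c (s + 1) * i := by rw [← hL]; exact hl.2
      rw [Finset.mem_filter, not_and] at h1
      have h2 := h1 hl.1
      have h3 := Nat.mul_le_mul_right i (hcb s L hLV)
      show Cb L (c s) * i ≤ j l
      omega

end Pool.Agent.Lib.Pf720mp
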