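import Pool.Agent.Lib.Pf720mp.SumA

/-!
# Summation over the minimum
-/

set_option autoImplicit false
set_option linter.unusedSectionVars false

open Finset Filter Topology

namespace Pool.Agent.Lib.Pf720mp

variable {ι : Type} [Fintype ι] [DecidableEq ι] {D : ℕ}

lemma sumB_geo {C ρ : ℝ} (hC : 0 ≤ C) (hρ : 0 < ρ) (hρ1 : ρ < 1) {t a : ℕ} (h : t ≤ a) :
    Summable (fun i : ℕ => C * ρ ^ (a + i)) ∧ 0 ≤ ∑' i : ℕ, C * ρ ^ (a + i) ∧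
      ∑' i : ℕ, C * ρ ^ (a + i) ≤ C * (1 - ρ)⁻¹ * ρ ^ t := by
  have h1 : ∀ i : ℕ, C * ρ ^ (a + i) = C * ρ ^ a * ρ ^ i := fun i => by rw [pow_add]; ring
  have h2 : Summable (fun i : ℕ => C * ρ ^ (a + i)) := by
    simp only [h1]
    exact (summable_geometric_of_lt_one hρ.le hρ1).mul_left _
  refine ⟨h2, tsum_nonneg fun i => by positivity, ?_⟩
  simp only [h1]
  rw [tsum_mul_left, tsum_geometric_of_lt_one hρ.le hρ1]
  have h3 : ρ ^ a ≤ ρ ^ t := pow_le_pow_of_le_one hρ.le hρ1.le h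
  have h4 : 0 ≤ (1 - ρ)⁻¹ := inv_nonneg.2 (by linarith)
  calc C * ρ ^ a * (1 - ρ)⁻¹ = C * (1 - ρ)⁻¹ * ρ ^ a := by ring
    _ ≤ C * (1 - ρ)⁻¹ * ρ ^ t := mul_le_mul_of_nonneg_left h3 (mul_nonneg hC h4)

theorem ss_of_min {V : Finset ι} (hVne : V.Nonempty) {K : ι → ℕ} {C₀ : ℕ} (hC₀ : 1 ≤ C₀)
    {C₁ ρ₁ : ℝ} (hC₁ : 0 ≤ C₁) (hρ₁ : 0 < ρ₁) (hρ₁' : ρ₁ < 1)
    (hD : ∀ (N : ℕ) [NeZero N] (t : ℕ), 1 ≤ t →
      MxLe {j : ι → ℕ | ∀ l ∈ V, C₀ * t ≤ j l}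
      (fun j (a : Ex ι D → ZMod N) => KK V t (res V (Mj K j)) (fq a) -
        KK V (t - 1) (res V (Mj K j)) (fq a)) (C₁ * ρ₁ ^ t))
    {C₂ ρ₂ : ℝ} (hC₂ : 0 ≤ C₂) (hρ₂ : 0 < ρ₂) (hρ₂' : ρ₂ < 1)
    (h : ∀ (N : ℕ) [NeZero N] (i : ℕ), 1 ≤ i →
      MxLe {j : ι → ℕ | (∀ l ∈ V, i ≤ j l) ∧ ∃ l ∈ V, j l = i}
        (fun j (a : Ex ι D → ZMod N) =>
          AA (res V (Mj K j)) (fq a) - KK V (i / C₀) (res V (Mj K j)) (fq a)) (C₂ * ρ₂ ^ i)) :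
    SS D V K := by
  classical
  refine ⟨C₀, C₂ * (1 - ρ₂)⁻¹ + C₁ * (1 - ρ₁)⁻¹, max ρ₁ ρ₂, ?_, lt_max_of_lt_left hρ₁,
    max_lt hρ₁' hρ₂', ?_⟩
  · have h1 : 0 ≤ (1 - ρ₁)⁻¹ := inv_nonneg.2 (by linarith)
    have h2 : 0 ≤ (1 - ρ₂)⁻¹ := inv_nonneg.2 (by linarith)
    positivity
  intro N _ t ht
  set mn : (ι → ℕ) → ℕ := fun j => V.inf' hVne j with hmn
  have hmn1 : ∀ j : ι → ℕ, ∀ l ∈ V, mn j ≤ j l := fun j l hl => Finset.inf'_le _ hl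
  have hmn2 : ∀ (j : ι → ℕ) (a : ℕ), (∀ l ∈ V, a ≤ j l) → a ≤ mn j := fun j a ha =>
    Finset.le_inf' hVne _ ha
  have hmn3 : ∀ j : ι → ℕ, ∃ l ∈ V, j l = mn j := by
    intro j
    obtain ⟨l, hl, h1⟩ := Finset.exists_mem_eq_inf' hVne j
    exact ⟨l, hl, h1.symm⟩
  obtain ⟨g1, g2, g3⟩ := sumB_geo hC₂ hρ₂ hρ₂' (t := t) (a := C₀ * t)
    (Nat.le_mul_of_pos_left _ hC₀)
  obtain ⟨g4, g5, g6⟩ := sumB_geo hC₁ hρ₁ hρ₁' (t := t) (a := t + 1) (by omega)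
  -- the part between the scale of the minimum and the sum
  have hA : MxLe {j : ι → ℕ | ∀ l ∈ V, C₀ * t ≤ j l} (fun j (a : Ex ι D → ZMod N) =>
      AA (res V (Mj K j)) (fq a) - KK V (mn j / C₀) (res V (Mj K j)) (fq a))
      (∑' i : ℕ, C₂ * ρ₂ ^ (C₀ * t + i)) := by
    refine mx_iUnion (S := fun i => {j : ι → ℕ | (∀ l ∈ V, C₀ * t + i ≤ j l) ∧
      ∃ l ∈ V, j l = C₀ * t + i}) (fun i => by positivity) g1 ?_ ?_
    · intro i
      refine mx_congr (h N (C₀ * t + i) ?_) ?_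
      · have : 1 ≤ C₀ * t := Nat.mul_pos hC₀ ht
        omega
      · rintro j ⟨hj1, l, hl, hj2⟩ a
        have h1 : mn j = C₀ * t + i := le_antisymm (by rw [← hj2]; exact hmn1 j l hl)
          (hmn2 j _ hj1)
        rw [h1]
    · intro j hj
      have h1 := hmn2 j _ hj
      refine ⟨mn j - C₀ * t, ?_, ?_⟩
      · intro l hl
        have := hmn1 j l hl
        omega
      · obtain ⟨l, hl, h2⟩ := hmn3 j
        exact ⟨l, hl, by omega⟩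
  -- the telescoping part
  have hB : MxLe {j : ι → ℕ | ∀ l ∈ V, C₀ * t ≤ j l} (fun j (a : Ex ι D → ZMod N) =>
      ∑ s ∈ range (mn j / C₀ - t), (KK V (t + 1 + s) (res V (Mj K j)) (fq a) -
        KK V (t + 1 + s - 1) (res V (Mj K j)) (fq a)))
      (∑' i : ℕ, C₁ * ρ₁ ^ (t + 1 + i)) := by
    refine mx_tsum (d := fun s j (a : Ex ι D → ZMod N) =>
      KK V (t + 1 + s) (res V (Mj K j)) (fq a) - KK V (t + 1 + s - 1) (res V (Mj K j)) (fq a))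
      (fun s => by positivity) g4 (fun j => mn j / C₀ - t) ?_
    intro s
    refine mx_subset (hD N (t + 1 + s) (by omega)) ?_
    rintro j ⟨_, hj⟩ l hl
    have h1 : t + 1 + s ≤ mn j / C₀ := by
      have : s < mn j / C₀ - t := hj
      omega
    have h2 : (t + 1 + s) * C₀ ≤ mn j := (Nat.le_div_iff_mul_le hC₀).1 h1
    rw [mul_comm]
    exact h2.trans (hmn1 j l hl)
  have hAB := mx_add hA hB g2 g5
  refine mx_mono (mx_congr hAB ?_) (add_nonneg g2 g5) ?_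
  · intro j hj a
    have h1 : t ≤ mn j / C₀ := (Nat.le_div_iff_mul_le hC₀).2 (by
      rw [mul_comm]; exact hmn2 j _ hj)
    have h2 : ∑ s ∈ range (mn j / C₀ - t), (KK V (t + 1 + s) (res V (Mj K j)) (fq a) -
        KK V (t + 1 + s - 1) (res V (Mj K j)) (fq a)) =
        KK V (mn j / C₀) (res V (Mj K j)) (fq a) - KK V t (res V (Mj K j)) (fq a) := by
      have h3 := Finset.sum_range_sub (fun s => KK V (t + s) (res V (Mj K j)) (fq a))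
        (mn j / C₀ - t)
      simp only [add_zero] at h3
      rw [show t + (mn j / C₀ - t) = mn j / C₀ by omega] at h3
      rw [← h3]
      refine Finset.sum_congr rfl fun s _ => ?_
      rw [show t + 1 + s - 1 = t + s by omega, show t + 1 + s = t + (s + 1) by omega]
    rw [h2]
    ring
  · refine (add_le_add g3 g6).trans ?_
    have h1 : 0 ≤ (1 - ρ₁)⁻¹ := inv_nonneg.2 (by linarith)
    have h2 : 0 ≤ (1 - ρ₂)⁻¹ := inv_nonneg.2 (by linarith)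
    have h3 : ρ₁ ^ t ≤ (max ρ₁ ρ₂) ^ t := pow_le_pow_left₀ hρ₁.le (le_max_left _ _) t
    have h4 : ρ₂ ^ t ≤ (max ρ₁ ρ₂) ^ t := pow_le_pow_left₀ hρ₂.le (le_max_right _ _) t
    rw [add_mul]
    gcongr

end Pool.Agent.Lib.Pf720mp
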