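import Pool.Agent.Lib.Pf720mp.SumB

/-!
# The main theorem on multipliers

Strong induction on `V.card`. `V = ∅`: `res ∅ M = 1`, `AA (res ∅ M) θ = ee (θ 0)`,
`KK ∅ t (res ∅ M) θ = KB … 0 = ee (θ 0) * HH ∅ 0 _ = ee (θ 0)` (`GV ∅ = ∅`; or use `AppP` for
`V = ∅`: the hypothesis on `M` is vacuous so `‖AA - KK‖ ≤ C ρ ^ t` only; better directly: `HH ∅ b u = 1`
as the limit of `AA (res ∅ _) (pt ∅ b u _) = 1`). So the family vanishes (`mx_const` with `n = 0`).
`V ≠ ∅`: let `C₀` be the maximum of the constants of `app D V` and of `KK_diff_mx V K` (both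
properties are inherited by larger constants: `AppP` because the hypothesis on `M` is stronger,
`KK_diff_mx` by `mx_subset`). For nonempty `L ⊆ V`, `gap` with `W = V \ L` (smaller cardinality, so
`SS D (V \ L) K`; `L ∪ (V \ L) = V`). Then `all_min` and `ss_of_min`.
-/

set_option autoImplicit false
set_option linter.unusedSectionVars false

open Finset Filter Topology

namespace Pool.Agent.Lib.Pf720mp

variable {ι : Type} [Fintype ι] [DecidableEq ι]

section aux

variable {D : ℕ}

lemma sc_GV_empty : (GV (∅ : Finset ι) : Finset (Ex ι D)) = ∅ := by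
  ext γ
  simp only [mem_GV, Finset.notMem_empty, not_false_eq_true, forall_true_left, iff_false, not_and]
  intro h1 h2
  exact h1 (funext h2)

lemma sc_AA_empty (M : ι → ℕ) (θ : Ex ι D → ℝ) :
    AA (res ∅ M) θ = Pool.Agent.Lib.Pf720ae.Poly.ee (θ 0) := by
  have h1 : res (∅ : Finset ι) M = fun _ => 1 := by
    funext l
    exact res_of_notMem (Finset.notMem_empty l)
  have h2 : bx (fun _ : ι => 1) = {fun _ => 0} := by
    ext m
    rw [mem_bx, Finset.mem_singleton]
    constructor
    · intro h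
      funext l
      have := h l
      omega
    · rintro rfl l
      exact one_pos
  have h3 : pp θ (fun _ : ι => 0) = θ 0 := by
    unfold pp
    rw [Finset.sum_eq_single 0]
    · simp
    · intro γ _ hγ
      have h4 : ∃ l, γ l ≠ 0 := by
        by_contra hcon
        push Not at hcon
        exact hγ (funext hcon)
      obtain ⟨l, hl⟩ := h4
      have h5 : mon (fun _ : ι => 0) γ = 0 := by
        unfold mon
        refine Finset.prod_eq_zero (Finset.mem_univ l) ?_
        refine zero_pow ?_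
        intro h6
        exact hl (Fin.ext h6)
      rw [h5]
      simp
    · intro h
      exact absurd (Finset.mem_univ _) h
  unfold AA
  rw [h1, h2, Finset.sum_singleton, h3]
  simp

lemma sc_HH_empty (b : Ex ι D → ℚ) (u : Ex ι D → ℝ) : HH (∅ : Finset ι) b u = 1 := by
  unfold HH
  have h1 : (fun N : ℕ => AA (res (∅ : Finset ι) fun _ => N + 1)
      (pt ∅ b u (res ∅ fun _ => N + 1))) = fun _ => (1 : ℂ) := by
    funext N
    rw [sc_AA_empty]
    unfold pt
    rw [if_neg (by rw [sc_GV_empty]; exact Finset.notMem_empty _)]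
    exact Pool.Agent.Lib.Pf720ae.Poly.ee_zero
  rw [h1]
  exact tendsto_const_nhds.limUnder_eq

lemma sc_KK_empty (t : ℕ) (M : ι → ℕ) (θ : Ex ι D → ℝ) :
    KK ∅ t M θ = Pool.Agent.Lib.Pf720ae.Poly.ee (θ 0) := by
  have h1 : ∃ b, Rep ∅ t M θ b := by
    refine ⟨0, fun _ _ => rfl, ⟨1, one_pos, Nat.one_le_two_pow, fun γ => ⟨0, by simp⟩⟩, ?_⟩
    intro γ hγ
    rw [sc_GV_empty] at hγ
    exact absurd hγ (Finset.notMem_empty _)
  unfold KK
  rw [dif_pos h1]
  unfold KB
  rw [sc_HH_empty, sc_GV_empty]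
  simp

end aux

theorem ss_all (D : ℕ) (V : Finset ι) (K : ι → ℕ) (hK : ∀ l, 0 < K l) : SS D V K := by
  induction V using Finset.strongInduction with
  | H V ih =>
    rcases V.eq_empty_or_nonempty with rfl | hVne
    · refine ⟨0, 0, 1 / 2, le_refl _, by norm_num, by norm_num, fun N _ t _ => ?_⟩
      rw [zero_mul]
      refine mx_const (n := fun _ => 0) (fun j _ a => ?_) fun a => by simp
      rw [sc_AA_empty, sc_KK_empty, sub_self]
    · obtain ⟨C₀, CA, ρA, hC₀, hCA, hρA, hρA1, hApp⟩ := app (ι := ι) D V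
      obtain ⟨C₁, CD, ρD, hCD, hρD, hρD1, hdiff⟩ := KK_diff_mx (D := D) V K hK
      have hApp' : AppP D V (max C₀ C₁) CA ρA := by
        intro t M hM θ
        refine hApp t M (fun l hl => ?_) θ
        refine le_trans ?_ (hM l hl)
        exact Nat.pow_le_pow_right (by norm_num) (Nat.mul_le_mul_right t (le_max_left _ _))
      have hC1 : 1 ≤ max C₀ C₁ := le_trans (by omega) (le_max_left C₀ C₁)
      have hgap : ∀ L : Finset ι, L ⊆ V → L.Nonempty → ∀ Ca : ℕ, ∃ (Cb : ℕ) (C ρ : ℝ), 0 ≤ C ∧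
          0 < ρ ∧ ρ < 1 ∧ ∀ (N : ℕ) [NeZero N] (i : ℕ), 1 ≤ i →
          ∀ p : ι → ℕ, (∀ l ∈ L, i ≤ p l ∧ p l ≤ Ca * i) →
            MxLe (Sp L (V \ L) p (Cb * i)) (fun j (a : Ex ι D → ZMod N) =>
              AA (res V (Mj K j)) (fq a) -
                KK V (i / max C₀ C₁) (res V (Mj K j)) (fq a)) (C * ρ ^ i) := by
        intro L hL hLne Ca
        have hU : L ∪ (V \ L) = V := Finset.union_sdiff_of_subset hL
        have hS : SS D (V \ L) K := ih _ (Finset.sdiff_ssubset hL hLne)
        have h1 := gap (L := L) (W := V \ L) Finset.disjoint_sdiff hK hS hC1 hCA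
          (lt_of_lt_of_le (by norm_num) hρA) hρA1 (by rw [hU]; exact hApp') Ca
        rw [hU] at h1
        exact h1
      obtain ⟨C₂, ρ₂, hC₂, hρ₂, hρ₂1, hmin⟩ := all_min hVne hgap
      refine ss_of_min hVne hC1 hCD hρD hρD1 (fun N _ t ht => ?_) hC₂ hρ₂ hρ₂1 hmin
      exact mx_subset (hdiff N t ht) fun j hj l hl =>
        le_trans (Nat.mul_le_mul_right t (le_max_right _ _)) (hj l hl)

end Pool.Agent.Lib.Pf720mp
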