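import Mathlib

/-!
# Fourier multipliers on finite tori with a general index set
-/

set_option autoImplicit false
set_option linter.unusedSectionVars false

open Finset ZMod
open scoped ComplexConjugate

namespace Pool.Agent.Lib.Pf720mp

variable {I : Type} [Fintype I] [DecidableEq I] {L : ℕ} [NeZero L]

/-- characters of `(ℤ / L)^I` -/
noncomputable def chi (a x : I → ZMod L) : ℂ := stdAddChar (∑ e, a e * x e)

lemma chi_zero (a : I → ZMod L) : chi a 0 = 1 := by
  simp [chi]

lemma chi_add (a x y : I → ZMod L) : chi a (x + y) = chi a x * chi a y := by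
  unfold chi
  rw [← AddChar.map_add_eq_mul]
  congr 1
  rw [← Finset.sum_add_distrib]
  exact Finset.sum_congr rfl fun e _ => mul_add _ _ _

lemma norm_chi (a x : I → ZMod L) : ‖chi a x‖ = 1 := by
  unfold chi
  rw [stdAddChar_apply]
  exact Circle.norm_coe _

lemma chi_neg (a x : I → ZMod L) : chi a (-x) = conj (chi a x) := by
  have h1 : chi a (-x) * chi a x = 1 := by
    rw [← chi_add, neg_add_cancel, chi_zero]
  have h2 : conj (chi a x) * chi a x = 1 := by
    rw [mul_comm, Complex.mul_conj, Complex.normSq_eq_norm_sq, norm_chi]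
    norm_num
  have h3 : chi a x ≠ 0 := by
    intro h
    have := norm_chi a x
    rw [h, norm_zero] at this
    norm_num at this
  exact mul_right_cancel₀ h3 (h1.trans h2.symm)

lemma sum_chi (z : I → ZMod L) : ∑ a, chi a z = if z = 0 then (L : ℂ) ^ Fintype.card I else 0 := by
  have h1 : ∀ a : I → ZMod L, chi a z = ∏ e, stdAddChar (a e * z e) := by
    intro a
    unfold chi
    have h0 := map_prod (AddChar.toMonoidHom (stdAddChar (N := L)))
      (fun e : I => Multiplicative.ofAdd (a e * z e)) Finset.univ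
    exact h0
  simp only [h1]
  have h2 := Finset.prod_univ_sum (fun _ : I => (Finset.univ : Finset (ZMod L)))
    (fun e t => stdAddChar (t * z e))
  rw [Fintype.piFinset_univ] at h2
  rw [← h2]
  have h3 : ∀ e : I, ∑ t : ZMod L, stdAddChar (t * z e) = if z e = 0 then (L : ℂ) else 0 := by
    intro e
    rw [AddChar.sum_mulShift _ (isPrimitive_stdAddChar L), ZMod.card]
    split_ifs <;> simp
  simp only [h3]
  by_cases hz : z = 0
  · simp [hz]
  · rw [if_neg hz]
    obtain ⟨e, he⟩ := Function.ne_iff.1 hz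
    exact Finset.prod_eq_zero (Finset.mem_univ e) (if_neg he)

/-- Fourier transform -/
noncomputable def ft (F : (I → ZMod L) → ℂ) (a : I → ZMod L) : ℂ := ∑ x, F x * chi a (-x)

/-- squared `ℓ²` norm -/
noncomputable def nn (F : (I → ZMod L) → ℂ) : ℝ := ∑ x, ‖F x‖ ^ 2

lemma nn_nonneg (F : (I → ZMod L) → ℂ) : 0 ≤ nn F := Finset.sum_nonneg fun _ _ => sq_nonneg _

lemma norm_sq_eq (z : ℂ) : ((‖z‖ ^ 2 : ℝ) : ℂ) = z * conj z := by
  rw [Complex.mul_conj, Complex.normSq_eq_norm_sq]

lemma parseval (F : (I → ZMod L) → ℂ) : ∑ a, ‖ft F a‖ ^ 2 = (L : ℝ) ^ Fintype.card I * nn F := by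
  have h1 : ((∑ a, ‖ft F a‖ ^ 2 : ℝ) : ℂ) = (((L : ℝ) ^ Fintype.card I * nn F : ℝ) : ℂ) := by
    rw [Complex.ofReal_sum]
    simp only [norm_sq_eq]
    have h2 : ∀ a, ft F a * conj (ft F a) =
        ∑ x, ∑ y, F x * conj (F y) * chi a (y - x) := by
      intro a
      unfold ft
      rw [map_sum, Finset.sum_mul_sum]
      refine Finset.sum_congr rfl fun x _ => Finset.sum_congr rfl fun y _ => ?_
      rw [map_mul, sub_eq_add_neg, chi_add, ← chi_neg, neg_neg]
      ring
    simp only [h2]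
    rw [Finset.sum_comm]
    have h3 : ∀ x, ∑ a, ∑ y, F x * conj (F y) * chi a (y - x) =
        (L : ℂ) ^ Fintype.card I * (F x * conj (F x)) := by
      intro x
      rw [Finset.sum_comm]
      simp only [← Finset.mul_sum, sum_chi]
      rw [Finset.sum_eq_single x]
      · rw [sub_self, if_pos rfl]; ring
      · intro y _ hy
        rw [if_neg (sub_ne_zero.2 hy), mul_zero]
      · intro h
        exact absurd (Finset.mem_univ x) h
    simp only [h3]
    rw [← Finset.mul_sum]
    unfold nn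
    push_cast
    congr 1
    refine Finset.sum_congr rfl fun x _ => ?_
    rw [← norm_sq_eq]
    push_cast
    rfl
  exact_mod_cast h1

/-- Fourier multiplier -/
noncomputable def op (m : (I → ZMod L) → ℂ) (F : (I → ZMod L) → ℂ)
    (x : I → ZMod L) : ℂ := ((L : ℂ) ^ Fintype.card I)⁻¹ * ∑ a, m a * ft F a * chi a x

lemma L_ne : ((L : ℂ) ^ Fintype.card I) ≠ 0 := pow_ne_zero _ (Nat.cast_ne_zero.2 (NeZero.ne L))

lemma chi_comm (a x : I → ZMod L) : chi a x = chi x a := by
  unfold chi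
  congr 1
  exact Finset.sum_congr rfl fun e _ => mul_comm _ _

lemma ft_op (m : (I → ZMod L) → ℂ) (F : (I → ZMod L) → ℂ) (a : I → ZMod L) :
    ft (op m F) a = m a * ft F a := by
  have h1 : ft (op m F) a = ((L : ℂ) ^ Fintype.card I)⁻¹ * ∑ b, ∑ x, m b * ft F b * chi x (b - a) := by
    conv_lhs => unfold ft
    rw [Finset.sum_comm, Finset.mul_sum]
    refine Finset.sum_congr rfl fun x _ => ?_
    unfold op
    rw [mul_assoc, Finset.sum_mul]
    congr 1
    refine Finset.sum_congr rfl fun b _ => ?_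
    rw [sub_eq_add_neg, chi_add, chi_comm x b, chi_neg, chi_neg, chi_comm x a]
    ring
  rw [h1]
  simp only [← Finset.mul_sum, sum_chi]
  rw [Finset.sum_eq_single a]
  · rw [sub_self, if_pos rfl, mul_comm (m a * ft F a), ← mul_assoc, inv_mul_cancel₀ L_ne, one_mul]
  · intro b _ hb
    rw [if_neg (sub_ne_zero.2 hb), mul_zero]
  · intro h
    exact absurd (Finset.mem_univ a) h

lemma ft_injective {F F' : (I → ZMod L) → ℂ} (h : ft F = ft F') : F = F' := by
  have h1 : ft (F - F') = 0 := by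
    funext a
    have := congrFun h a
    unfold ft at this ⊢
    simp only [Pi.sub_apply, sub_mul, Finset.sum_sub_distrib, this, sub_self, Pi.zero_apply]
  have h2 := parseval (F - F')
  rw [h1] at h2
  simp only [Pi.zero_apply, norm_zero, ne_eq, OfNat.ofNat_ne_zero, not_false_eq_true, zero_pow,
    Finset.sum_const_zero] at h2
  have h3 : nn (F - F') = 0 := by
    rcases mul_eq_zero.1 h2.symm with h | h
    · exfalso
      exact pow_ne_zero _ (Nat.cast_ne_zero.2 (NeZero.ne L) : (L : ℝ) ≠ 0) h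
    · exact h
  funext x
  unfold nn at h3
  have h4 := (Finset.sum_eq_zero_iff_of_nonneg fun _ _ => sq_nonneg _).1 h3 x (Finset.mem_univ x)
  have h5 : (F - F') x = 0 := by simpa using h4
  exact sub_eq_zero.1 h5

lemma op_one (F : (I → ZMod L) → ℂ) : op (fun _ => 1) F = F := by
  apply ft_injective
  funext a
  rw [ft_op, one_mul]

lemma op_op (m m' : (I → ZMod L) → ℂ) (F : (I → ZMod L) → ℂ) :
    op m (op m' F) = op (fun a => m a * m' a) F := by
  apply ft_injective
  funext a
  rw [ft_op, ft_op, ft_op, mul_assoc]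

lemma op_chi (v : I → ZMod L) (F : (I → ZMod L) → ℂ) (x : I → ZMod L) :
    op (fun a => chi a v) F x = F (x + v) := by
  have h1 : op (fun a => chi a v) F x = op (fun _ => 1) F (x + v) := by
    unfold op
    congr 1
    refine Finset.sum_congr rfl fun a _ => ?_
    rw [chi_add]
    ring
  rw [h1, op_one]

lemma op_sum {ι : Type*} (s : Finset ι) (m : ι → (I → ZMod L) → ℂ)
    (F : (I → ZMod L) → ℂ) (x : I → ZMod L) :
    op (fun a => ∑ i ∈ s, m i a) F x = ∑ i ∈ s, op (m i) F x := by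
  unfold op
  rw [← Finset.mul_sum, Finset.sum_comm]
  congr 1
  refine Finset.sum_congr rfl fun a _ => ?_
  rw [Finset.sum_mul, Finset.sum_mul]

lemma op_smul (c : ℂ) (m : (I → ZMod L) → ℂ) (F : (I → ZMod L) → ℂ)
    (x : I → ZMod L) : op (fun a => c * m a) F x = c * op m F x := by
  unfold op
  rw [mul_left_comm, Finset.mul_sum _ _ c]
  congr 1
  refine Finset.sum_congr rfl fun a _ => ?_
  ring

lemma op_sub (m m' : (I → ZMod L) → ℂ) (F : (I → ZMod L) → ℂ)
    (x : I → ZMod L) : op (fun a => m a - m' a) F x = op m F x - op m' F x := by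
  unfold op
  rw [← mul_sub, ← Finset.sum_sub_distrib]
  congr 1
  refine Finset.sum_congr rfl fun a _ => ?_
  ring

lemma op_add (m m' : (I → ZMod L) → ℂ) (F : (I → ZMod L) → ℂ)
    (x : I → ZMod L) : op (fun a => m a + m' a) F x = op m F x + op m' F x := by
  unfold op
  rw [← mul_add, ← Finset.sum_add_distrib]
  congr 1
  refine Finset.sum_congr rfl fun a _ => ?_
  ring

lemma nn_op (m : (I → ZMod L) → ℂ) (F : (I → ZMod L) → ℂ) :
    (L : ℝ) ^ Fintype.card I * nn (op m F) = ∑ a, ‖m a‖ ^ 2 * ‖ft F a‖ ^ 2 := by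
  rw [← parseval]
  refine Finset.sum_congr rfl fun a _ => ?_
  rw [ft_op, norm_mul, mul_pow]

/-- square functions -/
theorem sum_nn_op_le {ι : Type*} (s : Finset ι) (m : ι → (I → ZMod L) → ℂ) {B : ℝ}
    (hB : ∀ a, ∑ i ∈ s, ‖m i a‖ ^ 2 ≤ B) (F : (I → ZMod L) → ℂ) :
    ∑ i ∈ s, nn (op (m i) F) ≤ B * nn F := by
  have hL : 0 < (L : ℝ) ^ Fintype.card I := pow_pos (Nat.cast_pos.2 (NeZero.pos L)) _
  refine le_of_mul_le_mul_left ?_ hL
  rw [Finset.mul_sum]
  simp only [nn_op]
  rw [Finset.sum_comm]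
  calc ∑ a, ∑ i ∈ s, ‖m i a‖ ^ 2 * ‖ft F a‖ ^ 2 = ∑ a, (∑ i ∈ s, ‖m i a‖ ^ 2) * ‖ft F a‖ ^ 2 :=
        Finset.sum_congr rfl fun a _ => (Finset.sum_mul _ _ _).symm
    _ ≤ ∑ a, B * ‖ft F a‖ ^ 2 :=
        Finset.sum_le_sum fun a _ => mul_le_mul_of_nonneg_right (hB a) (sq_nonneg _)
    _ = (L : ℝ) ^ Fintype.card I * (B * nn F) := by
        rw [← Finset.mul_sum, parseval]; ring

lemma nn_op_le (m : (I → ZMod L) → ℂ) {B : ℝ} (hB : ∀ a, ‖m a‖ ≤ B)
    (F : (I → ZMod L) → ℂ) : nn (op m F) ≤ B ^ 2 * nn F := by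
  have h1 := sum_nn_op_le (s := ({()} : Finset Unit)) (fun _ => m) (B := B ^ 2) (fun a => by
    rw [Finset.sum_singleton]
    exact pow_le_pow_left₀ (norm_nonneg _) (hB a) 2) F
  rwa [Finset.sum_singleton] at h1

/-- Rademacher-Menshov, pointwise -/
lemma rm_pointwise (r : ℕ) : ∀ (g : ℕ → ℂ) (j : ℕ), j < 2 ^ r →
    ‖g j - g 0‖ ^ 2 ≤ r * ∑ i ∈ range r, ∑ l ∈ range (2 ^ (r - i)),
      ‖g ((l + 1) * 2 ^ i) - g (l * 2 ^ i)‖ ^ 2 := by
  induction r with
  | zero =>
    intro g j hj
    rw [pow_zero, Nat.lt_one_iff] at hj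
    subst hj
    simp
  | succ r ih =>
    intro g j hj
    have h1 := ih (fun l => g (2 * l)) (j / 2) (by
      rw [pow_succ] at hj
      omega)
    simp only [mul_zero] at h1
    set A : ℝ := ∑ l ∈ range (2 ^ (r + 1)), ‖g (l + 1) - g l‖ ^ 2 with hA
    set S : ℝ := ∑ i ∈ range r, ∑ l ∈ range (2 ^ (r - i)),
      ‖g (2 * ((l + 1) * 2 ^ i)) - g (2 * (l * 2 ^ i))‖ ^ 2 with hS
    have h2 : ∑ i ∈ range (r + 1), ∑ l ∈ range (2 ^ (r + 1 - i)),
        ‖g ((l + 1) * 2 ^ i) - g (l * 2 ^ i)‖ ^ 2 = S + A := by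
      rw [Finset.sum_range_succ']
      congr 1
      · refine Finset.sum_congr rfl fun i _ => ?_
        rw [Nat.add_sub_add_right]
        refine Finset.sum_congr rfl fun l _ => ?_
        rw [pow_succ]
        congr 3 <;> ring_nf
      · simp only [pow_zero, mul_one, Nat.sub_zero, hA]
    rw [h2]
    have hS0 : 0 ≤ S := Finset.sum_nonneg fun _ _ => Finset.sum_nonneg fun _ _ => sq_nonneg _
    have hb : ‖g j - g (2 * (j / 2))‖ ^ 2 ≤ A := by
      rcases Nat.mod_two_eq_zero_or_one j with h | h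
      · have : 2 * (j / 2) = j := by omega
        rw [this, sub_self, norm_zero]
        have : 0 ≤ A := Finset.sum_nonneg fun _ _ => sq_nonneg _
        simpa using this
      · have h3 : 2 * (j / 2) + 1 = j := by omega
        have h4 : 2 * (j / 2) ∈ range (2 ^ (r + 1)) := by
          rw [Finset.mem_range]; omega
        have h5 := Finset.single_le_sum (f := fun l => ‖g (l + 1) - g l‖ ^ 2)
          (fun _ _ => sq_nonneg _) h4
        rw [← h3]
        have h6 : 2 * ((2 * (j / 2) + 1) / 2) = 2 * (j / 2) := by omega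
        rw [h6]
        exact h5
    set a : ℝ := ‖g j - g (2 * (j / 2))‖ with ha
    set b : ℝ := ‖g (2 * (j / 2)) - g 0‖ with hb'
    have htri : ‖g j - g 0‖ ≤ a + b := by
      have : g j - g 0 = (g j - g (2 * (j / 2))) + (g (2 * (j / 2)) - g 0) := by ring
      rw [this]
      exact norm_add_le _ _
    have ha0 : 0 ≤ a := norm_nonneg _
    have hb0 : 0 ≤ b := norm_nonneg _
    have h7 : ‖g j - g 0‖ ^ 2 ≤ (a + b) ^ 2 := pow_le_pow_left₀ (norm_nonneg _) htri 2
    refine h7.trans ?_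
    push_cast
    rcases Nat.eq_zero_or_pos r with hr | hr
    · subst hr
      have hb1 : b ^ 2 ≤ 0 := by simpa using h1
      have hb2 : b = 0 := by nlinarith
      rw [hb2]
      simp only [CharP.cast_eq_zero, zero_add, one_mul, add_zero]
      linarith
    · have hr' : (0 : ℝ) < r := Nat.cast_pos.2 hr
      -- (a+b)^2 ≤ (r+1) a^2 + (1 + 1/r) b^2
      have h8 : (a + b) ^ 2 ≤ (r + 1) * a ^ 2 + (1 + 1 / r) * b ^ 2 := by
        have h9 : 2 * a * b ≤ r * a ^ 2 + 1 / r * b ^ 2 := by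
          have h10 : 0 ≤ (r * a - b) ^ 2 / r := by positivity
          have h11 : (r * a - b) ^ 2 / r = r * a ^ 2 + 1 / r * b ^ 2 - 2 * a * b := by
            field_simp
            ring
          linarith
        nlinarith
      have h12 : (1 + 1 / (r : ℝ)) * b ^ 2 ≤ (1 + 1 / r) * (r * S) :=
        mul_le_mul_of_nonneg_left h1 (by positivity)
      have h13 : (1 + 1 / (r : ℝ)) * (r * S) = (r + 1) * S := by
        field_simp
      have h14 : ((r : ℝ) + 1) * a ^ 2 ≤ (r + 1) * A :=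
        mul_le_mul_of_nonneg_left hb (by positivity)
      linarith

end Pool.Agent.Lib.Pf720mp
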